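import Pool.Agent.EvM.EmDefs
import Pool.Agent.NT9.GePB

set_option autoImplicit false

/-! # EbP: the ideal generated by a family, and the elements of `Mo ^ e` which vanish there -/

namespace Pool.Agent.EvM

open Pool.Agent.NT9

variable {K : Type} [Field K]

/-- The ideal of `O` generated by the `g i`, as a set. -/
def QG (O : Subring K) {ι : Type} [Fintype ι] (g : ι → K) : Set K :=
  {x | ∃ c : ι → K, (∀ i, c i ∈ O) ∧ x = ∑ i, c i * g i}

section QG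

variable {O : Subring K} {ι : Type} [Fintype ι] {g : ι → K}

theorem qg_zero : (0 : K) ∈ QG O g :=
  ⟨fun _ => 0, fun _ => O.zero_mem, by simp⟩

theorem qg_add {x y : K} (hx : x ∈ QG O g) (hy : y ∈ QG O g) : x + y ∈ QG O g := by
  obtain ⟨c, hc, rfl⟩ := hx
  obtain ⟨d, hd, rfl⟩ := hy
  refine ⟨fun i => c i + d i, fun i => O.add_mem (hc i) (hd i), ?_⟩
  rw [← Finset.sum_add_distrib]
  exact Finset.sum_congr rfl fun i _ => by ring

theorem qg_mul {a x : K} (ha : a ∈ O) (hx : x ∈ QG O g) : a * x ∈ QG O g := by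
  obtain ⟨c, hc, rfl⟩ := hx
  refine ⟨fun i => a * c i, fun i => O.mul_mem ha (hc i), ?_⟩
  rw [Finset.mul_sum]
  exact Finset.sum_congr rfl fun i _ => by ring

theorem qg_mul_right {a x : K} (hx : x ∈ QG O g) (ha : a ∈ O) : x * a ∈ QG O g := by
  rw [mul_comm]
  exact qg_mul ha hx

theorem qg_mx [IsLocalRing O] (hg : ∀ i, g i ∈ mx O) {x : K} (hx : x ∈ QG O g) : x ∈ mx O := by
  obtain ⟨c, hc, rfl⟩ := hx
  exact mx_sum _ _ fun i _ => mx_mul (hc i) (hg i)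

theorem qg_mem (hg : ∀ i, g i ∈ O) {x : K} (hx : x ∈ QG O g) : x ∈ O := by
  obtain ⟨c, hc, rfl⟩ := hx
  exact O.sum_mem fun i _ => O.mul_mem (hc i) (hg i)

theorem qg_self (i : ι) : g i ∈ QG O g := by
  classical
  refine ⟨fun j => if j = i then 1 else 0, fun j => ?_, ?_⟩
  · dsimp only
    split_ifs
    · exact O.one_mem
    · exact O.zero_mem
  · simp

end QG

/-- As `gen_mx`, for the ideal generated by the `g i`. -/
theorem gen_qg {Mo : Submodule ℤ K} (hfg : Mo.FG) {μ : K} (hμ : μ ∈ Mo) (h0 : μ ≠ 0)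
    {O : Subring K} (hA : ch Mo μ ≤ O) {ι : Type} [Fintype ι] (g : ι → K) :
    ∃ e0 : ℕ, ∀ e, e0 ≤ e → ∀ x ∈ ch Mo μ, x ∈ QG O g →
      ∃ (k : ℕ) (a u : Fin k → K), (∀ j, a j ∈ ch Mo μ) ∧ (∀ j, u j ∈ Mo ^ e) ∧
        (∀ j, u j / μ ^ e ∈ QG O g) ∧ x = ∑ j, a j * (u j / μ ^ e) := by
  have hN := noeth_ch hfg μ
  let I : Ideal (ch Mo μ) :=
    { carrier := {x | (x : K) ∈ QG O g}
      add_mem' := fun ha hb => qg_add ha hb
      zero_mem' := qg_zero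
      smul_mem' := fun c x hx => qg_mul (hA c.2) hx }
  have hI : ∀ x : ch Mo μ, x ∈ I ↔ (x : K) ∈ QG O g := fun x => Iff.rfl
  obtain ⟨m, s, hs⟩ := Submodule.fg_iff_exists_fin_generating_family.mp (hN.noetherian I)
  choose e0 he0 using fun j : Fin m => exists_pow_of_ch hμ h0 (s j).2
  refine ⟨Finset.univ.sup e0, fun e he x hx hxm => ?_⟩
  have hxI : (⟨x, hx⟩ : ch Mo μ) ∈ I := (hI _).mpr hxm
  rw [← hs, Submodule.mem_span_range_iff_exists_fun] at hxI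
  obtain ⟨c, hc⟩ := hxI
  have hμe : μ ^ e ≠ 0 := pow_ne_zero _ h0
  refine ⟨m, fun j => c j, fun j => (s j : K) * μ ^ e, fun j => (c j).2, fun j => ?_, fun j => ?_,
    ?_⟩
  · exact he0 j e ((Finset.le_sup (Finset.mem_univ j)).trans he)
  · rw [mul_div_cancel_right₀ _ hμe]
    refine (hI _).mp ?_
    rw [← hs]
    exact Submodule.subset_span ⟨j, rfl⟩
  · have h1 := congrArg (fun z : ch Mo μ => (z : K)) hc
    simp only [smul_eq_mul, AddSubmonoidClass.coe_finsetSum, Subring.coe_mul] at h1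
    rw [← h1]
    refine Finset.sum_congr rfl fun j _ => ?_
    rw [mul_div_cancel_right₀ _ hμe]

/-- The elements of `Mo ^ e` which vanish on the subscheme `g = 0`, `e` large; `m` generates `Mo`. -/
theorem exists_PG {Mo : Submodule ℤ K} {κ : Type} [Fintype κ] {m : κ → K}
    (hm : Mo = Submodule.span ℤ (Set.range m)) {O : Subring K} (hO : O ∈ Loc Mo)
    (hfr : FinRes O) {ι : Type} [Fintype ι] {g : ι → K} {N : ℕ}
    (hN : ∀ x : Fin N → K, (∀ l, x l ∈ mx O) → ∏ l, x l ∈ QG O g) :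
    ∃ (e : ℕ) (P : Submodule ℤ K), 0 < e ∧ P ≤ Mo ^ e ∧
      (∃ z : ℤ, z ≠ 0 ∧ ∀ x ∈ Mo ^ e, (z : K) * x ∈ P) ∧
      (∀ i, m i ≠ 0 → IsFr (ch Mo (m i)) O →
        (∀ u ∈ P, u / m i ^ e ∈ QG O g) ∧
        ∀ x ∈ ch Mo (m i), x ∈ QG O g → ∃ (k : ℕ) (a u : Fin k → K), (∀ j, a j ∈ ch Mo (m i)) ∧
          (∀ j, u j ∈ P) ∧ x = ∑ j, a j * (u j / m i ^ e)) ∧
      (∀ i, m i ≠ 0 → ¬ IsFr (ch Mo (m i)) O → m i ^ e ∈ P) := by
  have hloc : IsLocalRing O := hO.1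
  obtain ⟨i0, hi0, hfr0⟩ := loc_gen hm hO
  have hmm : ∀ i, m i ∈ Mo := fun i => by
    rw [hm]
    exact Submodule.subset_span ⟨i, rfl⟩
  have hMfg : Mo.FG := by
    rw [hm]
    exact Submodule.fg_span (Set.finite_range m)
  have hpowN : ∀ x ∈ mx O, ∀ e, N ≤ e → x ^ e ∈ QG O g := by
    intro x hx e he
    have h1 := hN (fun _ => x) fun _ => hx
    rw [Finset.prod_const, Finset.card_univ, Fintype.card_fin] at h1
    have h2 : x ^ e = x ^ (e - N) * x ^ N := by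
      rw [← pow_add, Nat.sub_add_cancel he]
    rw [h2]
    exact qg_mul (O.pow_mem hx.1 _) h1
  have hex : ∀ i, ∃ e0 : ℕ, m i ≠ 0 → IsFr (ch Mo (m i)) O → ∀ e, e0 ≤ e → ∀ x ∈ ch Mo (m i),
      x ∈ QG O g → ∃ (k : ℕ) (a u : Fin k → K), (∀ j, a j ∈ ch Mo (m i)) ∧ (∀ j, u j ∈ Mo ^ e) ∧
        (∀ j, u j / m i ^ e ∈ QG O g) ∧ x = ∑ j, a j * (u j / m i ^ e) := by
    intro i
    by_cases hi : m i ≠ 0 ∧ IsFr (ch Mo (m i)) O
    · obtain ⟨e0, h⟩ := gen_qg hMfg (hmm i) hi.1 hi.2.1 g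
      exact ⟨e0, fun _ _ => h⟩
    · exact ⟨0, fun h1 h2 => absurd ⟨h1, h2⟩ hi⟩
  choose e0 he0 using hex
  set e : ℕ := Finset.univ.sup e0 + N + 1 with he
  have hle : ∀ i, e0 i ≤ e := fun i => by
    have := Finset.le_sup (f := e0) (Finset.mem_univ i)
    omega
  have hNe : N ≤ e := by omega
  have hμe : m i0 ^ e ≠ 0 := pow_ne_zero _ hi0
  let P : Submodule ℤ K :=
    { carrier := {u | u ∈ Mo ^ e ∧ u / m i0 ^ e ∈ QG O g}
      add_mem' := by
        rintro a b ⟨h1, h2⟩ ⟨h3, h4⟩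
        refine ⟨Submodule.add_mem _ h1 h3, ?_⟩
        rw [add_div]
        exact qg_add h2 h4
      zero_mem' := ⟨Submodule.zero_mem _, by rw [zero_div]; exact qg_zero⟩
      smul_mem' := by
        rintro n a ⟨h1, h2⟩
        refine ⟨Submodule.smul_mem _ _ h1, ?_⟩
        rw [zsmul_eq_mul, mul_div_assoc]
        exact qg_mul (intCast_mem O n) h2 }
  have hP : ∀ u, u ∈ P ↔ u ∈ Mo ^ e ∧ u / m i0 ^ e ∈ QG O g := fun u => Iff.rfl
  refine ⟨e, P, Nat.succ_pos _, fun u hu => hu.1, ?_, fun i hi hfri => ⟨fun u hu => ?_, ?_⟩,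
    fun i hi hni => ?_⟩
  · obtain ⟨z, hz, hzm⟩ := exists_int_mem hfr
    refine ⟨z ^ e, pow_ne_zero _ hz, fun x hx => (hP _).mpr ⟨?_, ?_⟩⟩
    · rw [← zsmul_eq_mul]
      exact Submodule.smul_mem _ _ hx
    · rw [mul_div_assoc]
      refine qg_mul_right ?_ (hfr0.1 (div_pow_mem_ch hi0 hx))
      rw [Int.cast_pow]
      exact hpowN _ hzm e hNe
  · have h1 : u / m i ^ e = u / m i0 ^ e * (m i0 / m i) ^ e := by
      rw [div_pow]
      field_simp
    rw [h1]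
    exact qg_mul_right hu.2 (O.pow_mem (hfri.1 (Subring.subset_closure ⟨m i0, hmm i0, rfl⟩)) _)
  · intro x hx hxm
    obtain ⟨k, a, u, h1, h2, h3, h4⟩ := he0 i hi hfri e (hle i) x hx hxm
    refine ⟨k, a, u, h1, fun j => (hP _).mpr ⟨h2 j, ?_⟩, h4⟩
    have h5 : u j / m i0 ^ e = u j / m i ^ e * (m i / m i0) ^ e := by
      rw [div_pow]
      field_simp
    rw [h5]
    exact qg_mul_right (h3 j)
      (O.pow_mem (hfr0.1 (Subring.subset_closure ⟨m i, hmm i, rfl⟩)) _)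
  · refine (hP _).mpr ⟨Submodule.pow_mem_pow _ (hmm i) _, ?_⟩
    have h1 : m i / m i0 ∈ O := hfr0.1 (Subring.subset_closure ⟨m i, hmm i, rfl⟩)
    have h2 : m i / m i0 ∈ mx O := by
      by_contra hcon
      rw [notMem_mx_iff h1] at hcon
      apply hni
      refine fr_change (hmm i) hi (hmm i0) hi0 h1 ?_ hfr0
      rw [← inv_div]
      exact hcon.2
    rw [← div_pow]
    exact hpowN _ h2 e hNe

end Pool.Agent.EvM
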