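import Pool.Agent.NT9.GeSub

set_option autoImplicit false

/-!
# Every member: definitions

`K0` is the field of fractions of `ℤ[T]`, `B` its local subrings; `K` is the function field of the
hypersurface, `O` its local subrings.
-/

namespace Pool.Agent.EvM

open MvPolynomial Pool.Agent.NT9

section two

variable {K0 : Type} [Field K0]

/-- The powers of the maximal ideal of the local subring `B`, as subgroups of the field. -/
def mp (B : Subring K0) : ℕ → AddSubgroup K0
  | 0 => B.toAddSubgroup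
  | n + 1 => AddSubgroup.closure {z | ∃ x ∈ mx B, ∃ y ∈ mp B n, z = x * y}

/-- `B` is a Noetherian local ring, its maximal ideal is generated by the regular sequence `s, t`:
a regular local ring of dimension 2. -/
structure P2 (B : Subring K0) (s t : K0) : Prop where
  loc : IsLocalRing B
  noeth : IsNoetherianRing B
  s0 : s ≠ 0
  t0 : t ≠ 0
  hs : s ∈ mx B
  ht : t ∈ mx B
  gen : ∀ x ∈ mx B, ∃ a ∈ B, ∃ b ∈ B, x = a * s + b * t
  reg : ∀ a ∈ B, ∀ b ∈ B, a * s = b * t → ∃ c ∈ B, a = c * t ∧ b = c * s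

/-- `B'` is a local ring of the blow up of the maximal ideal `(s, t)` of `B`, over the closed point,
in the chart where `s` generates the exceptional ideal. -/
structure QT (B : Subring K0) (s t : K0) (B' : Subring K0) : Prop where
  loc : IsLocalRing B'
  le : B ≤ B'
  dom : ∀ x ∈ mx B, x ∈ mx B'
  fr : IsFr (Subring.closure ((B : Set K0) ∪ {t / s})) B'

/-- `B` is regular and the elements `e i` are a part of a regular system of parameters. -/
structure RP (B : Subring K0) {I : Type} [Fintype I] (e : I → K0) : Prop where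
  reg : IsRegularLocalRing B
  mem : ∀ i, e i ∈ mx B
  ind : ∀ a : I → K0, (∀ i, a i ∈ B) → ∑ i, a i * e i ∈ mp B 2 → ∀ i, a i ∈ mx B

/-- Every product of `L` elements of the maximal ideal of `B0` is a combination of `w` and of its
derivative. -/
def Star (B0 : Subring K0) (D : Derivation ℤ K0 K0) (w : K0) (L : ℕ) : Prop :=
  ∀ x : Fin L → K0, (∀ l, x l ∈ mx B0) → ∃ α ∈ B0, ∃ β ∈ B0, ∏ l, x l = α * w + β * D w

/-- `B0 / (p, w)` has at most `κ` elements. -/
def Kap (B0 : Subring K0) (p : ℕ) (w : K0) (κ : ℕ) : Prop :=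
  ∃ S : Finset K0, S.card ≤ κ ∧ ∀ x ∈ B0, ∃ y ∈ S, ∃ a ∈ B0, ∃ b ∈ B0, x = y + a * p + b * w

/-- The data carried along a chain of `i` quadratic transforms from `B0` to `B`: `E` is the product
of the exceptional parameters, `M` the product of their powers, `w / M ^ 2` the controlled transform
of `w`, `D` a derivation; the exceptional divisors through `B` are among `s = 0`, `t = 0`. -/
structure Nd (B0 : Subring K0) (D : Derivation ℤ K0 K0) (p : ℕ) (w : K0) (i : ℕ)
    (B : Subring K0) (E M s t : K0) : Prop where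
  par : P2 B s t
  le : B0 ≤ B
  dom : ∀ x ∈ mx B0, x ∈ mx B
  fin : FinRes B
  E0 : E ≠ 0
  M0 : M ≠ 0
  EB : E ∈ B
  EM : M / E ∈ B
  prod : ∃ e : Fin i → K0, (∀ l, e l ∈ mx B) ∧ E = ∏ l, e l
  pow : ∀ x : Fin i → K0, (∀ l, x l ∈ mx B0) → (∏ l, x l) / E ∈ B
  der : ∀ b ∈ B, E * D b ∈ B
  derM : E * D M / M ∈ B
  wM : w / M ^ 2 ∈ B
  frac : ∀ Q : Ideal B, Q.IsPrime → (p : B) ∉ Q → ∀ b : B, ∃ u v : B, (u : K0) ∈ B0 ∧
    (v : K0) ∈ B0 ∧ v ∉ Q ∧ b * v = u
  nc : ∃ (ε : K0) (a b : ℕ), ε ∈ B ∧ ε⁻¹ ∈ B ∧ (p : K0) = ε * s ^ a * t ^ b ∧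
    (1 ≤ a → w / M ^ 2 / s ^ 2 ∉ B) ∧ (1 ≤ b → w / M ^ 2 / t ^ 2 ∉ B)

end two

section blow

variable {K : Type} [Field K]

/-- `O'` is a local ring, over the closed point, of the blow up of the ideal of `O` generated by the
elements `g i`. -/
def IsBlG (O : Subring K) {ι : Type} [Fintype ι] (g : ι → K) (O' : Subring K) : Prop :=
  ∃ b, g b ≠ 0 ∧ O ≤ O' ∧ (∀ x ∈ mx O, x ∈ mx O') ∧ (∀ i, g i / g b ∈ O') ∧
    IsFr (Subring.closure ((O : Set K) ∪ Set.range fun i => g i / g b)) O'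

/-- The point `O` can be resolved on every model. -/
def Res (O : Subring K) : Prop :=
  ∀ Mo : Submodule ℤ K, Mo.FG → O ∈ Loc Mo → ∃ (Mo' : Submodule ℤ K) (E : ℕ), Mo'.FG ∧ 0 < E ∧
    Com Mo' (Mo ^ E) ∧ ∀ O' ∈ Loc Mo', IsRegularLocalRing O' ∨ (O' ∈ Loc Mo ∧ O' ≠ O)

/-- The generators of the product of the ideals `(W, (s, t) ^ l)`, `l = 1, ..., k`: for every
function which chooses one generator `W c` or `s ^ a t ^ (l - a)` for each `l` the product. -/
def gq {σ : Type} (W : σ → K) (s t : K) (k : ℕ) (φ : Fin k → σ ⊕ Fin (k + 1)) : K :=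
  ∏ l : Fin k, Sum.elim W
    (fun a : Fin (k + 1) => s ^ (min (a : ℕ) (l + 1)) * t ^ ((l + 1) - min (a : ℕ) (l + 1))) (φ l)

end blow

section crit

variable {σ : Type} [Fintype σ] [DecidableEq σ] {K0 K : Type} [Field K0] [Field K]

/-- The evaluation of polynomials with coefficients in `B`. -/
noncomputable def piW (j : K0 →+* K) (B : Subring K0) {ι : Type} (W : ι → K) :
    MvPolynomial ι B →+* K :=
  eval₂Hom (j.comp B.subtype) W

/-- `t (X) - T`. -/
noncomputable def d0 (t : MvPolynomial σ ℤ) (T : K0) (X : σ → K0) : K0 := aeval X t - T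

/-- `∂ f / ∂ x_s (X) - lam ∂ t / ∂ x_s (X)`. -/
noncomputable def ds (f t : MvPolynomial σ ℤ) (lam : K0) (X : σ → K0) (s : σ) : K0 :=
  aeval X (pderiv s f) - lam * aeval X (pderiv s t)

/-- The Hessian of `f - lam t` at `X`. -/
noncomputable def hes (f t : MvPolynomial σ ℤ) (lam : K0) (X : σ → K0) (s s' : σ) : K0 :=
  aeval X (pderiv s (pderiv s' f)) - lam * aeval X (pderiv s (pderiv s' t))

/-- The critical value `f (X) - lam (t (X) - T)`. -/
noncomputable def wv (f t : MvPolynomial σ ℤ) (T lam : K0) (X : σ → K0) : K0 :=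
  aeval X f - lam * (aeval X t - T)

/-- Critical data: `X` is (approximately, see the hypotheses on `d0`, `ds`) a critical point of `f`
on the fibres of `t`, with nondegenerate (bordered) Hessian; `Pm`, `qv` is a part of the inverse of
the bordered Hessian. -/
structure CD (B0 : Subring K0) (θ : MvPolynomial σ ℤ →+* K) (j : K0 →+* K)
    (f t : MvPolynomial σ ℤ) (T : K0) (X : σ → K0) (lam : K0) (Pm : σ → σ → K0)
    (qv r : σ → K0) : Prop where
  loc : IsLocalRing B0
  ker : RingHom.ker θ = Ideal.span {f}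
  jT : j T = θ t
  frac : ∀ x : K0, ∃ u v : Polynomial ℤ, Polynomial.aeval T v ≠ 0 ∧
    x * Polynomial.aeval T v = Polynomial.aeval T u
  TB : T ∈ B0
  XB : ∀ s, X s ∈ B0
  lamB : lam ∈ B0
  PmB : ∀ s s', Pm s s' ∈ B0
  qvB : ∀ s, qv s ∈ B0
  rB : ∀ s, r s ∈ B0
  inv1 : ∀ s s', ∑ u, Pm s u * hes f t lam X u s' + qv s * aeval X (pderiv s' t) =
    if s = s' then 1 else 0
  inv2 : ∀ s, ∑ u, Pm s u * aeval X (pderiv u t) = 0
  inv3 : ∑ s, r s * aeval X (pderiv s t) = 1

/-- The coordinates `W s = (x s - X s) / M`. -/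
noncomputable def Wc (θ : MvPolynomial σ ℤ →+* K) (j : K0 →+* K) (X : σ → K0) (M : K0) (s : σ) :
    K := (θ (MvPolynomial.X s) - j (X s)) / j M

/-- `O` is the localisation at the origin of `B[W]`, in the function field `K` of `f = 0`. -/
structure Sg (θ : MvPolynomial σ ℤ →+* K) (j : K0 →+* K) (X : σ → K0) (B : Subring K0) (M : K0)
    (O : Subring K) : Prop where
  hB : ∀ b ∈ B, j b ∈ O
  hm : ∀ b ∈ mx B, j b ∈ mx O
  hW : ∀ s, Wc θ j X M s ∈ mx O
  fr : ∀ x ∈ O, ∃ u v : MvPolynomial σ B, piW j B (Wc θ j X M) v ≠ 0 ∧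
    (piW j B (Wc θ j X M) v)⁻¹ ∈ O ∧ x * piW j B (Wc θ j X M) v = piW j B (Wc θ j X M) u

/-- The condition on the fibre: at the maximal ideal `M` the bordered Hessian of `f`, for some
covector `c`, is nondegenerate. -/
def Crk (f : MvPolynomial σ ℤ) (M : Ideal (MvPolynomial σ ℤ)) : Prop :=
  ∃ c : σ → MvPolynomial σ ℤ, (∃ s, c s ∉ M) ∧
    ∀ (v : σ → MvPolynomial σ ℤ) (ρ : MvPolynomial σ ℤ),
      (∀ s, ∑ s', pderiv s (pderiv s' f) * v s' - ρ * c s ∈ M) → ∑ s, c s * v s ∈ M →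
        ∀ s, v s ∈ M

end crit

end Pool.Agent.EvM
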