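import Pool.Agent.EvM.EbP
import Pool.Agent.NT9.GeBlowB

set_option autoImplicit false

/-! # EbBlow: the blow up of an ideal with support at a closed point -/

namespace Pool.Agent.EvM

open Pool.Agent.NT9

variable {K : Type} [Field K]

/-- The chart of the blow up at the local ring `O'`: `t = ∑ c i * g i` generates the ideal in `O'`. -/
theorem blg_of_gen {O O' : Subring K} [IsLocalRing O'] {ι : Type} [Fintype ι]
    {g : ι → K} {t : K} (ht : t ∈ QG O g) (ht0 : t ≠ 0) (hle : O ≤ O')
    (hdom : ∀ x ∈ mx O, x ∈ mx O') (hdiv : ∀ x ∈ QG O g, x / t ∈ O')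
    (hfr : IsFr (Subring.closure ((O : Set K) ∪ {x | ∃ y ∈ QG O g, x = y / t})) O') :
    IsBlG O g O' := by
  obtain ⟨c, hc, htc⟩ := ht
  have h1 : ∑ i, c i * (g i / t) ∉ mx O' := by
    have h2 : ∑ i, c i * (g i / t) = (∑ i, c i * g i) / t := by
      rw [Finset.sum_div]
      exact Finset.sum_congr rfl fun i _ => by rw [mul_div_assoc]
    rw [h2, ← htc, div_self ht0]
    exact one_notMem_mx
  obtain ⟨b, -, hb⟩ := exists_notMem_of_sum Finset.univ c (fun i => g i / t)
    (fun i _ => hle (hc i)) h1
  rw [notMem_mx_iff (hdiv _ (qg_self b))] at hb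
  have hgb : g b ≠ 0 := by
    intro h0
    exact hb.1 (by rw [h0, zero_div])
  have htb : t / g b ∈ O' := by
    have := hb.2
    rwa [inv_div] at this
  have hdivb : ∀ i, g i / g b ∈ O' := by
    intro i
    have h2 : g i / g b = (g i / t) * (t / g b) := by
      field_simp
    rw [h2]
    exact O'.mul_mem (hdiv _ (qg_self i)) htb
  refine ⟨b, hgb, hle, hdom, hdivb, ?_, ?_⟩
  · rw [Subring.closure_le]
    rintro x (hx | ⟨i, rfl⟩)
    · exact hle hx
    · exact hdivb i
  · -- fractions: elements of the first closure times a power of `t / g b`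
    set C := Subring.closure ((O : Set K) ∪ Set.range fun i => g i / g b) with hC
    have hOC : ∀ x ∈ O, x ∈ C := fun x hx => Subring.subset_closure (Or.inl hx)
    have hgC : ∀ i, g i / g b ∈ C := fun i => Subring.subset_closure (Or.inr ⟨i, rfl⟩)
    have htC : t / g b ∈ C := by
      have h2 : t / g b = ∑ i, c i * (g i / g b) := by
        conv_lhs => rw [htc]
        rw [Finset.sum_div]
        exact Finset.sum_congr rfl fun i _ => by rw [mul_div_assoc]
      rw [h2]
      exact C.sum_mem fun i _ => C.mul_mem (hOC _ (hc i)) (hgC i)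
    have key : ∀ x ∈ Subring.closure ((O : Set K) ∪ {x | ∃ y ∈ QG O g, x = y / t}),
        ∃ n : ℕ, x * (t / g b) ^ n ∈ C := by
      intro x hx
      induction hx using Subring.closure_induction with
      | mem x hx =>
        rcases hx with hx | ⟨y, ⟨d, hd, rfl⟩, rfl⟩
        · exact ⟨0, by rw [pow_zero, mul_one]; exact hOC _ hx⟩
        · refine ⟨1, ?_⟩
          have h2 : (∑ i, d i * g i) / t * (t / g b) ^ 1 = ∑ i, d i * (g i / g b) := by
            rw [pow_one, div_mul_div_cancel₀ ht0, Finset.sum_div]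
            exact Finset.sum_congr rfl fun i _ => by rw [mul_div_assoc]
          rw [h2]
          exact C.sum_mem fun i _ => C.mul_mem (hOC _ (hd i)) (hgC i)
      | zero => exact ⟨0, by rw [zero_mul]; exact C.zero_mem⟩
      | one => exact ⟨0, by rw [pow_zero, mul_one]; exact C.one_mem⟩
      | add x y _ _ hx hy =>
        obtain ⟨n, hn⟩ := hx
        obtain ⟨k, hk⟩ := hy
        refine ⟨n + k, ?_⟩
        have h2 : (x + y) * (t / g b) ^ (n + k) =
            x * (t / g b) ^ n * (t / g b) ^ k + y * (t / g b) ^ k * (t / g b) ^ n := by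
          ring
        rw [h2]
        exact C.add_mem (C.mul_mem hn (C.pow_mem htC _)) (C.mul_mem hk (C.pow_mem htC _))
      | neg x _ hx =>
        obtain ⟨n, hn⟩ := hx
        refine ⟨n, ?_⟩
        rw [neg_mul]
        exact C.neg_mem hn
      | mul x y _ _ hx hy =>
        obtain ⟨n, hn⟩ := hx
        obtain ⟨k, hk⟩ := hy
        refine ⟨n + k, ?_⟩
        have h2 : x * y * (t / g b) ^ (n + k) =
            x * (t / g b) ^ n * (y * (t / g b) ^ k) := by
          ring
        rw [h2]
        exact C.mul_mem hn hk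
    intro x hx
    obtain ⟨u, hu, v, hv, hv0, hvO, hxv⟩ := hfr.2 x hx
    obtain ⟨n, hn⟩ := key u hu
    obtain ⟨k, hk⟩ := key v hv
    have htb0 : t / g b ≠ 0 := div_ne_zero ht0 hgb
    refine ⟨u * (t / g b) ^ (n + k), ?_, v * (t / g b) ^ (n + k), ?_, ?_, ?_, ?_⟩
    · rw [pow_add, ← mul_assoc]
      exact C.mul_mem hn (C.pow_mem htC _)
    · have h2 : v * (t / g b) ^ (n + k) = v * (t / g b) ^ k * (t / g b) ^ n := by ring
      rw [h2]
      exact C.mul_mem hk (C.pow_mem htC _)
    · exact mul_ne_zero hv0 (pow_ne_zero _ htb0)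
    · rw [mul_inv, ← inv_pow, inv_div]
      have h3 : g b / t ∈ O' := hdiv _ (qg_self b)
      exact O'.mul_mem hvO (O'.pow_mem h3 _)
    · rw [← hxv]
      ring

/-- The blow up of the ideal generated by the `g i`, which contains a power of the maximal ideal. -/
theorem exists_blowG {Mo : Submodule ℤ K} (hfg : Mo.FG) {O : Subring K} (hO : O ∈ Loc Mo)
    (hfr : FinRes O) {ι : Type} [Fintype ι] {g : ι → K} (hgm : ∀ i, g i ∈ mx O)
    (hN : ∃ N : ℕ, ∀ x : Fin N → K, (∀ l, x l ∈ mx O) →
      ∃ c : ι → K, (∀ i, c i ∈ O) ∧ ∏ l, x l = ∑ i, c i * g i) :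
    ∃ (Mo2 : Submodule ℤ K) (E : ℕ), Mo2.FG ∧ 0 < E ∧ Com Mo2 (Mo ^ E) ∧
      ∀ O' ∈ Loc Mo2, (O' ∈ Loc Mo ∧ O' ≠ O) ∨ IsBlG O g O' := by
  classical
  have hOloc : IsLocalRing O := hO.1
  obtain ⟨N, hN⟩ := hN
  obtain ⟨r, m, hm⟩ := Submodule.fg_iff_exists_fin_generating_family.1 hfg
  obtain ⟨e, P, he, hP, ⟨z, hz0, hz⟩, hgen, hnot⟩ := exists_PG (m := m) hm.symm hO hfr hN
  have hfgP : P.FG := fg_of_le (fg_pow hfg e) hP
  have hpowN : ∀ x ∈ mx O, x ^ N ∈ QG O g := by
    intro x hx
    have h1 := hN (fun _ => x) fun _ => hx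
    rwa [Finset.prod_const, Finset.card_univ, Fintype.card_fin] at h1
  refine ⟨Mo * P, 1 + e, fg_mul hfg hfgP, by omega, ?_, ?_⟩
  · rw [pow_add, pow_one]
    exact Com.mul (Com.refl _) (Com.of_le hP hz0 hz)
  · intro O' hO'
    have hloc' : IsLocalRing O' := hO'.1
    obtain ⟨i, b, hb, hgi, hb0, hA, hB, hfr'⟩ := loc_mul hm.symm hO'
    have hgie : m i ^ e ≠ 0 := pow_ne_zero _ hgi
    have hgiMo : m i ∈ Mo := by
      rw [← hm]
      exact Submodule.subset_span ⟨i, rfl⟩
    have hchle : ch Mo (m i) ≤ O' := by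
      unfold ch
      rw [Subring.closure_le]
      rintro x ⟨y, hy, rfl⟩
      exact hA y hy
    obtain ⟨O1, hl1, hfr1, hle1, hdom1, -⟩ := exists_locAt hchle
    have hO1 : O1 ∈ Loc Mo := ⟨hl1, m i, hgiMo, hgi, hfr1⟩
    by_cases hO1O : O1 = O
    · subst hO1O
      right
      obtain ⟨hgP, hgm'⟩ := hgen i hgi hfr1
      have ht0 : b / m i ^ e ≠ 0 := div_ne_zero hb0 hgie
      have hdiv : ∀ x ∈ QG O1 g, x / (b / m i ^ e) ∈ O' := by
        intro x hx
        have hxO : x ∈ O1 := (qg_mx hgm hx).1
        obtain ⟨u, hu, v, hv, hv0, hvO, hxv⟩ := hfr1.2 x hxO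
        have hum : u ∈ QG O1 g := by
          rw [← hxv]
          exact qg_mul_right hx (hfr1.1 hv)
        obtain ⟨k, a, w, ha, hw, hux⟩ := hgm' u hu hum
        have h1 : x / (b / m i ^ e) = v⁻¹ * ∑ j, a j * (w j / b) := by
          have h2 : x = v⁻¹ * u := by
            rw [← hxv]
            field_simp
          rw [h2, hux, mul_div_assoc, Finset.sum_div]
          congr 1
          refine Finset.sum_congr rfl fun j _ => ?_
          field_simp
        rw [h1]
        exact O'.mul_mem (hle1 hvO) (O'.sum_mem fun j _ =>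
          O'.mul_mem (hle1 (hfr1.1 (ha j))) (hB _ (hw j)))
      refine blg_of_gen (hgP b hb) ht0 hle1 hdom1 hdiv ⟨?_, ?_⟩
      · rw [Subring.closure_le]
        rintro x (hx | ⟨y, hy, rfl⟩)
        · exact hle1 hx
        · exact hdiv y hy
      · have hchC : ch (Mo * P) (m i * b) ≤
            Subring.closure ((O1 : Set K) ∪ {x | ∃ y ∈ QG O1 g, x = y / (b / m i ^ e)}) := by
          unfold ch
          rw [Subring.closure_le]
          rintro x ⟨y, hy, rfl⟩
          change y / (m i * b) ∈ Subring.closure _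
          induction hy using Submodule.mul_induction_on' with
          | mem_mul_mem n hn u hu =>
            have h3 : n * u / (m i * b) = (n / m i) * ((u / m i ^ e) / (b / m i ^ e)) := by
              field_simp
            rw [h3]
            exact Subring.mul_mem _ (Subring.subset_closure (Or.inl (hfr1.1
              (Subring.subset_closure ⟨n, hn, rfl⟩))))
              (Subring.subset_closure (Or.inr ⟨_, hgP u hu, rfl⟩))
          | add x _ y _ hx hy =>
            rw [add_div]
            exact Subring.add_mem _ hx hy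
        intro x hx
        obtain ⟨u, hu, v, hv, h⟩ := hfr'.2 x hx
        exact ⟨u, hchC hu, v, hchC hv, h⟩
    · left
      have key : ∃ h ∈ P, h / m i ^ e ∉ mx O' := by
        by_cases hfO : IsFr (ch Mo (m i)) O
        · obtain ⟨hgP, hgm'⟩ := hgen i hgi hfO
          have hx : ∃ x ∈ ch Mo (m i), x ∈ mx O ∧ x ∉ mx O' := by
            by_contra hcon
            push Not at hcon
            apply hO1O
            refine eq_of_fr hfr1 hfO ?_
            intro x hx
            rw [dom_iff hle1 hdom1 (hfr1.1 hx)]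
            constructor
            · intro hx'
              by_contra hxO
              obtain ⟨y, hy, hxy⟩ := blowb_inv hfr hfO.1 hx hxO
              have h1 : x * y - 1 ∈ mx O' :=
                hcon _ (Subring.sub_mem _ (Subring.mul_mem _ hx hy) (Subring.one_mem _)) hxy
              have h2 : x * y ∈ mx O' := mx_mul_right hx' (hchle hy)
              have h3 := mx_sub h2 h1
              rw [sub_sub_cancel] at h3
              exact one_notMem_mx h3
            · exact hcon x hx
          obtain ⟨y, hych, hyO, hyO'⟩ := hx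
          -- the power `y ^ N` is in the ideal
          have hxch : y ^ N ∈ ch Mo (m i) := Subring.pow_mem _ hych _
          have hxO : y ^ N ∈ QG O g := hpowN y hyO
          have hxO' : y ^ N ∉ mx O' := by
            have h4 : ∀ k : ℕ, y ^ k ∉ mx O' := by
              intro k
              induction k with
              | zero =>
                rw [pow_zero]
                exact one_notMem_mx
              | succ k ih =>
                intro h5
                rw [pow_succ] at h5
                rcases mx_prime (O'.pow_mem (hchle hych) k) (hchle hych) h5 with h6 | h6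
                · exact ih h6
                · exact hyO' h6
            exact h4 N
          obtain ⟨k, a, w, ha, hw, hxs⟩ := hgm' _ hxch hxO
          rw [hxs] at hxO'
          obtain ⟨j, -, hj⟩ := exists_notMem_of_sum Finset.univ a (fun j => w j / m i ^ e)
            (fun j _ => hchle (ha j)) hxO'
          exact ⟨w j, hw j, hj⟩
        · refine ⟨m i ^ e, hnot i hgi hfO, ?_⟩
          rw [div_self hgie]
          exact one_notMem_mx
      obtain ⟨h, hh, hu⟩ := key
      have heq := eq_of_unit hP hgiMo hgi hb hb0 hA hB hfr' hfr1 hle1 hdom1 hh hu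
      rw [heq]
      exact ⟨hO1, hO1O⟩

end Pool.Agent.EvM
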