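import Pool.Agent.EvM.EbRes
import Pool.Agent.EvM.EbBlow

set_option autoImplicit false

/-! # Resolution of a point from the resolution of the points of a blow up -/

namespace Pool.Agent.EvM

open Pool.Agent.NT9

variable {K : Type} [Field K]

/-- Proof. `exists_blowG` for `O` and `g`, `res_fin` for `S`, `Com.step` or the lemmas of `NT9.GeCom` (see the proof of `res_fin`). The points of `Loc Mo2` which are not regular and not in `S`
are in `Loc Mo` and different from `O`. -/
theorem res_of_blow {O : Subring K} (hfr : FinRes O) {ι : Type} [Fintype ι] {g : ι → K}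
    (hgm : ∀ i, g i ∈ mx O)
    (hN : ∃ N : ℕ, ∀ x : Fin N → K, (∀ l, x l ∈ mx O) →
      ∃ c : ι → K, (∀ i, c i ∈ O) ∧ ∏ l, x l = ∑ i, c i * g i)
    {S : Set (Subring K)} (hS : S.Finite) (hres : ∀ O' ∈ S, Res O')
    (h : ∀ O' : Subring K, IsLocalRing O' → IsBlG O g O' → IsRegularLocalRing O' ∨ O' ∈ S) : Res O := by
  intro Mo hfg hO
  obtain ⟨Mo2, E, hfg2, hE, hcom, hpts⟩ := exists_blowG hfg hO hfr hgm hN
  obtain ⟨Mo', E', hfg', hE', hcom', h'⟩ := res_fin hS hres hfg2
  refine ⟨Mo', E * E', hfg', Nat.mul_pos hE hE', Com.step hcom hcom', fun O' hO' => ?_⟩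
  rcases h' O' hO' with h1 | ⟨h1, h2⟩
  · exact Or.inl h1
  · rcases hpts O' h1 with h3 | h3
    · exact Or.inr h3
    · rcases h O' hO'.1 h3 with h4 | h4
      · exact Or.inl h4
      · exact absurd h4 h2

end Pool.Agent.EvM
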