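import Pool.Agent.EvM.EmBMa

set_option autoImplicit false

/-! # The local ring B0: the residue field -/

namespace Pool.Agent.EvM

open MvPolynomial Pool.Agent.NT9

variable {σ : Type} [Fintype σ] [DecidableEq σ] {K0 : Type} [Field K0]

variable {t : MvPolynomial σ ℤ} {M : Ideal (MvPolynomial σ ℤ)} {T : K0} {B0 : Subring K0}
  {D : Derivation ℤ K0 K0} {p : ℕ} {P0 : Polynomial ℤ}

/-- Proof. `ℤ[X] / (p, P0)` is finite, and a finite domain: every `v (T)` with `v (t) ∉ M` is invertible modulo `mx B0` by a polynomial. Or `bm_res`, `NT9.finite_quot`. -/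
theorem bm_fin [M.IsMaximal] (td : TD T D) (h : IsBM t M T B0) (hp : p.Prime)
    (hpM : (C (p : ℤ) : MvPolynomial σ ℤ) ∈ M) : FinRes B0 := by
  classical
  have hfin := finite_quot hp hpM
  have hloc := bm_loc td h
  obtain ⟨ρ, -, hρ⟩ := bm_res td h
  let _ : Fintype (MvPolynomial σ ℤ ⧸ M) := Fintype.ofFinite _
  let G : (MvPolynomial σ ℤ ⧸ M) → K0 := fun κ =>
    if hκ : ∃ b : B0, ρ b = κ then (hκ.choose : K0) else 0
  refine ⟨Finset.univ.image G, fun x hx => ?_⟩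
  have hκ : ∃ b : B0, ρ b = ρ ⟨x, hx⟩ := ⟨_, rfl⟩
  have hG : G (ρ ⟨x, hx⟩) = (hκ.choose : K0) := by
    simp only [G]
    rw [dif_pos hκ]
  refine ⟨G (ρ ⟨x, hx⟩), Finset.mem_image_of_mem _ (Finset.mem_univ _), ?_, ?_⟩
  · rw [hG]
    exact hκ.choose.2
  · rw [hG]
    have h1 : ρ (⟨x, hx⟩ - hκ.choose) = 0 := by
      rw [map_sub, hκ.choose_spec, sub_self]
    exact (hρ _).1 h1

end Pool.Agent.EvM
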