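import Pool.Agent.EvM.EmHen

set_option autoImplicit false

/-! # The inverse of the bordered Hessian -/

namespace Pool.Agent.EvM

open MvPolynomial

variable {σ : Type} [Fintype σ] [DecidableEq σ] {B : Type} [CommRing B]

omit [Fintype σ] [DecidableEq σ] in
private theorem emi_cong (m : Ideal B) (X X0 : σ → B) (hX : ∀ s, X s - X0 s ∈ m)
    (g : MvPolynomial σ ℤ) : aeval X g - aeval X0 g ∈ m := by
  induction g using MvPolynomial.induction_on with
  | C a =>
    rw [algHom_C, algHom_C, sub_self]
    exact m.zero_mem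
  | add p q hp hq =>
    rw [map_add, map_add, add_sub_add_comm]
    exact m.add_mem hp hq
  | mul_X p i hp =>
    rw [map_mul, map_mul, aeval_X, aeval_X]
    have h1 : aeval X p * X i - aeval X0 p * X0 i =
        (aeval X p - aeval X0 p) * X i + aeval X0 p * (X i - X0 i) := by ring
    rw [h1]
    exact m.add_mem (m.mul_mem_right _ hp) (m.mul_mem_left _ (hX i))

omit [Fintype σ] [DecidableEq σ] in
private theorem emi_jm (m : Ideal B) (f t : MvPolynomial σ ℤ) (X X0 : σ → B)
    (hX : ∀ s, X s - X0 s ∈ m) (lam : B) (hlam : lam ∈ m) (i i' : Option σ) :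
    JM f t X lam i i' - JM f t X0 0 i i' ∈ m := by
  rcases i with _ | s <;> rcases i' with _ | s'
  · show (0 : B) - 0 ∈ m
    rw [sub_zero]
    exact m.zero_mem
  · exact emi_cong m X X0 hX _
  · show - aeval X (pderiv s t) - - aeval X0 (pderiv s t) ∈ m
    rw [← neg_sub', neg_mem_iff]
    exact emi_cong m X X0 hX _
  · show aeval X (pderiv s (pderiv s' f)) - lam * aeval X (pderiv s (pderiv s' t)) -
      (aeval X0 (pderiv s (pderiv s' f)) - 0 * aeval X0 (pderiv s (pderiv s' t))) ∈ m
    have h1 : aeval X (pderiv s (pderiv s' f)) - lam * aeval X (pderiv s (pderiv s' t)) -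
      (aeval X0 (pderiv s (pderiv s' f)) - 0 * aeval X0 (pderiv s (pderiv s' t))) =
      (aeval X (pderiv s (pderiv s' f)) - aeval X0 (pderiv s (pderiv s' f))) -
        lam * aeval X (pderiv s (pderiv s' t)) := by ring
    rw [h1]
    exact m.sub_mem (emi_cong m X X0 hX _) (m.mul_mem_right _ hlam)

private theorem emi_jmA (m : Ideal B) (f t : MvPolynomial σ ℤ) (X X0 : σ → B)
    (hX : ∀ s, X s - X0 s ∈ m) (lam : B) (hlam : lam ∈ m) (A : Matrix (Option σ) (Option σ) B)
    (hA : ∀ i i', (JM f t X0 0 * A - 1) i i' ∈ m) (i i' : Option σ) :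
    (JM f t X lam * A - 1) i i' ∈ m := by
  have h1 : JM f t X lam * A - 1 = (JM f t X0 0 * A - 1) + (JM f t X lam - JM f t X0 0) * A := by
    rw [sub_mul]
    abel
  rw [h1, Matrix.add_apply, Matrix.mul_apply]
  refine m.add_mem (hA i i') (m.sum_mem fun j _ => m.mul_mem_right _ ?_)
  rw [Matrix.sub_apply]
  exact emi_jm m f t X X0 hX lam hlam i j

/-- Proof. `JM f t X lam * A` is congruent to `1` modulo the maximal ideal, so its determinant is a unit; let `Z` be the inverse of `JM f t X lam`, `Z * JM = 1`, `Pm s u = Z (some s) (some u)`,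
`qv s = Z (some s) none`, `r s = - Z none (some s)`. -/
theorem jm_inv [IsLocalRing B] (f t : MvPolynomial σ ℤ) (X0 X : σ → B) (lam : B)
    (A : Matrix (Option σ) (Option σ) B)
    (hA : ∀ i i', (JM f t X0 0 * A - 1) i i' ∈ IsLocalRing.maximalIdeal B)
    (hX : ∀ s, X s - X0 s ∈ IsLocalRing.maximalIdeal B)
    (hlam : lam ∈ IsLocalRing.maximalIdeal B) :
    ∃ (Pm : σ → σ → B) (qv r : σ → B),
      (∀ s s', ∑ u, Pm s u * (aeval X (pderiv u (pderiv s' f)) -
        lam * aeval X (pderiv u (pderiv s' t))) + qv s * aeval X (pderiv s' t) =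
          if s = s' then 1 else 0) ∧
      (∀ s, ∑ u, Pm s u * aeval X (pderiv u t) = 0) ∧
      ∑ s, r s * aeval X (pderiv s t) = 1 := by
  classical
  set m := IsLocalRing.maximalIdeal B with hm
  have h1 := emi_jmA m f t X X0 hX lam hlam A hA
  have h2 : (IsLocalRing.residue B).mapMatrix (JM f t X lam * A) = 1 := by
    have h3 : (IsLocalRing.residue B).mapMatrix (JM f t X lam * A - 1) = 0 := by
      ext i i'
      exact (IsLocalRing.residue_eq_zero_iff _).2 (h1 i i')
    rw [map_sub, map_one, sub_eq_zero] at h3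
    exact h3
  have h3 : IsUnit (JM f t X lam * A).det := by
    by_contra hcon
    have h4 : (JM f t X lam * A).det ∈ m := (IsLocalRing.mem_maximalIdeal _).2 hcon
    have h5 := (IsLocalRing.residue_eq_zero_iff _).2 h4
    rw [RingHom.map_det, h2, Matrix.det_one] at h5
    exact one_ne_zero h5
  have h4 : IsUnit (JM f t X lam).det := by
    rw [Matrix.det_mul] at h3
    exact isUnit_of_mul_isUnit_left h3
  obtain ⟨Z, hZ⟩ : ∃ Z, Z * JM f t X lam = 1 := ⟨_, Matrix.nonsing_inv_mul _ h4⟩
  have h5 : ∀ i i', Z i none * JM f t X lam none i' +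
      ∑ u, Z i (some u) * JM f t X lam (some u) i' = (1 : Matrix (Option σ) (Option σ) B) i i' := by
    intro i i'
    rw [← hZ, Matrix.mul_apply, Fintype.sum_option]
  refine ⟨fun s u => Z (some s) (some u), fun s => Z (some s) none, fun s => - Z none (some s),
    fun s s' => ?_, fun s => ?_, ?_⟩
  · have h6 := h5 (some s) (some s')
    rw [Matrix.one_apply] at h6
    rw [add_comm]
    refine h6.trans ?_
    by_cases h : s = s'
    · rw [if_pos h, if_pos (congrArg some h)]
    · rw [if_neg h, if_neg fun h' => h (Option.some_injective _ h')]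
  · have h6 := h5 (some s) none
    rw [Matrix.one_apply_ne (by simp)] at h6
    have h7 : ∑ u, Z (some s) (some u) * JM f t X lam (some u) none =
        - ∑ u, Z (some s) (some u) * aeval X (pderiv u t) := by
      rw [← Finset.sum_neg_distrib]
      refine Finset.sum_congr rfl fun u _ => ?_
      show Z (some s) (some u) * (- aeval X (pderiv u t)) = _
      ring
    rw [h7, show JM f t X lam none none = 0 from rfl, mul_zero, zero_add, neg_eq_zero] at h6
    exact h6
  · have h6 := h5 none none
    rw [Matrix.one_apply_eq] at h6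
    have h7 : ∑ u, Z none (some u) * JM f t X lam (some u) none =
        ∑ u, - Z none (some u) * aeval X (pderiv u t) := by
      refine Finset.sum_congr rfl fun u _ => ?_
      show Z none (some u) * (- aeval X (pderiv u t)) = _
      ring
    rw [h7, show JM f t X lam none none = 0 from rfl, mul_zero, zero_add] at h6
    exact h6

end Pool.Agent.EvM
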