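import Pool.Agent.EvM.EmPow

set_option autoImplicit false

/-! # powers of the maximal ideal: induction, Krull -/

namespace Pool.Agent.EvM

open Pool.Agent.NT9

variable {K0 : Type} [Field K0] {B B' : Subring K0}

/-- An element of `mp B (m + n)` is a sum of products. -/
theorem mp_add_induction [IsLocalRing B] {m n : ℕ} {C : K0 → Prop} (h0 : C 0)
    (hadd : ∀ x y, C x → C y → C (x + y)) (hneg : ∀ x, C x → C (-x))
    (hmul : ∀ x ∈ mp B m, ∀ y ∈ mp B n, C (x * y)) {z : K0} (hz : z ∈ mp B (m + n)) : C z := by
  induction m generalizing C z with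
  | zero =>
    rw [zero_add] at hz
    rw [← one_mul z]
    exact hmul 1 B.one_mem z hz
  | succ m ih =>
    rw [Nat.succ_add] at hz
    refine AddSubgroup.closure_induction (p := fun x _ => C x) ?_ h0
      (fun x y _ _ hx hy => hadd x y hx hy) (fun x _ hx => hneg x hx) hz
    rintro _ ⟨x, hx, y, hy, rfl⟩
    refine ih (C := fun y => C (x * y)) ?_ ?_ ?_ ?_ hy
    · rw [mul_zero]
      exact h0
    · intro a b ha hb
      rw [mul_add]
      exact hadd _ _ ha hb
    · intro a ha
      rw [mul_neg]
      exact hneg _ ha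
    · intro a ha b hb
      rw [← mul_assoc]
      refine hmul _ ?_ b hb
      have h1 := mp_mul (mp_one_iff.2 hx) ha
      rwa [add_comm] at h1

/-- An element of `mp B n` is a combination, with coefficients in `B`, of products of `n` elements of
`mx B`. -/
theorem mp_induction [IsLocalRing B] {n : ℕ} {C : K0 → Prop} (h0 : C 0)
    (hadd : ∀ x y, C x → C y → C (x + y))
    (hmul : ∀ a ∈ B, ∀ x : Fin n → K0, (∀ l, x l ∈ mx B) → C (a * ∏ l, x l)) {z : K0}
    (hz : z ∈ mp B n) : C z := by
  induction n generalizing C z with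
  | zero =>
    have h1 := hmul z hz (fun _ => 0) (fun l => l.elim0)
    rwa [Finset.univ_eq_empty, Finset.prod_empty, mul_one] at h1
  | succ n ih =>
    have h2 : C z ∧ C (-z) := by
      refine AddSubgroup.closure_induction (p := fun x _ => C x ∧ C (-x)) ?_ ?_ ?_ ?_ hz
      · rintro _ ⟨x, hx, y, hy, rfl⟩
        constructor
        · refine ih (C := fun y => C (x * y)) ?_ ?_ ?_ hy
          · rw [mul_zero]
            exact h0
          · intro a b ha hb
            rw [mul_add]
            exact hadd _ _ ha hb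
          · intro a ha u hu
            have h3 := hmul a ha (Fin.cons x u) (fun l => by
              refine Fin.cases ?_ (fun l => ?_) l
              · exact hx
              · exact hu l)
            rw [Fin.prod_univ_succ] at h3
            simp only [Fin.cons_zero, Fin.cons_succ] at h3
            have h4 : x * (a * ∏ l, u l) = a * (x * ∏ l, u l) := by ring
            rw [h4]
            exact h3
        · refine ih (C := fun y => C (-(x * y))) ?_ ?_ ?_ hy
          · rw [mul_zero, neg_zero]
            exact h0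
          · intro a b ha hb
            rw [mul_add, neg_add]
            exact hadd _ _ ha hb
          · intro a ha u hu
            have h3 := hmul (-a) (B.neg_mem ha) (Fin.cons x u) (fun l => by
              refine Fin.cases ?_ (fun l => ?_) l
              · exact hx
              · exact hu l)
            rw [Fin.prod_univ_succ] at h3
            simp only [Fin.cons_zero, Fin.cons_succ] at h3
            have h4 : -(x * (a * ∏ l, u l)) = -a * (x * ∏ l, u l) := by ring
            rw [h4]
            exact h3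
      · rw [neg_zero]
        exact ⟨h0, h0⟩
      · intro x y _ _ hx hy
        rw [neg_add]
        exact ⟨hadd _ _ hx.1 hy.1, hadd _ _ hx.2 hy.2⟩
      · intro x _ hx
        rw [neg_neg]
        exact ⟨hx.2, hx.1⟩
    exact h2.1

/-- Comparison with the powers of the maximal ideal. -/
theorem mem_mp_ideal [IsLocalRing B] {n : ℕ} {x : K0} :
    x ∈ mp B n ↔ ∃ y : B, y ∈ IsLocalRing.maximalIdeal B ^ n ∧ (y : K0) = x := by
  constructor
  · intro hx
    refine mp_induction (C := fun x => ∃ y : B, y ∈ IsLocalRing.maximalIdeal B ^ n ∧ (y : K0) = x)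
      ⟨0, Ideal.zero_mem _, rfl⟩ ?_ ?_ hx
    · rintro _ _ ⟨y, hy, rfl⟩ ⟨z, hz, rfl⟩
      exact ⟨y + z, Ideal.add_mem _ hy hz, rfl⟩
    · intro a ha u hu
      have hp : ∏ l : Fin n, (⟨u l, mx_le (hu l)⟩ : B) ∈ IsLocalRing.maximalIdeal B ^ n := by
        have h1 := Ideal.prod_mem_prod (s := Finset.univ)
          (I := fun _ : Fin n => IsLocalRing.maximalIdeal B)
          (x := fun l => (⟨u l, mx_le (hu l)⟩ : B)) (fun l _ => (mem_mx_iff _).1 (hu l))
        rwa [Finset.prod_const, Finset.card_univ, Fintype.card_fin] at h1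
      refine ⟨⟨a, ha⟩ * ∏ l : Fin n, (⟨u l, mx_le (hu l)⟩ : B), Ideal.mul_mem_left _ _ hp, ?_⟩
      show a * B.subtype (∏ l : Fin n, (⟨u l, mx_le (hu l)⟩ : B)) = a * ∏ l, u l
      rw [map_prod]
      rfl
  · rintro ⟨y, hy, rfl⟩
    induction n generalizing y with
    | zero => exact y.2
    | succ n ih =>
      rw [pow_succ'] at hy
      refine Submodule.mul_induction_on hy ?_ ?_
      · intro a ha b hb
        have h1 := mp_mul (mp_one_iff.2 ((mem_mx_iff a).2 ha)) (ih b hb)
        rwa [add_comm] at h1
      · intro a b ha hb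
        exact AddSubgroup.add_mem _ ha hb

/-- Krull: `Ideal.iInf_pow_eq_bot_of_isLocalRing` or similar, `mem_mp_ideal`. -/
theorem mp_krull [IsLocalRing B] [IsNoetherianRing B] {x : K0} (h : ∀ n, x ∈ mp B n) : x = 0 := by
  have hB : x ∈ B := h 0
  have h1 : (⟨x, hB⟩ : B) ∈ ⨅ n : ℕ, IsLocalRing.maximalIdeal B ^ n := by
    rw [Ideal.mem_iInf]
    intro n
    obtain ⟨y, hy, hyx⟩ := mem_mp_ideal.1 (h n)
    have h2 : y = ⟨x, hB⟩ := Subtype.ext hyx
    rwa [h2] at hy
  rw [Ideal.iInf_pow_eq_bot_of_isLocalRing _ (Ideal.IsPrime.ne_top inferInstance)] at h1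
  exact congrArg Subtype.val ((Submodule.mem_bot _).1 h1)

end Pool.Agent.EvM
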