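import Pool.Agent.EvM.EmCrkA
import Pool.Agent.EvM.EmInv
import Pool.Agent.EvM.EmPowI

set_option autoImplicit false

/-! # The critical point, to any order -/

namespace Pool.Agent.EvM

open MvPolynomial Pool.Agent.NT9

variable {σ : Type} [Fintype σ] [DecidableEq σ] {K0 K : Type} [Field K0] [Field K]
  {t f : MvPolynomial σ ℤ} {M : Ideal (MvPolynomial σ ℤ)} {T : K0} {B0 : Subring K0}
  {θ : MvPolynomial σ ℤ →+* K} {D : Derivation ℤ K0 K0}

/-- Proof. `exists_A`, `hensel` in the ring `B0` with its maximal ideal (`mem_mp_ideal`, `mem_mx_iff`), `jm_inv`. The values `h (X)` and `h (X0)` are congruent modulo `mx B0`. -/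
theorem exists_crit [M.IsMaximal] (td : TD T D) (h : IsBM t M T B0)
    (sur : ∀ h : MvPolynomial σ ℤ, ∃ g : Polynomial ℤ, h - Polynomial.aeval t g ∈ M)
    {c : σ → MvPolynomial σ ℤ} (dt : ∀ s, pderiv s t - c s ∈ M) (hc : ∃ s, c s ∉ M)
    (hcrk : ∀ (v : σ → MvPolynomial σ ℤ) (ρ : MvPolynomial σ ℤ),
      (∀ s, ∑ s', pderiv s (pderiv s' f) * v s' - ρ * c s ∈ M) → ∑ s, c s * v s ∈ M →
        ∀ s, v s ∈ M) (hf : f ∈ M ^ 2) (hker : RingHom.ker θ = Ideal.span {f}) {j : K0 →+* K}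
    (hj : j T = θ t) {N : ℕ} (hN : 1 ≤ N) :
    ∃ (X : σ → K0) (lam : K0) (Pm : σ → σ → K0) (qv r : σ → K0),
      CD B0 θ j f t T X lam Pm qv r ∧ d0 t T X ∈ mp B0 N ∧ (∀ s, ds f t lam X s ∈ mp B0 N) ∧
        lam ∈ mx B0 ∧ ∀ h : MvPolynomial σ ℤ, aeval X h ∈ mx B0 ↔ h ∈ M := by
  have := bm_loc td h
  have hTB : T ∈ B0 := by
    have h1 := bm_poly h Polynomial.X
    rwa [Polynomial.aeval_X] at h1
  obtain ⟨X0, A, hA, hX0, ht0, hs0⟩ := exists_A td h sur dt hc hcrk hf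
  have hA' : ∀ i i', (JM f t X0 0 * A - 1) i i' ∈ IsLocalRing.maximalIdeal B0 := fun i i' =>
    (mem_mx_iff _).1 (hA i i')
  obtain ⟨X, lam, hX, hlam, h1, h2⟩ := hensel (IsLocalRing.maximalIdeal B0) f t X0 ⟨T, hTB⟩ A hA'
    ((mem_mx_iff _).1 (by rw [AddSubgroupClass.coe_sub]; exact ht0))
    (fun s => (mem_mx_iff _).1 (hs0 s)) N
  obtain ⟨Pm, qv, r, h3, h4, h5⟩ := jm_inv f t X0 X lam A hA' hX hlam
  have hXe : ∀ q : MvPolynomial σ ℤ, ((aeval X q : B0) : K0) = aeval (fun s => (X s : K0)) q :=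
    fun q => MvPolynomial.comp_aeval_apply (B := K0) X B0.subtype.toIntAlgHom q
  have hmp : ∀ (y : B0) (n : ℕ), y ∈ IsLocalRing.maximalIdeal B0 ^ n → (y : K0) ∈ mp B0 n :=
    fun y n hy => mem_mp_ideal.2 ⟨y, hy, rfl⟩
  refine ⟨fun s => (X s : K0), (lam : K0), fun s u => (Pm s u : K0), fun s => (qv s : K0),
    fun s => (r s : K0), ?_, ?_, ?_, ?_, ?_⟩
  · refine ⟨inferInstance, hker, hj, td.frac, hTB, fun s => (X s).2, lam.2, fun s u => (Pm s u).2,
      fun s => (qv s).2, fun s => (r s).2, ?_, ?_, ?_⟩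
    · intro s s'
      have h6 := congrArg (fun z : B0 => (z : K0)) (h3 s s')
      simp only [Subring.coe_add, AddSubmonoidClass.coe_finsetSum, Subring.coe_mul,
        AddSubgroupClass.coe_sub, hXe] at h6
      simp only [hes]
      rw [h6]
      split_ifs <;> rfl
    · intro s
      have h6 := congrArg (fun z : B0 => (z : K0)) (h4 s)
      simp only [AddSubmonoidClass.coe_finsetSum, Subring.coe_mul, hXe] at h6
      rw [h6]
      rfl
    · have h6 := congrArg (fun z : B0 => (z : K0)) h5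
      simp only [AddSubmonoidClass.coe_finsetSum, Subring.coe_mul, hXe] at h6
      rw [h6]
      rfl
  · have h6 := hmp _ _ h1
    rw [AddSubgroupClass.coe_sub, hXe] at h6
    exact h6
  · intro s
    have h6 := hmp _ _ (h2 s)
    rw [AddSubgroupClass.coe_sub, Subring.coe_mul, hXe, hXe] at h6
    exact h6
  · exact (mem_mx_iff lam).2 hlam
  · intro q
    rw [← hX0 q, ← hXe, mem_mx_iff, mem_mx_iff, ← IsLocalRing.residue_eq_zero_iff,
      ← IsLocalRing.residue_eq_zero_iff]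
    have h6 : ∀ Y : σ → B0, IsLocalRing.residue B0 (aeval Y q) =
        aeval (fun s => IsLocalRing.residue B0 (Y s)) q := fun Y =>
      MvPolynomial.comp_aeval_apply Y (IsLocalRing.residue B0).toIntAlgHom q
    rw [h6, h6]
    have h7 : (fun s => IsLocalRing.residue B0 (X s)) = fun s => IsLocalRing.residue B0 (X0 s) := by
      funext s
      rw [← sub_eq_zero, ← map_sub, IsLocalRing.residue_eq_zero_iff]
      exact hX s
    rw [h7]

end Pool.Agent.EvM
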