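import Pool.Agent.EvM.EmDefs

set_option autoImplicit false

/-! # A transcendental coordinate -/

namespace Pool.Agent.EvM

open MvPolynomial Pool.Agent.NT9

variable {σ : Type} [Fintype σ] [DecidableEq σ] {K : Type} [Field K]

private theorem gtb_deg (s s' : σ) (h : s ≠ s') (g : Polynomial ℤ) :
    degreeOf s (Polynomial.aeval (X s' : MvPolynomial σ ℤ) g) = 0 := by
  rw [Polynomial.aeval_eq_sum_range]
  refine Nat.eq_zero_of_le_zero ((degreeOf_sum_le _ _ _).trans ?_)
  refine Finset.sup_le fun i _ => ?_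
  rw [zsmul_eq_mul, ← map_intCast (C : ℤ →+* MvPolynomial σ ℤ)]
  refine (degreeOf_C_mul_le _ _ _).trans ?_
  rw [degreeOf_X_pow_of_ne _ h]

/-- Proof. Otherwise for all `s` there is `g s ≠ 0` with `θ (g s (X s)) = 0`, so `f ∣ g s (X s)`. For every `s` take `s' ≠ s`: `f ∣ g s' (X s') ≠ 0`, in which `X s` does not occur, so
`degreeOf s f = 0`. So `f = C a`, `θ (C a) = 0`, `a = 0` as `K` has characteristic zero, and `f = 0` does not divide `g s (X s)`. -/
theorem exists_y [CharZero K] {θ : MvPolynomial σ ℤ →+* K} {f : MvPolynomial σ ℤ}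
    (hker : RingHom.ker θ = Ideal.span {f}) (hσ : 2 ≤ Fintype.card σ) :
    ∃ s : σ, ∀ g : Polynomial ℤ, θ (Polynomial.aeval (X s : MvPolynomial σ ℤ) g) = 0 → g = 0 := by
  by_contra hcon
  push Not at hcon
  choose g hg hg0 using hcon
  have hdvd : ∀ s, f ∣ Polynomial.aeval (X s : MvPolynomial σ ℤ) (g s) := by
    intro s
    rw [← Ideal.mem_span_singleton, ← hker, RingHom.mem_ker]
    exact hg s
  have hne : ∀ s, Polynomial.aeval (X s : MvPolynomial σ ℤ) (g s) ≠ 0 := by
    intro s h1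
    exact hg0 s ((transcendental_iff.1 (transcendental_X ℤ s)) _ h1)
  have hcard : Nontrivial σ := Fintype.one_lt_card_iff_nontrivial.1 hσ
  obtain ⟨s0⟩ : Nonempty σ := inferInstance
  have hf0 : f ≠ 0 := by
    rintro rfl
    exact hne s0 (zero_dvd_iff.1 (hdvd s0))
  have hdeg : ∀ s, degreeOf s f = 0 := by
    intro s
    obtain ⟨s', hs'⟩ := exists_ne s
    obtain ⟨h, hh⟩ := hdvd s'
    have hh0 : h ≠ 0 := by
      rintro rfl
      rw [mul_zero] at hh
      exact hne s' hh
    have h1 := gtb_deg s s' (Ne.symm hs') (g s')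
    rw [hh, degreeOf_mul_eq hf0 hh0] at h1
    omega
  have hC : f = C (f.coeff 0) := by
    ext m
    rw [coeff_C]
    split_ifs with hm
    · rw [← hm]
    · by_contra hcm
      apply hm
      symm
      ext s
      have h1 := monomial_le_degreeOf s (mem_support_iff.2 hcm)
      rw [hdeg s] at h1
      simpa using h1
  have hθ : θ f = 0 := by
    rw [← RingHom.mem_ker, hker]
    exact Ideal.mem_span_singleton_self f
  rw [hC] at hθ
  have h2 : θ (C (f.coeff 0)) = ((f.coeff 0 : ℤ) : K) := by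
    have h3 : (C (f.coeff 0) : MvPolynomial σ ℤ) = ((f.coeff 0 : ℤ) : MvPolynomial σ ℤ) := by
      simp
    rw [h3, map_intCast]
  rw [h2, Int.cast_eq_zero] at hθ
  apply hf0
  rw [hC, hθ, C_0]

end Pool.Agent.EvM
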