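import Pool.Agent.EvM.EmGTa
import Pool.Agent.EvM.EmGTb

set_option autoImplicit false

/-! # The function t, transcendental -/

namespace Pool.Agent.EvM

open MvPolynomial Pool.Agent.NT9

variable {σ : Type} [Fintype σ] [DecidableEq σ] {K : Type} [Field K]

private theorem gtc_hom (θ : MvPolynomial σ ℤ →+* K) (t : MvPolynomial σ ℤ) (g : Polynomial ℤ) :
    θ (Polynomial.aeval t g) = Polynomial.aeval (θ t) g := by
  have h := Polynomial.aeval_algHom_apply (θ.toIntAlgHom) t g
  exact h.symm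

private theorem gtc_tr (θ : MvPolynomial σ ℤ →+* K) (t : MvPolynomial σ ℤ)
    (h : Transcendental ℤ (θ t)) (g : Polynomial ℤ) (hg : θ (Polynomial.aeval t g) = 0) :
    g = 0 := by
  rw [gtc_hom] at hg
  exact (transcendental_iff.1 h) g hg

private theorem gtc_pow {y : K} (hy : Transcendental ℤ y) {q : ℕ} (hq : 1 < q) :
    Transcendental ℤ ((y ^ q - y) ^ 2) := by
  have hdq : ((Polynomial.X : Polynomial ℤ) ^ q - Polynomial.X).natDegree = q := by
    rw [Polynomial.natDegree_sub_eq_left_of_natDegree_lt, Polynomial.natDegree_X_pow]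
    rw [Polynomial.natDegree_X_pow, Polynomial.natDegree_X]
    exact hq
  have hmon : ((Polynomial.X : Polynomial ℤ) ^ q - Polynomial.X).Monic := by
    rw [Polynomial.Monic, Polynomial.leadingCoeff, hdq, Polynomial.coeff_sub,
      Polynomial.coeff_X_pow_self, Polynomial.coeff_X_of_ne_one (by omega), sub_zero]
  have h3 := hy.aeval (((Polynomial.X : Polynomial ℤ) ^ q - Polynomial.X) ^ 2)
    (by rw [Polynomial.natDegree_pow, hdq]; omega)
    (by
      rw [(hmon.pow 2).leadingCoeff]
      exact one_mem _)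
  rw [map_pow, map_sub, map_pow, Polynomial.aeval_X] at h3
  exact h3

private theorem gtc_q {M : Ideal (MvPolynomial σ ℤ)} [M.IsMaximal] {p : ℕ} (hp : p.Prime)
    (hpM : (C (p : ℤ) : MvPolynomial σ ℤ) ∈ M) (s : σ) :
    ∃ q : ℕ, 1 < q ∧ (X s : MvPolynomial σ ℤ) ^ q - X s ∈ M := by
  have hfin := finite_quot hp hpM
  let _ : Field (MvPolynomial σ ℤ ⧸ M) := Ideal.Quotient.field M
  have : Fintype (MvPolynomial σ ℤ ⧸ M) := Fintype.ofFinite _
  refine ⟨Fintype.card (MvPolynomial σ ℤ ⧸ M), Fintype.one_lt_card, ?_⟩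
  rw [← Ideal.Quotient.eq_zero_iff_mem, map_sub, map_pow, FiniteField.pow_card, sub_self]

/-- Proof. `t0` from `exists_t0`. If it is algebraic (`θ t0` over `ℤ`) take `t = t0 + (X s ^ q - X s) ^ 2` with `s` from `exists_y`, `q = card (ℤ[x] / M)`, `X s ^ q - X s ∈ M`: `t ≡ t0` and the derivatives
are congruent modulo `M`; `θ t` is not algebraic, otherwise `(y ^ q - y) ^ 2`, `y = θ (X s)`, is algebraic, so `y`. (`IsAlgebraic ℤ`.) -/
theorem exists_t [CharZero K] {θ : MvPolynomial σ ℤ →+* K} {f : MvPolynomial σ ℤ}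
    (hker : RingHom.ker θ = Ideal.span {f}) (hσ : 2 ≤ Fintype.card σ)
    {M : Ideal (MvPolynomial σ ℤ)} [M.IsMaximal] {p : ℕ} (hp : p.Prime)
    (hpM : (C (p : ℤ) : MvPolynomial σ ℤ) ∈ M) (c : σ → MvPolynomial σ ℤ) :
    ∃ t, GT θ M c t := by
  obtain ⟨t0, h1, h2⟩ := exists_t0 hp hpM c
  by_cases halg : Transcendental ℤ (θ t0)
  · exact ⟨t0, h1, h2, gtc_tr θ t0 halg⟩
  · unfold Transcendental at halg
    rw [not_not] at halg
    obtain ⟨s, hs⟩ := exists_y hker hσ
    obtain ⟨q, hq, hpow⟩ := gtc_q hp hpM s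
    have hy : Transcendental ℤ (θ (X s)) := by
      rw [transcendental_iff]
      intro g hg
      apply hs
      rw [gtc_hom]
      exact hg
    have hty := gtc_pow hy hq
    refine ⟨t0 + (X s ^ q - X s) ^ 2, ?_, ?_, ?_⟩
    · intro s'
      have h3 : pderiv s' (t0 + (X s ^ q - X s) ^ 2) - c s' =
          (pderiv s' t0 - c s') + (X s ^ q - X s) * (2 * pderiv s' (X s ^ q - X s)) := by
        rw [map_add, pow_two, Derivation.leibniz]
        simp only [smul_eq_mul]
        ring
      rw [h3]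
      exact add_mem (h1 s') (M.mul_mem_right _ hpow)
    · intro h
      obtain ⟨g, hg⟩ := h2 h
      refine ⟨g, ?_⟩
      rw [← Ideal.Quotient.eq_zero_iff_mem] at hg ⊢
      rw [map_sub] at hg ⊢
      have hh : ∀ t : MvPolynomial σ ℤ, Ideal.Quotient.mk M (Polynomial.aeval t g) =
          Polynomial.aeval (Ideal.Quotient.mk M t) g := by
        intro t
        exact (Polynomial.aeval_algHom_apply ((Ideal.Quotient.mk M).toIntAlgHom) t g).symm
      rw [hh] at hg ⊢
      have ht : Ideal.Quotient.mk M (t0 + (X s ^ q - X s) ^ 2) = Ideal.Quotient.mk M t0 := by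
        rw [Ideal.Quotient.mk_eq_mk_iff_sub_mem, add_sub_cancel_left, pow_two]
        exact M.mul_mem_right _ hpow
      rw [ht]
      exact hg
    · apply gtc_tr
      intro h3
      apply hty
      have h4 : (θ (X s) ^ q - θ (X s)) ^ 2 = θ (t0 + (X s ^ q - X s) ^ 2) - θ t0 := by
        simp
      rw [h4]
      exact h3.sub halg

end Pool.Agent.EvM
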