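import Pool.Agent.EvM.EmPar

set_option autoImplicit false

/-! # The condition `Kap` -/

namespace Pool.Agent.EvM

open Pool.Agent.NT9

variable {K0 : Type} [Field K0] {B0 : Subring K0} {D : Derivation ℤ K0 K0} {p L : ℕ} {P0 : K0}

private theorem kap_nzd (h : P2 B0 p P0) (n : ℕ) : ∀ x ∈ B0, ∀ y ∈ B0,
    P0 ^ n * x = (p : K0) * y → ∃ c ∈ B0, x = c * p := by
  induction n with
  | zero =>
    intro x _ y hy hxy
    exact ⟨y, hy, by rw [pow_zero, one_mul] at hxy; rw [hxy, mul_comm]⟩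
  | succ n ih =>
    intro x hx y hy hxy
    have h1 : P0 ^ n * x ∈ B0 := B0.mul_mem (B0.pow_mem h.ht.1 n) hx
    obtain ⟨c, hc, h2, h3⟩ := h.reg y hy (P0 ^ n * x) h1 (by
      rw [mul_comm y, ← hxy, pow_succ]; ring)
    exact ih x hx c hc (by rw [h3]; ring)

private theorem kap_step (h : P2 B0 p P0) {w : K0} (hw : w ∈ B0) (v : ℕ) :
    (∃ c ∈ B0, ∃ a ∈ B0, w = c * P0 ^ v + a * p) ∨
      ∃ u ∈ B0, u ∉ mx B0 ∧ ∃ a ∈ B0, ∃ v', v' < v ∧ w = u * P0 ^ v' + a * p := by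
  induction v with
  | zero =>
    left
    exact ⟨w, hw, 0, B0.zero_mem, by ring⟩
  | succ v ih =>
    rcases ih with ⟨c, hc, a, ha, h1⟩ | ⟨u, hu, hu', a, ha, v', hv', h1⟩
    · by_cases hcm : c ∈ mx B0
      · obtain ⟨a', ha', b', hb', h2⟩ := h.gen c hcm
        left
        refine ⟨b', hb', a' * P0 ^ v + a, B0.add_mem (B0.mul_mem ha' (B0.pow_mem h.ht.1 v)) ha, ?_⟩
        rw [h1, h2]
        ring
      · right
        exact ⟨c, hc, hcm, a, ha, v, Nat.lt_succ_self v, h1⟩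
    · right
      exact ⟨u, hu, hu', a, ha, v', Nat.lt_succ_of_lt hv', h1⟩

/-- Proof. `w ∉ p B0`: otherwise `w = p w'`, `D w = p D w'`, and `P0 ^ L = α w + β D w ∈ p B0`, impossible (`P2.reg`, induction on `L`; `1 ∉ p B0`). The ring `B0 / p B0` is local Noetherian with maximal ideal
generated by `P0` (Krull): `w = u P0 ^ v + a p` with `u ∉ mx B0`. If `v ≥ L + 2` then `w`, `D w = D u P0 ^ v + v u P0 ^ (v-1) D P0 + p D a` are in `(p, P0 ^ (L + 1))`, so
`P0 ^ L (1 - b P0) ∈ p B0`: contradiction. -/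
theorem kap_form (h : P2 B0 p P0) (hD : ∀ b ∈ B0, D b ∈ B0) {w : K0} (hw : w ∈ B0)
    (hst : Star B0 D w L) : w / (p : K0) ∉ B0 ∧ ∃ a ∈ B0, ∃ b ∈ B0, P0 ^ (L + 1) = a * p + b * w := by
  have := h.loc
  have hp0 : (p : K0) ≠ 0 := h.s0
  have hpB : (p : K0) ∈ B0 := h.hs.1
  have hPB : P0 ∈ B0 := h.ht.1
  have hDp : D (p : K0) = 0 := D.map_natCast p
  obtain ⟨α, hα, β, hβ, hab⟩ := hst (fun _ => P0) (fun _ => h.ht)
  rw [Finset.prod_const, Finset.card_univ, Fintype.card_fin] at hab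
  constructor
  · intro hwp
    have h1 : w = (p : K0) * (w / p) := by
      field_simp
    have h2 : D w = (p : K0) * D (w / p) := by
      have h3 : D w = D ((p : K0) * (w / p)) := by rw [← h1]
      rw [h3, Derivation.leibniz, hDp, smul_zero, add_zero, smul_eq_mul]
    obtain ⟨c, hc, h3⟩ := kap_nzd h L 1 B0.one_mem (α * (w / p) + β * D (w / p))
      (B0.add_mem (B0.mul_mem hα hwp) (B0.mul_mem hβ (hD _ hwp))) (by
        rw [mul_one, hab, h2]
        have h4 : α * w = α * ((p : K0) * (w / p)) := by rw [← h1]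
        rw [h4]
        ring)
    apply one_notMem_mx (O := B0)
    rw [h3]
    exact mx_mul hc h.hs
  · rcases kap_step h hw (L + 2) with ⟨c, hc, a, ha, h1⟩ | ⟨u, hu, hu', a, ha, v', hv', h1⟩
    · exfalso
      have h2 : D w = P0 ^ (L + 1) * (P0 * D c + c * ((L + 2 : ℕ) : K0) * D P0) + (p : K0) * D a := by
        rw [h1, map_add, Derivation.leibniz, Derivation.leibniz, Derivation.leibniz_pow, hDp]
        simp only [smul_eq_mul, nsmul_eq_mul]
        have h3 : L + 2 - 1 = L + 1 := by omega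
        rw [h3]
        push_cast
        ring
      have hDw : P0 ^ L = P0 ^ (L + 1) * (α * (c * P0) + β * (P0 * D c + c * ((L + 2 : ℕ) : K0) * D P0)) +
          (p : K0) * (α * a + β * D a) := by
        rw [h2] at hab
        rw [hab]
        have h4 : α * w = α * (c * P0 ^ (L + 2) + a * p) := by rw [← h1]
        rw [h4]
        ring
      have hN : ((L + 2 : ℕ) : K0) ∈ B0 := natCast_mem B0 _
      have he : α * (c * P0) + β * (P0 * D c + c * ((L + 2 : ℕ) : K0) * D P0) ∈ B0 :=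
        B0.add_mem (B0.mul_mem hα (B0.mul_mem hc hPB)) (B0.mul_mem hβ (B0.add_mem
          (B0.mul_mem hPB (hD _ hc)) (B0.mul_mem (B0.mul_mem hc hN) (hD _ hPB))))
      obtain ⟨d, hd, h5⟩ := kap_nzd h L
        (1 - (α * (c * P0) + β * (P0 * D c + c * ((L + 2 : ℕ) : K0) * D P0)) * P0)
        (B0.sub_mem B0.one_mem (B0.mul_mem he hPB)) (α * a + β * D a)
        (B0.add_mem (B0.mul_mem hα ha) (B0.mul_mem hβ (hD _ ha))) (by
          rw [mul_sub, mul_one]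
          nth_rw 1 [hDw]
          ring)
      apply one_notMem_mx (O := B0)
      have h6 : (1 : K0) = d * p +
          (α * (c * P0) + β * (P0 * D c + c * ((L + 2 : ℕ) : K0) * D P0)) * P0 := by
        rw [← h5]
        ring
      rw [h6]
      exact mx_add (mx_mul hd h.hs) (mx_mul he h.ht)
    · obtain ⟨hu0, hu1⟩ := (notMem_mx_iff hu).1 hu'
      refine ⟨-(P0 ^ (L + 1 - v') * u⁻¹ * a), B0.neg_mem (B0.mul_mem (B0.mul_mem
        (B0.pow_mem hPB _) hu1) ha), P0 ^ (L + 1 - v') * u⁻¹,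
        B0.mul_mem (B0.pow_mem hPB _) hu1, ?_⟩
      have h2 : P0 ^ (L + 1) = P0 ^ (L + 1 - v') * P0 ^ v' := by
        rw [← pow_add]
        congr 1
        omega
      have h3 : P0 ^ v' = u⁻¹ * (w - a * p) := by
        rw [h1]
        field_simp
        ring
      rw [h2, h3]
      ring

private theorem kap_fin (h : P2 B0 p P0) {S0 : Finset K0}
    (hS : ∀ x ∈ B0, ∃ s ∈ S0, s ∈ B0 ∧ x - s ∈ mx B0) (n : ℕ) :
    ∃ S : Finset K0, ∀ x ∈ B0, ∃ y ∈ S, ∃ a ∈ B0, ∃ b ∈ B0, x = y + a * p + b * P0 ^ n := by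
  classical
  induction n with
  | zero =>
    refine ⟨{0}, fun x hx => ⟨0, Finset.mem_singleton_self _, 0, B0.zero_mem, x, hx, ?_⟩⟩
    ring
  | succ n ih =>
    obtain ⟨S, hS'⟩ := ih
    refine ⟨Finset.image₂ (fun y s => y + s * P0 ^ n) S S0, fun x hx => ?_⟩
    obtain ⟨y, hy, a, ha, b, hb, h1⟩ := hS' x hx
    obtain ⟨s, hs, hsB, h2⟩ := hS b hb
    obtain ⟨a', ha', b', hb', h3⟩ := h.gen _ h2
    refine ⟨y + s * P0 ^ n, Finset.mem_image₂_of_mem hy hs, a + a' * P0 ^ n,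
      B0.add_mem ha (B0.mul_mem ha' (B0.pow_mem h.ht.1 n)), b', hb', ?_⟩
    have h4 : b = s + (a' * p + b' * P0) := by rw [← h3]; ring
    rw [h1, h4]
    ring

/-- Proof. Let `S0` be the finite set of `FinRes`; `κ = card S0 ^ (L + 1)`: every `x ∈ B0` is `∑ i ≤ L, y i * P0 ^ i + a p + b P0 ^ (L + 1)`, `y i ∈ S0`; `kap_form`. -/
theorem exists_kap (h : P2 B0 p P0) (hf : FinRes B0) (hD : ∀ b ∈ B0, D b ∈ B0) (L : ℕ) :
    ∃ κ : ℕ, ∀ w ∈ B0, Star B0 D w L → Kap B0 p w κ ∧ w / (p : K0) ^ 2 ∉ B0 ∧ w ≠ 0 := by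
  obtain ⟨S0, hS0⟩ := hf
  obtain ⟨S, hS⟩ := kap_fin h hS0 (L + 1)
  refine ⟨S.card, fun w hw hst => ?_⟩
  obtain ⟨h1, a, ha, b, hb, h2⟩ := kap_form h hD hw hst
  refine ⟨⟨S, le_rfl, fun x hx => ?_⟩, ?_, ?_⟩
  · obtain ⟨y, hy, a', ha', b', hb', h3⟩ := hS x hx
    refine ⟨y, hy, a' + b' * a, B0.add_mem ha' (B0.mul_mem hb' ha), b' * b, B0.mul_mem hb' hb, ?_⟩
    rw [h3, h2]
    ring
  · intro h3
    apply h1
    have hp0 : (p : K0) ≠ 0 := h.s0
    have h4 : w / (p : K0) = p * (w / (p : K0) ^ 2) := by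
      field_simp
    rw [h4]
    exact B0.mul_mem h.hs.1 h3
  · intro h3
    apply h1
    rw [h3, zero_div]
    exact B0.zero_mem

end Pool.Agent.EvM
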