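import Pool.Agent.EvM.EmDefs

set_option autoImplicit false

/-! # powers of the maximal ideal -/

namespace Pool.Agent.EvM

open Pool.Agent.NT9

variable {K0 : Type} [Field K0] {B B' : Subring K0}

theorem mp_zero_iff {x : K0} : x ∈ mp B 0 ↔ x ∈ B := Iff.rfl

private theorem mp_gen {n : ℕ} {x y : K0} (hx : x ∈ mx B) (hy : y ∈ mp B n) :
    x * y ∈ mp B (n + 1) := AddSubgroup.subset_closure ⟨x, hx, y, hy, rfl⟩

private theorem mp_succ_le {n : ℕ} {H : AddSubgroup K0}
    (h : ∀ x ∈ mx B, ∀ y ∈ mp B n, x * y ∈ H) {z : K0} (hz : z ∈ mp B (n + 1)) : z ∈ H := by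
  have h1 : AddSubgroup.closure {z | ∃ x ∈ mx B, ∃ y ∈ mp B n, z = x * y} ≤ H := by
    rw [AddSubgroup.closure_le]
    rintro _ ⟨x, hx, y, hy, rfl⟩
    exact h x hx y hy
  exact h1 hz

/-- multiplication by `a` -/
private def mpCo (a : K0) (H : AddSubgroup K0) : AddSubgroup K0 := H.comap (AddMonoidHom.mulLeft a)

private theorem mem_mpCo {a z : K0} {H : AddSubgroup K0} : z ∈ mpCo a H ↔ a * z ∈ H := Iff.rfl

theorem mp_smul [IsLocalRing B] {n : ℕ} {a x : K0} (ha : a ∈ B) (hx : x ∈ mp B n) :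
    a * x ∈ mp B n := by
  cases n with
  | zero => exact B.mul_mem ha hx
  | succ n =>
    have h1 : x ∈ mpCo a (mp B (n + 1)) := by
      refine mp_succ_le ?_ hx
      intro u hu v hv
      rw [mem_mpCo, ← mul_assoc]
      exact mp_gen (mx_mul ha hu) hv
    exact h1

/-- Induction on `m`; `AddSubgroup.closure_induction`; case `m = 0`: induction on `n` and `mx_mul`. -/
theorem mp_mul [IsLocalRing B] {m n : ℕ} {x y : K0} (hx : x ∈ mp B m) (hy : y ∈ mp B n) :
    x * y ∈ mp B (m + n) := by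
  induction m generalizing x with
  | zero =>
    rw [zero_add]
    exact mp_smul hx hy
  | succ m ih =>
    have h1 : x ∈ mpCo y (mp B (m + 1 + n)) := by
      refine mp_succ_le ?_ hx
      intro u hu v hv
      rw [mem_mpCo, mul_comm y, mul_assoc, Nat.succ_add]
      exact mp_gen hu (ih hv)
    rw [mem_mpCo, mul_comm] at h1
    exact h1

theorem mp_mem [IsLocalRing B] {n : ℕ} {x : K0} (hx : x ∈ mp B n) : x ∈ B := by
  induction n generalizing x with
  | zero => exact hx
  | succ n ih =>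
    have h1 : x ∈ B.toAddSubgroup := mp_succ_le (fun u hu v hv => B.mul_mem (mx_le hu) (ih hv)) hx
    exact h1

theorem mp_anti [IsLocalRing B] {m n : ℕ} (h : m ≤ n) {x : K0} (hx : x ∈ mp B n) :
    x ∈ mp B m := by
  induction h with
  | refl => exact hx
  | step _ ih => exact ih (mp_succ_le (fun u hu v hv => mp_smul (mx_le hu) hv) hx)

theorem mp_one_iff [IsLocalRing B] {x : K0} : x ∈ mp B 1 ↔ x ∈ mx B := by
  constructor
  · intro hx
    refine AddSubgroup.closure_induction (p := fun x _ => x ∈ mx B) ?_ zero_mem_mx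
      (fun x y _ _ hx hy => mx_add hx hy) (fun x _ hx => mx_neg hx) hx
    rintro _ ⟨u, hu, v, hv, rfl⟩
    exact mx_mul_right hu hv
  · intro hx
    rw [← mul_one x]
    exact mp_gen hx B.one_mem

theorem mp_mono (hle : B ≤ B') (hdom : ∀ x ∈ mx B, x ∈ mx B') {n : ℕ} {x : K0}
    (hx : x ∈ mp B n) : x ∈ mp B' n := by
  induction n generalizing x with
  | zero => exact hle hx
  | succ n ih => exact mp_succ_le (fun u hu v hv => mp_gen (hdom u hu) (ih hv)) hx

theorem mp_prod [IsLocalRing B] {n : ℕ} (x : Fin n → K0) (hx : ∀ l, x l ∈ mx B) :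
    ∏ l, x l ∈ mp B n := by
  induction n with
  | zero =>
    rw [Finset.univ_eq_empty, Finset.prod_empty]
    exact B.one_mem
  | succ n ih =>
    rw [Fin.prod_univ_succ]
    exact mp_gen (hx 0) (ih _ fun l => hx _)

end Pool.Agent.EvM
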