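import Pool.Agent.EvM.EmBMa
import Pool.Agent.EvM.EmPow

set_option autoImplicit false

/-! # The local ring of the model as a `Sg` -/

namespace Pool.Agent.EvM

open MvPolynomial Pool.Agent.NT9

variable {σ : Type} [Fintype σ] [DecidableEq σ] {K0 K : Type} [Field K0] [Field K]
  {t : MvPolynomial σ ℤ} {M : Ideal (MvPolynomial σ ℤ)} {T : K0} {B0 : Subring K0}
  {θ : MvPolynomial σ ℤ →+* K} {D : Derivation ℤ K0 K0} {X : σ → K0}

private theorem sg_j {j : K0 →+* K} (hj : j T = θ t) (g : Polynomial ℤ) :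
    j (Polynomial.aeval T g) = θ (Polynomial.aeval t g) := by
  have h1 : j (Polynomial.aeval T g) = Polynomial.aeval (j T) g :=
    (Polynomial.aeval_algHom_apply j.toIntAlgHom T g).symm
  have h2 : θ (Polynomial.aeval t g) = Polynomial.aeval (θ t) g :=
    (Polynomial.aeval_algHom_apply θ.toIntAlgHom t g).symm
  rw [h1, h2, hj]

/-- Proof. `j (u (T) / v (T)) = θ (u (t)) / θ (v (t))`, `v (t) ∉ M`, so `θ (v (t))` is a unit of `O`. `Wc θ j X 1 s = θ (X s) - j (X s)`: choose `g` with `X s - g (t) ∈ M`; then `X s - g (t (X)) ∈ mx B0` (value at `X`),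
`g (t (X)) - g (T) ∈ mx B0`, so `X s - g (T) ∈ mx B0`, and `θ (X s) - j (X s) = θ (X s - g (t)) - j (X s - g (T))`. `fr`: `θ h = piW j B0 (Wc θ j X 1) (h (X + W))`. -/
theorem sg_zero [M.IsMaximal] (td : TD T D) (h : IsBM t M T B0)
    (sur : ∀ h : MvPolynomial σ ℤ, ∃ g : Polynomial ℤ, h - Polynomial.aeval t g ∈ M)
    {j : K0 →+* K} (hj : j T = θ t) (hX : ∀ s, X s ∈ B0) (h0 : d0 t T X ∈ mx B0)
    (hM : ∀ h : MvPolynomial σ ℤ, aeval X h ∈ mx B0 ↔ h ∈ M) {O : Subring K} [IsLocalRing O]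
    (hO : ∀ h, h ∈ M ↔ θ h ∈ mx O) (hfr : IsFr θ.range O) : Sg θ j X B0 1 O := by
  have := bm_loc td h
  have hθO : ∀ q, θ q ∈ O := fun q => hfr.1 ⟨q, rfl⟩
  have hunit : ∀ q, q ∉ M → θ q ≠ 0 ∧ (θ q)⁻¹ ∈ O := by
    intro q hq
    rw [← notMem_mx_iff (hθO q), ← hO]
    exact hq
  have hB : ∀ b ∈ B0, j b ∈ O := by
    intro b hb
    obtain ⟨u, v, hv, h1⟩ := (h b).1 hb
    obtain ⟨h2, h3⟩ := hunit _ hv
    refine mem_O_of_fr (hθO (Polynomial.aeval t u)) h2 h3 ?_
    rw [← sg_j hj, ← sg_j hj, ← map_mul, h1]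
  have hm : ∀ b ∈ mx B0, j b ∈ mx O := by
    intro b hb
    by_cases hb0 : b = 0
    · rw [hb0, map_zero]
      exact zero_mem_mx
    obtain ⟨u, v, hv, h1⟩ := (h b).1 hb.1
    obtain ⟨h2, h3⟩ := hunit _ hv
    have hu : Polynomial.aeval t u ∈ M := by
      by_contra hu
      rcases hb.2 with h4 | h4
      · exact hb0 h4
      · apply h4
        refine (h b⁻¹).2 ⟨v, u, hu, ?_⟩
        rw [← h1]
        field_simp
    have h4 : j b = (θ (Polynomial.aeval t v))⁻¹ * θ (Polynomial.aeval t u) := by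
      rw [← sg_j hj u, ← h1, map_mul, sg_j hj v]
      field_simp
    rw [h4]
    exact mx_mul h3 ((hO _).1 hu)
  have hTB : T ∈ B0 := by
    have h1 := bm_poly h Polynomial.X
    rwa [Polynomial.aeval_X] at h1
  have hW : ∀ s, Wc θ j X 1 s ∈ mx O := by
    intro s
    obtain ⟨g, hg⟩ := sur (MvPolynomial.X s)
    have htX : aeval X t ∈ B0 := by
      have h1 : aeval X t = T + d0 t T X := by
        rw [d0]; ring
      rw [h1]
      exact B0.add_mem hTB h0.1
    have h1 : X s - Polynomial.aeval (aeval X t) g ∈ mx B0 := by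
      have h2 := (hM _).2 hg
      rw [map_sub, aeval_X] at h2
      have h3 : aeval X (Polynomial.aeval t g) = Polynomial.aeval (aeval X t) g :=
        (Polynomial.aeval_algHom_apply (aeval X) t g).symm
      rwa [h3] at h2
    have h2 : Polynomial.aeval (aeval X t) g - Polynomial.aeval T g ∈ mx B0 := by
      have hsub : ∀ (a : B0), ((Polynomial.aeval a g : B0) : K0) = Polynomial.aeval (a : K0) g :=
        fun a => (Polynomial.aeval_algHom_apply B0.subtype.toIntAlgHom a g).symm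
      have hres : ∀ (a : B0), IsLocalRing.residue B0 (Polynomial.aeval a g) =
          Polynomial.aeval (IsLocalRing.residue B0 a) g :=
        fun a => (Polynomial.aeval_algHom_apply (IsLocalRing.residue B0).toIntAlgHom a g).symm
      have h3 : IsLocalRing.residue B0 ⟨aeval X t, htX⟩ = IsLocalRing.residue B0 ⟨T, hTB⟩ := by
        rw [← sub_eq_zero, ← map_sub, IsLocalRing.residue_eq_zero_iff, ← mem_mx_iff]
        exact h0
      have h4 : (Polynomial.aeval (⟨aeval X t, htX⟩ : B0) g - Polynomial.aeval (⟨T, hTB⟩ : B0) g : B0) ∈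
          IsLocalRing.maximalIdeal B0 := by
        rw [← IsLocalRing.residue_eq_zero_iff, map_sub, hres, hres, h3, sub_self]
      rw [← mem_mx_iff] at h4
      rw [AddSubgroupClass.coe_sub, hsub, hsub] at h4
      exact h4
    have h3 : X s - Polynomial.aeval T g ∈ mx B0 := by
      have h4 := mx_add h1 h2
      rwa [sub_add_sub_cancel] at h4
    have h4 : Wc θ j X 1 s = θ (MvPolynomial.X s - Polynomial.aeval t g) -
        j (X s - Polynomial.aeval T g) := by
      rw [Wc, map_one, div_one, map_sub, map_sub, sg_j hj]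
      ring
    rw [h4]
    exact mx_sub ((hO _).1 hg) (hm _ h3)
  refine ⟨hB, hm, hW, ?_⟩
  have hpi : ∀ q : MvPolynomial σ ℤ, piW j B0 (Wc θ j X 1)
      (aeval (fun s => C (⟨X s, hX s⟩ : B0) + MvPolynomial.X s) q) = θ q := by
    intro q
    have h1 : ((piW j B0 (Wc θ j X 1)).comp
        (aeval (fun s => C (⟨X s, hX s⟩ : B0) + MvPolynomial.X s) :
          MvPolynomial σ ℤ →ₐ[ℤ] MvPolynomial σ B0).toRingHom) = θ := by
      refine MvPolynomial.ringHom_ext' (Subsingleton.elim _ _) fun s => ?_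
      simp only [RingHom.comp_apply, AlgHom.toRingHom_eq_coe, RingHom.coe_coe, aeval_X, map_add]
      rw [piW, eval₂Hom_C, eval₂Hom_X', Wc, map_one, div_one]
      simp
    exact RingHom.congr_fun h1 q
  intro x hx
  obtain ⟨u, ⟨u', hu'⟩, v, ⟨v', hv'⟩, h1, h2, h3⟩ := hfr.2 x hx
  refine ⟨aeval (fun s => C (⟨X s, hX s⟩ : B0) + MvPolynomial.X s) u',
    aeval (fun s => C (⟨X s, hX s⟩ : B0) + MvPolynomial.X s) v', ?_, ?_, ?_⟩
  · rw [hpi, hv']
    exact h1
  · rw [hpi, hv']
    exact h2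
  · rw [hpi, hpi, hu', hv']
    exact h3

end Pool.Agent.EvM
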