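import Pool.Agent.EvM.EmBMa

set_option autoImplicit false

/-! # The local ring B0: regular of dimension two -/

namespace Pool.Agent.EvM

open MvPolynomial Pool.Agent.NT9

variable {σ : Type} [Fintype σ] [DecidableEq σ] {K0 : Type} [Field K0]

variable {t : MvPolynomial σ ℤ} {M : Ideal (MvPolynomial σ ℤ)} {T : K0} {B0 : Subring K0}
  {D : Derivation ℤ K0 K0} {p : ℕ} {P0 : Polynomial ℤ}

/-- Proof. Noetherian: a localisation of `ℤ[X]`. `mx B0` is generated by `p`, `P0 (T)` (`PG.gen`). `reg`: `a p = b P0` in `B0`; clear denominators: `P0` is not a zero divisor modulo `p` in `ℤ[X]` as it is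
monic. -/
theorem bm_p2 [M.IsMaximal] (td : TD T D) (h : IsBM t M T B0) (hp : p.Prime)
    (hpM : (C (p : ℤ) : MvPolynomial σ ℤ) ∈ M) (pg : PG t M p P0) :
    P2 B0 p (Polynomial.aeval T P0) := by
  classical
  have hloc := bm_loc td h
  obtain ⟨ρ, hρg, hρ⟩ := bm_res td h
  have hne : ∀ v : Polynomial ℤ, Polynomial.aeval t v ∉ M → Polynomial.aeval T v ≠ 0 := by
    intro v hv h0
    rw [td.inj v h0, map_zero] at hv
    exact hv M.zero_mem
  have hmul : ∀ v v' : Polynomial ℤ, Polynomial.aeval t v ∉ M → Polynomial.aeval t v' ∉ M →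
      Polynomial.aeval t (v * v') ∉ M := by
    intro v v' h h' hh
    rw [map_mul] at hh
    rcases (Ideal.IsPrime.mem_or_mem inferInstance hh) with h1 | h1
    · exact h h1
    · exact h' h1
  have hinj : ∀ a b : Polynomial ℤ, Polynomial.aeval T a = Polynomial.aeval T b → a = b := by
    intro a b hab
    have : Polynomial.aeval T (a - b) = 0 := by rw [map_sub, hab, sub_self]
    exact sub_eq_zero.1 (td.inj _ this)
  have hdiv : ∀ a v : Polynomial ℤ, Polynomial.aeval t v ∉ M →
      Polynomial.aeval T a / Polynomial.aeval T v ∈ B0 := by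
    intro a v hv
    exact (h _).2 ⟨a, v, hv, div_mul_cancel₀ _ (hne v hv)⟩
  have hC : Polynomial.aeval T (Polynomial.C (p : ℤ)) = (p : K0) := by
    rw [Polynomial.aeval_C]
    simp
  have hp0 : (p : K0) ≠ 0 := by
    intro h0
    rw [← hC] at h0
    have h1 := td.inj _ h0
    rw [Polynomial.C_eq_zero] at h1
    exact hp.ne_zero (by exact_mod_cast h1)
  have hmem : ∀ g : Polynomial ℤ, Polynomial.aeval t g ∈ M → Polynomial.aeval T g ∈ mx B0 := by
    intro g hg
    apply (hρ ⟨Polynomial.aeval T g, bm_poly h g⟩).1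
    rw [hρg]
    exact Ideal.Quotient.eq_zero_iff_mem.2 hg
  have hmem' : ∀ (x : K0) (u v : Polynomial ℤ), x ∈ mx B0 →
      x * Polynomial.aeval T v = Polynomial.aeval T u → Polynomial.aeval t u ∈ M := by
    intro x u v hx huv
    have h1 : (⟨x, hx.1⟩ : B0) * ⟨Polynomial.aeval T v, bm_poly h v⟩ =
        ⟨Polynomial.aeval T u, bm_poly h u⟩ := Subtype.ext huv
    have h2 := congrArg ρ h1
    rw [map_mul, (hρ ⟨x, hx.1⟩).2 hx, zero_mul, hρg] at h2
    exact Ideal.Quotient.eq_zero_iff_mem.1 h2.symm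
  refine ⟨hloc, ?_, hp0, ?_, ?_, hmem _ pg.mem, ?_, ?_⟩
  · let φ : Polynomial ℤ →+* B0 :=
      { toFun := fun g => ⟨Polynomial.aeval T g, bm_poly h g⟩
        map_one' := Subtype.ext (map_one _)
        map_mul' := fun a b => Subtype.ext (map_mul _ a b)
        map_zero' := Subtype.ext (map_zero _)
        map_add' := fun a b => Subtype.ext (map_add _ a b) }
    rw [isNoetherianRing_iff_ideal_fg]
    intro I
    obtain ⟨S, hS⟩ := (isNoetherianRing_iff_ideal_fg (Polynomial ℤ)).1 inferInstance (I.comap φ)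
    have : I = (I.comap φ).map φ := by
      apply le_antisymm
      · intro x hx
        obtain ⟨u, v, hv, huv⟩ := (h x).1 x.2
        have hvi : (Polynomial.aeval T v)⁻¹ ∈ B0 :=
          (h _).2 ⟨1, v, hv, by rw [inv_mul_cancel₀ (hne v hv), map_one]⟩
        have h1 : x * φ v = φ u := Subtype.ext huv
        have h2 : x = ⟨(Polynomial.aeval T v)⁻¹, hvi⟩ * φ u := by
          apply Subtype.ext
          change (x : K0) = (Polynomial.aeval T v)⁻¹ * Polynomial.aeval T u
          rw [← huv]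
          field_simp [hne v hv]
        rw [h2]
        apply Ideal.mul_mem_left
        apply Ideal.mem_map_of_mem
        change φ u ∈ I
        rw [← h1]
        exact I.mul_mem_right _ hx
      · exact Ideal.map_comap_le
    rw [this, ← hS, Ideal.map_span]
    exact ⟨S.image φ, by rw [Finset.coe_image]⟩
  · intro h0
    exact pg.mon.ne_zero (td.inj _ h0)
  · rw [← hC]
    apply hmem
    rw [Polynomial.aeval_C]
    exact hpM
  · intro x hx
    obtain ⟨u, v, hv, huv⟩ := (h x).1 hx.1
    obtain ⟨a, b, hab⟩ := pg.gen u (hmem' x u v hx huv)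
    refine ⟨_, hdiv a v hv, _, hdiv b v hv, ?_⟩
    have h1 := hne v hv
    rw [hab, map_add, map_mul, map_mul, hC] at huv
    rw [eq_comm, div_mul_eq_mul_div, div_mul_eq_mul_div, ← add_div, ← huv]
    exact mul_div_cancel_right₀ _ h1
  · intro a ha b hb hab
    obtain ⟨u₁, v₁, hv₁, huv₁⟩ := (h a).1 ha
    obtain ⟨u₂, v₂, hv₂, huv₂⟩ := (h b).1 hb
    have h1 : u₁ * v₂ * Polynomial.C (p : ℤ) = u₂ * v₁ * P0 := by
      apply hinj
      rw [map_mul, map_mul, map_mul, map_mul, hC, ← huv₁, ← huv₂]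
      linear_combination (Polynomial.aeval T v₁) * (Polynomial.aeval T v₂) * hab
    have hpr : Prime (Polynomial.C (p : ℤ)) := by
      rw [Polynomial.prime_C_iff]
      exact Nat.prime_iff_prime_int.1 hp
    have h2 : Polynomial.C (p : ℤ) ∣ u₂ * v₁ := by
      have h3 : Polynomial.C (p : ℤ) ∣ (u₂ * v₁) * P0 := ⟨u₁ * v₂, by rw [← h1]; ring⟩
      rcases hpr.dvd_or_dvd h3 with h4 | h4
      · exact h4
      · exfalso
        rw [Polynomial.C_dvd_iff_dvd_coeff] at h4
        have h5 := h4 P0.natDegree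
        rw [Polynomial.coeff_natDegree, pg.mon.leadingCoeff] at h5
        have h6 : (p : ℤ) ∣ 1 := h5
        have h7 : p ∣ 1 := by exact_mod_cast h6
        exact hp.one_lt.ne' (Nat.dvd_one.1 h7)
    obtain ⟨g, hg⟩ := h2
    have hv12 := hmul _ _ hv₁ hv₂
    refine ⟨_, hdiv g (v₁ * v₂) hv12, ?_⟩
    have hb' : b = Polynomial.aeval T g / Polynomial.aeval T (v₁ * v₂) * (p : K0) := by
      rw [div_mul_eq_mul_div, eq_div_iff (hne _ hv12), ← hC, ← map_mul, mul_comm g, ← hg]
      rw [map_mul, map_mul, ← huv₂]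
      ring
    refine ⟨?_, hb'⟩
    apply mul_right_cancel₀ hp0
    rw [hab]
    calc b * Polynomial.aeval T P0 =
        (Polynomial.aeval T g / Polynomial.aeval T (v₁ * v₂) * (p : K0)) *
          Polynomial.aeval T P0 := by rw [← hb']
      _ = _ := by ring

end Pool.Agent.EvM
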