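import Pool.Agent.EvM.EmPow

set_option autoImplicit false

/-! # The derivative of the critical value -/

namespace Pool.Agent.EvM

open MvPolynomial Pool.Agent.NT9

variable {σ : Type} [Fintype σ] [DecidableEq σ] {K0 : Type} [Field K0]
  {t f : MvPolynomial σ ℤ} {T lam : K0} {B0 : Subring K0} {D : Derivation ℤ K0 K0} {X : σ → K0}

/-- Proof. `MvPolynomial.induction_on`. -/
theorem der_aeval (D : Derivation ℤ K0 K0) (X : σ → K0) (h : MvPolynomial σ ℤ) :
    D (aeval X h) = ∑ s, aeval X (pderiv s h) * D (X s) := by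
  induction h using MvPolynomial.induction_on with
  | C a =>
    rw [aeval_C, Derivation.map_algebraMap]
    symm
    refine Finset.sum_eq_zero fun s _ => ?_
    rw [pderiv_C, map_zero, zero_mul]
  | add p q hp hq =>
    rw [map_add, map_add, hp, hq, ← Finset.sum_add_distrib]
    refine Finset.sum_congr rfl fun s _ => ?_
    rw [map_add, map_add, add_mul]
  | mul_X p i hp =>
    rw [map_mul, aeval_X, Derivation.leibniz, hp, smul_eq_mul, smul_eq_mul, Finset.mul_sum]
    have h1 : ∀ s ∈ Finset.univ, aeval X (pderiv s (p * MvPolynomial.X i)) * D (X s) =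
        X i * (aeval X (pderiv s p) * D (X s)) +
          if s = i then aeval X p * D (X i) else 0 := by
      intro s _
      rw [pderiv_mul, map_add, map_mul, map_mul, aeval_X]
      by_cases hs : s = i
      · rw [if_pos hs, hs, pderiv_X_self, map_one]
        ring
      · rw [if_neg hs, pderiv_X_of_ne (Ne.symm hs), map_zero]
        ring
    rw [Finset.sum_congr rfl h1, Finset.sum_add_distrib, Finset.sum_ite_eq' Finset.univ i,
      if_pos (Finset.mem_univ i), add_comm]

/-- Proof. `D w = lam + ∑ s, ds s * D (X s) - D lam * d0` (`der_aeval`, `D T = 1`). -/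
theorem der_wv [IsLocalRing B0] (hDT : D T = 1) (hD : ∀ b ∈ B0, D b ∈ B0)
    (hX : ∀ s, X s ∈ B0) (hlam : lam ∈ B0) {N : ℕ} (h0 : d0 t T X ∈ mp B0 N)
    (hs : ∀ s, ds f t lam X s ∈ mp B0 N) : D (wv f t T lam X) - lam ∈ mp B0 N := by
  have h1 : D (wv f t T lam X) - lam = ∑ s, D (X s) * ds f t lam X s - D lam * d0 t T X := by
    rw [wv, map_sub, Derivation.leibniz, map_sub, hDT, der_aeval, der_aeval, smul_eq_mul,
      smul_eq_mul, d0]
    have h2 : ∑ s, D (X s) * ds f t lam X s =
        ∑ s, aeval X (pderiv s f) * D (X s) - lam * ∑ s, aeval X (pderiv s t) * D (X s) := by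
      rw [Finset.mul_sum, ← Finset.sum_sub_distrib]
      refine Finset.sum_congr rfl fun s _ => ?_
      rw [ds]
      ring
    rw [h2]
    ring
  rw [h1]
  refine AddSubgroup.sub_mem _ (AddSubgroup.sum_mem _ fun s _ => ?_) (mp_smul (hD _ hlam) h0)
  exact mp_smul (hD _ (hX s)) (hs s)

end Pool.Agent.EvM
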