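import Pool.Agent.EvM.EmBMb
import Pool.Agent.EvM.EmBMc
import Pool.Agent.EvM.EmPowI
import Pool.Agent.EvM.EmDw

set_option autoImplicit false

/-! # The condition `Star` -/

namespace Pool.Agent.EvM

open MvPolynomial Pool.Agent.NT9

variable {σ : Type} [Fintype σ] [DecidableEq σ] {K0 : Type} [Field K0]
  {t f : MvPolynomial σ ℤ} {M : Ideal (MvPolynomial σ ℤ)} {T lam : K0} {B0 : Subring K0}
  {D : Derivation ℤ K0 K0} {X : σ → K0} {p : ℕ} {P0 : Polynomial ℤ}

private theorem st_aeval (Y : σ → B0) (h : MvPolynomial σ ℤ) :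
    ((aeval Y h : B0) : K0) = aeval (fun s => (Y s : K0)) h := by
  have h1 := MvPolynomial.comp_aeval_apply (B := K0) Y B0.subtype.toIntAlgHom h
  exact h1

private theorem st_mp [IsLocalRing B0] {n : ℕ} (y : B0) (h : (y : K0) ∈ mp B0 n) :
    y ∈ IsLocalRing.maximalIdeal B0 ^ n := by
  obtain ⟨z, hz, h1⟩ := mem_mp_ideal.1 h
  have h2 : z = y := Subtype.ext h1
  rwa [← h2]

private theorem st_pad (P : Polynomial ℤ) (a : B0) :
    ((Polynomial.aeval a P : B0) : K0) = Polynomial.aeval (a : K0) P :=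
  (Polynomial.aeval_algHom_apply B0.subtype.toIntAlgHom a P).symm

/-- Proof. `hL` for `z = C p` and `z = P0 (t)`: `L1`, `s1`, `L2`, `s2`; `L = L1 + L2`. Let `x l = a l p + b l P0 (T)`; `P0 (T) - P0 (t (X)) ∈ mp B0 (L + 1)` as `t (X) - T` is. So `∏ x l` is, modulo
`mp B0 (L + 1)`, a combination of the values at `X` of `p ^ a P0 (t) ^ b`, `a + b = L`, and `s1 s2 p ^ a P0 (t) ^ b ∈ (f, ∂f)`. The value of `f` at `X` is `wv + lam d0`, the value of `pderiv s f` is
`ds s + lam ..`; the values of `s1`, `s2` are units of `B0`. So `mp B0 L ≤ (wv, lam) + mp B0 (L + 1) = (wv, D wv) + mp B0 (L + 1)` (`der_wv`), and by Nakayama (`B0` Noetherian, `mem_mp_ideal`)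
`mp B0 L ≤ (wv, D wv)`. -/
theorem exists_star [M.IsMaximal] (td : TD T D) (h : IsBM t M T B0) (hp : p.Prime)
    (hpM : (C (p : ℤ) : MvPolynomial σ ℤ) ∈ M) (pg : PG t M p P0)
    (hL : ∀ z ∈ M, ∃ (L : ℕ) (s : MvPolynomial σ ℤ), s ∉ M ∧
      s * z ^ L ∈ Ideal.span {f} ⊔ Ideal.span (Set.range fun i => pderiv i f))
    (hf : f ∈ M ^ 2) :
    ∃ L : ℕ, ∀ (X : σ → K0) (lam : K0), (∀ s, X s ∈ B0) → lam ∈ B0 →
      d0 t T X ∈ mp B0 (L + 1) → (∀ s, ds f t lam X s ∈ mp B0 (L + 1)) →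
      (∀ h : MvPolynomial σ ℤ, aeval X h ∈ mx B0 ↔ h ∈ M) → Star B0 D (wv f t T lam X) L := by
  have := bm_loc td h
  have hP2 := bm_p2 td h hp hpM pg
  have := hP2.noeth
  have hD := bm_der td h
  have hTB : T ∈ B0 := by
    have h1 := bm_poly h Polynomial.X
    rwa [Polynomial.aeval_X] at h1
  obtain ⟨L1, s1, hs1, hz1⟩ := hL _ hpM
  obtain ⟨L2, s2, hs2, hz2⟩ := hL _ pg.mem
  refine ⟨L1 + L2, ?_⟩
  intro X lam hX hlam h0 hds hM
  have hDw := der_wv td.DT hD hX hlam h0 hds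
  -- everything in `B0`
  set Y : σ → B0 := fun s => ⟨X s, hX s⟩ with hY
  have hYe : ∀ q : MvPolynomial σ ℤ, ((aeval Y q : B0) : K0) = aeval X q := fun q => st_aeval Y q
  have hwB : wv f t T lam X ∈ B0 := by
    rw [wv, ← hYe f, ← hYe t]
    exact B0.sub_mem (aeval Y f).2 (B0.mul_mem hlam (B0.sub_mem (aeval Y t).2 hTB))
  set W : B0 := ⟨wv f t T lam X, hwB⟩ with hW
  set W' : B0 := ⟨D (wv f t T lam X), hD _ hwB⟩ with hW'
  set l : B0 := ⟨lam, hlam⟩ with hl
  set T' : B0 := ⟨T, hTB⟩ with hT'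
  set m : Ideal B0 := IsLocalRing.maximalIdeal B0 with hm
  set N : ℕ := L1 + L2 with hN
  have e0 : aeval Y t - T' ∈ m ^ (N + 1) := by
    apply st_mp
    rw [AddSubgroupClass.coe_sub, hYe]
    exact h0
  have es : ∀ s, aeval Y (pderiv s f) - l * aeval Y (pderiv s t) ∈ m ^ (N + 1) := by
    intro s
    apply st_mp
    rw [AddSubgroupClass.coe_sub, Subring.coe_mul, hYe, hYe]
    exact hds s
  have eD : W' - l ∈ m ^ (N + 1) := by
    apply st_mp
    rw [AddSubgroupClass.coe_sub]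
    exact hDw
  have eW : W = aeval Y f - l * (aeval Y t - T') := by
    apply Subtype.ext
    rw [AddSubgroupClass.coe_sub, Subring.coe_mul, AddSubgroupClass.coe_sub, hYe, hYe]
    rfl
  set I : Ideal B0 := Ideal.span {W, W'} with hI
  have hWI : W ∈ I := Ideal.subset_span (Set.mem_insert _ _)
  have hW'I : W' ∈ I := Ideal.subset_span (Set.mem_insert_of_mem _ rfl)
  set J : Ideal B0 := I ⊔ m ^ (N + 1) with hJ
  have hlJ : l ∈ J := by
    have h1 : l = W' - (W' - l) := by ring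
    rw [h1]
    exact J.sub_mem (Ideal.mem_sup_left hW'I) (Ideal.mem_sup_right eD)
  have hfJ : aeval Y f ∈ J := by
    have h1 : aeval Y f = W + l * (aeval Y t - T') := by rw [eW]; ring
    rw [h1]
    exact J.add_mem (Ideal.mem_sup_left hWI) (J.mul_mem_right _ hlJ)
  have hsJ : ∀ s, aeval Y (pderiv s f) ∈ J := by
    intro s
    have h1 : aeval Y (pderiv s f) = (aeval Y (pderiv s f) - l * aeval Y (pderiv s t)) +
      l * aeval Y (pderiv s t) := by ring
    rw [h1]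
    exact J.add_mem (Ideal.mem_sup_right (es s)) (J.mul_mem_right _ hlJ)
  have hmap : ∀ q ∈ Ideal.span {f} ⊔ Ideal.span (Set.range fun i => pderiv i f),
      aeval Y q ∈ J := by
    have h1 : Ideal.span {f} ⊔ Ideal.span (Set.range fun i => pderiv i f) ≤
        J.comap (aeval Y : MvPolynomial σ ℤ →ₐ[ℤ] B0) := by
      rw [sup_le_iff, Ideal.span_le, Ideal.span_le]
      constructor
      · rintro _ rfl
        exact hfJ
      · rintro _ ⟨s, rfl⟩
        exact hsJ s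
    exact fun q hq => h1 hq
  have hunit : ∀ q : MvPolynomial σ ℤ, q ∉ M → IsUnit (aeval Y q) := by
    intro q hq
    rw [← hM, ← hYe, mem_mx_iff, IsLocalRing.mem_maximalIdeal, mem_nonunits_iff, not_not] at hq
    exact hq
  have hpow : ∀ (q : MvPolynomial σ ℤ) (z : MvPolynomial σ ℤ) (k : ℕ), q ∉ M →
      q * z ^ k ∈ Ideal.span {f} ⊔ Ideal.span (Set.range fun i => pderiv i f) →
      (aeval Y z) ^ k ∈ J := by
    intro q z k hq hz
    have h1 := hmap _ hz
    rw [map_mul, map_pow] at h1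
    exact (Ideal.unit_mul_mem_iff_mem J (hunit q hq)).1 h1
  have hpJ : ((p : ℕ) : B0) ^ L1 ∈ J := by
    have h1 := hpow s1 (C (p : ℤ)) L1 hs1 hz1
    have h2 : aeval Y (C (p : ℤ) : MvPolynomial σ ℤ) = ((p : ℕ) : B0) := by
      rw [aeval_C]
      simp
    rwa [h2] at h1
  set Q : B0 := Polynomial.aeval T' P0 with hQ
  have hQJ : Q ^ L2 ∈ J := by
    have h1 := hpow s2 (Polynomial.aeval t P0) L2 hs2 hz2
    have h2 : aeval Y (Polynomial.aeval t P0) = Polynomial.aeval (aeval Y t) P0 :=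
      (Polynomial.aeval_algHom_apply (aeval Y) t P0).symm
    rw [h2] at h1
    have h3 : Polynomial.aeval (aeval Y t) P0 - Q ∈ J := by
      have h4 : (Ideal.Quotient.mk (m ^ (N + 1))) (Polynomial.aeval (aeval Y t) P0) =
          (Ideal.Quotient.mk (m ^ (N + 1))) (Polynomial.aeval T' P0) := by
        have h5 : ∀ a : B0, (Ideal.Quotient.mk (m ^ (N + 1))) (Polynomial.aeval a P0) =
            Polynomial.aeval ((Ideal.Quotient.mk (m ^ (N + 1))) a) P0 := fun a =>
          (Polynomial.aeval_algHom_apply (Ideal.Quotient.mk (m ^ (N + 1))).toIntAlgHom a P0).symm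
        have h6 : (Ideal.Quotient.mk (m ^ (N + 1))) (aeval Y t) =
            (Ideal.Quotient.mk (m ^ (N + 1))) T' := Ideal.Quotient.eq.2 e0
        rw [h5, h5, h6]
      rw [Ideal.Quotient.eq] at h4
      exact Ideal.mem_sup_right h4
    have h4 : (Ideal.Quotient.mk J) (Q ^ L2) = 0 := by
      rw [map_pow]
      have h5 : (Ideal.Quotient.mk J) Q = (Ideal.Quotient.mk J) (Polynomial.aeval (aeval Y t) P0) :=
        ((Ideal.Quotient.eq).2 h3).symm
      rw [h5, ← map_pow]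
      exact Ideal.Quotient.eq_zero_iff_mem.2 h1
    exact Ideal.Quotient.eq_zero_iff_mem.1 h4
  have hmle : m ≤ Ideal.span {((p : ℕ) : B0)} ⊔ Ideal.span {Q} := by
    intro x hx
    obtain ⟨a, ha, b, hb, h1⟩ := hP2.gen (x : K0) ((mem_mx_iff x).2 hx)
    have h2 : x = (⟨a, ha⟩ : B0) * ((p : ℕ) : B0) + (⟨b, hb⟩ : B0) * Q := by
      apply Subtype.ext
      rw [Subring.coe_add, Subring.coe_mul, Subring.coe_mul, hQ, st_pad]
      rw [h1]
      simp [hT']
    rw [h2]
    exact Ideal.add_mem _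
      (Ideal.mem_sup_left (Ideal.mul_mem_left _ _ (Ideal.mem_span_singleton_self _)))
      (Ideal.mem_sup_right (Ideal.mul_mem_left _ _ (Ideal.mem_span_singleton_self _)))
  have hmN : m ^ N ≤ J := by
    calc m ^ N ≤ (Ideal.span {((p : ℕ) : B0)} ⊔ Ideal.span {Q}) ^ (L1 + L2) :=
          Ideal.pow_right_mono hmle _
      _ ≤ Ideal.span {((p : ℕ) : B0)} ^ L1 ⊔ Ideal.span {Q} ^ L2 :=
          Ideal.sup_pow_add_le_pow_sup_pow
      _ ≤ J := by
        rw [Ideal.span_singleton_pow, Ideal.span_singleton_pow, sup_le_iff, Ideal.span_le,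
          Ideal.span_le, Set.singleton_subset_iff, Set.singleton_subset_iff]
        exact ⟨hpJ, hQJ⟩
  have hmI : m ^ N ≤ I := by
    refine Submodule.le_of_le_smul_of_le_jacobson_bot (I := m) (IsNoetherian.noetherian _)
      (IsLocalRing.maximalIdeal_le_jacobson _) ?_
    rw [smul_eq_mul, ← pow_succ']
    exact hmN
  intro x hx
  have h1 : ∏ i, (⟨x i, (hx i).1⟩ : B0) ∈ m ^ N := by
    have h2 : ∏ i : Fin N, (⟨x i, (hx i).1⟩ : B0) ∈ ∏ _i : Fin N, m :=
      Ideal.prod_mem_prod fun i _ => (mem_mx_iff _).1 (hx i)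
    rwa [Finset.prod_const, Finset.card_univ, Fintype.card_fin] at h2
  obtain ⟨α, β, h2⟩ := Ideal.mem_span_pair.1 (hmI h1)
  refine ⟨(α : K0), α.2, (β : K0), β.2, ?_⟩
  have h4 : ((∏ i, (⟨x i, (hx i).1⟩ : B0) : B0) : K0) = ∏ i, x i :=
    map_prod B0.subtype (fun i => (⟨x i, (hx i).1⟩ : B0)) Finset.univ
  rw [← h4, ← h2]
  rfl

end Pool.Agent.EvM
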