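import Pool.Agent.EvM.EmNode
import Pool.Agent.EvM.EmGTc
import Pool.Agent.EvM.EmBMd
import Pool.Agent.EvM.EmCrit
import Pool.Agent.EvM.EmStar
import Pool.Agent.EvM.EmKap
import Pool.Agent.EvM.EmSg0
import Pool.Agent.NT9.GeHtC

set_option autoImplicit false

/-! # Resolution of the points of corank one -/

namespace Pool.Agent.EvM

open MvPolynomial Pool.Agent.NT9

private theorem fin_sq {σ : Type} {K0 : Type} [Field K0] {B0 : Subring K0} [IsLocalRing B0]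
    {M : Ideal (MvPolynomial σ ℤ)} {X : σ → K0}
    (hM : ∀ h : MvPolynomial σ ℤ, aeval X h ∈ mx B0 ↔ h ∈ M) {f : MvPolynomial σ ℤ}
    (hf : f ∈ M ^ 2) : aeval X f ∈ mp B0 2 := by
  rw [pow_two] at hf
  refine Submodule.mul_induction_on hf (fun a ha b hb => ?_) (fun a b ha hb => ?_)
  · rw [map_mul]
    exact mp_mul (m := 1) (n := 1) (mp_one_iff.2 ((hM a).2 ha)) (mp_one_iff.2 ((hM b).2 hb))
  · rw [map_add]
    exact (mp B0 2).add_mem ha hb

theorem crk_res_of {σ : Type} [Fintype σ] [DecidableEq σ] {K : Type} [Field K] [CharZero K]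
    {f : MvPolynomial σ ℤ} {θ : MvPolynomial σ ℤ →+* K} (hσ : 2 ≤ Fintype.card σ)
    (hker : RingHom.ker θ = Ideal.span {f})
    {M : Ideal (MvPolynomial σ ℤ)} [M.IsMaximal] {p : ℕ} (hp : p.Prime)
    (hpM : (C (p : ℤ) : MvPolynomial σ ℤ) ∈ M)
    (hL : ∀ z ∈ M, ∃ (L : ℕ) (s : MvPolynomial σ ℤ), s ∉ M ∧
      s * z ^ L ∈ Ideal.span {f} ⊔ Ideal.span (Set.range fun i => pderiv i f))
    (hf : f ∈ M ^ 2) (hcrk : Crk f M)
    {O : Subring K} [IsLocalRing O] (hO : ∀ h, h ∈ M ↔ θ h ∈ mx O) (hfr : IsFr θ.range O) :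
    Res O := by
  obtain ⟨c, hc, hcr⟩ := hcrk
  obtain ⟨t, gt⟩ := exists_t hker hσ hp hpM c
  obtain ⟨K0, iK0, T, D, td, hj⟩ := exists_K0
  obtain ⟨j, hjT⟩ := hj K (θ t) (fun g hg => gt.tr g (by
    have h1 : Polynomial.aeval (θ.toIntAlgHom t) g = θ.toIntAlgHom (Polynomial.aeval t g) :=
      Polynomial.aeval_algHom_apply θ.toIntAlgHom t g
    exact h1.symm.trans hg))
  obtain ⟨B0, hB0⟩ := bm_exists (M := M) td t
  obtain ⟨P0, pg⟩ := exists_P0 hp hpM t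
  have hloc : IsLocalRing B0 := bm_loc td hB0
  have hD : ∀ b ∈ B0, D b ∈ B0 := bm_der td hB0
  have hP2 := bm_p2 td hB0 hp hpM pg
  have hfin : FinRes B0 := bm_fin td hB0 hp hpM
  obtain ⟨L, hstar⟩ := exists_star (f := f) td hB0 hp hpM pg hL hf
  obtain ⟨κ, hkap⟩ := exists_kap hP2 hfin hD L
  obtain ⟨X, lam, Pm, qv, r, cd, h0, hs, hlam, hM⟩ :=
    exists_crit (f := f) (θ := θ) td hB0 gt.sur gt.dt hc hcr hf hker hjT
      (N := L + κ ^ L + 3) (by omega)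
  have hst : Star B0 D (wv f t T lam X) L :=
    hstar X lam cd.XB cd.lamB (mp_anti (by omega) h0) (fun s => mp_anti (by omega) (hs s)) hM
  have hd0m : d0 t T X ∈ mp B0 2 := mp_anti (by omega) h0
  have hw2 : wv f t T lam X ∈ mp B0 2 :=
    (mp B0 2).sub_mem (fin_sq hM hf) (mp_smul cd.lamB hd0m)
  have hwB : wv f t T lam X ∈ B0 := mp_mem hw2
  obtain ⟨hkap1, hkap2, hkap3⟩ := hkap _ hwB hst
  have ctx : Ctx B0 θ j f t T X lam Pm qv r D p (Polynomial.aeval T P0) L κ (κ ^ L) := by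
    refine ⟨cd, hP2, hst, hkap1, ?_, h0, hs, hkap3⟩
    calc κ ^ L < 2 ^ (κ ^ L) := Nat.lt_two_pow_self
      _ ≤ 2 ^ (κ ^ L + 1) := Nat.pow_le_pow_right (by norm_num) (Nat.le_succ _)
  have hnd := nd_zero hP2 hfin hD hwB hkap2
  have hsg : Sg θ j X B0 1 O :=
    sg_zero td hB0 gt.sur hjT cd.XB (mp_one_iff.1 (mp_anti (by omega) h0)) hM hO hfr
  refine node_res ctx (κ ^ L + 1) 0 B0 1 1 p (Polynomial.aeval T P0) O (by omega) hnd inferInstance
    hsg ?_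
  rw [one_pow, div_one]
  exact hw2

theorem crk_res {σ : Type} [Fintype σ] [DecidableEq σ] {K : Type} [Field K] [CharZero K]
    {f : MvPolynomial σ ℤ} {θ : MvPolynomial σ ℤ →+* K} (hσ : 2 ≤ Fintype.card σ)
    (hker : RingHom.ker θ = Ideal.span {f})
    (hN : ∃ N : ℤ, N ≠ 0 ∧ (C N : MvPolynomial σ ℤ) ∈
      Ideal.span {f} ⊔ Ideal.span (Set.range fun i => pderiv i f)) (hiso : Iso f)
    {M : Ideal (MvPolynomial σ ℤ)} [M.IsMaximal] {p : ℕ} (hp : p.Prime)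
    (hpM : (C (p : ℤ) : MvPolynomial σ ℤ) ∈ M) (hf : f ∈ M ^ 2) (hcrk : Crk f M)
    {O : Subring K} [IsLocalRing O] (hO : ∀ h, h ∈ M ↔ θ h ∈ mx O) (hfr : IsFr θ.range O) :
    Res O := by
  have hfM : f ∈ M := Ideal.pow_le_self two_ne_zero hf
  have hdM : ∀ i, pderiv i f ∈ M := by
    intro i
    rw [pow_two] at hf
    refine Submodule.mul_induction_on hf (fun a ha b hb => ?_) (fun a b ha hb => ?_)
    · rw [Derivation.leibniz, smul_eq_mul, smul_eq_mul]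
      exact M.add_mem (M.mul_mem_right _ ha) (M.mul_mem_right _ hb)
    · rw [map_add]
      exact M.add_mem ha hb
  exact crk_res_of hσ hker hp hpM (fun z hz => exists_L hN hiso hfM hdM hz) hf hcrk hO hfr

end Pool.Agent.EvM
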