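import Pool.Agent.EvM.ExLin
import Pool.Agent.NT9.TlC

set_option autoImplicit false

/-! # ExTz: the conditions at a point with a Hessian of corank at most one -/

namespace Pool.Agent.EvM

open MvPolynomial Pool.Agent.NH Pool.Agent.NT9

/-- The local form of `NT9.nodal_tz` (same proof: it only uses `(hess f).det ∉ M`). -/
theorem tz_of_hess {σ : Type} [Fintype σ] [DecidableEq σ] {p : ℕ} (hp : p.Prime)
    (f : MvPolynomial σ ℤ) (M : Ideal (MvPolynomial σ ℤ)) [hM : M.IsMaximal]
    (hpM : C (p : ℤ) ∈ M) (hf2 : f ∈ M ^ 2) (hH : (hess f).det ∉ M) : TZ f M := by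
  classical
  have hMp : M.IsPrime := hM.isPrime
  have hd : ∀ i, pderiv i f ∈ M := fun i =>
    Pool.Agent.QuadModel.derivation_mem (pderiv i) M hf2
  set η : σ → MvPolynomial σ ℤ :=
    fun i => pderiv i f with hη
  -- parameters
  have hpar : Par M (C (p : ℤ)) η := by
    refine ⟨hpM, hd, fun x hx => ?_⟩
    obtain ⟨D, hD, hDx⟩ := node_memG f hp M hpM hd hH x hx
    obtain ⟨e, he⟩ := Ideal.Quotient.exists_inv (I := M) (a := Ideal.Quotient.mk M D) (by
      rwa [Ne, Ideal.Quotient.eq_zero_iff_mem])
    obtain ⟨e, rfl⟩ := Ideal.Quotient.mk_surjective e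
    have h1 : D * e - 1 ∈ M := by
      rw [← Ideal.Quotient.eq_zero_iff_mem, map_sub, map_mul, he, map_one, sub_self]
    have h2 : x = e * (D * x) - (D * e - 1) * x := by ring
    rw [h2]
    refine Ideal.sub_mem _ (Ideal.mem_sup_left (Ideal.mul_mem_left _ _ ?_)) (Ideal.mem_sup_right ?_)
    · rw [← Ideal.span_union] at hDx
      exact hDx
    · rw [pow_two]
      exact Ideal.mul_mem_mul h1 hx
  set z : MvPolynomial σ ℤ := C (p : ℤ) with hz
  -- the quadratic form
  obtain ⟨a, ha⟩ : ∃ a : σ → σ →
      MvPolynomial σ ℤ,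
      f - ∑ i, ∑ j, a i j * η i * η j ∈ Ideal.span {z} * M ⊔ M ^ 3 := by
    set S := Ideal.span (insert z (Set.range η)) with hS
    have hSM : S ≤ M := by
      rw [hS, Ideal.span_le]
      rintro _ (rfl | ⟨i, rfl⟩)
      · exact hpM
      · exact hd i
    have h1 : M ^ 2 ≤ (Ideal.span {z} * M ⊔ M ^ 3) ⊔
        Ideal.span (Set.range η) * Ideal.span (Set.range η) := by
      have hM2 : M ≤ S ⊔ M ^ 2 := hpar.2.2
      have hSe : S = Ideal.span {z} ⊔ Ideal.span (Set.range η) := by
        rw [hS, Ideal.span_insert]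
      have hηM : Ideal.span (Set.range η) ≤ M := by
        rw [Ideal.span_le]
        rintro _ ⟨i, rfl⟩
        exact hd i
      have h3 : M ^ 3 = M * M ^ 2 := by ring
      calc M ^ 2 = M * M := pow_two M
        _ ≤ (S ⊔ M ^ 2) * M := Ideal.mul_mono_left hM2
        _ = S * M ⊔ M ^ 2 * M := Ideal.sup_mul _ _ _
        _ ≤ S * (S ⊔ M ^ 2) ⊔ M ^ 3 := by
          refine sup_le_sup (Ideal.mul_mono_right hM2) ?_
          rw [← pow_succ]
        _ = S * S ⊔ S * M ^ 2 ⊔ M ^ 3 := by rw [Ideal.mul_sup]
        _ ≤ _ := by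
          refine sup_le (sup_le ?_ ?_) ?_
          · calc S * S ≤ (Ideal.span {z} ⊔ Ideal.span (Set.range η)) * S := by rw [← hSe]
              _ = Ideal.span {z} * S ⊔ Ideal.span (Set.range η) * S := Ideal.sup_mul _ _ _
              _ ≤ _ := by
                refine sup_le ?_ ?_
                · exact (Ideal.mul_mono_right hSM).trans (le_sup_left.trans le_sup_left)
                · rw [hSe, Ideal.mul_sup]
                  refine sup_le ?_ le_sup_right
                  rw [Ideal.mul_comm]
                  exact (Ideal.mul_mono_right hηM).trans (le_sup_left.trans le_sup_left)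
          · refine le_trans ?_ (le_sup_right.trans le_sup_left)
            rw [h3]
            exact Ideal.mul_mono_left hSM
          · exact le_sup_right.trans le_sup_left
    obtain ⟨x, hx, y, hy, hxy⟩ := Submodule.mem_sup.1 (h1 hf2)
    rw [Ideal.span_mul_span'] at hy
    have hy' : y ∈ Ideal.span (Set.range fun q : σ ×
        σ => η q.1 * η q.2) := by
      refine Ideal.span_mono ?_ hy
      rintro _ ⟨_, ⟨i, rfl⟩, _, ⟨j, rfl⟩, rfl⟩
      exact ⟨(i, j), rfl⟩
    obtain ⟨c, hc⟩ := (Ideal.mem_span_range_iff_exists_fun).1 hy'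
    refine ⟨fun i j => c (i, j), ?_⟩
    have h2 : ∑ i, ∑ j, c (i, j) * η i * η j = y := by
      rw [← hc, Fintype.sum_prod_type]
      exact Finset.sum_congr rfl fun i _ => Finset.sum_congr rfl fun j _ => by ring
    rw [h2, ← hxy, add_sub_cancel_right]
    exact hx
  -- the Gram matrix is inverse to the Hessian
  have hinv : ∀ l i, (if l = i then 1 else 0) - ∑ j, hess f l j * (a i j + a j i) ∈ M := by
    intro l
    have h1 : pderiv l (f - ∑ i, ∑ j, a i j * η i * η j) ∈ Ideal.span {z} ⊔ M ^ 2 := by
      obtain ⟨x, hx, y, hy, hxy⟩ := Submodule.mem_sup.1 ha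
      rw [← hxy, map_add]
      refine Ideal.add_mem _ (Ideal.mem_sup_left ?_) (Ideal.mem_sup_right ?_)
      · obtain ⟨g, -, rfl⟩ := Ideal.mem_span_singleton_mul.1 hx
        rw [hz, pderiv_C_mul]
        exact Ideal.mul_mem_right _ _ (Ideal.mem_span_singleton_self _)
      · have h3 : M ^ 3 = M ^ 2 * M := by ring
        rw [h3] at hy
        refine Submodule.mul_induction_on hy ?_ ?_
        · intro u hu v hv
          rw [Derivation.leibniz, smul_eq_mul, smul_eq_mul]
          refine Ideal.add_mem _ (Ideal.mul_mem_right _ _ hu) ?_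
          rw [pow_two]
          exact Ideal.mul_mem_mul hv (Pool.Agent.QuadModel.derivation_mem (pderiv l) M hu)
        · intro u v hu hv
          rw [map_add]
          exact Ideal.add_mem _ hu hv
    have h2 : pderiv l (f - ∑ i, ∑ j, a i j * η i * η j) =
        ∑ i, ((if l = i then 1 else 0) - ∑ j, hess f l j * (a i j + a j i)) * η i -
          ∑ i, ∑ j, pderiv l (a i j) * η i * η j := by
      have e1 : ∀ i j, pderiv l (a i j * η i * η j) =
          pderiv l (a i j) * η i * η j + (hess f l i * a i j) * η j +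
            (hess f l j * a i j) * η i := by
        intro i j
        rw [Derivation.leibniz, Derivation.leibniz]
        simp only [smul_eq_mul, hess, Matrix.of_apply, hη]
        ring
      rw [map_sub, map_sum]
      simp only [map_sum, e1, Finset.sum_add_distrib]
      have e2 : pderiv l f = ∑ i, (if l = i then (1 : MvPolynomial _ ℤ) else 0) * η i := by
        simp [hη]
      have e3 : ∑ i, ∑ j, hess f l i * a i j * η j = ∑ i, ∑ j, hess f l j * a j i * η i :=
        Finset.sum_comm
      rw [e2, e3]
      simp only [sub_mul, Finset.sum_mul, mul_add, add_mul, Finset.sum_add_distrib,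
        Finset.sum_sub_distrib]
      ring
    have h3 : ∑ i, ∑ j, pderiv l (a i j) * η i * η j ∈ M ^ 2 := by
      refine Ideal.sum_mem _ fun i _ => Ideal.sum_mem _ fun j _ => ?_
      rw [mul_assoc]
      refine Ideal.mul_mem_left _ _ ?_
      rw [pow_two]
      exact Ideal.mul_mem_mul (hd i) (hd j)
    rw [h2] at h1
    have h4 : ∑ i, ((if l = i then 1 else 0) - ∑ j, hess f l j * (a i j + a j i)) * η i ∈
        Ideal.span {z} ⊔ M ^ 2 := by
      have := Ideal.add_mem _ h1 (Ideal.mem_sup_right h3)
      rwa [sub_add_cancel] at this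
    obtain ⟨x, hx, y, hy, hxy⟩ := Submodule.mem_sup.1 h4
    obtain ⟨g, rfl⟩ := Ideal.mem_span_singleton'.1 hx
    have h5 : -g * C (p : ℤ) +
        ∑ i, ((if l = i then 1 else 0) - ∑ j, hess f l j * (a i j + a j i)) * pderiv i f ∈
          M ^ 2 := by
      have : -g * C (p : ℤ) +
        ∑ i, ((if l = i then 1 else 0) - ∑ j, hess f l j * (a i j + a j i)) * pderiv i f = y := by
        have h6 : ∑ i, ((if l = i then 1 else 0) - ∑ j, hess f l j * (a i j + a j i)) *
          pderiv i f = g * z + y := hxy.symm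
        rw [h6, hz]
        ring
      rw [this]
      exact hy
    exact (node_indep f hp M hpM hd hH _ _ h5).2
  refine ⟨z, η, a, hpar, ha, ?_⟩
  intro L _ χ hχ v _ hv
  funext l
  have h1 : ∀ i, (if l = i then (1 : L) else 0) = ∑ j, χ (hess f l j) * χ (a i j + a j i) := by
    intro i
    have h2 := hχ _ (hinv l i)
    rw [map_sub, map_sum, sub_eq_zero] at h2
    simp only [map_mul] at h2
    rw [← h2]
    split_ifs
    · rw [map_one]
    · rw [map_zero]
  calc v l = ∑ i, (if l = i then (1 : L) else 0) * v i := by simp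
    _ = ∑ i, ∑ j, χ (hess f l j) * (χ (a j i + a i j) * v i) := by
        refine Finset.sum_congr rfl fun i _ => ?_
        rw [h1, Finset.sum_mul]
        refine Finset.sum_congr rfl fun j _ => ?_
        rw [add_comm (a i j)]
        ring
    _ = ∑ j, χ (hess f l j) * ∑ i, χ (a j i + a i j) * v i := by
        rw [Finset.sum_comm]
        exact Finset.sum_congr rfl fun j _ => by rw [Finset.mul_sum]
    _ = 0 := by
        refine Finset.sum_eq_zero fun j _ => ?_
        rw [hv j, mul_zero]

/-- The second partial derivatives commute. -/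
private theorem crk_comm {σ : Type} (f : MvPolynomial σ ℤ) (i j : σ) :
    pderiv i (pderiv j f) = pderiv j (pderiv i f) := by
  classical
  induction f using MvPolynomial.induction_on' with
  | monomial u a =>
    rw [pderiv_monomial, pderiv_monomial, pderiv_monomial, pderiv_monomial]
    by_cases hij : i = j
    · subst hij
      rfl
    · have h1 : u - Finsupp.single j 1 - Finsupp.single i 1 =
          u - Finsupp.single i 1 - Finsupp.single j 1 := by
        rw [tsub_tsub, tsub_tsub, add_comm]
      have h2 : (u - Finsupp.single j 1 : σ →₀ ℕ) i = u i := by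
        rw [Finsupp.tsub_apply, Finsupp.single_apply, if_neg (Ne.symm hij), tsub_zero]
      have h3 : (u - Finsupp.single i 1 : σ →₀ ℕ) j = u j := by
        rw [Finsupp.tsub_apply, Finsupp.single_apply, if_neg hij, tsub_zero]
      rw [h1, h2, h3]
      congr 1
      ring
  | add p q hp hq => simp only [map_add, hp, hq]

/-- The diagonal of the Hessian is divisible by `2`. -/
private theorem crk_diag {σ : Type} (f : MvPolynomial σ ℤ) (i : σ) :
    (2 : MvPolynomial σ ℤ) ∣ pderiv i (pderiv i f) := by
  classical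
  induction f using MvPolynomial.induction_on' with
  | monomial u a =>
    rw [pderiv_monomial, pderiv_monomial]
    have h1 : (u - Finsupp.single i 1 : σ →₀ ℕ) i = u i - 1 := by
      rw [Finsupp.tsub_apply, Finsupp.single_eq_same]
    rw [h1]
    have h2 : (2 : ℤ) ∣ a * (u i : ℤ) * ((u i - 1 : ℕ) : ℤ) := by
      have h3 : 2 ∣ u i * (u i - 1) := by
        rcases Nat.eq_zero_or_pos (u i) with h | h
        · rw [h, zero_mul]
          exact dvd_zero 2
        · obtain ⟨m, hm⟩ : ∃ m, u i = m + 1 := ⟨u i - 1, by omega⟩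
          rw [hm, Nat.add_sub_cancel, mul_comm]
          exact (Nat.even_mul_succ_self m).two_dvd
      have h4 : (2 : ℤ) ∣ (u i : ℤ) * ((u i - 1 : ℕ) : ℤ) := by exact_mod_cast h3
      rw [mul_assoc]
      exact dvd_mul_of_dvd_right h4 a
    obtain ⟨b, hb⟩ := h2
    refine ⟨monomial (u - Finsupp.single i 1 - Finsupp.single i 1) b, ?_⟩
    rw [hb]
    have h5 : (2 : MvPolynomial σ ℤ) = C (2 : ℤ) := by simp
    rw [h5, C_mul_monomial]
  | add p q hp hq =>
    rw [map_add, map_add]
    exact dvd_add hp hq

/-- Proof: let `H = (hess f).map χ` (over `L = Z[x] / M`), symmetric. If `p ≠ 2`: `exists_border` gives `c` over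
`L`; lift it to `Z[x]`: `Crk`. If `p = 2`: the diagonal of the Hessian is `0` modulo `2` (`pderiv i (pderiv i f)`
is divisible by `2`), so for `card σ` odd `det H = 0` (`det_alt_odd`) and `exists_border` applies, and for
`card σ` even `det H ≠ 0` (`alt_rank_even`) and `tz_of_hess` applies. -/
theorem chart_crk {σ : Type} [Fintype σ] [DecidableEq σ] [Nonempty σ] {p : ℕ} (hp : p.Prime)
    (f : MvPolynomial σ ℤ) (M : Ideal (MvPolynomial σ ℤ)) [hM : M.IsMaximal]
    (hpM : C (p : ℤ) ∈ M) (hf2 : f ∈ M ^ 2) (L : Type) [Field L]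
    (χ : MvPolynomial σ ℤ →+* L) (hχ : ∀ h, χ h = 0 ↔ h ∈ M) (hs : Function.Surjective χ)
    (hr : Fintype.card σ - 1 ≤ ((hess f).map χ).rank) : TZ f M ∨ Crk f M := by
  set H := (hess f).map χ with hH
  have happ : ∀ i j, H i j = χ (pderiv i (pderiv j f)) := fun i j => rfl
  have hsym : H.IsSymm := by
    refine Matrix.IsSymm.ext fun i j => ?_
    rw [happ, happ, crk_comm]
  -- the lift
  have hlift : ((2 : L) ≠ 0 ∨ H.det = 0) → Crk f M := by
    intro h
    obtain ⟨c, ⟨i, hi⟩, hc⟩ := exists_border H hsym hr h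
    choose c' hc' using fun s => hs (c s)
    refine ⟨c', ⟨i, fun hcon => hi ?_⟩, fun v ρ h1 h2 s => ?_⟩
    · rw [← hc']
      exact (hχ _).2 hcon
    · have h3 := hc (fun s => χ (v s)) (χ ρ) (fun s => by
        have h4 := (hχ _).2 (h1 s)
        rw [map_sub, map_sum, map_mul, hc', sub_eq_zero] at h4
        rw [← h4]
        refine Finset.sum_congr rfl fun s' _ => ?_
        rw [map_mul, happ]) (by
        have h4 := (hχ _).2 h2
        rw [map_sum] at h4
        rw [← h4]
        refine Finset.sum_congr rfl fun s' _ => ?_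
        rw [map_mul, hc'])
      exact (hχ _).1 (congrFun h3 s)
  by_cases h2 : (2 : L) = 0
  swap
  · exact Or.inr (hlift (Or.inl h2))
  have hdiag : ∀ i, H i i = 0 := by
    intro i
    obtain ⟨g, hg⟩ := crk_diag f i
    rw [happ, hg, map_mul]
    have h5 : χ (2 : MvPolynomial σ ℤ) = (2 : L) := map_ofNat χ 2
    rw [h5, h2, zero_mul]
  rcases Nat.even_or_odd (Fintype.card σ) with he | ho
  · left
    have hdet := alt_rank_even H hsym hdiag h2 he hr
    refine tz_of_hess hp f M hpM hf2 fun hcon => hdet ?_
    have h6 : H.det = χ ((hess f).det) := by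
      rw [RingHom.map_det]
      rfl
    rw [h6]
    exact (hχ _).2 hcon
  · exact Or.inr (hlift (Or.inr (det_alt_odd H hsym hdiag h2 ho)))

end Pool.Agent.EvM
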