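import Pool.Agent.EvM.Stmt
import Pool.Agent.EvM.EmDefs
import Pool.Agent.NT9.GeMainD
import Pool.Agent.NodHyp.FDefs

set_option autoImplicit false

/-!
# EVERY MEMBER, part Ex: definitions

`x_0, ..., x_n` homogeneous coordinates; the family of `F` is `F + a X_0 ^ d + b X_0 ^ (d - 1) X_1`.
-/

namespace Pool.Agent.EvM

open MvPolynomial Pool.Agent.NH Pool.Agent.NT9

/-- `F = 0` has no singular point in characteristic `p` on the hyperplane `x_0 = 0`. -/
def NoInf {n : ℕ} (F : MvPolynomial (Fin (n + 1)) ℤ) (p : ℕ) : Prop :=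
  ∀ (L : Type) [Field L] [CharP L p] (x : Fin (n + 1) → L), x 0 = 0 → aeval x F = 0 →
    (∀ i, aeval x (pderiv i F) = 0) → x = 0

/-- At the points with `x_0 = 1` at which the partial derivatives of `F` with respect to
`x_2, ..., x_n` vanish, the Hessian matrix has corank at most `1`. -/
def Mild0 {n : ℕ} (F : MvPolynomial (Fin (n + 1)) ℤ) (p : ℕ) : Prop :=
  ∀ (L : Type) [Field L] [CharP L p] (x : Fin (n + 1) → L), x 0 = 1 →
    (∀ i, i ≠ 0 → i ≠ 1 → aeval x (pderiv i F) = 0) → n - 1 ≤ (hessAt 0 F x).rank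

/-- The condition of the sieve: it does not change in the family of `F`. -/
def Good {n : ℕ} (F : MvPolynomial (Fin (n + 1)) ℤ) (p : ℕ) : Prop := NoInf F p ∧ Mild0 F p

/-- The members of the family of `F`. -/
noncomputable def fam {n : ℕ} (d : ℕ) (F : MvPolynomial (Fin (n + 1)) ℤ) (a b : ℤ) :
    MvPolynomial (Fin (n + 1)) ℤ :=
  F + C a * X 0 ^ d + C b * (X 0 ^ (d - 1) * X 1)

/-- The hypotheses of the resolution theorem on `F`. -/
def GoodC {n : ℕ} (F : MvPolynomial (Fin (n + 1)) ℤ) : Prop :=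
  ∀ m : Fin (n + 1), Iso (deh m F) ∧
    ∀ M : Ideal (MvPolynomial {i : Fin (n + 1) // i ≠ m} ℤ), M.IsMaximal →
      (∀ i : {i : Fin (n + 1) // i ≠ m}, i.1 < m → X i ∈ M) →
      deh m F ∈ M ^ 2 → Tan (deh m F) M ∨ Crk (deh m F) M

end Pool.Agent.EvM
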