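import Pool.Agent.EvM.EbRes
import Pool.Agent.EvM.ExDefs
import Pool.Agent.NT9.GeMainB

set_option autoImplicit false

/-! # EbMain: the resolution theorem, from the resolution of the points of corank one -/

open AlgebraicGeometry CategoryTheory

namespace Pool.Agent.EvM

open MvPolynomial Pool.Agent.NT9 Pool.MP_602153_ag

/-- The resolution of the points of corank one (proved in the files `Em`). -/
def CrkRes : Prop :=
  ∀ (σ : Type) [Fintype σ] [DecidableEq σ] (K : Type) [Field K] [CharZero K]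
    (f : MvPolynomial σ ℤ) (θ : MvPolynomial σ ℤ →+* K), 2 ≤ Fintype.card σ →
    RingHom.ker θ = Ideal.span {f} →
    (∃ N : ℤ, N ≠ 0 ∧ (C N : MvPolynomial σ ℤ) ∈
      Ideal.span {f} ⊔ Ideal.span (Set.range fun i => pderiv i f)) → Iso f →
    ∀ (M : Ideal (MvPolynomial σ ℤ)) [M.IsMaximal] (p : ℕ), p.Prime →
      (C (p : ℤ) : MvPolynomial σ ℤ) ∈ M → f ∈ M ^ 2 → Crk f M →
      ∀ (O : Subring K) [IsLocalRing O], (∀ h, h ∈ M ↔ θ h ∈ mx O) → IsFr θ.range O → Res O

/-- The resolution of the model of `F`: as `NT9.resolution`. -/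
theorem resolutionC (hcr : CrkRes) {n d : ℕ} (hn : 2 ≤ n) {K : Type} [Field K] [CharZero K]
    {F : MvPolynomial (Fin (n + 1)) ℤ}
    (hF : F.IsHomogeneous d) (hN : ∃ N : ℤ, N ≠ 0 ∧ ∀ m : Fin (n + 1),
      (C N : MvPolynomial {i // i ≠ m} ℤ) ∈ Ideal.span {NH.deh m F} ⊔
        Ideal.span (Set.range fun i => pderiv i (NH.deh m F)))
    (hgood : GoodC F) (x : Fin (n + 1) → K) (hx : ∀ i, x i ≠ 0)
    (hker : ∀ h : MvPolynomial (Fin (n + 1)) ℤ, aeval x h = 0 ↔ F ∣ h) :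
    ∃ (Mo' : Submodule ℤ K) (E : ℕ), Mo'.FG ∧ 0 < E ∧ Com Mo' (Mo0 x ^ E) ∧
      ∀ O' ∈ Loc Mo', IsRegularLocalRing O' := by
  classical
  obtain ⟨N, hN0, hN⟩ := hN
  have hkerm : ∀ m, RingHom.ker (thm x m) = Ideal.span {NH.deh m F} := by
    intro m
    have h1 := NH.ker_deh (m := m) x (hx m) hF hker
    rw [← h1]
    rfl
  have hfg : (Mo0 x).FG := Submodule.fg_span (Set.finite_range _)
  refine resolve_all hfg ?_ ?_
  · refine Set.Finite.subset (Set.finite_iUnion fun m : Fin (n + 1) =>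
      finite_nonreg (hkerm m) ⟨N, hN0, hN m⟩ (hgood m).1) ?_
    rintro O ⟨hO, hnr⟩
    obtain ⟨m, hm, -⟩ := base_loc x hx hO
    exact Set.mem_iUnion.2 ⟨m, hO.1, hm, hnr⟩
  · intro O hO hnr Mo1 hfg1 hO1
    have hloc : IsLocalRing O := hO.1
    obtain ⟨m, hm, hlt⟩ := base_loc x hx hO
    obtain ⟨q, p, hq, hqO, hp, hpq, hf2, hd⟩ :=
      nonreg_point (hkerm m) ⟨N, hN0, hN m⟩ (hgood m).1 hm hnr
    have hT : Tan (NH.deh m F) q ∨ Crk (NH.deh m F) q := by
      refine (hgood m).2 q hq ?_ hf2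
      intro i hi
      rw [hqO]
      have h1 : thm x m (X i) = x i.1 / x m := by
        change aeval _ (X i) = _
        rw [aeval_X]
      rw [h1]
      exact hlt i.1 hi
    rcases hT with hT | hT
    · obtain ⟨z, η, hS, hB⟩ := init_stage (hkerm m) hp hpq hf2 hT (fun h hh => (hqO h).1 hh) hm
      rcases hB with hB | hV
      · obtain ⟨L, s, hs, hL⟩ := exists_L ⟨N, hN0, hN m⟩ (hgood m).1
          (Ideal.pow_le_self (by norm_num) hf2) hd hS.par.1
        exact resolve (hkerm m) hp hpq hs hL L 0 η O Mo1 (by omega) hfg1 hO1 hS hB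
      · obtain ⟨Mo2, E, hfg2, hE, hcom, hpts⟩ := exists_blow hfg1 hO1 (hS.finRes hp hpq)
        refine ⟨Mo2, E, hfg2, hE, hcom, fun O' hO' => ?_⟩
        have hloc' : IsLocalRing O' := hO'.1
        rcases hpts O' hO' with h2 | h2
        · exact Or.inr h2
        · exact Or.inl (point_v (hkerm m) hp hpq hS hV h2)
    · refine hcr {i // i ≠ m} K (NH.deh m F) (thm x m) ?_ (hkerm m) ⟨N, hN0, hN m⟩ (hgood m).1 q p
        hp hpq hf2 hT O hqO hm Mo1 hfg1 hO1
      have h2 : Fintype.card {i : Fin (n + 1) // i ≠ m} = n := by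
        simp [Fintype.card_subtype_compl]
      rw [h2]
      exact hn

/-- Smooth hypersurfaces with `GoodC` have regular models: as `NT9.good_hasModel`. -/
theorem goodC_hasModel (hcr : CrkRes) {n d : ℕ} (hn : 2 ≤ n) (hd : 2 ≤ d)
    {F : MvPolynomial (Fin (n + 1)) ℤ} (hF : F.IsHomogeneous d) (hsm : NH.SmoothQ F)
    (hgood : GoodC F)
    (B : Type) [CommRing B] [Algebra ℚ B] (ℬ : ℕ → Submodule ℚ B) [GradedAlgebra ℬ]
    (y : Fin (n + 1) → B) (hy : ∀ i, y i ∈ ℬ 1)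
    (hsurj : Function.Surjective (aeval y : MvPolynomial (Fin (n + 1)) ℚ →ₐ[ℚ] B))
    (hker : RingHom.ker (aeval y : MvPolynomial (Fin (n + 1)) ℚ →ₐ[ℚ] B) =
      Ideal.span {map (algebraMap ℤ ℚ) F})
    (Z : Scheme) (e : Nonempty (Z ≅ Proj ℬ)) : HasModel Z := by
  classical
  have hprime := NH.prime_of_smooth hn (by omega : 1 ≤ d) hF hsm
  have hdom : IsDomain B := NH.isDomain_of_prime hprime y hsurj hker
  have hprim : ∀ p : ℕ, p.Prime → ¬ C (p : ℤ) ∣ F := fun p hp =>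
    primitive_of_iso (by omega) (hgood 0).1 hp
  have hkz := NH.ker_int hprime hprim y hker
  have hF0 : F ≠ 0 := by
    rintro rfl
    exact hprime.ne_zero (map_zero _)
  obtain ⟨N, hN0, hN⟩ := NH.exists_N hF hsm
  have hy0 : ∀ i, y i ≠ 0 := by
    intro i hi
    have h2 : F ∣ (X i : MvPolynomial (Fin (n + 1)) ℤ) := by
      rw [← hkz, aeval_X, hi]
    obtain ⟨G, hG⟩ := h2
    have hG0 : G ≠ 0 := by
      rintro rfl
      rw [mul_zero] at hG
      exact X_ne_zero _ hG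
    have h3 := congrArg totalDegree hG
    rw [totalDegree_mul_of_isDomain hF0 hG0, totalDegree_X, hF.totalDegree hF0] at h3
    omega
  have hchar : CharZero B := algebraRat.charZero B
  have hcharK : CharZero (FractionRing B) :=
    charZero_of_injective_algebraMap (IsFractionRing.injective B (FractionRing B))
  have hinj : Function.Injective (algebraMap B (FractionRing B)) :=
    IsFractionRing.injective B (FractionRing B)
  have hx0 : ∀ i, algebraMap B (FractionRing B) (y i) ≠ 0 := by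
    intro i hi
    exact hy0 i (hinj (by rw [hi, map_zero]))
  obtain ⟨Mo', E, hfg, hE, hcom, hreg⟩ := resolutionC hcr hn (K := FractionRing B) hF
    ⟨N, hN0, hN⟩ hgood (fun i => algebraMap B (FractionRing B) (y i)) hx0
    (fun h => by
      rw [NH.LATD_map _, IsFractionRing.to_map_eq_zero_iff]
      exact hkz h)
  obtain ⟨hb1, hb2⟩ := com_base ℬ y hy hy0 hsurj E
  -- the lattice
  obtain ⟨Λ, hΛ, hGood⟩ := good_of_loc ℬ (hy0 0) (E := E) hfg
    (by
      intro x hx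
      obtain ⟨N1, hN1, h1⟩ := hcom.1 x hx
      obtain ⟨b, hb, h2⟩ := hb1 _ h1
      exact ⟨N1, hN1, b, hb, h2⟩)
    (by
      intro b hb
      obtain ⟨N1, hN1, h1⟩ := hb2 b hb
      obtain ⟨N2, hN2, h2⟩ := hcom.2 _ h1
      refine ⟨N2 * N1, mul_ne_zero hN2 hN1, ?_⟩
      rw [Int.cast_mul, mul_assoc]
      exact h2)
    hreg
  have hgen : Algebra.adjoin ℚ (ℬ 1 : Set B) = ⊤ := by
    rw [eq_top_iff, ← (AlgHom.range_eq_top _).2 hsurj, ← Algebra.adjoin_range_eq_range_aeval]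
    refine Algebra.adjoin_mono ?_
    rintro _ ⟨i, rfl⟩
    exact hy i
  have hne : ℬ E ≠ ⊥ := by
    intro h
    have h1 : y 0 ^ E ∈ ℬ E := by
      have h2 := SetLike.pow_mem_graded E (hy 0)
      rwa [smul_eq_mul, mul_one] at h2
    rw [h, Submodule.mem_bot] at h1
    exact hy0 0 (eq_zero_of_pow_eq_zero h1)
  exact NH.hasModel_of_good_ver ℬ hgen hE hne hΛ hGood Z e

theorem geoC_of (hcr : CrkRes) {n d : ℕ} (hn : 2 ≤ n) (hd : 2 ≤ d)
    {F : MvPolynomial (Fin (n + 1)) ℤ} (hF : F.IsHomogeneous d) (hsm : NH.SmoothQ F)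
    (hgood : GoodC F) : NH.HasRegularModel F := by
  intro B _ _ ℬ _ y hy hsurj hker X hX
  exact goodC_hasModel hcr hn hd hF hsm hgood B ℬ y hy hsurj hker X hX

end Pool.Agent.EvM
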