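import Pool.Agent.EvM.EmDefs
import Pool.Agent.NT9.GeCom

set_option autoImplicit false

/-! # EbRes: a finite set of resolvable points -/

namespace Pool.Agent.EvM

open Pool.Agent.NT9

variable {K : Type} [Field K]

/-- Resolution of a finite set of resolvable points. -/
theorem res_fin {S : Set (Subring K)} (hS : S.Finite) (hres : ∀ O ∈ S, Res O)
    {Mo : Submodule ℤ K} (hfg : Mo.FG) :
    ∃ (Mo' : Submodule ℤ K) (E : ℕ), Mo'.FG ∧ 0 < E ∧ Com Mo' (Mo ^ E) ∧
      ∀ O' ∈ Loc Mo', IsRegularLocalRing O' ∨ (O' ∈ Loc Mo ∧ O' ∉ S) := by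
  induction S, hS using Set.Finite.induction_on with
  | empty =>
    exact ⟨Mo, 1, hfg, one_pos, by rw [pow_one]; exact Com.refl Mo, fun O' hO' =>
      Or.inr ⟨hO', fun h => h⟩⟩
  | @insert a S _ _ ih =>
    obtain ⟨Mo', E, hfg', hE, hcom, h⟩ := ih fun O hO => hres O (Or.inr hO)
    by_cases ha : a ∈ Loc Mo'
    · obtain ⟨Mo'', E', hfg'', hE', hcom', h'⟩ := hres a (Or.inl rfl) Mo' hfg' ha
      refine ⟨Mo'', E * E', hfg'', Nat.mul_pos hE hE', Com.step hcom hcom', fun O' hO' => ?_⟩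
      rcases h' O' hO' with h1 | ⟨h1, h2⟩
      · exact Or.inl h1
      · rcases h O' h1 with h3 | ⟨h3, h4⟩
        · exact Or.inl h3
        · refine Or.inr ⟨h3, fun h5 => ?_⟩
          rcases h5 with h5 | h5
          · exact h2 h5
          · exact h4 h5
    · refine ⟨Mo', E, hfg', hE, hcom, fun O' hO' => ?_⟩
      rcases h O' hO' with h3 | ⟨h3, h4⟩
      · exact Or.inl h3
      · refine Or.inr ⟨h3, fun h5 => ?_⟩
        rcases h5 with h5 | h5
        · exact ha (h5 ▸ hO')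
        · exact h4 h5

end Pool.Agent.EvM
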