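import Pool.Agent.EvM.EkDefs

set_option autoImplicit false

/-! # EkA: formal properties of the sieve bound -/

namespace Pool.Agent.EvM

open MvPolynomial Pool.Agent.NH

/-- Monotonicity (for large prime numbers). Proof: take `max M₁ M₂`; `NH.card_mono`. -/
theorem sv_mono {V : Type} [Fintype V] {A B : (V → ℤ) → ℕ → Prop} (M₂ : ℕ)
    (h : ∀ p : ℕ, p.Prime → M₂ < p → ∀ c, A c p → B c p) (hB : Sv V B) : Sv V A := by
  obtain ⟨K, M₁, hK⟩ := hB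
  refine ⟨K, max M₁ M₂, fun M P hM h1 hP hp => ?_⟩
  obtain ⟨L₀, hL₀⟩ := hK M P ((le_max_left _ _).trans hM) h1 hP hp
  refine ⟨L₀, fun L hL c₀ hc₀ => le_trans (Nat.mul_le_mul_left _ ?_) (hL₀ L hL c₀ hc₀)⟩
  refine Nat.card_le_card_of_injective (Subtype.map id ?_)
    (Subtype.map_injective _ Function.injective_id)
  rintro x ⟨p, hpp, hlt, hA⟩
  exact ⟨p, hpp, hlt, h p hpp (lt_of_le_of_lt ((le_max_right _ _).trans hM) hlt) _ hA⟩

/-- Finite unions. Proof: sums of the constants `K`, `M₁`, `L₀`; `NH.card_exists_le` or as in `NH.tail`. -/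
theorem sv_exists {V : Type} [Fintype V] {ι : Type} [Finite ι] {A : ι → (V → ℤ) → ℕ → Prop}
    (h : ∀ i, Sv V (A i)) : Sv V (fun c p => ∃ i, A i c p) := by
  classical
  have : Fintype ι := Fintype.ofFinite ι
  choose K M₁ hK using h
  refine ⟨∑ i, K i, ∑ i, M₁ i, fun M P hM h1 hP hp => ?_⟩
  have hMi : ∀ i, M₁ i ≤ M := fun i =>
    (Finset.single_le_sum (f := M₁) (fun _ _ => Nat.zero_le _) (Finset.mem_univ i)).trans hM
  choose L₀ hL₀ using fun i => hK i M P (hMi i) h1 hP hp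
  refine ⟨∑ i, L₀ i, fun L hL c₀ hc₀ => ?_⟩
  have hLi : ∀ i, L₀ i ≤ L := fun i =>
    (Finset.single_le_sum (f := L₀) (fun _ _ => Nat.zero_le _) (Finset.mem_univ i)).trans hL
  set S : ι → Set (V → Fin L) := fun i => {x | ∃ p : ℕ, p.Prime ∧ M < p ∧
          A i (fun α => c₀ α + P * ((x α : ℕ) : ℤ)) p} with hS
  have hSi : ∀ i, M * (S i).ncard ≤ K i * (L ^ Fintype.card V + M * L ^ (Fintype.card V - 1)) :=
    fun i => hL₀ i L (hLi i) c₀ hc₀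
  set T : Set (V → Fin L) := {x | ∃ p : ℕ, p.Prime ∧ M < p ∧
          ∃ i, A i (fun α => c₀ α + P * ((x α : ℕ) : ℤ)) p} with hT
  have hsub : T ⊆ ⋃ i, S i := by
    rintro x ⟨p, hpp, hlt, i, hA⟩
    exact Set.mem_iUnion.2 ⟨i, p, hpp, hlt, hA⟩
  have h2 : T.ncard ≤ ∑ i, (S i).ncard :=
    (Set.ncard_le_ncard hsub (Set.toFinite _)).trans (Set.ncard_iUnion_le_of_fintype S)
  show M * T.ncard ≤ _
  calc M * T.ncard ≤ M * ∑ i, (S i).ncard := Nat.mul_le_mul_left _ h2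
    _ = ∑ i, M * (S i).ncard := Finset.mul_sum _ _ _
    _ ≤ ∑ i, K i * (L ^ Fintype.card V + M * L ^ (Fintype.card V - 1)) :=
        Finset.sum_le_sum fun i _ => hSi i
    _ = _ := (Finset.sum_mul _ _ _).symm

/-- Change of the index set. Proof: the equivalence `x ↦ x ∘ e.symm` of `V → Fin L` with `V' → Fin L`. -/
theorem sv_equiv {V V' : Type} [Fintype V] [Fintype V'] (e : V ≃ V')
    {A : (V → ℤ) → ℕ → Prop} (h : Sv V' (fun c p => A (fun v => c (e v)) p)) : Sv V A := by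
  obtain ⟨K, M₁, hK⟩ := h
  refine ⟨K, M₁, fun M P hM h1 hP hp => ?_⟩
  obtain ⟨L₀, hL₀⟩ := hK M P hM h1 hP hp
  refine ⟨L₀, fun L hL c₀ hc₀ => ?_⟩
  rw [Fintype.card_congr e]
  refine le_trans (Nat.mul_le_mul_left _ ?_) (hL₀ L hL (fun v => c₀ (e.symm v)) fun v => hc₀ _)
  refine Nat.card_le_card_of_injective (fun x => ⟨fun v => x.1 (e.symm v), ?_⟩) ?_
  · obtain ⟨p, hpp, hlt, hA⟩ := x.2
    refine ⟨p, hpp, hlt, ?_⟩
    have h3 : (fun α => c₀ (e.symm (e α)) + P * ((x.1 (e.symm (e α)) : ℕ) : ℤ)) =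
        fun α => c₀ α + P * ((x.1 α : ℕ) : ℤ) := funext fun α => by rw [e.symm_apply_apply]
    show A (fun α => c₀ (e.symm (e α)) + P * ((x.1 (e.symm (e α)) : ℕ) : ℤ)) p
    rw [h3]
    exact hA
  · intro x y hxy
    apply Subtype.ext
    funext α
    have h3 := congrFun (congrArg Subtype.val hxy) (e α)
    have h4 : x.1 (e.symm (e α)) = y.1 (e.symm (e α)) := h3
    rwa [e.symm_apply_apply] at h4

/-- The form which is used. Proof: `M₀ = max (max M₁ 1) ⌈2 K / ε⌉`, `L₀` at least `⌈2 K / ε⌉` and `1`: `card ≤ K (L ^ N / M + L ^ (N - 1)) ≤ ε L ^ N`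
(`L ^ N = L * L ^ (N - 1)` as `N ≥ 1`). -/
theorem sv_tail {V : Type} [Fintype V] [Nonempty V] {A : (V → ℤ) → ℕ → Prop} (h : Sv V A) :
    ∀ ε : ℝ, 0 < ε → ∃ M₀ : ℕ, ∀ M P : ℕ, M₀ ≤ M → 1 ≤ P →
      (∀ p : ℕ, p.Prime → M < p → ¬ p ∣ P) → ∃ L₀ : ℕ, ∀ L : ℕ, L₀ ≤ L →
        ∀ c₀ : V → ℤ, (∀ α, |c₀ α| ≤ 2 * P * L) →
          (Nat.card {x : V → Fin L // ∃ p : ℕ, p.Prime ∧ M < p ∧
            A (fun α => c₀ α + P * ((x α : ℕ) : ℤ)) p} : ℝ) ≤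
            ε * (L : ℝ) ^ Fintype.card V := by
  intro ε hε
  obtain ⟨K, M₁, hK⟩ := h
  refine ⟨max (max M₁ 1) ⌈2 * (K : ℝ) / ε⌉₊, fun M P hM hP hp => ?_⟩
  have hM1 : M₁ ≤ M := ((le_max_left _ _).trans (le_max_left _ _)).trans hM
  have h1M : 1 ≤ M := ((le_max_right _ _).trans (le_max_left _ _)).trans hM
  have hMK : 2 * (K : ℝ) / ε ≤ M :=
    (Nat.le_ceil _).trans (by exact_mod_cast (le_max_right _ _).trans hM)
  obtain ⟨L₀, hL₀⟩ := hK M P hM1 h1M hP hp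
  refine ⟨max L₀ ⌈2 * (K : ℝ) / ε⌉₊, fun L hL c₀ hc₀ => ?_⟩
  have hLK : 2 * (K : ℝ) / ε ≤ L :=
    (Nat.le_ceil _).trans (by exact_mod_cast (le_max_right _ _).trans hL)
  have h2 := hL₀ L ((le_max_left _ _).trans hL) c₀ hc₀
  set X := Nat.card {x : V → Fin L // ∃ p : ℕ, p.Prime ∧ M < p ∧
            A (fun α => c₀ α + P * ((x α : ℕ) : ℤ)) p} with hX
  obtain ⟨N, hN⟩ : ∃ N, Fintype.card V = N + 1 :=
    ⟨Fintype.card V - 1, (Nat.sub_add_cancel Fintype.card_pos).symm⟩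
  rw [hN, Nat.add_sub_cancel] at h2
  rw [hN]
  have h3 : (M : ℝ) * X ≤ K * ((L : ℝ) ^ (N + 1) + M * (L : ℝ) ^ N) := by exact_mod_cast h2
  have hMpos : (0 : ℝ) < M := by exact_mod_cast h1M
  have h4 : (K : ℝ) ≤ ε / 2 * M := by
    rw [div_le_iff₀ hε] at hMK
    linarith
  have h5 : (K : ℝ) ≤ ε / 2 * L := by
    rw [div_le_iff₀ hε] at hLK
    linarith
  have hLN : (0 : ℝ) ≤ (L : ℝ) ^ N := by positivity
  have hLN1 : (0 : ℝ) ≤ (L : ℝ) ^ (N + 1) := by positivity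
  have h6 : (K : ℝ) * (L : ℝ) ^ (N + 1) ≤ ε / 2 * M * (L : ℝ) ^ (N + 1) :=
    mul_le_mul_of_nonneg_right h4 hLN1
  have h7 : (K : ℝ) * (M * (L : ℝ) ^ N) ≤ ε / 2 * L * (M * (L : ℝ) ^ N) :=
    mul_le_mul_of_nonneg_right h5 (by positivity)
  have h8 : (M : ℝ) * X ≤ M * (ε * (L : ℝ) ^ (N + 1)) := by
    have h9 : ε / 2 * L * (M * (L : ℝ) ^ N) = ε / 2 * M * (L : ℝ) ^ (N + 1) := by ring
    nlinarith [h3, h6, h7, h9]
  exact le_of_mul_le_mul_left h8 hMpos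

end Pool.Agent.EvM
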