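import Pool.Agent.EvM.EkA
import Pool.Agent.NodHyp.TailA

set_option autoImplicit false

/-! # EkB: the sieve of codimension two -/

namespace Pool.Agent.EvM

open MvPolynomial Pool.Agent.NH

/-- Polynomials without the variable `0`. -/
private theorem ekb_R {n : ℕ} {f : MvPolynomial (Fin (n + 1)) ℤ} (hf : f ≠ 0)
    (h0 : degreeOf 0 f = 0) : ∃ R : MvPolynomial (Fin n) ℤ, R ≠ 0 ∧
      ∀ (a : ℤ) (v : Fin n → ℤ), eval (Fin.cons a v : Fin (n + 1) → ℤ) f = eval v R := by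
  have h1 : (finSuccEquiv ℤ n f).natDegree = 0 := by rw [natDegree_finSuccEquiv, h0]
  refine ⟨(finSuccEquiv ℤ n f).coeff 0, ?_, fun a v => ?_⟩
  · intro h2
    apply hf
    have h3 : finSuccEquiv ℤ n f = 0 := by
      rw [Polynomial.eq_C_of_natDegree_eq_zero h1, h2, Polynomial.C_0]
    exact (EmbeddingLike.map_eq_zero_iff (f := finSuccEquiv ℤ n)).1 h3
  · rw [eval_eq_eval_mv_eval', Polynomial.eq_C_of_natDegree_eq_zero h1, Polynomial.map_C,
      Polynomial.eval_C, Polynomial.coeff_C_zero]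

/-- Few values of the variable `0`. -/
private theorem ekb_roots {n : ℕ} (f : MvPolynomial (Fin (n + 1)) ℤ) (p : ℕ) [Fact p.Prime]
    (v : Fin n → ℤ) : ∃ S : Finset (ZMod p), S.card ≤ (finSuccEquiv ℤ n f).natDegree ∧
      (¬ (p : ℤ) ∣ eval v (finSuccEquiv ℤ n f).leadingCoeff → ∀ a : ℤ,
        (p : ℤ) ∣ eval (Fin.cons a v : Fin (n + 1) → ℤ) f → (a : ZMod p) ∈ S) := by
  classical
  set G := finSuccEquiv ℤ n f with hG
  set H : Polynomial (ZMod p) := (G.map (eval v)).map (Int.castRingHom (ZMod p)) with hH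
  refine ⟨H.roots.toFinset, ?_, fun hne a ha => ?_⟩
  · exact (Multiset.toFinset_card_le _).trans ((Polynomial.card_roots' _).trans
      (Polynomial.natDegree_map_le.trans Polynomial.natDegree_map_le))
  · have h1 : H.coeff G.natDegree ≠ 0 := by
      rw [hH, Polynomial.coeff_map, Polynomial.coeff_map, eq_intCast]
      intro h2
      exact hne ((ZMod.intCast_zmod_eq_zero_iff_dvd _ _).1 h2)
    have h3 : H ≠ 0 := fun h => h1 (by rw [h, Polynomial.coeff_zero])
    rw [Multiset.mem_toFinset, Polynomial.mem_roots h3, Polynomial.IsRoot.def]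
    have h4 : Polynomial.eval (a : ZMod p) H =
        ((eval (Fin.cons a v : Fin (n + 1) → ℤ) f : ℤ) : ZMod p) := by
      rw [eval_eq_eval_mv_eval', hH]
      have h5 := Polynomial.eval_map_apply (Int.castRingHom (ZMod p)) (p := G.map (eval v)) a
      rw [eq_intCast, eq_intCast] at h5
      exact h5
    rw [h4]
    exact (ZMod.intCast_zmod_eq_zero_iff_dvd _ _).2 ha

/-- If for every variable there is a nonzero polynomial without this variable which vanishes on the bad vectors, then few vectors are bad at some large prime number. Proof by induction on `n`.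
`n = 0`: `g 0` is a nonzero constant (`degreeOf 0 = 0`), not divisible by large primes: `K = 0`.
Step `n → n + 1` (`n + 2` variables): `G_i = finSuccEquiv ℤ (n + 1) (g i)`. `natDegree G_0 = degreeOf 0 (g 0) = 0`, so `G_0 = C R`, `R ≠ 0` (`natDegree_finSuccEquiv`). For `j : Fin (n + 1)` let
`g' j = leadingCoeff G_(j.succ)`: not zero, `degreeOf j (g' j) ≤ degreeOf j.succ (g j.succ) = 0` (`degreeOf_coeff_finSuccEquiv`). A bad vector `c = Fin.cons a v`: `p ∣ eval v R`, and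
(A) `p ∣ eval v (g' j)` for all `j`: by the induction hypothesis for `v` (times `L` values of `a`); or (B) `p ∤ eval v (g' j)` for some `j`: then `a` is modulo `p` a root of the polynomial
`G_(j.succ)` evaluated at `v` modulo `p`, of degree `≤ degreeOf 0 (g j.succ)`, not zero: `NH.sieveA` with `U = Fin 0` (or `Empty`), `ρ = 1`, `V = Fin (n + 1)`, `Δ = R` (renamed),
`C = ∑ j, degreeOf 0 (g j.succ)`, `S` = the union over `j` of the roots (`Polynomial.card_roots'`), `M₁` from `NH.ne_zero_mod`. Use `NH.TAILA_card`-like counting: the equivalence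
`(Fin (n + 2) → Fin L) ≃ Fin L × (Fin (n + 1) → Fin L)` (`Fin.consEquiv` / `Fin.insertNthEquiv`). -/
theorem sv_cod2_fin : ∀ (n : ℕ) (g : Fin (n + 1) → MvPolynomial (Fin (n + 1)) ℤ),
    (∀ i, g i ≠ 0) → (∀ i, degreeOf i (g i) = 0) →
    Sv (Fin (n + 1)) (fun c p => ∀ i, (p : ℤ) ∣ eval c (g i)) := by
  classical
  intro n
  induction n with
  | zero =>
    intro g hg hdeg
    obtain ⟨R, hR, hev⟩ := ekb_R (hg 0) (hdeg 0)
    have hRC : R = C (coeff 0 R) := (C_surjective (Fin 0) R).elim fun a ha => by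
      rw [← ha, coeff_C, if_pos rfl]
    have ha0 : coeff 0 R ≠ 0 := fun h => hR (by rw [hRC, h, C_0])
    refine ⟨0, (coeff 0 R).natAbs, fun M P hM h1 hP hp => ⟨0, fun L hL c₀ hc₀ => ?_⟩⟩
    have hempty : IsEmpty {x : Fin (0 + 1) → Fin L // ∃ p : ℕ, p.Prime ∧ M < p ∧
          ∀ i, (p : ℤ) ∣ eval (fun α => c₀ α + P * ((x α : ℕ) : ℤ)) (g i)} := by
      refine ⟨fun ⟨x, p, hpp, hlt, hA⟩ => ?_⟩
      have h2 := hA 0
      have h3 : (fun α => c₀ α + P * ((x α : ℕ) : ℤ)) = (Fin.cons (c₀ 0 + P * ((x 0 : ℕ) : ℤ))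
          (fun j : Fin 0 => c₀ j.succ + P * ((x j.succ : ℕ) : ℤ)) : Fin (0 + 1) → ℤ) :=
        (Fin.cons_self_tail _).symm
      rw [h3, hev, hRC, eval_C] at h2
      refine ha0 (Int.eq_zero_of_dvd_of_natAbs_lt_natAbs h2 ?_)
      rw [Int.natAbs_natCast]
      exact lt_of_le_of_lt hM hlt
    rw [Nat.card_of_isEmpty]
    simp
  | succ n ih =>
    intro g hg hdeg
    obtain ⟨R, hR, hev⟩ := ekb_R (hg 0) (hdeg 0)
    set G : Fin (n + 1) → Polynomial (MvPolynomial (Fin (n + 1)) ℤ) :=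
      fun j => finSuccEquiv ℤ (n + 1) (g j.succ) with hG
    set g' : Fin (n + 1) → MvPolynomial (Fin (n + 1)) ℤ := fun j => (G j).leadingCoeff with hg'
    have hg'0 : ∀ j, g' j ≠ 0 := by
      intro j h
      have h1 : G j = 0 := Polynomial.leadingCoeff_eq_zero.1 h
      exact hg j.succ ((EmbeddingLike.map_eq_zero_iff (f := finSuccEquiv ℤ (n + 1))).1 h1)
    have hg'd : ∀ j, degreeOf j (g' j) = 0 := by
      intro j
      have h1 := degreeOf_coeff_finSuccEquiv (g j.succ) j (G j).natDegree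
      rw [hdeg j.succ] at h1
      exact Nat.le_zero.1 h1
    obtain ⟨KA, MA, hKA⟩ := ih g' hg'0 hg'd
    -- part (B)
    set Δ : MvPolynomial (Fin 0 ⊕ Fin (n + 1)) ℤ := rename Sum.inr R with hΔ
    have hΔ0 : Δ ≠ 0 := by
      intro h
      apply hR
      have h1 : Function.Injective (rename (Sum.inr : Fin (n + 1) → Fin 0 ⊕ Fin (n + 1)) :
          MvPolynomial (Fin (n + 1)) ℤ → _) := rename_injective _ Sum.inr_injective
      exact h1 (by rw [map_zero]; exact h)
    obtain ⟨MB, hMB⟩ := ne_zero_mod hΔ0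
    obtain ⟨KB, hKB⟩ := sieveA (U := Fin 0) (V := Fin (n + 1)) (1 : MvPolynomial (Fin 0) ℤ) Δ
      (∑ j, (G j).natDegree) MB hΔ0 hMB
      (fun p _ v a => (p : ℤ) ∣ eval v R ∧ ∃ j, ¬ (p : ℤ) ∣ eval v (g' j) ∧
        (p : ℤ) ∣ eval (Fin.cons a v : Fin (n + 1 + 1) → ℤ) (g j.succ))
      (by
        rintro p hp hlt u v a ⟨h1, -⟩ -
        rw [hΔ, eval_rename]
        exact h1)
      (by
        rintro p hp hlt u v -
        have : Fact p.Prime := ⟨hp⟩
        choose S hS1 hS2 using fun j : Fin (n + 1) => ekb_roots (g j.succ) p v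
        refine ⟨Finset.univ.biUnion S, Finset.card_biUnion_le.trans
          (Finset.sum_le_sum fun j _ => hS1 j), ?_⟩
        rintro a ⟨-, j, hj1, hj2⟩
        exact Finset.mem_biUnion.2 ⟨j, Finset.mem_univ j, hS2 j hj1 a hj2⟩)
    refine ⟨KA + KB, max MA MB, fun M P hM h1 hP hp => ?_⟩
    obtain ⟨LA, hLA⟩ := hKA M P ((le_max_left _ _).trans hM) h1 hP hp
    obtain ⟨LB, hLB⟩ := hKB M P ((le_max_right _ _).trans hM) h1 hP hp
    refine ⟨max LA LB, fun L hL c₀ hc₀ => ?_⟩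
    have hA := hLA L ((le_max_left _ _).trans hL) (fun j => c₀ j.succ) (fun j => hc₀ _)
    have hB := hLB L ((le_max_right _ _).trans hL) Fin.elim0 (fun j => c₀ j.succ) (c₀ 0)
      (fun i => Fin.elim0 i) (fun j => hc₀ _) (hc₀ _)
    rw [Fintype.card_fin] at hA
    rw [Fintype.card_fin, Fintype.card_fin, zero_add] at hB
    rw [Fintype.card_fin]
    have hcons : ∀ x : Fin (n + 1 + 1) → Fin L, (fun α => c₀ α + P * ((x α : ℕ) : ℤ)) =
        (Fin.cons (c₀ 0 + P * ((x 0 : ℕ) : ℤ))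
          (fun j : Fin (n + 1) => c₀ j.succ + P * ((x j.succ : ℕ) : ℤ)) : Fin (n + 1 + 1) → ℤ) :=
      fun x => (Fin.cons_self_tail _).symm
    set T : Set (Fin (n + 1 + 1) → Fin L) := {x | ∃ p : ℕ, p.Prime ∧ M < p ∧
      ∀ i, (p : ℤ) ∣ eval (fun α => c₀ α + P * ((x α : ℕ) : ℤ)) (g i)} with hT
    set SA : Set (Fin (n + 1 + 1) → Fin L) := {x | ∃ p : ℕ, p.Prime ∧ M < p ∧
      ∀ j, (p : ℤ) ∣ eval (fun j : Fin (n + 1) => c₀ j.succ + P * ((x j.succ : ℕ) : ℤ)) (g' j)}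
      with hSA
    set SB : Set (Fin (n + 1 + 1) → Fin L) := {x | ∃ p : ℕ, p.Prime ∧ M < p ∧
      ((p : ℤ) ∣ eval (fun j : Fin (n + 1) => c₀ j.succ + P * ((x j.succ : ℕ) : ℤ)) R ∧
      ∃ j, ¬ (p : ℤ) ∣ eval (fun j : Fin (n + 1) => c₀ j.succ + P * ((x j.succ : ℕ) : ℤ)) (g' j) ∧
        (p : ℤ) ∣ eval (Fin.cons (c₀ 0 + P * ((x 0 : ℕ) : ℤ))
          (fun j : Fin (n + 1) => c₀ j.succ + P * ((x j.succ : ℕ) : ℤ)) : Fin (n + 1 + 1) → ℤ)
          (g j.succ))} with hSB
    have hsub : T ⊆ SA ∪ SB := by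
      rintro x ⟨p, hpp, hlt, hA'⟩
      by_cases h2 : ∀ j, (p : ℤ) ∣ eval (fun j : Fin (n + 1) =>
          c₀ j.succ + P * ((x j.succ : ℕ) : ℤ)) (g' j)
      · exact Or.inl ⟨p, hpp, hlt, h2⟩
      · right
        obtain ⟨j, hj⟩ := not_forall.1 h2
        refine ⟨p, hpp, hlt, ?_, j, hj, ?_⟩
        · have h3 := hA' 0
          rw [hcons, hev] at h3
          exact h3
        · have h3 := hA' j.succ
          rw [hcons] at h3
          exact h3
    have hSAc : SA.ncard ≤ L * Nat.card {x : Fin (n + 1) → Fin L // ∃ p : ℕ, p.Prime ∧ M < p ∧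
        ∀ i, (p : ℤ) ∣ eval (fun α => c₀ α.succ + P * ((x α : ℕ) : ℤ)) (g' i)} := by
      have h2 : Nat.card (Fin L × {x : Fin (n + 1) → Fin L // ∃ p : ℕ, p.Prime ∧ M < p ∧
        ∀ i, (p : ℤ) ∣ eval (fun α => c₀ α.succ + P * ((x α : ℕ) : ℤ)) (g' i)}) =
        L * Nat.card {x : Fin (n + 1) → Fin L // ∃ p : ℕ, p.Prime ∧ M < p ∧
        ∀ i, (p : ℤ) ∣ eval (fun α => c₀ α.succ + P * ((x α : ℕ) : ℤ)) (g' i)} := by
        rw [Nat.card_prod, Nat.card_fin]
      rw [← h2]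
      refine Nat.card_le_card_of_injective (α := SA)
        (fun x => (x.1 0, ⟨fun j => x.1 j.succ, x.2⟩)) ?_
      intro x y hxy
      have h3 := Prod.mk.inj hxy
      apply Subtype.ext
      funext i
      induction i using Fin.cases with
      | zero => exact h3.1
      | succ i => exact congrFun (congrArg Subtype.val h3.2) i
    have hSBc : SB.ncard ≤ Nat.card {x : (Fin 0 → Fin L) × (Fin (n + 1) → Fin L) × Fin L //
        ∃ p : ℕ, p.Prime ∧ M < p ∧
          ¬ (p : ℤ) ∣ eval (fun i => Fin.elim0 i + P * ((x.1 i : ℕ) : ℤ)) (1 : MvPolynomial (Fin 0) ℤ) ∧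
          ((p : ℤ) ∣ eval (fun j => c₀ j.succ + P * ((x.2.1 j : ℕ) : ℤ)) R ∧
          ∃ j, ¬ (p : ℤ) ∣ eval (fun j => c₀ j.succ + P * ((x.2.1 j : ℕ) : ℤ)) (g' j) ∧
          (p : ℤ) ∣ eval (Fin.cons (c₀ 0 + P * ((x.2.2 : ℕ) : ℤ))
            (fun j => c₀ j.succ + P * ((x.2.1 j : ℕ) : ℤ)) : Fin (n + 1 + 1) → ℤ) (g j.succ))} := by
      refine Nat.card_le_card_of_injective (α := SB)
        (fun x => ⟨(Fin.elim0, fun j => x.1 j.succ, x.1 0), ?_⟩) ?_
      · obtain ⟨p, hpp, hlt, h2⟩ := x.2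
        refine ⟨p, hpp, hlt, ?_, h2⟩
        rw [map_one]
        intro h3
        have h4 := Int.natAbs_dvd_natAbs.2 h3
        rw [Int.natAbs_natCast, Int.natAbs_one] at h4
        exact hpp.one_lt.ne' (Nat.dvd_one.1 h4)
      · intro x y hxy
        have h3 := Prod.mk.inj (Prod.mk.inj (congrArg Subtype.val hxy)).2
        apply Subtype.ext
        funext i
        induction i using Fin.cases with
        | zero => exact h3.2
        | succ i => exact congrFun h3.1 i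
    have h2 : T.ncard ≤ SA.ncard + SB.ncard :=
      (Set.ncard_le_ncard hsub (Set.toFinite _)).trans (Set.ncard_union_le _ _)
    have h3 : M * SA.ncard ≤ KA * (L ^ (n + 1 + 1) + M * L ^ (n + 1)) := by
      calc M * SA.ncard ≤ M * (L * _) := Nat.mul_le_mul_left _ hSAc
        _ = L * (M * _) := by ring
        _ ≤ L * (KA * (L ^ (n + 1) + M * L ^ (n + 1 - 1))) := Nat.mul_le_mul_left _ hA
        _ = KA * (L ^ (n + 1 + 1) + M * L ^ (n + 1)) := by
          rw [Nat.add_sub_cancel]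
          ring
    have h4 : M * SB.ncard ≤ KB * (L ^ (n + 1 + 1) + M * L ^ (n + 1)) :=
      (Nat.mul_le_mul_left _ hSBc).trans hB
    show M * T.ncard ≤ (KA + KB) * (L ^ (n + 1 + 1) + M * L ^ (n + 1 + 1 - 1))
    rw [Nat.add_sub_cancel, add_mul]
    calc M * T.ncard ≤ M * (SA.ncard + SB.ncard) := Nat.mul_le_mul_left _ h2
      _ = M * SA.ncard + M * SB.ncard := mul_add _ _ _
      _ ≤ _ := Nat.add_le_add h3 h4

end Pool.Agent.EvM
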