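import Pool.Agent.NodHyp.SieveA
import Pool.Agent.NodHyp.FormsB

set_option autoImplicit false

/-! # EkDefs: the sieve of codimension two: definition -/

namespace Pool.Agent.EvM

open MvPolynomial Pool.Agent.NH

/-- `A c p`: the vector `c` is bad at the prime number `p`. Few vectors in a box of a congruence class are bad at
some prime number larger than `M`. -/
def Sv (V : Type) [Fintype V] (A : (V → ℤ) → ℕ → Prop) : Prop :=
  ∃ K M₁ : ℕ, ∀ M P : ℕ, M₁ ≤ M → 1 ≤ M → 1 ≤ P →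
    (∀ p : ℕ, p.Prime → M < p → ¬ p ∣ P) → ∃ L₀ : ℕ, ∀ L : ℕ, L₀ ≤ L →
      ∀ c₀ : V → ℤ, (∀ α, |c₀ α| ≤ 2 * P * L) →
        M * Nat.card {x : V → Fin L // ∃ p : ℕ, p.Prime ∧ M < p ∧
          A (fun α => c₀ α + P * ((x α : ℕ) : ℤ)) p} ≤
          K * (L ^ Fintype.card V + M * L ^ (Fintype.card V - 1))

end Pool.Agent.EvM
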