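import Pool.Agent.NodHyp.AlgDep
import Pool.Agent.EvM.EkDefs

set_option autoImplicit false

/-! # EkC: relations on the image of a polynomial map -/

namespace Pool.Agent.EvM

open MvPolynomial Pool.Agent.NH

/-- clearing denominators -/
private theorem ekC_clear {σ : Type} (g : MvPolynomial σ ℚ) :
    ∃ (N : ℕ) (g' : MvPolynomial σ ℤ), N ≠ 0 ∧ C (N : ℚ) * g = map (algebraMap ℤ ℚ) g' := by
  induction g using MvPolynomial.induction_on with
  | C a =>
    refine ⟨a.den, C a.num, a.den_nz, ?_⟩
    rw [← C_mul, map_C]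
    congr 1
    rw [mul_comm]
    exact Rat.mul_den_eq_num a
  | add p q hp hq =>
    obtain ⟨N1, g1, hN1, h1⟩ := hp
    obtain ⟨N2, g2, hN2, h2⟩ := hq
    refine ⟨N1 * N2, C (N2 : ℤ) * g1 + C (N1 : ℤ) * g2, mul_ne_zero hN1 hN2, ?_⟩
    rw [map_add, map_mul, map_mul, ← h1, ← h2, map_C, map_C]
    push_cast
    rw [C_mul]
    ring
  | mul_X p i hp =>
    obtain ⟨N, g', hN, h⟩ := hp
    refine ⟨N, g' * X i, hN, ?_⟩
    rw [map_mul, ← h, map_X, mul_assoc]

theorem exists_gs {V W : Type} [Fintype V] [Fintype W]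
    (hVW : Fintype.card W + 2 ≤ Fintype.card V) (φ : V → MvPolynomial W ℤ) :
    ∃ g : V → MvPolynomial V ℤ, (∀ α, g α ≠ 0) ∧ (∀ α, degreeOf α (g α) = 0) ∧
      ∀ α, aeval φ (g α) = 0 := by
  classical
  have key : ∀ α : V, ∃ g : MvPolynomial V ℤ, g ≠ 0 ∧ degreeOf α g = 0 ∧ aeval φ g = 0 := by
    intro α
    obtain ⟨N, hN⟩ : ∃ N, N = Fintype.card W := ⟨_, rfl⟩
    have hcard : Fintype.card (Fin (N + 1)) ≤ Fintype.card {β : V // β ≠ α} := by
      rw [Fintype.card_fin, Fintype.card_subtype_compl, Fintype.card_subtype_eq]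
      omega
    obtain ⟨ι⟩ := Function.Embedding.nonempty_of_card_le hcard
    have e : W ≃ Fin N := hN ▸ Fintype.equivFin W
    let j : MvPolynomial W ℤ →+* MvPolynomial (Fin N) ℚ :=
      (map (Int.castRingHom ℚ)).comp (rename e : MvPolynomial W ℤ →ₐ[ℤ] _).toRingHom
    have hj : Function.Injective j :=
      (map_injective _ Int.cast_injective).comp (rename_injective _ e.injective)
    let ψ : MvPolynomial (Fin (N + 1)) ℚ →ₐ[ℚ] MvPolynomial (Fin N) ℚ :=
      aeval fun i => j (φ (ι i).1)
    obtain ⟨D, hD⟩ := exists_relation N (Finset.univ.sup fun i => (ψ (X i)).totalDegree)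
    obtain ⟨P, hP, _, hψP⟩ := hD ℚ ψ fun i => Finset.le_sup (f := fun i => (ψ (X i)).totalDegree)
      (Finset.mem_univ i)
    obtain ⟨M, g', hM, hg'⟩ := ekC_clear P
    have hg0 : g' ≠ 0 := by
      rintro rfl
      rw [map_zero] at hg'
      rcases mul_eq_zero.1 hg' with h | h
      · rw [C_eq_zero] at h
        exact hM (by exact_mod_cast h)
      · exact hP h
    have hg1 : aeval (fun i => φ (ι i).1) g' = 0 := by
      apply hj
      rw [map_zero]
      have h1 : j (aeval (fun i => φ (ι i).1) g') = ψ (map (algebraMap ℤ ℚ) g') := by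
        have h2 : j.comp (aeval (fun i => φ (ι i).1) : MvPolynomial (Fin (N + 1)) ℤ →ₐ[ℤ] _).toRingHom
            = ψ.toRingHom.comp (map (algebraMap ℤ ℚ)) := by
          apply MvPolynomial.ringHom_ext
          · intro a
            simp
          · intro i
            simp [ψ]
        exact congrArg (fun f => f g') h2
      rw [h1, ← hg', map_mul, hψP, mul_zero]
    refine ⟨rename (fun i => (ι i).1) g', ?_, ?_, ?_⟩
    · intro h
      apply hg0
      apply rename_injective (fun i => (ι i).1) (Subtype.val_injective.comp ι.injective)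
      rw [h, map_zero]
    · rw [degreeOf_def, Multiset.count_eq_zero]
      intro h
      have h1 := degrees_rename (fun i => (ι i).1) g' h
      rw [Multiset.mem_map] at h1
      obtain ⟨i, _, hi⟩ := h1
      exact (ι i).2 hi
    · rw [aeval_rename]
      exact hg1
  choose g h1 h2 h3 using key
  exact ⟨g, h1, h2, h3⟩

end Pool.Agent.EvM
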