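import Pool.Agent.EvM.EkB
import Pool.Agent.EvM.EkC

set_option autoImplicit false

/-! # EkD: the sieve for the image of a polynomial map with two parameters less -/

namespace Pool.Agent.EvM

open MvPolynomial Pool.Agent.NH

/-- Proof. `exists_gs`: `g`; `e : V ≃ Fin (n + 1)` (`card V ≥ 2`); `sv_equiv`, `sv_cod2_fin` for `rename e (g (e.symm i))` (`degreeOf_rename_of_injective`), `sv_mono`: for a bad vector
`c`, `(eval c (g α) : L) = aeval (fun α => (c α : L)) (g α) = aeval w (aeval φ (g α)) = 0`, so `p ∣ eval c (g α)` (`CharP.intCast_eq_zero_iff`). -/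
theorem sv_param {V W : Type} [Fintype V] [Fintype W]
    (hVW : Fintype.card W + 2 ≤ Fintype.card V) (φ : V → MvPolynomial W ℤ) :
    Sv V (fun c p => ∃ (L : Type) (_ : Field L) (_ : CharP L p) (w : W → L),
      ∀ α, ((c α : ℤ) : L) = aeval w (φ α)) := by
  obtain ⟨g, hg0, hgd, hg⟩ := exists_gs hVW φ
  obtain ⟨n, hn⟩ : ∃ n, Fintype.card V = n + 1 := ⟨Fintype.card V - 1, by omega⟩
  let e : V ≃ Fin (n + 1) := Fintype.equivFinOfCardEq hn
  have hB : Sv V (fun c p => ∀ α, (p : ℤ) ∣ eval c (g α)) := by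
    refine sv_equiv e (A := fun c p => ∀ α, (p : ℤ) ∣ eval c (g α)) ?_
    refine sv_mono (A := fun c p => ∀ α : V, (p : ℤ) ∣ eval (fun v => c (e v)) (g α)) 0
      (fun p _ _ c hc i => ?_) (sv_cod2_fin n
      (fun i => rename e (g (e.symm i))) (fun i h => ?_) fun i => ?_)
    · rw [eval_rename]
      exact hc (e.symm i)
    · apply hg0 (e.symm i)
      have h1 : Function.Injective (rename e : MvPolynomial V ℤ → _) :=
        rename_injective _ e.injective
      exact h1 (by rw [map_zero]; exact h)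
    · have h1 := degreeOf_rename_of_injective (p := g (e.symm i)) e.injective (e.symm i)
      rw [e.apply_symm_apply, hgd] at h1
      exact h1
  refine sv_mono 0 (fun p _ _ c hc α => ?_) hB
  obtain ⟨L, hF, hC, w, hw⟩ := hc
  rw [← CharP.intCast_eq_zero_iff L p]
  have h1 : ((eval c (g α) : ℤ) : L) = aeval (fun β => ((c β : ℤ) : L)) (g α) := by
    have h2 := MvPolynomial.eval₂_comp_left (Int.castRingHom L) (RingHom.id ℤ) c (g α)
    rw [RingHom.comp_id, eval₂_id, eq_intCast] at h2
    rw [h2]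
    rfl
  rw [h1, funext hw]
  have h3 : aeval (fun β => aeval w (φ β)) (g α) = aeval w (aeval φ (g α)) := by
    rw [← MvPolynomial.comp_aeval_apply]
  rw [h3, hg, map_zero]

end Pool.Agent.EvM
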