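import Pool.Agent.EvM.EkDefs

set_option autoImplicit false

/-! # EkE: coefficients of a form and its derivatives at a coordinate point; linear substitutions -/

namespace Pool.Agent.EvM

open MvPolynomial Pool.Agent.NH

variable {L : Type} [Field L] {n d : ℕ}

theorem coeff_one {G : MvPolynomial (Fin (n + 1)) L} (hG : G.IsHomogeneous d)
    (m : Fin (n + 1)) : aeval (Pi.single m (1 : L)) G = coeff (Finsupp.single m d) G := by
  classical
  rw [MvPolynomial.aeval_def, MvPolynomial.eval₂_eq', Finset.sum_eq_single (Finsupp.single m d)]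
  · have h1 : ∀ i : Fin (n + 1), (Pi.single m (1 : L) : Fin (n + 1) → L) i ^
        (Finsupp.single m d) i = 1 := by
      intro i
      by_cases him : i = m
      · subst him
        rw [Pi.single_eq_same, one_pow]
      · rw [Finsupp.single_eq_of_ne him, pow_zero]
    rw [Finset.prod_congr rfl fun i _ => h1 i, Finset.prod_const_one, mul_one]
    rfl
  · intro s hs hne
    have h2 : ∃ i, i ≠ m ∧ s i ≠ 0 := by
      by_contra hcon
      push Not at hcon
      apply hne
      have h3 : s = Finsupp.single m (s m) := by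
        ext i
        by_cases him : i = m
        · subst him
          rw [Finsupp.single_eq_same]
        · rw [Finsupp.single_eq_of_ne him, hcon i him]
      have h4 : s.degree = d := by
        have := hG (MvPolynomial.mem_support_iff.1 hs)
        rw [← this, Finsupp.degree_eq_weight_one]
        rfl
      rw [h3, Finsupp.degree_single] at h4
      rw [h3, h4]
    obtain ⟨i, him, hsi⟩ := h2
    rw [Finset.prod_eq_zero (Finset.mem_univ i), mul_zero]
    rw [Pi.single_eq_of_ne him, zero_pow hsi]
  · intro h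
    rw [MvPolynomial.notMem_support_iff.1 h, map_zero, zero_mul]

theorem coeff_two {G : MvPolynomial (Fin (n + 1)) L} (hG : G.IsHomogeneous d) (hd : 1 ≤ d)
    {m j : Fin (n + 1)} (hj : j ≠ m) : aeval (Pi.single m (1 : L)) (pderiv j G) =
      coeff (Finsupp.single m (d - 1) + Finsupp.single j 1) G := by
  rw [coeff_one (MvPolynomial.IsHomogeneous.pderiv hG) m, MvPolynomial.coeff_pderiv,
    Finsupp.single_eq_of_ne hj, Nat.cast_zero, zero_add, mul_one]

theorem coeff_three {G : MvPolynomial (Fin (n + 1)) L} (hG : G.IsHomogeneous d) (hd : 2 ≤ d)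
    {m i j : Fin (n + 1)} (hi : i ≠ m) (hj : j ≠ m) (hij : i ≠ j) :
    aeval (Pi.single m (1 : L)) (pderiv i (pderiv j G)) =
      coeff (Finsupp.single m (d - 2) + Finsupp.single i 1 + Finsupp.single j 1) G := by
  rw [coeff_one (MvPolynomial.IsHomogeneous.pderiv (MvPolynomial.IsHomogeneous.pderiv hG)) m,
    MvPolynomial.coeff_pderiv, MvPolynomial.coeff_pderiv, Finsupp.single_eq_of_ne hi,
    Finsupp.add_apply, Finsupp.single_eq_of_ne hj, Finsupp.single_eq_of_ne (Ne.symm hij),
    Nat.cast_zero, add_zero, Nat.cast_zero, zero_add, mul_one, mul_one, Nat.sub_sub]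

theorem coeff_four {G : MvPolynomial (Fin (n + 1)) L} (hG : G.IsHomogeneous d) (hd : 2 ≤ d)
    {m i : Fin (n + 1)} (hi : i ≠ m) : aeval (Pi.single m (1 : L)) (pderiv i (pderiv i G)) =
      2 * coeff (Finsupp.single m (d - 2) + Finsupp.single i 1 + Finsupp.single i 1) G := by
  rw [coeff_one (MvPolynomial.IsHomogeneous.pderiv (MvPolynomial.IsHomogeneous.pderiv hG)) m,
    MvPolynomial.coeff_pderiv, MvPolynomial.coeff_pderiv, Finsupp.single_eq_of_ne hi,
    Finsupp.add_apply, Finsupp.single_eq_of_ne hi, Finsupp.single_eq_same, Nat.sub_sub]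
  push_cast
  ring

/-- The linear substitution with matrix `T`. -/
noncomputable def lsub {R : Type} [CommRing R] (T : Matrix (Fin (n + 1)) (Fin (n + 1)) R)
    (F : MvPolynomial (Fin (n + 1)) R) : MvPolynomial (Fin (n + 1)) R :=
  aeval (fun i => ∑ j, C (T i j) * X j) F

theorem lsub_hom {R : Type} [CommRing R] (T : Matrix (Fin (n + 1)) (Fin (n + 1)) R)
    {F : MvPolynomial (Fin (n + 1)) R} (hF : F.IsHomogeneous d) :
    (lsub T F).IsHomogeneous d := by
  unfold lsub
  have h1 := hF.aeval (fun i => ∑ j, C (T i j) * X j : Fin (n + 1) →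
    MvPolynomial (Fin (n + 1)) R) (n := 1) (fun i => by
      refine MvPolynomial.IsHomogeneous.sum _ _ _ fun j _ => ?_
      have h2 := (MvPolynomial.isHomogeneous_C (Fin (n + 1)) (T i j)).mul
        (MvPolynomial.isHomogeneous_X R j)
      rwa [zero_add] at h2)
  rwa [one_mul] at h1

/-- Proof: `aeval (X_i ↦ ∑ T' i j X_j)` of `∑ T i j X_j` is `∑ (T T') i k X_k = X_i`. -/
theorem lsub_lsub {R : Type} [CommRing R] {T T' : Matrix (Fin (n + 1)) (Fin (n + 1)) R}
    (h : T * T' = 1) (F : MvPolynomial (Fin (n + 1)) R) : lsub T' (lsub T F) = F := by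
  unfold lsub
  have h1 : (aeval (fun i => ∑ j, C (T' i j) * X j) :
      MvPolynomial (Fin (n + 1)) R →ₐ[R] MvPolynomial (Fin (n + 1)) R).comp
      (aeval (fun i => ∑ j, C (T i j) * X j)) = AlgHom.id R _ := by
    refine MvPolynomial.algHom_ext fun i => ?_
    rw [AlgHom.comp_apply, aeval_X, map_sum, AlgHom.id_apply]
    have h2 : ∀ j, aeval (fun i => ∑ j, C (T' i j) * X j) (C (T i j) * X j :
        MvPolynomial (Fin (n + 1)) R) = ∑ k, C (T i j * T' j k) * (X k :
          MvPolynomial (Fin (n + 1)) R) := by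
      intro j
      rw [map_mul, aeval_X, MvPolynomial.algHom_C, MvPolynomial.algebraMap_eq, Finset.mul_sum]
      refine Finset.sum_congr rfl fun k _ => ?_
      rw [C_mul, mul_assoc]
    rw [Finset.sum_congr rfl fun j _ => h2 j, Finset.sum_comm]
    have h3 : ∀ k, ∑ j, C (T i j * T' j k) * (X k : MvPolynomial (Fin (n + 1)) R)
        = C ((1 : Matrix (Fin (n + 1)) (Fin (n + 1)) R) i k) * X k := by
      intro k
      rw [← h, Matrix.mul_apply, map_sum, Finset.sum_mul]
    rw [Finset.sum_congr rfl fun k _ => h3 k, Finset.sum_eq_single i]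
    · rw [Matrix.one_apply_eq, C_1, one_mul]
    · intro k _ hk
      rw [Matrix.one_apply_ne (Ne.symm hk), C_0, zero_mul]
    · intro h; exact absurd (Finset.mem_univ i) h
  exact AlgHom.congr_fun h1 F

theorem lsub_eval (T : Matrix (Fin (n + 1)) (Fin (n + 1)) L)
    (F : MvPolynomial (Fin (n + 1)) L) (y : Fin (n + 1) → L) :
    aeval y (lsub T F) = aeval (T.mulVec y) F := by
  unfold lsub
  have h1 : (aeval y : MvPolynomial (Fin (n + 1)) L →ₐ[L] L).comp
      (aeval (fun i => ∑ j, C (T i j) * X j)) = aeval (T.mulVec y) := by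
    refine MvPolynomial.algHom_ext fun i => ?_
    rw [AlgHom.comp_apply, aeval_X, aeval_X, map_sum, Matrix.mulVec, dotProduct]
    refine Finset.sum_congr rfl fun j _ => ?_
    rw [map_mul, aeval_X, MvPolynomial.algHom_C]
    rfl
  exact AlgHom.congr_fun h1 F

/-- Chain rule. -/
theorem lsub_der (T : Matrix (Fin (n + 1)) (Fin (n + 1)) L)
    (F : MvPolynomial (Fin (n + 1)) L) (j : Fin (n + 1)) :
    pderiv j (lsub T F) = ∑ i, C (T i j) * lsub T (pderiv i F) := by
  classical
  unfold lsub
  induction F using MvPolynomial.induction_on with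
  | C a =>
    rw [MvPolynomial.algHom_C, MvPolynomial.algebraMap_eq, pderiv_C]
    symm
    refine Finset.sum_eq_zero fun i _ => ?_
    rw [pderiv_C, map_zero, mul_zero]
  | add p q hp hq =>
    rw [map_add, map_add, hp, hq, ← Finset.sum_add_distrib]
    refine Finset.sum_congr rfl fun i _ => ?_
    rw [map_add, map_add, mul_add]
  | mul_X p l hp =>
    rw [map_mul, pderiv_mul, hp, aeval_X]
    have h1 : pderiv j (∑ k, C (T l k) * X k : MvPolynomial (Fin (n + 1)) L) = C (T l j) := by
      rw [map_sum, Finset.sum_eq_single j]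
      · rw [pderiv_C_mul, pderiv_X_self, mul_one]
      · intro k _ hk
        rw [pderiv_C_mul, pderiv_X_of_ne hk, mul_zero]
      · intro h; exact absurd (Finset.mem_univ j) h
    rw [h1]
    have h2 : ∀ i, C (T i j) * aeval (fun i => ∑ j, C (T i j) * X j)
        (pderiv i (p * X l) : MvPolynomial (Fin (n + 1)) L)
        = C (T i j) * aeval (fun i => ∑ j, C (T i j) * X j) (pderiv i p)
            * (∑ k, C (T l k) * X k) +
          (if i = l then C (T i j) * aeval (fun i => ∑ j, C (T i j) * X j) p else 0) := by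
      intro i
      rw [pderiv_mul, map_add, map_mul, map_mul, aeval_X, mul_add]
      by_cases hil : i = l
      · subst hil
        rw [if_pos rfl, pderiv_X_self, map_one, mul_one, mul_assoc]
      · rw [if_neg hil, pderiv_X_of_ne (Ne.symm hil), map_zero, mul_zero, mul_zero, mul_assoc]
    rw [Finset.sum_congr rfl fun i _ => h2 i, Finset.sum_add_distrib, Finset.sum_mul,
      Finset.sum_ite_eq' Finset.univ l, if_pos (Finset.mem_univ l)]
    ring

end Pool.Agent.EvM
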