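import Mathlib

set_option autoImplicit false

/-! # EkF: kernel vectors of a matrix of corank at least two -/

namespace Pool.Agent.EvM

/-- Proof. The kernel of `H` has dimension `≥ 2`. Take `v ≠ 0` in it, `v a = 1` after scaling; the subspace of the kernel with `v a = 0` is not zero: take `w ≠ 0` in it, `w b = 1` after
scaling, `b ≠ a`; replace `v` by `v - v b • w`. -/
theorem exists_kernel {I : Type} [Fintype I] [DecidableEq I] {L : Type} [Field L]
    (H : Matrix I I L) (h : H.rank + 2 ≤ Fintype.card I) :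
    ∃ a b, a ≠ b ∧ ∃ v w : I → L, H.mulVec v = 0 ∧ H.mulVec w = 0 ∧ v a = 1 ∧ v b = 0 ∧
      w a = 0 ∧ w b = 1 := by
  have h1 := LinearMap.finrank_range_add_finrank_ker H.mulVecLin
  rw [Module.finrank_fintype_fun_eq_card] at h1
  have h2 : 2 ≤ Module.finrank L (LinearMap.ker H.mulVecLin) := by
    unfold Matrix.rank at h
    omega
  have hnt : Nontrivial (LinearMap.ker H.mulVecLin) := (Module.finrank_pos_iff (R := L)).1 (by omega)
  obtain ⟨⟨v, hv⟩, hv0⟩ := exists_ne (0 : LinearMap.ker H.mulVecLin)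
  obtain ⟨a, ha⟩ : ∃ a, v a ≠ 0 := by
    by_contra hcon
    push Not at hcon
    exact hv0 (Subtype.ext (funext hcon))
  let ψ : LinearMap.ker H.mulVecLin →ₗ[L] L :=
    (LinearMap.proj a) ∘ₗ (LinearMap.ker H.mulVecLin).subtype
  have h3 := LinearMap.finrank_range_add_finrank_ker ψ
  have h4 : Module.finrank L (LinearMap.range ψ) ≤ 1 := by
    have := Submodule.finrank_le (LinearMap.range ψ)
    rwa [Module.finrank_self] at this
  have hnt2 : Nontrivial (LinearMap.ker ψ) := (Module.finrank_pos_iff (R := L)).1 (by omega)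
  obtain ⟨⟨⟨w, hw⟩, hwψ⟩, hw0⟩ := exists_ne (0 : LinearMap.ker ψ)
  obtain ⟨b, hb⟩ : ∃ b, w b ≠ 0 := by
    by_contra hcon
    push Not at hcon
    exact hw0 (Subtype.ext (Subtype.ext (funext hcon)))
  have hwa : w a = 0 := hwψ
  have hvk : H.mulVec v = 0 := hv
  have hwk : H.mulVec w = 0 := hw
  refine ⟨a, b, ?_, (v a)⁻¹ • v - ((v a)⁻¹ * v b) • ((w b)⁻¹ • w), (w b)⁻¹ • w, ?_, ?_, ?_, ?_, ?_,
    ?_⟩
  · rintro rfl
    exact hb hwa
  · rw [Matrix.mulVec_sub, Matrix.mulVec_smul, Matrix.mulVec_smul, Matrix.mulVec_smul, hvk, hwk]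
    simp
  · rw [Matrix.mulVec_smul, hwk, smul_zero]
  · simp [hwa, ha]
  · simp only [Pi.sub_apply, Pi.smul_apply, smul_eq_mul]
    field_simp
    ring
  · simp [hwa]
  · simp [hb]

end Pool.Agent.EvM
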