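import Pool.Agent.EvM.EkE

set_option autoImplicit false

/-! # EkG: polynomial parametrisations of families of forms -/

namespace Pool.Agent.EvM

open MvPolynomial Pool.Agent.NH

/-- a substitution commutes with a change of the ring of coefficients -/
private theorem ekG_map_lsub {R R' : Type} [CommRing R] [CommRing R'] (Φ : R →+* R') {n : ℕ}
    (T : Matrix (Fin (n + 1)) (Fin (n + 1)) R) (F : MvPolynomial (Fin (n + 1)) R) :
    map Φ (lsub T F) = lsub (T.map Φ) (map Φ F) := by
  have h : (map Φ).comp (aeval (fun i => ∑ j, C (T i j) * X j) :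
        MvPolynomial (Fin (n + 1)) R →ₐ[R] MvPolynomial (Fin (n + 1)) R).toRingHom =
      (aeval (fun i => ∑ j, C ((T.map Φ) i j) * X j) :
        MvPolynomial (Fin (n + 1)) R' →ₐ[R'] MvPolynomial (Fin (n + 1)) R').toRingHom.comp
        (map Φ) := by
    apply MvPolynomial.ringHom_ext
    · intro a
      simp
    · intro i
      simp
  exact congrArg (fun f => f F) h

/-- Forms `toF c = toF c'' ∘ T' + e`, where the coefficients `c'' β`, `β ∈ S`, are zero, and `T'`, `e` depend polynomially on parameters. Proof. `W = {β // β ∉ S} ⊕ E`,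
`φ α = coeff α.1 (∑ β : {β // β ∉ S}, C (X (inl β)) * ∏ i, (∑ j, C (rename inr (T' i j)) * X j) ^ (β i) + map (rename inr) e)`; `w = Sum.elim (fun β => c'' β) ε`. Compare the
coefficients of the image under `map (aeval w)`. -/
theorem gen_param {n d : ℕ} {E : Type} (S : Finset (Mon n d))
    (T' : Matrix (Fin (n + 1)) (Fin (n + 1)) (MvPolynomial E ℤ))
    (e : MvPolynomial (Fin (n + 1)) (MvPolynomial E ℤ)) :
    ∃ φ : Mon n d → MvPolynomial ({β : Mon n d // β ∉ S} ⊕ E) ℤ, ∀ (L : Type) [Field L]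
      (ε : E → L) (c c'' : Mon n d → L), (∀ β ∈ S, c'' β = 0) →
      toF c = lsub (T'.map fun t => aeval ε t) (toF c'') +
        map (aeval ε : MvPolynomial E ℤ →ₐ[ℤ] L).toRingHom e →
      ∃ w : {β : Mon n d // β ∉ S} ⊕ E → L, ∀ α, c α = aeval w (φ α) := by
  classical
  let ri : MvPolynomial E ℤ →+* MvPolynomial ({β : Mon n d // β ∉ S} ⊕ E) ℤ :=
    (rename Sum.inr : MvPolynomial E ℤ →ₐ[ℤ] _).toRingHom
  let ct : Mon n d → MvPolynomial ({β : Mon n d // β ∉ S} ⊕ E) ℤ :=
    fun β => if h : β ∉ S then X (Sum.inl ⟨β, h⟩) else 0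
  refine ⟨fun α => coeff α.1 (lsub (T'.map ri) (toF ct) + map ri e), ?_⟩
  intro L _ ε c c'' hS hc
  refine ⟨Sum.elim (fun β => c'' β.1) ε, ?_⟩
  set w : {β : Mon n d // β ∉ S} ⊕ E → L := Sum.elim (fun β => c'' β.1) ε with hw
  let Φ : MvPolynomial ({β : Mon n d // β ∉ S} ⊕ E) ℤ →+* L :=
    (aeval w : MvPolynomial ({β : Mon n d // β ∉ S} ⊕ E) ℤ →ₐ[ℤ] L).toRingHom
  have hΦ : ∀ t, Φ t = aeval w t := fun t => rfl
  have hri : ∀ t : MvPolynomial E ℤ, Φ (ri t) = aeval ε t := by
    intro t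
    show aeval w (rename Sum.inr t) = aeval ε t
    rw [aeval_rename]
    rfl
  have h1 : map Φ (lsub (T'.map ri) (toF ct)) = lsub (T'.map fun t => aeval ε t) (toF c'') := by
    rw [ekG_map_lsub, map_toF]
    have h2 : (T'.map ri).map Φ = T'.map fun t => aeval ε t := by
      ext i j
      exact hri _
    have h3 : (fun α => Φ (ct α)) = c'' := by
      funext α
      by_cases h : α ∈ S
      · have : ct α = 0 := dif_neg (not_not.2 h)
        rw [this, map_zero, hS α h]
      · have : ct α = X (Sum.inl ⟨α, h⟩) := dif_pos h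
        rw [this, hΦ, aeval_X]
        rfl
    rw [h2, h3]
  have h4 : map Φ (map ri e) = map (aeval ε : MvPolynomial E ℤ →ₐ[ℤ] L).toRingHom e := by
    have h5 : Φ.comp ri = (aeval ε : MvPolynomial E ℤ →ₐ[ℤ] L).toRingHom := RingHom.ext hri
    rw [map_map, h5]
  intro α
  rw [← hΦ, ← coeff_map, map_add, h1, h4, ← hc, coeff_toF]

end Pool.Agent.EvM
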