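import Pool.Agent.EvM.EkG

set_option autoImplicit false

/-! # EkH: forms with a singular point on the hyperplane `x_0 = 0` -/

namespace Pool.Agent.EvM

open MvPolynomial Pool.Agent.NH

/-- the identity matrix with the column `m` replaced by `x` -/
private def ekH_T {R : Type} [CommRing R] {n : ℕ} (m : Fin (n + 1)) (x : Fin (n + 1) → R) :
    Matrix (Fin (n + 1)) (Fin (n + 1)) R :=
  Matrix.of fun i j => (if i = j then 1 else 0) + (x i - if i = m then 1 else 0) *
    if j = m then 1 else 0

private def ekH_T' {R : Type} [CommRing R] {n : ℕ} (m : Fin (n + 1)) (x : Fin (n + 1) → R) :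
    Matrix (Fin (n + 1)) (Fin (n + 1)) R :=
  Matrix.of fun i j => (if i = j then 1 else 0) - (x i - if i = m then 1 else 0) *
    if j = m then 1 else 0

private theorem ekH_mulVec {R : Type} [CommRing R] {n : ℕ} (m : Fin (n + 1))
    (x y : Fin (n + 1) → R) (i : Fin (n + 1)) :
    (ekH_T m x).mulVec y i = y i + (x i - if i = m then 1 else 0) * y m := by
  simp [ekH_T, Matrix.mulVec, dotProduct, add_mul, Finset.sum_add_distrib]

private theorem ekH_mulVec' {R : Type} [CommRing R] {n : ℕ} (m : Fin (n + 1))
    (x y : Fin (n + 1) → R) (i : Fin (n + 1)) :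
    (ekH_T' m x).mulVec y i = y i - (x i - if i = m then 1 else 0) * y m := by
  simp [ekH_T', Matrix.mulVec, dotProduct, sub_mul, Finset.sum_sub_distrib]

private theorem ekH_mul {R : Type} [CommRing R] {n : ℕ} (m : Fin (n + 1))
    (x : Fin (n + 1) → R) (hx : x m = 1) : ekH_T m x * ekH_T' m x = 1 := by
  rw [← Matrix.mulVec_injective.eq_iff]
  funext z
  rw [← Matrix.mulVec_mulVec, Matrix.one_mulVec]
  funext i
  rw [ekH_mulVec, ekH_mulVec', ekH_mulVec', hx, if_pos rfl]
  ring

/-- the exponents `m ^ (d - 1) j` -/
private theorem ekH_mem (n d : ℕ) (hd : 2 ≤ d) (m j : Fin (n + 1)) :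
    Finsupp.single m (d - 1) + Finsupp.single j 1 ∈
      Finset.finsuppAntidiag (Finset.univ : Finset (Fin (n + 1))) d := by
  rw [FormsBAux.mem_mon, map_add, Finsupp.degree_single, Finsupp.degree_single]
  omega

private theorem ekH_card {α : Type} [Fintype α] [DecidableEq α] (S : Finset α) :
    Fintype.card {β : α // β ∉ S} + S.card = Fintype.card α := by
  rw [Fintype.card_subtype, ← Finset.card_add_card_compl S, add_comm]
  congr 2
  ext i
  simp

private theorem ekH_map {R R' : Type} [CommRing R] [CommRing R'] (Φ : R →+* R') {n : ℕ}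
    (m : Fin (n + 1)) (x : Fin (n + 1) → R) :
    (ekH_T' m x).map Φ = ekH_T' m (fun i => Φ (x i)) := by
  ext i j
  simp only [ekH_T', Matrix.map_apply, Matrix.of_apply, map_sub, map_mul]
  congr 1
  · split_ifs <;> simp
  · congr 1
    · split_ifs <;> simp
    · split_ifs <;> simp

/-- Proof. `T` = the identity matrix with the column `m` replaced by `x`; inverse `T'`: the column `m` replaced by `- x` (and `1` in the row `m`; the entry in the row `0` is `0`). `G = lsub T F`: the
coefficients at `m ^ d` and `m ^ (d - 1) j` (`j ≠ m`) are `F (x)`, `∂_j F (x)` (`coeff_one`, `coeff_two`, `lsub_der`, `lsub_eval`), so zero. `F = lsub T' G` (`lsub_lsub`). `gen_param` with `e = 0`,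
`S` = these `n + 1` exponents, `E = {i // i ≠ 0 ∧ i ≠ m}` with `n - 1` elements. -/
theorem noInf_param (n d : ℕ) (hn : 1 ≤ n) (hd : 2 ≤ d) {m : Fin (n + 1)} (hm : m ≠ 0) :
    ∃ (W : Type) (_ : Fintype W) (φ : Mon n d → MvPolynomial W ℤ),
      Fintype.card W + 2 ≤ Fintype.card (Mon n d) ∧
      ∀ (L : Type) [Field L] (c : Mon n d → L) (x : Fin (n + 1) → L), x 0 = 0 → x m = 1 →
        aeval x (toF c) = 0 → (∀ i, aeval x (pderiv i (toF c)) = 0) →
        ∃ w : W → L, ∀ α, c α = aeval w (φ α) := by
  classical
  let E : Type := {i : Fin (n + 1) // i ≠ 0 ∧ i ≠ m}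
  let xt : Fin (n + 1) → MvPolynomial E ℤ := fun i =>
    if h : i ≠ 0 ∧ i ≠ m then X ⟨i, h⟩ else if i = m then 1 else 0
  let f : Fin (n + 1) → Mon n d := fun j => ⟨_, ekH_mem n d hd m j⟩
  have hf : Function.Injective f := by
    intro i j hij
    have h1 : Finsupp.single i 1 = Finsupp.single j (1 : ℕ) :=
      add_left_cancel (congrArg Subtype.val hij)
    exact Finsupp.single_left_injective one_ne_zero h1
  let S : Finset (Mon n d) := Finset.univ.image f
  have hS : S.card = n + 1 := by
    rw [Finset.card_image_of_injective _ hf, Finset.card_univ, Fintype.card_fin]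
  obtain ⟨φ, hφ⟩ := gen_param S (ekH_T' m xt) 0
  refine ⟨{β : Mon n d // β ∉ S} ⊕ E, inferInstance, φ, ?_, ?_⟩
  · have h1 : Fintype.card E = n - 1 := by
      have h2 : Fintype.card E = (Finset.univ \ {0, m} : Finset (Fin (n + 1))).card := by
        rw [Fintype.card_subtype]
        congr 1
        ext i
        simp
      rw [h2, Finset.card_sdiff_of_subset (Finset.subset_univ _), Finset.card_univ,
        Fintype.card_fin, Finset.card_pair (Ne.symm hm)]
      omega
    have h3 := ekH_card S
    rw [hS] at h3
    have h4 : Fintype.card ({β : Mon n d // β ∉ S} ⊕ E) =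
        Fintype.card {β : Mon n d // β ∉ S} + Fintype.card E := Fintype.card_sum
    rw [h1] at h4
    omega
  · intro L _ c x hx0 hxm hx1 hx2
    obtain ⟨c'', hc''⟩ := exists_toF (lsub_hom (ekH_T m x) (toF_isHomogeneous c))
    have hT : (ekH_T m x).mulVec (Pi.single m 1) = x := by
      funext i
      rw [ekH_mulVec, Pi.single_apply, Pi.single_eq_same]
      split_ifs <;> ring
    refine hφ L (fun i => x i.1) c c'' ?_ ?_
    · intro β hβ
      obtain ⟨j, _, rfl⟩ := Finset.mem_image.1 hβ
      rw [← coeff_toF c'' (f j), hc'']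
      have hder : aeval (Pi.single m (1 : L)) (pderiv j (lsub (ekH_T m x) (toF c))) = 0 := by
        rw [lsub_der, map_sum]
        refine Finset.sum_eq_zero fun i _ => ?_
        rw [map_mul, lsub_eval, hT, hx2, mul_zero]
      show coeff (Finsupp.single m (d - 1) + Finsupp.single j 1) (lsub (ekH_T m x) (toF c)) = 0
      by_cases hj : j = m
      · subst hj
        have h5 : Finsupp.single j (d - 1) + Finsupp.single j 1 = Finsupp.single j d := by
          rw [← Finsupp.single_add]
          congr 1
          omega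
        rw [h5, ← coeff_one (lsub_hom (ekH_T j x) (toF_isHomogeneous c)), lsub_eval, hT, hx1]
      · rw [← coeff_two (lsub_hom (ekH_T m x) (toF_isHomogeneous c)) (by omega) hj, hder]
    · have h7 : ∀ i, aeval (fun i : E => x i.1) (xt i) = x i := by
        intro i
        by_cases h : i ≠ 0 ∧ i ≠ m
        · have : xt i = X ⟨i, h⟩ := dif_pos h
          rw [this, aeval_X]
        · have h8 : xt i = if i = m then 1 else 0 := dif_neg h
          rw [h8]
          by_cases h9 : i = m
          · rw [if_pos h9, map_one, h9, hxm]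
          · rw [if_neg h9, map_zero]
            have : i = 0 := by
              by_contra h0
              exact h ⟨h0, h9⟩
            rw [this, hx0]
      have h6 : ((ekH_T' m xt).map fun t => aeval (fun i : E => x i.1) t) = ekH_T' m x := by
        have h8 := ekH_map (aeval (fun i : E => x i.1) : MvPolynomial E ℤ →ₐ[ℤ] L).toRingHom m xt
        have h9 : (fun i => (aeval (fun i : E => x i.1) : MvPolynomial E ℤ →ₐ[ℤ] L).toRingHom
            (xt i)) = x := funext h7
        rw [h9] at h8
        exact h8
      have h10 : lsub (ekH_T' m x) (toF c'') = toF c := by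
        rw [hc'']
        exact lsub_lsub (ekH_mul m x hxm) (toF c)
      rw [h6, h10]
      have h11 : map (aeval (fun i : E => x i.1) : MvPolynomial E ℤ →ₐ[ℤ] L).toRingHom
          (0 : MvPolynomial (Fin (n + 1)) (MvPolynomial E ℤ)) = 0 := RingHom.map_zero _
      exact ((congrArg (fun t => toF c + t) h11).trans (add_zero _)).symm

end Pool.Agent.EvM
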