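import Pool.Agent.EvM.EkG

set_option autoImplicit false

/-! # EkI: forms with a point of the polar curve at which the Hessian matrix has corank two -/

namespace Pool.Agent.EvM

open MvPolynomial Pool.Agent.NH

/-- the indicator -/
private def ekI_d {R : Type} [CommRing R] {n : ℕ} (i j : Fin (n + 1)) : R := if i = j then 1 else 0

/-- the identity matrix with the columns `0, a, b` replaced by `x, v, w` -/
private def ekI_T {R : Type} [CommRing R] {n : ℕ} (a b : Fin (n + 1)) (x v w : Fin (n + 1) → R) :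
    Matrix (Fin (n + 1)) (Fin (n + 1)) R :=
  Matrix.of fun i j => ekI_d i j + (x i - ekI_d i 0) * ekI_d j 0 + (v i - ekI_d i a) * ekI_d j a +
    (w i - ekI_d i b) * ekI_d j b

private def ekI_T' {R : Type} [CommRing R] {n : ℕ} (a b : Fin (n + 1)) (x v w : Fin (n + 1) → R) :
    Matrix (Fin (n + 1)) (Fin (n + 1)) R :=
  Matrix.of fun i j => ekI_d i j - (x i - ekI_d i 0) * ekI_d j 0 -
    (v i - ekI_d i a) * (ekI_d j a - x a * ekI_d j 0) -
    (w i - ekI_d i b) * (ekI_d j b - x b * ekI_d j 0)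

private theorem ekI_sum {R : Type} [CommRing R] {n : ℕ} (c : Fin (n + 1)) (y : Fin (n + 1) → R) :
    ∑ j, ekI_d j c * y j = y c := by
  simp [ekI_d]

private theorem ekI_sum' {R : Type} [CommRing R] {n : ℕ} (c : Fin (n + 1)) (y : Fin (n + 1) → R) :
    ∑ j, ekI_d c j * y j = y c := by
  simp [ekI_d]

private theorem ekI_mulVec {R : Type} [CommRing R] {n : ℕ} (a b : Fin (n + 1))
    (x v w y : Fin (n + 1) → R) (i : Fin (n + 1)) :
    (ekI_T a b x v w).mulVec y i = y i + (x i - ekI_d i 0) * y 0 + (v i - ekI_d i a) * y a +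
      (w i - ekI_d i b) * y b := by
  simp only [ekI_T, Matrix.mulVec, dotProduct, Matrix.of_apply, add_mul, Finset.sum_add_distrib,
    mul_assoc, ← Finset.mul_sum, ekI_sum, ekI_sum']

private theorem ekI_mulVec' {R : Type} [CommRing R] {n : ℕ} (a b : Fin (n + 1))
    (x v w y : Fin (n + 1) → R) (i : Fin (n + 1)) :
    (ekI_T' a b x v w).mulVec y i = y i - (x i - ekI_d i 0) * y 0 -
      (v i - ekI_d i a) * (y a - x a * y 0) - (w i - ekI_d i b) * (y b - x b * y 0) := by
  simp only [ekI_T', Matrix.mulVec, dotProduct, Matrix.of_apply, sub_mul, Finset.sum_sub_distrib,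
    mul_assoc, ← Finset.mul_sum, ekI_sum, ekI_sum', mul_sub]

private theorem ekI_mul {R : Type} [CommRing R] {n : ℕ} {a b : Fin (n + 1)} (ha : a ≠ 0)
    (hb : b ≠ 0) (hab : a ≠ b) (x v w : Fin (n + 1) → R) (hx : x 0 = 1) (hv0 : v 0 = 0)
    (hva : v a = 1) (hvb : v b = 0) (hw0 : w 0 = 0) (hwa : w a = 0) (hwb : w b = 1) :
    ekI_T a b x v w * ekI_T' a b x v w = 1 := by
  rw [← Matrix.mulVec_injective.eq_iff]
  funext z
  rw [← Matrix.mulVec_mulVec, Matrix.one_mulVec]
  funext i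
  have e00 : (ekI_d (0 : Fin (n + 1)) 0 : R) = 1 := if_pos rfl
  have eaa : (ekI_d a a : R) = 1 := if_pos rfl
  have ebb : (ekI_d b b : R) = 1 := if_pos rfl
  have e0a : (ekI_d 0 a : R) = 0 := if_neg (Ne.symm ha)
  have e0b : (ekI_d 0 b : R) = 0 := if_neg (Ne.symm hb)
  have ea0 : (ekI_d a 0 : R) = 0 := if_neg ha
  have eb0 : (ekI_d b 0 : R) = 0 := if_neg hb
  have eab : (ekI_d a b : R) = 0 := if_neg hab
  have eba : (ekI_d b a : R) = 0 := if_neg (Ne.symm hab)
  rw [ekI_mulVec, ekI_mulVec', ekI_mulVec', ekI_mulVec', ekI_mulVec']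
  simp only [hx, hv0, hva, hvb, hw0, hwa, hwb, e00, eaa, ebb, e0a, e0b, ea0, eb0, eab, eba]
  ring

private theorem ekI_map {R R' : Type} [CommRing R] [CommRing R'] (Φ : R →+* R') {n : ℕ}
    (a b : Fin (n + 1)) (x v w : Fin (n + 1) → R) :
    (ekI_T' a b x v w).map Φ =
      ekI_T' a b (fun i => Φ (x i)) (fun i => Φ (v i)) (fun i => Φ (w i)) := by
  have hd : ∀ i j : Fin (n + 1), Φ (ekI_d i j) = ekI_d i j := by
    intro i j
    unfold ekI_d
    split_ifs <;> simp
  ext i j
  simp only [ekI_T', Matrix.map_apply, Matrix.of_apply, map_sub, map_mul, hd]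

private theorem ekI_card {α : Type} [Fintype α] [DecidableEq α] (S : Finset α) :
    Fintype.card {β : α // β ∉ S} + S.card = Fintype.card α := by
  rw [Fintype.card_subtype, ← Finset.card_add_card_compl S, add_comm]
  congr 2
  ext i
  simp

/-- the exponents `0 ^ (d - 2) i j` -/
private theorem ekI_mem (n d : ℕ) (hd : 2 ≤ d) (i j : Fin (n + 1)) :
    Finsupp.single 0 (d - 2) + Finsupp.single i 1 + Finsupp.single j 1 ∈
      Finset.finsuppAntidiag (Finset.univ : Finset (Fin (n + 1))) d := by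
  rw [FormsBAux.mem_mon, map_add, map_add, Finsupp.degree_single, Finsupp.degree_single,
    Finsupp.degree_single]
  omega

/-- the exponents of the vanishing coefficients -/
private noncomputable def ekI_f (n d : ℕ) (hd : 2 ≤ d) (a b : Fin (n + 1)) :
    {i : Fin (n + 1) // i ≠ 0} ⊕ {i : Fin (n + 1) // i ≠ 0} ⊕
      {i : Fin (n + 1) // i ≠ 0 ∧ i ≠ a} → Mon n d
  | .inl j => ⟨_, ekI_mem n d hd 0 j.1⟩
  | .inr (.inl j) => ⟨_, ekI_mem n d hd a j.1⟩
  | .inr (.inr j) => ⟨_, ekI_mem n d hd b j.1⟩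

private theorem ekI_inj (n d : ℕ) (hd : 2 ≤ d) {a b : Fin (n + 1)} (ha : a ≠ 0) (hb : b ≠ 0)
    (hab : a ≠ b) : Function.Injective (ekI_f n d hd a b) := by
  classical
  have h0 : ∀ i j k l : Fin (n + 1), Finsupp.single 0 (d - 2) + Finsupp.single i 1 +
      Finsupp.single j 1 = Finsupp.single 0 (d - 2) + Finsupp.single k 1 + Finsupp.single l (1 : ℕ) →
      ∀ t : Fin (n + 1), ((if i = t then 1 else 0) + (if j = t then 1 else 0) : ℕ) =
        (if k = t then 1 else 0) + (if l = t then 1 else 0) := by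
    intro i j k l h t
    have h1 := DFunLike.congr_fun h t
    simp only [Finsupp.add_apply, Finsupp.single_apply] at h1
    omega
  have hsame : ∀ c : Fin (n + 1), ∀ i j : Fin (n + 1), Finsupp.single 0 (d - 2) +
      Finsupp.single c 1 + Finsupp.single i 1 = Finsupp.single 0 (d - 2) + Finsupp.single c 1 +
      Finsupp.single j (1 : ℕ) → i = j := by
    intro c i j h
    exact Finsupp.single_left_injective one_ne_zero (add_left_cancel h)
  rintro (⟨i, hi⟩ | ⟨i, hi⟩ | ⟨i, hi, hi'⟩) (⟨j, hj⟩ | ⟨j, hj⟩ | ⟨j, hj, hj'⟩) h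
  · have h1 := hsame 0 i j (congrArg Subtype.val h)
    subst h1
    rfl
  · exfalso
    have h1 := h0 _ _ _ _ (congrArg Subtype.val h) 0
    rw [if_pos rfl, if_neg hi, if_neg ha, if_neg hj] at h1
    omega
  · exfalso
    have h1 := h0 _ _ _ _ (congrArg Subtype.val h) 0
    rw [if_pos rfl, if_neg hi, if_neg hb, if_neg hj] at h1
    omega
  · exfalso
    have h1 := h0 _ _ _ _ (congrArg Subtype.val h) 0
    rw [if_neg ha, if_neg hi, if_pos rfl, if_neg hj] at h1
    omega
  · have h1 := hsame a i j (congrArg Subtype.val h)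
    subst h1
    rfl
  · exfalso
    have h1 := h0 _ _ _ _ (congrArg Subtype.val h) a
    rw [if_pos rfl, if_neg (Ne.symm hab), if_neg hj'] at h1
    omega
  · exfalso
    have h1 := h0 _ _ _ _ (congrArg Subtype.val h) 0
    rw [if_neg hb, if_neg hi, if_pos rfl, if_neg hj] at h1
    omega
  · exfalso
    have h1 := h0 _ _ _ _ (congrArg Subtype.val h) a
    rw [if_pos rfl, if_neg (Ne.symm hab), if_neg hi'] at h1
    omega
  · have h1 := hsame b i j (congrArg Subtype.val h)
    subst h1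
    rfl

/-- the derivatives of the form after the substitution -/
private theorem ekI_van {L : Type} [Field L] {n d : ℕ} (hd : 2 ≤ d) {a b : Fin (n + 1)}
    (ha : a ≠ 0) (hb : b ≠ 0) (hab : a ≠ b) (h2 : (2 : L) ≠ 0)
    {F : MvPolynomial (Fin (n + 1)) L} (hF : F.IsHomogeneous d) (x v w : Fin (n + 1) → L)
    (hx0 : x 0 = 1) (hx : ∀ i, i ≠ 0 → aeval x (pderiv i F) = 0)
    (hv0 : v 0 = 0) (hva : v a = 1) (hvb : v b = 0) (hw0 : w 0 = 0) (hwa : w a = 0) (hwb : w b = 1)
    (hv : ∀ i, i ≠ 0 → ∑ j, aeval x (pderiv i (pderiv j F)) * v j = 0)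
    (hw : ∀ i, i ≠ 0 → ∑ j, aeval x (pderiv i (pderiv j F)) * w j = 0)
    (t : {i : Fin (n + 1) // i ≠ 0} ⊕ {i : Fin (n + 1) // i ≠ 0} ⊕
      {i : Fin (n + 1) // i ≠ 0 ∧ i ≠ a}) :
    coeff (ekI_f n d hd a b t).1 (lsub (ekI_T a b x v w) F) = 0 := by
  classical
  obtain ⟨T, hT⟩ : ∃ T, T = ekI_T a b x v w := ⟨_, rfl⟩
  have hG := lsub_hom T hF
  -- the columns of `T`
  have e00 : (ekI_d (0 : Fin (n + 1)) 0 : L) = 1 := if_pos rfl
  have hT0 : ∀ j, j ≠ 0 → T 0 j = 0 := by
    intro j hj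
    have e1 : (ekI_d (0 : Fin (n + 1)) j : L) = 0 := if_neg (Ne.symm hj)
    have e2 : (ekI_d (0 : Fin (n + 1)) a : L) = 0 := if_neg (Ne.symm ha)
    have e3 : (ekI_d (0 : Fin (n + 1)) b : L) = 0 := if_neg (Ne.symm hb)
    rw [hT, ekI_T, Matrix.of_apply, e00, e1, e2, e3, hx0, hv0, hw0]
    ring
  have hTa : ∀ i, T i a = v i := by
    intro i
    have e1 : (ekI_d a a : L) = 1 := if_pos rfl
    have e2 : (ekI_d a 0 : L) = 0 := if_neg ha
    have e3 : (ekI_d a b : L) = 0 := if_neg hab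
    rw [hT, ekI_T, Matrix.of_apply, e1, e2, e3]
    ring
  have hTb : ∀ i, T i b = w i := by
    intro i
    have e1 : (ekI_d b b : L) = 1 := if_pos rfl
    have e2 : (ekI_d b 0 : L) = 0 := if_neg hb
    have e3 : (ekI_d b a : L) = 0 := if_neg (Ne.symm hab)
    rw [hT, ekI_T, Matrix.of_apply, e1, e2, e3]
    ring
  have hTx : T.mulVec (Pi.single 0 1) = x := by
    funext i
    rw [hT, ekI_mulVec]
    have e1 : (Pi.single 0 (1 : L) : Fin (n + 1) → L) i = ekI_d i 0 := by
      rw [Pi.single_apply]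
      rfl
    have e2 : (Pi.single 0 (1 : L) : Fin (n + 1) → L) a = 0 := Pi.single_eq_of_ne ha _
    have e3 : (Pi.single 0 (1 : L) : Fin (n + 1) → L) b = 0 := Pi.single_eq_of_ne hb _
    rw [e1, e2, e3, Pi.single_eq_same]
    ring
  have h1 : ∀ j, j ≠ 0 → aeval (Pi.single 0 (1 : L)) (pderiv j (lsub T F)) = 0 := by
    intro j hj
    rw [lsub_der, map_sum]
    refine Finset.sum_eq_zero fun i _ => ?_
    rw [map_mul, lsub_eval, hTx]
    by_cases hi : i = 0
    · rw [hi, hT0 j hj, C_0, map_zero, zero_mul]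
    · rw [hx i hi, mul_zero]
  -- second derivatives
  have h3 : ∀ (u : Fin (n + 1) → L) (c i : Fin (n + 1)), (∀ l, T l c = u l) → i ≠ 0 →
      (∀ k, k ≠ 0 → ∑ l, aeval x (pderiv k (pderiv l F)) * u l = 0) →
      aeval (Pi.single 0 (1 : L)) (pderiv i (pderiv c (lsub T F))) = 0 := by
    intro u c i hu hi hk
    have h4 : pderiv i (pderiv c (lsub T F)) =
        ∑ l, C (T l c) * ∑ k, C (T k i) * lsub T (pderiv k (pderiv l F)) := by
      rw [lsub_der, map_sum]
      refine Finset.sum_congr rfl fun l _ => ?_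
      rw [pderiv_C_mul, lsub_der]
    rw [h4, map_sum]
    have h5 : ∀ l ∈ Finset.univ, aeval (Pi.single 0 (1 : L)) (C (T l c) * ∑ k, C (T k i) *
        lsub T (pderiv k (pderiv l F))) =
        ∑ k, T k i * (aeval x (pderiv k (pderiv l F)) * u l) := by
      intro l _
      rw [map_mul, map_sum, Finset.mul_sum]
      refine Finset.sum_congr rfl fun k _ => ?_
      rw [map_mul, lsub_eval, hTx, aeval_C, aeval_C, hu]
      simp only [Algebra.algebraMap_self, RingHom.id_apply]
      ring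
    rw [Finset.sum_congr rfl h5, Finset.sum_comm]
    refine Finset.sum_eq_zero fun k _ => ?_
    rw [← Finset.mul_sum]
    by_cases hk0 : k = 0
    · rw [hk0, hT0 i hi, zero_mul]
    · rw [hk k hk0, mul_zero]
  have h6 : ∀ c i, c ≠ 0 → i ≠ 0 →
      aeval (Pi.single 0 (1 : L)) (pderiv i (pderiv c (lsub T F))) = 0 →
      coeff (Finsupp.single 0 (d - 2) + Finsupp.single c 1 + Finsupp.single i 1) (lsub T F) = 0 := by
    intro c i hc hi h
    by_cases hci : i = c
    · rw [hci] at h ⊢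
      rw [coeff_four hG hd hc] at h
      exact (mul_eq_zero.1 h).resolve_left h2
    · rw [coeff_three hG hd hi hc hci] at h
      rw [add_right_comm]
      exact h
  rw [← hT]
  rcases t with ⟨j, hj⟩ | ⟨j, hj⟩ | ⟨j, hj, hj'⟩
  · show coeff (Finsupp.single 0 (d - 2) + Finsupp.single 0 1 + Finsupp.single j 1) (lsub T F) = 0
    have h7 : Finsupp.single (0 : Fin (n + 1)) (d - 2) + Finsupp.single 0 1 =
        Finsupp.single 0 (d - 1) := by
      rw [← Finsupp.single_add]
      congr 1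
      omega
    rw [h7, ← coeff_two hG (by omega) hj]
    exact h1 j hj
  · exact h6 a j ha hj (h3 v a j hTa hj hv)
  · exact h6 b j hb hj (h3 w b j hTb hj hw)

/-- the correction by `b₁ X_0 ^ (d - 1) X_1` -/
private theorem ekI_corr {L : Type} [Field L] {n d : ℕ} (hn : 2 ≤ n) (hd : 2 ≤ d)
    {F : MvPolynomial (Fin (n + 1)) L} (hF : F.IsHomogeneous d) (x : Fin (n + 1) → L) (b₁ : L)
    (hx0 : x 0 = 1) (hb₁ : b₁ = aeval x (pderiv 1 F))
    (hx : ∀ i, i ≠ 0 → i ≠ 1 → aeval x (pderiv i F) = 0) :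
    (F - C b₁ * X 0 ^ (d - 1) * X 1).IsHomogeneous d ∧
      (∀ i, i ≠ 0 → aeval x (pderiv i (F - C b₁ * X 0 ^ (d - 1) * X 1)) = 0) ∧
      ∀ v : Fin (n + 1) → L, v 0 = 0 →
        (∀ i, i ≠ 0 → ∑ j, aeval x (pderiv i (pderiv j F)) * v j = 0) →
        ∀ i, i ≠ 0 → ∑ j, aeval x (pderiv i (pderiv j (F - C b₁ * X 0 ^ (d - 1) * X 1))) * v j = 0 := by
  classical
  -- the derivatives of the correction
  have hd1 : ∀ j : Fin (n + 1), j ≠ 0 →
      pderiv j (C b₁ * X 0 ^ (d - 1) * X 1 : MvPolynomial (Fin (n + 1)) L) =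
        if j = 1 then C b₁ * X 0 ^ (d - 1) else 0 := by
    intro j hj
    rw [pderiv_mul, pderiv_C_mul, pderiv_pow, pderiv_X_of_ne (Ne.symm hj), mul_zero, mul_zero,
      zero_mul, zero_add]
    by_cases h : j = 1
    · rw [if_pos h, h, pderiv_X_self, mul_one]
    · rw [if_neg h, pderiv_X_of_ne (Ne.symm h), mul_zero]
  refine ⟨?_, ?_, ?_⟩
  · refine hF.sub ?_
    have h1 : (C b₁ * X 0 ^ (d - 1) * X 1 : MvPolynomial (Fin (n + 1)) L).IsHomogeneous
        (0 + (d - 1) + 1) :=
      ((isHomogeneous_C _ _).mul (isHomogeneous_X_pow _ _)).mul (isHomogeneous_X _ _)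
    have h2 : 0 + (d - 1) + 1 = d := by omega
    rwa [h2] at h1
  · intro i hi
    rw [map_sub, map_sub, hd1 i hi]
    by_cases h : i = 1
    · rw [if_pos h, h, ← hb₁, map_mul, map_pow, aeval_C, aeval_X, hx0, one_pow, mul_one]
      simp only [Algebra.algebraMap_self, RingHom.id_apply, sub_self]
    · rw [if_neg h, map_zero, hx i hi h, sub_zero]
  · intro v hv0 hv i hi
    rw [← hv i hi]
    refine Finset.sum_congr rfl fun j _ => ?_
    by_cases hj : j = 0
    · rw [hj, hv0, mul_zero, mul_zero]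
    · rw [map_sub, map_sub, map_sub, hd1 j hj]
      have h3 : pderiv i (if j = 1 then C b₁ * X 0 ^ (d - 1) else 0 :
          MvPolynomial (Fin (n + 1)) L) = 0 := by
        split_ifs
        · rw [pderiv_C_mul, pderiv_pow, pderiv_X_of_ne (Ne.symm hi), mul_zero, mul_zero]
        · rw [map_zero]
      rw [h3, map_zero, sub_zero]

/-- Here `v`, `w` are two vectors in the kernel of the Hessian matrix in the affine variables. Proof. `b₁ = ∂_1 F (x)`, `F' = F - b₁ X_0 ^ (d - 1) X_1`: `∂_j F' (x) = 0` for all `j ≠ 0`, and the second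
derivatives in the affine variables are the same. `T` = the identity matrix with the columns `0, a, b` replaced by `x, v, w`. Inverse `T'`: row `0`: `e_0`; row `a`: `e_a - x_a e_0`; row `b`:
`e_b - x_b e_0`; row `i` (other): `e_i - v_i e_a - w_i e_b - (x_i - v_i x_a - w_i x_b) e_0`. `G = lsub T F'`: its coefficients at `0 ^ (d - 1) j` (`j ≠ 0`), at `0 ^ (d - 2) a i` and
`0 ^ (d - 2) b i` (`i ≠ 0`) vanish: `coeff_two`, `coeff_three`, `coeff_four` (`2 ≠ 0`), the chain rule (twice) and `H v = H w = 0`. `F' = lsub T' G`. `gen_param` with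
`e = C (X b₁) * X 0 ^ (d - 1) * X 1`, `S` = these exponents: `n + n + (n - 1) = 3 n - 1` of them; `E = Unit ⊕ {i // i ≠ 0} ⊕ {i // i ≠ 0, a, b} ⊕ {i // i ≠ 0, a, b}` with
`1 + n + 2 (n - 2) = 3 n - 3` elements. -/
theorem mild_param (n d : ℕ) (hn : 2 ≤ n) (hd : 2 ≤ d) {a b : Fin (n + 1)} (ha : a ≠ 0)
    (hb : b ≠ 0) (hab : a ≠ b) : ∃ (W : Type) (_ : Fintype W) (φ : Mon n d → MvPolynomial W ℤ),
      Fintype.card W + 2 ≤ Fintype.card (Mon n d) ∧
      ∀ (L : Type) [Field L] (c : Mon n d → L) (x v w : Fin (n + 1) → L), (2 : L) ≠ 0 →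
        x 0 = 1 → (∀ i, i ≠ 0 → i ≠ 1 → aeval x (pderiv i (toF c)) = 0) →
        v 0 = 0 → v a = 1 → v b = 0 → w 0 = 0 → w a = 0 → w b = 1 →
        (∀ i, i ≠ 0 → ∑ j, aeval x (pderiv i (pderiv j (toF c))) * v j = 0) →
        (∀ i, i ≠ 0 → ∑ j, aeval x (pderiv i (pderiv j (toF c))) * w j = 0) →
        ∃ w' : W → L, ∀ α, c α = aeval w' (φ α) := by
  classical
  let E0 : Type := {i : Fin (n + 1) // i ≠ 0}
  let E1 : Type := {i : Fin (n + 1) // i ≠ 0 ∧ i ≠ a ∧ i ≠ b}
  let E : Type := Unit ⊕ E0 ⊕ E1 ⊕ E1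
  let xt : Fin (n + 1) → MvPolynomial E ℤ := fun i =>
    if h : i ≠ 0 then X (Sum.inr (Sum.inl ⟨i, h⟩)) else 1
  let vt : Fin (n + 1) → MvPolynomial E ℤ := fun i =>
    if h : i ≠ 0 ∧ i ≠ a ∧ i ≠ b then X (Sum.inr (Sum.inr (Sum.inl ⟨i, h⟩)))
    else if i = a then 1 else 0
  let wt : Fin (n + 1) → MvPolynomial E ℤ := fun i =>
    if h : i ≠ 0 ∧ i ≠ a ∧ i ≠ b then X (Sum.inr (Sum.inr (Sum.inr ⟨i, h⟩)))
    else if i = b then 1 else 0
  let S : Finset (Mon n d) := Finset.univ.image (ekI_f n d hd a b)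
  -- cardinalities
  have hc0 : Fintype.card {i : Fin (n + 1) // i ≠ 0} = n := by
    rw [Fintype.card_subtype_compl, Fintype.card_fin, Fintype.card_subtype_eq]
    omega
  have hca : Fintype.card {i : Fin (n + 1) // i ≠ 0 ∧ i ≠ a} = n - 1 := by
    have h2 : Fintype.card {i : Fin (n + 1) // i ≠ 0 ∧ i ≠ a} =
        (Finset.univ \ {0, a} : Finset (Fin (n + 1))).card := by
      rw [Fintype.card_subtype]
      congr 1
      ext i
      simp
    rw [h2, Finset.card_sdiff_of_subset (Finset.subset_univ _), Finset.card_univ,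
      Fintype.card_fin, Finset.card_pair (Ne.symm ha)]
    omega
  have hc1 : Fintype.card E1 = n - 2 := by
    have h2 : Fintype.card E1 = (Finset.univ \ {0, a, b} : Finset (Fin (n + 1))).card := by
      rw [Fintype.card_subtype]
      congr 1
      ext i
      simp
    have h3 : ({0, a, b} : Finset (Fin (n + 1))).card = 3 := by
      rw [Finset.card_insert_of_notMem, Finset.card_pair hab]
      rw [Finset.mem_insert, Finset.mem_singleton]
      rintro (h | h)
      · exact ha h.symm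
      · exact hb h.symm
    rw [h2, Finset.card_sdiff_of_subset (Finset.subset_univ _), Finset.card_univ,
      Fintype.card_fin, h3]
    omega
  have hS : S.card = n + (n + (n - 1)) := by
    rw [Finset.card_image_of_injective _ (ekI_inj n d hd ha hb hab), Finset.card_univ,
      Fintype.card_sum, Fintype.card_sum, hc0, hca]
  obtain ⟨φ, hφ⟩ := gen_param S (ekI_T' a b xt vt wt)
    (C (X (Sum.inl ())) * X 0 ^ (d - 1) * X 1)
  refine ⟨{β : Mon n d // β ∉ S} ⊕ E, inferInstance, φ, ?_, ?_⟩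
  · have h3 := ekI_card S
    rw [hS] at h3
    have h4 : Fintype.card ({β : Mon n d // β ∉ S} ⊕ E) =
        Fintype.card {β : Mon n d // β ∉ S} + Fintype.card E := Fintype.card_sum
    have h5 : Fintype.card E = 1 + (n + (n - 2 + (n - 2))) := by
      have h6 : Fintype.card E = Fintype.card Unit + (Fintype.card {i : Fin (n + 1) // i ≠ 0} +
          (Fintype.card E1 + Fintype.card E1)) := by
        rw [← Fintype.card_sum, ← Fintype.card_sum, ← Fintype.card_sum]
      rw [h6, hc0, hc1, Fintype.card_unit]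
    rw [h5] at h4
    omega
  · intro L _ c x v w h2 hx0 hx hv0 hva hvb hw0 hwa hwb hv hw
    obtain ⟨b₁, hb₁⟩ : ∃ b₁, b₁ = aeval x (pderiv 1 (toF c)) := ⟨_, rfl⟩
    obtain ⟨hF', hF1, hF2⟩ := ekI_corr hn hd (toF_isHomogeneous c) x b₁ hx0 hb₁ hx
    obtain ⟨F', hF'e⟩ : ∃ F', F' = toF c - C b₁ * X 0 ^ (d - 1) * X 1 := ⟨_, rfl⟩
    rw [← hF'e] at hF' hF1 hF2
    obtain ⟨c'', hc''⟩ := exists_toF (lsub_hom (ekI_T a b x v w) hF')
    let ε : E → L := Sum.elim (fun _ => b₁) (Sum.elim (fun i => x i.1)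
      (Sum.elim (fun i => v i.1) (fun i => w i.1)))
    refine hφ L ε c c'' ?_ ?_
    · intro β hβ
      obtain ⟨t, _, rfl⟩ := Finset.mem_image.1 hβ
      rw [← coeff_toF c'' (ekI_f n d hd a b t), hc'']
      exact ekI_van hd ha hb hab h2 hF' x v w hx0 hF1 hv0 hva hvb hw0 hwa hwb (hF2 v hv0 hv)
        (hF2 w hw0 hw) t
    · have hxe : ∀ i, aeval ε (xt i) = x i := by
        intro i
        by_cases h : i ≠ 0
        · have h8 : xt i = X (Sum.inr (Sum.inl ⟨i, h⟩)) := dif_pos h
          rw [h8, aeval_X]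
          rfl
        · have h8 : xt i = 1 := dif_neg h
          rw [h8, map_one, not_not.1 h, hx0]
      have hve : ∀ i, aeval ε (vt i) = v i := by
        intro i
        by_cases h : i ≠ 0 ∧ i ≠ a ∧ i ≠ b
        · have h8 : vt i = X (Sum.inr (Sum.inr (Sum.inl ⟨i, h⟩))) := dif_pos h
          rw [h8, aeval_X]
          rfl
        · have h8 : vt i = if i = a then 1 else 0 := dif_neg h
          rw [h8]
          by_cases h9 : i = a
          · rw [if_pos h9, map_one, h9, hva]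
          · rw [if_neg h9, map_zero]
            by_cases h10 : i = 0
            · rw [h10, hv0]
            · have h11 : i = b := by
                by_contra h12
                exact h ⟨h10, h9, h12⟩
              rw [h11, hvb]
      have hwe : ∀ i, aeval ε (wt i) = w i := by
        intro i
        by_cases h : i ≠ 0 ∧ i ≠ a ∧ i ≠ b
        · have h8 : wt i = X (Sum.inr (Sum.inr (Sum.inr ⟨i, h⟩))) := dif_pos h
          rw [h8, aeval_X]
          rfl
        · have h8 : wt i = if i = b then 1 else 0 := dif_neg h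
          rw [h8]
          by_cases h9 : i = b
          · rw [if_pos h9, map_one, h9, hwb]
          · rw [if_neg h9, map_zero]
            by_cases h10 : i = 0
            · rw [h10, hw0]
            · have h11 : i = a := by
                by_contra h12
                exact h ⟨h10, h12, h9⟩
              rw [h11, hwa]
      have h6 : ((ekI_T' a b xt vt wt).map fun t => aeval ε t) = ekI_T' a b x v w := by
        have h8 := ekI_map (aeval ε : MvPolynomial E ℤ →ₐ[ℤ] L).toRingHom a b xt vt wt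
        have e1 : (fun i => (aeval ε : MvPolynomial E ℤ →ₐ[ℤ] L).toRingHom (xt i)) = x :=
          funext hxe
        have e2 : (fun i => (aeval ε : MvPolynomial E ℤ →ₐ[ℤ] L).toRingHom (vt i)) = v :=
          funext hve
        have e3 : (fun i => (aeval ε : MvPolynomial E ℤ →ₐ[ℤ] L).toRingHom (wt i)) = w :=
          funext hwe
        rw [e1, e2, e3] at h8
        exact h8
      have h10 : lsub (ekI_T' a b x v w) (toF c'') = F' := by
        rw [hc'']
        exact lsub_lsub (ekI_mul ha hb hab x v w hx0 hv0 hva hvb hw0 hwa hwb) F'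
      have h11 : map (aeval ε : MvPolynomial E ℤ →ₐ[ℤ] L).toRingHom
          (C (X (Sum.inl ())) * X 0 ^ (d - 1) * X 1 :
            MvPolynomial (Fin (n + 1)) (MvPolynomial E ℤ)) = C b₁ * X 0 ^ (d - 1) * X 1 := by
        have h12 : (aeval ε : MvPolynomial E ℤ →ₐ[ℤ] L).toRingHom (X (Sum.inl ())) = b₁ :=
          aeval_X ε (Sum.inl ())
        rw [map_mul, map_mul, map_pow, map_C, map_X, map_X, h12]
      rw [h6, h10, h11, hF'e, sub_add_cancel]

end Pool.Agent.EvM
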