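import Pool.Agent.EvM.EkD
import Pool.Agent.EvM.EkF
import Pool.Agent.EvM.EkH
import Pool.Agent.EvM.EkI
import Pool.Agent.EvM.ExDefs
import Pool.Agent.NodHyp.FormsC

set_option autoImplicit false

/-! # EkTail: the large primes -/

namespace Pool.Agent.EvM

open MvPolynomial Pool.Agent.NH Pool.Agent.NT9

/-- the form over `L` -/
private theorem ekTail_eval {n d : ℕ} {L : Type} [Field L] (c : Mon n d → ℤ)
    (G : MvPolynomial (Fin (n + 1)) ℤ → MvPolynomial (Fin (n + 1)) ℤ)
    (G' : MvPolynomial (Fin (n + 1)) L → MvPolynomial (Fin (n + 1)) L)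
    (hG : ∀ F, G' (map (Int.castRingHom L) F) = map (Int.castRingHom L) (G F))
    (x : Fin (n + 1) → L) :
    aeval x (G' (toF fun α => ((c α : ℤ) : L))) = aeval x (G (toF c)) := by
  have h1 : (toF fun α => ((c α : ℤ) : L)) = map (Int.castRingHom L) (toF c) :=
    (map_toF (Int.castRingHom L) c).symm
  rw [h1, hG]
  exact FormsCAux.aeval_map (Int.castRingHom L) (fun r => rfl) _ x

/-- Proof: `sv_tail`, `sv_mono` (`M₂ = 2`), `sv_exists` over `m` and over the pairs `(a, b)`, `sv_param`, `noInf_param`, `mild_param`. Not `NoInf F p`: a point `x ≠ 0` over `L` of characteristic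
`p`, `x 0 = 0`, scaled so that `x m = 1` (`NH.sing_scale`); `aeval x (toF c) = aeval x (toF fun α => (c α : L))` (`NH.aeval_map`, `NH.map_toF`, `pderiv_map`). Not `Mild0 F p`: `exists_kernel` for
`hessAt 0 F x`, vectors extended by `0`. -/
theorem ek_sv {n d : ℕ} (hn : 2 ≤ n) (hd : 3 ≤ d) :
    Sv (Mon n d) (fun c p => ¬ Good (toF c : MvPolynomial (Fin (n + 1)) ℤ) p) := by
  classical
  have h1 := fun m : {m : Fin (n + 1) // m ≠ 0} =>
    noInf_param n d (by omega) (by omega) (m := m.1) m.2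
  choose W1 F1 φ1 hc1 hp1 using h1
  have h2 := fun ab : {ab : Fin (n + 1) × Fin (n + 1) // ab.1 ≠ 0 ∧ ab.2 ≠ 0 ∧ ab.1 ≠ ab.2} =>
    mild_param n d hn (by omega) (a := ab.1.1) (b := ab.1.2) ab.2.1 ab.2.2.1 ab.2.2.2
  choose W2 F2 φ2 hc2 hp2 using h2
  have hS1 := sv_exists fun m => @sv_param (Mon n d) (W1 m) _ (F1 m) (hc1 m) (φ1 m)
  have hS2 := sv_exists fun ab => @sv_param (Mon n d) (W2 ab) _ (F2 ab) (hc2 ab) (φ2 ab)
  have hS : Sv (Mon n d) (fun c p => ∃ t : Bool, (if t then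
      (∃ m, ∃ (L : Type) (_ : Field L) (_ : CharP L p) (w : W1 m → L),
        ∀ α, ((c α : ℤ) : L) = aeval w (φ1 m α)) else
      (∃ ab, ∃ (L : Type) (_ : Field L) (_ : CharP L p) (w : W2 ab → L),
        ∀ α, ((c α : ℤ) : L) = aeval w (φ2 ab α)))) := by
    refine sv_exists fun t => ?_
    rcases t with _ | _
    · exact hS2
    · exact hS1
  refine sv_mono 2 ?_ hS
  intro p hp hp2' c hc
  rw [Good, not_and_or] at hc
  rcases hc with hc | hc
  · refine ⟨true, ?_⟩
    rw [if_pos rfl]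
    unfold NoInf at hc
    push Not at hc
    obtain ⟨L, iF, iC, x, hx0, hxF, hxd, hxne⟩ := hc
    obtain ⟨m, hm⟩ : ∃ m, x m ≠ 0 := by
      by_contra hcon
      push Not at hcon
      exact hxne (funext hcon)
    have hm0 : m ≠ 0 := by
      rintro rfl
      exact hm hx0
    have hsc := FormsCAux.sing_scale (toF_isHomogeneous c) (x m)⁻¹ x ⟨hxF, hxd⟩
    obtain ⟨w, hw⟩ := hp1 ⟨m, hm0⟩ L (fun α => ((c α : ℤ) : L)) (fun i => (x m)⁻¹ * x i)
      (by rw [hx0, mul_zero]) (inv_mul_cancel₀ hm)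
      (by
        rw [ekTail_eval c (fun F => F) (fun F => F) (fun F => rfl)]
        exact hsc.1)
      (fun i => by
        rw [ekTail_eval c (fun F => pderiv i F) (fun F => pderiv i F) (fun F => pderiv_map)]
        exact hsc.2 i)
    exact ⟨⟨m, hm0⟩, L, iF, iC, w, hw⟩
  · refine ⟨false, ?_⟩
    rw [if_neg (by simp)]
    unfold Mild0 at hc
    push Not at hc
    obtain ⟨L, iF, iC, x, hx0, hxd, hrk⟩ := hc
    have hcI : Fintype.card {i : Fin (n + 1) // i ≠ 0} = n := by
      rw [Fintype.card_subtype_compl, Fintype.card_fin, Fintype.card_subtype_eq]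
      omega
    obtain ⟨a, b, hab, v, w, hv, hw, hva, hvb, hwa, hwb⟩ := exists_kernel (hessAt 0 (toF c) x)
      (by rw [hcI]; omega)
    have h20 : (2 : L) ≠ 0 := by
      intro h
      have h3 : ((2 : ℕ) : L) = 0 := by exact_mod_cast h
      rw [CharP.cast_eq_zero_iff L p] at h3
      exact absurd (Nat.le_of_dvd (by norm_num) h3) (by omega)
    -- extension by zero
    have hext : ∀ u : {i : Fin (n + 1) // i ≠ 0} → L, (hessAt 0 (toF c) x).mulVec u = 0 →
        ∀ i, i ≠ 0 → ∑ j, aeval x (pderiv i (pderiv j (toF fun α => ((c α : ℤ) : L)))) *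
          (if h : j ≠ 0 then u ⟨j, h⟩ else 0) = 0 := by
      intro u hu i hi
      rw [Fintype.sum_eq_add_sum_subtype_ne _ 0, dif_neg (by simp), mul_zero, zero_add]
      have h4 := congrFun hu ⟨i, hi⟩
      rw [Matrix.mulVec, dotProduct, Pi.zero_apply] at h4
      rw [← h4]
      refine Finset.sum_congr rfl fun j _ => ?_
      rw [dif_pos j.2, ekTail_eval c (fun F => pderiv i (pderiv j.1 F))
        (fun F => pderiv i (pderiv j.1 F)) (fun F => by rw [pderiv_map, pderiv_map])]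
      rfl
    obtain ⟨w', hw'⟩ := hp2 ⟨(a.1, b.1), a.2, b.2, fun h => hab (Subtype.ext h)⟩ L
      (fun α => ((c α : ℤ) : L)) x (fun j => if h : j ≠ 0 then v ⟨j, h⟩ else 0)
      (fun j => if h : j ≠ 0 then w ⟨j, h⟩ else 0) h20 hx0
      (fun i hi0 hi1 => by
        rw [ekTail_eval c (fun F => pderiv i F) (fun F => pderiv i F) (fun F => pderiv_map)]
        exact hxd i hi0 hi1)
      (dif_neg (by simp)) ((dif_pos a.2).trans hva) ((dif_pos b.2).trans hvb)
      (dif_neg (by simp)) ((dif_pos a.2).trans hwa) ((dif_pos b.2).trans hwb)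
      (hext v hv) (hext w hw)
    exact ⟨⟨(a.1, b.1), a.2, b.2, fun h => hab (Subtype.ext h)⟩, L, iF, iC, w', hw'⟩

end Pool.Agent.EvM
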