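import Pool.Agent.EvM.EmP0

set_option autoImplicit false

/-! # The local ring B0: the residue map -/

namespace Pool.Agent.EvM

open MvPolynomial Pool.Agent.NT9

variable {σ : Type} [Fintype σ] [DecidableEq σ] {K0 : Type} [Field K0]

variable {t : MvPolynomial σ ℤ} {M : Ideal (MvPolynomial σ ℤ)} {T : K0} {B0 : Subring K0}
  {D : Derivation ℤ K0 K0} {p : ℕ} {P0 : Polynomial ℤ}

/-- `v (T) ≠ 0` if `v (t) ∉ M`, as `v ≠ 0`. -/
theorem bm_exists [M.IsPrime] (td : TD T D) (t : MvPolynomial σ ℤ) : ∃ B0, IsBM t M T B0 := by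
  have hM : (1 : MvPolynomial σ ℤ) ∉ M := fun h => Ideal.IsPrime.ne_top ‹_› (M.eq_top_iff_one.2 h)
  have hmul : ∀ v v' : Polynomial ℤ, Polynomial.aeval t v ∉ M → Polynomial.aeval t v' ∉ M →
      Polynomial.aeval t (v * v') ∉ M := by
    intro v v' h h' hh
    rw [map_mul] at hh
    rcases (Ideal.IsPrime.mem_or_mem ‹_› hh) with h1 | h1
    · exact h h1
    · exact h' h1
  refine ⟨{
    carrier := {x | ∃ u v : Polynomial ℤ, Polynomial.aeval t v ∉ M ∧
      x * Polynomial.aeval T v = Polynomial.aeval T u}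
    zero_mem' := ⟨0, 1, by rwa [map_one], by rw [zero_mul, map_zero]⟩
    one_mem' := ⟨1, 1, by rwa [map_one], by rw [map_one, one_mul]⟩
    add_mem' := ?_
    mul_mem' := ?_
    neg_mem' := ?_ }, fun x => Iff.rfl⟩
  · rintro x y ⟨u, v, h1, h2⟩ ⟨u', v', h3, h4⟩
    refine ⟨u * u', v * v', hmul _ _ h1 h3, ?_⟩
    rw [map_mul, map_mul, ← h2, ← h4]
    ring
  · rintro x y ⟨u, v, h1, h2⟩ ⟨u', v', h3, h4⟩
    refine ⟨u * v' + u' * v, v * v', hmul _ _ h1 h3, ?_⟩
    rw [map_add, map_mul, map_mul, map_mul, ← h2, ← h4]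
    ring
  · rintro x ⟨u, v, h1, h2⟩
    exact ⟨-u, v, h1, by rw [map_neg, ← h2, neg_mul]⟩

theorem bm_poly [M.IsPrime] (h : IsBM t M T B0) (g : Polynomial ℤ) :
    Polynomial.aeval T g ∈ B0 := by
  have hM : (1 : MvPolynomial σ ℤ) ∉ M := fun h => Ideal.IsPrime.ne_top ‹_› (M.eq_top_iff_one.2 h)
  exact (h _).2 ⟨g, 1, by rwa [map_one], by rw [map_one, mul_one]⟩

private theorem BMa_ne (td : TD T D) {v : Polynomial ℤ} (hv : Polynomial.aeval t v ∉ M) :
    Polynomial.aeval T v ≠ 0 := by
  intro h0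
  rw [td.inj v h0, map_zero] at hv
  exact hv M.zero_mem

private theorem BMa_wd (td : TD T D) {x : K0} {u v u' v' : Polynomial ℤ}
    (h : x * Polynomial.aeval T v = Polynomial.aeval T u)
    (h' : x * Polynomial.aeval T v' = Polynomial.aeval T u') : u * v' = u' * v := by
  have h1 : Polynomial.aeval T (u * v' - u' * v) = 0 := by
    rw [map_sub, map_mul, map_mul, ← h, ← h']
    ring
  exact sub_eq_zero.1 (td.inj _ h1)

/-- The residue map. Proof. `x (v (T)) = u (T)` maps to `u (t) / v (t)` (a fraction in the field `ℤ[x] / M`); well defined by `td.inj`; or `IsLocalization.lift`. It is surjective if `ℤ[t] → ℤ[x] / M` is;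
here only: the kernel consists of nonunits. -/
theorem bm_res [M.IsMaximal] (td : TD T D) (h : IsBM t M T B0) :
    ∃ ρ : B0 →+* MvPolynomial σ ℤ ⧸ M,
      (∀ g : Polynomial ℤ, ρ ⟨Polynomial.aeval T g, bm_poly h g⟩ =
        Ideal.Quotient.mk M (Polynomial.aeval t g)) ∧
      ∀ b : B0, ρ b = 0 ↔ (b : K0) ∈ mx B0 := by
  classical
  let _ : Field (MvPolynomial σ ℤ ⧸ M) := Ideal.Quotient.field M
  let q := Ideal.Quotient.mk M
  have hq0 : ∀ v : Polynomial ℤ, Polynomial.aeval t v ∉ M → q (Polynomial.aeval t v) ≠ 0 := by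
    intro v hv h0
    exact hv (Ideal.Quotient.eq_zero_iff_mem.1 h0)
  choose U V hV hUV using fun b : B0 => (h b).1 b.2
  let F : B0 → MvPolynomial σ ℤ ⧸ M :=
    fun b => q (Polynomial.aeval t (U b)) / q (Polynomial.aeval t (V b))
  have hF : ∀ (b : B0) (u v : Polynomial ℤ), Polynomial.aeval t v ∉ M →
      (b : K0) * Polynomial.aeval T v = Polynomial.aeval T u →
      F b = q (Polynomial.aeval t u) / q (Polynomial.aeval t v) := by
    intro b u v hv huv
    have h1 := BMa_wd td (hUV b) huv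
    change q (Polynomial.aeval t (U b)) / q (Polynomial.aeval t (V b)) = _
    rw [div_eq_div_iff (hq0 _ (hV b)) (hq0 _ hv), ← map_mul, ← map_mul, ← map_mul, ← map_mul, h1]
  have hM : (1 : MvPolynomial σ ℤ) ∉ M :=
    fun h => Ideal.IsPrime.ne_top inferInstance (M.eq_top_iff_one.2 h)
  have hmul : ∀ v v' : Polynomial ℤ, Polynomial.aeval t v ∉ M → Polynomial.aeval t v' ∉ M →
      Polynomial.aeval t (v * v') ∉ M := by
    intro v v' h h' hh
    rw [map_mul] at hh
    rcases (Ideal.IsPrime.mem_or_mem inferInstance hh) with h1 | h1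
    · exact h h1
    · exact h' h1
  have hFg : ∀ g : Polynomial ℤ, F ⟨Polynomial.aeval T g, bm_poly h g⟩ =
      q (Polynomial.aeval t g) := by
    intro g
    rw [hF ⟨Polynomial.aeval T g, bm_poly h g⟩ g 1 (by rwa [map_one]) (by rw [map_one, mul_one]),
      map_one, map_one, div_one]
  have hF1 : F 1 = 1 := by
    rw [hF 1 1 1 (by rwa [map_one]) (by rw [map_one, mul_one]; rfl), map_one, map_one, div_one]
  have hFm : ∀ a b, F (a * b) = F a * F b := by
    intro a b
    rw [hF (a * b) (U a * U b) (V a * V b) (hmul _ _ (hV a) (hV b)) (by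
      rw [map_mul, map_mul, ← hUV a, ← hUV b, Subring.coe_mul]
      ring)]
    change _ = q (Polynomial.aeval t (U a)) / q (Polynomial.aeval t (V a)) *
      (q (Polynomial.aeval t (U b)) / q (Polynomial.aeval t (V b)))
    rw [map_mul, map_mul, map_mul, map_mul, div_mul_div_comm]
  have hFa : ∀ a b, F (a + b) = F a + F b := by
    intro a b
    rw [hF (a + b) (U a * V b + U b * V a) (V a * V b) (hmul _ _ (hV a) (hV b)) (by
      rw [map_add, map_mul, map_mul, map_mul, ← hUV a, ← hUV b, Subring.coe_add]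
      ring)]
    change _ = q (Polynomial.aeval t (U a)) / q (Polynomial.aeval t (V a)) +
      (q (Polynomial.aeval t (U b)) / q (Polynomial.aeval t (V b)))
    rw [div_add_div _ _ (hq0 _ (hV a)) (hq0 _ (hV b))]
    simp only [map_add, map_mul]
    ring
  have hF0 : F 0 = 0 := by
    have := hFa 0 0
    rw [add_zero] at this
    exact left_eq_add.1 this
  refine ⟨{ toFun := F, map_one' := hF1, map_mul' := hFm, map_zero' := hF0, map_add' := hFa },
    hFg, ?_⟩
  intro b
  change F b = 0 ↔ _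
  constructor
  · intro h0
    refine ⟨b.2, ?_⟩
    by_cases hb : (b : K0) = 0
    · exact Or.inl hb
    · refine Or.inr fun hi => ?_
      have h1 : b * ⟨(b : K0)⁻¹, hi⟩ = 1 := by
        apply Subtype.ext
        exact mul_inv_cancel₀ hb
      have h2 := hFm b ⟨(b : K0)⁻¹, hi⟩
      rw [h1, h0, zero_mul, hF1] at h2
      exact one_ne_zero h2
  · rintro ⟨-, hb | hb⟩
    · have : b = 0 := Subtype.ext hb
      rw [this, hF0]
    · by_contra hne
      apply hb
      have hU : Polynomial.aeval t (U b) ∉ M := by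
        intro hU
        apply hne
        change q (Polynomial.aeval t (U b)) / q (Polynomial.aeval t (V b)) = 0
        rw [Ideal.Quotient.eq_zero_iff_mem.2 hU, zero_div]
      have hb0 : (b : K0) ≠ 0 := by
        intro hb0
        apply hne
        have : b = 0 := Subtype.ext hb0
        rw [this, hF0]
      refine (h _).2 ⟨V b, U b, hU, ?_⟩
      rw [← hUV b, ← mul_assoc, inv_mul_cancel₀ hb0, one_mul]

theorem bm_loc [M.IsMaximal] (td : TD T D) (h : IsBM t M T B0) : IsLocalRing B0 := by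
  obtain ⟨ρ, -, hρ⟩ := bm_res td h
  have hun : ∀ a : B0, a ∈ nonunits B0 ↔ ρ a = 0 := by
    intro a
    rw [hρ]
    constructor
    · intro ha
      refine ⟨a.2, ?_⟩
      by_cases h0 : (a : K0) = 0
      · exact Or.inl h0
      · refine Or.inr fun hi => ha ?_
        exact IsUnit.of_mul_eq_one ⟨(a : K0)⁻¹, hi⟩ (Subtype.ext (mul_inv_cancel₀ h0))
    · rintro ⟨-, ha⟩ hu
      obtain ⟨w, hw⟩ := hu.exists_right_inv
      have h1 : (a : K0) * w = 1 := congrArg Subtype.val hw
      rcases ha with ha | ha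
      · rw [ha, zero_mul] at h1
        exact zero_ne_one h1
      · apply ha
        rw [inv_eq_of_mul_eq_one_right h1]
        exact w.2
  apply IsLocalRing.of_nonunits_add
  intro a b ha hb
  rw [hun] at ha hb ⊢
  rw [map_add, ha, hb, add_zero]

end Pool.Agent.EvM
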