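import Pool.Agent.EvM.EmBMa

set_option autoImplicit false

/-! # The local ring B0: the derivation -/

namespace Pool.Agent.EvM

open MvPolynomial Pool.Agent.NT9

variable {σ : Type} [Fintype σ] [DecidableEq σ] {K0 : Type} [Field K0]

variable {t : MvPolynomial σ ℤ} {M : Ideal (MvPolynomial σ ℤ)} {T : K0} {B0 : Subring K0}
  {D : Derivation ℤ K0 K0} {p : ℕ} {P0 : Polynomial ℤ}

/-- `D (u / v) = (D u v - u D v) / v ^ 2`, `D (g (T)) = g' (T)`. -/
theorem bm_der [M.IsMaximal] (td : TD T D) (h : IsBM t M T B0) : ∀ b ∈ B0, D b ∈ B0 := by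
  intro b hb
  obtain ⟨u, v, hv, huv⟩ := (h b).1 hb
  have hD : ∀ g : Polynomial ℤ, D (Polynomial.aeval T g) =
      Polynomial.aeval T (Polynomial.derivative g) := by
    intro g
    rw [Derivation.map_aeval, td.DT, smul_eq_mul, mul_one]
  have h1 : b * Polynomial.aeval T (Polynomial.derivative v) + Polynomial.aeval T v * D b =
      Polynomial.aeval T (Polynomial.derivative u) := by
    rw [← hD, ← hD, ← huv, Derivation.leibniz, smul_eq_mul, smul_eq_mul]
  refine (h _).2 ⟨Polynomial.derivative u * v - u * Polynomial.derivative v, v * v, ?_, ?_⟩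
  · rw [map_mul]
    intro hh
    rcases (Ideal.IsPrime.mem_or_mem inferInstance hh) with h1 | h1 <;> exact hv h1
  · rw [map_sub, map_mul, map_mul, map_mul, ← huv]
    linear_combination (Polynomial.aeval T v) * h1

end Pool.Agent.EvM
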