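import Pool.Agent.EvM.EmDefs

set_option autoImplicit false

/-! # The charts of the blow up of the product of the ideals `(W, (s, t) ^ l)`, `l = 1, ..., k` -/

namespace Pool.Agent.EvM

open Pool.Agent.NT9

variable {σ : Type} [Fintype σ] {K : Type} [Field K]

/-- The chart in which `e ^ k` generates the ideal number `k`. -/
def ChZ (O O' : Subring K) (W : σ → K) (e e' : K) (k : ℕ) : Prop :=
  e' / e ∈ O' ∧ (∀ c, W c / e ^ k ∈ O') ∧
    ∀ F : Subring K, O ≤ F → e' / e ∈ F → (∀ c, W c / e ^ k ∈ F) →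
      (∀ x ∈ F, x⁻¹ ∈ O' → x⁻¹ ∈ F) → O' ≤ F

/-- The chart in which `e ^ l` generates the ideal number `l` and `W c` the ideal number `l + 1`. -/
def ChM (O O' : Subring K) (W : σ → K) (e e' : K) (l : ℕ) (c : σ) : Prop :=
  W c ≠ 0 ∧ e' / e ∈ O' ∧ (∀ c', W c' / e ^ l ∈ O') ∧ (∀ c', W c' / W c ∈ O') ∧
    e ^ (l + 1) / W c ∈ mx O' ∧
    ∀ F : Subring K, O ≤ F → e' / e ∈ F → W c / e ^ l ∈ F → (∀ c', W c' / W c ∈ F) →
      e ^ (l + 1) / W c ∈ F → (∀ x ∈ F, x⁻¹ ∈ O' → x⁻¹ ∈ F) → O' ≤ F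

/-- The chart in which `W c` generates the first ideal. -/
def Ch0 (O O' : Subring K) (W : σ → K) (s t : K) (c : σ) : Prop :=
  W c ≠ 0 ∧ (∀ c', W c' / W c ∈ O') ∧ s / W c ∈ mx O' ∧ t / W c ∈ mx O' ∧
    ∀ F : Subring K, O ≤ F → (∀ c', W c' / W c ∈ F) → s / W c ∈ F → t / W c ∈ F →
      (∀ x ∈ F, x⁻¹ ∈ O' → x⁻¹ ∈ F) → O' ≤ F

/-- The generators of the ideal number `m + 1`. -/
def hq {k : ℕ} (W : σ → K) (s t : K) (m : ℕ) : σ ⊕ Fin (k + 1) → K :=
  Sum.elim W fun a : Fin (k + 1) => s ^ (min (a : ℕ) (m + 1)) * t ^ ((m + 1) - min (a : ℕ) (m + 1))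

private theorem gq_eq (W : σ → K) (s t : K) (k : ℕ) (φ : Fin k → σ ⊕ Fin (k + 1)) :
    gq W s t k φ = ∏ m : Fin k, hq W s t (m : ℕ) (φ m) := rfl

/-- Proof. `b` from `IsBlG`; `φ := Function.update b m i`. -/
theorem gq_fac {O O' : Subring K} {W : σ → K} {s t : K} {k : ℕ}
    (h : IsBlG O (gq W s t k) O') : ∃ b : Fin k → σ ⊕ Fin (k + 1),
      (∀ m : Fin k, hq W s t m (b m) ≠ 0 ∧
        ∀ i : σ ⊕ Fin (k + 1), hq W s t m i / hq W s t m (b m) ∈ O') ∧
      ∀ F : Subring K, O ≤ F → (∀ (m : Fin k) (i : σ ⊕ Fin (k + 1)), hq W s t m i / hq W s t m (b m) ∈ F) →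
        (∀ x ∈ F, x⁻¹ ∈ O' → x⁻¹ ∈ F) → O' ≤ F := by
  classical
  obtain ⟨b, hb0, hO, hdom, hr, hfr⟩ := h
  have hne : ∀ m : Fin k, hq W s t (m : ℕ) (b m) ≠ 0 := by
    rw [gq_eq] at hb0
    intro m
    exact Finset.prod_ne_zero_iff.1 hb0 m (Finset.mem_univ m)
  refine ⟨b, fun m => ⟨hne m, fun i => ?_⟩, fun F hF hrF hinv => ?_⟩
  · have h1 := hr (Function.update b m i)
    rw [gq_eq, gq_eq, ← Finset.prod_div_distrib, Finset.prod_eq_single m] at h1
    · rwa [Function.update_self] at h1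
    · intro l _ hl
      rw [Function.update_of_ne hl, div_self (hne l)]
    · intro h2
      exact absurd (Finset.mem_univ m) h2
  · refine le_of_fr hfr ?_ hinv
    rw [Subring.closure_le]
    rintro x (hx | ⟨φ, rfl⟩)
    · exact hF hx
    · show gq W s t k φ / gq W s t k b ∈ F
      rw [gq_eq, gq_eq, ← Finset.prod_div_distrib]
      exact F.prod_mem fun m _ => hrF m (φ m)

/-- The monomials. -/
private theorem ec_mon {s t e e' : K} (hs0 : s ≠ 0) (ht0 : t ≠ 0)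
    (he : (e = s ∧ e' = t) ∨ (e = t ∧ e' = s)) (a m : ℕ) :
    ∃ n : ℕ, s ^ (min a (m + 1)) * t ^ ((m + 1) - min a (m + 1)) =
      e ^ (m + 1) * (e' / e) ^ n := by
  have h1 : min a (m + 1) + ((m + 1) - min a (m + 1)) = m + 1 := by omega
  generalize (m + 1) - min a (m + 1) = β at *
  generalize min a (m + 1) = α at *
  rw [← h1]
  rcases he with ⟨rfl, rfl⟩ | ⟨rfl, rfl⟩
  · refine ⟨β, ?_⟩
    rw [pow_add, div_pow]
    field_simp
  · refine ⟨α, ?_⟩
    rw [pow_add, div_pow]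
    field_simp

/-- The power of `e` is one of the monomials. -/
private theorem ec_top {W : σ → K} {s t e e' : K}
    (he : (e = s ∧ e' = t) ∨ (e = t ∧ e' = s)) {k m : ℕ} (hm : m < k) :
    ∃ i : σ ⊕ Fin (k + 1), hq W s t m i = e ^ (m + 1) := by
  rcases he with ⟨rfl, rfl⟩ | ⟨rfl, rfl⟩
  · refine ⟨Sum.inr ⟨m + 1, by omega⟩, ?_⟩
    show e ^ (min (m + 1) (m + 1)) * e' ^ ((m + 1) - min (m + 1) (m + 1)) = e ^ (m + 1)
    rw [min_self, Nat.sub_self, pow_zero, mul_one]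
  · refine ⟨Sum.inr ⟨0, by omega⟩, ?_⟩
    show e' ^ (min 0 (m + 1)) * e ^ ((m + 1) - min 0 (m + 1)) = e ^ (m + 1)
    rw [Nat.zero_min, Nat.sub_zero, pow_zero, one_mul]

/-- Change of the denominator. -/
private theorem ec_den {O' F : Subring K} {ι : Type} {h : ι → K} {b : ι} (hb : h b ≠ 0)
    (hr : ∀ i, h i / h b ∈ O') (hinv : ∀ x ∈ F, x⁻¹ ∈ O' → x⁻¹ ∈ F) {g : K} (hg0 : g ≠ 0)
    (hg : ∃ i, h i = g) (hF : ∀ i, h i / g ∈ F) : ∀ i, h i / h b ∈ F := by
  obtain ⟨i0, hi0⟩ := hg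
  have h1 : (h b / g)⁻¹ ∈ F := by
    refine hinv _ (hF b) ?_
    rw [inv_div, ← hi0]
    exact hr i0
  intro i
  have h2 : h i / h b = h i / g * (h b / g)⁻¹ := by
    field_simp
  rw [h2]
  exact F.mul_mem (hF i) h1

/-- Proof. `b` from `gq_fac`; `h m i := hq W s t m i`. For `1 ≤ l ≤ k` let `A l` be: there are `(e, e') = (s, t)` or `(t, s)` with `e' / e ∈ O'` and all `W c / e ^ l ∈ O'`; `A (l + 1) → A l`. If a monomial
`h m (b m)`, `m + 1 = l`, is one of the given generators then `A l` (first `m = 0`; in general `s ^ (a+1) t ^ (l-a-1)`, `s ^ (a-1) t ^ (l-a+1)` divided by `s ^ a t ^ (l-a)` are in `O'`: so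
`t / s ∈ O'` if `a = l`, and `s / t ∈ O'` if `a < l`).
(Z) `A k`: for all `m < k` and `F` as in `ChZ`: `h m i / e ^ (m + 1) ∈ F` (`W c / e ^ (m+1) = (W c / e ^ k) e ^ (k-m-1)`; monomials: powers of `e' / e`), and `(h m (b m) / e ^ (m+1))⁻¹ ∈ O'` as
`e ^ (m + 1)` is one of the `h m i`; so `h m i / h m (b m) ∈ F`.
(0) not `A 1`: `b 0 = inl c`; `s / W c ∈ O'`; its inverse is not in `O'`, otherwise `W c' / s`, `t / s ∈ O'`; same for `t`. For `F` as in `Ch0` and `m < k`: `h m i / W c ∈ F` and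
`(h m (b m) / W c)⁻¹ ∈ O'` as `W c = h m (inl c)`.
(M) `A l`, not `A (l + 1)`, `1 ≤ l < k`: `b l = inl c` (a monomial would give `A (l + 1)`), `W c' / W c ∈ O'`, `e ^ (l+1) / W c ∈ O'`, its inverse is not in `O'` (otherwise `A (l + 1)`). `F` as in
`ChM`: for `m + 1 ≤ l` as in (Z): `h m i / e ^ (m+1) ∈ F`; for `m ≥ l` as in (0): `h m i / W c ∈ F`. -/
theorem chart_cases {O O' : Subring K} {W : σ → K} {s t : K} (hs : s ∈ O) (ht : t ∈ O)
    (hs0 : s ≠ 0) (ht0 : t ≠ 0) {k : ℕ} (hk : 1 ≤ k) (h : IsBlG O (gq W s t k) O') :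
    (∃ c, Ch0 O O' W s t c) ∨
      ∃ e e', ((e = s ∧ e' = t) ∨ (e = t ∧ e' = s)) ∧
        (ChZ O O' W e e' k ∨ ∃ l c, 1 ≤ l ∧ l < k ∧ ChM O O' W e e' l c) := by
  classical
  obtain ⟨b, hb, hmin⟩ := gq_fac h
  have hO : O ≤ O' := by
    obtain ⟨b, h1, h2, h3, h4, h5⟩ := h
    exact h2
  -- the condition `A l`
  let A : ℕ → Prop := fun l => ∃ e e', ((e = s ∧ e' = t) ∨ (e = t ∧ e' = s)) ∧ e' / e ∈ O' ∧
    ∀ c, W c / e ^ l ∈ O'
  -- a monomial gives `A`
  have hmon : ∀ (m : ℕ) (hm : m < k) (a : Fin (k + 1)), b ⟨m, hm⟩ = Sum.inr a → A (m + 1) := by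
    intro m hm a ha
    obtain ⟨h0, h1⟩ := hb ⟨m, hm⟩
    rw [ha] at h0 h1
    have hval : ∀ a : Fin (k + 1), hq W s t m (Sum.inr a) =
      s ^ (min (a : ℕ) (m + 1)) * t ^ ((m + 1) - min (a : ℕ) (m + 1)) := fun _ => rfl
    by_cases hα : min (a : ℕ) (m + 1) = m + 1
    · -- the generator is a power of `s`
      have h2 : hq W s t m (Sum.inr a : σ ⊕ Fin (k + 1)) = s ^ (m + 1) := by
        rw [hval, hα, Nat.sub_self, pow_zero, mul_one]
      refine ⟨s, t, Or.inl ⟨rfl, rfl⟩, ?_, fun c => ?_⟩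
      · have h3 := h1 (Sum.inr ⟨m, by omega⟩)
        rw [h2] at h3
        have h4 : hq W s t m (Sum.inr (⟨m, by omega⟩ : Fin (k + 1)) : σ ⊕ Fin (k + 1)) =
            s ^ m * t := by
          rw [hval]
          show s ^ (min m (m + 1)) * t ^ ((m + 1) - min m (m + 1)) = s ^ m * t
          rw [min_eq_left (Nat.le_succ m), Nat.add_sub_cancel_left, pow_one]
        have h5 : t / s = (s ^ m * t) / s ^ (m + 1) := by
          rw [pow_succ]
          field_simp
        rw [h5, ← h4]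
        exact h3
      · have h3 := h1 (Sum.inl c)
        rw [h2] at h3
        exact h3
    · -- `s / t` is in `O'`
      have hlt : min (a : ℕ) (m + 1) < m + 1 := lt_of_le_of_ne (min_le_right _ _) hα
      have h2 := hval a
      set α := min (a : ℕ) (m + 1) with hαd
      obtain ⟨β, hβ⟩ : ∃ β, m + 1 = α + (β + 1) := ⟨m - α, by omega⟩
      have hst : s / t ∈ O' := by
        have h3 := h1 (Sum.inr ⟨α + 1, by omega⟩)
        have h4 : hq W s t m (Sum.inr (⟨α + 1, by omega⟩ : Fin (k + 1)) : σ ⊕ Fin (k + 1)) =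
            s ^ (α + 1) * t ^ β := by
          rw [hval]
          show s ^ (min (α + 1) (m + 1)) * t ^ ((m + 1) - min (α + 1) (m + 1)) = _
          rw [min_eq_left (by omega)]
          congr 2
          omega
        have h5 : (m + 1) - α = β + 1 := by omega
        have h6 : s / t = hq W s t m (Sum.inr (⟨α + 1, by omega⟩ : Fin (k + 1)) :
            σ ⊕ Fin (k + 1)) / hq W s t m (Sum.inr a) := by
          rw [h4, h2, h5, pow_succ, pow_succ]
          field_simp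
        rw [h6]
        exact h3
      refine ⟨t, s, Or.inr ⟨rfl, rfl⟩, hst, fun c => ?_⟩
      have h3 := h1 (Sum.inl c)
      have h5 : (m + 1) - α = β + 1 := by omega
      have h6 : W c / t ^ (m + 1) = (W c / hq W s t m (Sum.inr a : σ ⊕ Fin (k + 1))) *
          (s / t) ^ α := by
        rw [h2, h5, hβ, pow_add, div_pow]
        field_simp
      rw [h6]
      exact O'.mul_mem h3 (O'.pow_mem hst α)
  -- the elements `e`
  have heO : ∀ {e e' : K}, ((e = s ∧ e' = t) ∨ (e = t ∧ e' = s)) → e ∈ O ∧ e ≠ 0 := by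
    rintro e e' (⟨rfl, -⟩ | ⟨rfl, -⟩)
    · exact ⟨hs, hs0⟩
    · exact ⟨ht, ht0⟩
  -- the monomials divided by a power of `e`
  have hmonF : ∀ {e e' : K} (he : (e = s ∧ e' = t) ∨ (e = t ∧ e' = s)) {F : Subring K},
      e' / e ∈ F → ∀ (m : ℕ) (a : Fin (k + 1)),
        hq W s t m (Sum.inr a : σ ⊕ Fin (k + 1)) / e ^ (m + 1) ∈ F := by
    intro e e' he F hF m a
    obtain ⟨n, hn⟩ := ec_mon hs0 ht0 he (a : ℕ) m
    have h1 : hq W s t m (Sum.inr a : σ ⊕ Fin (k + 1)) = e ^ (m + 1) * (e' / e) ^ n := hn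
    rw [h1, mul_div_cancel_left₀ _ (pow_ne_zero _ (heO he).2)]
    exact F.pow_mem hF n
  have hdown : ∀ l, A (l + 1) → A l := by
    rintro l ⟨e, e', he, h1, h2⟩
    refine ⟨e, e', he, h1, fun c => ?_⟩
    have h3 : W c / e ^ l = W c / e ^ (l + 1) * e := by
      have := (heO he).2
      rw [pow_succ]
      field_simp
    rw [h3]
    exact O'.mul_mem (h2 c) (hO (heO he).1)
  by_cases hk' : A k
  · -- chart Z
    right
    obtain ⟨e, e', he, h1, h2⟩ := hk'
    refine ⟨e, e', he, Or.inl ⟨h1, h2, fun F hF hF1 hF2 hinv => ?_⟩⟩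
    obtain ⟨heO1, he0⟩ := heO he
    refine hmin F hF (fun m => ?_) hinv
    refine ec_den (h := hq W s t (m : ℕ)) (hb m).1 (hb m).2 hinv
      (pow_ne_zero ((m : ℕ) + 1) he0) (ec_top he m.2) ?_
    rintro (c | a)
    · have h3 : W c / e ^ ((m : ℕ) + 1) = W c / e ^ k * e ^ (k - ((m : ℕ) + 1)) := by
        have h4 : e ^ k = e ^ ((m : ℕ) + 1) * e ^ (k - ((m : ℕ) + 1)) := by
          rw [← pow_add]
          congr 1
          omega
        rw [h4]
        field_simp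
      show W c / e ^ ((m : ℕ) + 1) ∈ F
      rw [h3]
      exact F.mul_mem (hF2 c) (F.pow_mem (hF heO1) _)
    · exact hmonF he hF1 m a
  by_cases h1' : A 1
  · -- chart M
    right
    have hex : ∃ l, 1 ≤ l ∧ l < k ∧ A l ∧ ¬ A (l + 1) := by
      by_contra hcon
      push Not at hcon
      apply hk'
      have : ∀ l, 1 ≤ l → l ≤ k → A l := by
        intro l hl
        induction l, hl using Nat.le_induction with
        | base => exact fun _ => h1'
        | succ l hl ih => exact fun h3 => hcon l hl (by omega) (ih (by omega))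
      exact this k hk le_rfl
    obtain ⟨l, hl1, hlk, ⟨e, e', he, h1, h2⟩, hnA⟩ := hex
    obtain ⟨heO1, he0⟩ := heO he
    obtain ⟨c, hc⟩ : ∃ c, b ⟨l, hlk⟩ = Sum.inl c := by
      rcases hbl : b ⟨l, hlk⟩ with c | a
      · exact ⟨c, rfl⟩
      · exact absurd (hmon l hlk a hbl) hnA
    obtain ⟨hb0, hb1⟩ := hb ⟨l, hlk⟩
    rw [hc] at hb0 hb1
    have hWc0 : W c ≠ 0 := hb0
    have hWW : ∀ c', W c' / W c ∈ O' := fun c' => hb1 (Sum.inl c')
    have heW : e ^ (l + 1) / W c ∈ O' := by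
      obtain ⟨i, hi⟩ := ec_top (W := W) he hlk
      have h3 := hb1 i
      have h4 : hq W s t ((⟨l, hlk⟩ : Fin k) : ℕ) i = e ^ (l + 1) := hi
      rw [h4] at h3
      exact h3
    refine ⟨e, e', he, Or.inr ⟨l, c, hl1, hlk, hWc0, h1, h2, hWW, ⟨heW, Or.inr ?_⟩, ?_⟩⟩
    · intro h3
      rw [inv_div] at h3
      apply hnA
      refine ⟨e, e', he, h1, fun c' => ?_⟩
      have h4 : W c' / e ^ (l + 1) = (W c' / W c) * (W c / e ^ (l + 1)) := by
        field_simp
      rw [h4]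
      exact O'.mul_mem (hWW c') h3
    · intro F hF hF1 hF2 hF3 hF4 hinv
      refine hmin F hF (fun m => ?_) hinv
      by_cases hml : (m : ℕ) + 1 ≤ l
      · refine ec_den (h := hq W s t (m : ℕ)) (hb m).1 (hb m).2 hinv
          (pow_ne_zero ((m : ℕ) + 1) he0) (ec_top he m.2) ?_
        rintro (c' | a)
        · have h3 : W c' / e ^ ((m : ℕ) + 1) =
              (W c' / W c) * (W c / e ^ l) * e ^ (l - ((m : ℕ) + 1)) := by
            have h4 : e ^ l = e ^ ((m : ℕ) + 1) * e ^ (l - ((m : ℕ) + 1)) := by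
              rw [← pow_add]
              congr 1
              omega
            rw [h4]
            field_simp
          show W c' / e ^ ((m : ℕ) + 1) ∈ F
          rw [h3]
          exact F.mul_mem (F.mul_mem (hF3 c') hF2) (F.pow_mem (hF heO1) _)
        · exact hmonF he hF1 m a
      · refine ec_den (h := hq W s t (m : ℕ)) (hb m).1 (hb m).2 hinv hWc0 ⟨Sum.inl c, rfl⟩ ?_
        rintro (c' | a)
        · exact hF3 c'
        · have h3 := hmonF he hF1 m a
          have h5 : hq W s t m (Sum.inr a : σ ⊕ Fin (k + 1)) / W c =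
              hq W s t m (Sum.inr a : σ ⊕ Fin (k + 1)) / e ^ ((m : ℕ) + 1) *
                e ^ ((m : ℕ) - l) * (e ^ (l + 1) / W c) := by
            have h4 : e ^ ((m : ℕ) + 1) = e ^ ((m : ℕ) - l) * e ^ (l + 1) := by
              rw [← pow_add]
              congr 1
              omega
            rw [h4]
            field_simp
          rw [h5]
          exact F.mul_mem (F.mul_mem h3 (F.pow_mem (hF heO1) _)) hF4
  · -- chart 0
    left
    have h0k : 0 < k := hk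
    obtain ⟨c, hc⟩ : ∃ c, b ⟨0, h0k⟩ = Sum.inl c := by
      rcases hbl : b ⟨0, h0k⟩ with c | a
      · exact ⟨c, rfl⟩
      · exact absurd (hmon 0 h0k a hbl) h1'
    obtain ⟨hb0, hb1⟩ := hb ⟨0, h0k⟩
    rw [hc] at hb0 hb1
    have hWc0 : W c ≠ 0 := hb0
    have hWW : ∀ c', W c' / W c ∈ O' := fun c' => hb1 (Sum.inl c')
    have hsW : ∀ {e e' : K}, ((e = s ∧ e' = t) ∨ (e = t ∧ e' = s)) → e / W c ∈ O' := by
      intro e e' he
      obtain ⟨i, hi⟩ := ec_top (W := W) he h0k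
      have h3 := hb1 i
      have h4 : hq W s t ((⟨0, h0k⟩ : Fin k) : ℕ) i = e ^ (0 + 1) := hi
      rw [h4, zero_add, pow_one] at h3
      exact h3
    have hmx : ∀ {e e' : K}, ((e = s ∧ e' = t) ∨ (e = t ∧ e' = s)) → e / W c ∈ mx O' := by
      intro e e' he
      refine ⟨hsW he, Or.inr ?_⟩
      intro h3
      rw [inv_div] at h3
      apply h1'
      have he0 := (heO he).2
      have he' : (e' = s ∧ e = t) ∨ (e' = t ∧ e = s) := by
        rcases he with ⟨h5, h6⟩ | ⟨h5, h6⟩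
        · exact Or.inr ⟨h6, h5⟩
        · exact Or.inl ⟨h6, h5⟩
      refine ⟨e, e', he, ?_, fun c' => ?_⟩
      · have h4 : e' / e = (e' / W c) * (W c / e) := by
          field_simp
        rw [h4]
        exact O'.mul_mem (hsW he') h3
      · have h4 : W c' / e ^ 1 = (W c' / W c) * (W c / e) := by
          rw [pow_one]
          field_simp
        rw [h4]
        exact O'.mul_mem (hWW c') h3
    refine ⟨c, hWc0, hWW, hmx (Or.inl ⟨rfl, rfl⟩), hmx (Or.inr ⟨rfl, rfl⟩), ?_⟩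
    intro F hF hF1 hF2 hF3 hinv
    refine hmin F hF (fun m => ?_) hinv
    refine ec_den (h := hq W s t (m : ℕ)) (hb m).1 (hb m).2 hinv hWc0 ⟨Sum.inl c, rfl⟩ ?_
    rintro (c' | a)
    · exact hF1 c'
    · show s ^ (min (a : ℕ) ((m : ℕ) + 1)) * t ^ (((m : ℕ) + 1) - min (a : ℕ) ((m : ℕ) + 1)) /
        W c ∈ F
      rcases Nat.eq_zero_or_pos (min (a : ℕ) ((m : ℕ) + 1)) with h3 | h3
      · rw [h3, pow_zero, one_mul, Nat.sub_zero]
        have h4 : t ^ ((m : ℕ) + 1) / W c = t ^ (m : ℕ) * (t / W c) := by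
          rw [pow_succ]
          field_simp
        rw [h4]
        exact F.mul_mem (F.pow_mem (hF ht) _) hF3
      · obtain ⟨n, hn⟩ : ∃ n, min (a : ℕ) ((m : ℕ) + 1) = n + 1 := ⟨_, (Nat.succ_pred_eq_of_pos h3).symm⟩
        rw [hn]
        have h4 : s ^ (n + 1) * t ^ (((m : ℕ) + 1) - (n + 1)) / W c =
            s ^ n * t ^ (((m : ℕ) + 1) - (n + 1)) * (s / W c) := by
          rw [pow_succ]
          field_simp
        rw [h4]
        exact F.mul_mem (F.mul_mem (F.pow_mem (hF hs) _) (F.pow_mem (hF ht) _)) hF2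

end Pool.Agent.EvM
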