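import Pool.Agent.EvM.EmDefs
import Pool.Agent.NT9.GeFrB

set_option autoImplicit false

/-! # Existence of the quadratic transform below a local ring of the function field -/

namespace Pool.Agent.EvM

open Pool.Agent.NT9

variable {K0 K : Type} [Field K0] [Field K]

/-- Proof. `A = closure (B ∪ {t / s})`, `j` maps `A` into `O'`. `B' := {x | ∃ u ∈ A, ∃ v ∈ A, v ≠ 0 ∧ (j v)⁻¹ ∈ O' ∧ x * v = u}` (a subring). For `x ∈ B'`, `j x ∉ mx O'`: `x = u / v`, `j u` is a unit of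
`O'`, so `x⁻¹ = v / u ∈ B'`; so `B'` is local and `mx B' = {x ∈ B' | j x ∈ mx O'}`. -/
theorem exists_qt {j : K0 →+* K} {B : Subring K0} {s t : K0} (hs0 : s ≠ 0) {O' : Subring K}
    [IsLocalRing O'] (hB : ∀ b ∈ B, j b ∈ O') (hm : ∀ b ∈ mx B, j b ∈ mx O')
    (hts : j t / j s ∈ O') :
    ∃ B' : Subring K0, QT B s t B' ∧ (∀ b ∈ B', j b ∈ O') ∧ ∀ b ∈ mx B', j b ∈ mx O' := by
  have _ := hs0
  obtain ⟨A, hAdef⟩ : ∃ A, A = Subring.closure ((B : Set K0) ∪ {t / s}) := ⟨_, rfl⟩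
  have hA : A.map j ≤ O' := by
    rw [hAdef, Subring.map_le_iff_le_comap, Subring.closure_le]
    rintro x (hx | hx)
    · exact hB x hx
    · rw [Set.mem_singleton_iff] at hx
      show j x ∈ O'
      rw [hx, map_div₀]
      exact hts
  obtain ⟨O, -, hfr, hle, hdom, -⟩ := exists_locAt hA
  have hmem : ∀ x, x ∈ O.comap j ↔ j x ∈ O := fun x => Iff.rfl
  have hinv : ∀ x, j x ∈ O → j x ∉ mx O' → x ≠ 0 ∧ x⁻¹ ∈ O.comap j := by
    intro x hx hn
    have h1 : j x ∉ mx O := fun h => hn (hdom _ h)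
    rw [notMem_mx_iff hx] at h1
    refine ⟨fun h => h1.1 (by rw [h, map_zero]), ?_⟩
    rw [hmem, map_inv₀]
    exact h1.2
  have hmx : ∀ b ∈ mx (O.comap j), j b ∈ mx O' := by
    rintro b ⟨hb, h⟩
    by_contra hcon
    obtain ⟨h1, h2⟩ := hinv b hb hcon
    rcases h with h | h
    · exact h1 h
    · exact h h2
  have hAB : A ≤ O.comap j := fun x hx => hfr.1 ⟨x, hx, rfl⟩
  have hBA : ∀ b ∈ B, b ∈ A := fun b hb => by
    rw [hAdef]
    exact Subring.subset_closure (Or.inl hb)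
  refine ⟨O.comap j, ⟨?_, fun b hb => hAB (hBA b hb), ?_, ?_⟩, fun b hb => hle hb, hmx⟩
  · refine IsLocalRing.of_nonunits_add fun a b ha hb hab => ?_
    have h1 : ∀ c : O.comap j, c ∈ nonunits (O.comap j) → j (c : K0) ∈ mx O' := by
      intro c hc
      refine hmx c ?_
      by_contra hcon
      rw [notMem_mx_iff c.2] at hcon
      exact hc ((NH.LOC_isUnit_iff _ c).mpr hcon)
    have h2 := mx_add (h1 a ha) (h1 b hb)
    have h3 := (NH.LOC_isUnit_iff _ (a + b)).mp hab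
    rw [← map_add] at h2
    have h4 : j ((a : K0) + b) ≠ 0 := by
      rw [Ne, map_eq_zero]
      exact h3.1
    have h5 : (j ((a : K0) + b))⁻¹ ∈ O' := by
      rw [← map_inv₀]
      exact hle h3.2
    exact (notMem_mx_iff h2.1).mpr ⟨h4, h5⟩ h2
  · intro x hx
    refine ⟨hAB (hBA x hx.1), ?_⟩
    by_contra hcon
    push Not at hcon
    have h1 := hm x hx
    have h4 : j x ≠ 0 := by
      rw [Ne, map_eq_zero]
      exact hcon.1
    have h5 : (j x)⁻¹ ∈ O' := by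
      rw [← map_inv₀]
      exact hle hcon.2
    exact (notMem_mx_iff h1.1).mpr ⟨h4, h5⟩ h1
  · rw [← hAdef]
    refine ⟨hAB, fun x hx => ?_⟩
    obtain ⟨_, ⟨u, hu, rfl⟩, _, ⟨v, hv, rfl⟩, h1, h2, h3⟩ := hfr.2 (j x) hx
    refine ⟨u, hu, v, hv, fun h => h1 (by rw [h, map_zero]), ?_, ?_⟩
    · rw [hmem, map_inv₀]
      exact h2
    · rw [← map_mul] at h3
      exact j.injective h3

end Pool.Agent.EvM
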