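import Pool.Agent.EvM.EmQTb

set_option autoImplicit false

/-! # quadratic transforms: the order -/

namespace Pool.Agent.EvM

open Pool.Agent.NT9

variable {K0 : Type} [Field K0] {B B' : Subring K0} {s t : K0}

open EmQTa EmQTb

private theorem QTc_sum (h : P2 B s t) {n : ℕ} {x : K0} (hx : x ∈ mp B n) :
    ∃ c : ℕ → K0, (∀ i, c i ∈ B) ∧ x = ∑ i ∈ Finset.range (n + 1), c i * s ^ i * t ^ (n - i) ∧
      x / s ^ n = ∑ i ∈ Finset.range (n + 1), c i * (t / s) ^ (n - i) := by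
  have hloc := h.loc
  obtain ⟨c, hc, hx⟩ := h.mem_mp.1 hx
  refine ⟨c, hc, hx, ?_⟩
  rw [hx, Finset.sum_div]
  refine Finset.sum_congr rfl fun i hi => ?_
  have h1 : i ≤ n := Nat.lt_succ_iff.1 (Finset.mem_range.1 hi)
  have h2 : s ^ n = s ^ i * s ^ (n - i) := by rw [← pow_add, Nat.add_sub_cancel' h1]
  have h3 : s ^ i ≠ 0 := pow_ne_zero i h.s0
  have h4 : s ^ (n - i) ≠ 0 := pow_ne_zero _ h.s0
  rw [h2, div_pow]
  field_simp


/-- `mem_mp` for `B`. -/
theorem qt_pow (h : P2 B s t) (q : QT B s t B') {n : ℕ} {x : K0} (hx : x ∈ mp B n) :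
    x / s ^ n ∈ B' := by
  obtain ⟨c, hc, -, h1⟩ := QTc_sum h hx
  rw [h1]
  exact sum_mem fun i _ => mul_mem (q.le (hc i)) (pow_mem q.tau _)

/-- Proof. `x = ∑ c i t^i s^(n-i)` with some `c i ∉ mx B`, `x / s^n = c(t/s)`. If it is `s b'`, `b' = u / v`, `u, v ∈ B[t/s]`, `v` a unit of `B'`: `v c(t/s) = s u`; by `poly_ind`
for the product of the polynomials and `k[τ]` a domain (or `mp B`: Gauss) `v` or `c` has all coefficients in `mx B`; `v` has not (else `v ∈ mx B'`). -/
theorem qt_ord (h : P2 B s t) (q : QT B s t B') {n : ℕ} {x : K0} (hx : x ∈ mp B n)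
    (hx' : x ∉ mp B (n + 1)) : x / s ^ (n + 1) ∉ B' := by
  intro hb
  have hloc := h.loc
  obtain ⟨c, hc, h1, h2⟩ := QTc_sum h hx
  let f : Polynomial B := ∑ i ∈ Finset.range (n + 1),
    Polynomial.C ⟨c i, hc i⟩ * Polynomial.X ^ (n - i)
  have hf : ev B (t / s) f = x / s ^ n := by
    rw [h2, map_sum]
    refine Finset.sum_congr rfl fun i _ => ?_
    rw [map_mul, map_pow, ev_C, ev_X]
  obtain ⟨U, V, hv0, hi, he⟩ := frac q hb
  have h3 : ev B (t / s) (f * V) = s * ev B (t / s) U := by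
    rw [map_mul, hf, ← he]
    have h4 := h.s0
    rw [pow_succ]
    field_simp
  have h4 : Zr f := by
    rcases zr_mul (zr_of_eq h h3) with h5 | h5
    · exact h5
    · exact absurd h5 (not_zr h q hv0 hi)
  have h5 : ∀ i, i ≤ n → c i ∈ mx B := by
    intro i hi
    have h6 := h4 (n - i)
    have h7 : f.coeff (n - i) = ⟨c i, hc i⟩ := by
      show (∑ j ∈ Finset.range (n + 1),
        Polynomial.C (⟨c j, hc j⟩ : B) * Polynomial.X ^ (n - j)).coeff (n - i) = _
      rw [Polynomial.finsetSum_coeff, Finset.sum_eq_single i]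
      · rw [Polynomial.coeff_C_mul_X_pow, if_pos rfl]
      · intro j hj hji
        have h8 : j ≤ n := Nat.lt_succ_iff.1 (Finset.mem_range.1 hj)
        rw [Polynomial.coeff_C_mul_X_pow, if_neg]
        omega
      · intro h8
        exact absurd (Finset.mem_range.2 (Nat.lt_succ_of_le hi)) h8
    rw [h7] at h6
    exact h6
  refine hx' ?_
  rw [h1]
  refine sum_mem fun i hi => ?_
  have h6 : i ≤ n := Nat.lt_succ_iff.1 (Finset.mem_range.1 hi)
  have h7 := mp_mul (mp_mul (mp_one_iff.2 (h5 i h6)) (pow_mem_mp h.hs i))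
    (pow_mem_mp h.ht (n - i))
  have h8 : 1 + i + (n - i) = n + 1 := by omega
  rw [h8] at h7
  exact h7

/-- Consequence of `qt_ord`: the first or the second order. -/
theorem qt_ord2 (h : P2 B s t) (q : QT B s t B') {k : ℕ} {x : K0} (hx : x ∈ mp B (2 * k))
    (hx' : x ∉ mp B (2 * k + 2)) : x / s ^ (2 * k) / s ^ 2 ∉ B' := by
  intro hb
  have hs0 := h.s0
  by_cases h1 : x ∈ mp B (2 * k + 1)
  · refine qt_ord h q h1 hx' ?_
    have h2 : x / s ^ (2 * k + 1 + 1) = x / s ^ (2 * k) / s ^ 2 := by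
      rw [div_div, ← pow_add]
    rw [h2]
    exact hb
  · refine qt_ord h q hx h1 ?_
    have h2 : x / s ^ (2 * k + 1) = x / s ^ (2 * k) / s ^ 2 * s := by
      rw [pow_succ]
      field_simp
    rw [h2]
    exact mul_mem hb (q.le (mx_le h.hs))

/-- `s` is a part of a regular system of parameters of `B'`. -/
theorem qt_rp (h : P2 B s t) (q : QT B s t B') : RP B' (fun _ : Unit => s) := by
  have hloc := h.loc
  have hloc' := q.loc
  have hn := qt_noeth h q
  have hs := q.dom s h.hs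
  rcases qt_cases h q with h1 | ⟨φ, h1⟩
  · refine rp_unit (reg_of_dvr hs h.s0 h1) hs ?_
    intro h2
    have h3 := dvr_not_sq hs h.s0 h1 h2
    have h4 : s / s ^ 2 = s⁻¹ := by
      have hs0 := h.s0
      field_simp
    rw [h4] at h3
    exact ((notMem_mx_iff (mx_le hs)).2 ⟨h.s0, h3⟩) hs
  · exact rp_unit h1.regular hs h1.not_sq

end Pool.Agent.EvM
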