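import Pool.Agent.EvM.EmRegY
import Pool.Agent.EvM.EmExQ
import Pool.Agent.EvM.EmChart
import Pool.Agent.EvM.EmQTc

set_option autoImplicit false

/-! # The charts `M` and `0` of the blow up of a node -/

namespace Pool.Agent.EvM

open MvPolynomial Pool.Agent.NT9

variable {σ : Type} [Fintype σ] [DecidableEq σ] {K0 K : Type} [Field K0] [Field K]
  {B0 B : Subring K0} {θ : MvPolynomial σ ℤ →+* K} {j : K0 →+* K} {f t : MvPolynomial σ ℤ}
  {T lam : K0} {X : σ → K0} {Pm : σ → σ → K0} {qv r : σ → K0}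

omit [Fintype σ] [DecidableEq σ] in
private theorem cm_le_fr {M : K0} {O O' F : Subring K} (sg : Sg θ j X B M O) (hO : O ≤ O')
    (hC : ∀ b ∈ B, j b ∈ F) (hW : ∀ s, Wc θ j X M s ∈ F)
    (hinv : ∀ x ∈ F, x⁻¹ ∈ O' → x⁻¹ ∈ F) : O ≤ F := by
  have hev : ∀ h : MvPolynomial σ B, piW j B (Wc θ j X M) h ∈ F := by
    intro h
    induction h using MvPolynomial.induction_on with
    | C b =>
      have h1 : piW j B (Wc θ j X M) (C b) = j b := by simp [piW]
      rw [h1]
      exact hC _ b.2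
    | add p q hp hq =>
      rw [map_add]
      exact add_mem hp hq
    | mul_X p i hp =>
      have h1 : piW j B (Wc θ j X M) (MvPolynomial.X i) = Wc θ j X M i := by simp [piW]
      rw [map_mul, h1]
      exact mul_mem hp (hW i)
  intro x hx
  obtain ⟨u, v, hv0, hvO, h1⟩ := sg.fr x hx
  have e1 : x = piW j B (Wc θ j X M) u * (piW j B (Wc θ j X M) v)⁻¹ := by
    rw [← h1, mul_assoc, mul_inv_cancel₀ hv0, mul_one]
  rw [e1]
  exact F.mul_mem (hev u) (hinv _ (hev v) (hO hvO))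

/-- Proof. `exists_qt`: `B'`; `regular_y` for `B'`, `I = Unit`, `e`, `M' = M e ^ l`, `Y = Wc θ j X M c / j e ^ l`; `V s = Wc θ j X M s / Wc θ j X M c`, `U = j e ^ (l + 1) / Wc θ j X M c`. `hRP`: `qt_rp`.
`h0`: `a = d0 / M / e ^ (l + 1)`, `hs` in the same way, `hw`: `c = wv / M ^ 2 / e ^ (2 l + 2)` (`qt_pow`). `hfr`: `F = frSub (piW j B' (evY ..)) O'` (`NT9.GeSub`) in `ChM`, see `case_z`. -/
theorem case_m (cd : CD B0 θ j f t T X lam Pm qv r) (hle : B0 ≤ B) {e e' M : K0} (h : P2 B e e')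
    (hMB : M ∈ B) (hM0 : M ≠ 0) {O O' : Subring K} [IsLocalRing O] [IsLocalRing O']
    (sg : Sg θ j X B M O) {k l : ℕ} (hl : 1 ≤ l) (hlk : l < k)
    (hd0 : d0 t T X / M ∈ mp B (k + 1)) (hds : ∀ s, ds f t lam X s / M ∈ mp B (k + 1))
    (hw : wv f t T lam X / M ^ 2 ∈ mp B (2 * k)) (hO : O ≤ O')
    (hdom : ∀ x ∈ mx O, x ∈ mx O') {c : σ} (ch : ChM O O' (Wc θ j X M) (j e) (j e') l c) :
    IsRegularLocalRing O' := by
  have _ := h.loc
  have he0 := h.s0
  have hje : j e ≠ 0 := (map_ne_zero j).2 he0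
  obtain ⟨hWc0, hch1, hch2, hch3, hch4, hch5⟩ := ch
  obtain ⟨B', q, hB', hm'⟩ := exists_qt (O' := O') (j := j) he0 (fun b hb => hO (sg.hB b hb))
    (fun b hb => hdom _ (sg.hm b hb)) hch1
  have _ := q.loc
  have heB' : e ∈ mx B' := q.dom e h.hs
  have heB1 : e ∈ B' := mx_le heB'
  have hWc : ∀ s, Wc θ j X (M * e ^ l) s = Wc θ j X M s / j e ^ l := by
    intro s
    unfold Wc
    rw [map_mul, map_pow, div_div]
  have hMe0 : M * e ^ l ≠ 0 := mul_ne_zero hM0 (pow_ne_zero _ he0)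
  have hMe : M * e ^ l ∈ B' := B'.mul_mem (q.le hMB) (B'.pow_mem heB1 _)
  have hdiv : ∀ x : K0, x / M ∈ mp B (k + 1) → ∃ a : Unit → K0, (∀ i, a i ∈ B') ∧
      x = M * e ^ l * ∑ i, a i * (fun _ : Unit => e) i := by
    intro x hx
    refine ⟨fun _ => x / M / e ^ (l + 1), fun _ => qt_pow h q (mp_anti (by omega) hx), ?_⟩
    rw [Fintype.sum_unique, pow_succ]
    field_simp
  have hw' : ∃ c : Unit → Unit → K0, (∀ i i', c i i' ∈ B') ∧
      wv f t T lam X = (M * e ^ l) ^ 2 * ∑ i, ∑ i', c i i' * (fun _ : Unit => e) i *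
        (fun _ : Unit => e) i' := by
    refine ⟨fun _ _ => wv f t T lam X / M ^ 2 / e ^ (2 * l + 2), fun _ _ =>
      qt_pow h q (mp_anti (by omega) hw), ?_⟩
    rw [Fintype.sum_unique, Fintype.sum_unique, pow_add, Nat.mul_comm 2 l, pow_mul, mul_pow]
    field_simp
  set Y : K := Wc θ j X M c / j e ^ l with hY
  have hY0 : Y ≠ 0 := div_ne_zero hWc0 (pow_ne_zero _ hje)
  set F : Subring K := frSub (piW j B' (evY θ j X (M * e ^ l) Y (fun _ : Unit => e))) O' with hF
  have hFB : ∀ b ∈ B', j b ∈ F := by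
    intro b hb
    have h1 := map_mem_frSub (piW j B' (evY θ j X (M * e ^ l) Y (fun _ : Unit => e))) O'
      (C (⟨b, hb⟩ : B'))
    have h2 : piW j B' (evY θ j X (M * e ^ l) Y (fun _ : Unit => e)) (C (⟨b, hb⟩ : B')) = j b := by
      simp [piW]
    rwa [h2] at h1
  have hFY : Y ∈ F := by
    have h1 := map_mem_frSub (piW j B' (evY θ j X (M * e ^ l) Y (fun _ : Unit => e))) O'
      (MvPolynomial.X (Sum.inr (Sum.inl ())))
    have h2 : piW j B' (evY θ j X (M * e ^ l) Y (fun _ : Unit => e))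
        (MvPolynomial.X (Sum.inr (Sum.inl ()))) = Y := by
      simp [piW, evY]
    rwa [h2] at h1
  have hFV : ∀ s, Wc θ j X M s / Wc θ j X M c ∈ F := by
    intro s
    have h1 := map_mem_frSub (piW j B' (evY θ j X (M * e ^ l) Y (fun _ : Unit => e))) O'
      (MvPolynomial.X (Sum.inl s))
    have h2 : piW j B' (evY θ j X (M * e ^ l) Y (fun _ : Unit => e))
        (MvPolynomial.X (Sum.inl s)) = Wc θ j X M s / Wc θ j X M c := by
      simp only [piW, evY, coe_eval₂Hom, eval₂_X, Sum.elim_inl]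
      rw [hWc, hY]
      field_simp
    rwa [h2] at h1
  have hFU : j e ^ (l + 1) / Wc θ j X M c ∈ F := by
    have h1 := map_mem_frSub (piW j B' (evY θ j X (M * e ^ l) Y (fun _ : Unit => e))) O'
      (MvPolynomial.X (Sum.inr (Sum.inr ())))
    have h2 : piW j B' (evY θ j X (M * e ^ l) Y (fun _ : Unit => e))
        (MvPolynomial.X (Sum.inr (Sum.inr ()))) = j e ^ (l + 1) / Wc θ j X M c := by
      simp only [piW, evY, coe_eval₂Hom, eval₂_X, Sum.elim_inr]
      rw [hY, pow_succ]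
      field_simp
    rwa [h2] at h1
  have hFinv : ∀ x ∈ F, x⁻¹ ∈ O' → x⁻¹ ∈ F := frSub_inv _ _
  have hOF : O ≤ F := by
    refine cm_le_fr sg hO (fun b hb => hFB b (q.le hb)) (fun s => ?_) hFinv
    have e1 : Wc θ j X M s = Wc θ j X M s / Wc θ j X M c * Y * j (e ^ l) := by
      rw [map_pow, hY]
      field_simp
    rw [e1]
    exact F.mul_mem (F.mul_mem (hFV s) hFY) (hFB _ (B'.pow_mem heB1 _))
  have hO'F : O' ≤ F := by
    refine hch5 F hOF ?_ hFY hFV hFU hFinv
    rw [← map_div₀]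
    exact hFB _ q.tau
  refine regular_y cd (hle.trans q.le) (qt_rp h q) hMe hMe0 (hdiv _ hd0)
    (fun s => hdiv _ (hds s)) hw' hB' hm' hY0 (hch2 c) (l := c) (hWc c) (fun s => ?_)
    (fun _ => ?_) ?_ (fun x hx => (mem_frSub _ _ x).1 (hO'F hx))
  · have e1 : Wc θ j X (M * e ^ l) s / Y = Wc θ j X M s / Wc θ j X M c := by
      rw [hWc, hY]
      field_simp
    rw [e1]
    exact hch3 s
  · have e1 : j e / Y = j e ^ (l + 1) / Wc θ j X M c := by
      rw [hY, pow_succ]
      field_simp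
    rw [e1]
    exact hch4
  · have e1 : j (M * e ^ l) * Y = j M * Wc θ j X M c := by
      rw [map_mul, map_pow, hY]
      field_simp
    rw [e1]
    exact mx_mul (hO (sg.hB M hMB)) (hdom _ (sg.hW c))

/-- Proof. `regular_y` for `B`, `I = Bool`, `e i = if i then s else t` (`P2.rp`), `M`, `Y = Wc θ j X M c`, which is in `mx O` (`Sg.hW`); `h0`, `hs`: `P2.gen`; `hw`: `P2.mem_mp` with `n = 2`.
`hfr`: `F = frSub (piW j B (evY ..)) O'` (`NT9.GeSub`) in `Ch0`, see `case_z`. -/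
theorem case_0 (cd : CD B0 θ j f t T X lam Pm qv r) (hle : B0 ≤ B) {s u M : K0} (h : P2 B s u)
    (hMB : M ∈ B) (hM0 : M ≠ 0) {O O' : Subring K} [IsLocalRing O] [IsLocalRing O']
    (sg : Sg θ j X B M O) (hd0 : d0 t T X / M ∈ mp B 1)
    (hds : ∀ s, ds f t lam X s / M ∈ mp B 1) (hw : wv f t T lam X / M ^ 2 ∈ mp B 2)
    (hO : O ≤ O') (hdom : ∀ x ∈ mx O, x ∈ mx O') {c : σ}
    (ch : Ch0 O O' (Wc θ j X M) (j s) (j u) c) : IsRegularLocalRing O' := by
  have _ := h.loc
  obtain ⟨hWc0, hch2, hch3, hch4, hch5⟩ := ch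
  have hdiv : ∀ x : K0, x / M ∈ mp B 1 → ∃ a : Bool → K0, (∀ i, a i ∈ B) ∧
      x = M * ∑ i, a i * (fun i : Bool => if i then s else u) i := by
    intro x hx
    obtain ⟨a, ha, b, hb, hab⟩ := h.gen _ (mp_one_iff.1 hx)
    refine ⟨fun i => if i then a else b, fun i => ?_, ?_⟩
    · cases i
      · simpa using hb
      · simpa using ha
    · rw [Fintype.sum_bool]
      simp only [if_true, Bool.false_eq_true, if_false]
      rw [← hab]
      field_simp
  have hw' : ∃ c : Bool → Bool → K0, (∀ i i', c i i' ∈ B) ∧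
      wv f t T lam X = M ^ 2 * ∑ i, ∑ i', c i i' * (fun i : Bool => if i then s else u) i *
        (fun i : Bool => if i then s else u) i' := by
    obtain ⟨c, hc, hcw⟩ := h.mem_mp.1 hw
    refine ⟨fun i i' => if i then (if i' then c 2 else c 1) else (if i' then 0 else c 0),
      fun i i' => ?_, ?_⟩
    · cases i <;> cases i' <;> simp [hc, B.zero_mem]
    · have e1 : wv f t T lam X = M ^ 2 * (wv f t T lam X / M ^ 2) := by field_simp
      rw [e1, hcw, Fintype.sum_bool, Fintype.sum_bool, Fintype.sum_bool, Finset.sum_range_succ,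
        Finset.sum_range_succ, Finset.sum_range_succ, Finset.sum_range_zero]
      simp only [if_true, Bool.false_eq_true, if_false]
      ring
  set Y : K := Wc θ j X M c with hY
  set e : Bool → K0 := fun i : Bool => if i then s else u with he
  set F : Subring K := frSub (piW j B (evY θ j X M Y e)) O' with hF
  have hFB : ∀ b ∈ B, j b ∈ F := by
    intro b hb
    have h1 := map_mem_frSub (piW j B (evY θ j X M Y e)) O' (C (⟨b, hb⟩ : B))
    have h2 : piW j B (evY θ j X M Y e) (C (⟨b, hb⟩ : B)) = j b := by simp [piW]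
    rwa [h2] at h1
  have hFY : Y ∈ F := by
    have h1 := map_mem_frSub (piW j B (evY θ j X M Y e)) O'
      (MvPolynomial.X (Sum.inr (Sum.inl ())))
    have h2 : piW j B (evY θ j X M Y e) (MvPolynomial.X (Sum.inr (Sum.inl ()))) = Y := by
      simp [piW, evY]
    rwa [h2] at h1
  have hFV : ∀ s', Wc θ j X M s' / Y ∈ F := by
    intro s'
    have h1 := map_mem_frSub (piW j B (evY θ j X M Y e)) O' (MvPolynomial.X (Sum.inl s'))
    have h2 : piW j B (evY θ j X M Y e) (MvPolynomial.X (Sum.inl s')) = Wc θ j X M s' / Y := by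
      simp [piW, evY]
    rwa [h2] at h1
  have hFU : ∀ i, j (e i) / Y ∈ F := by
    intro i
    have h1 := map_mem_frSub (piW j B (evY θ j X M Y e)) O'
      (MvPolynomial.X (Sum.inr (Sum.inr i)))
    have h2 : piW j B (evY θ j X M Y e) (MvPolynomial.X (Sum.inr (Sum.inr i))) =
        j (e i) / Y := by
      simp [piW, evY]
    rwa [h2] at h1
  have hFinv : ∀ x ∈ F, x⁻¹ ∈ O' → x⁻¹ ∈ F := frSub_inv _ _
  have hOF : O ≤ F := by
    refine cm_le_fr sg hO hFB (fun s' => ?_) hFinv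
    have e1 : Wc θ j X M s' = Wc θ j X M s' / Y * Y := by field_simp
    rw [e1]
    exact F.mul_mem (hFV s') hFY
  have hO'F : O' ≤ F := by
    refine hch5 F hOF hFV ?_ ?_ hFinv
    · have := hFU true
      simpa [he] using this
    · have := hFU false
      simpa [he] using this
  refine regular_y cd hle h.rp hMB hM0 (hdiv _ hd0) (fun s' => hdiv _ (hds s')) hw'
    (fun b hb => hO (sg.hB b hb)) (fun b hb => hdom _ (sg.hm b hb)) (Y := Y) hWc0
    (hO (mx_le (sg.hW c))) (l := c) rfl hch2 (fun i => ?_)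
    (mx_mul (hO (sg.hB M hMB)) (hdom _ (sg.hW c))) (fun x hx => (mem_frSub _ _ x).1 (hO'F hx))
  cases i
  · simpa using hch4
  · simpa using hch3

end Pool.Agent.EvM
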