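import Pool.Agent.EvM.EmRegZ
import Pool.Agent.EvM.EmExQ
import Pool.Agent.EvM.EmChart
import Pool.Agent.EvM.EmQTc

set_option autoImplicit false

/-! # The chart `Z` of the blow up of a node -/

namespace Pool.Agent.EvM

open MvPolynomial Pool.Agent.NT9

variable {σ : Type} [Fintype σ] [DecidableEq σ] {K0 K : Type} [Field K0] [Field K]
  {B0 B : Subring K0} {θ : MvPolynomial σ ℤ →+* K} {j : K0 →+* K} {f t : MvPolynomial σ ℤ}
  {T lam : K0} {X : σ → K0} {Pm : σ → σ → K0} {qv r : σ → K0}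

omit [Fintype σ] [DecidableEq σ] in
private theorem cz_le_fr {M : K0} {O O' F : Subring K} (sg : Sg θ j X B M O) (hO : O ≤ O')
    (hC : ∀ b ∈ B, j b ∈ F) (hW : ∀ s, Wc θ j X M s ∈ F)
    (hinv : ∀ x ∈ F, x⁻¹ ∈ O' → x⁻¹ ∈ F) : O ≤ F := by
  have hev : ∀ h : MvPolynomial σ B, piW j B (Wc θ j X M) h ∈ F := by
    intro h
    induction h using MvPolynomial.induction_on with
    | C b =>
      have h1 : piW j B (Wc θ j X M) (C b) = j b := by simp [piW]
      rw [h1]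
      exact hC _ b.2
    | add p q hp hq =>
      rw [map_add]
      exact add_mem hp hq
    | mul_X p i hp =>
      have h1 : piW j B (Wc θ j X M) (MvPolynomial.X i) = Wc θ j X M i := by simp [piW]
      rw [map_mul, h1]
      exact mul_mem hp (hW i)
  intro x hx
  obtain ⟨u, v, hv0, hvO, h1⟩ := sg.fr x hx
  have e1 : x = piW j B (Wc θ j X M) u * (piW j B (Wc θ j X M) v)⁻¹ := by
    rw [← h1, mul_assoc, mul_inv_cancel₀ hv0, mul_one]
  rw [e1]
  exact F.mul_mem (hev u) (hinv _ (hev v) (hO hvO))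

/-- Proof. `exists_qt`: `B'`; `M' = M e ^ k`, `Wc θ j X M' s = Wc θ j X M s / j e ^ k ∈ O'`. `hfr`: `F = frSub (piW j B' (Wc θ j X M')) O'` (`NT9.GeSub`) in `ChZ`; `O ≤ F` since `F` contains `j b` (`b ∈ B`) and the
`Wc θ j X M s`, so all `piW j B (Wc θ j X M) u`, and the inverses of those which are units of `O` (`Sg.fr`). `d0 / M' = e (d0 / M / e ^ (k + 1)) ∈ mx B'` by `qt_pow`. `regular_z` for `B'`, `M'`
(`B'` is regular: `qt_rp`); if `O'` is not regular all `Wc θ j X M' s ∈ mx O'` and `wv / M' ^ 2 ∈ mp B' 2`. -/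
theorem case_z (cd : CD B0 θ j f t T X lam Pm qv r) (hle : B0 ≤ B) {e e' M : K0} (h : P2 B e e')
    (hMB : M ∈ B) (hM0 : M ≠ 0) {O O' : Subring K} [IsLocalRing O] [IsLocalRing O']
    (sg : Sg θ j X B M O) {k : ℕ} (hk : 1 ≤ k) (hd0 : d0 t T X / M ∈ mp B (k + 1))
    (hds : ∀ s, ds f t lam X s / M ∈ mp B (k + 1)) (hw : wv f t T lam X / M ^ 2 ∈ mp B (2 * k))
    (hO : O ≤ O') (hdom : ∀ x ∈ mx O, x ∈ mx O')
    (ch : ChZ O O' (Wc θ j X M) (j e) (j e') k) :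
    IsRegularLocalRing O' ∨ ∃ B' : Subring K0, QT B e e' B' ∧
      wv f t T lam X / (M * e ^ k) ^ 2 ∈ mp B' 2 ∧ Sg θ j X B' (M * e ^ k) O' := by
  have _ := h.loc
  have he0 := h.s0
  have hje : j e ≠ 0 := (map_ne_zero j).2 he0
  obtain ⟨B', q, hB', hm'⟩ := exists_qt (O' := O') (j := j) he0 (fun b hb => hO (sg.hB b hb))
    (fun b hb => hdom _ (sg.hm b hb)) ch.1
  have _ := q.loc
  have heB' : e ∈ mx B' := q.dom e h.hs
  have hWc : ∀ s, Wc θ j X (M * e ^ k) s = Wc θ j X M s / j e ^ k := by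
    intro s
    unfold Wc
    rw [map_mul, map_pow, div_div]
  have hMe0 : M * e ^ k ≠ 0 := mul_ne_zero hM0 (pow_ne_zero _ he0)
  have hMe : M * e ^ k ∈ mx B' := by
    obtain ⟨k', rfl⟩ : ∃ k', k = k' + 1 := ⟨k - 1, by omega⟩
    rw [pow_succ, ← mul_assoc]
    exact mx_mul (B'.mul_mem (q.le hMB) (B'.pow_mem (mx_le heB') _)) heB'
  have hdiv : ∀ x : K0, x / M ∈ mp B (k + 1) → x / (M * e ^ k) ∈ mx B' := by
    intro x hx
    have e1 : x / (M * e ^ k) = x / M / e ^ (k + 1) * e := by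
      rw [pow_succ]
      field_simp
    rw [e1]
    exact mx_mul (qt_pow h q hx) heB'
  have hw' : wv f t T lam X / (M * e ^ k) ^ 2 ∈ B' := by
    have e1 : wv f t T lam X / (M * e ^ k) ^ 2 = wv f t T lam X / M ^ 2 / e ^ (2 * k) := by
      rw [mul_pow, div_div, ← pow_mul, Nat.mul_comm k 2]
    rw [e1]
    exact qt_pow h q hw
  have hWO : ∀ s, Wc θ j X (M * e ^ k) s ∈ O' := by
    intro s
    rw [hWc]
    exact ch.2.1 s
  set F : Subring K := frSub (piW j B' (Wc θ j X (M * e ^ k))) O' with hF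
  have hFB : ∀ b ∈ B', j b ∈ F := by
    intro b hb
    have h1 := map_mem_frSub (piW j B' (Wc θ j X (M * e ^ k))) O' (C (⟨b, hb⟩ : B'))
    have h2 : piW j B' (Wc θ j X (M * e ^ k)) (C (⟨b, hb⟩ : B')) = j b := by simp [piW]
    rwa [h2] at h1
  have hFW : ∀ s, Wc θ j X M s / j e ^ k ∈ F := by
    intro s
    have h1 := map_mem_frSub (piW j B' (Wc θ j X (M * e ^ k))) O' (MvPolynomial.X s)
    have h2 : piW j B' (Wc θ j X (M * e ^ k)) (MvPolynomial.X s) = Wc θ j X M s / j e ^ k := by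
      simp [piW, hWc]
    rwa [h2] at h1
  have hFinv : ∀ x ∈ F, x⁻¹ ∈ O' → x⁻¹ ∈ F := frSub_inv _ _
  have hOF : O ≤ F := by
    refine cz_le_fr sg hO (fun b hb => hFB b (q.le hb)) (fun s => ?_) hFinv
    have e1 : Wc θ j X M s = Wc θ j X M s / j e ^ k * j (e ^ k) := by
      rw [map_pow]
      field_simp
    rw [e1]
    exact F.mul_mem (hFW s) (hFB _ (B'.pow_mem (mx_le heB') _))
  have hO'F : O' ≤ F := by
    refine ch.2.2 F hOF ?_ hFW hFinv
    rw [← map_div₀]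
    exact hFB _ q.tau
  have hfr : ∀ x ∈ O', ∃ u v : MvPolynomial σ B', piW j B' (Wc θ j X (M * e ^ k)) v ≠ 0 ∧
      (piW j B' (Wc θ j X (M * e ^ k)) v)⁻¹ ∈ O' ∧
      x * piW j B' (Wc θ j X (M * e ^ k)) v = piW j B' (Wc θ j X (M * e ^ k)) u :=
    fun x hx => (mem_frSub _ _ x).1 (hO'F hx)
  by_cases hns : (∃ s, Wc θ j X (M * e ^ k) s ∉ mx O') ∨
      wv f t T lam X / (M * e ^ k) ^ 2 ∉ mp B' 2
  · exact Or.inl (regular_z cd (hle.trans q.le) (qt_rp h q).reg hMe hMe0 (hdiv _ hd0)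
      (fun s => hdiv _ (hds s)) hw' hB' hm' hWO hfr hns)
  · push Not at hns
    exact Or.inr ⟨B', q, hns.2, hB', hm', hns.1, hfr⟩

end Pool.Agent.EvM
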