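import Pool.Agent.EvM.EmCount

set_option autoImplicit false

/-! # counting: powers and chains -/

namespace Pool.Agent.EvM

/-- Representatives `∑ π^l y_l`. -/
theorem count_pow {C : Type} [CommRing C] {π : C} {κ : ℕ} (h : QB π κ) (L : ℕ) :
    QB (π ^ L) (κ ^ L) := by
  classical
  obtain ⟨S, hS, hc⟩ := h
  induction L with
  | zero =>
    refine ⟨{0}, by simp, fun x => ⟨0, by simp, x, by simp⟩⟩
  | succ L ih =>
    obtain ⟨T, hT, hTc⟩ := ih
    refine ⟨(T ×ˢ S).image fun z => z.1 + π ^ L * z.2, ?_, fun x => ?_⟩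
    · refine Finset.card_image_le.trans ?_
      rw [Finset.card_product, pow_succ]
      exact Nat.mul_le_mul hT hS
    · obtain ⟨y, hy, c, rfl⟩ := hTc x
      obtain ⟨z, hz, c', rfl⟩ := hc c
      refine ⟨y + π ^ L * z, Finset.mem_image.2 ⟨(y, z), Finset.mem_product.2 ⟨hy, hz⟩, rfl⟩,
        c', ?_⟩
      ring

private theorem cnt_index {C : Type} [CommRing C] {π : C} {m : ℕ} (h : QB π m) :
    (AddMonoidHom.mulLeft π).range.index ≠ 0 ∧ (AddMonoidHom.mulLeft π).range.index ≤ m := by
  classical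
  obtain ⟨S, hS, hc⟩ := h
  choose g hgS c hg using hc
  let f : (C ⧸ (AddMonoidHom.mulLeft π).range) → S := fun q => ⟨g q.out, hgS q.out⟩
  have hf : Function.Injective f := by
    intro q q' hqq
    have h1 : g q.out = g q'.out := congrArg Subtype.val hqq
    rw [← QuotientAddGroup.out_eq' q, ← QuotientAddGroup.out_eq' q', QuotientAddGroup.eq]
    refine ⟨c q'.out - c q.out, ?_⟩
    show π * (c q'.out - c q.out) = -q.out + q'.out
    have h2 := hg q.out
    have h3 := hg q'.out
    rw [h1] at h2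
    linear_combination h2 - h3
  have hfin : Finite (C ⧸ (AddMonoidHom.mulLeft π).range) := Finite.of_injective f hf
  have hcard := Nat.card_le_card_of_injective f hf
  rw [Nat.card_eq_fintype_card (α := S), Fintype.card_coe] at hcard
  exact ⟨AddSubgroup.index_ne_zero_of_finite, hcard.trans hS⟩

private theorem cnt_qb {C : Type} [CommRing C] {π : C} {m : ℕ}
    (h : (AddMonoidHom.mulLeft π).range.index ≠ 0) (h' : (AddMonoidHom.mulLeft π).range.index ≤ m) :
    QB π m := by
  classical
  have hfin : Finite (C ⧸ (AddMonoidHom.mulLeft π).range) := AddSubgroup.index_ne_zero_iff_finite.1 h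
  let _ : Fintype (C ⧸ (AddMonoidHom.mulLeft π).range) := Fintype.ofFinite _
  refine ⟨Finset.univ.image fun q : C ⧸ (AddMonoidHom.mulLeft π).range => q.out, ?_, fun x => ?_⟩
  · refine Finset.card_image_le.trans ?_
    rw [Finset.card_univ, ← Nat.card_eq_fintype_card]
    exact h'
  refine ⟨(QuotientAddGroup.mk x : C ⧸ (AddMonoidHom.mulLeft π).range).out,
    Finset.mem_image_of_mem _ (Finset.mem_univ _), ?_⟩
  have h1 : (QuotientAddGroup.mk (QuotientAddGroup.mk x : C ⧸ (AddMonoidHom.mulLeft π).range).out :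
    C ⧸ (AddMonoidHom.mulLeft π).range) = QuotientAddGroup.mk x := QuotientAddGroup.out_eq' _
  obtain ⟨c, hc⟩ := QuotientAddGroup.eq.1 h1
  refine ⟨c, ?_⟩
  have hc' : π * c = -(QuotientAddGroup.mk x : C ⧸ (AddMonoidHom.mulLeft π).range).out + x := hc
  rw [hc']
  abel

private theorem cnt_step {C : Type} [CommRing C] [IsDomain C] {e c : C} (he : ¬ IsUnit e)
    (h0 : e * c ≠ 0) {m : ℕ} (h : QB (e * c) m) : QB c (m / 2) := by
  have h1 := cnt_index h
  have he0 : e ≠ 0 := left_ne_zero_of_mul h0
  have hinj : Function.Injective (AddMonoidHom.mulLeft e) := mul_right_injective₀ he0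
  have e1 : (AddMonoidHom.mulLeft (e * c)).range =
      (AddMonoidHom.mulLeft c).range.map (AddMonoidHom.mulLeft e) := by
    ext x
    constructor
    · rintro ⟨y, rfl⟩
      exact ⟨c * y, ⟨y, rfl⟩, (mul_assoc e c y).symm⟩
    · rintro ⟨_, ⟨y, rfl⟩, rfl⟩
      exact ⟨y, mul_assoc e c y⟩
  have e2 : (AddMonoidHom.mulLeft e).range = (⊤ : AddSubgroup C).map (AddMonoidHom.mulLeft e) :=
    AddMonoidHom.range_eq_map _
  have hle : (AddMonoidHom.mulLeft (e * c)).range ≤ (AddMonoidHom.mulLeft e).range := by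
    rw [e1, e2]
    exact AddSubgroup.map_mono le_top
  have e3 := AddSubgroup.relIndex_mul_index hle
  have e4 : (AddMonoidHom.mulLeft (e * c)).range.relIndex (AddMonoidHom.mulLeft e).range =
      (AddMonoidHom.mulLeft c).range.index := by
    rw [e1, e2, AddSubgroup.relIndex_map_map_of_injective _ _ hinj, AddSubgroup.relIndex_top_right]
  rw [e4] at e3
  have h2 : (AddMonoidHom.mulLeft e).range.index ≠ 1 := by
    intro h3
    rw [AddSubgroup.index_eq_one] at h3
    have h4 : (1 : C) ∈ (AddMonoidHom.mulLeft e).range := by rw [h3]; trivial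
    obtain ⟨y, hy⟩ := h4
    exact he (IsUnit.of_mul_eq_one y hy)
  have h3 : (AddMonoidHom.mulLeft c).range.index ≠ 0 := by
    intro h4
    rw [h4, zero_mul] at e3
    exact h1.1 e3.symm
  have h4 : (AddMonoidHom.mulLeft e).range.index ≠ 0 := by
    intro h5
    rw [h5, mul_zero] at e3
    exact h1.1 e3.symm
  apply cnt_qb h3
  rw [Nat.le_div_iff_mul_le (by norm_num)]
  calc (AddMonoidHom.mulLeft c).range.index * 2 ≤
      (AddMonoidHom.mulLeft c).range.index * (AddMonoidHom.mulLeft e).range.index :=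
        Nat.mul_le_mul_left _ (by omega)
    _ = _ := e3
    _ ≤ m := h1.2

/-- Proof. `P l = ∏ of the first l elements`; the `2^i` elements `∑ over l in a subset of P l` ... or: `C > P 1 C > .. > P i C ≥ π C`, each index `≥ 2` since `e l` is not a unit and `C` is a
domain. For a proof by induction on `i` with `QB`: if `C / (e c) C` has at most `m` elements, `e` not a unit, `e ≠ 0`, then `C / c C` has at most `m / 2` elements (the map
`y ↦ e y` embeds `C / c` in `C / (e c)`, its image `e C / (e c) C` is a proper subgroup). -/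
theorem count_chain {C : Type} [CommRing C] [IsDomain C] {i : ℕ} (e : Fin i → C)
    (he : ∀ l, ¬ IsUnit (e l)) {π c : C} (h0 : π ≠ 0) (hπ : π = (∏ l, e l) * c) {m : ℕ}
    (h : QB π m) : 2 ^ i ≤ m := by
  induction i generalizing π m with
  | zero =>
    obtain ⟨S, hS, hc⟩ := h
    obtain ⟨y, hy, -⟩ := hc 0
    rw [pow_zero]
    exact (Finset.card_pos.2 ⟨y, hy⟩).trans_le hS
  | succ i ih =>
    rw [Fin.prod_univ_succ, mul_assoc] at hπ
    rw [hπ] at h h0
    have h1 := cnt_step (he 0) h0 h
    have h2 := ih (fun l => e l.succ) (fun l => he l.succ) (right_ne_zero_of_mul h0) rfl h1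
    rw [pow_succ]
    rw [Nat.le_div_iff_mul_le (by norm_num)] at h2
    exact h2

end Pool.Agent.EvM
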