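import Mathlib

set_option autoImplicit false

/-! # counting: subrings -/

namespace Pool.Agent.EvM

/-- `C / π C` has at most `κ` elements. -/
def QB {C : Type} [CommRing C] (π : C) (κ : ℕ) : Prop :=
  ∃ S : Finset C, S.card ≤ κ ∧ ∀ x : C, ∃ y ∈ S, ∃ c : C, x = y + π * c

private theorem cnt_cover {C : Type} [AddCommGroup C] (H K : AddSubgroup C) (S : Finset C)
    (h : ∀ x ∈ K, ∃ y ∈ S, x - y ∈ H) : H.relIndex K ≠ 0 ∧ H.relIndex K ≤ S.card := by
  classical
  choose g hgS hg using fun x : K => h x.1 x.2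
  let f : (K ⧸ H.addSubgroupOf K) → S := fun q => ⟨g q.out, hgS q.out⟩
  have hf : Function.Injective f := by
    intro q q' hqq
    have h1 : g q.out = g q'.out := congrArg Subtype.val hqq
    rw [← QuotientAddGroup.out_eq' q, ← QuotientAddGroup.out_eq' q', QuotientAddGroup.eq,
      AddSubgroup.mem_addSubgroupOf]
    have h2 := H.sub_mem (hg q'.out) (hg q.out)
    rw [h1] at h2
    have h3 : ((-q.out + q'.out : K) : C) = ((q'.out : K) : C) - g q'.out -
        (((q.out : K) : C) - g q'.out) := by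
      push_cast
      abel
    rw [h3]
    exact h2
  have hfin : Finite (K ⧸ H.addSubgroupOf K) := Finite.of_injective f hf
  have hcard := Nat.card_le_card_of_injective f hf
  rw [Nat.card_eq_fintype_card (α := S), Fintype.card_coe] at hcard
  exact ⟨AddSubgroup.index_ne_zero_of_finite, hcard⟩

/-- Proof. Otherwise there are `κ + 1` elements `x_0, ..` of `C` pairwise incongruent modulo `π C`. Take `r` with `π^r x_i ∈ C0`, `C1 = C0 + ∑ x_i C0 ≤ π^(-r) C0`. As additive groups
`[C1 : C0]` is finite (`[π^(-r) C0 : C0] = [C0 : π^r C0]` is finite), `[C1 : π C1] [π C1 : π C0] = [C1 : C0] [C0 : π C0]`, and `[π C1 : π C0] = [C1 : C0]`, so `[C1 : π C1] = [C0 : π C0] ≤ κ`: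
two of the `x_i` are congruent modulo `π C1`. (Without division: work with `π^r C1 ≤ C0`.) -/
theorem count_sub {C : Type} [CommRing C] [IsDomain C] (C0 : Subring C) (π : C) (h0 : π ≠ 0)
    (hπ : π ∈ C0) (htor : ∀ c : C, ∃ r : ℕ, π ^ r * c ∈ C0) {κ : ℕ} {S : Finset C}
    (hS : S.card ≤ κ) (h : ∀ x ∈ C0, ∃ y ∈ S, ∃ c ∈ C0, x = y + π * c) : QB π κ := by
  classical
  let m : C →+ C := AddMonoidHom.mulLeft π
  let mp : ℕ → C →+ C := fun k => AddMonoidHom.mulLeft (π ^ k)
  have hm : Function.Injective m := mul_right_injective₀ h0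
  have hmp : ∀ k, Function.Injective (mp k) := fun k => mul_right_injective₀ (pow_ne_zero k h0)
  let A0 : AddSubgroup C := C0.toAddSubgroup
  let A : ℕ → AddSubgroup C := fun r => A0.comap (mp r)
  have hq := cnt_cover (A0.map m) A0 S (by
    intro x hx
    obtain ⟨y, hy, c, hc, rfl⟩ := h x hx
    refine ⟨y, hy, ?_⟩
    rw [add_sub_cancel_left]
    exact ⟨c, hc, rfl⟩)
  have hle0 : A0.map m ≤ A0 := by
    rintro _ ⟨c, hc, rfl⟩
    exact C0.mul_mem hπ hc
  have hleA : ∀ r, A0 ≤ A r := fun r x hx => C0.mul_mem (C0.pow_mem hπ r) hx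
  have hleAm : ∀ r, (A r).map m ≤ A r := by
    rintro r _ ⟨c, hc, rfl⟩
    show π ^ r * (π * c) ∈ C0
    rw [mul_left_comm]
    exact C0.mul_mem hπ hc
  have hpow : ∀ k, (A0.map (mp k)).relIndex A0 ≠ 0 := by
    intro k
    induction k with
    | zero =>
      have h1 : A0.map (mp 0) = A0 := by
        ext x
        constructor
        · rintro ⟨c, hc, rfl⟩
          show π ^ 0 * c ∈ C0
          rw [pow_zero, one_mul]
          exact hc
        · intro hx
          refine ⟨x, hx, ?_⟩
          show π ^ 0 * x = x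
          rw [pow_zero, one_mul]
      rw [h1, AddSubgroup.relIndex_self]
      exact one_ne_zero
    | succ k ih =>
      have h1 : A0.map (mp (k + 1)) = (A0.map (mp k)).map m := by
        rw [AddSubgroup.map_map]
        congr 1
        ext x
        show π ^ (k + 1) * x = π * (π ^ k * x)
        ring
      have h2 : ((A0.map (mp k)).map m).relIndex (A0.map m) ≠ 0 := by
        rw [AddSubgroup.relIndex_map_map_of_injective _ _ hm]
        exact ih
      rw [h1]
      exact AddSubgroup.relIndex_ne_zero_trans h2 hq.1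
  have hN : ∀ r, A0.relIndex (A r) ≠ 0 := by
    intro r hr
    rw [← AddSubgroup.relIndex_map_map_of_injective _ _ (hmp r)] at hr
    refine hpow r (AddSubgroup.relIndex_eq_zero_of_le_right ?_ hr)
    rintro _ ⟨c, hc, rfl⟩
    exact hc
  have hX : ∀ r, ((A r).map m).relIndex (A r) = (A0.map m).relIndex A0 := by
    intro r
    have e1 := AddSubgroup.relIndex_mul_relIndex (A0.map m) ((A r).map m) (A r)
      (AddSubgroup.map_mono (hleA r)) (hleAm r)
    have e2 := AddSubgroup.relIndex_mul_relIndex (A0.map m) A0 (A r) hle0 (hleA r)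
    rw [AddSubgroup.relIndex_map_map_of_injective _ _ hm] at e1
    have e3 : A0.relIndex (A r) * ((A r).map m).relIndex (A r) =
        A0.relIndex (A r) * (A0.map m).relIndex A0 := by
      rw [e1, ← e2, mul_comm]
    exact Nat.eq_of_mul_eq_mul_left (Nat.pos_of_ne_zero (hN r)) e3
  -- the quotient
  have hbound : ∀ F : Finset (C ⧸ m.range), F.card ≤ κ := by
    intro F
    choose r hr using htor
    let R : ℕ := F.sup fun q => r q.out
    have hmem : ∀ q ∈ F, q.out ∈ A R := by
      intro q hq
      show π ^ R * q.out ∈ C0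
      have h1 : r q.out ≤ R := Finset.le_sup (f := fun q => r q.out) hq
      rw [← Nat.sub_add_cancel h1, pow_add, mul_assoc]
      exact C0.mul_mem (C0.pow_mem hπ _) (hr _)
    let f : F → (A R ⧸ ((A R).map m).addSubgroupOf (A R)) := fun q =>
      QuotientAddGroup.mk ⟨q.1.out, hmem q.1 q.2⟩
    have hf : Function.Injective f := by
      intro q q' hqq
      have h1 := QuotientAddGroup.eq.1 hqq
      rw [AddSubgroup.mem_addSubgroupOf] at h1
      obtain ⟨c, -, hc⟩ := h1
      apply Subtype.ext
      rw [← QuotientAddGroup.out_eq' q.1, ← QuotientAddGroup.out_eq' q'.1, QuotientAddGroup.eq]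
      exact ⟨c, hc⟩
    have hne : ((A R).map m).relIndex (A R) ≠ 0 := by rw [hX]; exact hq.1
    have hfin : Finite (A R ⧸ ((A R).map m).addSubgroupOf (A R)) :=
      AddSubgroup.index_ne_zero_iff_finite.1 hne
    have hcard := Nat.card_le_card_of_injective f hf
    rw [Nat.card_eq_fintype_card (α := F), Fintype.card_coe] at hcard
    refine hcard.trans ?_
    have h2 : Nat.card (A R ⧸ ((A R).map m).addSubgroupOf (A R)) =
        ((A R).map m).relIndex (A R) := rfl
    rw [h2, hX]
    exact hq.2.trans hS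
  let _ : Fintype (C ⧸ m.range) := fintypeOfFinsetCardLe κ hbound
  refine ⟨Finset.univ.image fun q : C ⧸ m.range => q.out, Finset.card_image_le.trans
    (hbound Finset.univ), fun x => ?_⟩
  refine ⟨(QuotientAddGroup.mk x : C ⧸ m.range).out, Finset.mem_image_of_mem _ (Finset.mem_univ _),
    ?_⟩
  have h1 : (QuotientAddGroup.mk (QuotientAddGroup.mk x : C ⧸ m.range).out : C ⧸ m.range) =
    QuotientAddGroup.mk x := QuotientAddGroup.out_eq' _
  obtain ⟨c, hc⟩ := QuotientAddGroup.eq.1 h1
  refine ⟨c, ?_⟩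
  have hc' : π * c = -(QuotientAddGroup.mk x : C ⧸ m.range).out + x := hc
  rw [hc']
  abel

end Pool.Agent.EvM
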