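import Pool.Agent.EvM.EmDefs
import Pool.Agent.NT9.GeSing

set_option autoImplicit false

/-! # The function t -/

namespace Pool.Agent.EvM

open MvPolynomial Pool.Agent.NT9

variable {σ : Type} [Fintype σ] [DecidableEq σ] {K : Type} [Field K]

/-- `t` has the differential `c` at `M` and generates the residue field; it is transcendental. -/
structure GT (θ : MvPolynomial σ ℤ →+* K) (M : Ideal (MvPolynomial σ ℤ))
    (c : σ → MvPolynomial σ ℤ) (t : MvPolynomial σ ℤ) : Prop where
  dt : ∀ s, pderiv s t - c s ∈ M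
  sur : ∀ h : MvPolynomial σ ℤ, ∃ g : Polynomial ℤ, h - Polynomial.aeval t g ∈ M
  tr : ∀ g : Polynomial ℤ, θ (Polynomial.aeval t g) = 0 → g = 0

/-- Proof. `k = ℤ[x] / M` is finite (`NT9.finite_quot` in GeSing), `q = card k`, `α` with class a generator of the cyclic group of units of `k`. `t = α ^ q - ∑ s, c s * (X s ^ q - X s)`: `α ^ q ≡ α`,
`X s ^ q - X s ∈ M`, `pderiv s (α ^ q) = q .. ∈ M`, `pderiv s' (c s * (X s ^ q - X s)) ≡ - c s δ`. Every element of `k` is zero or a power of the class of `t`. -/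
theorem exists_t0 {M : Ideal (MvPolynomial σ ℤ)} [M.IsMaximal] {p : ℕ} (hp : p.Prime)
    (hpM : (C (p : ℤ) : MvPolynomial σ ℤ) ∈ M) (c : σ → MvPolynomial σ ℤ) :
    ∃ t : MvPolynomial σ ℤ, (∀ s, pderiv s t - c s ∈ M) ∧
      ∀ h : MvPolynomial σ ℤ, ∃ g : Polynomial ℤ, h - Polynomial.aeval t g ∈ M := by
  have hfin := finite_quot hp hpM
  let _ : Field (MvPolynomial σ ℤ ⧸ M) := Ideal.Quotient.field M
  have : Fintype (MvPolynomial σ ℤ ⧸ M) := Fintype.ofFinite _
  let q : ℕ := Fintype.card (MvPolynomial σ ℤ ⧸ M)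
  have hqM : ∀ g : MvPolynomial σ ℤ, (q : MvPolynomial σ ℤ) * g ∈ M := by
    intro g
    apply M.mul_mem_right
    rw [← Ideal.Quotient.eq_zero_iff_mem, map_natCast]
    exact FiniteField.cast_card_eq_zero _
  have hpow : ∀ g : MvPolynomial σ ℤ, g ^ q - g ∈ M := by
    intro g
    rw [← Ideal.Quotient.eq_zero_iff_mem, map_sub, map_pow, FiniteField.pow_card, sub_self]
  obtain ⟨u, hu⟩ := IsCyclic.exists_generator (α := (MvPolynomial σ ℤ ⧸ M)ˣ)
  obtain ⟨α, hα⟩ := Ideal.Quotient.mk_surjective (u : MvPolynomial σ ℤ ⧸ M)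
  refine ⟨α ^ q - ∑ s, c s * (X s ^ q - X s), fun s => ?_, fun h => ?_⟩
  · have h1 : pderiv s (α ^ q - ∑ s', c s' * (X s' ^ q - X s')) - c s =
        (q : MvPolynomial σ ℤ) * (α ^ (q - 1) * pderiv s α) -
          ∑ s', (pderiv s (c s') * (X s' ^ q - X s') +
            (q : MvPolynomial σ ℤ) * (c s' * (X s' ^ (q - 1) * pderiv s (X s')))) := by
      rw [map_sub, map_sum]
      have h2 : ∀ s', pderiv s (c s' * (X s' ^ q - X s')) =
          (pderiv s (c s') * (X s' ^ q - X s') +
            (q : MvPolynomial σ ℤ) * (c s' * (X s' ^ (q - 1) * pderiv s (X s')))) -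
          c s' * pderiv s (X s') := by
        intro s'
        rw [Derivation.leibniz, map_sub, Derivation.leibniz_pow]
        simp only [smul_eq_mul, nsmul_eq_mul]
        ring
      rw [Finset.sum_congr rfl fun s' _ => h2 s', Finset.sum_sub_distrib]
      have h3 : ∑ s', c s' * pderiv s (X s' : MvPolynomial σ ℤ) = c s := by
        rw [Finset.sum_eq_single s]
        · rw [pderiv_X_self, mul_one]
        · intro b _ hb
          rw [pderiv_X_of_ne hb, mul_zero]
        · intro hs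
          exact absurd (Finset.mem_univ s) hs
      rw [h3, Derivation.leibniz_pow]
      simp only [smul_eq_mul, nsmul_eq_mul]
      ring
    rw [h1]
    refine sub_mem (hqM _) (sum_mem fun s' _ => add_mem (M.mul_mem_left _ (hpow _)) (hqM _))
  · by_cases hM : h ∈ M
    · exact ⟨0, by rwa [map_zero, sub_zero]⟩
    · have h0 : (Ideal.Quotient.mk M h) ≠ 0 := fun h1 => hM (Ideal.Quotient.eq_zero_iff_mem.1 h1)
      obtain ⟨i, hi⟩ : ∃ i : ℕ, u ^ i = Units.mk0 _ h0 := by
        have h1 := hu (Units.mk0 _ h0)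
        rw [← mem_powers_iff_mem_zpowers] at h1
        exact h1
      refine ⟨Polynomial.X ^ i, ?_⟩
      rw [map_pow, Polynomial.aeval_X, ← Ideal.Quotient.eq_zero_iff_mem, map_sub, map_pow, sub_eq_zero]
      have h2 : Ideal.Quotient.mk M (α ^ q - ∑ s, c s * (X s ^ q - X s)) =
          (u : MvPolynomial σ ℤ ⧸ M) := by
        rw [← hα, Ideal.Quotient.mk_eq_mk_iff_sub_mem]
        have h3 : α ^ q - ∑ s, c s * (X s ^ q - X s) - α =
            (α ^ q - α) - ∑ s, c s * (X s ^ q - X s) := by ring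
        rw [h3]
        exact sub_mem (hpow _) (sum_mem fun s _ => M.mul_mem_left _ (hpow _))
      rw [h2]
      have h3 := congrArg (fun z : (MvPolynomial σ ℤ ⧸ M)ˣ => (z : MvPolynomial σ ℤ ⧸ M)) hi
      simp only [Units.val_pow_eq_pow_val, Units.val_mk0] at h3
      exact h3.symm

end Pool.Agent.EvM
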