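import Pool.Agent.EvM.EmTay

set_option autoImplicit false

/-! # Newton iteration for the critical points -/

namespace Pool.Agent.EvM

open MvPolynomial

variable {σ : Type} [Fintype σ] [DecidableEq σ] {B : Type} [CommRing B]

/-- The bordered Hessian of `f - lam t` at `X`. -/
noncomputable def JM (f t : MvPolynomial σ ℤ) (X : σ → B) (lam : B) :
    Matrix (Option σ) (Option σ) B := Matrix.of fun i i' =>
  match i, i' with
  | some s, some s' => aeval X (pderiv s (pderiv s' f)) - lam * aeval X (pderiv s (pderiv s' t))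
  | some s, none => - aeval X (pderiv s t)
  | none, some s' => aeval X (pderiv s' t)
  | none, none => 0

omit [Fintype σ] [DecidableEq σ] in
private theorem emh_cong (m : Ideal B) (X X0 : σ → B) (hX : ∀ s, X s - X0 s ∈ m)
    (g : MvPolynomial σ ℤ) : aeval X g - aeval X0 g ∈ m := by
  induction g using MvPolynomial.induction_on with
  | C a =>
    rw [algHom_C, algHom_C, sub_self]
    exact m.zero_mem
  | add p q hp hq =>
    rw [map_add, map_add, add_sub_add_comm]
    exact m.add_mem hp hq
  | mul_X p i hp =>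
    rw [map_mul, map_mul, aeval_X, aeval_X]
    have h1 : aeval X p * X i - aeval X0 p * X0 i =
        (aeval X p - aeval X0 p) * X i + aeval X0 p * (X i - X0 i) := by ring
    rw [h1]
    exact m.add_mem (m.mul_mem_right _ hp) (m.mul_mem_left _ (hX i))

omit [Fintype σ] [DecidableEq σ] in
private theorem emh_jm (m : Ideal B) (f t : MvPolynomial σ ℤ) (X X0 : σ → B)
    (hX : ∀ s, X s - X0 s ∈ m) (lam : B) (hlam : lam ∈ m) (i i' : Option σ) :
    JM f t X lam i i' - JM f t X0 0 i i' ∈ m := by
  rcases i with _ | s <;> rcases i' with _ | s'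
  · show (0 : B) - 0 ∈ m
    rw [sub_zero]
    exact m.zero_mem
  · exact emh_cong m X X0 hX _
  · show - aeval X (pderiv s t) - - aeval X0 (pderiv s t) ∈ m
    rw [← neg_sub', neg_mem_iff]
    exact emh_cong m X X0 hX _
  · show aeval X (pderiv s (pderiv s' f)) - lam * aeval X (pderiv s (pderiv s' t)) -
      (aeval X0 (pderiv s (pderiv s' f)) - 0 * aeval X0 (pderiv s (pderiv s' t))) ∈ m
    have h1 : aeval X (pderiv s (pderiv s' f)) - lam * aeval X (pderiv s (pderiv s' t)) -
      (aeval X0 (pderiv s (pderiv s' f)) - 0 * aeval X0 (pderiv s (pderiv s' t))) =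
      (aeval X (pderiv s (pderiv s' f)) - aeval X0 (pderiv s (pderiv s' f))) -
        lam * aeval X (pderiv s (pderiv s' t)) := by ring
    rw [h1]
    exact m.sub_mem (emh_cong m X X0 hX _) (m.mul_mem_right _ hlam)

private theorem emh_jmA (m : Ideal B) (f t : MvPolynomial σ ℤ) (X X0 : σ → B)
    (hX : ∀ s, X s - X0 s ∈ m) (lam : B) (hlam : lam ∈ m) (A : Matrix (Option σ) (Option σ) B)
    (hA : ∀ i i', (JM f t X0 0 * A - 1) i i' ∈ m) (i i' : Option σ) :
    (JM f t X lam * A - 1) i i' ∈ m := by
  have h1 : JM f t X lam * A - 1 = (JM f t X0 0 * A - 1) + (JM f t X lam - JM f t X0 0) * A := by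
    rw [sub_mul]
    abel
  rw [h1, Matrix.add_apply, Matrix.mul_apply]
  refine m.add_mem (hA i i') (m.sum_mem fun j _ => m.mul_mem_right _ ?_)
  rw [Matrix.sub_apply]
  exact emh_jm m f t X X0 hX lam hlam i j

/-- the functions to be killed -/
private noncomputable def emhF (f t : MvPolynomial σ ℤ) (T : B) (X : σ → B) (lam : B) :
    Option σ → B
  | some s => aeval X (pderiv s f) - lam * aeval X (pderiv s t)
  | none => aeval X t - T

private theorem emh_taylor (m : Ideal B) (n : ℕ) (h : MvPolynomial σ ℤ) (X u : σ → B)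
    (hu : ∀ s, u s ∈ m ^ n) :
    aeval (fun s => X s + u s) h - (aeval X h + ∑ s, aeval X (pderiv s h) * u s) ∈
      m ^ (n + n) := by
  obtain ⟨Q, hQ, -⟩ := taylor2 h
  rw [hQ, add_sub_cancel_left]
  refine Ideal.sum_mem _ fun s _ => Ideal.sum_mem _ fun s' _ => ?_
  rw [mul_assoc, pow_add]
  exact Ideal.mul_mem_left _ _ (Ideal.mul_mem_mul (hu s) (hu s'))

private theorem emh_comm (h : MvPolynomial σ ℤ) (X : σ → B) (s s' : σ) :
    aeval X (pderiv s (pderiv s' h)) = aeval X (pderiv s' (pderiv s h)) := by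
  obtain ⟨Q, -, hQ⟩ := taylor2 h
  rw [← hQ, ← hQ, add_comm]

private theorem emh_step (m : Ideal B) (n : ℕ) (f t : MvPolynomial σ ℤ) (T : B) (X u : σ → B)
    (lam v : B) (hu : ∀ s, u s ∈ m ^ n) (hv : v ∈ m ^ n) (i : Option σ) :
    emhF f t T (fun s => X s + u s) (lam + v) i -
      (emhF f t T X lam i + (JM f t X lam i none * v + ∑ s, JM f t X lam i (some s) * u s)) ∈
      m ^ (n + n) := by
  rcases i with _ | s
  · have h1 := emh_taylor m n t X u hu
    show aeval (fun s => X s + u s) t - T -
      (aeval X t - T + (0 * v + ∑ s, aeval X (pderiv s t) * u s)) ∈ m ^ (n + n)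
    have h2 : aeval (fun s => X s + u s) t - T -
      (aeval X t - T + (0 * v + ∑ s, aeval X (pderiv s t) * u s)) =
      aeval (fun s => X s + u s) t - (aeval X t + ∑ s, aeval X (pderiv s t) * u s) := by ring
    rw [h2]
    exact h1
  · have h1 := emh_taylor m n (pderiv s f) X u hu
    have h2 := emh_taylor m n (pderiv s t) X u hu
    have h3 : aeval (fun s => X s + u s) (pderiv s t) - aeval X (pderiv s t) ∈ m ^ n := by
      have h4 : aeval (fun s => X s + u s) (pderiv s t) - aeval X (pderiv s t) =
          (aeval (fun s => X s + u s) (pderiv s t) - (aeval X (pderiv s t) +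
            ∑ s', aeval X (pderiv s' (pderiv s t)) * u s')) +
            ∑ s', aeval X (pderiv s' (pderiv s t)) * u s' := by ring
      rw [h4]
      exact Ideal.add_mem _ (Ideal.pow_le_pow_right (by omega) h2)
        (Ideal.sum_mem _ fun s' _ => Ideal.mul_mem_left _ _ (hu s'))
    have h5 : v * (aeval (fun s => X s + u s) (pderiv s t) - aeval X (pderiv s t)) ∈
        m ^ (n + n) := by
      rw [pow_add]
      exact Ideal.mul_mem_mul hv h3
    have h6 : ∑ s', JM f t X lam (some s) (some s') * u s' =
        ∑ s', aeval X (pderiv s' (pderiv s f)) * u s' -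
          lam * ∑ s', aeval X (pderiv s' (pderiv s t)) * u s' := by
      rw [Finset.mul_sum, ← Finset.sum_sub_distrib]
      refine Finset.sum_congr rfl fun s' _ => ?_
      show (aeval X (pderiv s (pderiv s' f)) - lam * aeval X (pderiv s (pderiv s' t))) * u s' = _
      rw [emh_comm f X s s', emh_comm t X s s']
      ring
    rw [h6]
    show aeval (fun s => X s + u s) (pderiv s f) -
      (lam + v) * aeval (fun s => X s + u s) (pderiv s t) -
      (aeval X (pderiv s f) - lam * aeval X (pderiv s t) + (- aeval X (pderiv s t) * v +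
        (∑ s', aeval X (pderiv s' (pderiv s f)) * u s' -
          lam * ∑ s', aeval X (pderiv s' (pderiv s t)) * u s'))) ∈ m ^ (n + n)
    have h7 : aeval (fun s => X s + u s) (pderiv s f) -
      (lam + v) * aeval (fun s => X s + u s) (pderiv s t) -
      (aeval X (pderiv s f) - lam * aeval X (pderiv s t) + (- aeval X (pderiv s t) * v +
        (∑ s', aeval X (pderiv s' (pderiv s f)) * u s' -
          lam * ∑ s', aeval X (pderiv s' (pderiv s t)) * u s'))) =
      (aeval (fun s => X s + u s) (pderiv s f) - (aeval X (pderiv s f) +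
        ∑ s', aeval X (pderiv s' (pderiv s f)) * u s')) -
      lam * (aeval (fun s => X s + u s) (pderiv s t) - (aeval X (pderiv s t) +
        ∑ s', aeval X (pderiv s' (pderiv s t)) * u s')) -
      v * (aeval (fun s => X s + u s) (pderiv s t) - aeval X (pderiv s t)) := by ring
    rw [h7]
    exact Ideal.sub_mem _ (Ideal.sub_mem _ h1 (Ideal.mul_mem_left _ _ h2)) h5

/-- Proof. Induction on `N`, statement for `N + 1` (`N + 1 = 1`: `X0`, `0`). Step: let `F = (ds, d0)` at `(X, lam)`, all components in `m ^ N`, `N ≥ 1`, `u = - A F`, new point `(X + u, lam + u none)`. By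
`taylor2` for `t` and for the `pderiv s f`, `pderiv s t` the new value is `F + JM (X, lam) u` modulo `m ^ (2 N)`, and `JM (X, lam) A ≡ JM (X0, 0) A ≡ 1` modulo `m`. -/
theorem hensel (m : Ideal B) (f t : MvPolynomial σ ℤ) (X0 : σ → B) (T : B)
    (A : Matrix (Option σ) (Option σ) B) (hA : ∀ i i', (JM f t X0 0 * A - 1) i i' ∈ m)
    (h0 : aeval X0 t - T ∈ m) (hs : ∀ s, aeval X0 (pderiv s f) ∈ m) (N : ℕ) :
    ∃ (X : σ → B) (lam : B), (∀ s, X s - X0 s ∈ m) ∧ lam ∈ m ∧ aeval X t - T ∈ m ^ N ∧
      ∀ s, aeval X (pderiv s f) - lam * aeval X (pderiv s t) ∈ m ^ N := by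
  have key : ∀ N : ℕ, ∃ (X : σ → B) (lam : B), (∀ s, X s - X0 s ∈ m) ∧ lam ∈ m ∧
      ∀ i, emhF f t T X lam i ∈ m ^ (N + 1) := by
    intro N
    induction N with
    | zero =>
      refine ⟨X0, 0, fun s => by rw [sub_self]; exact m.zero_mem, m.zero_mem, fun i => ?_⟩
      rw [zero_add, pow_one]
      rcases i with _ | s
      · exact h0
      · show aeval X0 (pderiv s f) - 0 * aeval X0 (pderiv s t) ∈ m
        rw [zero_mul, sub_zero]
        exact hs s
    | succ N ih =>
      obtain ⟨X, lam, hX, hlam, hF⟩ := ih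
      obtain ⟨F, hFd⟩ : ∃ F, F = emhF f t T X lam := ⟨_, rfl⟩
      rw [← hFd] at hF
      obtain ⟨z, hz⟩ : ∃ z, z = - A.mulVec F := ⟨_, rfl⟩
      have hzm : ∀ i, z i ∈ m ^ (N + 1) := by
        intro i
        rw [hz, Pi.neg_apply, neg_mem_iff]
        exact Ideal.sum_mem _ fun j _ => Ideal.mul_mem_left _ _ (hF j)
      have hzm' : ∀ i, z i ∈ m := fun i => Ideal.pow_le_self (Nat.succ_ne_zero N) (hzm i)
      refine ⟨fun s => X s + z (some s), lam + z none, fun s => ?_, m.add_mem hlam (hzm' _),
        fun i => ?_⟩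
      · rw [add_sub_right_comm]
        exact m.add_mem (hX s) (hzm' _)
      · have h1 := emh_step m (N + 1) f t T X (fun s => z (some s)) lam (z none)
          (fun s => hzm _) (hzm _) i
        rw [← hFd] at h1
        have h2 : JM f t X lam i none * z none + ∑ s, JM f t X lam i (some s) * z (some s) =
            (JM f t X lam).mulVec z i := by
          rw [Matrix.mulVec, dotProduct, Fintype.sum_option]
        have h3 : F i + (JM f t X lam).mulVec z i = - (JM f t X lam * A - 1).mulVec F i := by
          rw [hz, Matrix.mulVec_neg, Matrix.mulVec_mulVec, Matrix.sub_mulVec, Matrix.one_mulVec,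
            Pi.neg_apply, Pi.sub_apply]
          ring
        rw [h2, h3] at h1
        have h4 : (JM f t X lam * A - 1).mulVec F i ∈ m ^ (N + 1 + 1) := by
          refine Ideal.sum_mem _ fun j _ => ?_
          rw [pow_succ', ]
          exact Ideal.mul_mem_mul (emh_jmA m f t X X0 hX lam hlam A hA i j) (hF j)
        have h5 := Ideal.pow_le_pow_right (I := m) (show N + 1 + 1 ≤ N + 1 + (N + 1) by omega) h1
        have h6 := Ideal.sub_mem _ h5 h4
        rwa [sub_neg_eq_add, add_sub_cancel_right] at h6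
  rcases N with _ | N
  · refine ⟨X0, 0, fun s => by rw [sub_self]; exact m.zero_mem, m.zero_mem, ?_, fun s => ?_⟩
    · rw [pow_zero, Ideal.one_eq_top]
      trivial
    · rw [pow_zero, Ideal.one_eq_top]
      trivial
  · obtain ⟨X, lam, hX, hlam, hF⟩ := key N
    exact ⟨X, lam, hX, hlam, hF none, fun s => hF (some s)⟩

end Pool.Agent.EvM
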