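import Pool.Agent.EvM.EmBMa
import Pool.Agent.EvM.EmHen
import Pool.Agent.EvM.EmGTa

set_option autoImplicit false

/-! # The first approximation of the critical point -/

namespace Pool.Agent.EvM

open MvPolynomial Pool.Agent.NT9

variable {σ : Type} [Fintype σ] [DecidableEq σ] {K0 K : Type} [Field K0] [Field K]
  {t f : MvPolynomial σ ℤ} {M : Ideal (MvPolynomial σ ℤ)} {T : K0} {B0 : Subring K0}
  {θ : MvPolynomial σ ℤ →+* K} {D : Derivation ℤ K0 K0}

/-- Proof. `ρ` from `bm_res`. Choose `g s` with `X s - g s (t) ∈ M` (`sur`), `X0 s = g s (T)`; `ρ (h (X0)) = mk h` for all `h` (`MvPolynomial` homomorphisms agree on the variables). The matrix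
`(ρ (JM f t X0 0)) i i'` over the field `k = ℤ[x] / M` is the bordered Hessian with border `c` (`dt`); its kernel is zero: lift a vector of the kernel to `(v, ρ')`: by `Crk` `v s ∈ M`, so
`ρ' * c s ∈ M` for all `s` and `ρ' ∈ M`. So it is invertible; lift the entries of the inverse to polynomials in `T` (`sur`). `pderiv s f ∈ M` and `f ∈ M` as `f ∈ M ^ 2`. -/
theorem exists_A [M.IsMaximal] (td : TD T D) (h : IsBM t M T B0)
    (sur : ∀ h : MvPolynomial σ ℤ, ∃ g : Polynomial ℤ, h - Polynomial.aeval t g ∈ M)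
    {c : σ → MvPolynomial σ ℤ} (dt : ∀ s, pderiv s t - c s ∈ M) (hc : ∃ s, c s ∉ M)
    (hcrk : ∀ (v : σ → MvPolynomial σ ℤ) (ρ : MvPolynomial σ ℤ),
      (∀ s, ∑ s', pderiv s (pderiv s' f) * v s' - ρ * c s ∈ M) → ∑ s, c s * v s ∈ M →
        ∀ s, v s ∈ M) (hf : f ∈ M ^ 2) :
    ∃ (X0 : σ → B0) (A : Matrix (Option σ) (Option σ) B0),
      (∀ i i', (((JM f t X0 0 * A - 1) i i' : B0) : K0) ∈ mx B0) ∧
      (∀ h : MvPolynomial σ ℤ, ((aeval X0 h : B0) : K0) ∈ mx B0 ↔ h ∈ M) ∧
      ((aeval X0 t : B0) : K0) - T ∈ mx B0 ∧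
      ∀ s, ((aeval X0 (pderiv s f) : B0) : K0) ∈ mx B0 := by
  classical
  obtain ⟨ρ, hρ1, hρ2⟩ := bm_res td h
  choose g hg using fun s => sur (X s)
  obtain ⟨X0, hX0⟩ : ∃ X0 : σ → B0, X0 = fun s => ⟨Polynomial.aeval T (g s), bm_poly h (g s)⟩ :=
    ⟨_, rfl⟩
  have hsur : ∀ y : MvPolynomial σ ℤ ⧸ M, ∃ b : B0, ρ b = y := by
    intro y
    obtain ⟨q, rfl⟩ := Ideal.Quotient.mk_surjective y
    obtain ⟨g1, hg1⟩ := sur q
    exact ⟨_, (hρ1 g1).trans (Ideal.Quotient.eq.2 hg1).symm⟩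
  have hev : ∀ q : MvPolynomial σ ℤ, ρ (aeval X0 q) = Ideal.Quotient.mk M q := by
    intro q
    have h1 : (ρ.comp (aeval X0 : MvPolynomial σ ℤ →ₐ[ℤ] B0).toRingHom) = Ideal.Quotient.mk M := by
      refine MvPolynomial.ringHom_ext' (Subsingleton.elim _ _) fun s => ?_
      show ρ (aeval X0 (X s)) = _
      rw [aeval_X, hX0]
      exact (hρ1 (g s)).trans (Ideal.Quotient.eq.2 (hg s)).symm
    exact RingHom.congr_fun h1 q
  have hmem : ∀ q : MvPolynomial σ ℤ, ((aeval X0 q : B0) : K0) ∈ mx B0 ↔ q ∈ M := by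
    intro q
    rw [← hρ2, hev, Ideal.Quotient.eq_zero_iff_mem]
  have hpd : ∀ s, pderiv s f ∈ M := by
    intro s
    rw [pow_two] at hf
    refine Submodule.mul_induction_on hf (fun a ha b hb => ?_) fun a b ha hb => ?_
    · rw [pderiv_mul]
      exact M.add_mem (M.mul_mem_left _ hb) (M.mul_mem_right _ ha)
    · rw [map_add]
      exact M.add_mem ha hb
  -- the matrix over the residue field
  obtain ⟨Jb, hJb⟩ : ∃ Jb, Jb = ρ.mapMatrix (JM f t X0 0) := ⟨_, rfl⟩
  have hJ1 : ∀ s s', Jb (some s) (some s') = Ideal.Quotient.mk M (pderiv s (pderiv s' f)) := by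
    intro s s'
    rw [hJb]
    show ρ (aeval X0 (pderiv s (pderiv s' f)) - 0 * aeval X0 (pderiv s (pderiv s' t))) = _
    rw [zero_mul, sub_zero, hev]
  have hct : ∀ s, Ideal.Quotient.mk M (pderiv s t) = Ideal.Quotient.mk M (c s) := fun s =>
    Ideal.Quotient.eq.2 (dt s)
  have hJ2 : ∀ s, Jb (some s) none = - Ideal.Quotient.mk M (c s) := by
    intro s
    rw [hJb]
    show ρ (- aeval X0 (pderiv s t)) = _
    rw [map_neg, hev, hct]
  have hJ3 : ∀ s, Jb none (some s) = Ideal.Quotient.mk M (c s) := by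
    intro s
    rw [hJb]
    show ρ (aeval X0 (pderiv s t)) = _
    rw [hev, hct]
  have hJ4 : Jb none none = 0 := by
    rw [hJb]
    exact map_zero ρ
  have hdet : Jb.det ≠ 0 := by
    intro hdet
    obtain ⟨w, hw, hw0⟩ := Matrix.exists_mulVec_eq_zero_iff.2 hdet
    apply hw
    choose v hv using fun s : σ => Ideal.Quotient.mk_surjective (w (some s))
    obtain ⟨ρ', hρ'⟩ := Ideal.Quotient.mk_surjective (w none)
    have h1 : ∀ i, Jb i none * w none + ∑ s, Jb i (some s) * w (some s) = 0 := by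
      intro i
      have h2 := congrFun hw0 i
      rw [Matrix.mulVec, dotProduct, Fintype.sum_option] at h2
      exact h2
    have h2 : ∀ s, ∑ s', pderiv s (pderiv s' f) * v s' - ρ' * c s ∈ M := by
      intro s
      rw [← Ideal.Quotient.eq_zero_iff_mem, map_sub, map_sum, map_mul]
      have h3 := h1 (some s)
      rw [hJ2, ← hρ'] at h3
      have h4 : ∑ s', Ideal.Quotient.mk M (pderiv s (pderiv s' f) * v s') =
          ∑ s', Jb (some s) (some s') * w (some s') :=
        Finset.sum_congr rfl fun s' _ => by rw [map_mul, hJ1, hv]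
      rw [h4]
      linear_combination h3
    have h3 : ∑ s, c s * v s ∈ M := by
      rw [← Ideal.Quotient.eq_zero_iff_mem, map_sum]
      have h3 := h1 none
      rw [hJ4, zero_mul, zero_add] at h3
      rw [← h3]
      exact Finset.sum_congr rfl fun s' _ => by rw [map_mul, hJ3, hv]
    have h4 := hcrk v ρ' h2 h3
    have h5 : ∀ s, w (some s) = 0 := fun s => by
      rw [← hv]
      exact Ideal.Quotient.eq_zero_iff_mem.2 (h4 s)
    funext i
    rcases i with _ | s
    · obtain ⟨s, hs⟩ := hc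
      have h6 := h1 (some s)
      rw [Finset.sum_eq_zero fun s' _ => by rw [h5, mul_zero], add_zero, hJ2] at h6
      have h8 : Ideal.Quotient.mk M (c s) * w none = 0 := by linear_combination -h6
      rcases mul_eq_zero.1 h8 with h7 | h7
      · exact absurd (Ideal.Quotient.eq_zero_iff_mem.1 h7) hs
      · exact h7
    · exact h5 s
  have hun : IsUnit Jb.det := by
    obtain ⟨b, hb⟩ := Ideal.Quotient.exists_inv hdet
    exact IsUnit.of_mul_eq_one b hb
  choose A hA using fun i i' => hsur (Jb⁻¹ i i')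
  refine ⟨X0, Matrix.of A, fun i i' => ?_, hmem, ?_, fun s => (hmem _).2 (hpd s)⟩
  · rw [← hρ2]
    have h1 : ρ ((JM f t X0 0 * Matrix.of A - 1) i i') =
        (ρ.mapMatrix (JM f t X0 0 * Matrix.of A - 1)) i i' := rfl
    have h2 : ρ.mapMatrix (Matrix.of A) = Jb⁻¹ := by
      ext i i'
      exact hA i i'
    rw [h1, map_sub, map_mul, map_one, h2, ← hJb, Matrix.mul_nonsing_inv _ hun, sub_self]
    rfl
  · have h1 : ((aeval X0 t : B0) : K0) - T =
        ((aeval X0 t - ⟨Polynomial.aeval T Polynomial.X, bm_poly h Polynomial.X⟩ : B0) : K0) := by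
      show ((aeval X0 t : B0) : K0) - T = ((aeval X0 t : B0) : K0) - Polynomial.aeval T Polynomial.X
      rw [Polynomial.aeval_X]
    rw [h1, ← hρ2, map_sub, hev, hρ1, Polynomial.aeval_X, sub_self]

end Pool.Agent.EvM
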