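import Pool.Agent.EvM.EmTor
import Pool.Agent.EvM.EmCnt

set_option autoImplicit false

/-! # the bound for the length of a chain -/

namespace Pool.Agent.EvM

open Pool.Agent.NT9

variable {K0 : Type} [Field K0] {B0 B B' : Subring K0} {s t E M w : K0}
  {D : Derivation ℤ K0 K0} {p i L κ : ℕ}

private theorem nd_MB (nd : Nd B0 D p w i B E M s t) : M ∈ B := by
  have h := B.mul_mem nd.EM nd.EB
  rwa [div_mul_cancel₀ _ nd.E0] at h

/-- Proof. As in `small`: `E p^L / M^2 ∈ B`, so `p^L = E (M / E)^2 (E p^L / M^2)`, and `E = ∏ e l`. -/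
theorem pL_eq (nd : Nd B0 D p w i B E M s t) (hp : (p : K0) ∈ mx B0) (hst : Star B0 D w L) :
    ∃ e : Fin i → K0, (∀ l, e l ∈ mx B) ∧ ∃ c ∈ B, (p : K0) ^ L = (∏ l, e l) * c := by
  obtain ⟨e, he, hE⟩ := nd.prod
  obtain ⟨α, hα, β, hβ, h1⟩ := hst (fun _ => (p : K0)) (fun _ => hp)
  rw [Finset.prod_const, Finset.card_univ, Fintype.card_fin] at h1
  have hM := nd.M0
  have hE0 := nd.E0
  set g : K0 := w / M ^ 2 with hg
  have hw : w = M ^ 2 * g := by rw [hg]; field_simp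
  have hDw : D w = 2 * M * D M * g + M ^ 2 * D g := by
    rw [hw, Derivation.leibniz, Derivation.leibniz_pow]
    simp only [smul_eq_mul, nsmul_eq_mul]
    push_cast
    ring
  have hDg : E * D g ∈ B := nd.der g nd.wM
  have key : E * (p : K0) ^ L / M ^ 2 ∈ B := by
    have e1 : E * (p : K0) ^ L / M ^ 2 =
        α * (E * g) + β * (2 * (E * D M / M) * g + E * D g) := by
      rw [h1, hDw]
      conv_lhs => rw [hw]
      field_simp
    rw [e1]
    refine B.add_mem (B.mul_mem (nd.le hα) (B.mul_mem nd.EB nd.wM))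
      (B.mul_mem (nd.le hβ) (B.add_mem (B.mul_mem (B.mul_mem ?_ nd.derM) nd.wM) hDg))
    have : ((2 : ℕ) : K0) ∈ B := natCast_mem B 2
    exact_mod_cast this
  refine ⟨e, he, (M / E) ^ 2 * (E * (p : K0) ^ L / M ^ 2),
    B.mul_mem (B.pow_mem nd.EM 2) key, ?_⟩
  rw [← hE]
  field_simp

/-- The bound. Proof. `C = B ⧸ Q`, a domain, local; `C0` = image of `B0`. `Kap` gives the hypothesis of `count_sub` (`w = M^2 g ∈ Q`), `tor_B0` the torsion. `count_pow`, `count_chain` with the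
classes of the `e l` of `pL_eq` (not units, since `B → C` is a local homomorphism: `Q ≤ maximalIdeal B`). -/
theorem depth (nd : Nd B0 D p w i B E M s t) {P0 : K0} (h0 : P2 B0 p P0) (hw0 : w ≠ 0)
    (hwB : w ∈ B0) (hst : Star B0 D w L) (hk : Kap B0 p w κ) (Q : Ideal B) (hQ : Q.IsPrime)
    (hg : (⟨w / M ^ 2, nd.wM⟩ : B) ∈ Q) (hpQ : (p : B) ∉ Q) : 2 ^ i ≤ κ ^ L := by
  classical
  have _ := nd.par.loc
  have hMB := nd_MB nd
  have hM := nd.M0
  have hwQ : (⟨w, nd.le hwB⟩ : B) ∈ Q := by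
    have e1 : (⟨w, nd.le hwB⟩ : B) = (⟨M, hMB⟩ : B) ^ 2 * ⟨w / M ^ 2, nd.wM⟩ := by
      apply Subtype.ext
      show w = M ^ 2 * (w / M ^ 2)
      field_simp
    rw [e1]
    exact Ideal.mul_mem_left _ _ hg
  have hp0 : (p : K0) ∈ mx B0 := h0.hs
  obtain ⟨e, he, c, hc, hpL⟩ := pL_eq nd hp0 hst
  let q : B →+* B ⧸ Q := Ideal.Quotient.mk Q
  have hq0 : ∀ x : B, q x = 0 ↔ x ∈ Q := fun x => Ideal.Quotient.eq_zero_iff_mem
  have hπ0 : q (p : B) ≠ 0 := fun h => hpQ ((hq0 _).1 h)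
  let C0 : Subring (B ⧸ Q) := (B0.comap B.subtype).map q
  have hC0 : ∀ x : B ⧸ Q, x ∈ C0 ↔ ∃ y : B, (y : K0) ∈ B0 ∧ q y = x := by
    intro x
    constructor
    · rintro ⟨y, hy, rfl⟩
      exact ⟨y, hy, rfl⟩
    · rintro ⟨y, hy, rfl⟩
      exact ⟨y, hy, rfl⟩
  have htor : ∀ c : B ⧸ Q, ∃ r : ℕ, (q (p : B)) ^ r * c ∈ C0 := by
    intro c
    obtain ⟨b, rfl⟩ := Ideal.Quotient.mk_surjective c
    obtain ⟨r, u, hu, hru⟩ := tor_B0 h0 nd.le hQ hpQ hp0 (nd.frac Q hQ hpQ)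
      (g := ⟨w, nd.le hwB⟩) (fun h => hw0 (congrArg Subtype.val h)) hwQ hwB b
    refine ⟨r, (hC0 _).2 ⟨u, hu, ?_⟩⟩
    have h2 := (hq0 _).2 hru
    rw [map_sub, map_mul, map_pow, sub_eq_zero] at h2
    exact h2.symm
  obtain ⟨S, hS, hS'⟩ := hk
  let S' : Finset (B ⧸ Q) := S.image fun y => if h : y ∈ B then q ⟨y, h⟩ else 0
  have hS'card : S'.card ≤ κ := Finset.card_image_le.trans hS
  have hrep : ∀ x ∈ C0, ∃ y ∈ S', ∃ c ∈ C0, x = y + q (p : B) * c := by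
    intro x hx
    obtain ⟨x', hx', rfl⟩ := (hC0 x).1 hx
    obtain ⟨y, hy, a, ha, b, hb, hxy⟩ := hS' x' hx'
    have hyB : y ∈ B := by
      have e1 : y = x' - a * p - b * w := by rw [hxy]; ring
      rw [e1]
      refine B.sub_mem (B.sub_mem x'.2 (B.mul_mem (nd.le ha) (natCast_mem B p)))
        (B.mul_mem (nd.le hb) (nd.le hwB))
    refine ⟨q ⟨y, hyB⟩, Finset.mem_image.2 ⟨y, hy, by rw [dif_pos hyB]⟩, q ⟨a, nd.le ha⟩,
      (hC0 _).2 ⟨⟨a, nd.le ha⟩, ha, rfl⟩, ?_⟩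
    have e2 : x' = ⟨y, hyB⟩ + (p : B) * ⟨a, nd.le ha⟩ + ⟨b, nd.le hb⟩ * ⟨w, nd.le hwB⟩ := by
      apply Subtype.ext
      show (x' : K0) = y + ((p : B) : K0) * a + b * w
      rw [hxy]
      push_cast
      ring
    conv_lhs => rw [e2]
    rw [map_add, map_add, map_mul, map_mul, (hq0 _).2 hwQ, mul_zero, add_zero]
  have h1 : QB (q (p : B)) κ := by
    have hpC : q (p : B) ∈ C0 := (hC0 _).2 ⟨(p : B), by simp, rfl⟩
    exact count_sub C0 (q (p : B)) hπ0 hpC htor hS'card hrep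
  have h2 := count_pow h1 L
  have hunit : ∀ l, ¬ IsUnit (q ⟨e l, mx_le (he l)⟩) := by
    intro l hu
    obtain ⟨v, hv⟩ := hu.exists_right_inv
    obtain ⟨b, rfl⟩ := Ideal.Quotient.mk_surjective v
    have h3 : (⟨e l, mx_le (he l)⟩ : B) * b - 1 ∈ Q := by
      rw [← hq0, map_sub, map_mul, map_one]
      exact sub_eq_zero.2 hv
    have h4 := IsLocalRing.le_maximalIdeal hQ.ne_top h3
    have h5 : (⟨e l, mx_le (he l)⟩ : B) * b ∈ IsLocalRing.maximalIdeal B :=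
      Ideal.mul_mem_right _ _ ((mem_mx_iff _).1 (he l))
    have h6 : (1 : B) ∈ IsLocalRing.maximalIdeal B := by
      have := Ideal.sub_mem _ h5 h4
      rwa [sub_sub_cancel] at this
    exact (Ideal.ne_top_iff_one _).1 (IsLocalRing.maximalIdeal.isMaximal B).ne_top h6
  refine count_chain (fun l => q ⟨e l, mx_le (he l)⟩) hunit (pow_ne_zero L hπ0) (c := q ⟨c, hc⟩)
    ?_ h2
  rw [← map_pow, ← map_prod, ← map_mul]
  congr 1
  apply Subtype.ext
  show (((p : B) ^ L : B) : K0) = ((∏ l, (⟨e l, mx_le (he l)⟩ : B) : B) : K0) * c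
  push_cast
  exact hpL

end Pool.Agent.EvM
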