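import Pool.Agent.EvM.EmQTc

set_option autoImplicit false

/-! # quadratic transforms: derivations -/

namespace Pool.Agent.EvM

open Pool.Agent.NT9

variable {K0 : Type} [Field K0] {B0 B B' : Subring K0} {s t E : K0}

/-- Proof. For `b ∈ B`: `E s D b = s (E D b)`. `E s D (t / s) = E D t - (t / s) E D s`. Sums, products: Leibniz. Fractions: `x v = u` gives `D x = (D u - x D v) / v`. -/
theorem qt_der (h : P2 B s t) (q : QT B s t B') (D : Derivation ℤ K0 K0)
    (hE : ∀ b ∈ B, E * D b ∈ B) : ∀ b ∈ B', E * s * D b ∈ B' := by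
  have hs : s ∈ B := h.hs.1
  have ht : t ∈ B := h.ht.1
  have htau : t / s ∈ B' := q.fr.1 (Subring.subset_closure (Or.inr rfl))
  have hA : ∀ a ∈ Subring.closure ((B : Set K0) ∪ {t / s}), E * s * D a ∈ B' := by
    intro a ha
    induction ha using Subring.closure_induction with
    | mem x hx =>
      rcases hx with hx | hx
      · have h1 : E * s * D x = s * (E * D x) := by ring
        rw [h1]
        exact q.le (B.mul_mem hs (hE x hx))
      · rw [Set.mem_singleton_iff] at hx
        subst hx
        have h1 : D t = (t / s) * D s + s * D (t / s) := by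
          have h2 := D.leibniz (t / s) s
          rw [div_mul_cancel₀ t h.s0, smul_eq_mul, smul_eq_mul] at h2
          exact h2
        have h2 : E * s * D (t / s) = E * D t - (t / s) * (E * D s) := by
          rw [h1]; ring
        rw [h2]
        exact B'.sub_mem (q.le (hE t ht)) (B'.mul_mem htau (q.le (hE s hs)))
    | zero => rw [map_zero, mul_zero]; exact B'.zero_mem
    | one => rw [D.map_one_eq_zero, mul_zero]; exact B'.zero_mem
    | add x y _ _ hx hy => rw [map_add, mul_add]; exact B'.add_mem hx hy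
    | neg x _ hx => rw [map_neg, mul_neg]; exact B'.neg_mem hx
    | mul x y hx' hy' hx hy =>
      rw [D.leibniz, smul_eq_mul, smul_eq_mul]
      have h1 : E * s * (x * D y + y * D x) = x * (E * s * D y) + y * (E * s * D x) := by ring
      rw [h1]
      exact B'.add_mem (B'.mul_mem (q.fr.1 hx') hy) (B'.mul_mem (q.fr.1 hy') hx)
  intro b hb
  obtain ⟨u, hu, v, hv, hv0, hvi, hbv⟩ := q.fr.2 b hb
  have h1 : D u = b * D v + v * D b := by
    rw [← hbv, D.leibniz, smul_eq_mul, smul_eq_mul]
  have h2 : E * s * D b = v⁻¹ * (E * s * D u - b * (E * s * D v)) := by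
    rw [h1]
    field_simp
    ring
  rw [h2]
  exact B'.mul_mem hvi (B'.sub_mem (hA u hu) (B'.mul_mem hb (hA v hv)))

/-- `E D` maps `mp B (n + 1)` to `mp B n`. -/
theorem der_mp [IsLocalRing B] (D : Derivation ℤ K0 K0) (hE : ∀ b ∈ B, E * D b ∈ B) {n : ℕ}
    {x : K0} (hx : x ∈ mp B (n + 1)) : E * D x ∈ mp B n := by
  induction n generalizing x with
  | zero =>
    refine hE x ?_
    exact mp_mem hx
  | succ n ih =>
    have hx' : x ∈ AddSubgroup.closure {z | ∃ x ∈ mx B, ∃ y ∈ mp B (n + 1), z = x * y} := hx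
    induction hx' using AddSubgroup.closure_induction with
    | mem z hz =>
      obtain ⟨a, ha, y, hy, rfl⟩ := hz
      have h1 : E * D (a * y) = a * (E * D y) + (E * D a) * y := by
        rw [D.leibniz, smul_eq_mul, smul_eq_mul]; ring
      rw [h1]
      refine (mp B (n + 1)).add_mem ?_ (mp_smul (hE a ha.1) hy)
      exact AddSubgroup.subset_closure ⟨a, ha, _, ih hy, rfl⟩
    | zero => rw [map_zero, mul_zero]; exact (mp B (n + 1)).zero_mem
    | add y z hy hz ihy ihz =>
      rw [map_add, mul_add]
      exact (mp B (n + 1)).add_mem (ihy hy) (ihz hz)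
    | neg y hy ihy =>
      rw [map_neg, mul_neg]
      exact (mp B (n + 1)).neg_mem (ihy hy)

end Pool.Agent.EvM
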