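import Pool.Agent.NodHyp.Loc

set_option autoImplicit false

/-! # polynomial rings over regular local rings, at a prime over the closed point -/

namespace Pool.Agent.EvM

open MvPolynomial IsLocalRing

/-- The step from a prime of `R` to a prime of `R[X]` over it. -/
private theorem fla_step {R : Type} [CommRing R] (p : Ideal (Polynomial R)) [p.IsPrime]
    (q : Ideal R) [q.IsPrime] (hq : p.comap Polynomial.C = q)
    (hreg : IsRegularLocalRing (Localization.AtPrime q)) :
    IsRegularLocalRing (Localization.AtPrime p) := by
  subst hq
  let q := p.comap Polynomial.C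
  let S := Polynomial (Localization.AtPrime q)
  let pc := Submonoid.map Polynomial.C.toMonoidHom q.primeCompl
  let : Algebra (Polynomial R) S := Polynomial.algebra R (Localization.AtPrime q)
  have : IsLocalization pc S := Polynomial.isLocalization _ _
  let pS := p.map (algebraMap (Polynomial R) S)
  have disj : Disjoint (pc : Set (Polynomial R)) (p : Set (Polynomial R)) := by
    simpa [pc, q] using! Set.disjoint_image_left.mpr
      (Set.disjoint_compl_left_iff_subset.mpr (fun _ a ↦ a))
  have : pS.IsPrime := IsLocalization.isPrime_of_isPrime_disjoint pc _ _ ‹_› disj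
  have : IsLocalization.AtPrime (Localization.AtPrime pS) p := by
    convert IsLocalization.isLocalization_isLocalization_atPrime_isLocalization pc
      (Localization.AtPrime pS) pS
    exact (IsLocalization.under_map_of_isPrime_disjoint pc _ ‹_› disj).symm
  have : IsRegularLocalRing (Localization.AtPrime q) := hreg
  have eq : Ideal.comap Polynomial.C pS = maximalIdeal (Localization.AtPrime q) := by
    rw [← IsLocalization.map_under q.primeCompl _ (Ideal.comap Polynomial.C pS),
      ← IsLocalization.map_under q.primeCompl _ (maximalIdeal (Localization.AtPrime q))]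
    simp only [Ideal.comap_comap, S, pS]
    rw [← Polynomial.algebraMap_eq (R := Localization.AtPrime q),
      ← IsScalarTower.algebraMap_eq R (Localization.AtPrime q) (Polynomial (Localization.AtPrime q)),
      IsScalarTower.algebraMap_eq R (Polynomial R) (Polynomial (Localization.AtPrime q)),
      ← Ideal.comap_comap,
      ← Ideal.under_def (Polynomial R), IsLocalization.under_map_of_isPrime_disjoint pc _ ‹_› disj]
    simp [q, IsLocalization.AtPrime.under_maximalIdeal (Localization.AtPrime q) q]
  have := Polynomial.isRegularLocalRing_localization_atPrime_of_comap_eq_maximalIdeal _ pS eq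
  exact IsRegularLocalRing.of_ringEquiv (R := Localization.AtPrime pS)
    (IsLocalization.algEquiv p.primeCompl
      (Localization.AtPrime pS) (Localization.AtPrime p)).toRingEquiv

/-- transport along an isomorphism -/
private theorem fla_equiv {R S : Type} [CommRing R] [CommRing S] (e : R ≃+* S) (P : Ideal R)
    [P.IsPrime] (Q : Ideal S) [Q.IsPrime] (h : P = Q.comap e.toRingHom)
    (hreg : IsRegularLocalRing (Localization.AtPrime Q)) :
    IsRegularLocalRing (Localization.AtPrime P) := by
  have h1 : P.primeCompl.map e.toMonoidHom = Q.primeCompl := by
    ext x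
    constructor
    · rintro ⟨y, hy, rfl⟩
      intro h2
      apply hy
      rw [h]
      exact h2
    · intro hx
      refine ⟨e.symm x, ?_, by simp⟩
      intro h2
      rw [h] at h2
      apply hx
      have h3 : e (e.symm x) ∈ Q := h2
      rwa [RingEquiv.apply_symm_apply] at h3
  exact IsRegularLocalRing.of_ringEquiv
    (IsLocalization.ringEquivOfRingEquiv (Localization.AtPrime P) (Localization.AtPrime Q) e
      h1).symm

/-- Proof. Induction on `ι` (`Finite.induction_empty_option`), `MvPolynomial.optionEquivLeft`; in the step let `P1` be the contraction of `P` to `R = MvPolynomial ι B`, `R_{P1}` is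
regular by induction, then as in Mathlib `Polynomial.isRegularRing_of_isRegularRing`: `Polynomial.isRegularLocalRing_localization_atPrime_of_comap_eq_maximalIdeal` for
`R_{P1}` and transfer of localisations. -/
theorem fl_reg {B : Type} [CommRing B] [IsRegularLocalRing B] {ι : Type} [Finite ι]
    (P : Ideal (MvPolynomial ι B)) [P.IsPrime] (h : P.comap C = maximalIdeal B) :
    IsRegularLocalRing (Localization.AtPrime P) := by
  induction ι using Finite.induction_empty_option with
  | @of_equiv α β e H =>
    let E : MvPolynomial β B ≃+* MvPolynomial α B := (renameEquiv B e.symm).toRingEquiv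
    let Q : Ideal (MvPolynomial α B) := P.comap E.symm.toRingHom
    have hQ : Q.IsPrime := Ideal.IsPrime.comap _
    have h2 : P = Q.comap E.toRingHom := by
      ext x
      simp [Q]
    refine fla_equiv E P Q h2 (H Q ?_)
    rw [← h]
    ext x
    simp only [Ideal.mem_comap, Q]
    have h3 : E.symm.toRingHom (C x) = C x := by
      simp [E]
    rw [h3]
  | h_empty =>
    let E : MvPolynomial PEmpty B ≃+* B := isEmptyRingEquiv B PEmpty
    let Q : Ideal B := maximalIdeal B
    have h2 : P = Q.comap E.toRingHom := by
      ext x
      have hx : x = C (E x) := by
        exact (E.symm_apply_apply x).symm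
      constructor
      · intro hx1
        rw [Ideal.mem_comap]
        show E x ∈ maximalIdeal B
        rw [← h, Ideal.mem_comap, ← hx]
        exact hx1
      · intro hx1
        rw [Ideal.mem_comap] at hx1
        have hx2 : E x ∈ maximalIdeal B := hx1
        rw [← h, Ideal.mem_comap, ← hx] at hx2
        exact hx2
    refine fla_equiv E P Q h2 ?_
    exact IsRegularLocalRing.of_ringEquiv
      (IsLocalization.atUnits B Q.primeCompl (S := Localization.AtPrime Q) (by
        intro x hx
        have h4 : x ∉ maximalIdeal B := hx
        rw [IsLocalRing.mem_maximalIdeal, mem_nonunits_iff, not_not] at h4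
        exact h4)).toRingEquiv
  | @h_option α _ IH =>
    let E : MvPolynomial (Option α) B ≃+* Polynomial (MvPolynomial α B) :=
      (MvPolynomial.optionEquivLeft B α).toRingEquiv
    let Q : Ideal (Polynomial (MvPolynomial α B)) := P.comap E.symm.toRingHom
    have hQ : Q.IsPrime := Ideal.IsPrime.comap _
    have h2 : P = Q.comap E.toRingHom := by
      ext x
      simp [Q]
    let q : Ideal (MvPolynomial α B) := Q.comap Polynomial.C
    have hq : q.IsPrime := Ideal.IsPrime.comap _
    refine fla_equiv E P Q h2 (fla_step Q q rfl (IH q ?_))
    rw [← h]
    ext x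
    simp only [Ideal.mem_comap, Q, q]
    have h3 : E.symm.toRingHom (Polynomial.C (C x)) = C x := by
      have h4 : E (C x) = Polynomial.C (C x) := by
        simp [E]
      show E.symm (Polynomial.C (C x)) = C x
      rw [← h4, RingEquiv.symm_apply_apply]
    rw [h3]

end Pool.Agent.EvM
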