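import Pool.Agent.EvM.EmFLa

set_option autoImplicit false

/-! # parameters in polynomial rings -/

namespace Pool.Agent.EvM

open MvPolynomial IsLocalRing

/-- The elements `e i` are independent modulo the square of the ideal `q`. -/
private def flb_Ind {R : Type} [CommRing R] {I : Type} [Fintype I] (e : I → R) (q : Ideal R) :
    Prop :=
  ∀ a : I → R, ∑ i, a i * e i ∈ q ^ 2 → ∀ i, a i ∈ q

private theorem flb_mod {R : Type} [CommRing R] (J : Ideal R) (y z : Polynomial R)
    (hy : y.Monic) (hz : z ∈ J.map (Polynomial.C : R →+* Polynomial R)) :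
    z %ₘ y ∈ J.map (Polynomial.C : R →+* Polynomial R) := by
  have hk : ∀ w : Polynomial R, w ∈ J.map (Polynomial.C : R →+* Polynomial R) ↔
      w.map (Ideal.Quotient.mk J) = 0 := by
    intro w
    rw [Ideal.mem_map_C_iff, Polynomial.ext_iff]
    simp [Ideal.Quotient.eq_zero_iff_mem]
  rw [hk] at hz ⊢
  rw [Polynomial.map_modByMonic _ hy, hz, Polynomial.zero_modByMonic]

/-- The step over a maximal ideal. -/
private theorem flb_loc {R : Type} [CommRing R] (p : Ideal (Polynomial R)) (q : Ideal R)
    (hq : p.comap Polynomial.C = q)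
    (hmax : q.IsMaximal) {I : Type} [Fintype I] (e : I → R)
    (hind : flb_Ind e q) : flb_Ind (fun i => Polynomial.C (e i)) p := by
  classical
  have hqp : q.map (Polynomial.C : R →+* Polynomial R) ≤ p := by
    rw [Ideal.map_le_iff_le_comap, hq]
  have hcoef : ∀ a : I → Polynomial R, ∑ i, a i * Polynomial.C (e i) ∈
      (q ^ 2).map (Polynomial.C : R →+* Polynomial R) → ∀ i, a i ∈ p := by
    intro a ha i
    apply hqp
    rw [Ideal.mem_map_C_iff] at ha ⊢
    intro n
    refine hind (fun i => (a i).coeff n) ?_ i
    have h1 := ha n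
    rw [Polynomial.finsetSum_coeff] at h1
    simpa [Polynomial.coeff_mul_C] using h1
  by_cases hpq : p = q.map (Polynomial.C : R →+* Polynomial R)
  · intro a ha
    apply hcoef
    rw [Ideal.map_pow, ← hpq]
    exact ha
  · obtain ⟨y, hym, hy⟩ := Polynomial.exists_monic_span_sup_map_eq R p (by rw [hq]; exact hmax)
      (by rw [hq]; exact hpq)
    rw [hq] at hy
    have hmp : ∀ m ∈ p, ∃ u ∈ q.map (Polynomial.C : R →+* Polynomial R), ∃ a : Polynomial R,
        m = u + y * a := by
      intro m hm
      rw [hy, Submodule.mem_sup] at hm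
      obtain ⟨u, hu, v, hv, rfl⟩ := hm
      obtain ⟨a, rfl⟩ := Ideal.mem_span_singleton.1 hv
      exact ⟨u, hu, a, rfl⟩
    have hyp : y ∈ p := by
      rw [hy]
      exact Ideal.mem_sup_right (Ideal.mem_span_singleton_self y)
    intro a ha i
    have hz : ∀ z ∈ p * p, ∃ u ∈ (q ^ 2).map (Polynomial.C : R →+* Polynomial R),
        ∃ w : Polynomial R, z = u + y * w := by
      intro z hz
      induction hz using Submodule.mul_induction_on' with
      | mem_mul_mem m hm n hn =>
        obtain ⟨u1, hu1, a1, rfl⟩ := hmp _ hm
        obtain ⟨u2, hu2, a2, rfl⟩ := hmp _ hn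
        refine ⟨u1 * u2, ?_, a1 * (y * a2 + u2) + u1 * a2, by ring⟩
        rw [Ideal.map_pow, pow_two]
        exact Ideal.mul_mem_mul hu1 hu2
      | add x hx z hz hx' hz' =>
        obtain ⟨u1, hu1, w1, rfl⟩ := hx'
        obtain ⟨u2, hu2, w2, rfl⟩ := hz'
        exact ⟨u1 + u2, add_mem hu1 hu2, w1 + w2, by ring⟩
    obtain ⟨u, hu, w, hw⟩ := hz _ (by rw [← pow_two]; exact ha)
    have h1 : (∑ i, a i * Polynomial.C (e i)) %ₘ y = u %ₘ y := by
      rw [hw, Polynomial.add_modByMonic, (Polynomial.modByMonic_eq_zero_iff_dvd hym).2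
        (Dvd.intro w rfl), add_zero]
    have h2 : (∑ i, a i * Polynomial.C (e i)) %ₘ y = ∑ i, (a i %ₘ y) * Polynomial.C (e i) := by
      have h3 : ∀ z : Polynomial R, z %ₘ y = Polynomial.modByMonicHom y z := fun z => rfl
      rw [h3, map_sum]
      refine Finset.sum_congr rfl fun i _ => ?_
      rw [← h3, mul_comm (a i), Polynomial.C_mul', Polynomial.smul_modByMonic, mul_comm,
        Polynomial.C_mul']
    have h4 : ∀ i, a i %ₘ y ∈ p := by
      refine hcoef (fun i => a i %ₘ y) ?_
      rw [← h2, h1]
      exact flb_mod _ _ _ hym hu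
    have h5 := Polynomial.modByMonic_add_div (a i) y
    rw [← h5]
    exact add_mem (h4 i) (p.mul_mem_right _ hyp)

/-- Passage to a localisation at a prime. -/
private theorem flb_atPrime {R : Type} [CommRing R] (q : Ideal R) [q.IsPrime] {I : Type}
    [Fintype I] (e : I → R) (hind : flb_Ind e q) :
    flb_Ind (fun i => algebraMap R (Localization.AtPrime q) (e i))
      (maximalIdeal (Localization.AtPrime q)) := by
  classical
  intro a ha i
  have hmax : q.map (algebraMap R (Localization.AtPrime q)) =
    maximalIdeal (Localization.AtPrime q) := Localization.AtPrime.map_eq_maximalIdeal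
  obtain ⟨s, hs⟩ := IsLocalization.exist_integer_multiples_of_finset q.primeCompl
    (Finset.univ.image a)
  have hs' : ∀ i, ∃ b : R, algebraMap R (Localization.AtPrime q) b =
      algebraMap R (Localization.AtPrime q) s * a i := fun i ↦ by
    obtain ⟨b, hb⟩ := hs (a i) (Finset.mem_image_of_mem a (Finset.mem_univ i))
    exact ⟨b, by rw [hb, Algebra.smul_def]⟩
  choose b hb using hs'
  have h1 : algebraMap R (Localization.AtPrime q) (∑ i, b i * e i) =
      algebraMap R (Localization.AtPrime q) s *
        ∑ i, a i * algebraMap R (Localization.AtPrime q) (e i) := by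
    rw [map_sum, Finset.mul_sum]
    exact Finset.sum_congr rfl fun i _ ↦ by rw [map_mul, hb, mul_assoc]
  have h2 : algebraMap R (Localization.AtPrime q) (∑ i, b i * e i) ∈
      (q ^ 2).map (algebraMap R (Localization.AtPrime q)) := by
    rw [h1, Ideal.map_pow, hmax]
    exact Ideal.mul_mem_left _ _ ha
  rw [IsLocalization.algebraMap_mem_map_algebraMap_iff q.primeCompl] at h2
  obtain ⟨t, ht, h3⟩ := h2
  have h4 : ∑ i, (t * b i) * e i ∈ q ^ 2 := by
    have : ∑ i, (t * b i) * e i = t * ∑ i, b i * e i := by
      rw [Finset.mul_sum]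
      exact Finset.sum_congr rfl fun i _ ↦ by ring
    rwa [this]
  have hqp : q.IsPrime := inferInstance
  have h5 : b i ∈ q := (hqp.mem_or_mem (hind _ h4 i)).resolve_left ht
  have h6 : algebraMap R (Localization.AtPrime q) s * a i ∈
      maximalIdeal (Localization.AtPrime q) := by
    rw [← hb, ← hmax]
    exact Ideal.mem_map_of_mem _ h5
  refine ((maximalIdeal.isMaximal (Localization.AtPrime q)).isPrime.mem_or_mem h6).resolve_left ?_
  intro h7
  exact h7 (IsLocalization.map_units (Localization.AtPrime q) s)

private theorem flb_step {R : Type} [CommRing R] (p : Ideal (Polynomial R)) [p.IsPrime]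
    (q : Ideal R) [q.IsPrime] (hq : p.comap Polynomial.C = q) {I : Type} [Fintype I] (e : I → R)
    (hind : flb_Ind e q) : flb_Ind (fun i => Polynomial.C (e i)) p := by
  let L := Localization.AtPrime q
  let S := Polynomial L
  let pc := Submonoid.map Polynomial.C.toMonoidHom q.primeCompl
  let : Algebra (Polynomial R) S := Polynomial.algebra R L
  have : IsLocalization pc S := Polynomial.isLocalization _ _
  let pS := p.map (algebraMap (Polynomial R) S)
  have disj : Disjoint (pc : Set (Polynomial R)) (p : Set (Polynomial R)) := by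
    rw [Set.disjoint_left]
    rintro _ ⟨x, hx, rfl⟩ h
    apply hx
    rw [SetLike.mem_coe, ← hq]
    exact h
  have hunder : pS.comap (algebraMap (Polynomial R) S) = p :=
    IsLocalization.under_map_of_isPrime_disjoint pc _ ‹_› disj
  have hCC : ∀ x : R, algebraMap (Polynomial R) S (Polynomial.C x) =
      Polynomial.C (algebraMap R L x) := by
    intro x
    show Polynomial.map (algebraMap R L) (Polynomial.C x) = _
    rw [Polynomial.map_C]
  have eq : Ideal.comap Polynomial.C pS = maximalIdeal L := by
    have h1 : (Ideal.comap Polynomial.C pS).comap (algebraMap R L) = q := by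
      rw [Ideal.comap_comap]
      have h2 : (Polynomial.C : L →+* S).comp (algebraMap R L) =
          (algebraMap (Polynomial R) S).comp Polynomial.C := by
        ext x
        · simp [hCC]
      rw [h2, ← Ideal.comap_comap, hunder, hq]
    rw [← IsLocalization.map_under q.primeCompl _ (Ideal.comap Polynomial.C pS), Ideal.under_def,
      h1]
    exact Localization.AtPrime.map_eq_maximalIdeal
  have key := flb_loc pS (maximalIdeal L) eq (maximalIdeal.isMaximal L)
    (fun i => algebraMap R L (e i)) (flb_atPrime q e hind)
  intro a ha i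
  rw [← hunder, Ideal.mem_comap]
  refine key (fun i => algebraMap (Polynomial R) S (a i)) ?_ i
  have h3 := Ideal.mem_map_of_mem (algebraMap (Polynomial R) S) ha
  rw [Ideal.map_pow, map_sum] at h3
  simpa [hCC] using h3

private theorem flb_equiv {R S : Type} [CommRing R] [CommRing S] (E : R ≃+* S) {I : Type}
    [Fintype I] (e : I → R) (P : Ideal R)
    (h : flb_Ind (fun i => E (e i)) (P.comap E.symm.toRingHom)) : flb_Ind e P := by
  intro a ha i
  have h1 : P.comap E.symm.toRingHom = P.map E.toRingHom := by
    exact (Ideal.map_comap_of_equiv E).symm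
  have h2 := h (fun i => E (a i)) (by
    rw [h1, ← Ideal.map_pow]
    have h3 := Ideal.mem_map_of_mem E.toRingHom ha
    simpa using h3) i
  have h3 : E.symm (E (a i)) ∈ P := h2
  rwa [RingEquiv.symm_apply_apply] at h3

/-- Proof. Complete the classes of the `e i` to a basis of the cotangent space of `B` (`d = dim B` elements). Let `k` be the residue field and `Pb` the image of `P` in
`k[X]` (`MvPolynomial.map (residue B)`, kernel `m B[X]`); `k[X]` is a regular ring, so `Pb` is generated, locally at `Pb`, by `height Pb` elements. So the maximal ideal of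
`Localization.AtPrime P` is generated by the `d` elements and `height Pb` further ones, its dimension is `height P = d + height Pb`
(`Ideal.height_eq_height_add_of_liesOver_of_hasGoingDown`), and it is regular (`fl_reg`): so these generators are a basis of the cotangent space. -/
theorem fl_ind {B : Type} [CommRing B] [IsRegularLocalRing B] {ι : Type} [Finite ι]
    (P : Ideal (MvPolynomial ι B)) [P.IsPrime] (h : P.comap C = maximalIdeal B) {I : Type}
    [Fintype I] (e : I → B) (he : ∀ i, e i ∈ maximalIdeal B)
    (hind : ∀ a : I → B, ∑ i, a i * e i ∈ maximalIdeal B ^ 2 → ∀ i, a i ∈ maximalIdeal B)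
    (a : I → MvPolynomial ι B) (ha : ∑ i, a i * C (e i) ∈ P ^ 2) : ∀ i, a i ∈ P := by
  suffices H : ∀ (α : Type) [Finite α] (P : Ideal (MvPolynomial α B)) [P.IsPrime],
      P.comap C = maximalIdeal B → flb_Ind (fun i => (C (e i) : MvPolynomial α B)) P from
    H ι P h a ha
  clear a ha h
  intro κ _
  induction κ using Finite.induction_empty_option with
  | @of_equiv α β ee H =>
    intro P _ h
    let E : MvPolynomial β B ≃+* MvPolynomial α B := (renameEquiv B ee.symm).toRingEquiv
    let Q : Ideal (MvPolynomial α B) := P.comap E.symm.toRingHom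
    have hQ : Q.IsPrime := Ideal.IsPrime.comap _
    have h3 : ∀ x : B, E.symm.toRingHom (C x) = C x := by
      intro x
      simp [E]
    have h4 : ∀ x : B, E (C x) = C x := by
      intro x
      simp [E]
    refine flb_equiv E _ P ?_
    simp only [h4]
    refine H Q ?_
    rw [← h]
    ext x
    simp only [Ideal.mem_comap, Q]
    rw [h3]
  | h_empty =>
    intro P _ h
    let E : MvPolynomial PEmpty B ≃+* B := isEmptyRingEquiv B PEmpty
    have h4 : ∀ x : B, E (C x) = x := fun x => E.apply_symm_apply x
    refine flb_equiv E _ P ?_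
    have h5 : P.comap E.symm.toRingHom = maximalIdeal B := by
      rw [← h]
      rfl
    simp only [h4]
    rw [h5]
    exact hind
  | @h_option α _ IH =>
    intro P _ h
    let E : MvPolynomial (Option α) B ≃+* Polynomial (MvPolynomial α B) :=
      (MvPolynomial.optionEquivLeft B α).toRingEquiv
    let Q : Ideal (Polynomial (MvPolynomial α B)) := P.comap E.symm.toRingHom
    have hQ : Q.IsPrime := Ideal.IsPrime.comap _
    let q : Ideal (MvPolynomial α B) := Q.comap Polynomial.C
    have hq : q.IsPrime := Ideal.IsPrime.comap _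
    have h4 : ∀ x : B, E (C x) = Polynomial.C (C x) := by
      intro x
      simp [E]
    have h3 : ∀ x : B, E.symm.toRingHom (Polynomial.C (C x)) = C x := by
      intro x
      show E.symm (Polynomial.C (C x)) = C x
      rw [← h4, RingEquiv.symm_apply_apply]
    refine flb_equiv E _ P ?_
    simp only [h4]
    refine flb_step Q q rfl _ (IH q ?_)
    rw [← h]
    ext x
    simp only [Ideal.mem_comap, Q, q]
    rw [h3]

end Pool.Agent.EvM
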