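import Pool.Agent.EvM.EmQTc
import Pool.Agent.NT9.GeFrB

set_option autoImplicit false

/-! # quadratic transforms: finiteness -/

namespace Pool.Agent.EvM

open Pool.Agent.NT9

variable {K0 : Type} [Field K0] {B B' : Subring K0} {s t : K0}

section aux

open Polynomial IsLocalRing

/-- evaluation of the polynomials at `t / s` -/
private noncomputable def efT (B : Subring K0) (s t : K0) : B[X] →+* K0 :=
  eval₂RingHom B.subtype (t / s)

private theorem efT_mem (p : B[X]) :
    efT B s t p ∈ Subring.closure ((B : Set K0) ∪ {t / s}) := by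
  rw [efT, coe_eval₂RingHom, eval₂_eq_sum_range]
  refine Subring.sum_mem _ fun i _ => Subring.mul_mem _ ?_ (Subring.pow_mem _ ?_ i)
  · exact Subring.subset_closure (Or.inl (p.coeff i).2)
  · exact Subring.subset_closure (Or.inr rfl)

private theorem efT_surj {x : K0} (hx : x ∈ Subring.closure ((B : Set K0) ∪ {t / s})) :
    ∃ p : B[X], efT B s t p = x := by
  have h1 : Subring.closure ((B : Set K0) ∪ {t / s}) ≤ (efT B s t).range := by
    rw [Subring.closure_le]
    rintro y (hy | hy)
    · refine ⟨C ⟨y, hy⟩, ?_⟩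
      rw [efT, coe_eval₂RingHom, eval₂_C]
      rfl
    · rw [Set.mem_singleton_iff] at hy
      refine ⟨X, ?_⟩
      rw [efT, coe_eval₂RingHom, eval₂_X, hy]
  exact h1 hx

private theorem efT_eq {p : B[X]} {y : K0}
    (hy : y ∈ Subring.closure ((B : Set K0) ∪ {t / s})) (h : P2 B s t)
    (he : efT B s t p = s * y) : ∀ i, (p.coeff i : K0) ∈ mx B := by
  intro i
  rw [efT, coe_eval₂RingHom, eval₂_eq_sum_range] at he
  by_cases hi : i ≤ p.natDegree
  · exact poly_ind h (n := p.natDegree) (c := fun i => (p.coeff i : K0)) (fun i => (p.coeff i).2)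
      hy he i hi
  · rw [coeff_eq_zero_of_natDegree_lt (not_le.1 hi)]
    exact zero_mem_mx

/-- reduction of the coefficients -/
private noncomputable def efR (B : Subring K0) [IsLocalRing B] : B[X] →+* (ResidueField B)[X] :=
  mapRingHom (residue B)

private theorem efR_surj (B : Subring K0) [IsLocalRing B] : Function.Surjective (efR B) :=
  map_surjective _ residue_surjective

private theorem efR_eq [IsLocalRing B] {p : B[X]} : efR B p = 0 ↔ ∀ i, (p.coeff i : K0) ∈ mx B := by
  rw [efR, coe_mapRingHom, Polynomial.ext_iff]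
  refine forall_congr' fun i => ?_
  rw [coeff_map, coeff_zero, mem_mx_iff, residue_eq_zero_iff]

/-- in `mx B'` if all coefficients are -/
private theorem efT_mx [IsLocalRing B] [IsLocalRing B'] (hdom : ∀ x ∈ mx B, x ∈ mx B')
    (ht : t / s ∈ B') {p : B[X]} (hp : efR B p = 0) : efT B s t p ∈ mx B' := by
  rw [efR_eq] at hp
  rw [efT, coe_eval₂RingHom, eval₂_eq_sum_range]
  exact mx_sum _ _ fun i _ => mx_mul_right (hdom _ (hp i)) (B'.pow_mem ht i)

/-- a polynomial is contained in finitely many prime ideals -/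
private theorem ef_fin {k : Type} [Field k] {f : k[X]} (hf : f ≠ 0) :
    {Q : Ideal k[X] | Q.IsPrime ∧ f ∈ Q}.Finite := by
  refine (Ideal.finite_minimalPrimes_of_isNoetherianRing k[X] (Ideal.span {f})).subset ?_
  rintro Q ⟨hQ, hfQ⟩
  refine ⟨⟨hQ, (Ideal.span_singleton_le_iff_mem _).2 hfQ⟩, ?_⟩
  rintro Q' ⟨hQ', hfQ'⟩ hle
  have h0 : Q' ≠ ⊥ := by
    rintro rfl
    exact hf ((Submodule.mem_bot _).1 ((Ideal.span_singleton_le_iff_mem _).1 hfQ'))
  have hmax : Q'.IsMaximal := hQ'.isMaximal h0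
  exact (hmax.eq_of_le hQ.ne_top hle).ge

end aux

/-- Proof. `B'` is determined by the prime ideal `B[t/s] ∩ mx B'` (`NT9.eq_of_fr`), which contains `s` and `x / s^n = c(t/s)`, `c` not zero modulo `mx B`; `B[t/s] / (s) = k[τ]`
(`poly_ind`), and a nonzero polynomial over a field is contained in finitely many prime ideals of `k[τ]` (or: `B[t/s]` is Noetherian and these prime ideals are minimal over
`(s, x / s^n)`: `Ideal.finite_minimalPrimes_of_isNoetherianRing`). -/
theorem qt_fin (h : P2 B s t) {n : ℕ} {x : K0} (hx : x ∈ mp B n) (hx' : x ∉ mp B (n + 1)) :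
    {B' : Subring K0 | QT B s t B' ∧ x / s ^ n ∈ mx B'}.Finite := by
  have hloc := h.loc
  obtain ⟨c, hc, hxc⟩ := h.swap.mem_mp.1 hx
  -- the polynomial
  let p : Polynomial B := ∑ i ∈ Finset.range (n + 1), Polynomial.C ⟨c i, hc i⟩ * Polynomial.X ^ i
  have hp : efT B s t p = x / s ^ n := by
    rw [efT, Polynomial.coe_eval₂RingHom, Polynomial.eval₂_finsetSum, hxc, Finset.sum_div]
    refine Finset.sum_congr rfl fun i hi => ?_
    rw [Polynomial.eval₂_mul, Polynomial.eval₂_C, Polynomial.eval₂_pow, Polynomial.eval₂_X]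
    have h1 : s ^ n = s ^ i * s ^ (n - i) := by
      rw [← pow_add, Nat.add_sub_cancel' (Nat.lt_succ_iff.1 (Finset.mem_range.1 hi))]
    have h2 : s ^ (n - i) ≠ 0 := pow_ne_zero _ h.s0
    rw [h1, mul_div_mul_right _ _ h2, div_pow, mul_div_assoc]
    rfl
  have hcoe : ∀ i, i ≤ n → (p.coeff i : K0) = c i := by
    intro i hi
    rw [Polynomial.finsetSum_coeff]
    simp only [Polynomial.coeff_C_mul, Polynomial.coeff_X_pow]
    rw [Finset.sum_eq_single i]
    · rw [if_pos rfl, mul_one]
    · intro j _ hj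
      rw [if_neg (Ne.symm hj), mul_zero]
    · intro hni
      exact absurd (Finset.mem_range.2 (Nat.lt_succ_iff.2 hi)) hni
  have hp0 : efR B p ≠ 0 := by
    intro h0
    rw [efR_eq] at h0
    apply hx'
    rw [hxc]
    refine AddSubgroup.sum_mem _ fun i hi => ?_
    have hi' := Nat.lt_succ_iff.1 (Finset.mem_range.1 hi)
    have h1 := h0 i
    rw [hcoe i hi'] at h1
    have h3 : t ^ i * s ^ (n - i) ∈ mp B n := by
      refine h.swap.mem_mp.2 ⟨fun j => if j = i then 1 else 0, fun j => ?_, ?_⟩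
      · show (if j = i then 1 else 0) ∈ B
        split_ifs
        · exact B.one_mem
        · exact B.zero_mem
      · simp only
        rw [Finset.sum_eq_single i, if_pos rfl, one_mul]
        · intro j _ hj
          rw [if_neg hj, zero_mul, zero_mul]
        · intro hni
          exact absurd hi hni
    have h2 := mp_mul (mp_one_iff.2 h1) h3
    rw [← mul_assoc, add_comm 1 n] at h2
    exact h2
  -- the injection
  let f : Subring K0 → Ideal (Polynomial (IsLocalRing.ResidueField B)) := fun B' =>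
    Ideal.span (efR B '' {p | efT B s t p ∈ mx B'})
  -- the prime ideal of `B'`
  have hP : ∀ B' : Subring K0, QT B s t B' → ∃ P : Ideal (Polynomial B), P.IsPrime ∧
      (∀ p, p ∈ P ↔ efT B s t p ∈ mx B') ∧ f B' = P.map (efR B) ∧
      (f B').comap (efR B) = P := by
    intro B' q
    have := q.loc
    have hmem : ∀ p, efT B s t p ∈ B' := fun p => q.fr.1 (efT_mem p)
    refine ⟨pre B' (efT B s t) hmem, inferInstance, mem_pre _ _, ?_, ?_⟩
    · show Ideal.span (efR B '' _) = Ideal.span (efR B '' _)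
      congr 2
      ext p
      exact (mem_pre (O := B') (efT B s t) hmem p).symm
    · have h1 : f B' = (pre B' (efT B s t) hmem).map (efR B) := by
        show Ideal.span (efR B '' _) = Ideal.span (efR B '' _)
        congr 2
        ext p
        exact (mem_pre (O := B') (efT B s t) hmem p).symm
      rw [h1, Ideal.comap_map_of_surjective _ (efR_surj B)]
      refine sup_eq_left.2 ?_
      intro p hp
      rw [Ideal.mem_comap, Ideal.mem_bot] at hp
      rw [mem_pre]
      exact efT_mx q.dom q.tau hp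
  refine Set.Finite.of_injOn (f := f) (t := {Q | Q.IsPrime ∧ efR B p ∈ Q}) ?_ ?_ (ef_fin hp0)
  · rintro B' ⟨q, hq⟩
    obtain ⟨P, h1, h2, h3, h4⟩ := hP B' q
    refine ⟨?_, ?_⟩
    · rw [h3]
      refine Ideal.map_isPrime_of_surjective (efR_surj B) ?_
      intro p hp
      rw [RingHom.mem_ker] at hp
      rw [h2]
      have := q.loc
      exact efT_mx q.dom q.tau hp
    · refine Ideal.subset_span ⟨p, ?_, rfl⟩
      show efT B s t p ∈ mx B'
      rw [hp]
      exact hq
  · rintro B1 ⟨q1, _⟩ B2 ⟨q2, _⟩ heq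
    obtain ⟨Pa, _, h2, _, h4⟩ := hP B1 q1
    obtain ⟨Pb, _, k2, _, k4⟩ := hP B2 q2
    have hPP : Pa = Pb := by
      rw [← h4, ← k4]
      have heq' : f B1 = f B2 := heq
      rw [heq']
    refine eq_of_fr q1.fr q2.fr ?_
    intro x hx
    obtain ⟨p, rfl⟩ := efT_surj hx
    rw [← h2, ← k2, hPP]

/-- The bad points in the chart `s`. Proof. If `x ∉ mp B (2 k + 1)`: `qt_fin` with `n = 2 k`. Otherwise `n = 2 k + 1`, `x / s^(2k) = s (x / s^(2k+1))`, and `s y ∈ mp B' 2` implies
`y ∈ mx B'` (`qt_rp`). -/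
theorem child_fin (h : P2 B s t) {k : ℕ} {x : K0} (hx : x ∈ mp B (2 * k))
    (hx' : x ∉ mp B (2 * k + 2)) :
    {B' : Subring K0 | QT B s t B' ∧ x / s ^ (2 * k) ∈ mp B' 2}.Finite := by
  have hloc := h.loc
  by_cases h1 : x ∈ mp B (2 * k + 1)
  · refine (qt_fin h h1 hx').subset ?_
    rintro B' ⟨q, hq⟩
    refine ⟨q, ?_⟩
    have h2 := (qt_rp h q).ind (fun _ => x / s ^ (2 * k + 1)) (fun _ => qt_pow h q h1) ?_ ()
    · exact h2
    · rw [Fintype.sum_unique]
      have h3 : x / s ^ (2 * k + 1) * s = x / s ^ (2 * k) := by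
        rw [pow_succ, div_mul_eq_mul_div, mul_div_mul_right _ _ h.s0]
      rw [h3]
      exact hq
  · refine (qt_fin h hx h1).subset ?_
    rintro B' ⟨q, hq⟩
    have := q.loc
    exact ⟨q, mp_one_iff.1 (mp_anti one_le_two hq)⟩

end Pool.Agent.EvM
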