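import Pool.Agent.EvM.EmQTc

set_option autoImplicit false

/-! # quadratic transforms: residue fields -/

namespace Pool.Agent.EvM

open Pool.Agent.NT9

variable {K0 : Type} [Field K0] {B B' : Subring K0} {s t : K0}

section aux

open Polynomial IsLocalRing

private theorem efr_iff {K : Type} [Field K] {O : Subring K} [IsLocalRing O] :
    FinRes O ↔ Finite (ResidueField O) := by
  classical
  constructor
  · rintro ⟨S, hS⟩
    refine Finite.of_surjective (α := S)
      (fun s => if h : (s : K) ∈ O then residue O ⟨s, h⟩ else 0) ?_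
    intro z
    obtain ⟨x, rfl⟩ := residue_surjective z
    obtain ⟨s, hs, hsO, hxs⟩ := hS x x.2
    refine ⟨⟨s, hs⟩, ?_⟩
    simp only [hsO, dif_pos]
    have h1 : residue O (x - ⟨s, hsO⟩) = 0 := by
      rw [residue_eq_zero_iff, ← mem_mx_iff]
      exact hxs
    rw [map_sub, sub_eq_zero] at h1
    exact h1.symm
  · intro hfin
    have := Fintype.ofFinite (ResidueField O)
    choose g hg using (residue_surjective : Function.Surjective (residue O))
    refine ⟨Finset.univ.image (fun z => (g z : K)), fun x hx => ?_⟩
    refine ⟨(g (residue O ⟨x, hx⟩) : K), Finset.mem_image_of_mem _ (Finset.mem_univ _),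
      (g _).2, ?_⟩
    have h1 : residue O (⟨x, hx⟩ - g (residue O ⟨x, hx⟩)) = 0 := by
      rw [map_sub, hg, sub_self]
    rw [residue_eq_zero_iff, ← mem_mx_iff] at h1
    exact h1

/-- evaluation of the polynomials at `t / s` -/
private noncomputable def efT (B : Subring K0) (s t : K0) : B[X] →+* K0 :=
  eval₂RingHom B.subtype (t / s)

private theorem efT_surj {x : K0} (hx : x ∈ Subring.closure ((B : Set K0) ∪ {t / s})) :
    ∃ p : B[X], efT B s t p = x := by
  have h1 : Subring.closure ((B : Set K0) ∪ {t / s}) ≤ (efT B s t).range := by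
    rw [Subring.closure_le]
    rintro y (hy | hy)
    · refine ⟨C ⟨y, hy⟩, ?_⟩
      rw [efT, coe_eval₂RingHom, eval₂_C]
      rfl
    · rw [Set.mem_singleton_iff] at hy
      refine ⟨X, ?_⟩
      rw [efT, coe_eval₂RingHom, eval₂_X, hy]
  exact h1 hx

/-- if the coefficients are in `mx B` then the value is in `s B'` -/
private theorem efT_div (h : P2 B s t) (q : QT B s t B') {p : B[X]}
    (hp : ∀ i, (p.coeff i : K0) ∈ mx B) : efT B s t p / s ∈ B' := by
  rw [efT, coe_eval₂RingHom, eval₂_eq_sum_range, Finset.sum_div]
  refine B'.sum_mem fun i _ => ?_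
  rw [mul_comm, mul_div_assoc]
  exact B'.mul_mem (B'.pow_mem q.tau i) (q.div h (hp i))

end aux

/-- The residue field of a closed point is finite: every element of `B'` is congruent modulo `mx B'` to an element of `B[t/s]` (a unit `v` of `B'`, `v ∈ B[t/s]`, has a power
`≡ 1`), and `B[t/s] / (s, φ)`, a quotient of `k[τ]` by a nonzero polynomial, is finite. (`φ` can be replaced by an element of `B[t/s]`; the polynomial is nonzero modulo `mx B`, otherwise
`mx B' = s B'`.) -/
theorem qt_finres (h : P2 B s t) (hf : FinRes B) (q : QT B s t B') {φ : K0} (hφ : P2 B' s φ) :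
    FinRes B' := by
  have hloc := h.loc
  have hloc' := q.loc
  have hk : Finite (IsLocalRing.ResidueField B) := efr_iff.1 hf
  -- the homomorphism of the residue fields
  let g : B →+* IsLocalRing.ResidueField B' :=
    (IsLocalRing.residue B').comp (Subring.inclusion q.le)
  have hg : ∀ b : B, b ∈ IsLocalRing.maximalIdeal B → g b = 0 := by
    intro b hb
    show IsLocalRing.residue B' (Subring.inclusion q.le b) = 0
    rw [IsLocalRing.residue_eq_zero_iff, ← mem_mx_iff]
    exact q.dom _ ((mem_mx_iff b).2 hb)
  let f : IsLocalRing.ResidueField B →+* IsLocalRing.ResidueField B' :=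
    Ideal.Quotient.lift (IsLocalRing.maximalIdeal B) g hg
  have hfr : ∀ b : B, f (IsLocalRing.residue B b) = g b := fun b => Ideal.Quotient.lift_mk _ _ _
  let _ : Algebra (IsLocalRing.ResidueField B) (IsLocalRing.ResidueField B') := f.toAlgebra
  let τ : IsLocalRing.ResidueField B' := IsLocalRing.residue B' ⟨t / s, q.tau⟩
  -- evaluation
  have hψ : ∀ (p : Polynomial B) (hp : efT B s t p ∈ B'),
      IsLocalRing.residue B' ⟨efT B s t p, hp⟩ =
        Polynomial.aeval τ (p.map (IsLocalRing.residue B)) := by
    intro p hp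
    have h1 : (⟨efT B s t p, hp⟩ : B') =
        Polynomial.eval₂ (Subring.inclusion q.le) ⟨t / s, q.tau⟩ p := by
      apply Subtype.ext
      show efT B s t p = B'.subtype (Polynomial.eval₂ (Subring.inclusion q.le) ⟨t / s, q.tau⟩ p)
      rw [Polynomial.hom_eval₂]
      rfl
    rw [h1, Polynomial.hom_eval₂, Polynomial.aeval_def, Polynomial.eval₂_map]
    have h2 : (algebraMap (IsLocalRing.ResidueField B) (IsLocalRing.ResidueField B')).comp
        (IsLocalRing.residue B) = g := RingHom.ext fun b => hfr b
    rw [h2]
  -- `τ` is algebraic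
  have hint : IsIntegral (IsLocalRing.ResidueField B) τ := by
    obtain ⟨u, hu, v, hv, hv0, hvB, huv⟩ := q.fr.2 φ (mx_le hφ.ht)
    obtain ⟨p, rfl⟩ := efT_surj hu
    have hmx : efT B s t p ∈ mx B' := by
      rw [← huv]
      exact mx_mul_right hφ.ht (q.fr.1 hv)
    have halg : IsAlgebraic (IsLocalRing.ResidueField B) τ := by
      refine ⟨p.map (IsLocalRing.residue B), ?_, ?_⟩
      · intro h0
        have h1 : ∀ i, (p.coeff i : K0) ∈ mx B := by
          intro i
          rw [mem_mx_iff, ← IsLocalRing.residue_eq_zero_iff, ← Polynomial.coeff_map, h0,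
            Polynomial.coeff_zero]
        have h2 := efT_div h q h1
        have h3 : φ / s ∈ B' := by
          have h4 : φ / s = efT B s t p / s * v⁻¹ := by
            rw [← huv]
            field_simp
          rw [h4]
          exact B'.mul_mem h2 hvB
        obtain ⟨c, hc, h5, h6⟩ := hφ.reg (φ / s) h3 1 B'.one_mem (by
          rw [one_mul, div_mul_cancel₀ _ hφ.s0])
        have h7 : (1 : K0) ∈ mx B' := by
          rw [h6]
          exact mx_mul hc hφ.hs
        exact one_notMem_mx h7
      · rw [← hψ p hmx.1, IsLocalRing.residue_eq_zero_iff, ← mem_mx_iff]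
        exact hmx
    exact halg.isIntegral
  -- `k(τ)` is everything
  have hmem : ∀ p : Polynomial B, Polynomial.aeval τ (p.map (IsLocalRing.residue B)) ∈
      IntermediateField.adjoin (IsLocalRing.ResidueField B) {τ} := fun p =>
    IntermediateField.algebra_adjoin_le_adjoin _ _ (Polynomial.aeval_mem_adjoin_singleton _ _)
  have htop : IntermediateField.adjoin (IsLocalRing.ResidueField B) {τ} = ⊤ := by
    rw [eq_top_iff]
    intro z _
    obtain ⟨x, rfl⟩ := IsLocalRing.residue_surjective z
    obtain ⟨u, hu, v, hv, hv0, hvB, huv⟩ := q.fr.2 x x.2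
    obtain ⟨p, rfl⟩ := efT_surj hu
    obtain ⟨r, rfl⟩ := efT_surj hv
    have hpB : efT B s t p ∈ B' := q.fr.1 hu
    have hrB : efT B s t r ∈ B' := q.fr.1 hv
    have h1 : IsLocalRing.residue B' x * Polynomial.aeval τ (r.map (IsLocalRing.residue B)) =
        Polynomial.aeval τ (p.map (IsLocalRing.residue B)) := by
      rw [← hψ r hrB, ← hψ p hpB, ← map_mul]
      congr 1
      exact Subtype.ext huv
    have h2 : Polynomial.aeval τ (r.map (IsLocalRing.residue B)) ≠ 0 := by
      rw [← hψ r hrB, Ne, IsLocalRing.residue_eq_zero_iff, ← mem_mx_iff]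
      exact (notMem_mx_iff hrB).2 ⟨hv0, hvB⟩
    have h3 : IsLocalRing.residue B' x = Polynomial.aeval τ (p.map (IsLocalRing.residue B)) /
        Polynomial.aeval τ (r.map (IsLocalRing.residue B)) := by
      rw [← h1, mul_div_cancel_right₀ _ h2]
    rw [h3]
    exact div_mem (hmem p) (hmem r)
  have hfd := IntermediateField.adjoin.finiteDimensional hint
  rw [htop] at hfd
  have hfd' : FiniteDimensional (IsLocalRing.ResidueField B) (IsLocalRing.ResidueField B') :=
    Module.Finite.equiv (IntermediateField.topEquiv (F := IsLocalRing.ResidueField B)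
      (E := IsLocalRing.ResidueField B')).toLinearEquiv
  exact efr_iff.2 (Module.finite_of_finite (IsLocalRing.ResidueField B))

end Pool.Agent.EvM
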