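import Pool.Agent.EvM.EmQTc

set_option autoImplicit false

/-! # quadratic transforms: fractions -/

namespace Pool.Agent.EvM

open Pool.Agent.NT9

variable {K0 : Type} [Field K0] {B0 B B' : Subring K0} {s t E : K0}

private theorem frac_cl (h : P2 B s t) {x : K0}
    (hx : x ∈ Subring.closure ((B : Set K0) ∪ {t / s})) : ∃ n : ℕ, x * s ^ n ∈ B := by
  obtain ⟨n, c, hc, rfl⟩ := mem_closure_iff.1 hx
  refine ⟨n, ?_⟩
  rw [Finset.sum_mul]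
  refine sum_mem fun i hi => ?_
  have hi' : i ≤ n := by
    rw [Finset.mem_range] at hi
    omega
  have h1 : c i * (t / s) ^ i * s ^ n = c i * (t ^ i * s ^ (n - i)) := by
    obtain ⟨k, rfl⟩ := Nat.exists_eq_add_of_le hi'
    rw [Nat.add_sub_cancel_left, div_pow, pow_add]
    have hs : s ^ i ≠ 0 := pow_ne_zero _ h.s0
    field_simp
  rw [h1]
  exact mul_mem (hc i) (mul_mem (pow_mem h.ht.1 _) (pow_mem h.hs.1 _))

/-- The property `frac` of a chain. Proof. Let `Q` be a prime of `B'`, `p ∉ Q`; `s ∉ Q` since `p / s ∈ B'`. `Q1 = Q ∩ B`. `b = x / y`, `x, y ∈ B[t/s]`, `y` a unit of `B'`; for `N` large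
`s^N x, s^N y ∈ B`, `s^N y ∉ Q`. By `hfr`: `s^N x v1 = u1`, `s^N y v2 = u2`, with `v1, v2 ∉ Q1`; `u2 ∉ Q`. So `b (u2 v1) = u1 v2`. -/
theorem frac_step (h : P2 B s t) (q : QT B s t B') (hle : B0 ≤ B) {p : ℕ} (hp : (p : K0) / s ∈ B')
    (hfr : ∀ Q : Ideal B, Q.IsPrime → (p : B) ∉ Q → ∀ b : B, ∃ u v : B, (u : K0) ∈ B0 ∧
      (v : K0) ∈ B0 ∧ v ∉ Q ∧ b * v = u) :
    ∀ Q : Ideal B', Q.IsPrime → (p : B') ∉ Q → ∀ b : B', ∃ u v : B', (u : K0) ∈ B0 ∧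
      (v : K0) ∈ B0 ∧ v ∉ Q ∧ b * v = u := by
  intro Q hQ hpQ b
  have hs0 := h.s0
  have hsB : s ∈ B := h.hs.1
  have hsB' : s ∈ B' := q.le hsB
  have hsQ : (⟨s, hsB'⟩ : B') ∉ Q := by
    intro h1
    apply hpQ
    have h2 : (p : B') = ⟨s, hsB'⟩ * ⟨(p : K0) / s, hp⟩ := by
      apply Subtype.ext
      show ((p : B') : K0) = s * ((p : K0) / s)
      rw [mul_div_cancel₀ _ hs0]
      simp
    rw [h2]
    exact Q.mul_mem_right _ h1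
  let Q1 : Ideal B := Q.comap (Subring.inclusion q.le)
  have hQ1 : Q1.IsPrime := Ideal.IsPrime.comap _
  have hpQ1 : (p : B) ∉ Q1 := by
    intro h1
    apply hpQ
    have h2 : Subring.inclusion q.le (p : B) ∈ Q := h1
    rwa [map_natCast] at h2
  obtain ⟨x, hx, y, hy, hy0, hyi, hxy⟩ := q.fr.2 b.1 b.2
  obtain ⟨n, hn⟩ := frac_cl h hx
  obtain ⟨m, hm⟩ := frac_cl h hy
  have hX : x * s ^ (n + m) ∈ B := by
    rw [pow_add, ← mul_assoc]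
    exact mul_mem hn (pow_mem hsB _)
  have hY : y * s ^ (n + m) ∈ B := by
    rw [add_comm, pow_add, ← mul_assoc]
    exact mul_mem hm (pow_mem hsB _)
  obtain ⟨u1, v1, hu1, hv1, hv1Q, hv1e⟩ := hfr Q1 hQ1 hpQ1 ⟨_, hX⟩
  obtain ⟨u2, v2, hu2, hv2, hv2Q, hv2e⟩ := hfr Q1 hQ1 hpQ1 ⟨_, hY⟩
  have hv1e' : x * s ^ (n + m) * v1.1 = u1.1 := congrArg Subtype.val hv1e
  have hv2e' : y * s ^ (n + m) * v2.1 = u2.1 := congrArg Subtype.val hv2e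
  have hyB' : y ∈ B' := q.fr.1 hy
  have hyQ : (⟨y, hyB'⟩ : B') ∉ Q := by
    intro h1
    apply hQ.ne_top
    rw [Ideal.eq_top_iff_one]
    have h2 : (1 : B') = ⟨y⁻¹, hyi⟩ * ⟨y, hyB'⟩ := by
      apply Subtype.ext
      show (1 : K0) = y⁻¹ * y
      rw [inv_mul_cancel₀ hy0]
    rw [h2]
    exact Q.mul_mem_left _ h1
  have hu2Q : (⟨u2.1, q.le u2.2⟩ : B') ∉ Q := by
    have h2 : (⟨u2.1, q.le u2.2⟩ : B') = ⟨y, hyB'⟩ * ⟨s, hsB'⟩ ^ (n + m) *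
        ⟨v2.1, q.le v2.2⟩ := by
      apply Subtype.ext
      show u2.1 = y * s ^ (n + m) * v2.1
      exact hv2e'.symm
    rw [h2]
    intro h3
    rcases hQ.mem_or_mem h3 with h4 | h4
    · rcases hQ.mem_or_mem h4 with h5 | h5
      · exact hyQ h5
      · exact hsQ (hQ.mem_of_pow_mem _ h5)
    · exact hv2Q h4
  refine ⟨⟨u1.1 * v2.1, q.le (mul_mem u1.2 v2.2)⟩, ⟨u2.1 * v1.1, q.le (mul_mem u2.2 v1.2)⟩,
    mul_mem hu1 hv2, mul_mem hu2 hv1, ?_, ?_⟩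
  · intro h3
    have h4 : (⟨u2.1 * v1.1, q.le (mul_mem u2.2 v1.2)⟩ : B') =
        ⟨u2.1, q.le u2.2⟩ * ⟨v1.1, q.le v1.2⟩ := rfl
    rw [h4] at h3
    rcases hQ.mem_or_mem h3 with h5 | h5
    · exact hu2Q h5
    · exact hv1Q h5
  · apply Subtype.ext
    show b.1 * (u2.1 * v1.1) = u1.1 * v2.1
    rw [← hv1e', ← hv2e', ← hxy]
    ring

end Pool.Agent.EvM
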