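import Pool.Agent.EvM.EmTay

set_option autoImplicit false

/-! # The equations of the chart of a coordinate

Variables: `inl s` is `V s`, `inr (inl ())` is `Y`, `inr (inr i)` is `U i`. -/

namespace Pool.Agent.EvM

open MvPolynomial

section Aux

variable {σ : Type} [Fintype σ] [DecidableEq σ]

private theorem emy_taylor (h : MvPolynomial σ ℤ) : ∃ Q : σ → σ → MvPolynomial (σ ⊕ σ) ℤ,
    (∀ (R : Type) [CommRing R] [Algebra ℤ R] (x u : σ → R),
      aeval (fun s => x s + u s) h = aeval x h + ∑ s, aeval x (pderiv s h) * u s +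
      ∑ s, ∑ s', aeval (Sum.elim x u) (Q s s') * u s * u s') ∧
    ∀ (R : Type) [CommRing R] [Algebra ℤ R] (x : σ → R) (s s' : σ),
      aeval (Sum.elim x (0 : σ → R)) (Q s s') +
      aeval (Sum.elim x (0 : σ → R)) (Q s' s) = aeval x (pderiv s (pderiv s' h)) := by
  obtain ⟨Q, h1, h2⟩ := taylor2 h
  refine ⟨Q, fun R _ inst x u => ?_, fun R _ inst x s s' => ?_⟩
  · obtain rfl := Subsingleton.elim inst (Ring.toIntAlgebra R)
    exact h1 R x u
  · obtain rfl := Subsingleton.elim inst (Ring.toIntAlgebra R)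
    exact h2 R x s s'

omit [Fintype σ] [DecidableEq σ] in
private theorem emy_congr {S : Type} [CommRing S] [Algebra ℤ S] (J : Ideal S) (x u : σ → S)
    (hu : ∀ s, u s ∈ J) (g : MvPolynomial (σ ⊕ σ) ℤ) :
    aeval (Sum.elim x u) g - aeval (Sum.elim x (0 : σ → S)) g ∈ J := by
  induction g using MvPolynomial.induction_on with
  | C a =>
    simp
  | add p q hp hq =>
    rw [map_add, map_add, add_sub_add_comm]
    exact J.add_mem hp hq
  | mul_X p i hp =>
    rw [map_mul, map_mul, aeval_X, aeval_X]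
    rcases i with s | s
    · rw [Sum.elim_inl, Sum.elim_inl, ← sub_mul]
      exact J.mul_mem_right _ hp
    · rw [Sum.elim_inr, Sum.elim_inr, Pi.zero_apply, mul_zero, sub_zero]
      exact J.mul_mem_left _ (hu s)

omit [Fintype σ] [DecidableEq σ] in
private theorem emy_der {B S : Type} [CommRing B] [CommRing S] [Algebra B S] [Algebra ℤ S]
    (D : Derivation B S S) (J : Ideal S) (F : σ ⊕ σ → S) (hF : ∀ i, D (F i) ∈ J)
    (g : MvPolynomial (σ ⊕ σ) ℤ) : D (aeval F g) ∈ J := by
  induction g using MvPolynomial.induction_on with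
  | C a =>
    rw [algHom_C, show (algebraMap ℤ S a) = algebraMap B S (a : B) by
      rw [eq_intCast, map_intCast], D.map_algebraMap]
    exact J.zero_mem
  | add p q hp hq =>
    rw [map_add, map_add]
    exact J.add_mem hp hq
  | mul_X p i hp =>
    rw [map_mul, aeval_X, D.leibniz]
    exact J.add_mem (J.mul_mem_left _ (hF i)) (J.mul_mem_left _ hp)

omit [Fintype σ] [DecidableEq σ] in
private theorem emy_C {B : Type} [CommRing B] {τ ι : Type} (X : ι → B)
    (g : MvPolynomial ι ℤ) : aeval (fun s => (C (X s) : MvPolynomial τ B)) g = C (aeval X g) := by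
  induction g using MvPolynomial.induction_on with
  | C a => simp
  | add p q hp hq => rw [map_add, map_add, hp, hq, map_add]
  | mul_X p i hp => rw [map_mul, map_mul, hp, aeval_X, aeval_X, map_mul]

omit [Fintype σ] [DecidableEq σ] in
private theorem emy_C' {B : Type} [CommRing B] {τ : Type} (X : σ → B)
    (g : MvPolynomial (σ ⊕ σ) ℤ) :
    aeval (Sum.elim (fun s => (C (X s) : MvPolynomial τ B)) (0 : σ → MvPolynomial τ B)) g =
      C (aeval (Sum.elim X (0 : σ → B)) g) := by
  rw [← emy_C]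
  congr 2
  funext i
  rcases i with s | s
  · rfl
  · simp

end Aux

variable {σ : Type} [Fintype σ] [DecidableEq σ] {B : Type} [CommRing B] {I : Type} [Fintype I]

/-- The coordinates `x s = X s + M Y V s`. -/
noncomputable def xY (X : σ → B) (M : B) (I : Type) (s : σ) : MvPolynomial (σ ⊕ (Unit ⊕ I)) B :=
  C (X s) + C M * MvPolynomial.X (Sum.inr (Sum.inl ())) * MvPolynomial.X (Sum.inl s)

/-- The relation `e i = U i Y`. -/
noncomputable def rY (σ : Type) (e : I → B) (i : I) : MvPolynomial (σ ⊕ (Unit ⊕ I)) B :=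
  C (e i) - MvPolynomial.X (Sum.inr (Sum.inr i)) * MvPolynomial.X (Sum.inr (Sum.inl ()))

/-- The ideal of `M Y` and the `U i`. -/
noncomputable def jY (σ I : Type) (M : B) : Ideal (MvPolynomial (σ ⊕ (Unit ⊕ I)) B) :=
  Ideal.span (insert (C M * MvPolynomial.X (Sum.inr (Sum.inl ())))
    (Set.range fun i : I => MvPolynomial.X (Sum.inr (Sum.inr i))))

/-- Proof. Let `Qt`, `Qf` be the polynomials of `taylor2` for `t`, `f`, `A g := aeval (Sum.elim (fun s => C (X s)) (fun s => C M * Y * V s)) g`. Take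
`G1 = ∑ i, C (a i) * U i + ∑ s, C (aeval X (pderiv s t)) * V s + C M * Y * ∑ s, ∑ s', A (Qt s s') * V s * V s'`,
`G2 = ∑ i, ∑ i', C (c i i') * U i * U i' + ∑ s, ∑ i, C (b s i) * U i * V s + ∑ s, ∑ s', (A (Qf s s') - C lam * A (Qt s s')) * V s * V s'`.
`A g` is congruent to `C (aeval (Sum.elim X 0) g)` modulo `C M * Y`, and `pderiv (inl s) (A g)` is in the ideal of `C M * Y`. -/
theorem exists_GY (f t : MvPolynomial σ ℤ) (X : σ → B) (T lam M : B) (e a : I → B)
    (b : σ → I → B) (c : I → I → B) (ha : M * ∑ i, a i * e i = aeval X t - T)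
    (hb : ∀ s, M * ∑ i, b s i * e i = aeval X (pderiv s f) - lam * aeval X (pderiv s t))
    (hc : M ^ 2 * ∑ i, ∑ i', c i i' * e i * e i' = aeval X f - lam * (aeval X t - T)) :
    ∃ G1 G2 : MvPolynomial (σ ⊕ (Unit ⊕ I)) B,
      C M * MvPolynomial.X (Sum.inr (Sum.inl ())) * G1 - (aeval (xY X M I) t - C T) ∈
        Ideal.span (Set.range (rY σ e)) ∧
      (C M * MvPolynomial.X (Sum.inr (Sum.inl ()))) ^ 2 * G2 -
        (aeval (xY X M I) f - C lam * (aeval (xY X M I) t - C T)) ∈
        Ideal.span (Set.range (rY σ e)) ∧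
      (∀ s, pderiv (Sum.inl s) G1 - C (aeval X (pderiv s t)) ∈ jY σ I M) ∧
      (∀ s, pderiv (Sum.inl s) G2 - ∑ s', C (aeval X (pderiv s (pderiv s' f)) -
        lam * aeval X (pderiv s (pderiv s' t))) * MvPolynomial.X (Sum.inl s') ∈ jY σ I M) ∧
      G1 - ∑ s, C (aeval X (pderiv s t)) * MvPolynomial.X (Sum.inl s) ∈ jY σ I M ∧
      2 * G2 - ∑ s, MvPolynomial.X (Sum.inl s) * ∑ s', C (aeval X (pderiv s (pderiv s' f)) -
        lam * aeval X (pderiv s (pderiv s' t))) * MvPolynomial.X (Sum.inl s') ∈ jY σ I M := by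
  classical
  obtain ⟨Qt, ht1, ht2⟩ := emy_taylor t
  obtain ⟨Qf, hf1, hf2⟩ := emy_taylor f
  let Y : MvPolynomial (σ ⊕ (Unit ⊕ I)) B := MvPolynomial.X (Sum.inr (Sum.inl ()))
  let V : σ → MvPolynomial (σ ⊕ (Unit ⊕ I)) B := fun s => MvPolynomial.X (Sum.inl s)
  let U : I → MvPolynomial (σ ⊕ (Unit ⊕ I)) B := fun i => MvPolynomial.X (Sum.inr (Sum.inr i))
  obtain ⟨m, hm⟩ : ∃ m : MvPolynomial (σ ⊕ (Unit ⊕ I)) B, m = C M * Y := ⟨_, rfl⟩
  obtain ⟨J, hJ⟩ : ∃ J : Ideal (MvPolynomial (σ ⊕ (Unit ⊕ I)) B), J = jY σ I M := ⟨_, rfl⟩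
  have hMJ : m ∈ J := by
    rw [hJ, hm]
    exact Ideal.subset_span (Set.mem_insert _ _)
  have hUJ : ∀ i, U i ∈ J := by
    intro i
    rw [hJ]
    exact Ideal.subset_span (Set.mem_insert_of_mem _ ⟨i, rfl⟩)
  let x : σ → MvPolynomial (σ ⊕ (Unit ⊕ I)) B := fun s => C (X s)
  let u : σ → MvPolynomial (σ ⊕ (Unit ⊕ I)) B := fun s => m * V s
  have huJ : ∀ s, u s ∈ J := fun s => J.mul_mem_right _ hMJ
  have hdm : ∀ s : σ, pderiv (Sum.inl s) m = 0 := by
    intro s
    rw [hm, pderiv_C_mul, pderiv_X_of_ne (by simp), mul_zero]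
  have hdU : ∀ (s : σ) (i : I), pderiv (Sum.inl s) (U i) = 0 := fun s i =>
    pderiv_X_of_ne (by simp)
  have hdV : ∀ (s r : σ), pderiv (Sum.inl s) (V r) = if r = s then 1 else 0 := by
    intro s r
    show pderiv (Sum.inl s) (MvPolynomial.X (Sum.inl r)) = _
    rw [pderiv_X, Pi.single_apply]
    by_cases h : r = s
    · rw [if_pos h, if_pos (congrArg Sum.inl h)]
    · rw [if_neg h, if_neg fun h' => h (Sum.inl_injective h')]
  let A : MvPolynomial (σ ⊕ σ) ℤ → MvPolynomial (σ ⊕ (Unit ⊕ I)) B := fun g =>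
    aeval (Sum.elim x u) g
  have hA1 : ∀ g, A g - C (aeval (Sum.elim X (0 : σ → B)) g) ∈ J := by
    intro g
    have h1 := emy_congr J x u huJ g
    have h2 : aeval (Sum.elim x (0 : σ → MvPolynomial (σ ⊕ (Unit ⊕ I)) B)) g = _ := emy_C' X g
    rw [h2] at h1
    exact h1
  have hA2 : ∀ (s : σ) g, pderiv (Sum.inl s) (A g) ∈ J := by
    intro s g
    refine emy_der (pderiv (Sum.inl s)) J (Sum.elim x u) (fun i => ?_) g
    rcases i with r | r
    · show pderiv (Sum.inl s) (C (X r)) ∈ J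
      rw [pderiv_C]
      exact J.zero_mem
    · show pderiv (Sum.inl s) (m * V r) ∈ J
      rw [pderiv_mul, hdm, zero_mul, zero_add]
      exact J.mul_mem_right _ hMJ
  let q : σ → σ → MvPolynomial (σ ⊕ (Unit ⊕ I)) B := fun s s' =>
    A (Qf s s') - C lam * A (Qt s s')
  have hq1 : ∀ s s', q s s' + q s' s - C (aeval X (pderiv s (pderiv s' f)) -
        lam * aeval X (pderiv s (pderiv s' t))) ∈ J := by
    intro s s'
    rw [← hf2, ← ht2]
    have h1 := J.add_mem (J.add_mem (hA1 (Qf s s')) (hA1 (Qf s' s)))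
      (J.mul_mem_left (- C lam) (J.add_mem (hA1 (Qt s s')) (hA1 (Qt s' s))))
    convert h1 using 1
    simp only [q, map_sub, map_add, map_mul]
    ring
  have hq2 : ∀ (r s s' : σ), pderiv (Sum.inl r) (q s s') ∈ J := by
    intro r s s'
    show pderiv (Sum.inl r) (A (Qf s s') - C lam * A (Qt s s')) ∈ J
    rw [map_sub, pderiv_C_mul]
    exact J.sub_mem (hA2 _ _) (J.mul_mem_left _ (hA2 _ _))
  obtain ⟨W, hW⟩ : ∃ W : MvPolynomial (σ ⊕ (Unit ⊕ I)) B,
    W = ∑ s, ∑ s', A (Qt s s') * V s * V s' := ⟨_, rfl⟩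
  obtain ⟨Z, hZ⟩ : ∃ Z : MvPolynomial (σ ⊕ (Unit ⊕ I)) B,
    Z = ∑ s, ∑ s', q s s' * V s * V s' := ⟨_, rfl⟩
  obtain ⟨aU, haU⟩ : ∃ z : MvPolynomial (σ ⊕ (Unit ⊕ I)) B, z = ∑ i, C (a i) * U i := ⟨_, rfl⟩
  obtain ⟨cU, hcU⟩ : ∃ z : MvPolynomial (σ ⊕ (Unit ⊕ I)) B,
    z = ∑ i, ∑ i', C (c i i') * U i * U i' := ⟨_, rfl⟩
  obtain ⟨bU, hbU⟩ : ∃ z : MvPolynomial (σ ⊕ (Unit ⊕ I)) B,
    z = ∑ s, (∑ i, C (b s i) * U i) * V s := ⟨_, rfl⟩
  have haJ : aU ∈ J := by
    rw [haU]
    exact J.sum_mem fun i _ => J.mul_mem_left _ (hUJ i)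
  have hcJ : cU ∈ J := by
    rw [hcU]
    exact J.sum_mem fun i _ => J.sum_mem fun i' _ => J.mul_mem_left _ (hUJ i')
  have hbJ' : ∀ s, ∑ i, C (b s i) * U i ∈ J := fun s =>
    J.sum_mem fun i _ => J.mul_mem_left _ (hUJ i)
  have hbJ : bU ∈ J := by
    rw [hbU]
    exact J.sum_mem fun s _ => J.mul_mem_right _ (hbJ' s)
  have hda : ∀ s : σ, pderiv (Sum.inl s) aU = 0 := by
    intro s
    rw [haU, map_sum]
    exact Finset.sum_eq_zero fun i _ => by rw [pderiv_C_mul, hdU, mul_zero]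
  have hdc : ∀ s : σ, pderiv (Sum.inl s) cU = 0 := by
    intro s
    rw [hcU, map_sum]
    refine Finset.sum_eq_zero fun i _ => ?_
    rw [map_sum]
    exact Finset.sum_eq_zero fun i' _ => by
      rw [mul_assoc, pderiv_C_mul, pderiv_mul, hdU, hdU, mul_zero, zero_mul, add_zero, mul_zero]
  have hdb' : ∀ s r : σ, pderiv (Sum.inl r) (∑ i, C (b s i) * U i) = 0 := by
    intro s r
    rw [map_sum]
    exact Finset.sum_eq_zero fun i _ => by rw [pderiv_C_mul, hdU, mul_zero]
  have hdb : ∀ r : σ, pderiv (Sum.inl r) bU = ∑ i, C (b r i) * U i := by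
    intro r
    rw [hbU, map_sum, Finset.sum_eq_single r]
    · rw [pderiv_mul, hdb', hdV, if_pos rfl, zero_mul, zero_add, mul_one]
    · intro s _ hs
      rw [pderiv_mul, hdb', hdV, if_neg hs, zero_mul, zero_add, mul_zero]
    · intro h
      exact absurd (Finset.mem_univ r) h
  have hlin : ∀ (r : σ) (d : σ → B), pderiv (Sum.inl r) (∑ s, C (d s) * V s) = C (d r) := by
    intro r d
    rw [map_sum, Finset.sum_eq_single r]
    · rw [pderiv_C_mul, hdV, if_pos rfl, mul_one]
    · intro s _ hs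
      rw [pderiv_C_mul, hdV, if_neg hs, mul_zero]
    · intro h
      exact absurd (Finset.mem_univ r) h
  have e1 : ∀ g, aeval x g = C (aeval X g) := fun g => emy_C X g
  -- the quotient
  let φ : MvPolynomial (σ ⊕ (Unit ⊕ I)) B →+* _ :=
    Ideal.Quotient.mk (Ideal.span (Set.range (rY σ e)))
  have hφ : ∀ i, φ (U i * Y) = φ (C (e i)) := by
    intro i
    refine (Ideal.Quotient.eq.2 ?_).symm
    exact Ideal.subset_span ⟨i, rfl⟩
  have hxY : ∀ g : MvPolynomial σ ℤ, aeval (xY X M I) g = aeval (fun s => x s + u s) g := by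
    intro g
    congr 2
    funext s
    show C (X s) + C M * MvPolynomial.X (Sum.inr (Sum.inl ())) * MvPolynomial.X (Sum.inl s) =
      C (X s) + m * MvPolynomial.X (Sum.inl s)
    rw [hm]
  have hφa : φ (m * aU) = φ (C (aeval X t - T)) := by
    rw [← ha, haU, hm, C_mul, map_mul φ, map_mul φ, map_mul φ, mul_assoc, ← map_mul φ, map_sum,
      Finset.mul_sum]
    congr 1
    rw [map_sum, map_sum]
    refine Finset.sum_congr rfl fun i _ => ?_
    rw [show Y * (C (a i) * U i) = C (a i) * (U i * Y) by ring, map_mul φ, hφ, ← map_mul φ, C_mul]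
  have hφb : ∀ s, φ (m * (∑ i, C (b s i) * U i)) =
      φ (C (aeval X (pderiv s f) - lam * aeval X (pderiv s t))) := by
    intro s
    rw [← hb, hm, C_mul, map_mul φ, map_mul φ, map_mul φ, mul_assoc, ← map_mul φ, map_sum,
      Finset.mul_sum]
    congr 1
    rw [map_sum, map_sum]
    refine Finset.sum_congr rfl fun i _ => ?_
    rw [show Y * (C (b s i) * U i) = C (b s i) * (U i * Y) by ring, map_mul φ, hφ, ← map_mul φ,
      C_mul]
  have hφc : φ (m ^ 2 * cU) = φ (C (aeval X f - lam * (aeval X t - T))) := by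
    rw [← hc, hm, C_mul, mul_pow, C_pow, map_mul φ, map_mul φ, map_mul φ, mul_assoc, ← map_mul φ]
    congr 1
    rw [hcU, map_sum, Finset.mul_sum, map_sum, map_sum]
    refine Finset.sum_congr rfl fun i _ => ?_
    rw [map_sum, Finset.mul_sum, map_sum, map_sum]
    refine Finset.sum_congr rfl fun i' _ => ?_
    rw [show Y ^ 2 * (C (c i i') * U i * U i') = C (c i i') * (U i * Y) * (U i' * Y) by ring,
      map_mul φ, map_mul φ, hφ, hφ, ← map_mul φ, ← map_mul φ, C_mul, C_mul]
  have hmm : C M * MvPolynomial.X (Sum.inr (Sum.inl ())) = m := hm.symm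
  refine ⟨aU + ∑ s, C (aeval X (pderiv s t)) * V s + m * W, cU + bU + Z, ?_, ?_, ?_, ?_, ?_, ?_⟩
  · have e2 : ∑ s, aeval x (pderiv s t) * u s = m * ∑ s, C (aeval X (pderiv s t)) * V s := by
      rw [Finset.mul_sum]
      refine Finset.sum_congr rfl fun s _ => ?_
      rw [e1]
      show C (aeval X (pderiv s t)) * (m * V s) = _
      ring
    have e3 : ∑ s, ∑ s', aeval (Sum.elim x u) (Qt s s') * u s * u s' = m * (m * W) := by
      rw [hW]
      simp only [Finset.mul_sum]
      refine Finset.sum_congr rfl fun s _ => Finset.sum_congr rfl fun s' _ => ?_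
      show A (Qt s s') * (m * V s) * (m * V s') = _
      ring
    rw [hmm, hxY, ht1 _ x u, e1, e2, e3]
    have h1 := Ideal.Quotient.eq.1 hφa
    have h2 : m * (aU + ∑ s, C (aeval X (pderiv s t)) * V s + m * W) -
        (C (aeval X t) + m * ∑ s, C (aeval X (pderiv s t)) * V s + m * (m * W) - C T) =
        m * aU - C (aeval X t - T) := by
      rw [C_sub]
      ring
    rw [h2]
    exact h1
  · have e2 : ∑ s, aeval x (pderiv s t) * u s = ∑ s, C (aeval X (pderiv s t)) * (m * V s) :=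
      Finset.sum_congr rfl fun s _ => by rw [e1]
    have e2' : ∑ s, aeval x (pderiv s f) * u s = ∑ s, C (aeval X (pderiv s f)) * (m * V s) :=
      Finset.sum_congr rfl fun s _ => by rw [e1]
    have e3 : ∑ s, ∑ s', aeval (Sum.elim x u) (Qf s s') * u s * u s' -
        C lam * ∑ s, ∑ s', aeval (Sum.elim x u) (Qt s s') * u s * u s' = m ^ 2 * Z := by
      rw [hZ]
      simp only [Finset.mul_sum, ← Finset.sum_sub_distrib]
      refine Finset.sum_congr rfl fun s _ => Finset.sum_congr rfl fun s' _ => ?_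
      show A (Qf s s') * (m * V s) * (m * V s') - C lam * (A (Qt s s') * (m * V s) * (m * V s')) =
        m ^ 2 * ((A (Qf s s') - C lam * A (Qt s s')) * V s * V s')
      ring
    have e4 : m ^ 2 * bU = ∑ s, m * (∑ i, C (b s i) * U i) * (m * V s) := by
      rw [hbU, Finset.mul_sum]
      exact Finset.sum_congr rfl fun s _ => by ring
    have e5 : ∑ s, C (aeval X (pderiv s f) - lam * aeval X (pderiv s t)) * (m * V s) =
        ∑ s, C (aeval X (pderiv s f)) * (m * V s) -
          C lam * ∑ s, C (aeval X (pderiv s t)) * (m * V s) := by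
      rw [Finset.mul_sum, ← Finset.sum_sub_distrib]
      refine Finset.sum_congr rfl fun s _ => ?_
      rw [C_sub, C_mul]
      ring
    rw [hmm, hxY, hxY, ht1 _ x u, hf1 _ x u, e1, e1, e2, e2']
    have h2 : m ^ 2 * (cU + bU + Z) -
        (C (aeval X f) + ∑ s, C (aeval X (pderiv s f)) * (m * V s) +
          ∑ s, ∑ s', aeval (Sum.elim x u) (Qf s s') * u s * u s' -
        C lam * (C (aeval X t) + ∑ s, C (aeval X (pderiv s t)) * (m * V s) +
          ∑ s, ∑ s', aeval (Sum.elim x u) (Qt s s') * u s * u s' - C T)) =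
        (m ^ 2 * cU - C (aeval X f - lam * (aeval X t - T))) +
        ∑ s, (m * (∑ i, C (b s i) * U i) -
          C (aeval X (pderiv s f) - lam * aeval X (pderiv s t))) * (m * V s) := by
      simp only [sub_mul, Finset.sum_sub_distrib]
      rw [e5, ← e4, C_sub, C_mul, C_sub]
      linear_combination -e3
    rw [h2]
    refine Ideal.add_mem _ (Ideal.Quotient.eq.1 hφc) (Ideal.sum_mem _ fun s _ =>
      Ideal.mul_mem_right _ _ (Ideal.Quotient.eq.1 (hφb s)))
  · intro s
    rw [← hJ, map_add, map_add, hda, hlin, pderiv_mul, hdm, zero_mul, zero_add, zero_add,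
      add_sub_cancel_left]
    exact J.mul_mem_right _ hMJ
  · intro r
    rw [← hJ, map_add, map_add, hdc, hdb, zero_add]
    have h1 : pderiv (Sum.inl r) Z = ∑ s, ∑ s', pderiv (Sum.inl r) (q s s') * V s * V s' +
        ∑ s', (q r s' + q s' r) * V s' := by
      rw [hZ, map_sum]
      simp only [map_sum]
      have h2 : ∀ s s', pderiv (Sum.inl r) (q s s' * V s * V s') =
          pderiv (Sum.inl r) (q s s') * V s * V s' +
            ((if s = r then q s s' * V s' else 0) +
              if s' = r then q s s' * V s else 0) := by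
        intro s s'
        rw [pderiv_mul, pderiv_mul, hdV, hdV]
        split_ifs <;> ring
      simp only [h2, Finset.sum_add_distrib]
      congr 1
      rw [Finset.sum_comm (f := fun s s' => if s = r then q s s' * V s' else 0)]
      simp only [Finset.sum_ite_eq', Finset.mem_univ, if_true, add_mul, Finset.sum_add_distrib]
    rw [h1, add_sub_assoc, add_sub_assoc, ← Finset.sum_sub_distrib]
    refine J.add_mem (hbJ' r) (J.add_mem (J.sum_mem fun s _ => J.sum_mem fun s' _ =>
      J.mul_mem_right _ (J.mul_mem_right _ (hq2 _ _ _))) (J.sum_mem fun s' _ => ?_))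
    show (q r s' + q s' r) * V s' - _ * V s' ∈ J
    rw [← sub_mul]
    exact J.mul_mem_right _ (hq1 r s')
  · rw [← hJ]
    have h1 : aU + ∑ s, C (aeval X (pderiv s t)) * V s + m * W -
        ∑ s, C (aeval X (pderiv s t)) * V s = aU + m * W := by ring
    exact h1 ▸ J.add_mem haJ (J.mul_mem_right _ hMJ)
  · rw [← hJ]
    have h1 : 2 * Z = ∑ s, ∑ s', (q s s' + q s' s) * V s * V s' := by
      rw [hZ, two_mul]
      conv_lhs =>
        rhs
        rw [Finset.sum_comm]
      rw [← Finset.sum_add_distrib]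
      refine Finset.sum_congr rfl fun s _ => ?_
      rw [← Finset.sum_add_distrib]
      exact Finset.sum_congr rfl fun s' _ => by ring
    have h2 : 2 * (cU + bU + Z) - ∑ s, V s * ∑ s', C (aeval X (pderiv s (pderiv s' f)) -
        lam * aeval X (pderiv s (pderiv s' t))) * V s' = 2 * cU + 2 * bU +
        ∑ s, ∑ s', (q s s' + q s' s - C (aeval X (pderiv s (pderiv s' f)) -
        lam * aeval X (pderiv s (pderiv s' t)))) * V s * V s' := by
      rw [mul_add, mul_add, h1, add_sub_assoc, ← Finset.sum_sub_distrib]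
      congr 1
      refine Finset.sum_congr rfl fun s _ => ?_
      rw [Finset.mul_sum, ← Finset.sum_sub_distrib]
      exact Finset.sum_congr rfl fun s' _ => by ring
    show 2 * (cU + bU + Z) - ∑ s, V s * ∑ s', C (aeval X (pderiv s (pderiv s' f)) -
        lam * aeval X (pderiv s (pderiv s' t))) * V s' ∈ J
    rw [h2]
    exact J.add_mem (J.add_mem (J.mul_mem_left _ hcJ) (J.mul_mem_left _ hbJ))
      (J.sum_mem fun s _ => J.sum_mem fun s' _ => J.mul_mem_right _ (J.mul_mem_right _ (hq1 s s')))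

end Pool.Agent.EvM
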