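import Pool.Agent.EvM.EmTay

set_option autoImplicit false

/-! # The equations of the chart of the exceptional parameter -/

namespace Pool.Agent.EvM

open MvPolynomial

variable {σ : Type} [Fintype σ] [DecidableEq σ]

private theorem emz_taylor (h : MvPolynomial σ ℤ) : ∃ Q : σ → σ → MvPolynomial (σ ⊕ σ) ℤ,
    (∀ (R : Type) [CommRing R] [Algebra ℤ R] (x u : σ → R),
      aeval (fun s => x s + u s) h = aeval x h + ∑ s, aeval x (pderiv s h) * u s +
      ∑ s, ∑ s', aeval (Sum.elim x u) (Q s s') * u s * u s') ∧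
    ∀ (R : Type) [CommRing R] [Algebra ℤ R] (x : σ → R) (s s' : σ),
      aeval (Sum.elim x (0 : σ → R)) (Q s s') +
      aeval (Sum.elim x (0 : σ → R)) (Q s' s) = aeval x (pderiv s (pderiv s' h)) := by
  obtain ⟨Q, h1, h2⟩ := taylor2 h
  refine ⟨Q, fun R _ inst x u => ?_, fun R _ inst x s s' => ?_⟩
  · obtain rfl := Subsingleton.elim inst (Ring.toIntAlgebra R)
    exact h1 R x u
  · obtain rfl := Subsingleton.elim inst (Ring.toIntAlgebra R)
    exact h2 R x s s'

omit [Fintype σ] [DecidableEq σ] in
private theorem emz_congr {S : Type} [CommRing S] [Algebra ℤ S] (J : Ideal S) (x u : σ → S)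
    (hu : ∀ s, u s ∈ J) (g : MvPolynomial (σ ⊕ σ) ℤ) :
    aeval (Sum.elim x u) g - aeval (Sum.elim x (0 : σ → S)) g ∈ J := by
  induction g using MvPolynomial.induction_on with
  | C a =>
    simp
  | add p q hp hq =>
    rw [map_add, map_add, add_sub_add_comm]
    exact J.add_mem hp hq
  | mul_X p i hp =>
    rw [map_mul, map_mul, aeval_X, aeval_X]
    rcases i with s | s
    · rw [Sum.elim_inl, Sum.elim_inl, ← sub_mul]
      exact J.mul_mem_right _ hp
    · rw [Sum.elim_inr, Sum.elim_inr, Pi.zero_apply, mul_zero, sub_zero]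
      exact J.mul_mem_left _ (hu s)

omit [Fintype σ] [DecidableEq σ] in
private theorem emz_der {B S : Type} [CommRing B] [CommRing S] [Algebra B S] [Algebra ℤ S]
    (D : Derivation B S S) (J : Ideal S) (F : σ ⊕ σ → S) (hF : ∀ i, D (F i) ∈ J)
    (g : MvPolynomial (σ ⊕ σ) ℤ) : D (aeval F g) ∈ J := by
  induction g using MvPolynomial.induction_on with
  | C a =>
    rw [algHom_C, show (algebraMap ℤ S a) = algebraMap B S (a : B) by
      rw [eq_intCast, map_intCast], D.map_algebraMap]
    exact J.zero_mem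
  | add p q hp hq =>
    rw [map_add, map_add]
    exact J.add_mem hp hq
  | mul_X p i hp =>
    rw [map_mul, aeval_X, D.leibniz]
    exact J.add_mem (J.mul_mem_left _ (hF i)) (J.mul_mem_left _ hp)

omit [Fintype σ] [DecidableEq σ] in
private theorem emz_C {B : Type} [CommRing B] {τ ι : Type} (X : ι → B)
    (g : MvPolynomial ι ℤ) : aeval (fun s => (C (X s) : MvPolynomial τ B)) g = C (aeval X g) := by
  induction g using MvPolynomial.induction_on with
  | C a => simp
  | add p q hp hq => rw [map_add, map_add, hp, hq, map_add]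
  | mul_X p i hp => rw [map_mul, map_mul, hp, aeval_X, aeval_X, map_mul]

omit [Fintype σ] [DecidableEq σ] in
private theorem emz_C' {B : Type} [CommRing B] {τ : Type} (X : σ → B)
    (g : MvPolynomial (σ ⊕ σ) ℤ) :
    aeval (Sum.elim (fun s => (C (X s) : MvPolynomial τ B)) (0 : σ → MvPolynomial τ B)) g =
      C (aeval (Sum.elim X (0 : σ → B)) g) := by
  rw [← emz_C]
  congr 2
  funext i
  rcases i with s | s
  · rfl
  · simp

/-- Proof. Let `Qt`, `Qf` be the polynomials of `taylor2` for `t`, `f`, `A g := aeval (Sum.elim (fun s => C (X s)) (fun s => C M * MvPolynomial.X s)) g`. Take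
`G1 = C a + ∑ s, C (aeval X (pderiv s t)) * X s + C M * ∑ s, ∑ s', A (Qt s s') * X s * X s'`,
`G2 = C c + ∑ s, C (b s) * X s + ∑ s, ∑ s', (A (Qf s s') - C lam * A (Qt s s')) * X s * X s'`.
`A g` is congruent to `C (aeval (Sum.elim X 0) g)` modulo `C M`, and `pderiv s (A g)` is in the ideal of `C M`. -/
theorem exists_G {B : Type} [CommRing B] (f t : MvPolynomial σ ℤ) (X : σ → B) (T lam M a : B)
    (b : σ → B) (c : B) (ha : M * a = aeval X t - T)
    (hb : ∀ s, M * b s = aeval X (pderiv s f) - lam * aeval X (pderiv s t))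
    (hc : M ^ 2 * c = aeval X f - lam * (aeval X t - T)) :
    ∃ G1 G2 : MvPolynomial σ B,
      C M * G1 = aeval (fun s => C (X s) + C M * MvPolynomial.X s) t - C T ∧
      C M ^ 2 * G2 = aeval (fun s => C (X s) + C M * MvPolynomial.X s) f -
        C lam * (aeval (fun s => C (X s) + C M * MvPolynomial.X s) t - C T) ∧
      (∀ s, pderiv s G1 - C (aeval X (pderiv s t)) ∈ Ideal.span {(C M : MvPolynomial σ B)}) ∧
      (∀ s, pderiv s G2 - C (b s) - ∑ s', C (aeval X (pderiv s (pderiv s' f)) -
        lam * aeval X (pderiv s (pderiv s' t))) * MvPolynomial.X s' ∈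
          Ideal.span {(C M : MvPolynomial σ B)}) ∧
      G1 - C a - ∑ s, C (aeval X (pderiv s t)) * MvPolynomial.X s ∈
        Ideal.span {(C M : MvPolynomial σ B)} ∧
      constantCoeff G1 = a ∧ constantCoeff G2 = c := by
  obtain ⟨Qt, ht1, ht2⟩ := emz_taylor t
  obtain ⟨Qf, hf1, hf2⟩ := emz_taylor f
  set J : Ideal (MvPolynomial σ B) := Ideal.span {(C M : MvPolynomial σ B)} with hJ
  have hMJ : (C M : MvPolynomial σ B) ∈ J := Ideal.subset_span rfl
  let x : σ → MvPolynomial σ B := fun s => C (X s)
  let u : σ → MvPolynomial σ B := fun s => C M * MvPolynomial.X s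
  have huJ : ∀ s, u s ∈ J := fun s => J.mul_mem_right _ hMJ
  let A : MvPolynomial (σ ⊕ σ) ℤ → MvPolynomial σ B := fun g => aeval (Sum.elim x u) g
  have hA1 : ∀ g, A g - C (aeval (Sum.elim X (0 : σ → B)) g) ∈ J := by
    intro g
    have h1 := emz_congr J x u huJ g
    have h2 : aeval (Sum.elim x (0 : σ → MvPolynomial σ B)) g = _ := emz_C' X g
    rw [h2] at h1
    exact h1
  have hA2 : ∀ s g, pderiv s (A g) ∈ J := by
    intro s g
    refine emz_der (pderiv s) J (Sum.elim x u) (fun i => ?_) g
    rcases i with r | r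
    · show pderiv s (C (X r)) ∈ J
      rw [pderiv_C]
      exact J.zero_mem
    · show pderiv s (C M * MvPolynomial.X r) ∈ J
      rw [pderiv_C_mul]
      exact J.mul_mem_right _ hMJ
  let q : σ → σ → MvPolynomial σ B := fun s s' => A (Qf s s') - C lam * A (Qt s s')
  have hq1 : ∀ s s', q s s' + q s' s - C (aeval X (pderiv s (pderiv s' f)) -
        lam * aeval X (pderiv s (pderiv s' t))) ∈ J := by
    intro s s'
    rw [← hf2, ← ht2]
    have h1 := J.add_mem (J.add_mem (hA1 (Qf s s')) (hA1 (Qf s' s)))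
      (J.mul_mem_left (- C lam) (J.add_mem (hA1 (Qt s s')) (hA1 (Qt s' s))))
    convert h1 using 1
    simp only [q, map_sub, map_add, map_mul]
    ring
  have hq2 : ∀ r s s', pderiv r (q s s') ∈ J := by
    intro r s s'
    show pderiv r (A (Qf s s') - C lam * A (Qt s s')) ∈ J
    rw [map_sub, pderiv_C_mul]
    exact J.sub_mem (hA2 _ _) (J.mul_mem_left _ (hA2 _ _))
  obtain ⟨W, hW⟩ : ∃ W : MvPolynomial σ B, W = ∑ s, ∑ s', A (Qt s s') * MvPolynomial.X s *
    MvPolynomial.X s' := ⟨_, rfl⟩
  obtain ⟨Z, hZ⟩ : ∃ Z : MvPolynomial σ B, Z = ∑ s, ∑ s', q s s' * MvPolynomial.X s *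
    MvPolynomial.X s' := ⟨_, rfl⟩
  have hlin : ∀ (r : σ) (d : σ → B), pderiv r (∑ s, C (d s) * MvPolynomial.X s) = C (d r) := by
    intro r d
    rw [map_sum, Finset.sum_eq_single r]
    · rw [pderiv_C_mul, pderiv_X_self, mul_one]
    · intro s _ hs
      rw [pderiv_C_mul, pderiv_X_of_ne hs, mul_zero]
    · intro h
      exact absurd (Finset.mem_univ r) h
  have e1 : ∀ g, aeval x g = C (aeval X g) := fun g => emz_C X g
  refine ⟨C a + ∑ s, C (aeval X (pderiv s t)) * MvPolynomial.X s + C M * W,
    C c + ∑ s, C (b s) * MvPolynomial.X s + Z, ?_, ?_, ?_, ?_, ?_, ?_, ?_⟩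
  · have h1 := ht1 (MvPolynomial σ B) x u
    have h2 : aeval (fun s => C (X s) + C M * MvPolynomial.X s) t =
        aeval (fun s => x s + u s) t := rfl
    have e2 : ∑ s, aeval x (pderiv s t) * u s = ∑ s, C (aeval X (pderiv s t)) * u s :=
      Finset.sum_congr rfl fun s _ => by rw [e1]
    rw [h2, h1, e1, e2, mul_add, mul_add, ← C_mul, ha, C_sub, Finset.mul_sum]
    have h3 : C M * (C M * W) = ∑ s, ∑ s', aeval (Sum.elim x u) (Qt s s') * u s * u s' := by
      rw [hW]
      simp only [Finset.mul_sum]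
      refine Finset.sum_congr rfl fun s _ => Finset.sum_congr rfl fun s' _ => ?_
      show _ = A (Qt s s') * (C M * MvPolynomial.X s) * (C M * MvPolynomial.X s')
      ring
    have h4 : ∑ s, C M * (C (aeval X (pderiv s t)) * MvPolynomial.X s) =
        ∑ s, C (aeval X (pderiv s t)) * u s := by
      refine Finset.sum_congr rfl fun s _ => ?_
      show _ = C (aeval X (pderiv s t)) * (C M * MvPolynomial.X s)
      ring
    rw [h3, h4]
    ring
  · have h1 := ht1 (MvPolynomial σ B) x u
    have h1' := hf1 (MvPolynomial σ B) x u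
    have h2 : aeval (fun s => C (X s) + C M * MvPolynomial.X s) t =
        aeval (fun s => x s + u s) t := rfl
    have h2' : aeval (fun s => C (X s) + C M * MvPolynomial.X s) f =
        aeval (fun s => x s + u s) f := rfl
    rw [h2, h2', h1, h1', e1, e1]
    simp only [e1]
    have h3 : C M ^ 2 * Z = ∑ s, ∑ s', aeval (Sum.elim x u) (Qf s s') * u s * u s' -
        C lam * ∑ s, ∑ s', aeval (Sum.elim x u) (Qt s s') * u s * u s' := by
      rw [hZ]
      simp only [Finset.mul_sum, ← Finset.sum_sub_distrib]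
      refine Finset.sum_congr rfl fun s _ => Finset.sum_congr rfl fun s' _ => ?_
      show C M ^ 2 * ((A (Qf s s') - C lam * A (Qt s s')) * MvPolynomial.X s *
        MvPolynomial.X s') = A (Qf s s') * (C M * MvPolynomial.X s) * (C M * MvPolynomial.X s') -
        C lam * (A (Qt s s') * (C M * MvPolynomial.X s) * (C M * MvPolynomial.X s'))
      ring
    have h4 : C M ^ 2 * ∑ s, C (b s) * MvPolynomial.X s =
        ∑ s, C (aeval X (pderiv s f)) * u s -
          C lam * ∑ s, C (aeval X (pderiv s t)) * u s := by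
      simp only [Finset.mul_sum, ← Finset.sum_sub_distrib]
      refine Finset.sum_congr rfl fun s _ => ?_
      show _ = C (aeval X (pderiv s f)) * (C M * MvPolynomial.X s) -
        C lam * (C (aeval X (pderiv s t)) * (C M * MvPolynomial.X s))
      have h5 : (C (M * b s) : MvPolynomial σ B) = _ := congrArg C (hb s)
      rw [C_mul, C_sub, C_mul] at h5
      linear_combination (C M * MvPolynomial.X s) * h5
    have h6 : (C (M ^ 2 * c) : MvPolynomial σ B) = _ := congrArg C hc
    rw [C_mul, C_sub, C_mul, C_sub, C_pow] at h6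
    rw [mul_add, mul_add, h3, h4, h6]
    ring
  · intro s
    rw [map_add, map_add, pderiv_C, hlin, pderiv_C_mul, zero_add, add_sub_cancel_left]
    exact J.mul_mem_right _ hMJ
  · intro r
    rw [map_add, map_add, pderiv_C, hlin, zero_add]
    have h1 : pderiv r Z = ∑ s, ∑ s', pderiv r (q s s') * MvPolynomial.X s * MvPolynomial.X s' +
        ∑ s', (q r s' + q s' r) * MvPolynomial.X s' := by
      rw [hZ, map_sum]
      simp only [map_sum]
      have h2 : ∀ s s', pderiv r (q s s' * MvPolynomial.X s * MvPolynomial.X s') =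
          pderiv r (q s s') * MvPolynomial.X s * MvPolynomial.X s' +
            ((if s = r then q s s' * MvPolynomial.X s' else 0) +
              if s' = r then q s s' * MvPolynomial.X s else 0) := by
        intro s s'
        rw [pderiv_mul, pderiv_mul, pderiv_X, pderiv_X, Pi.single_apply, Pi.single_apply]
        split_ifs <;> ring
      simp only [h2, Finset.sum_add_distrib]
      congr 1
      rw [Finset.sum_comm (f := fun s s' => if s = r then q s s' * MvPolynomial.X s' else 0)]
      simp only [Finset.sum_ite_eq', Finset.mem_univ, if_true, add_mul, Finset.sum_add_distrib]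
    rw [h1, add_sub_cancel_left, add_sub_assoc, ← Finset.sum_sub_distrib]
    refine J.add_mem (J.sum_mem fun s _ => J.sum_mem fun s' _ =>
      J.mul_mem_right _ (J.mul_mem_right _ (hq2 _ _ _))) (J.sum_mem fun s' _ => ?_)
    rw [← sub_mul]
    exact J.mul_mem_right _ (hq1 r s')
  · have h1 : C a + ∑ s, C (aeval X (pderiv s t)) * MvPolynomial.X s + C M * W - C a -
        ∑ s, C (aeval X (pderiv s t)) * MvPolynomial.X s = C M * W := by ring
    rw [h1]
    exact J.mul_mem_right _ hMJ
  · rw [hW]
    simp [map_sum]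
  · rw [hZ]
    simp [map_sum]

end Pool.Agent.EvM
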