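import Pool.Agent.EvM.EmGy

set_option autoImplicit false

/-! # Independence of the equations: the chart of a coordinate -/

namespace Pool.Agent.EvM

open MvPolynomial

variable {σ : Type} [Fintype σ] [DecidableEq σ]

private theorem pd_sq' {B : Type} [CommRing B] {τ : Type} (P : Ideal (MvPolynomial τ B)) (s : τ)
    {x : MvPolynomial τ B} (hx : x ∈ P ^ 2) : pderiv s x ∈ P := by
  rw [pow_two] at hx
  refine Submodule.mul_induction_on hx ?_ ?_
  · intro a ha b hb
    rw [Derivation.leibniz]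
    exact P.add_mem (Ideal.mul_mem_right _ _ ha) (Ideal.mul_mem_right _ _ hb)
  · intro a b ha hb
    rw [map_add]
    exact P.add_mem ha hb

private theorem pd_rY {B : Type} [CommRing B] {I : Type} (e : I → B) (i : I) (s : σ) :
    pderiv (Sum.inl s) (rY σ e i) = 0 := by
  unfold rY
  rw [map_sub, Derivation.leibniz, pderiv_C]
  rw [pderiv_X_of_ne (by simp), pderiv_X_of_ne (by simp)]
  simp

private theorem pd_rU {B : Type} [CommRing B] {I : Type} [DecidableEq I] (e : I → B) (i j : I) :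
    pderiv (Sum.inr (Sum.inr j)) (rY σ e i) =
      if i = j then - X (Sum.inr (Sum.inl ())) else 0 := by
  unfold rY
  rw [map_sub, Derivation.leibniz, pderiv_C]
  have h0 : pderiv (Sum.inr (Sum.inr j)) (X (Sum.inr (Sum.inl ())) :
      MvPolynomial (σ ⊕ (Unit ⊕ I)) B) = 0 := pderiv_X_of_ne (by simp)
  rw [h0]
  by_cases h : i = j
  · subst h
    rw [pderiv_X_self, if_pos rfl]
    simp
  · have h1 : pderiv (Sum.inr (Sum.inr j)) (X (Sum.inr (Sum.inr i)) :
      MvPolynomial (σ ⊕ (Unit ⊕ I)) B) = 0 := pderiv_X_of_ne (by simpa using h)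
    rw [h1, if_neg h]
    simp

/-- Proof. Apply `pderiv (inl s)` to the sum (a derivation maps `P ^ 2` to `P`; the relations `rY` do not contain `V s`): `α δ_sl + a0 C (c s) + a1 ∑ C (H s s') V s' ∈ P` for all `s`.
Multiply with `V s` and sum: `α V l + a0 (∑ c s V s) + a1 (∑ V s H s s' V s') ∈ P`, so `α ∈ P` (`h3`, `h4`, `V l - 1 ∈ P`). So `a0 C (c s) + a1 ∑ C (H s s') V s' ∈ P`. If `a1 ∉ P`:
multiply with `Pm u s` and sum over `s`: `V u ∈ P` for all `u`, so `1 ∈ P`. So `a1 ∈ P`, and `a0 ∈ P` by `inv3`. Now `∑ ρ i * rY σ e i ∈ P ^ 2`. If `Y ∉ P`: `pderiv (inr (inr i))`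
gives `ρ i * Y ∈ P`. If `Y ∈ P`: `U i Y ∈ P ^ 2`, so `∑ ρ i C (e i) ∈ P ^ 2` and `hind`. -/
theorem ind_y {B : Type} [CommRing B] {I : Type} [Fintype I] [DecidableEq I]
    (P : Ideal (MvPolynomial (σ ⊕ (Unit ⊕ I)) B)) [P.IsPrime] (c : σ → B)
    (H Pm : σ → σ → B) (qv r : σ → B)
    (inv1 : ∀ s s', ∑ u, Pm s u * H u s' + qv s * c s' = if s = s' then 1 else 0)
    (inv2 : ∀ s, ∑ u, Pm s u * c u = 0) (inv3 : ∑ s, r s * c s = 1) (l : σ) (e : I → B)
    (G1 G2 : MvPolynomial (σ ⊕ (Unit ⊕ I)) B) (hG1 : G1 ∈ P) (hG2 : G2 ∈ P)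
    (hl : X (Sum.inl l) - 1 ∈ P) (hU : ∀ i, X (Sum.inr (Sum.inr i)) ∈ P)
    (he : ∀ i, rY σ e i ∈ P)
    (h1 : ∀ s, pderiv (Sum.inl s) G1 - C (c s) ∈ P)
    (h2 : ∀ s, pderiv (Sum.inl s) G2 - ∑ s', C (H s s') * X (Sum.inl s') ∈ P)
    (h3 : ∑ s, C (c s) * X (Sum.inl s) ∈ P)
    (h4 : ∑ s, X (Sum.inl s) * ∑ s', C (H s s') * X (Sum.inl s') ∈ P)
    (hind : ∀ a : I → MvPolynomial (σ ⊕ (Unit ⊕ I)) B, ∑ i, a i * C (e i) ∈ P ^ 2 →
      ∀ i, a i ∈ P)
    (α a0 a1 : MvPolynomial (σ ⊕ (Unit ⊕ I)) B) (ρ : I → MvPolynomial (σ ⊕ (Unit ⊕ I)) B)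
    (ha : α * (X (Sum.inl l) - 1) + a0 * G1 + a1 * G2 + ∑ i, ρ i * rY σ e i ∈ P ^ 2) :
    α ∈ P ∧ a0 ∈ P ∧ a1 ∈ P ∧ ∀ i, ρ i ∈ P := by
  let q : MvPolynomial (σ ⊕ (Unit ⊕ I)) B →+* MvPolynomial (σ ⊕ (Unit ⊕ I)) B ⧸ P :=
    Ideal.Quotient.mk P
  have hq : ∀ x, q x = 0 ↔ x ∈ P := fun x => Ideal.Quotient.eq_zero_iff_mem
  have hq' : ∀ x, x ∈ P → q x = 0 := fun x hx => (hq x).2 hx
  have hl1 : q (X (Sum.inl l)) = 1 := by
    have h5 := hq' _ hl
    rw [map_sub, map_one, sub_eq_zero] at h5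
    exact h5
  have e1 : ∀ s, (if s = l then q α else 0) + q a0 * q (C (c s)) +
      q a1 * ∑ s', q (C (H s s')) * q (X (Sum.inl s')) = 0 := by
    intro s
    have h5 := hq' _ (pd_sq' P (Sum.inl s) ha)
    have h50 : pderiv (Sum.inl s) (α * (X (Sum.inl l) - 1) + a0 * G1 + a1 * G2 +
        ∑ i, ρ i * rY σ e i) = (α * pderiv (Sum.inl s) (X (Sum.inl l) - 1) +
          (X (Sum.inl l) - 1) * pderiv (Sum.inl s) α) +
        (a0 * pderiv (Sum.inl s) G1 + G1 * pderiv (Sum.inl s) a0) +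
        (a1 * pderiv (Sum.inl s) G2 + G2 * pderiv (Sum.inl s) a1) +
        ∑ i, pderiv (Sum.inl s) (ρ i * rY σ e i) := by
      rw [map_add, map_add, map_add, map_sum, Derivation.leibniz, Derivation.leibniz,
        Derivation.leibniz]
      simp only [smul_eq_mul]
    rw [h50] at h5
    simp only [map_add, map_mul, map_sum] at h5
    have h6 : q (pderiv (Sum.inl s) G1) = q (C (c s)) := by
      rw [← sub_eq_zero, ← map_sub]
      exact hq' _ (h1 s)
    have h7 : q (pderiv (Sum.inl s) G2) = ∑ s', q (C (H s s')) * q (X (Sum.inl s')) := by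
      have h8 := hq' _ (h2 s)
      rw [map_sub, sub_eq_zero, map_sum] at h8
      rw [h8]
      exact Finset.sum_congr rfl fun s' _ => map_mul _ _ _
    have h8 : ∀ i, q (pderiv (Sum.inl s) (ρ i * rY σ e i)) = 0 := by
      intro i
      rw [Derivation.leibniz, pd_rY, smul_zero, zero_add, smul_eq_mul, map_mul, hq' _ (he i),
        zero_mul]
    have h9 : q (pderiv (Sum.inl s) (X (Sum.inl l) - 1)) = if s = l then 1 else 0 := by
      rw [map_sub, ← C_1, pderiv_C, sub_zero]
      by_cases h : s = l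
      · subst h
        rw [pderiv_X_self, if_pos rfl, map_one]
      · have h' : pderiv (Sum.inl s) (X (Sum.inl l) : MvPolynomial (σ ⊕ (Unit ⊕ I)) B) = 0 :=
          pderiv_X_of_ne (by simpa using fun h' => h h'.symm)
        rw [h', if_neg h, map_zero]
    rw [Finset.sum_eq_zero (fun i _ => h8 i), h6, h7, hq' _ hG1, hq' _ hG2, h9, hq' _ hl, zero_mul,
      zero_mul, zero_mul, add_zero, add_zero, add_zero, add_zero, mul_ite, mul_one, mul_zero] at h5
    exact h5
  have e3 : ∑ s, q (C (c s)) * q (X (Sum.inl s)) = 0 := by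
    have h7 := hq' _ h3
    rw [map_sum] at h7
    rw [← h7]
    exact Finset.sum_congr rfl fun s' _ => (map_mul _ _ _).symm
  have e3' : ∑ s, q (X (Sum.inl s)) * ∑ s', q (C (H s s')) * q (X (Sum.inl s')) = 0 := by
    have h7 := hq' _ h4
    rw [map_sum] at h7
    rw [← h7]
    refine Finset.sum_congr rfl fun s' _ => ?_
    simp only [map_mul, map_sum]
  have hα : q α = 0 := by
    have h8 : ∑ s, q (X (Sum.inl s)) * ((if s = l then q α else 0) + q a0 * q (C (c s)) +
      q a1 * ∑ s', q (C (H s s')) * q (X (Sum.inl s'))) = 0 :=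
      Finset.sum_eq_zero fun s _ => by rw [e1 s, mul_zero]
    have h9 : ∑ s, q (X (Sum.inl s)) * ((if s = l then q α else 0) + q a0 * q (C (c s)) +
      q a1 * ∑ s', q (C (H s s')) * q (X (Sum.inl s'))) = q (X (Sum.inl l)) * q α +
        q a0 * (∑ s, q (C (c s)) * q (X (Sum.inl s))) +
        q a1 * ∑ s, q (X (Sum.inl s)) * ∑ s', q (C (H s s')) * q (X (Sum.inl s')) := by
      simp only [mul_add, Finset.sum_add_distrib]
      congr 1
      · congr 1
        · rw [Finset.sum_eq_single l]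
          · rw [if_pos rfl]
          · intro b _ hb
            rw [if_neg hb, mul_zero]
          · intro h
            exact absurd (Finset.mem_univ l) h
        · rw [Finset.mul_sum]
          exact Finset.sum_congr rfl fun s _ => by ring
      · rw [Finset.mul_sum]
        exact Finset.sum_congr rfl fun s _ => by ring
    rw [h9, e3, e3', hl1, one_mul, mul_zero, mul_zero, add_zero, add_zero] at h8
    exact h8
  have e1' : ∀ s, q a0 * q (C (c s)) +
      q a1 * ∑ s', q (C (H s s')) * q (X (Sum.inl s')) = 0 := by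
    intro s
    have h5 := e1 s
    rw [hα, ite_self, zero_add] at h5
    exact h5
  have e4 : ∀ u, q a1 * q (X (Sum.inl u)) = 0 := by
    intro u
    have h8 : ∑ s, q (C (Pm u s)) * (q a0 * q (C (c s)) +
        q a1 * ∑ s', q (C (H s s')) * q (X (Sum.inl s'))) = 0 :=
      Finset.sum_eq_zero fun s _ => by rw [e1' s, mul_zero]
    have h9 : ∑ s, q (C (Pm u s)) * (q a0 * q (C (c s)) +
        q a1 * ∑ s', q (C (H s s')) * q (X (Sum.inl s'))) =
        q a0 * q (C (∑ s, Pm u s * c s)) +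
          q a1 * ∑ s', q (C (∑ s, Pm u s * H s s')) * q (X (Sum.inl s')) := by
      simp only [mul_add, Finset.sum_add_distrib]
      congr 1
      · rw [map_sum, map_sum, Finset.mul_sum]
        refine Finset.sum_congr rfl fun s _ => ?_
        rw [C_mul, map_mul]
        ring
      · simp only [map_sum, Finset.mul_sum, Finset.sum_mul]
        rw [Finset.sum_comm]
        refine Finset.sum_congr rfl fun s' _ => Finset.sum_congr rfl fun s _ => ?_
        rw [C_mul, map_mul]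
        ring
    rw [h9, inv2 u, C_0, map_zero, mul_zero, zero_add] at h8
    have h10 : ∑ s', q (C (∑ s, Pm u s * H s s')) * q (X (Sum.inl s')) = q (X (Sum.inl u)) := by
      have h11 : ∀ s', ∑ s, Pm u s * H s s' = (if u = s' then 1 else 0) - qv u * c s' :=
        fun s' => by rw [← inv1 u s']; ring
      simp only [h11, map_sub, map_mul, sub_mul, Finset.sum_sub_distrib]
      have h12 : ∑ s', q (C (qv u)) * q (C (c s')) * q (X (Sum.inl s')) = 0 := by
        simp only [mul_assoc]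
        rw [← Finset.mul_sum, e3, mul_zero]
      rw [h12, sub_zero, Finset.sum_eq_single u]
      · rw [if_pos rfl, C_1, map_one, one_mul]
      · intro b _ hb
        rw [if_neg (Ne.symm hb), C_0, map_zero, zero_mul]
      · intro h
        exact absurd (Finset.mem_univ u) h
    rw [h10] at h8
    exact h8
  have ha1 : q a1 = 0 := by
    have h5 := e4 l
    rw [hl1, mul_one] at h5
    exact h5
  have ha0 : q a0 = 0 := by
    have h8 : q a0 = q a0 * q (C (∑ s, r s * c s)) := by rw [inv3, C_1, map_one, mul_one]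
    rw [h8, map_sum, map_sum, Finset.mul_sum]
    refine Finset.sum_eq_zero fun s _ => ?_
    have h9 := e1' s
    rw [ha1, zero_mul, add_zero] at h9
    rw [C_mul, map_mul, mul_left_comm, h9, mul_zero]
  refine ⟨(hq _).1 hα, (hq _).1 ha0, (hq _).1 ha1, ?_⟩
  have hmul : ∀ x y : MvPolynomial (σ ⊕ (Unit ⊕ I)) B, x ∈ P → y ∈ P → x * y ∈ P ^ 2 := by
    intro x y hx hy
    rw [pow_two]
    exact Ideal.mul_mem_mul hx hy
  have hr : ∑ i, ρ i * rY σ e i ∈ P ^ 2 := by
    have h5 : ∑ i, ρ i * rY σ e i = (α * (X (Sum.inl l) - 1) + a0 * G1 + a1 * G2 +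
        ∑ i, ρ i * rY σ e i) - (α * (X (Sum.inl l) - 1) + a0 * G1 + a1 * G2) := by ring
    rw [h5]
    refine Ideal.sub_mem _ ha (Ideal.add_mem _ (Ideal.add_mem _ ?_ ?_) ?_)
    · exact hmul _ _ ((hq _).1 hα) hl
    · exact hmul _ _ ((hq _).1 ha0) hG1
    · exact hmul _ _ ((hq _).1 ha1) hG2
  by_cases hY : X (Sum.inr (Sum.inl ())) ∈ P
  · apply hind
    have h5 : ∑ i, ρ i * C (e i) = ∑ i, ρ i * rY σ e i +
        ∑ i, ρ i * (X (Sum.inr (Sum.inr i)) * X (Sum.inr (Sum.inl ()))) := by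
      rw [← Finset.sum_add_distrib]
      refine Finset.sum_congr rfl fun i _ => ?_
      unfold rY
      ring
    rw [h5]
    refine Ideal.add_mem _ hr (Ideal.sum_mem _ fun i _ => Ideal.mul_mem_left _ _ ?_)
    exact hmul _ _ (hU i) hY
  · intro i
    have h5 := pd_sq' P (Sum.inr (Sum.inr i)) hr
    rw [map_sum] at h5
    have h6 : ∑ j, pderiv (Sum.inr (Sum.inr i)) (ρ j * rY σ e j) =
        ρ i * (- X (Sum.inr (Sum.inl ()))) +
          ∑ j, rY σ e j * pderiv (Sum.inr (Sum.inr i)) (ρ j) := by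
      simp only [Derivation.leibniz, smul_eq_mul, Finset.sum_add_distrib, pd_rU]
      congr 1
      rw [Finset.sum_eq_single i]
      · rw [if_pos rfl]
      · intro b _ hb
        rw [if_neg hb, mul_zero]
      · intro h
        exact absurd (Finset.mem_univ i) h
    rw [h6] at h5
    have h7 : ∑ j, rY σ e j * pderiv (Sum.inr (Sum.inr i)) (ρ j) ∈ P :=
      Ideal.sum_mem _ fun j _ => Ideal.mul_mem_right _ _ (he j)
    have h8 : ρ i * (- X (Sum.inr (Sum.inl ()))) ∈ P := by
      have := Ideal.sub_mem _ h5 h7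
      rwa [add_sub_cancel_right] at this
    rw [mul_neg, neg_mem_iff] at h8
    exact (Ideal.IsPrime.mem_or_mem inferInstance h8).resolve_right hY

end Pool.Agent.EvM
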