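import Mathlib

set_option autoImplicit false

/-! # Independence of the equations: the chart of the exceptional parameter -/

namespace Pool.Agent.EvM

open MvPolynomial

variable {σ : Type} [Fintype σ] [DecidableEq σ]

private theorem pd_sq {B : Type} [CommRing B] {τ : Type} (P : Ideal (MvPolynomial τ B)) (s : τ)
    {x : MvPolynomial τ B} (hx : x ∈ P ^ 2) : pderiv s x ∈ P := by
  rw [pow_two] at hx
  refine Submodule.mul_induction_on hx ?_ ?_
  · intro a ha b hb
    rw [Derivation.leibniz]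
    exact P.add_mem (Ideal.mul_mem_right _ _ ha) (Ideal.mul_mem_right _ _ hb)
  · intro a b ha hb
    rw [map_add]
    exact P.add_mem ha hb

/-- Proof. Apply `pderiv s` to `a 0 G1 + a 1 G2 ∈ P ^ 2` (a derivation maps `P ^ 2` to `P`): `a 0 C (c s) + a 1 ∑ C (H s s') X s' ∈ P` for all `s`. If `a 1 ∈ P`: `a 0 ∈ P` by
`inv3`. If `a 1 ∉ P`: multiply with `Pm u s` and sum over `s`: by `inv1`, `inv2` `a 1 (X u - C (qv u) ∑ C (c s') X s') ∈ P`, so `X u ∈ P` for all `u`; then `a 0 ∈ P` by `inv3`. -/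
theorem ind_z {B : Type} [CommRing B] (P : Ideal (MvPolynomial σ B)) [P.IsPrime] (c : σ → B)
    (H Pm : σ → σ → B) (qv r : σ → B)
    (inv1 : ∀ s s', ∑ u, Pm s u * H u s' + qv s * c s' = if s = s' then 1 else 0)
    (inv2 : ∀ s, ∑ u, Pm s u * c u = 0) (inv3 : ∑ s, r s * c s = 1)
    (G1 G2 : MvPolynomial σ B) (hG1 : G1 ∈ P) (hG2 : G2 ∈ P)
    (h1 : ∀ s, pderiv s G1 - C (c s) ∈ P)
    (h2 : ∀ s, pderiv s G2 - ∑ s', C (H s s') * X s' ∈ P)
    (h3 : ∑ s, C (c s) * X s ∈ P) (a0 a1 : MvPolynomial σ B) (ha : a0 * G1 + a1 * G2 ∈ P ^ 2) :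
    a0 ∈ P ∧ (a1 ∈ P ∨ ∀ s, X s ∈ P) := by
  let q : MvPolynomial σ B →+* MvPolynomial σ B ⧸ P := Ideal.Quotient.mk P
  have hq : ∀ x, q x = 0 ↔ x ∈ P := fun x => Ideal.Quotient.eq_zero_iff_mem
  have hq' : ∀ x, x ∈ P → q x = 0 := fun x hx => (hq x).2 hx
  have e1 : ∀ s, q a0 * q (C (c s)) + q a1 * ∑ s', q (C (H s s')) * q (X s') = 0 := by
    intro s
    have h4 := hq' _ (pd_sq P s ha)
    rw [map_add, Derivation.leibniz, Derivation.leibniz] at h4
    simp only [smul_eq_mul, map_add, map_mul] at h4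
    rw [hq' _ hG1, hq' _ hG2, zero_mul, zero_mul, add_zero, add_zero] at h4
    have h5 : q (pderiv s G1) = q (C (c s)) := by
      rw [← sub_eq_zero, ← map_sub]
      exact hq' _ (h1 s)
    have h6 : q (pderiv s G2) = ∑ s', q (C (H s s')) * q (X s') := by
      have h7 := hq' _ (h2 s)
      rw [map_sub, sub_eq_zero, map_sum] at h7
      rw [h7]
      exact Finset.sum_congr rfl fun s' _ => map_mul _ _ _
    rw [h5, h6] at h4
    exact h4
  have e3 : ∑ s, q (C (c s)) * q (X s) = 0 := by
    have h7 := hq' _ h3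
    rw [map_sum] at h7
    rw [← h7]
    exact Finset.sum_congr rfl fun s' _ => (map_mul _ _ _).symm
  have e4 : ∀ u, q a1 * q (X u) = 0 := by
    intro u
    have h8 : ∑ s, q (C (Pm u s)) * (q a0 * q (C (c s)) +
        q a1 * ∑ s', q (C (H s s')) * q (X s')) = 0 :=
      Finset.sum_eq_zero fun s _ => by rw [e1 s, mul_zero]
    have h9 : ∑ s, q (C (Pm u s)) * (q a0 * q (C (c s)) +
        q a1 * ∑ s', q (C (H s s')) * q (X s')) =
        q a0 * q (C (∑ s, Pm u s * c s)) +
          q a1 * ∑ s', q (C (∑ s, Pm u s * H s s')) * q (X s') := by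
      simp only [mul_add, Finset.sum_add_distrib]
      congr 1
      · rw [map_sum, map_sum, Finset.mul_sum]
        refine Finset.sum_congr rfl fun s _ => ?_
        rw [C_mul, map_mul]
        ring
      · simp only [map_sum, Finset.mul_sum, Finset.sum_mul]
        rw [Finset.sum_comm]
        refine Finset.sum_congr rfl fun s' _ => Finset.sum_congr rfl fun s _ => ?_
        rw [C_mul, map_mul]
        ring
    rw [h9, inv2 u, C_0, map_zero, mul_zero, zero_add] at h8
    have h10 : ∑ s', q (C (∑ s, Pm u s * H s s')) * q (X s') = q (X u) := by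
      have h11 : ∀ s', ∑ s, Pm u s * H s s' = (if u = s' then 1 else 0) - qv u * c s' :=
        fun s' => by rw [← inv1 u s']; ring
      simp only [h11, map_sub, map_mul, sub_mul, Finset.sum_sub_distrib]
      have h12 : ∑ s', q (C (qv u)) * q (C (c s')) * q (X s') = 0 := by
        simp only [mul_assoc]
        rw [← Finset.mul_sum, e3, mul_zero]
      rw [h12, sub_zero, Finset.sum_eq_single u]
      · rw [if_pos rfl, C_1, map_one, one_mul]
      · intro b _ hb
        rw [if_neg (Ne.symm hb), C_0, map_zero, zero_mul]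
      · intro h
        exact absurd (Finset.mem_univ u) h
    rw [h10] at h8
    exact h8
  have e5 : ∀ s, q a0 * q (C (c s)) = 0 := by
    intro s
    have h8 := e1 s
    have h9 : q a1 * ∑ s', q (C (H s s')) * q (X s') = 0 := by
      rw [Finset.mul_sum]
      refine Finset.sum_eq_zero fun s' _ => ?_
      rw [mul_left_comm, e4 s', mul_zero]
    rw [h9, add_zero] at h8
    exact h8
  refine ⟨?_, ?_⟩
  · rw [← hq]
    have h8 : q a0 = q a0 * q (C (∑ s, r s * c s)) := by rw [inv3, C_1, map_one, mul_one]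
    rw [h8, map_sum, map_sum, Finset.mul_sum]
    refine Finset.sum_eq_zero fun s _ => ?_
    rw [C_mul, map_mul, mul_left_comm, e5 s, mul_zero]
  · by_cases h8 : a1 ∈ P
    · exact Or.inl h8
    · refine Or.inr fun s => ?_
      have h9 := e4 s
      rw [← map_mul, hq] at h9
      exact (Ideal.IsPrime.mem_or_mem inferInstance h9).resolve_left h8

end Pool.Agent.EvM
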