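import Mathlib

set_option autoImplicit false

/-! # The field of rational functions -/

namespace Pool.Agent.EvM

/-- `K0` is the field of fractions of `ℤ[T]`, `D` the derivation `d / d T`. -/
structure TD {K0 : Type} [Field K0] (T : K0) (D : Derivation ℤ K0 K0) : Prop where
  inj : ∀ g : Polynomial ℤ, Polynomial.aeval T g = 0 → g = 0
  frac : ∀ x : K0, ∃ u v : Polynomial ℤ, Polynomial.aeval T v ≠ 0 ∧
    x * Polynomial.aeval T v = Polynomial.aeval T u
  DT : D T = 1

private theorem K0_aux (F : Type) [Field F] [Algebra (Polynomial ℤ) F]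
    [IsFractionRing (Polynomial ℤ) F] : ∃ (T : F) (D : Derivation ℤ F F), TD T D ∧
    T = algebraMap (Polynomial ℤ) F Polynomial.X := by
  classical
  have hsurj : ∀ x : F, ∃ u v : Polynomial ℤ, v ≠ 0 ∧
      x * algebraMap (Polynomial ℤ) F v = algebraMap (Polynomial ℤ) F u := by
    intro x
    obtain ⟨⟨u, v⟩, h⟩ := IsLocalization.surj (nonZeroDivisors (Polynomial ℤ)) x
    exact ⟨u, v, nonZeroDivisors.ne_zero v.2, h⟩
  have hinj : Function.Injective (algebraMap (Polynomial ℤ) F) :=
    IsFractionRing.injective _ _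
  have haev : ∀ g : Polynomial ℤ, Polynomial.aeval
      (algebraMap (Polynomial ℤ) F Polynomial.X) g = algebraMap (Polynomial ℤ) F g := by
    intro g
    rw [Polynomial.aeval_algebraMap_apply, Polynomial.aeval_X_left_apply]
  let ψ : Polynomial ℤ →+* TrivSqZeroExt F F :=
    { toFun := fun g => (TrivSqZeroExt.inl (algebraMap _ _ g) +
        TrivSqZeroExt.inr (algebraMap _ _ (Polynomial.derivative g)))
      map_one' := by
        rw [Polynomial.derivative_one, map_one, map_zero, TrivSqZeroExt.inr_zero, add_zero,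
          TrivSqZeroExt.inl_one]
      map_zero' := by
        rw [Polynomial.derivative_zero, map_zero, TrivSqZeroExt.inr_zero, add_zero,
          TrivSqZeroExt.inl_zero]
      map_add' := by
        intro a b
        rw [Polynomial.derivative_add, map_add, map_add, TrivSqZeroExt.inl_add,
          TrivSqZeroExt.inr_add]
        abel
      map_mul' := by
        intro a b
        apply TrivSqZeroExt.ext
        · simp only [TrivSqZeroExt.fst_add, TrivSqZeroExt.fst_mul, TrivSqZeroExt.fst_inl,
            TrivSqZeroExt.fst_inr, add_zero, map_mul]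
        · simp only [TrivSqZeroExt.snd_add, TrivSqZeroExt.snd_mul, TrivSqZeroExt.snd_inl,
            TrivSqZeroExt.snd_inr, TrivSqZeroExt.fst_add, TrivSqZeroExt.fst_inl,
            TrivSqZeroExt.fst_inr, add_zero, zero_add, Polynomial.derivative_mul, map_add, map_mul,
            MulOpposite.smul_eq_mul_unop, MulOpposite.unop_op, smul_eq_mul]
          ring }
  have hψf : ∀ g, (ψ g).fst = algebraMap (Polynomial ℤ) F g := by
    intro g
    change (TrivSqZeroExt.inl (algebraMap (Polynomial ℤ) F g) +
        TrivSqZeroExt.inr (algebraMap (Polynomial ℤ) F (Polynomial.derivative g))).fst = _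
    rw [TrivSqZeroExt.fst_add, TrivSqZeroExt.fst_inl, TrivSqZeroExt.fst_inr, add_zero]
  have hψs : ∀ g, (ψ g).snd = algebraMap (Polynomial ℤ) F (Polynomial.derivative g) := by
    intro g
    change (TrivSqZeroExt.inl (algebraMap (Polynomial ℤ) F g) +
        TrivSqZeroExt.inr (algebraMap (Polynomial ℤ) F (Polynomial.derivative g))).snd = _
    rw [TrivSqZeroExt.snd_add, TrivSqZeroExt.snd_inl, TrivSqZeroExt.snd_inr, zero_add]
  have hψu : ∀ y : nonZeroDivisors (Polynomial ℤ), IsUnit (ψ y) := by
    intro y
    rw [TrivSqZeroExt.isUnit_iff_isUnit_fst, hψf]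
    exact IsLocalization.map_units _ y
  let L : F →+* TrivSqZeroExt F F :=
    IsLocalization.lift (M := nonZeroDivisors (Polynomial ℤ)) hψu
  have hL : ∀ g, L (algebraMap (Polynomial ℤ) F g) = ψ g :=
    fun g => IsLocalization.lift_eq hψu g
  have hLf : ∀ x, (L x).fst = x := by
    intro x
    obtain ⟨u, v, hv, h⟩ := hsurj x
    have h1 := congrArg (fun z => (L z).fst) h
    simp only [map_mul, TrivSqZeroExt.fst_mul, hL, hψf] at h1
    have hv' : algebraMap (Polynomial ℤ) F v ≠ 0 := by
      intro h0
      exact hv (hinj (by rw [h0, map_zero]))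
    exact mul_right_cancel₀ hv' (h1.trans h.symm)
  let D : Derivation ℤ F F :=
    Derivation.mk' (AddMonoidHom.toIntLinearMap
      { toFun := fun x => (L x).snd
        map_zero' := by rw [map_zero, TrivSqZeroExt.snd_zero]
        map_add' := fun x y => by rw [map_add, TrivSqZeroExt.snd_add] }) (by
      intro a b
      change (L (a * b)).snd = a • (L b).snd + b • (L a).snd
      rw [map_mul, TrivSqZeroExt.snd_mul, hLf, hLf, MulOpposite.smul_eq_mul_unop,
        MulOpposite.unop_op, smul_eq_mul, smul_eq_mul]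
      ring)
  have hD : ∀ x, D x = (L x).snd := fun _ => rfl
  refine ⟨algebraMap _ _ Polynomial.X, D, ⟨?_, ?_, ?_⟩, rfl⟩
  · intro g hg
    rw [haev] at hg
    exact hinj (by rw [hg, map_zero])
  · intro x
    obtain ⟨u, v, hv, h⟩ := hsurj x
    refine ⟨u, v, ?_, ?_⟩
    · rw [haev]
      intro h0
      exact hv (hinj (by rw [h0, map_zero]))
    · rw [haev, haev, h]
  · rw [hD, hL, hψs, Polynomial.derivative_X, map_one]

/-- Proof. `K0 = FractionRing (Polynomial ℤ)`. `D`: the homomorphism `ℤ[T] → K0[ε]` (`TrivSqZeroExt K0 K0` or `DualNumber K0`), `T ↦ T + ε`, maps nonzero polynomials to units, so it extends to `K0`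
(`IsLocalization.lift`); its first component is the identity, its second component is `D`. `j`: `IsFractionRing.lift` of `aeval τ`. -/
theorem exists_K0 : ∃ (K0 : Type) (_ : Field K0) (T : K0) (D : Derivation ℤ K0 K0), TD T D ∧
    ∀ (K : Type) [Field K] (τ : K), (∀ g : Polynomial ℤ, Polynomial.aeval τ g = 0 → g = 0) →
      ∃ j : K0 →+* K, j T = τ := by
  obtain ⟨T, D, h, hT⟩ := K0_aux (FractionRing (Polynomial ℤ))
  refine ⟨FractionRing (Polynomial ℤ), inferInstance, T, D, h, ?_⟩
  intro K _ τ hτ
  have hg : Function.Injective (Polynomial.aeval τ : Polynomial ℤ →ₐ[ℤ] K).toRingHom := by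
    rw [injective_iff_map_eq_zero]
    exact hτ
  refine ⟨IsFractionRing.lift hg, ?_⟩
  rw [hT, IsFractionRing.lift_algebraMap]
  exact Polynomial.aeval_X τ

end Pool.Agent.EvM
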