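import Pool.Agent.EvM.EmDefs

set_option autoImplicit false

/-! # The local ring of the function field given by `B` and `M` -/

namespace Pool.Agent.EvM

open MvPolynomial Pool.Agent.NT9

variable {σ : Type} [Fintype σ] [DecidableEq σ] {K0 K : Type} [Field K0] [Field K]
  {B : Subring K0} {θ : MvPolynomial σ ℤ →+* K} {j : K0 →+* K} {X : σ → K0} {M : K0}
  {O O' : Subring K}

private theorem sgu_C (W : σ → K) (a : B) : piW j B W (C a) = j a := by
  rw [piW, eval₂Hom_C]
  rfl

private theorem sgu_X (W : σ → K) (s : σ) : piW j B W (MvPolynomial.X s) = W s := by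
  rw [piW, eval₂Hom_X']

private theorem sgu_mem (h : Sg θ j X B M O) (v : MvPolynomial σ B) :
    piW j B (Wc θ j X M) v ∈ O := by
  induction v using MvPolynomial.induction_on with
  | C a =>
    rw [sgu_C]
    exact h.hB a a.2
  | add p q hp hq =>
    rw [map_add]
    exact O.add_mem hp hq
  | mul_X p s hp =>
    rw [map_mul, sgu_X]
    exact O.mul_mem hp (mx_le (h.hW s))

private theorem sgu_sub [IsLocalRing O] (h : Sg θ j X B M O) (v : MvPolynomial σ B) :
    piW j B (Wc θ j X M) v - j ((constantCoeff v : B) : K0) ∈ mx O := by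
  induction v using MvPolynomial.induction_on with
  | C a =>
    rw [sgu_C, constantCoeff_C, sub_self]
    exact zero_mem_mx
  | add p q hp hq =>
    rw [map_add, map_add]
    have h1 := mx_add hp hq
    have h2 : ((constantCoeff p + constantCoeff q : B) : K0) =
      ((constantCoeff p : B) : K0) + ((constantCoeff q : B) : K0) := rfl
    rw [h2, map_add]
    have h3 : piW j B (Wc θ j X M) p + piW j B (Wc θ j X M) q -
        (j ((constantCoeff p : B) : K0) + j ((constantCoeff q : B) : K0)) =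
        piW j B (Wc θ j X M) p - j ((constantCoeff p : B) : K0) +
        (piW j B (Wc θ j X M) q - j ((constantCoeff q : B) : K0)) := by ring
    rw [h3]
    exact h1
  | mul_X p s hp =>
    rw [map_mul, map_mul, constantCoeff_X, mul_zero, sgu_X]
    have h2 : ((0 : B) : K0) = 0 := rfl
    rw [h2, map_zero, sub_zero]
    exact mx_mul (sgu_mem h p) (h.hW s)

/-- `j b` is in the maximal ideal iff `b` is. -/
private theorem sgu_j [IsLocalRing O] (h : Sg θ j X B M O) {b : K0} (hb : b ∈ B) :
    j b ∈ mx O ↔ b ∈ mx B := by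
  constructor
  · intro h1
    by_contra h2
    obtain ⟨h3, h4⟩ := (notMem_mx_iff hb).1 h2
    refine (notMem_mx_iff (h.hB b hb)).2 ⟨?_, ?_⟩ h1
    · exact (map_ne_zero j).2 h3
    · rw [← map_inv₀]
      exact h.hB _ h4
  · exact h.hm b

/-- `π v` is a unit of `O` iff the constant coefficient of `v` is not in `mx B`. -/
theorem sg_unit [IsLocalRing O] (h : Sg θ j X B M O) (v : MvPolynomial σ B) :
    (piW j B (Wc θ j X M) v ≠ 0 ∧ (piW j B (Wc θ j X M) v)⁻¹ ∈ O) ↔
      ((constantCoeff v : B) : K0) ∉ mx B := by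
  rw [← notMem_mx_iff (sgu_mem h v), ← sgu_j h (constantCoeff v : B).2, not_iff_not]
  have h1 := sgu_sub h v
  constructor
  · intro h2
    have h3 := mx_sub h2 h1
    rwa [sub_sub_cancel] at h3
  · intro h2
    have h3 := mx_add h1 h2
    rwa [sub_add_cancel] at h3

private theorem sgu_le [IsLocalRing O] [IsLocalRing O'] (h : Sg θ j X B M O)
    (h' : Sg θ j X B M O') : O ≤ O' := by
  intro x hx
  obtain ⟨u, v, h1, h2, h3⟩ := h.fr x hx
  obtain ⟨h4, h5⟩ := (sg_unit h' v).2 ((sg_unit h v).1 ⟨h1, h2⟩)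
  exact mem_O_of_fr (sgu_mem h' u) h4 h5 h3

theorem sg_uniq [IsLocalRing O] [IsLocalRing O'] (h : Sg θ j X B M O) (h' : Sg θ j X B M O') :
    O = O' := le_antisymm (sgu_le h h') (sgu_le h' h)

/-- `x = π u / π v` is congruent to `j (u (0) / v (0))`. -/
theorem sg_finres [IsLocalRing O] [IsLocalRing B] (h : Sg θ j X B M O) (hf : FinRes B) :
    FinRes O := by
  classical
  obtain ⟨S, hS⟩ := hf
  refine ⟨S.image j, ?_⟩
  intro x hx
  obtain ⟨u, v, h1, h2, h3⟩ := h.fr x hx
  have hv := (sg_unit h v).1 ⟨h1, h2⟩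
  obtain ⟨hv0, hv1⟩ := (notMem_mx_iff (constantCoeff v : B).2).1 hv
  have hbB : ((constantCoeff u : B) : K0) * ((constantCoeff v : B) : K0)⁻¹ ∈ B :=
    B.mul_mem (constantCoeff u : B).2 hv1
  set b := ((constantCoeff u : B) : K0) * ((constantCoeff v : B) : K0)⁻¹ with hb
  obtain ⟨s, hs, hsB, hbs⟩ := hS b hbB
  refine ⟨j s, Finset.mem_image_of_mem _ hs, h.hB s hsB, ?_⟩
  have h4 : (x - j b) * piW j B (Wc θ j X M) v ∈ mx O := by
    have h5 : (x - j b) * piW j B (Wc θ j X M) v =
        (piW j B (Wc θ j X M) u - j ((constantCoeff u : B) : K0)) -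
        j b * (piW j B (Wc θ j X M) v - j ((constantCoeff v : B) : K0)) := by
      have h6 : j b * j ((constantCoeff v : B) : K0) = j ((constantCoeff u : B) : K0) := by
        rw [← map_mul, hb, mul_assoc, inv_mul_cancel₀ hv0, mul_one]
      rw [sub_mul, h3, mul_sub, h6]
      ring
    rw [h5]
    exact mx_sub (sgu_sub h u) (mx_mul (h.hB b hbB) (sgu_sub h v))
  have h7 : x - j b ∈ mx O := by
    have h8 := mx_mul_right h4 h2
    rwa [mul_assoc, mul_inv_cancel₀ h1, mul_one] at h8
  have h9 : x - j s = (x - j b) + j (b - s) := by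
    rw [map_sub]
    ring
  rw [h9]
  exact mx_add h7 (h.hm _ hbs)

section ideals

variable {R : Type} [CommRing R]

/-- the power of the ideal `(S, T)` -/
private def sguL (S T : R) (n : ℕ) : Ideal R := Ideal.span {z | ∃ a, a ≤ n ∧ z = S ^ a * T ^ (n - a)}

private theorem sguL_mul (S T : R) (n : ℕ) :
    sguL S T n * Ideal.span {S, T} ≤ sguL S T (n + 1) := by
  rw [sguL, Ideal.span_mul_span', Ideal.span_le]
  rintro _ ⟨z, ⟨a, ha, rfl⟩, y, hy, rfl⟩
  rcases hy with rfl | hy
  · refine Ideal.subset_span ⟨a + 1, by omega, ?_⟩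
    show y ^ a * T ^ (n - a) * y = _
    rw [Nat.add_sub_add_right, pow_succ]
    ring
  · rw [Set.mem_singleton_iff] at hy
    subst hy
    refine Ideal.subset_span ⟨a, by omega, ?_⟩
    show S ^ a * y ^ (n - a) * y = _
    rw [Nat.succ_sub ha, pow_succ]
    ring

private theorem sguL_pow (I : Ideal R) (S T : R) (n : ℕ) :
    (I ⊔ Ideal.span {S, T}) ^ n ≤ I ⊔ sguL S T n := by
  induction n with
  | zero =>
    have h1 : (1 : R) ∈ sguL S T 0 := Ideal.subset_span ⟨0, le_rfl, by simp⟩
    have h2 : sguL S T 0 = ⊤ := (Ideal.eq_top_iff_one _).2 h1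
    rw [h2, sup_top_eq]
    exact le_top
  | succ n ih =>
    rw [pow_succ]
    refine (Ideal.mul_mono_left ih).trans ?_
    rw [Ideal.mul_le]
    intro x hx y hy
    obtain ⟨a, ha, b, hb, rfl⟩ := Submodule.mem_sup.1 hx
    obtain ⟨c, hc, d, hd, rfl⟩ := Submodule.mem_sup.1 hy
    have h1 : (a + b) * (c + d) = (a * (c + d) + b * c) + b * d := by ring
    rw [h1]
    refine Ideal.add_mem _ (Ideal.mem_sup_left (Ideal.add_mem _ ?_ ?_)) (Ideal.mem_sup_right ?_)
    · exact Ideal.mul_mem_right _ _ ha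
    · exact Ideal.mul_mem_left _ _ hc
    · exact sguL_mul S T n (Ideal.mul_mem_mul hb hd)

private theorem sgu_prod {k : ℕ} {α : Type} (g : Fin k → α → R) (m : Ideal R)
    (hm : ∀ l : Fin k, m ^ ((l : ℕ) + 1) ≤ Ideal.span (Set.range (g l))) :
    m ^ (∑ l : Fin k, ((l : ℕ) + 1)) ≤
      Ideal.span (Set.range fun φ : Fin k → α => ∏ l, g l (φ l)) := by
  rw [← Finset.prod_pow_eq_pow_sum]
  have h1 : ∏ l : Fin k, m ^ ((l : ℕ) + 1) ≤ ∏ l : Fin k, Ideal.span (Set.range (g l)) := by
    have : ∀ s : Finset (Fin k), ∏ l ∈ s, m ^ ((l : ℕ) + 1) ≤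
        ∏ l ∈ s, Ideal.span (Set.range (g l)) := by
      intro s
      induction s using Finset.cons_induction with
      | empty => rw [Finset.prod_empty, Finset.prod_empty]
      | cons a s ha ih =>
        rw [Finset.prod_cons, Finset.prod_cons]
        exact Ideal.mul_mono (hm a) ih
    exact this Finset.univ
  refine h1.trans ?_
  rw [Ideal.prod_span, Ideal.span_le]
  intro z hz
  rw [Set.mem_fintype_prod] at hz
  obtain ⟨f, hf, rfl⟩ := hz
  choose φ hφ using hf
  exact Ideal.subset_span ⟨φ, Finset.prod_congr rfl fun l _ => hφ l⟩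

end ideals

/-- The generators `gq` of the centre of the blow up: they are in the maximal ideal, and every product of
`N = k (k + 2)` elements of `mx O` is a combination of them. Proof. `mx O` is generated by the `W s` and `j s`, `j t` (every element of `mx O` is `π u / π v`, `u (0) ∈ mx B`). `N = ∑ (l + 1) + ..`
elements, in blocks of `l + 2` (or `k + 1`) elements, `l = 0, .., k - 1`: a product of `≥ l + 1` elements is a combination of the `W s` and the `s ^ a t ^ (l + 1 - a)`. -/
theorem gq_primary [IsLocalRing O] (h : Sg θ j X B M O) {s t : K0} (hp : P2 B s t) {k : ℕ}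
    (hk : 1 ≤ k) : (∀ φ, gq (Wc θ j X M) (j s) (j t) k φ ∈ mx O) ∧
      ∃ N, ∀ x : Fin N → K, (∀ l, x l ∈ mx O) →
        ∃ c : (Fin k → σ ⊕ Fin (k + 1)) → K, (∀ i, c i ∈ O) ∧
          ∏ l, x l = ∑ i, c i * gq (Wc θ j X M) (j s) (j t) k i := by
  classical
  -- the factors
  let g : Fin k → σ ⊕ Fin (k + 1) → K := fun l => Sum.elim (Wc θ j X M)
    (fun a : Fin (k + 1) => j s ^ (min (a : ℕ) (l + 1)) * j t ^ ((l + 1) - min (a : ℕ) (l + 1)))
  have hgq : ∀ φ, gq (Wc θ j X M) (j s) (j t) k φ = ∏ l, g l (φ l) := fun φ => rfl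
  have hsO : j s ∈ mx O := h.hm s hp.hs
  have htO : j t ∈ mx O := h.hm t hp.ht
  have hg : ∀ l i, g l i ∈ mx O := by
    intro l i
    rcases i with i | a
    · exact h.hW i
    · show j s ^ (min (a : ℕ) (l + 1)) * j t ^ ((l + 1) - min (a : ℕ) (l + 1)) ∈ mx O
      by_cases h0 : min (a : ℕ) (l + 1) = 0
      · rw [h0, Nat.sub_zero, pow_succ, ← mul_assoc]
        exact mx_mul (O.mul_mem (O.pow_mem (mx_le hsO) _) (O.pow_mem (mx_le htO) _)) htO
      · obtain ⟨c, hc⟩ := Nat.exists_eq_succ_of_ne_zero h0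
        have h1 : j s ^ (min (a : ℕ) (l + 1)) = j s ^ c * j s := by rw [hc, pow_succ]
        rw [h1, mul_assoc, mul_comm (j s), ← mul_assoc]
        exact mx_mul (O.mul_mem (O.pow_mem (mx_le hsO) _) (O.pow_mem (mx_le htO) _)) hsO
  constructor
  · intro φ
    rw [hgq]
    obtain ⟨k', rfl⟩ : ∃ k', k = k' + 1 := ⟨k - 1, by omega⟩
    rw [Fin.prod_univ_succ]
    exact mx_mul_right (hg _ _) (O.prod_mem fun l _ => mx_le (hg _ _))
  · -- in the ring `O`
    let G : Fin k → σ ⊕ Fin (k + 1) → O := fun l i => ⟨g l i, mx_le (hg l i)⟩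
    let S : O := ⟨j s, mx_le hsO⟩
    let T : O := ⟨j t, mx_le htO⟩
    let W : σ → O := fun i => ⟨Wc θ j X M i, mx_le (h.hW i)⟩
    have hW : ∀ u : MvPolynomial σ B, (⟨piW j B (Wc θ j X M) u, sgu_mem h u⟩ : O) -
        ⟨j ((constantCoeff u : B) : K0), h.hB _ (constantCoeff u : B).2⟩ ∈
        Ideal.span (Set.range W) := by
      intro u
      induction u using MvPolynomial.induction_on with
      | C a =>
        have h1 : (⟨piW j B (Wc θ j X M) (C a), sgu_mem h (C a)⟩ : O) -
            ⟨j ((constantCoeff (C a : MvPolynomial σ B) : B) : K0), h.hB _ (constantCoeff _ : B).2⟩ =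
            0 := by
          apply Subtype.ext
          show piW j B (Wc θ j X M) (C a) - j ((constantCoeff (C a : MvPolynomial σ B) : B) : K0) = 0
          rw [sgu_C, constantCoeff_C, sub_self]
        rw [h1]
        exact Ideal.zero_mem _
      | add p q hp hq =>
        have h1 := Ideal.add_mem _ hp hq
        refine (congrArg (· ∈ Ideal.span (Set.range W)) ?_).mp h1
        apply Subtype.ext
        show piW j B (Wc θ j X M) p - j ((constantCoeff p : B) : K0) +
          (piW j B (Wc θ j X M) q - j ((constantCoeff q : B) : K0)) =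
          piW j B (Wc θ j X M) (p + q) - j ((constantCoeff (p + q) : B) : K0)
        rw [map_add (piW j B (Wc θ j X M)), map_add constantCoeff]
        have h2 : ((constantCoeff p + constantCoeff q : B) : K0) =
          ((constantCoeff p : B) : K0) + ((constantCoeff q : B) : K0) := rfl
        rw [h2, map_add]
        ring
      | mul_X p i hp =>
        have h1 : (⟨piW j B (Wc θ j X M) (p * MvPolynomial.X i),
            sgu_mem h (p * MvPolynomial.X i)⟩ : O) -
            ⟨j ((constantCoeff (p * MvPolynomial.X i) : B) : K0), h.hB _ (constantCoeff _ : B).2⟩ =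
            ⟨piW j B (Wc θ j X M) p, sgu_mem h p⟩ * W i := by
          apply Subtype.ext
          show piW j B (Wc θ j X M) (p * MvPolynomial.X i) -
            j ((constantCoeff (p * MvPolynomial.X i) : B) : K0) =
            piW j B (Wc θ j X M) p * Wc θ j X M i
          rw [map_mul, map_mul, constantCoeff_X, mul_zero, sgu_X]
          have h2 : ((0 : B) : K0) = 0 := rfl
          rw [h2, map_zero, sub_zero]
        rw [h1]
        exact Ideal.mul_mem_left _ _ (Ideal.subset_span ⟨i, rfl⟩)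
    have hmx : IsLocalRing.maximalIdeal O ≤ Ideal.span (Set.range W) ⊔ Ideal.span {S, T} := by
      intro x hx
      rw [← mem_mx_iff] at hx
      obtain ⟨u, v, h1, h2, h3⟩ := h.fr x (mx_le hx)
      have hxu : x = ⟨(piW j B (Wc θ j X M) v)⁻¹, h2⟩ * ⟨piW j B (Wc θ j X M) u, sgu_mem h u⟩ := by
        apply Subtype.ext
        show (x : K) = (piW j B (Wc θ j X M) v)⁻¹ * piW j B (Wc θ j X M) u
        rw [← h3, mul_comm, mul_assoc, mul_inv_cancel₀ h1, mul_one]
      have hu : piW j B (Wc θ j X M) u ∈ mx O := by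
        rw [← h3]
        exact mx_mul_right hx (sgu_mem h v)
      have hu0 : ((constantCoeff u : B) : K0) ∈ mx B := by
        by_contra hcon
        exact (notMem_mx_iff (sgu_mem h u)).2 ((sg_unit h u).2 hcon) hu
      obtain ⟨a, ha, b, hb, hab⟩ := hp.gen _ hu0
      have hju : (⟨j ((constantCoeff u : B) : K0), h.hB _ (constantCoeff u : B).2⟩ : O) =
          ⟨j a, h.hB a ha⟩ * S + ⟨j b, h.hB b hb⟩ * T := by
        apply Subtype.ext
        show j ((constantCoeff u : B) : K0) = j a * j s + j b * j t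
        rw [hab, map_add, map_mul, map_mul]
      rw [hxu]
      refine Ideal.mul_mem_left _ _ ?_
      have h4 : (⟨piW j B (Wc θ j X M) u, sgu_mem h u⟩ : O) =
          (⟨piW j B (Wc θ j X M) u, sgu_mem h u⟩ -
            ⟨j ((constantCoeff u : B) : K0), h.hB _ (constantCoeff u : B).2⟩) +
          (⟨j a, h.hB a ha⟩ * S + ⟨j b, h.hB b hb⟩ * T) := by
        rw [← hju]
        ring
      rw [h4]
      refine Ideal.add_mem _ (Ideal.mem_sup_left (hW u)) (Ideal.mem_sup_right ?_)
      exact Ideal.mem_span_pair.2 ⟨_, _, rfl⟩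
    have hpow : ∀ l : Fin k, IsLocalRing.maximalIdeal O ^ ((l : ℕ) + 1) ≤
        Ideal.span (Set.range (G l)) := by
      intro l
      refine (Ideal.pow_right_mono hmx _).trans ((sguL_pow _ S T _).trans (sup_le ?_ ?_))
      · rw [Ideal.span_le]
        rintro _ ⟨i, rfl⟩
        exact Ideal.subset_span ⟨Sum.inl i, rfl⟩
      · rw [sguL, Ideal.span_le]
        rintro _ ⟨a, ha, rfl⟩
        refine Ideal.subset_span ⟨Sum.inr ⟨a, by have := l.2; omega⟩, ?_⟩
        apply Subtype.ext
        show j s ^ (min a (l + 1)) * j t ^ ((l + 1) - min a (l + 1)) =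
          j s ^ a * j t ^ (l + 1 - a)
        rw [min_eq_left ha]
    have hfin := sgu_prod G (IsLocalRing.maximalIdeal O) hpow
    refine ⟨∑ l : Fin k, ((l : ℕ) + 1), fun x hx => ?_⟩
    have h1 : ∏ l, (⟨x l, mx_le (hx l)⟩ : O) ∈
        IsLocalRing.maximalIdeal O ^ (∑ l : Fin k, ((l : ℕ) + 1)) := by
      have h2 := Ideal.prod_mem_prod (s := Finset.univ)
        (I := fun _ : Fin (∑ l : Fin k, ((l : ℕ) + 1)) => IsLocalRing.maximalIdeal O)
        (x := fun l => (⟨x l, mx_le (hx l)⟩ : O)) (fun l _ => (mem_mx_iff _).1 (hx l))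
      rwa [Finset.prod_const, Finset.card_univ, Fintype.card_fin] at h2
    obtain ⟨c, hc⟩ := (Ideal.mem_span_range_iff_exists_fun).1 (hfin h1)
    refine ⟨fun i => c i, fun i => (c i).2, ?_⟩
    have h3 := congrArg O.subtype hc
    rw [map_sum, map_prod] at h3
    refine h3.symm.trans (Finset.sum_congr rfl fun i _ => ?_)
    rw [map_mul, map_prod]
    rfl

end Pool.Agent.EvM
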