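import Pool.Agent.EvM.EmNd

set_option autoImplicit false

/-! # Elements divisible by the exceptional parameters -/

namespace Pool.Agent.EvM

open Pool.Agent.NT9

variable {K0 : Type} [Field K0] {B0 B : Subring K0} {s t E M w : K0}
  {D : Derivation ℤ K0 K0} {p i : ℕ}

/-- Proof. As `small`, with `w / M ^ 2 ∈ mp B (n + 1)`: `E μ / M ^ 2 = α E g + β (2 (E D M / M) g + E D g) ∈ mp B n` (`g = w / M ^ 2`, `der_mp`) for a product `μ` of `L` elements of `mx B0`. -/
theorem small2 (nd : Nd B0 D p w i B E M s t) [IsLocalRing B0] {L : ℕ} (hst : Star B0 D w L)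
    {n N : ℕ} (hg : w / M ^ 2 ∈ mp B (n + 1)) {x : K0} (hx : x ∈ mp B0 (L + i + N)) :
    x / M ^ 2 ∈ mp B (n + N) := by
  have _ := nd.par.loc
  have hM := nd.M0
  have hE0 := nd.E0
  refine mp_induction (C := fun x => x / M ^ 2 ∈ mp B (n + N)) ?_ ?_ ?_ hx
  · show (0 : K0) / M ^ 2 ∈ mp B (n + N)
    rw [zero_div]
    exact (mp B (n + N)).zero_mem
  · intro x y hx hy
    show (x + y) / M ^ 2 ∈ mp B (n + N)
    rw [add_div]
    exact (mp B (n + N)).add_mem hx hy
  · intro a ha y hy
    show a * (∏ l, y l) / M ^ 2 ∈ mp B (n + N)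
    obtain ⟨α, hα, β, hβ, h1⟩ := hst (fun l => y (Fin.castAdd N (Fin.castAdd i l)))
      (fun l => hy _)
    have h2 := nd.pow (fun l => y (Fin.castAdd N (Fin.natAdd L l))) (fun l => hy _)
    have h3 : ∏ l, y (Fin.natAdd (L + i) l) ∈ mp B N :=
      mp_prod _ (fun l => nd.dom _ (hy _))
    have hDg : E * D (w / M ^ 2) ∈ mp B n := der_mp D nd.der hg
    have hg' : w / M ^ 2 ∈ mp B n := mp_anti (Nat.le_succ n) hg
    set g : K0 := w / M ^ 2 with hgd
    have hw : w = M ^ 2 * g := by rw [hgd]; field_simp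
    have hDw : D w = 2 * M * D M * g + M ^ 2 * D g := by
      rw [hw, Derivation.leibniz, Derivation.leibniz_pow]
      simp only [smul_eq_mul, nsmul_eq_mul]
      push_cast
      ring
    have key : E * (∏ l, y (Fin.castAdd N (Fin.castAdd i l))) / M ^ 2 ∈ mp B n := by
      have e1 : E * (∏ l, y (Fin.castAdd N (Fin.castAdd i l))) / M ^ 2 =
          (α * E) * g + ((β * (2 * (E * D M / M))) * g + β * (E * D g)) := by
        rw [h1, hDw]
        conv_lhs => rw [hw]
        field_simp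
      rw [e1]
      have h2B : (2 : K0) ∈ B := by
        have : ((2 : ℕ) : K0) ∈ B := natCast_mem B 2
        exact_mod_cast this
      exact (mp B n).add_mem (mp_smul (B.mul_mem (nd.le hα) nd.EB) hg')
        ((mp B n).add_mem (mp_smul (B.mul_mem (nd.le hβ) (B.mul_mem h2B nd.derM)) hg')
          (mp_smul (nd.le hβ) hDg))
    have e2 : a * (∏ l, y l) / M ^ 2 =
        (a * ((∏ l, y (Fin.castAdd N (Fin.natAdd L l))) / E)) *
          ((E * (∏ l, y (Fin.castAdd N (Fin.castAdd i l))) / M ^ 2) *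
            ∏ l, y (Fin.natAdd (L + i) l)) := by
      rw [Fin.prod_univ_add, Fin.prod_univ_add]
      field_simp
    rw [e2]
    exact mp_smul (B.mul_mem (nd.le ha) h2) (mp_mul key h3)

end Pool.Agent.EvM
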