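import Pool.Agent.EvM.EmNdS
import Pool.Agent.EvM.EmSmall
import Pool.Agent.EvM.EmSgU

set_option autoImplicit false

/-! # The children of a node -/

namespace Pool.Agent.EvM

open MvPolynomial Pool.Agent.NT9

section two

variable {K0 : Type} [Field K0] {B0 B B' : Subring K0} {s t E M w : K0}
  {D : Derivation ℤ K0 K0} {p i : ℕ}

/-- `P2.exists_ord`, `k = n / 2`. -/
theorem exists_k (h : P2 B s t) {x : K0} (hx : x ∈ mp B 2) (h0 : x ≠ 0) :
    ∃ k, 1 ≤ k ∧ x ∈ mp B (2 * k) ∧ x ∉ mp B (2 * k + 2) := by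
  have hloc : IsLocalRing B := h.loc
  obtain ⟨n, hn, hn'⟩ := h.exists_ord (mp_mem hx) h0
  have h2 : 2 ≤ n := by
    by_contra hcon
    exact hn' (mp_anti (by omega) hx)
  refine ⟨n / 2, by omega, mp_anti (by omega) hn, fun h3 => hn' (mp_anti (by omega) h3)⟩

/-- `small2` with `n = 2 k - 1`, `N = 2`: `x / M ^ 2 ∈ mp B (2 k + 1)`, and `x / M = M (x / M ^ 2)`. -/
theorem kid_small (nd : Nd B0 D p w i B E M s t) [IsLocalRing B0] {L N k : ℕ}
    (hst : Star B0 D w L) (hk : 1 ≤ k) (hg : w / M ^ 2 ∈ mp B (2 * k)) (hN : L + i + 2 ≤ N)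
    {x : K0} (hx : x ∈ mp B0 N) : x / M ∈ mp B (k + 1) := by
  have hloc : IsLocalRing B := nd.par.loc
  obtain ⟨n, rfl⟩ := Nat.exists_eq_add_of_le hk
  have hg1 : w / M ^ 2 ∈ mp B ((2 * n + 1) + 1) := by
    have h1 : 2 * (1 + n) = (2 * n + 1) + 1 := by ring
    rwa [h1] at hg
  have h1 := small2 nd hst (N := 2) hg1 (mp_anti hN hx)
  have hM : M ∈ B := by
    have h2 : M = M / E * E := by
      rw [div_mul_cancel₀ _ nd.E0]
    rw [h2]
    exact mul_mem nd.EM nd.EB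
  have h2 : x / M = M * (x / M ^ 2) := by
    have := nd.M0
    field_simp
  rw [h2]
  exact mp_smul hM (mp_anti (by omega) h1)

/-- A child is not the generic point of the exceptional curve: `qt_cases`, `dvr_not_sq`, `qt_ord2`. -/
theorem kid_par (h : P2 B s t) (q : QT B s t B') {k : ℕ} {g : K0} (hg : g ∈ mp B (2 * k))
    (hg' : g ∉ mp B (2 * k + 2)) (hc : g / s ^ (2 * k) ∈ mp B' 2) : ∃ φ, P2 B' s φ := by
  have hloc' : IsLocalRing B' := q.loc
  rcases qt_cases h q with h1 | h1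
  · exact absurd (dvr_not_sq (q.dom _ h.hs) h.s0 h1 hc) (qt_ord2 h q hg hg')
  · exact h1

private theorem kid_eq (w M e : K0) (k : ℕ) : w / (M * e ^ k) ^ 2 = w / M ^ 2 / e ^ (2 * k) := by
  rw [div_div, mul_pow, ← pow_mul, Nat.mul_comm k 2]

/-- `nd_step` in both charts (`Nd.swap`). -/
theorem kid_nd (nd : Nd B0 D p w i B E M s t) (hp : (p : K0) ∈ mx B) {k : ℕ} (hk : 1 ≤ k)
    (hg : w / M ^ 2 ∈ mp B (2 * k)) (hg' : w / M ^ 2 ∉ mp B (2 * k + 2)) {e e' : K0}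
    (he : (e = s ∧ e' = t) ∨ (e = t ∧ e' = s)) (q : QT B e e' B')
    (hc : w / (M * e ^ k) ^ 2 ∈ mp B' 2) :
    ∃ E' t', Nd B0 D p w (i + 1) B' E' (M * e ^ k) e t' := by
  rw [kid_eq] at hc
  rcases he with ⟨rfl, rfl⟩ | ⟨rfl, rfl⟩
  · obtain ⟨t', h1⟩ := nd_step nd hp hk hg hg' q (kid_par nd.par q hg hg' hc)
    exact ⟨_, t', h1⟩
  · obtain ⟨t', h1⟩ := nd_step nd.swap hp hk hg hg' q (kid_par nd.par.swap q hg hg' hc)
    exact ⟨_, t', h1⟩

end two

section one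

variable {σ : Type} [Fintype σ] [DecidableEq σ] {K0 K : Type} [Field K0] [Field K]
  {B : Subring K0} {θ : MvPolynomial σ ℤ →+* K} {j : K0 →+* K} {X : σ → K0} {s u M w : K0}

/-- The children (over the function field) of a node. -/
def Kids (θ : MvPolynomial σ ℤ →+* K) (j : K0 →+* K) (X : σ → K0) (B : Subring K0)
    (s u M w : K0) (k : ℕ) : Set (Subring K) :=
  {O' | IsLocalRing O' ∧ ∃ e e', ((e = s ∧ e' = u) ∨ (e = u ∧ e' = s)) ∧ ∃ B' : Subring K0,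
    QT B e e' B' ∧ w / (M * e ^ k) ^ 2 ∈ mp B' 2 ∧ Sg θ j X B' (M * e ^ k) O'}

/-- Proof. `child_fin` for `(s, u)` and `(u, s)`; for each `B'` at most one `O'` (`sg_uniq`). -/
theorem kids_fin (h : P2 B s u) {k : ℕ} (hg : w / M ^ 2 ∈ mp B (2 * k))
    (hg' : w / M ^ 2 ∉ mp B (2 * k + 2)) : (Kids θ j X B s u M w k).Finite := by
  have h1 := child_fin h hg hg'
  have h2 := child_fin h.swap hg hg'
  have hsub : ∀ (B' : Subring K0) (e : K0),
      {O' : Subring K | IsLocalRing O' ∧ Sg θ j X B' (M * e ^ k) O'}.Finite := by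
    intro B' e
    apply Set.Subsingleton.finite
    rintro O1 ⟨hl1, hs1⟩ O2 ⟨hl2, hs2⟩
    exact sg_uniq hs1 hs2
  refine ((h1.biUnion fun B' _ => hsub B' s).union (h2.biUnion fun B' _ => hsub B' u)).subset ?_
  rintro O' ⟨hl, e, e', he, B', q, hc, hsg⟩
  rw [kid_eq] at hc
  rcases he with ⟨rfl, rfl⟩ | ⟨rfl, rfl⟩
  · left
    simp only [Set.mem_iUnion]
    exact ⟨B', ⟨q, hc⟩, hl, hsg⟩
  · right
    simp only [Set.mem_iUnion]
    exact ⟨B', ⟨q, hc⟩, hl, hsg⟩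

end one

end Pool.Agent.EvM
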