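import Pool.Agent.EvM.EmQTc

set_option autoImplicit false

/-! # quadratic transforms: lifting -/

namespace Pool.Agent.EvM

open Pool.Agent.NT9

variable {K0 : Type} [Field K0] {B0 B B' : Subring K0} {s t E : K0}

private theorem lift_cl (h : P2 B s t) {x : K0}
    (hx : x ∈ Subring.closure ((B : Set K0) ∪ {t / s})) : ∃ n : ℕ, x * s ^ n ∈ B := by
  obtain ⟨n, c, hc, rfl⟩ := mem_closure_iff.1 hx
  refine ⟨n, ?_⟩
  rw [Finset.sum_mul]
  refine sum_mem fun i hi => ?_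
  have hi' : i ≤ n := by
    rw [Finset.mem_range] at hi
    omega
  have h1 : c i * (t / s) ^ i * s ^ n = c i * (t ^ i * s ^ (n - i)) := by
    obtain ⟨k, rfl⟩ := Nat.exists_eq_add_of_le hi'
    rw [Nat.add_sub_cancel_left, div_pow, pow_add]
    have hs : s ^ i ≠ 0 := pow_ne_zero _ h.s0
    field_simp
  rw [h1]
  exact mul_mem (hc i) (mul_mem (pow_mem h.ht.1 _) (pow_mem h.hs.1 _))

private theorem lift_reg (h : P2 B s t) (k : ℕ) : ∀ y ∈ B, ∀ b ∈ B, y * s ^ k = b * t →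
    ∃ c ∈ B, y = c * t := by
  induction k with
  | zero =>
    intro y hy b hb hyb
    exact ⟨b, hb, by simpa using hyb⟩
  | succ k ih =>
    intro y hy b hb hyb
    obtain ⟨c, hc, h1, -⟩ := h.reg (y * s ^ k) (mul_mem hy (pow_mem h.hs.1 _)) b hb (by
      rw [← hyb]
      ring)
    exact ih y hy c hc h1

private theorem lift_claim (h : P2 B s t) (q : QT B s t B') (hc : t / s ∈ mx B') {y b' : K0}
    (hy : y ∈ B) (hb' : b' ∈ B') (hyb : y = t / s * b') : ∃ c ∈ B, y = c * t := by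
  have hlocB : IsLocalRing B := h.loc
  have hlocB' : IsLocalRing B' := q.loc
  obtain ⟨u, hu, v, hv, hv0, hvi, huv⟩ := q.fr.2 b' hb'
  obtain ⟨n, c, hcB, hvc⟩ := mem_closure_iff.1 hv
  have htA : t / s ∈ Subring.closure ((B : Set K0) ∪ {t / s}) :=
    Subring.subset_closure (Or.inr rfl)
  have hBA : ∀ z ∈ B, z ∈ Subring.closure ((B : Set K0) ∪ {t / s}) := fun z hz =>
    Subring.subset_closure (Or.inl hz)
  -- `v = c 0 + (t / s) v1`
  obtain ⟨v1, hv1, hvv⟩ : ∃ v1 ∈ Subring.closure ((B : Set K0) ∪ {t / s}),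
      v = c 0 + t / s * v1 := by
    refine ⟨∑ i ∈ Finset.range n, c (i + 1) * (t / s) ^ i, ?_, ?_⟩
    · exact sum_mem fun i _ => mul_mem (hBA _ (hcB _)) (pow_mem htA _)
    · rw [hvc, Finset.sum_range_succ', Finset.mul_sum, pow_zero, mul_one, add_comm]
      congr 1
      exact Finset.sum_congr rfl fun i _ => by ring
  have hv1B : v1 ∈ B' := q.fr.1 hv1
  have hc0 : c 0 ∉ mx B := by
    intro hc0
    have h1 : v ∈ mx B' := by
      rw [hvv]
      exact mx_add (q.dom _ hc0) (mx_mul_right hc hv1B)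
    have h2 : v ∉ mx B' := (notMem_mx_iff h1.1).2 ⟨hv0, hvi⟩
    exact h2 h1
  obtain ⟨hc00, hc0i⟩ := (notMem_mx_iff (hcB 0)).1 hc0
  have hyA := hBA y hy
  have h1 : y * c 0 = t / s * (u - y * v1) := by
    have h2 : y * v = t / s * u := by
      rw [hyb, ← huv]
      ring
    have h3 : y * v = y * c 0 + t / s * (y * v1) := by
      rw [hvv]
      ring
    rw [mul_sub, ← h2, h3]
    ring
  obtain ⟨N, hN⟩ := lift_cl h (sub_mem hu (mul_mem hyA hv1))
  refine lift_reg h (N + 1) y hy ((u - y * v1) * s ^ N * (c 0)⁻¹) (mul_mem hN hc0i) ?_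
  have h4 : y = t / s * (u - y * v1) * (c 0)⁻¹ := by
    rw [← h1, mul_assoc, mul_inv_cancel₀ hc00, mul_one]
  have hs0 := h.s0
  calc y * s ^ (N + 1) = (t / s * (u - y * v1) * (c 0)⁻¹) * s ^ (N + 1) := by rw [← h4]
    _ = (u - y * v1) * s ^ N * (c 0)⁻¹ * t := by
      rw [pow_succ]
      field_simp

/-- Proof. Claim: `y ∈ B`, `y ∈ (t / s) B'` implies `y / t ∈ B`. `y = (t / s) (u / v)`, `u, v ∈ B[t/s]`, `v` a unit of `B'`; `v = c 0 + (t/s) (..)` with `c 0 ∉ mx B`; multiply with a power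
of `s`: `y s (c 0 s^N + t b) = t u'` with `b, u' ∈ B`, so `t` divides `y s^(N+1) c 0` in `B`, so `y` (`reg`, swap). Now `x = s^m (t/s)^2 b'`: `x / t ∈ B` by the claim, and
`x / t = s^(m-1) (t / s) b'` up to a power of `s`; apply the claim to `(x / t) s^a`, `a` such that `s^(m-1+a)` has exponent `≥ 0`, and `reg` again. -/
theorem qt_lift (h : P2 B s t) (q : QT B s t B') (hc : t / s ∈ mx B') {m : ℕ} {x : K0}
    (hx : x ∈ B) (hx' : x / s ^ m / (t / s) ^ 2 ∈ B') : x / t ^ 2 ∈ B := by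
  have hs0 := h.s0
  have ht0 := h.t0
  have hsB' : s ∈ B' := q.le h.hs.1
  set b' : K0 := x / s ^ m / (t / s) ^ 2 with hb'
  have hxb : x = t / s * (s ^ m * (t / s) * b') := by
    rw [hb']
    field_simp
  obtain ⟨x1, hx1, hx1e⟩ := lift_claim h q hc hx
    (mul_mem (mul_mem (pow_mem hsB' _) hc.1) hx') hxb
  have h2 : x1 * s = t / s * (s ^ m * b') := by
    have h3 : x1 * t = t / s * (s ^ m * (t / s) * b') := by rw [← hx1e]; exact hxb
    have h4 : (x1 * s) * t = (t / s * (s ^ m * b')) * t := by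
      calc (x1 * s) * t = (x1 * t) * s := by ring
        _ = (t / s * (s ^ m * (t / s) * b')) * s := by rw [h3]
        _ = (t / s * (s ^ m * b')) * t := by
          field_simp
    exact mul_right_cancel₀ ht0 h4
  obtain ⟨x2, hx2, hx2e⟩ := lift_claim h q hc (mul_mem hx1 h.hs.1)
    (mul_mem (pow_mem hsB' _) hx') h2
  obtain ⟨x3, hx3, hx3e⟩ := lift_reg h 1 x1 hx1 x2 hx2 (by rw [pow_one, hx2e])
  have h5 : x / t ^ 2 = x3 := by
    rw [hx1e, hx3e]
    field_simp
  rw [h5]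
  exact hx3

end Pool.Agent.EvM
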