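import Pool.Agent.EvM.EmDer
import Pool.Agent.EvM.EmLift
import Pool.Agent.EvM.EmFrac
import Pool.Agent.EvM.EmFin
import Pool.Agent.EvM.EmFinR

set_option autoImplicit false

/-! # the chain data -/

namespace Pool.Agent.EvM

open Pool.Agent.NT9

variable {K0 : Type} [Field K0] {B0 B B' : Subring K0} {s t E M w : K0}
  {D : Derivation ℤ K0 K0} {p i : ℕ}

theorem Nd.swap (nd : Nd B0 D p w i B E M s t) : Nd B0 D p w i B E M t s := by
  obtain ⟨ε, a, b, h1, h2, h3, h4, h5⟩ := nd.nc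
  refine ⟨nd.par.swap, nd.le, nd.dom, nd.fin, nd.E0, nd.M0, nd.EB, nd.EM, nd.prod, nd.pow, nd.der,
    nd.derM, nd.wM, nd.frac, ε, b, a, h1, h2, ?_, h5, h4⟩
  rw [h3]
  ring

/-- Proof. `star`: for `μ` a product of `L` elements of `mx B0`, `E μ / M^2 = α E g + β (2 (E D M / M) g + E D g)`, `g = w / M^2 ∈ B` (`w = M^2 g`). For `x = ∏` of `L + i + N` elements: the first
`L` give `E μ1 / M^2 ∈ B`, the next `i` give `μ2 / E ∈ B`, the last `N` are in `mp B N`; `mp_induction`. -/
theorem small (nd : Nd B0 D p w i B E M s t) [IsLocalRing B0] {L : ℕ} (hst : Star B0 D w L) {N : ℕ}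
    {x : K0} (hx : x ∈ mp B0 (L + i + N)) : x / M ^ 2 ∈ mp B N := by
  have _ := nd.par.loc
  have hM := nd.M0
  have hE0 := nd.E0
  refine mp_induction (C := fun x => x / M ^ 2 ∈ mp B N) ?_ ?_ ?_ hx
  · show (0 : K0) / M ^ 2 ∈ mp B N
    rw [zero_div]
    exact (mp B N).zero_mem
  · intro x y hx hy
    show (x + y) / M ^ 2 ∈ mp B N
    rw [add_div]
    exact (mp B N).add_mem hx hy
  · intro a ha y hy
    show a * (∏ l, y l) / M ^ 2 ∈ mp B N
    obtain ⟨α, hα, β, hβ, h1⟩ := hst (fun l => y (Fin.castAdd N (Fin.castAdd i l)))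
      (fun l => hy _)
    have h2 := nd.pow (fun l => y (Fin.castAdd N (Fin.natAdd L l))) (fun l => hy _)
    have h3 : ∏ l, y (Fin.natAdd (L + i) l) ∈ mp B N :=
      mp_prod _ (fun l => nd.dom _ (hy _))
    set g : K0 := w / M ^ 2 with hg
    have hw : w = M ^ 2 * g := by rw [hg]; field_simp
    have hDw : D w = 2 * M * D M * g + M ^ 2 * D g := by
      rw [hw, Derivation.leibniz, Derivation.leibniz_pow]
      simp only [smul_eq_mul, nsmul_eq_mul]
      push_cast
      ring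
    have hDg : E * D g ∈ B := nd.der g nd.wM
    have key : E * (∏ l, y (Fin.castAdd N (Fin.castAdd i l))) / M ^ 2 ∈ B := by
      have e1 : E * (∏ l, y (Fin.castAdd N (Fin.castAdd i l))) / M ^ 2 =
          α * (E * g) + β * (2 * (E * D M / M) * g + E * D g) := by
        rw [h1, hDw]
        conv_lhs => rw [hw]
        field_simp
      rw [e1]
      refine B.add_mem (B.mul_mem (nd.le hα) (B.mul_mem nd.EB nd.wM))
        (B.mul_mem (nd.le hβ) (B.add_mem (B.mul_mem (B.mul_mem ?_ nd.derM) nd.wM) hDg))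
      have : ((2 : ℕ) : K0) ∈ B := natCast_mem B 2
      exact_mod_cast this
    have e2 : a * (∏ l, y l) / M ^ 2 =
        (a * (E * (∏ l, y (Fin.castAdd N (Fin.castAdd i l))) / M ^ 2) *
          ((∏ l, y (Fin.castAdd N (Fin.natAdd L l))) / E)) * ∏ l, y (Fin.natAdd (L + i) l) := by
      rw [Fin.prod_univ_add, Fin.prod_univ_add]
      field_simp
    rw [e2]
    exact mp_smul (B.mul_mem (B.mul_mem (nd.le ha) key) h2) h3

/-- The first chain: `B = B0`, `E = M = 1`. -/
theorem nd_zero {P0 : K0} (h : P2 B0 p P0) (hf : FinRes B0) (hD : ∀ b ∈ B0, D b ∈ B0)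
    (hw : w ∈ B0) (hp : w / (p : K0) ^ 2 ∉ B0) : Nd B0 D p w 0 B0 1 1 p P0 where
  par := h
  le := le_rfl
  dom := fun _ hx => hx
  fin := hf
  E0 := one_ne_zero
  M0 := one_ne_zero
  EB := B0.one_mem
  EM := by rw [div_one]; exact B0.one_mem
  prod := ⟨fun _ => 0, fun l => l.elim0, by simp⟩
  pow := fun x _ => by simp
  der := fun b hb => by rw [one_mul]; exact hD b hb
  derM := by simp
  wM := by simpa using hw
  frac := fun Q hQ _ b => by
    refine ⟨b, 1, b.2, ?_, ?_, mul_one b⟩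
    · exact B0.one_mem
    · exact fun h1 => hQ.ne_top ((Ideal.eq_top_iff_one _).2 h1)
  nc := by
    refine ⟨1, 1, 0, B0.one_mem, by rw [inv_one]; exact B0.one_mem, by simp, fun _ => ?_,
      fun h1 => absurd h1 (by norm_num)⟩
    rw [one_pow, div_one]
    exact hp

end Pool.Agent.EvM
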