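import Pool.Agent.EvM.EmNd

set_option autoImplicit false

/-! # the chain data of a quadratic transform -/

namespace Pool.Agent.EvM

open Pool.Agent.NT9

variable {K0 : Type} [Field K0] {B0 B B' : Subring K0} {s t E M w : K0}
  {D : Derivation ℤ K0 K0} {p i : ℕ}

/-- Proof. `t' = t / s` if `t / s ∈ mx B'` (`qt_corner`), otherwise `t' = φ`. `fin`: `qt_finres`. `EM`: `(M / E) s^(k-1)`. `prod`: `Fin.snoc`. `pow`: `(∏ x) / (E s) = (∏ of the first i / E) (x i / s)`.
`der`: `qt_der`. `derM`: `E s D (M s^k) / (M s^k) = s (E D M / M) + k E D s`. `wM`: `qt_pow`. `frac`: `frac_step`, `p / s ∈ B'` as `p ∈ mx B` (from `prod`-free data: `(p : K0) = ε s^a t^b`; if `a = b = 0`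
then `p` is a unit of `B`: excluded by `hp`). `nc`: `p = ε s^(a+b) (t/s)^b` in the corner (`w / M'^2 / s^2 ∉ B'`: `qt_ord2`; `w / M'^2 / (t/s)^2 ∉ B'`: `qt_lift`), otherwise
`p = (ε (t/s)^b) s^(a+b) φ^0`. -/
theorem nd_step (nd : Nd B0 D p w i B E M s t) (hp : (p : K0) ∈ mx B) {k : ℕ} (hk : 1 ≤ k)
    (hw : w / M ^ 2 ∈ mp B (2 * k)) (hw' : w / M ^ 2 ∉ mp B (2 * k + 2)) (q : QT B s t B')
    (hφ : ∃ φ, P2 B' s φ) : ∃ t', Nd B0 D p w (i + 1) B' (E * s) (M * s ^ k) s t' := by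
  obtain ⟨φ, hφ⟩ := hφ
  have h := nd.par
  have _ := h.loc
  have _ := q.loc
  have hs0 := h.s0
  have ht0 := h.t0
  have hE0 := nd.E0
  have hM0 := nd.M0
  obtain ⟨k, rfl⟩ : ∃ k', k = k' + 1 := ⟨k - 1, by omega⟩
  have hsB' : s ∈ mx B' := q.dom s h.hs
  have hsB'1 : s ∈ B' := mx_le hsB'
  have hwM : w / (M * s ^ (k + 1)) ^ 2 = w / M ^ 2 / s ^ (2 * (k + 1)) := by
    rw [div_div, mul_pow, ← pow_mul, Nat.mul_comm (k + 1) 2]
  have hord : w / (M * s ^ (k + 1)) ^ 2 / s ^ 2 ∉ B' := by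
    rw [hwM]
    exact qt_ord2 h q hw hw'
  obtain ⟨ε, a, b, hε, hε', hpe, hna, hnb⟩ := nd.nc
  have hnc : ∃ t', P2 B' s t' ∧ ∃ (ε' : K0) (a' b' : ℕ), ε' ∈ B' ∧ ε'⁻¹ ∈ B' ∧
      (p : K0) = ε' * s ^ a' * t' ^ b' ∧
      (1 ≤ a' → w / (M * s ^ (k + 1)) ^ 2 / s ^ 2 ∉ B') ∧
      (1 ≤ b' → w / (M * s ^ (k + 1)) ^ 2 / t' ^ 2 ∉ B') := by
    by_cases hc : t / s ∈ mx B'
    · refine ⟨t / s, qt_corner h q hc, ε, a + b, b, q.le hε, q.le hε', ?_, fun _ => hord, ?_⟩
      · rw [hpe, div_pow, pow_add]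
        field_simp
      · intro hb hmem
        rw [hwM] at hmem
        exact hnb hb (qt_lift h q hc nd.wM hmem)
    · have hu := (notMem_mx_iff q.tau).1 hc
      refine ⟨φ, hφ, ε * (t / s) ^ b, a + b, 0, B'.mul_mem (q.le hε) (B'.pow_mem q.tau b), ?_, ?_,
        fun _ => hord, fun h1 => absurd h1 (by norm_num)⟩
      · rw [mul_inv, ← inv_pow]
        exact B'.mul_mem (q.le hε') (B'.pow_mem hu.2 b)
      · rw [hpe, div_pow, pow_add, pow_zero]
        field_simp
  obtain ⟨t', ht', hnc⟩ := hnc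
  refine ⟨t', ?_⟩
  exact
  { par := ht'
    le := nd.le.trans q.le
    dom := fun x hx => q.dom x (nd.dom x hx)
    fin := qt_finres h nd.fin q hφ
    E0 := mul_ne_zero hE0 hs0
    M0 := mul_ne_zero hM0 (pow_ne_zero _ hs0)
    EB := B'.mul_mem (q.le nd.EB) hsB'1
    EM := by
      have e1 : M * s ^ (k + 1) / (E * s) = M / E * s ^ k := by
        rw [pow_succ]
        field_simp
      rw [e1]
      exact B'.mul_mem (q.le nd.EM) (B'.pow_mem hsB'1 _)
    prod := by
      obtain ⟨e, he, hE⟩ := nd.prod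
      refine ⟨Fin.snoc e s, fun l => ?_, ?_⟩
      · refine Fin.lastCases ?_ (fun l => ?_) l
        · rw [Fin.snoc_last]
          exact hsB'
        · rw [Fin.snoc_castSucc]
          exact q.dom _ (he l)
      · rw [Fin.prod_univ_castSucc]
        simp only [Fin.snoc_castSucc, Fin.snoc_last]
        rw [hE]
    pow := fun x hx => by
      rw [Fin.prod_univ_castSucc]
      have e1 : (∏ l : Fin i, x l.castSucc) * x (Fin.last i) / (E * s) =
          ((∏ l : Fin i, x l.castSucc) / E) * (x (Fin.last i) / s) := by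
        field_simp
      rw [e1]
      exact B'.mul_mem (q.le (nd.pow _ fun l => hx _)) (QT.div h q (nd.dom _ (hx _)))
    der := qt_der h q D nd.der
    derM := by
      have e1 : E * s * D (M * s ^ (k + 1)) / (M * s ^ (k + 1)) =
          s * (E * D M / M) + ((k + 1 : ℕ) : K0) * (E * D s) := by
        rw [Derivation.leibniz, Derivation.leibniz_pow]
        simp only [smul_eq_mul, nsmul_eq_mul]
        rw [Nat.add_sub_cancel]
        field_simp
        ring
      rw [e1]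
      exact B'.add_mem (B'.mul_mem hsB'1 (q.le nd.derM))
        (B'.mul_mem (natCast_mem B' _) (q.le (nd.der s (mx_le h.hs))))
    wM := by
      rw [hwM]
      exact qt_pow h q hw
    frac := frac_step h q nd.le (QT.div h q hp) nd.frac
    nc := hnc }

end Pool.Agent.EvM
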