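import Pool.Agent.EvM.EmCaseZ
import Pool.Agent.EvM.EmCaseM

set_option autoImplicit false

/-! # The points of the blow up of a node -/

namespace Pool.Agent.EvM

open MvPolynomial Pool.Agent.NT9

variable {σ : Type} [Fintype σ] [DecidableEq σ] {K0 K : Type} [Field K0] [Field K]
  {B0 B : Subring K0} {θ : MvPolynomial σ ℤ →+* K} {j : K0 →+* K} {f t : MvPolynomial σ ℤ}
  {T lam : K0} {X : σ → K0} {Pm : σ → σ → K0} {qv r : σ → K0}

/-- Proof. `chart_cases`, `case_0`, `case_z`, `case_m`. -/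
theorem point_step (cd : CD B0 θ j f t T X lam Pm qv r) (hle : B0 ≤ B) {s u M : K0}
    (h : P2 B s u) (hMB : M ∈ B) (hM0 : M ≠ 0) {O : Subring K} [IsLocalRing O]
    (sg : Sg θ j X B M O) {k : ℕ} (hk : 1 ≤ k) (hd0 : d0 t T X / M ∈ mp B (k + 1))
    (hds : ∀ s, ds f t lam X s / M ∈ mp B (k + 1)) (hw : wv f t T lam X / M ^ 2 ∈ mp B (2 * k))
    {O' : Subring K} (hloc : IsLocalRing O')
    (hbl : IsBlG O (gq (Wc θ j X M) (j s) (j u) k) O') :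
    IsRegularLocalRing O' ∨ ∃ e e', ((e = s ∧ e' = u) ∨ (e = u ∧ e' = s)) ∧
      ∃ B' : Subring K0, QT B e e' B' ∧ wv f t T lam X / (M * e ^ k) ^ 2 ∈ mp B' 2 ∧
        Sg θ j X B' (M * e ^ k) O' := by
  have hBl := h.loc
  have hO : O ≤ O' := by
    obtain ⟨b, h1, h2, h3, h4, h5⟩ := hbl
    exact h2
  have hdom : ∀ x ∈ mx O, x ∈ mx O' := by
    obtain ⟨b, h1, h2, h3, h4, h5⟩ := hbl
    exact h3
  have hj0 : ∀ x : K0, x ≠ 0 → j x ≠ 0 := fun x hx h0 => hx ((map_eq_zero j).1 h0)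
  rcases chart_cases (sg.hB s (mx_le h.hs)) (sg.hB u (mx_le h.ht)) (hj0 s h.s0) (hj0 u h.t0) hk
    hbl with ⟨c, hc⟩ | ⟨e, e', hee, hc⟩
  · left
    exact case_0 cd hle h hMB hM0 sg (mp_anti (by omega) hd0)
      (fun s => mp_anti (by omega) (hds s)) (mp_anti (by omega) hw) hO hdom hc
  · -- the two orders of the parameters
    have hcase : ∃ e0 e0', ((e0 = s ∧ e0' = u) ∨ (e0 = u ∧ e0' = s)) ∧ e = j e0 ∧ e' = j e0' := by
      rcases hee with ⟨h1, h2⟩ | ⟨h1, h2⟩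
      · exact ⟨s, u, Or.inl ⟨rfl, rfl⟩, h1, h2⟩
      · exact ⟨u, s, Or.inr ⟨rfl, rfl⟩, h1, h2⟩
    obtain ⟨e0, e0', hee0, rfl, rfl⟩ := hcase
    have hP : P2 B e0 e0' := by
      rcases hee0 with ⟨rfl, rfl⟩ | ⟨rfl, rfl⟩
      · exact h
      · exact h.swap
    rcases hc with hc | ⟨l, c, hl, hlk, hc⟩
    · rcases case_z cd hle hP hMB hM0 sg hk hd0 hds hw hO hdom hc with h1 | ⟨B', hB'⟩
      · exact Or.inl h1
      · exact Or.inr ⟨e0, e0', hee0, B', hB'⟩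
    · exact Or.inl (case_m cd hle hP hMB hM0 sg hl hlk hd0 hds hw hO hdom hc)

end Pool.Agent.EvM
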