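import Pool.Agent.EvM.EmNd

set_option autoImplicit false

/-! # vertical nodes -/

namespace Pool.Agent.EvM

open Pool.Agent.NT9

variable {K0 : Type} [Field K0] {B0 B B' : Subring K0} {s t E M w : K0}
  {D : Derivation ℤ K0 K0} {p i L κ : ℕ}

/-- powers of the maximal ideal modulo `s` -/
private theorem vert_pow {R : Type} [CommRing R] (m : Ideal R) (s t : R)
    (hm : ∀ x ∈ m, ∃ a b, x = a * s + b * t) (n : ℕ) :
    ∀ x ∈ m ^ n, ∃ a b, x = a * s + b * t ^ n := by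
  induction n with
  | zero =>
    intro x _
    exact ⟨0, x, by simp⟩
  | succ n ih =>
    have h1 : m ^ (n + 1) ≤ Ideal.span {s} ⊔ Ideal.span {t ^ (n + 1)} := by
      rw [pow_succ, Ideal.mul_le]
      intro r hr y hy
      obtain ⟨a, b, rfl⟩ := ih r hr
      obtain ⟨c, d, rfl⟩ := hm y hy
      rw [Ideal.mem_span_singleton_sup]
      refine ⟨a * (c * s + d * t) + b * t ^ n * c, b * d * t ^ (n + 1),
        Ideal.mem_span_singleton'.2 ⟨b * d, rfl⟩, ?_⟩
      ring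
    intro x hx
    obtain ⟨a, y, hy, h2⟩ := Ideal.mem_span_singleton_sup.1 (h1 hx)
    obtain ⟨b, rfl⟩ := Ideal.mem_span_singleton'.1 hy
    exact ⟨a, b, h2.symm⟩

/-- an element which is not divisible by `s` is a unit times a power of `t` modulo `s` -/
private theorem vert_ord {R : Type} [CommRing R] [IsLocalRing R] [IsNoetherianRing R] (s t : R)
    (hm : ∀ x ∈ IsLocalRing.maximalIdeal R, ∃ a b, x = a * s + b * t)
    (ht : t ∈ IsLocalRing.maximalIdeal R) {x : R} (hx : ¬ s ∣ x) :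
    ∃ (n : ℕ) (u c : R), IsUnit u ∧ x = c * s + u * t ^ n := by
  classical
  set m := IsLocalRing.maximalIdeal R with hmdef
  -- Krull for the quotient by `s`
  have hex : ∃ n, ¬ ∃ a b, x = a * s + b * t ^ n := by
    by_contra hcon
    push Not at hcon
    have h1 := Ideal.iInf_pow_smul_eq_bot_of_isLocalRing (R := R) (M := R ⧸ Ideal.span {s}) m
      (IsLocalRing.maximalIdeal.isMaximal R).ne_top
    have h2 : (Ideal.Quotient.mk (Ideal.span {s}) x : R ⧸ Ideal.span {s}) ∈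
        ⨅ i : ℕ, m ^ i • (⊤ : Submodule R (R ⧸ Ideal.span {s})) := by
      rw [Submodule.mem_iInf]
      intro n
      obtain ⟨a, b, hab⟩ := hcon n
      have h3 : (Ideal.Quotient.mk (Ideal.span {s}) x : R ⧸ Ideal.span {s}) =
          t ^ n • (Ideal.Quotient.mk (Ideal.span {s}) b) := by
        rw [hab, map_add]
        have h4 : (Ideal.Quotient.mk (Ideal.span {s}) (a * s)) = 0 :=
          Ideal.Quotient.eq_zero_iff_mem.2 (Ideal.mem_span_singleton'.2 ⟨a, rfl⟩)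
        rw [h4, zero_add, mul_comm b]
        rfl
      rw [h3]
      exact Submodule.smul_mem_smul (Ideal.pow_mem_pow ht n) trivial
    rw [h1, Submodule.mem_bot, Ideal.Quotient.eq_zero_iff_mem, Ideal.mem_span_singleton] at h2
    exact hx h2
  obtain ⟨n, hn, hmin⟩ : ∃ n, (¬ ∃ a b, x = a * s + b * t ^ n) ∧
      ∀ k < n, ¬ ¬ ∃ a b, x = a * s + b * t ^ k :=
    ⟨Nat.find hex, Nat.find_spec hex, fun k hk => Nat.find_min hex hk⟩
  rcases n with _ | n
  · exact absurd ⟨0, x, by simp⟩ hn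
  · obtain ⟨a, b, hab⟩ := not_not.1 (hmin n (Nat.lt_succ_self n))
    refine ⟨n, b, a, ?_, hab⟩
    by_contra hb
    have hb' : b ∈ m := (IsLocalRing.mem_maximalIdeal b).2 hb
    obtain ⟨c, d, rfl⟩ := hm b hb'
    apply hn
    refine ⟨a + c * t ^ n, d, ?_⟩
    rw [hab]
    ring

/-- `s` is a prime element -/
private theorem vert_prime {R : Type} [CommRing R] [IsDomain R] [IsLocalRing R]
    [IsNoetherianRing R] (s t : R) (hs0 : s ≠ 0)
    (hs : s ∈ IsLocalRing.maximalIdeal R)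
    (hm : ∀ x ∈ IsLocalRing.maximalIdeal R, ∃ a b, x = a * s + b * t)
    (ht : t ∈ IsLocalRing.maximalIdeal R) (hreg : ∀ b, s ∣ b * t → s ∣ b) : Prime s := by
  refine ⟨hs0, (IsLocalRing.mem_maximalIdeal s).1 hs, ?_⟩
  intro x y hxy
  by_contra hcon
  push Not at hcon
  obtain ⟨n, u, c, hu, rfl⟩ := vert_ord s t hm ht hcon.1
  obtain ⟨k, v, d, hv, rfl⟩ := vert_ord s t hm ht hcon.2
  have h1 : s ∣ (u * v) * t ^ (n + k) := by
    have h2 : (u * v) * t ^ (n + k) = (c * s + u * t ^ n) * (d * s + v * t ^ k) -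
        s * (c * (d * s + v * t ^ k) + u * t ^ n * d) := by ring
    rw [h2]
    exact dvd_sub hxy (dvd_mul_right _ _)
  have h3 : ∀ j (z : R), s ∣ z * t ^ j → s ∣ z := by
    intro j
    induction j with
    | zero => intro z hz; rwa [pow_zero, mul_one] at hz
    | succ j ih =>
      intro z hz
      rw [pow_succ, ← mul_assoc] at hz
      exact ih z (hreg _ hz)
  have h4 := h3 _ _ h1
  exact (IsLocalRing.mem_maximalIdeal s).1 hs (isUnit_of_dvd_unit h4 (hu.mul hv))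

/-- divisors of products of powers of two prime elements -/
private theorem vert_dvd {R : Type} [CommRing R] [IsDomain R] {s t : R} (hs : Prime s)
    (ht : Prime t) (n : ℕ) : ∀ (x y : ℕ), x + y = n → ∀ (ε g c : R), IsUnit ε →
    ε * s ^ x * t ^ y = g * c → ∃ (ε' : R) (a b : ℕ), IsUnit ε' ∧ g = ε' * s ^ a * t ^ b := by
  induction n with
  | zero =>
    intro x y hxy ε g c hε h
    have hx : x = 0 := by omega
    have hy : y = 0 := by omega
    subst hx hy
    rw [pow_zero, pow_zero, mul_one, mul_one] at h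
    exact ⟨g, 0, 0, isUnit_of_mul_isUnit_left (h ▸ hε), by simp⟩
  | succ n ih =>
    intro x y hxy ε g c hε h
    rcases x with _ | x
    · rcases y with _ | y
      · omega
      · have h1 : t ∣ g * c := ⟨ε * s ^ 0 * t ^ y, by rw [← h]; ring⟩
        rcases ht.dvd_or_dvd h1 with ⟨g', rfl⟩ | ⟨c', rfl⟩
        · obtain ⟨ε', a, b, h2, h3⟩ := ih 0 y (by omega) ε g' c hε
            (mul_left_cancel₀ ht.ne_zero (by rw [← mul_assoc t g' c, ← h]; ring))
          exact ⟨ε', a, b + 1, h2, by rw [h3]; ring⟩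
        · exact ih 0 y (by omega) ε g c' hε
            (mul_left_cancel₀ ht.ne_zero (by rw [mul_left_comm t g c', ← h]; ring))
    · have h1 : s ∣ g * c := ⟨ε * s ^ x * t ^ y, by rw [← h]; ring⟩
      rcases hs.dvd_or_dvd h1 with ⟨g', rfl⟩ | ⟨c', rfl⟩
      · obtain ⟨ε', a, b, h2, h3⟩ := ih x y (by omega) ε g' c hε
          (mul_left_cancel₀ hs.ne_zero (by rw [← mul_assoc s g' c, ← h]; ring))
        exact ⟨ε', a + 1, b, h2, by rw [h3]; ring⟩
      · exact ih x y (by omega) ε g c' hε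
          (mul_left_cancel₀ hs.ne_zero (by rw [mul_left_comm s g c', ← h]; ring))

private theorem vert_mx (h : P2 B s t) : ∀ x : B, x ∈ @IsLocalRing.maximalIdeal B _ h.loc →
    ∃ a b : B, x = a * ⟨s, h.hs.1⟩ + b * ⟨t, h.ht.1⟩ := by
  have := h.loc
  intro x hx
  obtain ⟨a, ha, b, hb, hab⟩ := h.gen x.1 ((mem_mx_iff x).2 hx)
  exact ⟨⟨a, ha⟩, ⟨b, hb⟩, Subtype.ext hab⟩

private theorem vert_P2 (h : P2 B s t) : Prime (⟨s, h.hs.1⟩ : B) := by
  have := h.loc
  have := h.noeth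
  refine vert_prime _ ⟨t, h.ht.1⟩ (fun h0 => h.s0 (congrArg Subtype.val h0))
    ((mem_mx_iff _).1 h.hs) (vert_mx h) ((mem_mx_iff _).1 h.ht) ?_
  rintro b ⟨c, hc⟩
  have h1 : (c : K0) * s = b * t := by
    have h2 := congrArg Subtype.val hc
    have h3 : (b : K0) * t = s * c := h2
    rw [h3, mul_comm]
  obtain ⟨d, hd, -, h4⟩ := h.reg c c.2 b b.2 h1
  exact ⟨⟨d, hd⟩, Subtype.ext (by rw [h4, mul_comm]; rfl)⟩

private theorem vert_ndvd (h : P2 B s t) : ¬ (⟨s, h.hs.1⟩ : B) ∣ ⟨t, h.ht.1⟩ := by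
  rintro ⟨c, hc⟩
  have h1 : (c : K0) * s = 1 * t := by
    have h2 := congrArg Subtype.val hc
    have h3 : t = s * c := h2
    rw [one_mul, h3, mul_comm]
  obtain ⟨d, hd, -, h4⟩ := h.reg c c.2 1 B.one_mem h1
  have h5 := h.hs.2
  rcases h5 with h5 | h5
  · exact h.s0 h5
  · apply h5
    rw [← eq_inv_of_mul_eq_one_left h4.symm]
    exact hd

/-- Proof. `g = w / M^2` divides a power of `p = ε s^a t^b` (every prime ideal which contains `g` contains `p`: radical). `s` and `t` are prime elements of `B` (`reg`, `mp_krull`), so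
`g = ε' s^a' t^b'`, `a' ≤ 1` if `a ≥ 1` and `a' = 0` if `a = 0` (`nc`), same for `b'`; and `g ∈ mp B 2` gives `a' = b' = 1` (`P2.indep`). -/
theorem vert_form (nd : Nd B0 D p w i B E M s t) (hp : (p : K0) ∈ mx B) (hp0 : (p : K0) ≠ 0)
    (hw0 : w ≠ 0) (hg : w / M ^ 2 ∈ mp B 2)
    (hno : ∀ Q : Ideal B, Q.IsPrime → (⟨w / M ^ 2, nd.wM⟩ : B) ∈ Q → (p : B) ∈ Q) :
    ∃ ε ∈ B, ε⁻¹ ∈ B ∧ w / M ^ 2 = ε * s * t := by
  have h := nd.par
  have := h.loc
  have := h.noeth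
  let s' : B := ⟨s, h.hs.1⟩
  let t' : B := ⟨t, h.ht.1⟩
  let gB : B := ⟨w / M ^ 2, nd.wM⟩
  have hs : Prime s' := vert_P2 h
  have ht : Prime t' := vert_P2 h.swap
  obtain ⟨ε0, a, b, hε0, hε0', hpe, ha, hb⟩ := nd.nc
  have hε0ne : ε0 ≠ 0 := by
    rintro rfl
    apply hp0
    rw [hpe, zero_mul, zero_mul]
  let εB : B := ⟨ε0, hε0⟩
  have hεu : IsUnit εB := (NH.LOC_isUnit_iff B εB).2 ⟨hε0ne, hε0'⟩
  have hpB : ((p : ℕ) : B) = εB * s' ^ a * t' ^ b := by
    apply Subtype.ext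
    show ((p : B) : K0) = ε0 * s ^ a * t ^ b
    rw [← hpe]
    push_cast
    rfl
  obtain ⟨N, c, hc⟩ : ∃ N, gB ∣ (p : B) ^ N := by
    have h1 : (p : B) ∈ (Ideal.span {gB}).radical := by
      rw [Ideal.radical_eq_sInf, Submodule.mem_sInf]
      rintro Q ⟨hQ1, hQ2⟩
      exact hno Q hQ2 (hQ1 (Ideal.mem_span_singleton_self _))
    obtain ⟨N, hN⟩ := h1
    exact ⟨N, Ideal.mem_span_singleton.1 hN⟩
  have hc' : εB ^ N * s' ^ (a * N) * t' ^ (b * N) = gB * c := by
    rw [← hc, hpB, mul_pow, mul_pow, pow_mul, pow_mul]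
  obtain ⟨ε', a', b', hε', hg'⟩ := vert_dvd hs ht _ (a * N) (b * N) rfl (εB ^ N) gB c
    (hεu.pow N) hc'
  have hgK : w / M ^ 2 = (ε' : K0) * s ^ a' * t ^ b' := congrArg Subtype.val hg'
  obtain ⟨hε'0, hε'i⟩ := (NH.LOC_isUnit_iff B ε').1 hε'
  have ha' : a' ≤ 1 := by
    by_contra hcon
    obtain ⟨k, rfl⟩ : ∃ k, a' = k + 2 := ⟨a' - 2, by omega⟩
    rcases Nat.eq_zero_or_pos a with ha0 | ha0
    · have h1 : s' ∣ (εB ^ N * t' ^ (b * N)) := by
        have h2 : s' ∣ gB * c := by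
          rw [hg']
          exact ⟨ε' * s' ^ (k + 1) * t' ^ b' * c, by ring⟩
        rw [← hc', ha0, zero_mul, pow_zero, mul_one] at h2
        exact h2
      rcases hs.dvd_or_dvd h1 with h2 | h2
      · exact hs.not_isUnit (isUnit_of_dvd_unit h2 (hεu.pow N))
      · exact vert_ndvd h (hs.dvd_of_dvd_pow h2)
    · apply ha ha0
      have h1 : w / M ^ 2 / s ^ 2 = ε' * s ^ k * t ^ b' := by
        rw [hgK, div_eq_iff (pow_ne_zero 2 h.s0)]
        ring
      rw [h1]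
      exact B.mul_mem (B.mul_mem ε'.2 (B.pow_mem h.hs.1 k)) (B.pow_mem h.ht.1 b')
  have hb' : b' ≤ 1 := by
    by_contra hcon
    obtain ⟨k, rfl⟩ : ∃ k, b' = k + 2 := ⟨b' - 2, by omega⟩
    rcases Nat.eq_zero_or_pos b with hb0 | hb0
    · have h1 : t' ∣ (εB ^ N * s' ^ (a * N)) := by
        have h2 : t' ∣ gB * c := by
          rw [hg']
          exact ⟨ε' * s' ^ a' * t' ^ (k + 1) * c, by ring⟩
        rw [← hc', hb0, zero_mul, pow_zero, mul_one] at h2
        exact h2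
      rcases ht.dvd_or_dvd h1 with h2 | h2
      · exact ht.not_isUnit (isUnit_of_dvd_unit h2 (hεu.pow N))
      · exact vert_ndvd h.swap (ht.dvd_of_dvd_pow h2)
    · apply hb hb0
      have h1 : w / M ^ 2 / t ^ 2 = ε' * s ^ a' * t ^ k := by
        rw [hgK, div_eq_iff (pow_ne_zero 2 h.t0)]
        ring
      rw [h1]
      exact B.mul_mem (B.mul_mem ε'.2 (B.pow_mem h.hs.1 a')) (B.pow_mem h.ht.1 k)
  refine ⟨ε', ε'.2, hε'i, ?_⟩
  have ha2 : a' = 0 ∨ a' = 1 := by omega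
  have hb2 : b' = 0 ∨ b' = 1 := by omega
  have key : ∀ x : K0, w / M ^ 2 = ε' * x → x ∈ mp B 2 := by
    intro x hx
    have h1 : x = (ε' : K0)⁻¹ * (w / M ^ 2) := by
      rw [hx, ← mul_assoc, inv_mul_cancel₀ hε'0, one_mul]
    rw [h1]
    exact mp_smul hε'i hg
  rcases ha2 with rfl | rfl <;> rcases hb2 with rfl | rfl
  · exfalso
    have h1 : (w / M ^ 2) ∈ mx B := mp_one_iff.1 (mp_anti (by norm_num) hg)
    rw [hgK, pow_zero, pow_zero, mul_one, mul_one] at h1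
    exact (notMem_mx_iff ε'.2).2 ⟨hε'0, hε'i⟩ h1
  · exfalso
    exact h.swap.not_sq (key t (by rw [hgK, pow_zero, pow_one, mul_one]))
  · exfalso
    exact h.not_sq (key s (by rw [hgK, pow_zero, pow_one, mul_one]))
  · rw [hgK, pow_one, pow_one]

/-- Proof. `g / s^2 = ε (t / s)`; a unit, or `P2 B' s (t/s)` and `P2.not_sq`. Generic point: `B'` a discrete valuation ring: `t / s` is then a unit or... (`t / s ∈ mx B'` implies `P2 B' s (t / s)`). -/
theorem vert_child (h : P2 B s t) (q : QT B s t B') {ε g : K0} (hε : ε ∈ B) (hε' : ε⁻¹ ∈ B)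
    (hg0 : g ≠ 0) (hg : g = ε * s * t) : g / s ^ 2 ∉ mp B' 2 := by
  intro hmem
  have := q.loc
  have hε0 : ε ≠ 0 := by
    rintro rfl
    exact hg0 (by rw [hg, zero_mul, zero_mul])
  have h1 : t / s = ε⁻¹ * (g / s ^ 2) := by
    rw [hg]
    have := h.s0
    field_simp
  have h2 : t / s ∈ mp B' 2 := by
    rw [h1]
    exact mp_smul (q.le hε') hmem
  have h3 : t / s ∈ mx B' := mp_one_iff.1 (mp_anti (by norm_num) h2)
  exact (qt_corner h q h3).swap.not_sq h2

end Pool.Agent.EvM
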