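import Pool.Agent.EvM.EmKid
import Pool.Agent.EvM.EmPt
import Pool.Agent.EvM.EmRes
import Pool.Agent.EvM.EmVert
import Pool.Agent.EvM.EmDep

set_option autoImplicit false

/-! # Resolution of the nodes -/

namespace Pool.Agent.EvM

open MvPolynomial Pool.Agent.NT9

variable {σ : Type} [Fintype σ] [DecidableEq σ] {K0 K : Type} [Field K0] [Field K]
  {B0 B : Subring K0} {θ : MvPolynomial σ ℤ →+* K} {j : K0 →+* K} {f t : MvPolynomial σ ℤ}
  {T lam : K0} {X : σ → K0} {Pm : σ → σ → K0} {qv r : σ → K0} {D : Derivation ℤ K0 K0}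
  {p : ℕ} {P0 : K0} {L κ Dd : ℕ}

/-- The data at the point of the model. -/
structure Ctx (B0 : Subring K0) (θ : MvPolynomial σ ℤ →+* K) (j : K0 →+* K)
    (f t : MvPolynomial σ ℤ) (T : K0) (X : σ → K0) (lam : K0) (Pm : σ → σ → K0)
    (qv r : σ → K0) (D : Derivation ℤ K0 K0) (p : ℕ) (P0 : K0) (L κ Dd : ℕ) : Prop where
  cd : CD B0 θ j f t T X lam Pm qv r
  par : P2 B0 p P0
  star : Star B0 D (wv f t T lam X) L
  kap : Kap B0 p (wv f t T lam X) κ
  hDd : κ ^ L < 2 ^ (Dd + 1)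
  hd0 : d0 t T X ∈ mp B0 (L + Dd + 3)
  hds : ∀ s, ds f t lam X s ∈ mp B0 (L + Dd + 3)
  w0 : wv f t T lam X ≠ 0

private theorem node_aeval {τ : Type} (B : Subring K0) {x : τ → K0} (hx : ∀ s, x s ∈ B)
    (g : MvPolynomial τ ℤ) : aeval x g ∈ B := by
  induction g using MvPolynomial.induction_on with
  | C n =>
    rw [aeval_C]
    exact intCast_mem B n
  | add p q hp hq =>
    rw [map_add]
    exact add_mem hp hq
  | mul_X p i hp =>
    rw [map_mul, aeval_X]
    exact mul_mem hp (hx i)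

private theorem node_M {w : K0} {i : ℕ} {E M s u : K0} (nd : Nd B0 D p w i B E M s u) :
    M ∈ B := by
  have h2 : M = M / E * E := by
    rw [div_mul_cancel₀ _ nd.E0]
  rw [h2]
  exact mul_mem nd.EM nd.EB

/-- A node without horizontal component: all points of the blow up with `k = 1` are regular. Proof. `vert_form`; `point_step` with `k = 1`, and `vert_child` in both charts;
`res_of_blow` with `S = ∅`, `gq_primary`, `sg_finres`. `d0 / M ∈ mp B 2`: `kid_small` with `k = 1`. -/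
theorem res_vert (c : Ctx B0 θ j f t T X lam Pm qv r D p P0 L κ Dd) {i : ℕ} {E M s u : K0}
    (hi : i ≤ Dd + 1) (nd : Nd B0 D p (wv f t T lam X) i B E M s u) {O : Subring K}
    [IsLocalRing O] (sg : Sg θ j X B M O) (hg : wv f t T lam X / M ^ 2 ∈ mp B 2)
    (hno : ∀ Q : Ideal B, Q.IsPrime → (⟨wv f t T lam X / M ^ 2, nd.wM⟩ : B) ∈ Q →
      (p : B) ∈ Q) : Res O := by
  have hlocB : IsLocalRing B := nd.par.loc
  have hlocB0 : IsLocalRing B0 := c.par.loc
  have hp : (p : K0) ∈ mx B := nd.dom _ c.par.hs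
  obtain ⟨ε, hε, hε', hgε⟩ := vert_form nd hp c.par.s0 c.w0 hg hno
  have hg0 : wv f t T lam X / M ^ 2 ≠ 0 := div_ne_zero c.w0 (pow_ne_zero _ nd.M0)
  obtain ⟨hgm, hN⟩ := gq_primary sg nd.par (k := 1) le_rfl
  refine res_of_blow (sg_finres sg nd.fin) hgm hN Set.finite_empty
    (fun O' hO' => absurd hO' (Set.notMem_empty O')) ?_
  intro O' hloc hbl
  left
  have hNN : L + i + 2 ≤ L + Dd + 3 := by omega
  have hg2 : wv f t T lam X / M ^ 2 ∈ mp B (2 * 1) := hg
  rcases point_step c.cd nd.le nd.par (node_M nd) nd.M0 sg (k := 1) le_rfl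
    (kid_small nd c.star le_rfl hg2 hNN c.hd0)
    (fun s' => kid_small nd c.star le_rfl hg2 hNN (c.hds s')) hg2 hloc hbl with
    h1 | ⟨e, e', he, B', q, hc, -⟩
  · exact h1
  · exfalso
    rw [mul_pow, pow_one, ← div_div] at hc
    rcases he with ⟨rfl, rfl⟩ | ⟨rfl, rfl⟩
    · exact vert_child nd.par q hε hε' hg0 hgε hc
    · exact vert_child nd.par.swap q hε hε' hg0 (by rw [hgε]; ring) hc

/-- Proof. `res_of_blow` with `S = Kids ..`, `gq_primary`, `sg_finres`, `point_step`, `kids_fin`; `d0 / M ∈ mp B (k + 1)`: `kid_small`. -/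
theorem res_kids (c : Ctx B0 θ j f t T X lam Pm qv r D p P0 L κ Dd) {i : ℕ} {E M s u : K0}
    (hi : i ≤ Dd + 1) (nd : Nd B0 D p (wv f t T lam X) i B E M s u) {O : Subring K}
    [IsLocalRing O] (sg : Sg θ j X B M O) {k : ℕ} (hk : 1 ≤ k)
    (hg : wv f t T lam X / M ^ 2 ∈ mp B (2 * k))
    (hg' : wv f t T lam X / M ^ 2 ∉ mp B (2 * k + 2))
    (hres : ∀ O' ∈ Kids θ j X B s u M (wv f t T lam X) k, Res O') : Res O := by
  have hlocB : IsLocalRing B := nd.par.loc
  have hlocB0 : IsLocalRing B0 := c.par.loc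
  obtain ⟨hgm, hN⟩ := gq_primary sg nd.par hk
  refine res_of_blow (sg_finres sg nd.fin) hgm hN (kids_fin nd.par hg hg') hres ?_
  intro O' hloc hbl
  have hNN : L + i + 2 ≤ L + Dd + 3 := by omega
  rcases point_step c.cd nd.le nd.par (node_M nd) nd.M0 sg hk
    (kid_small nd c.star hk hg hNN c.hd0)
    (fun s' => kid_small nd c.star hk hg hNN (c.hds s')) hg hloc hbl with
    h1 | ⟨e, e', he, B', q, hc, hsg⟩
  · exact Or.inl h1
  · exact Or.inr ⟨hloc, e, e', he, B', q, hc, hsg⟩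

/-- Proof. Induction on `r'`, all other data general. If there is no horizontal prime ideal: `res_vert`. Otherwise `2 ^ i ≤ κ ^ L` (`depth`), so `i < Dd + 1` and `r' = r'' + 1`. `exists_k`, `res_kids`; a child is a
node with `i + 1` (`kid_nd`), induction hypothesis. -/
theorem node_res (c : Ctx B0 θ j f t T X lam Pm qv r D p P0 L κ Dd) (r' : ℕ) :
    ∀ (i : ℕ) (B : Subring K0) (E M s u : K0) (O : Subring K), i + r' = Dd + 1 →
      Nd B0 D p (wv f t T lam X) i B E M s u → IsLocalRing O → Sg θ j X B M O →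
        wv f t T lam X / M ^ 2 ∈ mp B 2 → Res O := by
  have hwB : wv f t T lam X ∈ B0 := by
    unfold wv
    exact sub_mem (node_aeval B0 c.cd.XB f)
      (mul_mem c.cd.lamB (sub_mem (node_aeval B0 c.cd.XB t) c.cd.TB))
  have hdep : ∀ {i : ℕ} {B : Subring K0} {E M s u : K0}
      (nd : Nd B0 D p (wv f t T lam X) i B E M s u),
      ¬ (∀ Q : Ideal B, Q.IsPrime → (⟨wv f t T lam X / M ^ 2, nd.wM⟩ : B) ∈ Q →
      (p : B) ∈ Q) → i < Dd + 1 := by
    intro i B E M s u nd hno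
    push Not at hno
    obtain ⟨Q, hQ, hgQ, hpQ⟩ := hno
    have h1 := depth nd c.par c.w0 hwB c.star c.kap Q hQ hgQ hpQ
    exact (Nat.pow_lt_pow_iff_right (by norm_num : 1 < 2)).1 (lt_of_le_of_lt h1 c.hDd)
  induction r' with
  | zero =>
    intro i B E M s u O hir nd hO sg hg
    by_cases hno : ∀ Q : Ideal B, Q.IsPrime → (⟨wv f t T lam X / M ^ 2, nd.wM⟩ : B) ∈ Q →
      (p : B) ∈ Q
    · exact res_vert c (by omega) nd sg hg hno
    · have := hdep nd hno
      omega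
  | succ r' ih =>
    intro i B E M s u O hir nd hO sg hg
    by_cases hno : ∀ Q : Ideal B, Q.IsPrime → (⟨wv f t T lam X / M ^ 2, nd.wM⟩ : B) ∈ Q →
      (p : B) ∈ Q
    · exact res_vert c (by omega) nd sg hg hno
    · have hp : (p : K0) ∈ mx B := nd.dom _ c.par.hs
      obtain ⟨k, hk, hk1, hk2⟩ := exists_k nd.par hg
        (div_ne_zero c.w0 (pow_ne_zero _ nd.M0))
      refine res_kids c (by omega) nd sg hk hk1 hk2 ?_
      rintro O' ⟨hloc, e, e', he, B', q, hc, hsg⟩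
      obtain ⟨E', t', nd'⟩ := kid_nd nd hp hk hk1 hk2 he q hc
      exact ih (i + 1) B' E' (M * e ^ k) e t' O' (by omega) nd' hloc hsg hc

end Pool.Agent.EvM
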