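import Pool.Agent.EvM.EmDefs
import Pool.Agent.EvM.EmK0
import Pool.Agent.NT9.GeSing

set_option autoImplicit false

/-! # The local ring B0: definitions, the polynomial P0 -/

namespace Pool.Agent.EvM

open MvPolynomial Pool.Agent.NT9

variable {σ : Type} [Fintype σ] [DecidableEq σ] {K0 : Type} [Field K0]

/-- `B0` is the localisation of `ℤ[T]` at the preimage of `M` under `T ↦ t`. -/
def IsBM (t : MvPolynomial σ ℤ) (M : Ideal (MvPolynomial σ ℤ)) (T : K0) (B0 : Subring K0) :
    Prop :=
  ∀ x : K0, x ∈ B0 ↔ ∃ u v : Polynomial ℤ, Polynomial.aeval t v ∉ M ∧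
    x * Polynomial.aeval T v = Polynomial.aeval T u

/-- The preimage of `M` is generated by `p` and `P0`. -/
structure PG (t : MvPolynomial σ ℤ) (M : Ideal (MvPolynomial σ ℤ)) (p : ℕ) (P0 : Polynomial ℤ) :
    Prop where
  mon : P0.Monic
  mem : Polynomial.aeval t P0 ∈ M
  gen : ∀ g : Polynomial ℤ, Polynomial.aeval t g ∈ M → ∃ a b : Polynomial ℤ,
    g = a * Polynomial.C (p : ℤ) + b * P0

variable {t : MvPolynomial σ ℤ} {M : Ideal (MvPolynomial σ ℤ)} {T : K0} {B0 : Subring K0}
  {D : Derivation ℤ K0 K0} {p : ℕ} {P0 : Polynomial ℤ}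

/-- Proof. `k = ℤ[x] / M` is a finite field (`NT9.finite_quot`) of characteristic `p`; `P0` is a monic lift of the minimal polynomial over `ZMod p` of the class of `t`. (Or: the image in
`(ZMod p)[X]` of the preimage of `M` is a principal ideal, not zero as it contains `X ^ q - X`.) -/
theorem exists_P0 [M.IsMaximal] (hp : p.Prime) (hpM : (C (p : ℤ) : MvPolynomial σ ℤ) ∈ M)
    (t : MvPolynomial σ ℤ) : ∃ P0, PG t M p P0 := by
  classical
  have hfin := finite_quot hp hpM
  have : Fact p.Prime := ⟨hp⟩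
  let _ : Field (MvPolynomial σ ℤ ⧸ M) := Ideal.Quotient.field M
  have hzero : ((p : ℕ) : MvPolynomial σ ℤ ⧸ M) = 0 := by
    have h := Ideal.Quotient.eq_zero_iff_mem.2 hpM
    simpa using h
  have hchar : CharP (MvPolynomial σ ℤ ⧸ M) p := (CharP.charP_iff_prime_eq_zero hp).2 hzero
  let _ : Algebra (ZMod p) (MvPolynomial σ ℤ ⧸ M) := ZMod.algebra _ p
  let a : MvPolynomial σ ℤ ⧸ M := Ideal.Quotient.mk M t
  have hev : ∀ g : Polynomial ℤ, Ideal.Quotient.mk M (Polynomial.aeval t g) =
      Polynomial.aeval a (g.map (Int.castRingHom (ZMod p))) := by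
    intro g
    rw [Polynomial.aeval_def, Polynomial.hom_eval₂, Polynomial.aeval_def, Polynomial.eval₂_map]
    congr 1
    exact RingHom.ext_int _ _
  have hint : IsIntegral (ZMod p) a := Algebra.IsIntegral.isIntegral a
  have hsur : Function.Surjective (Int.castRingHom (ZMod p)) := ZMod.ringHom_surjective _
  obtain ⟨P0, h1, _, h3⟩ := Polynomial.lifts_and_natDegree_eq_and_monic
    (f := Int.castRingHom (ZMod p)) (p := minpoly (ZMod p) a)
    (by
      rw [Polynomial.mem_lifts]
      exact Polynomial.map_surjective _ hsur _) (minpoly.monic hint)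
  refine ⟨P0, h3, ?_, ?_⟩
  · rw [← Ideal.Quotient.eq_zero_iff_mem, hev, h1, minpoly.aeval]
  · intro g hg
    rw [← Ideal.Quotient.eq_zero_iff_mem, hev] at hg
    obtain ⟨c, hc⟩ := minpoly.dvd _ _ hg
    obtain ⟨b, rfl⟩ := Polynomial.map_surjective _ hsur c
    have h4 : (g - P0 * b).map (Int.castRingHom (ZMod p)) = 0 := by
      rw [Polynomial.map_sub, Polynomial.map_mul, hc, h1, sub_self]
    have h5 : Polynomial.C (p : ℤ) ∣ g - P0 * b := by
      rw [Polynomial.C_dvd_iff_dvd_coeff]
      intro i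
      have h6 := congrArg (fun q => Polynomial.coeff q i) h4
      simp only [Polynomial.coeff_map, Polynomial.coeff_zero, eq_intCast] at h6
      exact (ZMod.intCast_zmod_eq_zero_iff_dvd _ _).1 h6
    obtain ⟨e, he⟩ := h5
    exact ⟨e, b, by linear_combination he⟩

end Pool.Agent.EvM
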