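import Pool.Agent.EvM.EmPowI

set_option autoImplicit false

/-! # regular local rings of dimension 2 -/

namespace Pool.Agent.EvM

open Pool.Agent.NT9

variable {K0 : Type} [Field K0] {B : Subring K0} {s t : K0}

theorem P2.swap (h : P2 B s t) : P2 B t s where
  loc := h.loc
  noeth := h.noeth
  s0 := h.t0
  t0 := h.s0
  hs := h.ht
  ht := h.hs
  gen := fun x hx => by
    obtain ⟨a, ha, b, hb, rfl⟩ := h.gen x hx
    exact ⟨b, hb, a, ha, add_comm _ _⟩
  reg := fun a ha b hb hab => by
    obtain ⟨c, hc, h1, h2⟩ := h.reg b hb a ha hab.symm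
    exact ⟨c, hc, h2, h1⟩

private theorem pow_mem_mp' [IsLocalRing B] {x : K0} (hx : x ∈ mx B) (n : ℕ) : x ^ n ∈ mp B n := by
  have h1 := mp_prod (n := n) (fun _ => x) (fun _ => hx)
  rwa [Finset.prod_const, Finset.card_univ, Fintype.card_fin] at h1

private theorem sum_s (c : ℕ → K0) (s t : K0) (n : ℕ) :
    s * ∑ i ∈ Finset.range (n + 1), c i * s ^ i * t ^ (n - i) =
      ∑ i ∈ Finset.range (n + 1 + 1), (if i = 0 then 0 else c (i - 1)) * s ^ i * t ^ (n + 1 - i) := by
  rw [Finset.sum_range_succ' _ (n + 1), Finset.mul_sum]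
  simp only [Nat.succ_ne_zero, if_false, if_true, zero_mul, add_zero, Nat.add_sub_cancel,
    Nat.add_sub_add_right]
  refine Finset.sum_congr rfl fun i _ => ?_
  ring

private theorem sum_t (c : ℕ → K0) (s t : K0) (n : ℕ) :
    t * ∑ i ∈ Finset.range (n + 1), c i * s ^ i * t ^ (n - i) =
      ∑ i ∈ Finset.range (n + 1), c i * s ^ i * t ^ (n + 1 - i) := by
  rw [Finset.mul_sum]
  refine Finset.sum_congr rfl fun i hi => ?_
  rw [Nat.succ_sub (Nat.lt_succ_iff.1 (Finset.mem_range.1 hi)), pow_succ]
  ring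

/-- Induction on `n`; `P2.gen`. -/
theorem P2.mem_mp (h : P2 B s t) {n : ℕ} {x : K0} : x ∈ mp B n ↔
    ∃ c : ℕ → K0, (∀ i, c i ∈ B) ∧ x = ∑ i ∈ Finset.range (n + 1), c i * s ^ i * t ^ (n - i) := by
  have := h.loc
  constructor
  · intro hx
    induction n generalizing x with
    | zero =>
      refine ⟨fun _ => x, fun _ => hx, ?_⟩
      rw [zero_add, Finset.sum_range_one, pow_zero, Nat.sub_zero, pow_zero, mul_one, mul_one]
    | succ n ih =>
      refine AddSubgroup.closure_induction (p := fun x _ => ∃ c : ℕ → K0, (∀ i, c i ∈ B) ∧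
        x = ∑ i ∈ Finset.range (n + 1 + 1), c i * s ^ i * t ^ (n + 1 - i)) ?_ ?_ ?_ ?_ hx
      · rintro _ ⟨u, hu, v, hv, rfl⟩
        obtain ⟨a, ha, b, hb, rfl⟩ := h.gen u hu
        obtain ⟨c, hc, hcv⟩ := ih hv
        refine ⟨fun i => a * (if i = 0 then 0 else c (i - 1)) + b * (if i ≤ n then c i else 0),
          fun i => ?_, ?_⟩
        · refine B.add_mem (B.mul_mem ha ?_) (B.mul_mem hb ?_)
          · split_ifs
            · exact B.zero_mem
            · exact hc _
          · split_ifs
            · exact hc _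
            · exact B.zero_mem
        · rw [add_mul, mul_assoc a s v, mul_assoc b t v, hcv, sum_s, sum_t]
          have h1 : ∑ i ∈ Finset.range (n + 1), c i * s ^ i * t ^ (n + 1 - i) =
              ∑ i ∈ Finset.range (n + 1 + 1), (if i ≤ n then c i else 0) * s ^ i * t ^ (n + 1 - i) := by
            rw [Finset.sum_range_succ _ (n + 1), if_neg (by omega), zero_mul, zero_mul, add_zero]
            refine Finset.sum_congr rfl fun i hi => ?_
            rw [if_pos (Nat.lt_succ_iff.1 (Finset.mem_range.1 hi))]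
          rw [h1, Finset.mul_sum, Finset.mul_sum, ← Finset.sum_add_distrib]
          refine Finset.sum_congr rfl fun i _ => ?_
          ring
      · refine ⟨fun _ => 0, fun _ => B.zero_mem, ?_⟩
        simp only [zero_mul, Finset.sum_const_zero]
      · rintro x y _ _ ⟨c, hc, h1⟩ ⟨d, hd, h2⟩
        refine ⟨fun i => c i + d i, fun i => B.add_mem (hc i) (hd i), ?_⟩
        rw [h1, h2, ← Finset.sum_add_distrib]
        refine Finset.sum_congr rfl fun i _ => ?_
        ring
      · rintro x _ ⟨c, hc, h1⟩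
        refine ⟨fun i => -c i, fun i => B.neg_mem (hc i), ?_⟩
        rw [h1, ← Finset.sum_neg_distrib]
        refine Finset.sum_congr rfl fun i _ => ?_
        ring
  · rintro ⟨c, hc, rfl⟩
    refine AddSubgroup.sum_mem _ fun i hi => ?_
    have h1 := mp_mul (mp_smul (hc i) (pow_mem_mp' h.hs i)) (pow_mem_mp' h.ht (n - i))
    rwa [Nat.add_sub_cancel' (Nat.lt_succ_iff.1 (Finset.mem_range.1 hi))] at h1

private theorem P2.div_pow (h : P2 B s t) (k : ℕ) {c y : K0} (hc : c ∈ B) (hy : y ∈ B)
    (hcy : c * s ^ k = y * t) : ∃ b ∈ B, c = b * t ∧ y = b * s ^ k := by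
  induction k generalizing y with
  | zero =>
    refine ⟨y, hy, ?_, ?_⟩
    · rw [← hcy, pow_zero, mul_one]
    · rw [pow_zero, mul_one]
  | succ k ih =>
    have h1 : c * s ^ k * s = y * t := by rw [← hcy, pow_succ, mul_assoc]
    obtain ⟨d, hd, h2, h3⟩ := h.reg _ (B.mul_mem hc (B.pow_mem (mx_le h.hs) k)) y hy h1
    obtain ⟨b, hb, h4, h5⟩ := ih hd h2
    exact ⟨b, hb, h4, by rw [h3, h5, pow_succ, mul_assoc]⟩

private theorem P2.indep0 (h : P2 B s t) (n : ℕ) : ∀ c : ℕ → K0, (∀ i, c i ∈ B) →
    ∑ i ∈ Finset.range (n + 1), c i * s ^ i * t ^ (n - i) = 0 → ∀ i, i ≤ n → c i ∈ mx B := by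
  have := h.loc
  induction n with
  | zero =>
    intro c hc hx i hi
    rw [zero_add, Finset.sum_range_one, pow_zero, Nat.sub_zero, pow_zero, mul_one, mul_one] at hx
    rw [Nat.le_zero.1 hi, hx]
    exact zero_mem_mx
  | succ n ih =>
    intro c hc hx
    have hBn : ∀ (c : ℕ → K0), (∀ i, c i ∈ B) →
        ∑ i ∈ Finset.range (n + 1), c i * s ^ i * t ^ (n - i) ∈ B := fun c hc =>
      B.sum_mem fun i _ => B.mul_mem (B.mul_mem (hc i) (B.pow_mem (mx_le h.hs) i))
        (B.pow_mem (mx_le h.ht) _)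
    rw [Finset.sum_range_succ, ← sum_t, Nat.sub_self, pow_zero, mul_one] at hx
    have h1 : c (n + 1) * s ^ (n + 1) =
        (-∑ i ∈ Finset.range (n + 1), c i * s ^ i * t ^ (n - i)) * t := by
      linear_combination hx
    obtain ⟨b, hb, h2, h3⟩ := h.div_pow (n + 1) (hc (n + 1)) (B.neg_mem (hBn c hc)) h1
    have h4 := ih (fun i => c i + (if i = n then b * s else 0)) (fun i => by
      refine B.add_mem (hc i) ?_
      split_ifs
      · exact B.mul_mem hb (mx_le h.hs)
      · exact B.zero_mem) (by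
      have h5 : ∑ i ∈ Finset.range (n + 1), (c i + (if i = n then b * s else 0)) * s ^ i *
          t ^ (n - i) = ∑ i ∈ Finset.range (n + 1), c i * s ^ i * t ^ (n - i) + b * s ^ (n + 1) := by
        rw [Finset.sum_range_succ, Finset.sum_range_succ, if_pos rfl, Nat.sub_self, pow_zero]
        have h6 : ∑ i ∈ Finset.range n, (c i + (if i = n then b * s else 0)) * s ^ i *
            t ^ (n - i) = ∑ i ∈ Finset.range n, c i * s ^ i * t ^ (n - i) := by
          refine Finset.sum_congr rfl fun i hi => ?_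
          rw [if_neg (Finset.mem_range.1 hi).ne, add_zero]
        rw [h6]
        ring
      rw [h5]
      linear_combination -h3)
    intro i hi
    rcases Nat.lt_or_ge i (n + 1) with hi' | hi'
    · have h5 := h4 i (Nat.lt_succ_iff.1 hi')
      by_cases hin : i = n
      · simp only [hin, if_true] at h5
        have h6 := mx_sub h5 (mx_mul hb h.hs)
        rw [add_sub_cancel_right] at h6
        rw [hin]
        exact h6
      · simp only [hin, if_false, add_zero] at h5
        exact h5
    · rw [le_antisymm hi hi', h2]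
      exact mx_mul hb h.ht

/-- Proof. First: if `∑ i ≤ n, c i s^i t^(n-i) = 0` then all `c i ∈ mx B`: induction on `n`; step: `t` divides `c (n+1) s^(n+1)`, so by
`reg` (several times) `c (n+1) = t b`, and `∑ i ≤ n, c i s^i t^(n-i) + b s^(n+1) = 0`, i.e. the statement for `n` with `c n + b s` instead of `c n`. In general write the
element of `mp B (n+1)` by `mem_mp` as `∑ i ≤ n+1, d i s^i t^(n+1-i)` and subtract: coefficients `c i - d i t` (and `- d (n+1) s` for `i = n`). -/
theorem P2.indep (h : P2 B s t) {n : ℕ} {c : ℕ → K0} (hc : ∀ i, c i ∈ B)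
    (hx : ∑ i ∈ Finset.range (n + 1), c i * s ^ i * t ^ (n - i) ∈ mp B (n + 1)) :
    ∀ i, i ≤ n → c i ∈ mx B := by
  have := h.loc
  obtain ⟨d, hd, h1⟩ := h.mem_mp.1 hx
  have h2 := h.indep0 n (fun i => c i - (d i * t + if i = n then d (n + 1) * s else 0)) (fun i => by
    refine B.sub_mem (hc i) (B.add_mem (B.mul_mem (hd i) (mx_le h.ht)) ?_)
    split_ifs
    · exact B.mul_mem (hd _) (mx_le h.hs)
    · exact B.zero_mem) (by
    rw [Finset.sum_range_succ _ (n + 1), ← sum_t, Nat.sub_self, pow_zero, mul_one] at h1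
    have h5 : ∑ i ∈ Finset.range (n + 1), (c i - (d i * t + if i = n then d (n + 1) * s else 0)) *
        s ^ i * t ^ (n - i) = ∑ i ∈ Finset.range (n + 1), c i * s ^ i * t ^ (n - i) -
        t * (∑ i ∈ Finset.range (n + 1), d i * s ^ i * t ^ (n - i)) - d (n + 1) * s ^ (n + 1) := by
      rw [Finset.sum_range_succ, Finset.sum_range_succ, Finset.sum_range_succ, if_pos rfl,
        Nat.sub_self, pow_zero]
      have h6 : ∑ i ∈ Finset.range n, (c i - (d i * t + if i = n then d (n + 1) * s else 0)) *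
          s ^ i * t ^ (n - i) = ∑ i ∈ Finset.range n, c i * s ^ i * t ^ (n - i) -
          t * ∑ i ∈ Finset.range n, d i * s ^ i * t ^ (n - i) := by
        rw [Finset.mul_sum, ← Finset.sum_sub_distrib]
        refine Finset.sum_congr rfl fun i hi => ?_
        rw [if_neg (Finset.mem_range.1 hi).ne]
        ring
      rw [h6]
      ring
    rw [h5, h1]
    ring)
  intro i hi
  have h3 := h2 i hi
  have h4 : d i * t + (if i = n then d (n + 1) * s else 0) ∈ mx B := by
    refine mx_add (mx_mul (hd i) h.ht) ?_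
    split_ifs
    · exact mx_mul (hd _) h.hs
    · exact zero_mem_mx
  have h5 := mx_add h3 h4
  simp only [sub_add_cancel] at h5
  exact h5

/-- `mp_krull`, smallest `n` with `x ∉ mp B (n + 1)`. -/
theorem P2.exists_ord (h : P2 B s t) {x : K0} (hx : x ∈ B) (h0 : x ≠ 0) :
    ∃ n, x ∈ mp B n ∧ x ∉ mp B (n + 1) := by
  have := h.loc
  have := h.noeth
  by_contra hcon
  push Not at hcon
  apply h0
  apply mp_krull (B := B)
  intro n
  induction n with
  | zero => exact hx
  | succ n ih => exact hcon n ih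

/-- From `indep` with `n = 1`. -/
theorem P2.not_sq (h : P2 B s t) : s ∉ mp B 2 := by
  intro hs
  have h1 := h.indep (n := 1) (c := fun i => if i = 0 then 0 else 1) (fun i => by
    split_ifs
    · exact B.zero_mem
    · exact B.one_mem) (by
    rw [Finset.sum_range_succ, Finset.sum_range_one, if_pos rfl, if_neg one_ne_zero]
    simpa using hs) 1 le_rfl
  rw [if_neg one_ne_zero] at h1
  exact one_notMem_mx h1

end Pool.Agent.EvM
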