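import Pool.Agent.NT9.GeSub
import Pool.Agent.QuadAll.PresReg

set_option autoImplicit false

/-! # regularity from a presentation -/

namespace Pool.Agent.EvM

open Pool.Agent.NT9

/-- Variant of `NH.regular_of_pres` / `QuadAll.isRegularLocalRing_of_presentation` (same proof): only the localisation of `T` at the preimage `P` of the maximal ideal of `O` has to be
regular, and the torsion condition is weaker (the element `e` may depend on `t`): the relations generate a prime ideal of `T_P` (the quotient is regular, so a domain), it is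
contained in the kernel, so `e` is not in it. -/
theorem regular_of_pres' {K T ι : Type} [Field K] [CommRing T] [Fintype ι] (O : Subring K)
    [IsLocalRing O] (π : T →+* K) (hπ : ∀ t, π t ∈ O)
    (hfrac : ∀ x ∈ O, ∃ u v : T, π v ≠ 0 ∧ (π v)⁻¹ ∈ O ∧ x * π v = π u)
    (g : ι → T) (hg : ∀ i, π (g i) = 0)
    (htor : ∀ t, π t = 0 → ∃ e, π e ≠ 0 ∧ e * t ∈ Ideal.span (Set.range g))
    (P : Ideal T) [P.IsPrime] (hP : ∀ t, t ∈ P ↔ π t ∈ mx O)
    (hreg : IsRegularLocalRing (Localization.AtPrime P))
    (hind : ∀ a : ι → T, ∑ i, a i * g i ∈ P ^ 2 → ∀ i, a i ∈ P) : IsRegularLocalRing O := by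
  classical
  let L := Localization.AtPrime P
  let E : ι ≃ Fin (Fintype.card ι) := Fintype.equivFin ι
  have hunit : ∀ t, t ∉ P → π t ≠ 0 ∧ (π t)⁻¹ ∈ O := by
    intro t ht
    rw [hP] at ht
    exact (notMem_mx_iff (hπ t)).1 ht
  let π' : T →+* O := π.codRestrict O hπ
  have hπ' : ∀ t, ((π' t : O) : K) = π t := fun t => rfl
  have hu : ∀ y : P.primeCompl, IsUnit (π' y) := by
    intro y
    obtain ⟨h1, h2⟩ := hunit y.1 y.2
    refine isUnit_iff_exists_inv.2 ⟨⟨(π y.1)⁻¹, h2⟩, Subtype.ext ?_⟩
    show π y.1 * (π y.1)⁻¹ = 1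
    exact mul_inv_cancel₀ h1
  let φ : L →+* O := IsLocalization.lift hu
  have hφ : ∀ t : T, φ (algebraMap T L t) = π' t := fun t => IsLocalization.lift_eq hu t
  have hφs : Function.Surjective φ := by
    intro x
    obtain ⟨u, v, hv0, hv, hx⟩ := hfrac x.1 x.2
    have hvP : v ∉ P := by
      rw [hP]
      exact (notMem_mx_iff (hπ v)).2 ⟨hv0, hv⟩
    refine ⟨IsLocalization.mk' L u (⟨v, hvP⟩ : P.primeCompl), ?_⟩
    have h1 : φ (IsLocalization.mk' L u (⟨v, hvP⟩ : P.primeCompl)) * π' v = π' u := by
      rw [← hφ, ← hφ, ← map_mul]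
      congr 1
      exact IsLocalization.mk'_spec L u (⟨v, hvP⟩ : P.primeCompl)
    refine Subtype.ext ?_
    have h2 := congrArg Subtype.val h1
    have h3 : ((φ (IsLocalization.mk' L u (⟨v, hvP⟩ : P.primeCompl)) : O) : K) * π v = π u := h2
    exact mul_right_cancel₀ hv0 (h3.trans hx.symm)
  have hmax : P.map (algebraMap T L) = IsLocalRing.maximalIdeal L :=
    Localization.AtPrime.map_eq_maximalIdeal
  have hsq : ∀ x : T, algebraMap T L x ∈ (IsLocalRing.maximalIdeal L) ^ 2 →
      ∃ t, t ∉ P ∧ t * x ∈ P ^ 2 := by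
    intro x hx
    rw [← hmax, ← Ideal.map_pow,
      IsLocalization.algebraMap_mem_map_algebraMap_iff P.primeCompl] at hx
    obtain ⟨t, ht, h⟩ := hx
    exact ⟨t, ht, h⟩
  have hgP : ∀ i, g i ∈ P := fun i => by
    rw [hP, hg]
    exact zero_mem_mx
  let g' : Fin (Fintype.card ι) → L := fun i => algebraMap T L (g (E.symm i))
  have hg'm : ∀ i, g' i ∈ IsLocalRing.maximalIdeal L :=
    fun i => hmax ▸ Ideal.mem_map_of_mem _ (hgP _)
  have hPp : P.IsPrime := inferInstance
  have hli : ∀ a : Fin (Fintype.card ι) → L, ∑ i, a i * g' i ∈ IsLocalRing.maximalIdeal L ^ 2 →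
      ∀ i, a i ∈ IsLocalRing.maximalIdeal L := by
    intro a ha i
    obtain ⟨s, hs⟩ := IsLocalization.exist_integer_multiples_of_finset P.primeCompl
      (Finset.univ.image a)
    have hs' : ∀ i, ∃ b : T, algebraMap T L b = algebraMap T L s * a i := fun i => by
      obtain ⟨b, hb⟩ := hs (a i) (Finset.mem_image_of_mem a (Finset.mem_univ i))
      exact ⟨b, by rw [hb, Algebra.smul_def]⟩
    choose b hb using hs'
    have h1 : algebraMap T L (∑ i, b (E i) * g i) = algebraMap T L s * ∑ i, a i * g' i := by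
      rw [map_sum, Finset.mul_sum, ← Equiv.sum_comp E (fun i => algebraMap T L s * (a i * g' i))]
      refine Finset.sum_congr rfl fun i _ => ?_
      show algebraMap T L (b (E i) * g i) =
        algebraMap T L s * (a (E i) * algebraMap T L (g (E.symm (E i))))
      rw [map_mul, hb, mul_assoc, E.symm_apply_apply]
    obtain ⟨t, ht, htP⟩ := hsq (∑ i, b (E i) * g i) (h1 ▸ Ideal.mul_mem_left _ _ ha)
    have h2 : ∑ i, (t * b (E i)) * g i ∈ P ^ 2 := by
      have h3 : ∑ i, (t * b (E i)) * g i = t * ∑ i, b (E i) * g i := by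
        rw [Finset.mul_sum]
        exact Finset.sum_congr rfl fun i _ => by ring
      rwa [h3]
    have h3 := hind _ h2 (E.symm i)
    rw [E.apply_symm_apply] at h3
    have h4 : b i ∈ P := (hPp.mem_or_mem h3).resolve_left ht
    have h5 : algebraMap T L s * a i ∈ IsLocalRing.maximalIdeal L := by
      rw [← hb, ← hmax]
      exact Ideal.mem_map_of_mem _ h4
    refine ((IsLocalRing.maximalIdeal.isMaximal L).isPrime.mem_or_mem h5).resolve_left ?_
    intro h6
    exact h6 (IsLocalization.map_units L s)
  have hreg2 := QuadAll.isRegularLocalRing_quotient_family g' hg'm hli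
  have hdom := QuadAll.isDomain_of_isRegularLocalRing (L ⧸ Ideal.span (Set.range g'))
  have hrange : Set.range g' = (algebraMap T L) '' (Set.range g) := by
    rw [← Set.range_comp]
    exact E.symm.surjective.range_comp ((algebraMap T L) ∘ g)
  have hφg : ∀ i, φ (g' i) = 0 := by
    intro i
    rw [hφ]
    exact Subtype.ext (hg _)
  have hle : Ideal.span (Set.range g') ≤ RingHom.ker φ := by
    rw [Ideal.span_le]
    rintro _ ⟨i, rfl⟩
    rw [SetLike.mem_coe, RingHom.mem_ker, hφg]
  have hker : RingHom.ker φ = Ideal.span (Set.range g') := by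
    refine le_antisymm (fun z hz => ?_) hle
    obtain ⟨t, s, rfl⟩ := IsLocalization.exists_mk'_eq P.primeCompl z
    have h1 : algebraMap T L s * IsLocalization.mk' L t s = algebraMap T L t := by
      rw [mul_comm]
      exact IsLocalization.mk'_spec _ _ _
    have h2 : π t = 0 := by
      have h3 : φ (algebraMap T L t) = 0 := by
        rw [← h1, map_mul, (RingHom.mem_ker).mp hz, mul_zero]
      rw [hφ] at h3
      exact congrArg Subtype.val h3
    obtain ⟨e, he, hn⟩ := htor t h2
    have h3 : algebraMap T L e * algebraMap T L t ∈ Ideal.span (Set.range g') := by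
      have h4 := Ideal.mem_map_of_mem (algebraMap T L) hn
      rw [Ideal.map_span, ← hrange, map_mul] at h4
      exact h4
    have h4 : (Ideal.span (Set.range g')).IsPrime := (Ideal.Quotient.isDomain_iff_prime _).mp hdom
    have h5 : algebraMap T L e ∉ Ideal.span (Set.range g') := by
      intro h
      have h7 := (RingHom.mem_ker).mp (hle h)
      rw [hφ] at h7
      exact he (congrArg Subtype.val h7)
    have h6 : algebraMap T L t ∈ Ideal.span (Set.range g') := (h4.mem_or_mem h3).resolve_left h5
    rw [← h1] at h6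
    refine (h4.mem_or_mem h6).resolve_left fun h => h4.ne_top ?_
    exact Ideal.eq_top_of_isUnit_mem _ h (IsLocalization.map_units L s)
  have hreg3 : IsRegularLocalRing (L ⧸ RingHom.ker φ) := by
    rw [hker]
    exact hreg2
  exact IsRegularLocalRing.of_ringEquiv (RingHom.quotientKerEquivOfSurjective hφs)

end Pool.Agent.EvM
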