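import Pool.Agent.EvM.EmPar

set_option autoImplicit false

/-! # regularity: discrete valuation rings -/

namespace Pool.Agent.EvM

open Pool.Agent.NT9

variable {K0 : Type} [Field K0] {B : Subring K0} {s t : K0}

/-- `a x ∈ mp B 2` and `a ∉ mx B` imply `x ∈ mp B 2`. -/
theorem rp_unit (hr : IsRegularLocalRing B) {x : K0} (hx : x ∈ mx B) (h2 : x ∉ mp B 2) :
    RP B (fun _ : Unit => x) where
  reg := hr
  mem := fun _ => hx
  ind := fun a ha hs i => by
    by_contra hcon
    apply h2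
    rw [Fintype.sum_unique] at hs
    have hcon' : a default ∉ mx B := hcon
    obtain ⟨h3, h4⟩ := (notMem_mx_iff (ha _)).1 hcon'
    have h5 := mp_smul h4 hs
    rwa [← mul_assoc, inv_mul_cancel₀ h3, one_mul] at h5

/-- A discrete valuation ring. -/
theorem reg_of_dvr [IsLocalRing B] [IsNoetherianRing B] (hs : s ∈ mx B) (h0 : s ≠ 0)
    (h : ∀ x ∈ mx B, x / s ∈ B) : IsRegularLocalRing B := by
  have hp : (IsLocalRing.maximalIdeal B).IsPrincipal := by
    refine ⟨⟨⟨s, mx_le hs⟩, ?_⟩⟩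
    apply le_antisymm
    · intro x hx
      have h1 := h x ((mem_mx_iff x).2 hx)
      refine Submodule.mem_span_singleton.2 ⟨⟨(x : K0) / s, h1⟩, Subtype.ext ?_⟩
      show (x : K0) / s * s = x
      rw [div_mul_cancel₀ _ h0]
    · rw [Submodule.span_singleton_le_iff_mem]
      exact (mem_mx_iff _).1 hs
  have hpid : IsPrincipalIdealRing B :=
    ((tfae_of_isNoetherianRing_of_isLocalRing_of_isDomain (R := B)).out 0 4).2 hp
  infer_instance

theorem dvr_not_sq [IsLocalRing B] (hs : s ∈ mx B) (h0 : s ≠ 0) (h : ∀ x ∈ mx B, x / s ∈ B)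
    {x : K0} (hx : x ∈ mp B 2) : x / s ^ 2 ∈ B := by
  refine mp_induction (C := fun x => x / s ^ 2 ∈ B) ?_ ?_ ?_ hx
  · rw [zero_div]
    exact B.zero_mem
  · intro x y hx hy
    rw [add_div]
    exact B.add_mem hx hy
  · intro a ha u hu
    have h1 : a * (∏ l, u l) / s ^ 2 = a * (u 0 / s * (u 1 / s)) := by
      rw [Fin.prod_univ_two, sq, mul_div_assoc, mul_div_mul_comm]
    rw [h1]
    exact B.mul_mem ha (B.mul_mem (h _ (hu 0)) (h _ (hu 1)))

end Pool.Agent.EvM
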