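import Pool.Agent.EvM.EmReg
import Pool.Agent.EvM.EmRegB

set_option autoImplicit false

/-! # quadratic transforms -/

namespace Pool.Agent.EvM

open Pool.Agent.NT9

variable {K0 : Type} [Field K0] {B B' : Subring K0} {s t : K0}

namespace EmQTa

/-- evaluation of polynomials with coefficients in `B` -/
noncomputable def ev (B : Subring K0) (τ : K0) : Polynomial B →+* K0 :=
  Polynomial.eval₂RingHom B.subtype τ

theorem ev_eq (B : Subring K0) (τ : K0) (f : Polynomial B) :
    ev B τ f = ∑ i ∈ Finset.range (f.natDegree + 1), (f.coeff i : K0) * τ ^ i := by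
  unfold ev
  rw [Polynomial.coe_eval₂RingHom, Polynomial.eval₂_eq_sum_range]
  rfl

theorem ev_C (B : Subring K0) (τ : K0) (b : B) : ev B τ (Polynomial.C b) = b := by
  unfold ev
  rw [Polynomial.coe_eval₂RingHom, Polynomial.eval₂_C]
  rfl

theorem ev_X (B : Subring K0) (τ : K0) : ev B τ Polynomial.X = τ := by
  unfold ev
  rw [Polynomial.coe_eval₂RingHom, Polynomial.eval₂_X]

theorem closure_eq (B : Subring K0) (τ : K0) :
    Subring.closure ((B : Set K0) ∪ {τ}) = (ev B τ).range := by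
  refine le_antisymm (Subring.closure_le.2 ?_) ?_
  · rintro x (hx | hx)
    · exact ⟨Polynomial.C ⟨x, hx⟩, ev_C B τ ⟨x, hx⟩⟩
    · rw [Set.mem_singleton_iff] at hx
      rw [hx]
      exact ⟨Polynomial.X, ev_X B τ⟩
  · rintro _ ⟨f, rfl⟩
    rw [ev_eq]
    refine sum_mem fun i _ => mul_mem ?_ (pow_mem ?_ _)
    · exact Subring.subset_closure (Or.inl (f.coeff i).2)
    · exact Subring.subset_closure (Or.inr rfl)

theorem pow_mem_mp [IsLocalRing B] {x : K0} (hx : x ∈ mx B) (n : ℕ) : x ^ n ∈ mp B n := by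
  have h := mp_prod (n := n) (fun _ => x) (fun _ => hx)
  rwa [Finset.prod_const, Finset.card_univ, Fintype.card_fin] at h

theorem sum_mem_mp [IsLocalRing B] {n : ℕ} {ι : Type} (S : Finset ι) (f : ι → K0)
    (hf : ∀ i ∈ S, f i ∈ mp B n) : ∑ i ∈ S, f i ∈ mp B n :=
  sum_mem hf

end EmQTa

open EmQTa


theorem QT.tau (q : QT B s t B') : t / s ∈ B' := by
  exact q.fr.1 (Subring.subset_closure (Or.inr rfl))

/-- `x / s ∈ B'` for `x ∈ mx B`. -/
theorem QT.div (h : P2 B s t) (q : QT B s t B') {x : K0} (hx : x ∈ mx B) : x / s ∈ B' := by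
  obtain ⟨a, ha, b, hb, rfl⟩ := h.gen x hx
  have h1 : (a * s + b * t) / s = a + b * (t / s) := by
    rw [add_div, mul_div_cancel_right₀ _ h.s0, mul_div_assoc]
  rw [h1]
  exact add_mem (q.le ha) (mul_mem (q.le hb) q.tau)

/-- The ring `B[t/s]`: its elements are the polynomials in `t / s`. -/
theorem mem_closure_iff {x : K0} : x ∈ Subring.closure ((B : Set K0) ∪ {t / s}) ↔
    ∃ (n : ℕ) (c : ℕ → K0), (∀ i, c i ∈ B) ∧ x = ∑ i ∈ Finset.range (n + 1), c i * (t / s) ^ i := by
  rw [closure_eq]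
  constructor
  · rintro ⟨f, rfl⟩
    exact ⟨f.natDegree, fun i => f.coeff i, fun i => (f.coeff i).2, ev_eq B _ f⟩
  · rintro ⟨n, c, hc, rfl⟩
    refine sum_mem fun i _ => mul_mem ?_ (pow_mem ?_ _)
    · exact ⟨Polynomial.C ⟨c i, hc i⟩, ev_C B _ ⟨c i, hc i⟩⟩
    · exact ⟨Polynomial.X, ev_X B _⟩

/-- Proof. `∑ i ≤ n, c i (t/s)^i = s ∑ i ≤ n, d i (t/s)^i` (make the bounds equal), multiply by `s^n`: `∑ c i t^i s^(n-i) = ∑ (d i s) t^i s^(n-i) ∈ mp B (n+1)`; `P2.indep`
for `P2 B t s`. -/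
theorem poly_ind (h : P2 B s t) {n : ℕ} {c : ℕ → K0} (hc : ∀ i, c i ∈ B) {y : K0}
    (hy : y ∈ Subring.closure ((B : Set K0) ∪ {t / s}))
    (hx : ∑ i ∈ Finset.range (n + 1), c i * (t / s) ^ i = s * y) : ∀ i, i ≤ n → c i ∈ mx B := by
  have hloc := h.loc
  obtain ⟨m, d, hd, rfl⟩ := mem_closure_iff.1 hy
  let N := max n m
  let c' : ℕ → K0 := fun i => if i ≤ n then c i else 0
  let d' : ℕ → K0 := fun i => if i ≤ m then d i else 0
  have hc' : ∀ i, c' i ∈ B := fun i => by
    show (if i ≤ n then c i else 0) ∈ B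
    split_ifs
    · exact hc i
    · exact zero_mem B
  have hd' : ∀ i, d' i ∈ B := fun i => by
    show (if i ≤ m then d i else 0) ∈ B
    split_ifs
    · exact hd i
    · exact zero_mem B
  have e1 : ∑ i ∈ Finset.range (N + 1), c' i * (t / s) ^ i =
      ∑ i ∈ Finset.range (n + 1), c i * (t / s) ^ i := by
    symm
    rw [← Finset.sum_subset (Finset.range_mono (Nat.succ_le_succ (le_max_left n m)))]
    · refine Finset.sum_congr rfl fun i hi => ?_
      have h1 : c' i = c i := if_pos (Nat.lt_succ_iff.1 (Finset.mem_range.1 hi))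
      rw [h1]
    · intro i _ hi
      have h1 : c' i = 0 := if_neg (fun h2 => hi (Finset.mem_range.2 (Nat.lt_succ_of_le h2)))
      rw [h1, zero_mul]
  have e2 : ∑ i ∈ Finset.range (N + 1), d' i * (t / s) ^ i =
      ∑ i ∈ Finset.range (m + 1), d i * (t / s) ^ i := by
    symm
    rw [← Finset.sum_subset (Finset.range_mono (Nat.succ_le_succ (le_max_right n m)))]
    · refine Finset.sum_congr rfl fun i hi => ?_
      have h1 : d' i = d i := if_pos (Nat.lt_succ_iff.1 (Finset.mem_range.1 hi))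
      rw [h1]
    · intro i _ hi
      have h1 : d' i = 0 := if_neg (fun h2 => hi (Finset.mem_range.2 (Nat.lt_succ_of_le h2)))
      rw [h1, zero_mul]
  rw [← e1, ← e2] at hx
  have hp : ∀ i, i ∈ Finset.range (N + 1) → s ^ N * (t / s) ^ i = t ^ i * s ^ (N - i) := by
    intro i hi
    have h1 : i ≤ N := Nat.lt_succ_iff.1 (Finset.mem_range.1 hi)
    have h2 : s ^ N = s ^ i * s ^ (N - i) := by rw [← pow_add, Nat.add_sub_cancel' h1]
    have h3 : s ^ i ≠ 0 := pow_ne_zero i h.s0
    rw [h2, div_pow]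
    field_simp
  have e3 : ∑ i ∈ Finset.range (N + 1), c' i * t ^ i * s ^ (N - i) =
      ∑ i ∈ Finset.range (N + 1), d' i * (t ^ i * s ^ (N - i + 1)) := by
    have h1 : s ^ N * ∑ i ∈ Finset.range (N + 1), c' i * (t / s) ^ i =
        ∑ i ∈ Finset.range (N + 1), c' i * t ^ i * s ^ (N - i) := by
      rw [Finset.mul_sum]
      refine Finset.sum_congr rfl fun i hi => ?_
      rw [mul_left_comm, hp i hi, mul_assoc]
    have h2 : s ^ N * (s * ∑ i ∈ Finset.range (N + 1), d' i * (t / s) ^ i) =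
        ∑ i ∈ Finset.range (N + 1), d' i * (t ^ i * s ^ (N - i + 1)) := by
      rw [mul_left_comm, Finset.mul_sum, Finset.mul_sum]
      refine Finset.sum_congr rfl fun i hi => ?_
      rw [mul_left_comm (s ^ N), hp i hi]
      ring
    rw [← h1, ← h2, hx]
  have hmem : ∑ i ∈ Finset.range (N + 1), c' i * t ^ i * s ^ (N - i) ∈ mp B (N + 1) := by
    rw [e3]
    refine sum_mem fun i hi => mp_smul (hd' i) ?_
    have h1 : i ≤ N := Nat.lt_succ_iff.1 (Finset.mem_range.1 hi)
    have h2 := mp_mul (pow_mem_mp h.ht i) (pow_mem_mp h.hs (N - i + 1))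
    have h3 : i + (N - i + 1) = N + 1 := by omega
    rw [h3] at h2
    exact h2
  intro i hi
  have h1 := h.swap.indep hc' hmem i (hi.trans (le_max_left n m))
  have h2 : c' i = c i := if_pos hi
  rw [h2] at h1
  exact h1

end Pool.Agent.EvM
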