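import Pool.Agent.EvM.EmQTa

set_option autoImplicit false

/-! # quadratic transforms: the maximal ideal -/

namespace Pool.Agent.EvM

open Pool.Agent.NT9

variable {K0 : Type} [Field K0] {B B' : Subring K0} {s t : K0}

namespace EmQTb

open EmQTa

/-- all coefficients are in the maximal ideal -/
def Zr (f : Polynomial B) : Prop := ∀ i, (f.coeff i : K0) ∈ mx B

theorem zr_iff [IsLocalRing B] (f : Polynomial B) :
    Zr f ↔ f.map (IsLocalRing.residue B) = 0 := by
  unfold Zr
  rw [Polynomial.ext_iff]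
  refine forall_congr' fun i => ?_
  rw [Polynomial.coeff_map, Polynomial.coeff_zero, mem_mx_iff, IsLocalRing.residue_eq_zero_iff]

theorem zr_mul [IsLocalRing B] {f g : Polynomial B} (h : Zr (f * g)) : Zr f ∨ Zr g := by
  rw [zr_iff, Polynomial.map_mul, mul_eq_zero] at h
  rwa [zr_iff, zr_iff]

/-- `f (τ) = s g (τ)` implies that the coefficients of `f` are in the maximal ideal -/
theorem zr_of_eq (h : P2 B s t) {f g : Polynomial B}
    (he : ev B (t / s) f = s * ev B (t / s) g) : Zr f := by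
  have hy : ev B (t / s) g ∈ Subring.closure ((B : Set K0) ∪ {t / s}) := by
    rw [closure_eq]
    exact ⟨g, rfl⟩
  rw [ev_eq B _ f] at he
  have h1 := poly_ind h (n := f.natDegree) (c := fun i => (f.coeff i : K0))
    (fun i => (f.coeff i).2) hy he
  intro i
  by_cases hi : i ≤ f.natDegree
  · exact h1 i hi
  · rw [Polynomial.coeff_eq_zero_of_natDegree_lt (not_le.1 hi)]
    exact zero_mem_mx

theorem exists_of_mx (h : P2 B s t) {x : K0} (hx : x ∈ mx B) :
    ∃ g : Polynomial B, x = s * ev B (t / s) g := by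
  obtain ⟨a, ha, b, hb, rfl⟩ := h.gen x hx
  refine ⟨Polynomial.C ⟨a, ha⟩ + Polynomial.C ⟨b, hb⟩ * Polynomial.X, ?_⟩
  rw [map_add, map_mul, ev_C, ev_C, ev_X]
  have h1 := h.s0
  field_simp

theorem exists_of_zr (h : P2 B s t) {f : Polynomial B} (hf : Zr f) :
    ∃ g : Polynomial B, ev B (t / s) f = s * ev B (t / s) g := by
  have h1 : ∀ i, ∃ g : Polynomial B, (f.coeff i : K0) = s * ev B (t / s) g :=
    fun i => exists_of_mx h (hf i)
  choose g hg using h1
  refine ⟨∑ i ∈ Finset.range (f.natDegree + 1), g i * Polynomial.X ^ i, ?_⟩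
  rw [ev_eq, map_sum, Finset.mul_sum]
  refine Finset.sum_congr rfl fun i _ => ?_
  rw [map_mul, map_pow, ev_X, hg i, mul_assoc]

theorem ev_mem (q : QT B s t B') (f : Polynomial B) : ev B (t / s) f ∈ B' := by
  refine q.fr.1 ?_
  rw [closure_eq]
  exact ⟨f, rfl⟩

/-- fractions -/
theorem frac (q : QT B s t B') {x : K0} (hx : x ∈ B') : ∃ U V : Polynomial B,
    ev B (t / s) V ≠ 0 ∧ (ev B (t / s) V)⁻¹ ∈ B' ∧ x * ev B (t / s) V = ev B (t / s) U := by
  obtain ⟨u, hu, v, hv, h0, hi, he⟩ := q.fr.2 x hx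
  rw [closure_eq] at hu hv
  obtain ⟨U, rfl⟩ := hu
  obtain ⟨V, rfl⟩ := hv
  exact ⟨U, V, h0, hi, he⟩

/-- a polynomial with coefficients in the maximal ideal is not a unit -/
theorem not_zr (h : P2 B s t) (q : QT B s t B') {V : Polynomial B}
    (h0 : ev B (t / s) V ≠ 0) (hi : (ev B (t / s) V)⁻¹ ∈ B') : ¬ Zr V := by
  have hloc' := q.loc
  intro hz
  obtain ⟨g, hg⟩ := exists_of_zr h hz
  have h1 : ev B (t / s) V ∈ mx B' := by
    rw [hg]
    exact mx_mul_right (q.dom s h.hs) (ev_mem q g)
  exact ((notMem_mx_iff (ev_mem q V)).2 ⟨h0, hi⟩) h1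

/-- multiplication by an inverse -/
theorem eq_div {x v u : K0} (h0 : v ≠ 0) (he : x * v = u) : x = u * v⁻¹ := by
  rw [← he, mul_inv_cancel_right₀ h0]

theorem noeth (h : P2 B s t) (q : QT B s t B') : IsNoetherianRing B' := by
  have hB := h.noeth
  have hR : IsNoetherianRing (ev B (t / s)).range := isNoetherianRing_range _
  have hle : (ev B (t / s)).range ≤ B' := by
    rintro _ ⟨f, rfl⟩
    exact ev_mem q f
  rw [isNoetherianRing_iff_ideal_fg]
  intro I
  have hfg : (I.comap (Subring.inclusion hle)).FG :=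
    (isNoetherianRing_iff_ideal_fg _).1 hR _
  have hI : I = (I.comap (Subring.inclusion hle)).map (Subring.inclusion hle) := by
    refine le_antisymm (fun x hx => ?_) Ideal.map_comap_le
    obtain ⟨U, V, h0, hi, he⟩ := frac q x.2
    have h1 : x = ⟨(ev B (t / s) V)⁻¹, hi⟩ *
        Subring.inclusion hle ⟨ev B (t / s) U, ⟨U, rfl⟩⟩ := by
      refine Subtype.ext ?_
      show (x : K0) = (ev B (t / s) V)⁻¹ * ev B (t / s) U
      rw [mul_comm]
      exact eq_div h0 he
    rw [h1]
    refine Ideal.mul_mem_left _ _ (Ideal.mem_map_of_mem _ ?_)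
    rw [Ideal.mem_comap]
    have h2 : Subring.inclusion hle ⟨ev B (t / s) U, ⟨U, rfl⟩⟩ =
        x * ⟨ev B (t / s) V, ev_mem q V⟩ := Subtype.ext he.symm
    rw [h2]
    exact Ideal.mul_mem_right _ _ hx
  rw [hI]
  exact Ideal.FG.map hfg _

/-- the criterion for a regular system of parameters -/
theorem mk (h : P2 B s t) (q : QT B s t B') {F : Polynomial B} (hF : ¬ Zr F)
    (hm : ev B (t / s) F ∈ mx B')
    (hg : ∀ f : Polynomial B, ev B (t / s) f ∈ mx B' → ∃ g a : Polynomial B,
      ev B (t / s) f = s * ev B (t / s) a + ev B (t / s) g * ev B (t / s) F) :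
    P2 B' s (ev B (t / s) F) := by
  have hloc := h.loc
  have hloc' := q.loc
  refine ⟨q.loc, noeth h q, h.s0, ?_, q.dom s h.hs, hm, ?_, ?_⟩
  · intro h0
    refine hF (zr_of_eq h (g := 0) ?_)
    rw [h0, map_zero, mul_zero]
  · intro x hx
    obtain ⟨U, V, h0, hi, he⟩ := frac q (mx_le hx)
    have h1 : ev B (t / s) U ∈ mx B' := by
      rw [← he]
      exact mx_mul_right hx (ev_mem q V)
    obtain ⟨g, a, hga⟩ := hg U h1
    refine ⟨ev B (t / s) a * (ev B (t / s) V)⁻¹, mul_mem (ev_mem q a) hi,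
      ev B (t / s) g * (ev B (t / s) V)⁻¹, mul_mem (ev_mem q g) hi, ?_⟩
    rw [eq_div h0 he, hga]
    ring
  · intro a ha b hb hab
    obtain ⟨U, V, h0, hi, he⟩ := frac q hb
    obtain ⟨U', V', h0', hi', he'⟩ := frac q ha
    have h1 : ev B (t / s) (U * F * V') = s * ev B (t / s) (U' * V) := by
      rw [map_mul, map_mul, map_mul, ← he, ← he']
      calc b * ev B (t / s) V * ev B (t / s) F * ev B (t / s) V'
          = (b * ev B (t / s) F) * (ev B (t / s) V * ev B (t / s) V') := by ring
        _ = (a * s) * (ev B (t / s) V * ev B (t / s) V') := by rw [hab]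
        _ = s * (a * ev B (t / s) V' * ev B (t / s) V) := by ring
    have h2 : Zr (U * F * V') := zr_of_eq h h1
    have h3 : Zr U := by
      rcases zr_mul h2 with h3 | h3
      · rcases zr_mul h3 with h4 | h4
        · exact h4
        · exact absurd h4 hF
      · exact absurd h3 (not_zr h q h0' hi')
    obtain ⟨g, hg'⟩ := exists_of_zr h h3
    have hs0 := h.s0
    have h4 : b = ev B (t / s) g * (ev B (t / s) V)⁻¹ * s := by
      rw [eq_div h0 he, hg']
      ring
    refine ⟨ev B (t / s) g * (ev B (t / s) V)⁻¹, mul_mem (ev_mem q g) hi, ?_, h4⟩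
    rw [h4] at hab
    refine mul_right_cancel₀ hs0 ?_
    rw [hab]
    ring

end EmQTb

open EmQTa EmQTb


/-- `B'` is a localisation of a ring of finite type over `B`. (`B[t/s]` is Noetherian; `NH.LOC`-style: `IsLocalization`, or ideals of `B'` are generated by their
intersection with `B[t/s]`.) -/
theorem qt_noeth (h : P2 B s t) (q : QT B s t B') : IsNoetherianRing B' := by
  exact EmQTb.noeth h q

/-- Proof. Let `k` be the residue field of `B`, `A = B[t/s]`, `P = A ∩ mx B'`; `P` contains `mx B`, and `A / s A = k[τ]` (`poly_ind`; so `s A` contains `mx B`), so `P / s A` is a prime ideal of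
`k[τ]`: zero, or generated by the class of some `φ ∈ A`. In the first case `mx B' = s B'`. In the second case `mx B' = (s, φ)`, and `a s = b φ`: `b φ ∈ s B'`, `B' / s B'` is a
localisation of `k[τ]`, a domain in which `φ` is not zero, so `b = c s`. (Elements of `B'` are fractions of elements of `A`.) -/
theorem qt_cases (h : P2 B s t) (q : QT B s t B') : (∀ x ∈ mx B', x / s ∈ B') ∨
    ∃ φ, P2 B' s φ := by
  have hloc := h.loc
  have hloc' := q.loc
  let k := IsLocalRing.ResidueField B
  let P : Ideal (Polynomial B) := (IsLocalRing.maximalIdeal B').comap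
    ((ev B (t / s)).codRestrict B' (ev_mem q))
  have hP : ∀ f, f ∈ P ↔ ev B (t / s) f ∈ mx B' := by
    intro f
    rw [Ideal.mem_comap, ← mem_mx_iff]
    exact Iff.rfl
  let R : Polynomial B →+* Polynomial k := Polynomial.mapRingHom (IsLocalRing.residue B)
  have hR : Function.Surjective R :=
    Polynomial.map_surjective _ IsLocalRing.residue_surjective
  obtain ⟨φ, hφ⟩ := (IsPrincipalIdealRing.principal (P.map R)).principal
  have hφm : φ ∈ P.map R := by
    rw [hφ]
    exact Submodule.mem_span_singleton_self φ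
  obtain ⟨F, hF, hFφ⟩ := (Ideal.mem_map_iff_of_surjective R hR).1 hφm
  by_cases h0 : φ = 0
  · left
    intro x hx
    obtain ⟨U, V, hv0, hi, he⟩ := frac q (mx_le hx)
    have h1 : ev B (t / s) U ∈ mx B' := by
      rw [← he]
      exact mx_mul_right hx (ev_mem q V)
    have h2 : R U ∈ P.map R := Ideal.mem_map_of_mem R ((hP U).2 h1)
    rw [hφ, h0] at h2
    have h3 : R U = 0 := by
      rwa [Submodule.span_zero_singleton, Submodule.mem_bot] at h2
    obtain ⟨g, hg⟩ := exists_of_zr h ((zr_iff U).2 h3)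
    have h4 : x / s = ev B (t / s) g * (ev B (t / s) V)⁻¹ := by
      rw [eq_div hv0 he, hg, mul_assoc, mul_div_cancel_left₀ _ h.s0]
    rw [h4]
    exact mul_mem (ev_mem q g) hi
  · right
    refine ⟨_, EmQTb.mk h q (F := F) ?_ ((hP F).1 hF) ?_⟩
    · intro hz
      exact h0 (hFφ.symm.trans ((zr_iff F).1 hz))
    · intro f hf
      have h2 : R f ∈ P.map R := Ideal.mem_map_of_mem R ((hP f).2 hf)
      rw [hφ] at h2
      obtain ⟨c, hc⟩ := Submodule.mem_span_singleton.1 h2
      obtain ⟨G, rfl⟩ := hR c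
      have h3 : Zr (f - G * F) := by
        rw [zr_iff]
        show R (f - G * F) = 0
        rw [map_sub, map_mul, hFφ, ← hc, smul_eq_mul, sub_self]
      obtain ⟨a, ha⟩ := exists_of_zr h h3
      refine ⟨G, a, ?_⟩
      rw [← ha, map_sub, map_mul]
      ring

/-- As `qt_cases`: here `P = (s, t / s)`. -/
theorem qt_corner (h : P2 B s t) (q : QT B s t B') (hc : t / s ∈ mx B') : P2 B' s (t / s) := by
  have hloc := h.loc
  have hloc' := q.loc
  have h1 := EmQTb.mk h q (F := Polynomial.X) ?_ (by rwa [ev_X]) ?_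
  · rwa [ev_X] at h1
  · intro hz
    have h2 := hz 1
    rw [Polynomial.coeff_X_one] at h2
    exact one_notMem_mx h2
  · intro f hf
    have h2 : f = Polynomial.divX f * Polynomial.X + Polynomial.C (f.coeff 0) :=
      (Polynomial.divX_mul_X_add f).symm
    have h3 : ev B (t / s) f = ev B (t / s) (Polynomial.divX f) * (t / s) + (f.coeff 0 : K0) := by
      conv_lhs => rw [h2]
      rw [map_add, map_mul, ev_X, ev_C]
    have h4 : (f.coeff 0 : K0) ∈ mx B' := by
      have h5 : (f.coeff 0 : K0) =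
          ev B (t / s) f - ev B (t / s) (Polynomial.divX f) * (t / s) := by
        rw [h3]
        ring
      rw [h5]
      exact mx_sub hf (mx_mul (ev_mem q _) hc)
    have h5 : (f.coeff 0 : K0) ∈ mx B := (dom_iff q.le q.dom (f.coeff 0).2).2 h4
    obtain ⟨g, hg⟩ := exists_of_mx h h5
    refine ⟨Polynomial.divX f, g, ?_⟩
    rw [h3, hg, ev_X]
    ring

end Pool.Agent.EvM
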