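import Pool.Agent.EvM.EmPar

set_option autoImplicit false

/-! # regularity -/

namespace Pool.Agent.EvM

open Pool.Agent.NT9

section aux

variable {R : Type} [CommRing R] [IsLocalRing R] [IsNoetherianRing R]

open IsLocalRing

private theorem er_krull {s t : R} (ht : t ∈ maximalIdeal R) {x : R}
    (hx : ∀ n : ℕ, ∃ a b, x = a * s + b * t ^ n) : x ∈ Ideal.span {s} := by
  have h1 : (Ideal.Quotient.mk (Ideal.span {s}) x) ∈
      (⨅ i : ℕ, maximalIdeal R ^ i • ⊤ : Submodule R (R ⧸ Ideal.span {s})) := by
    rw [Submodule.mem_iInf]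
    intro n
    obtain ⟨a, b, hab⟩ := hx n
    have h2 : Ideal.Quotient.mk (Ideal.span {s}) x =
        (b * t ^ n) • (Ideal.Quotient.mk (Ideal.span {s}) 1) := by
      rw [hab, map_add, Ideal.Quotient.eq_zero_iff_mem.2
        (Ideal.mul_mem_left _ a (Ideal.mem_span_singleton_self s)), zero_add,
        Algebra.smul_def, map_one, mul_one]
      rfl
    rw [h2]
    exact Submodule.smul_mem_smul (Ideal.mul_mem_left _ b (Ideal.pow_mem_pow ht n)) trivial
  rw [Ideal.iInf_pow_smul_eq_bot_of_isLocalRing _ (Ideal.IsPrime.ne_top inferInstance)] at h1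
  exact Ideal.Quotient.eq_zero_iff_mem.1 ((Submodule.mem_bot R).1 h1)

private theorem er_prime {s t : R} (hm : maximalIdeal R = Ideal.span {s, t})
    (hreg : ∀ a b : R, a * s = b * t → ∃ c, a = c * t ∧ b = c * s) :
    (Ideal.span {s} : Ideal R).IsPrime := by
  have hs : s ∈ maximalIdeal R := by
    rw [hm]
    exact Ideal.subset_span (Set.mem_insert s {t})
  have ht : t ∈ maximalIdeal R := by
    rw [hm]
    exact Ideal.subset_span (Set.mem_insert_of_mem s rfl)
  have h1 : (1 : R) ∉ (Ideal.span {s} : Ideal R) := by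
    intro h
    obtain ⟨c, hc⟩ := Ideal.mem_span_singleton'.1 h
    have h2 : (1 : R) ∈ maximalIdeal R := by
      rw [← hc]
      exact Ideal.mul_mem_left _ c hs
    exact (Ideal.ne_top_iff_one _).1 (Ideal.IsPrime.ne_top inferInstance) h2
  have ht' : ∀ k : ℕ, t ^ k ∉ (Ideal.span {s} : Ideal R) := by
    intro k
    induction k with
    | zero =>
      rw [pow_zero]
      exact h1
    | succ k ih =>
      intro h
      obtain ⟨c, hc⟩ := Ideal.mem_span_singleton'.1 h
      obtain ⟨d, hd, hd'⟩ := hreg c (t ^ k) (by rw [hc, pow_succ])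
      exact ih (Ideal.mem_span_singleton'.2 ⟨d, hd'.symm⟩)
  have hrep : ∀ x : R, x ∉ (Ideal.span {s} : Ideal R) →
      ∃ (a u : R) (n : ℕ), IsUnit u ∧ x = a * s + u * t ^ n := by
    intro x hx
    by_contra hcon
    push Not at hcon
    apply hx
    apply er_krull ht
    intro n
    induction n with
    | zero => exact ⟨0, x, by ring⟩
    | succ n ih =>
      obtain ⟨a, b, hab⟩ := ih
      have hb : b ∈ maximalIdeal R := by
        rw [mem_maximalIdeal, mem_nonunits_iff]
        intro hb
        exact hcon a b n hb hab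
      rw [hm, Ideal.mem_span_pair] at hb
      obtain ⟨c, d, hcd⟩ := hb
      refine ⟨a + c * t ^ n, d, ?_⟩
      rw [hab, ← hcd]
      ring
  refine ⟨(Ideal.ne_top_iff_one _).2 h1, ?_⟩
  intro x y hxy
  by_contra hcon
  push Not at hcon
  obtain ⟨a, u, n, hu, hx⟩ := hrep x hcon.1
  obtain ⟨b, v, m, hv, hy⟩ := hrep y hcon.2
  apply ht' (n + m)
  have h2 : (u * v) * t ^ (n + m) ∈ (Ideal.span {s} : Ideal R) := by
    have h3 : (u * v) * t ^ (n + m) = x * y - (a * b * s + a * v * t ^ m + u * t ^ n * b) * s := by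
      rw [hx, hy]
      ring
    rw [h3]
    exact Ideal.sub_mem _ hxy (Ideal.mul_mem_left _ _ (Ideal.mem_span_singleton_self s))
  exact (Ideal.unit_mul_mem_iff_mem _ (hu.mul hv)).1 h2

private theorem er_regular [IsDomain R] {s t : R} (hm : maximalIdeal R = Ideal.span {s, t})
    (hs0 : s ≠ 0) (hreg : ∀ a b : R, a * s = b * t → ∃ c, a = c * t ∧ b = c * s) :
    IsRegularLocalRing R := by
  have hs : s ∈ maximalIdeal R := by
    rw [hm]
    exact Ideal.subset_span (Set.mem_insert s {t})
  have ht : t ∈ maximalIdeal R := by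
    rw [hm]
    exact Ideal.subset_span (Set.mem_insert_of_mem s rfl)
  have hp := er_prime hm hreg
  apply IsRegularLocalRing.of_spanFinrank_maximalIdeal_le
  have h1 : ((maximalIdeal R).spanFinrank : WithBot ℕ∞) ≤ 2 := by
    have h2 : (maximalIdeal R).spanFinrank ≤ 2 := by
      rw [hm]
      refine (Submodule.spanFinrank_span_le_ncard_of_finite (Set.toFinite _)).trans ?_
      refine (Set.ncard_insert_le s {t}).trans ?_
      rw [Set.ncard_singleton]
    exact_mod_cast h2
  refine h1.trans ?_
  have hlt1 : (⊥ : Ideal R) < Ideal.span {s} := by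
    rw [bot_lt_iff_ne_bot, Ne, Ideal.span_singleton_eq_bot]
    exact hs0
  have hlt2 : (Ideal.span {s} : Ideal R) < maximalIdeal R := by
    refine lt_of_le_of_ne ((Ideal.span_singleton_le_iff_mem _).2 hs) ?_
    intro h
    have h3 : t ∈ (Ideal.span {s} : Ideal R) := h ▸ ht
    obtain ⟨c, hc⟩ := Ideal.mem_span_singleton'.1 h3
    obtain ⟨d, hd, hd'⟩ := hreg c 1 (by rw [hc, one_mul])
    have h4 : (1 : R) ∈ maximalIdeal R := by
      rw [hd']
      exact Ideal.mul_mem_left _ d hs
    exact (Ideal.ne_top_iff_one _).1 (Ideal.IsPrime.ne_top inferInstance) h4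
  let f : Fin 3 → PrimeSpectrum R := ![⟨⊥, Ideal.isPrime_bot⟩, ⟨Ideal.span {s}, hp⟩,
    ⟨maximalIdeal R, inferInstance⟩]
  have hf : StrictMono f := by
    rw [Fin.strictMono_iff_lt_succ]
    intro i
    fin_cases i
    · exact hlt1
    · exact hlt2
  exact Order.LTSeries.length_le_krullDim (LTSeries.mk 2 f hf)

end aux

variable {K0 : Type} [Field K0] {B : Subring K0} {s t : K0}

/-- `B` is regular: the maximal ideal has two generators and height `≥ 2` (`(0) < (s) < m`: the ideal `(s)` is prime, because modulo `s` every element is zero or a unit times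
a power of `t` by Krull (`mp_krull` for `B/(s)` or `Ideal.iInf_pow_eq_bot..`) and `t` is a nonzerodivisor modulo `s` by `reg`; or `height (s, t) = 2` as `s, t` is a regular
sequence). `IsRegularLocalRing.of_spanFinrank_maximalIdeal_le`. -/
theorem P2.regular (h : P2 B s t) : IsRegularLocalRing B := by
  have := h.loc
  have := h.noeth
  have hsB := mx_le h.hs
  have htB := mx_le h.ht
  refine er_regular (s := ⟨s, hsB⟩) (t := ⟨t, htB⟩) ?_ ?_ ?_
  · apply le_antisymm
    · intro x hx
      obtain ⟨a, ha, b, hb, hab⟩ := h.gen x ((mem_mx_iff x).2 hx)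
      rw [Ideal.mem_span_pair]
      exact ⟨⟨a, ha⟩, ⟨b, hb⟩, Subtype.ext hab.symm⟩
    · rw [Ideal.span_le]
      rintro x (rfl | rfl)
      · exact (mem_mx_iff _).1 h.hs
      · exact (mem_mx_iff _).1 h.ht
  · intro h0
    exact h.s0 (congrArg Subtype.val h0)
  · intro a b hab
    obtain ⟨c, hc, h1, h2⟩ := h.reg a a.2 b b.2 (congrArg Subtype.val hab)
    exact ⟨⟨c, hc⟩, Subtype.ext h1, Subtype.ext h2⟩

theorem P2.rp (h : P2 B s t) : RP B (fun i : Bool => if i then s else t) where
  reg := h.regular
  mem := fun i => by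
    cases i
    · exact h.ht
    · exact h.hs
  ind := fun a ha hx i => by
    have h1 := h.indep (n := 1) (c := fun k => if k = 0 then a false else a true) (fun k => by
      split_ifs
      · exact ha _
      · exact ha _) (by
      rw [Finset.sum_range_succ, Finset.sum_range_one, if_pos rfl, if_neg one_ne_zero, pow_zero,
        Nat.sub_zero, pow_one, pow_one, Nat.sub_self, pow_zero, mul_one, mul_one,
        add_comm (a false * t)]
      rw [Fintype.sum_bool] at hx
      simp only [if_true, Bool.false_eq_true, if_false] at hx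
      exact hx)
    cases i
    · exact h1 0 (by omega)
    · exact h1 1 le_rfl

end Pool.Agent.EvM
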