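import Pool.Agent.EvM.EmTorY
import Pool.Agent.EvM.EmIny
import Pool.Agent.EvM.EmFLb
import Pool.Agent.EvM.EmPres
import Pool.Agent.EvM.EmPowI

set_option autoImplicit false

/-! # Regularity in the chart of a coordinate -/

namespace Pool.Agent.EvM

open MvPolynomial Pool.Agent.NT9

variable {σ : Type} [Fintype σ] [DecidableEq σ] {K0 K : Type} [Field K0] [Field K]
  {B0 B : Subring K0} {θ : MvPolynomial σ ℤ →+* K} {j : K0 →+* K} {f t : MvPolynomial σ ℤ}
  {T lam : K0} {X : σ → K0} {Pm : σ → σ → K0} {qv r : σ → K0} {I : Type} [Fintype I]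

private theorem ry_coe_aeval {τ : Type} (B : Subring K0) (x : τ → B) (g : MvPolynomial τ ℤ) :
    ((aeval x g : B) : K0) = aeval (fun s => (x s : K0)) g := by
  have h : (B.subtype).comp (aeval x : MvPolynomial τ ℤ →ₐ[ℤ] B).toRingHom =
      (aeval (fun s => (x s : K0)) : MvPolynomial τ ℤ →ₐ[ℤ] K0).toRingHom := by
    apply MvPolynomial.ringHom_ext
    · intro n
      simp
    · intro i
      simp
  exact congrArg (fun φ : MvPolynomial τ ℤ →+* K0 => φ g) h

private theorem ry_pi_mem (j : K0 →+* K) (B : Subring K0) {ι : Type} (W : ι → K) (O : Subring K)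
    (hB : ∀ b ∈ B, j b ∈ O) (hW : ∀ i, W i ∈ O) (h : MvPolynomial ι B) : piW j B W h ∈ O := by
  induction h using MvPolynomial.induction_on with
  | C b =>
    have h1 : piW j B W (C b) = j b := by simp [piW]
    rw [h1]
    exact hB _ b.2
  | add p q hp hq =>
    rw [map_add]
    exact add_mem hp hq
  | mul_X p i hp =>
    have h1 : piW j B W (MvPolynomial.X i) = W i := by simp [piW]
    rw [map_mul, h1]
    exact mul_mem hp (hW i)

/-- Proof. `exists_GY` over the ring `B`: `G1`, `G2`. `P` := the elements `h` with `π h ∈ mx O'` (`π = piW j B (evY ..)`); `P.comap C = maximalIdeal B`; `fl_reg`. `regular_of_pres'` with the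
index type `Option (I ⊕ Bool)`, `g none = V l - 1`, `g (some (inl i)) = rY i`, `g (some (inr false)) = G1`, `g (some (inr true)) = G2`, `tor_y`. Independence: `ind_y`, where `jY σ I M ≤ P`,
`C (hes ..)`; `hind` is `fl_ind` (`RP.ind` in the ring `B`: `mem_mp_ideal`). -/
theorem regular_y [DecidableEq I] (cd : CD B0 θ j f t T X lam Pm qv r) (hle : B0 ≤ B)
    {e : I → K0} (hRP : RP B e) {M : K0} (hM : M ∈ B) (hM0 : M ≠ 0)
    (h0 : ∃ a : I → K0, (∀ i, a i ∈ B) ∧ d0 t T X = M * ∑ i, a i * e i)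
    (hs : ∀ s, ∃ b : I → K0, (∀ i, b i ∈ B) ∧ ds f t lam X s = M * ∑ i, b i * e i)
    (hw : ∃ c : I → I → K0, (∀ i i', c i i' ∈ B) ∧
      wv f t T lam X = M ^ 2 * ∑ i, ∑ i', c i i' * e i * e i')
    {O' : Subring K} [IsLocalRing O'] (hB : ∀ b ∈ B, j b ∈ O') (hm : ∀ b ∈ mx B, j b ∈ mx O')
    {Y : K} (hY : Y ≠ 0) (hYO : Y ∈ O') {l : σ} (hl : Wc θ j X M l = Y)
    (hV : ∀ s, Wc θ j X M s / Y ∈ O') (hU : ∀ i, j (e i) / Y ∈ mx O') (hMY : j M * Y ∈ mx O')
    (hfr : ∀ x ∈ O', ∃ u v : MvPolynomial (σ ⊕ (Unit ⊕ I)) B,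
      piW j B (evY θ j X M Y e) v ≠ 0 ∧ (piW j B (evY θ j X M Y e) v)⁻¹ ∈ O' ∧
        x * piW j B (evY θ j X M Y e) v = piW j B (evY θ j X M Y e) u) :
    IsRegularLocalRing O' := by
  have hreg : IsRegularLocalRing B := hRP.reg
  have hlocB : IsLocalRing B := inferInstance
  obtain ⟨a0, ha0, h0⟩ := h0
  choose b0 hb0 hs using hs
  obtain ⟨c0, hc0, hw⟩ := hw
  let Mb : B := ⟨M, hM⟩
  let Xb : σ → B := fun s => ⟨X s, hle (cd.XB s)⟩
  let Tb : B := ⟨T, hle cd.TB⟩
  let lamb : B := ⟨lam, hle cd.lamB⟩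
  let eb : I → B := fun i => ⟨e i, (hRP.mem i).1⟩
  let a : I → B := fun i => ⟨_, ha0 i⟩
  let b : σ → I → B := fun s i => ⟨_, hb0 s i⟩
  let c : I → I → B := fun i i' => ⟨_, hc0 i i'⟩
  have hev : ∀ g : MvPolynomial σ ℤ, ((aeval Xb g : B) : K0) = aeval X g := fun g =>
    ry_coe_aeval B Xb g
  have ha : Mb * ∑ i, a i * eb i = aeval Xb t - Tb := by
    apply Subtype.ext
    push_cast
    rw [hev]
    exact h0.symm
  have hb : ∀ s, Mb * ∑ i, b s i * eb i = aeval Xb (pderiv s f) -
      lamb * aeval Xb (pderiv s t) := by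
    intro s
    apply Subtype.ext
    push_cast
    rw [hev, hev]
    exact (hs s).symm
  have hc : Mb ^ 2 * ∑ i, ∑ i', c i i' * eb i * eb i' =
      aeval Xb f - lamb * (aeval Xb t - Tb) := by
    apply Subtype.ext
    push_cast
    rw [hev, hev]
    exact hw.symm
  obtain ⟨G1, G2, hG1, hG2, hd1, hd2, hG1c, hG2c⟩ :=
    exists_GY f t Xb Tb lamb Mb eb a b c ha hb hc
  have heb : (fun i => ((eb i : B) : K0)) = e := rfl
  set π : MvPolynomial (σ ⊕ (Unit ⊕ I)) B →+* K := piW j B (evY θ j X M Y e) with hπdef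
  have hWO : ∀ i, evY θ j X M Y e i ∈ O' := by
    intro i
    rcases i with s | (u | i)
    · exact hV s
    · exact hYO
    · exact (hU i).1
  have hπO : ∀ h, π h ∈ O' := ry_pi_mem j B _ O' hB hWO
  have hπC : ∀ x : B, π (C x) = j x := by
    intro x
    simp [hπdef, piW]
  have hπX : ∀ s, π (MvPolynomial.X s) = evY θ j X M Y e s := by
    intro s
    simp [hπdef, piW]
  let π' : MvPolynomial (σ ⊕ (Unit ⊕ I)) B →+* O' := π.codRestrict O' hπO
  let P : Ideal (MvPolynomial (σ ⊕ (Unit ⊕ I)) B) := (IsLocalRing.maximalIdeal O').comap π'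
  have hPp : P.IsPrime := Ideal.IsPrime.comap _
  have hP : ∀ h, h ∈ P ↔ π h ∈ mx O' := by
    intro h
    have h1 := mem_mx_iff (O := O') (π' h)
    have h2 : ((π' h : O') : K) = π h := rfl
    rw [h2] at h1
    rw [h1]
    exact Ideal.mem_comap
  have hCP : ∀ x : B, (x : K0) ∈ mx B → C x ∈ P := by
    intro x hx
    rw [hP, hπC]
    exact hm _ hx
  have hPC : P.comap C = IsLocalRing.maximalIdeal B := by
    apply le_antisymm
    · apply IsLocalRing.le_maximalIdeal
      exact (Ideal.IsPrime.comap (C : B →+* MvPolynomial (σ ⊕ (Unit ⊕ I)) B)).ne_top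
    · intro x hx
      exact hCP x ((mem_mx_iff x).2 hx)
  have hregP := fl_reg P hPC
  obtain ⟨hz, htor⟩ := tor_y cd hle (M := Mb) hM0 hY hl eb G1 G2 hG1 hG2
  rw [heb] at hz htor
  have hUP : ∀ i, MvPolynomial.X (Sum.inr (Sum.inr i)) ∈ P := by
    intro i
    rw [hP, hπX]
    exact hU i
  have hjP : jY σ I Mb ≤ P := by
    unfold jY
    rw [Ideal.span_le]
    rintro y hy
    rw [Set.mem_insert_iff] at hy
    rcases hy with rfl | ⟨i, rfl⟩
    · rw [SetLike.mem_coe, hP, map_mul, hπC, hπX]
      exact hMY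
    · exact hUP i
  have hrelP : relI l eb G1 G2 ≤ P := by
    intro y hy
    rw [hP]
    have h1 : π y = 0 := hz y hy
    rw [h1]
    exact zero_mem_mx
  have hlP : MvPolynomial.X (Sum.inl l) - 1 ∈ P :=
    hrelP (Ideal.subset_span (Set.mem_insert _ _))
  have hG1r : G1 ∈ relI l eb G1 G2 :=
    Ideal.subset_span (Set.mem_insert_of_mem _ (Set.mem_insert _ _))
  have hG2r : G2 ∈ relI l eb G1 G2 :=
    Ideal.subset_span (Set.mem_insert_of_mem _ (Set.mem_insert_of_mem _ (Set.mem_insert _ _)))
  have hrr : ∀ i, rY σ eb i ∈ relI l eb G1 G2 := fun i =>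
    Ideal.subset_span (Set.mem_insert_of_mem _ (Set.mem_insert_of_mem _
      (Set.mem_insert_of_mem _ ⟨i, rfl⟩)))
  have hG1P : G1 ∈ P := hrelP hG1r
  have hG2P : G2 ∈ P := hrelP hG2r
  let g : Option (I ⊕ Bool) → MvPolynomial (σ ⊕ (Unit ⊕ I)) B := fun x =>
    match x with
    | none => MvPolynomial.X (Sum.inl l) - 1
    | some (Sum.inl i) => rY σ eb i
    | some (Sum.inr b) => if b then G2 else G1
  refine regular_of_pres' (T := MvPolynomial (σ ⊕ (Unit ⊕ I)) B) (ι := Option (I ⊕ Bool)) O' π hπO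
    hfr g ?_ ?_ P hP hregP ?_
  · intro i
    apply hz
    rcases i with _ | (i | b)
    · exact Ideal.subset_span (Set.mem_insert _ _)
    · exact hrr i
    · cases b
      · exact hG1r
      · exact hG2r
  · intro h hh
    obtain ⟨e', he', h1⟩ := htor h hh
    refine ⟨e', he', ?_⟩
    have h2 : relI l eb G1 G2 ≤ Ideal.span (Set.range g) := by
      unfold relI
      rw [Ideal.span_le]
      rintro y hy
      rw [Set.mem_insert_iff, Set.mem_insert_iff, Set.mem_insert_iff] at hy
      rcases hy with rfl | rfl | rfl | ⟨i, rfl⟩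
      · exact Ideal.subset_span ⟨none, rfl⟩
      · exact Ideal.subset_span ⟨some (Sum.inr false), rfl⟩
      · exact Ideal.subset_span ⟨some (Sum.inr true), rfl⟩
      · exact Ideal.subset_span ⟨some (Sum.inl i), rfl⟩
    exact h2 h1
  · intro al hal
    have hal' : al none * (MvPolynomial.X (Sum.inl l) - 1) +
        al (some (Sum.inr false)) * G1 + al (some (Sum.inr true)) * G2 +
        ∑ i, al (some (Sum.inl i)) * rY σ eb i ∈ P ^ 2 := by
      have h1 := hal
      rw [Fintype.sum_option, Fintype.sum_sum_type, Fintype.sum_bool] at h1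
      have h2 : al none * g none + (∑ i, al (some (Sum.inl i)) * g (some (Sum.inl i)) +
          (al (some (Sum.inr true)) * g (some (Sum.inr true)) +
            al (some (Sum.inr false)) * g (some (Sum.inr false)))) =
          al none * (MvPolynomial.X (Sum.inl l) - 1) +
        al (some (Sum.inr false)) * G1 + al (some (Sum.inr true)) * G2 +
        ∑ i, al (some (Sum.inl i)) * rY σ eb i := by
        simp only [g, if_true, Bool.false_eq_true, if_false]
        ring
      rwa [h2] at h1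
    have key := ind_y P (fun s => aeval Xb (pderiv s t))
      (fun s s' => aeval Xb (pderiv s (pderiv s' f)) - lamb * aeval Xb (pderiv s (pderiv s' t)))
      (fun s s' => ⟨Pm s s', hle (cd.PmB s s')⟩) (fun s => ⟨qv s, hle (cd.qvB s)⟩)
      (fun s => ⟨r s, hle (cd.rB s)⟩)
      (by
        intro s s'
        apply Subtype.ext
        have h1 := cd.inv1 s s'
        simp only [hes] at h1
        push_cast
        simp only [hev]
        rw [h1]
        split_ifs <;> simp)
      (by
        intro s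
        apply Subtype.ext
        push_cast
        simp only [hev]
        exact cd.inv2 s)
      (by
        apply Subtype.ext
        push_cast
        simp only [hev]
        exact cd.inv3)
      l eb G1 G2 hG1P hG2P hlP hUP (fun i => hrelP (hrr i))
      (fun s => hjP (hd1 s)) (fun s => hjP (hd2 s))
      (by
        have h1 := hjP hG1c
        have h2 : ∑ s, C (aeval Xb (pderiv s t)) * MvPolynomial.X (Sum.inl s) =
          G1 - (G1 - ∑ s, C (aeval Xb (pderiv s t)) * MvPolynomial.X (Sum.inl s)) := by ring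
        rw [h2]
        exact sub_mem hG1P h1)
      (by
        have h1 := hjP hG2c
        have h2 : ∑ s, MvPolynomial.X (Sum.inl s) * ∑ s', C (aeval Xb (pderiv s (pderiv s' f)) -
            lamb * aeval Xb (pderiv s (pderiv s' t))) * MvPolynomial.X (Sum.inl s') =
          2 * G2 - (2 * G2 - ∑ s, MvPolynomial.X (Sum.inl s) *
            ∑ s', C (aeval Xb (pderiv s (pderiv s' f)) -
            lamb * aeval Xb (pderiv s (pderiv s' t))) * MvPolynomial.X (Sum.inl s')) := by ring
        rw [h2]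
        exact sub_mem (P.mul_mem_left _ hG2P) h1)
      (by
        intro a' ha' i
        refine fl_ind P hPC eb (fun i => (mem_mx_iff (eb i)).1 (hRP.mem i)) ?_ a' ha' i
        intro a'' ha'' i
        refine (mem_mx_iff (a'' i)).1 (hRP.ind (fun i => (a'' i : K0)) (fun i => (a'' i).2) ?_ i)
        refine mem_mp_ideal.2 ⟨_, ha'', ?_⟩
        push_cast
        rfl)
      (al none) (al (some (Sum.inr false))) (al (some (Sum.inr true)))
      (fun i => al (some (Sum.inl i))) hal'
    obtain ⟨k1, k2, k3, k4⟩ := key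
    intro i
    rcases i with _ | (i | b)
    · exact k1
    · exact k4 i
    · cases b
      · exact k2
      · exact k3

end Pool.Agent.EvM
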