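import Pool.Agent.EvM.EmTorZ
import Pool.Agent.EvM.EmGz
import Pool.Agent.EvM.EmInz
import Pool.Agent.EvM.EmFLa
import Pool.Agent.EvM.EmPres
import Pool.Agent.EvM.EmPowI

set_option autoImplicit false

/-! # Regularity in the chart of the exceptional parameter -/

namespace Pool.Agent.EvM

open MvPolynomial Pool.Agent.NT9

variable {σ : Type} [Fintype σ] [DecidableEq σ] {K0 K : Type} [Field K0] [Field K]
  {B0 B : Subring K0} {θ : MvPolynomial σ ℤ →+* K} {j : K0 →+* K} {f t : MvPolynomial σ ℤ}
  {T lam : K0} {X : σ → K0} {Pm : σ → σ → K0} {qv r : σ → K0}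

private theorem rz_coe_aeval {τ : Type} (B : Subring K0) (x : τ → B) (g : MvPolynomial τ ℤ) :
    ((aeval x g : B) : K0) = aeval (fun s => (x s : K0)) g := by
  have h : (B.subtype).comp (aeval x : MvPolynomial τ ℤ →ₐ[ℤ] B).toRingHom =
      (aeval (fun s => (x s : K0)) : MvPolynomial τ ℤ →ₐ[ℤ] K0).toRingHom := by
    apply MvPolynomial.ringHom_ext
    · intro n
      simp
    · intro i
      simp
  exact congrArg (fun φ : MvPolynomial τ ℤ →+* K0 => φ g) h

private theorem rz_pi_mem (j : K0 →+* K) (B : Subring K0) {ι : Type} (W : ι → K) (O : Subring K)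
    (hB : ∀ b ∈ B, j b ∈ O) (hW : ∀ i, W i ∈ O) (h : MvPolynomial ι B) : piW j B W h ∈ O := by
  induction h using MvPolynomial.induction_on with
  | C b =>
    have h1 : piW j B W (C b) = j b := by simp [piW]
    rw [h1]
    exact hB _ b.2
  | add p q hp hq =>
    rw [map_add]
    exact add_mem hp hq
  | mul_X p i hp =>
    have h1 : piW j B W (MvPolynomial.X i) = W i := by simp [piW]
    rw [map_mul, h1]
    exact mul_mem hp (hW i)

/-- Proof. `exists_G` over the ring `B` with `a = d0 / M`, `b s = ds s / M`, `c = wv / M ^ 2`: `G1`, `G2`. `P` := the elements `h` with `π h ∈ mx O'` (`π = piW ..`); `P.comap C = maximalIdeal B`;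
`fl_reg`. `regular_of_pres'` with `g false = G1`, `g true = G2`, `tor_z`. Independence: `C M ∈ P`, `C a ∈ P`, `C (b s) ∈ P`; `ind_z` with `H s s' = hes f t lam X s s'`. It remains
the case that all `X s ∈ P`, `a1 ∉ P`, `wv / M ^ 2 ∉ mp B 2`: take constant coefficients (`constantCoeff : MvPolynomial σ B → B` maps `P` into the maximal ideal as `h - C (h 0)` is in the ideal
of the variables, so `P ^ 2` into its square): `a0 (0) (d0 / M) + a1 (0) (wv / M ^ 2) ∈ mp B 2` (`mem_mp_ideal` or `mp_mul`) with `a0 (0), d0 / M ∈ mx B` and `a1 (0)` a unit: contradiction. -/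
theorem regular_z (cd : CD B0 θ j f t T X lam Pm qv r) (hle : B0 ≤ B)
    (hreg : IsRegularLocalRing B) {M : K0} (hM : M ∈ mx B) (hM0 : M ≠ 0)
    (h0 : d0 t T X / M ∈ mx B) (hs : ∀ s, ds f t lam X s / M ∈ mx B)
    (hw : wv f t T lam X / M ^ 2 ∈ B) {O' : Subring K} [IsLocalRing O'] (hB : ∀ b ∈ B, j b ∈ O')
    (hm : ∀ b ∈ mx B, j b ∈ mx O') (hW : ∀ s, Wc θ j X M s ∈ O')
    (hfr : ∀ x ∈ O', ∃ u v : MvPolynomial σ B, piW j B (Wc θ j X M) v ≠ 0 ∧
      (piW j B (Wc θ j X M) v)⁻¹ ∈ O' ∧ x * piW j B (Wc θ j X M) v = piW j B (Wc θ j X M) u)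
    (hns : (∃ s, Wc θ j X M s ∉ mx O') ∨ wv f t T lam X / M ^ 2 ∉ mp B 2) :
    IsRegularLocalRing O' := by
  have hlocB : IsLocalRing B := inferInstance
  let Mb : B := ⟨M, hM.1⟩
  let Xb : σ → B := fun s => ⟨X s, hle (cd.XB s)⟩
  let Tb : B := ⟨T, hle cd.TB⟩
  let lamb : B := ⟨lam, hle cd.lamB⟩
  let a : B := ⟨_, h0.1⟩
  let b : σ → B := fun s => ⟨_, (hs s).1⟩
  let c : B := ⟨_, hw⟩
  have hev : ∀ g : MvPolynomial σ ℤ, ((aeval Xb g : B) : K0) = aeval X g := fun g =>
    rz_coe_aeval B Xb g
  have ha : Mb * a = aeval Xb t - Tb := by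
    apply Subtype.ext
    show M * (d0 t T X / M) = ((aeval Xb t : B) : K0) - T
    rw [mul_div_cancel₀ _ hM0, hev, d0]
  have hb : ∀ s, Mb * b s = aeval Xb (pderiv s f) - lamb * aeval Xb (pderiv s t) := by
    intro s
    apply Subtype.ext
    show M * (ds f t lam X s / M) = ((aeval Xb (pderiv s f) : B) : K0) -
      lam * ((aeval Xb (pderiv s t) : B) : K0)
    rw [mul_div_cancel₀ _ hM0, hev, hev, ds]
  have hc : Mb ^ 2 * c = aeval Xb f - lamb * (aeval Xb t - Tb) := by
    apply Subtype.ext
    show M ^ 2 * (wv f t T lam X / M ^ 2) = ((aeval Xb f : B) : K0) -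
      lam * (((aeval Xb t : B) : K0) - T)
    rw [mul_div_cancel₀ _ (pow_ne_zero 2 hM0), hev, hev, wv]
  obtain ⟨G1, G2, hG1, hG2, hd1, hd2, hG1c, hk1, hk2⟩ := exists_G f t Xb Tb lamb Mb a b c ha hb hc
  set π : MvPolynomial σ B →+* K := piW j B (Wc θ j X M) with hπdef
  have hπO : ∀ h, π h ∈ O' := rz_pi_mem j B _ O' hB hW
  have hπC : ∀ x : B, π (C x) = j x := by
    intro x
    simp [hπdef, piW]
  have hπX : ∀ s, π (MvPolynomial.X s) = Wc θ j X M s := by
    intro s
    simp [hπdef, piW]
  let π' : MvPolynomial σ B →+* O' := π.codRestrict O' hπO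
  let P : Ideal (MvPolynomial σ B) := (IsLocalRing.maximalIdeal O').comap π'
  have hPp : P.IsPrime := Ideal.IsPrime.comap _
  have hP : ∀ h, h ∈ P ↔ π h ∈ mx O' := by
    intro h
    have h1 := mem_mx_iff (O := O') (π' h)
    have h2 : ((π' h : O') : K) = π h := rfl
    rw [h2] at h1
    rw [h1]
    exact Ideal.mem_comap
  have hCP : ∀ x : B, (x : K0) ∈ mx B → C x ∈ P := by
    intro x hx
    rw [hP, hπC]
    exact hm _ hx
  have hPC : P.comap C = IsLocalRing.maximalIdeal B := by
    apply le_antisymm
    · apply IsLocalRing.le_maximalIdeal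
      exact (Ideal.IsPrime.comap (C : B →+* MvPolynomial σ B)).ne_top
    · intro x hx
      exact hCP x ((mem_mx_iff x).2 hx)
  have hregP := fl_reg P hPC
  obtain ⟨hz1, hz2, htor⟩ := tor_z cd hle (M := Mb) hM0 G1 G2 hG1 hG2
  have hMP : C Mb ∈ P := hCP Mb hM
  have hspan : ∀ y : MvPolynomial σ B, y ∈ Ideal.span {(C Mb : MvPolynomial σ B)} → y ∈ P := by
    intro y hy
    have h1 : Ideal.span {(C Mb : MvPolynomial σ B)} ≤ P := by
      rw [Ideal.span_le]
      rintro _ rfl
      exact hMP
    exact h1 hy
  have hG1P : G1 ∈ P := by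
    rw [hP, hz1]
    exact zero_mem_mx
  have hG2P : G2 ∈ P := by
    rw [hP, hz2]
    exact zero_mem_mx
  refine regular_of_pres' (T := MvPolynomial σ B) (ι := Bool) O' π hπO hfr
    (fun i => if i then G2 else G1) ?_ ?_ P hP hregP ?_
  · intro i
    cases i
    · exact hz1
    · exact hz2
  · intro h hh
    obtain ⟨e, he, h1⟩ := htor h hh
    refine ⟨e, he, ?_⟩
    have h2 : Set.range (fun i : Bool => if i then G2 else G1) = {G1, G2} := by
      ext y
      simp only [Set.mem_range, Bool.exists_bool, Set.mem_insert_iff, Set.mem_singleton_iff]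
      constructor
      · rintro (h | h)
        · left
          simpa using h.symm
        · right
          simpa using h.symm
      · rintro (h | h)
        · left
          simpa using h.symm
        · right
          simpa using h.symm
    rw [h2]
    exact h1
  · intro al hal
    have hal' : al false * G1 + al true * G2 ∈ P ^ 2 := by
      have h1 := hal
      rw [Fintype.sum_bool] at h1
      simp only [if_true, Bool.false_eq_true, if_false] at h1
      rw [add_comm]
      exact h1
    have key := ind_z P (fun s => aeval Xb (pderiv s t))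
      (fun s s' => aeval Xb (pderiv s (pderiv s' f)) - lamb * aeval Xb (pderiv s (pderiv s' t)))
      (fun s s' => ⟨Pm s s', hle (cd.PmB s s')⟩) (fun s => ⟨qv s, hle (cd.qvB s)⟩)
      (fun s => ⟨r s, hle (cd.rB s)⟩)
      (by
        intro s s'
        apply Subtype.ext
        have h1 := cd.inv1 s s'
        simp only [hes] at h1
        push_cast
        simp only [hev]
        rw [h1]
        split_ifs <;> simp)
      (by
        intro s
        apply Subtype.ext
        push_cast
        simp only [hev]
        exact cd.inv2 s)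
      (by
        apply Subtype.ext
        push_cast
        simp only [hev]
        exact cd.inv3)
      G1 G2 hG1P hG2P (fun s => hspan _ (hd1 s))
      (by
        intro s
        have h1 := hspan _ (hd2 s)
        have h2 := add_mem h1 (hCP (b s) (hs s))
        have h3 : pderiv s G2 - C (b s) - ∑ s', C (aeval Xb (pderiv s (pderiv s' f)) -
          lamb * aeval Xb (pderiv s (pderiv s' t))) * MvPolynomial.X s' + C (b s) =
          pderiv s G2 - ∑ s', C (aeval Xb (pderiv s (pderiv s' f)) -
          lamb * aeval Xb (pderiv s (pderiv s' t))) * MvPolynomial.X s' := by ring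
        rwa [h3] at h2)
      (by
        have h1 := hspan _ hG1c
        have h2 : ∑ s, C (aeval Xb (pderiv s t)) * MvPolynomial.X s =
          G1 - C a - (G1 - C a - ∑ s, C (aeval Xb (pderiv s t)) * MvPolynomial.X s) := by ring
        rw [h2]
        exact sub_mem (sub_mem hG1P (hCP a h0)) h1)
      (al false) (al true) hal'
    obtain ⟨k1, k2⟩ := key
    have k3 : al true ∈ P := by
      rcases k2 with k2 | k2
      · exact k2
      · rcases hns with ⟨s, hns⟩ | hns
        · exfalso
          apply hns
          rw [← hπX, ← hP]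
          exact k2 s
        · by_contra hcon
          apply hns
          have hcc : ∀ h : MvPolynomial σ B, h - C (constantCoeff h) ∈ P := by
            intro h
            induction h using MvPolynomial.induction_on with
            | C x =>
              rw [constantCoeff_C, sub_self]
              exact P.zero_mem
            | add p q hp hq =>
              have h1 : p + q - C (constantCoeff (p + q)) =
                  (p - C (constantCoeff p)) + (q - C (constantCoeff q)) := by
                rw [map_add, C_add]
                ring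
              rw [h1]
              exact add_mem hp hq
            | mul_X p i hp =>
              rw [map_mul, constantCoeff_X, mul_zero, C_0, sub_zero]
              exact P.mul_mem_left _ (k2 i)
          have hcm : ∀ h ∈ P, constantCoeff h ∈ IsLocalRing.maximalIdeal B := by
            intro h hh
            rw [← hPC, Ideal.mem_comap]
            have h1 : C (constantCoeff h) = h - (h - C (constantCoeff h)) := by ring
            rw [h1]
            exact sub_mem hh (hcc h)
          have hmap : P.map (constantCoeff : MvPolynomial σ B →+* B) ≤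
              IsLocalRing.maximalIdeal B := by
            rw [Ideal.map_le_iff_le_comap]
            intro h hh
            exact hcm h hh
          have h1 : constantCoeff (al false * G1 + al true * G2) ∈
              IsLocalRing.maximalIdeal B ^ 2 := by
            have h2 := Ideal.mem_map_of_mem (constantCoeff : MvPolynomial σ B →+* B) hal'
            rw [Ideal.map_pow] at h2
            exact Ideal.pow_right_mono hmap 2 h2
          rw [map_add, map_mul, map_mul, hk1, hk2] at h1
          have h2 : constantCoeff (al false) * a ∈ IsLocalRing.maximalIdeal B ^ 2 := by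
            rw [pow_two]
            exact Ideal.mul_mem_mul (hcm _ k1) ((mem_mx_iff a).1 h0)
          have h3 : constantCoeff (al true) * c ∈ IsLocalRing.maximalIdeal B ^ 2 := by
            have h4 := sub_mem h1 h2
            rwa [add_sub_cancel_left] at h4
          have h4 : IsUnit (constantCoeff (al true)) := by
            by_contra h5
            apply hcon
            have h6 : constantCoeff (al true) ∈ IsLocalRing.maximalIdeal B := by
              rw [IsLocalRing.mem_maximalIdeal]
              exact h5
            rw [← hPC, Ideal.mem_comap] at h6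
            have h7 : al true = (al true - C (constantCoeff (al true))) +
              C (constantCoeff (al true)) := by ring
            rw [h7]
            exact add_mem (hcc _) h6
          have h5 : c ∈ IsLocalRing.maximalIdeal B ^ 2 := by
            exact ((IsLocalRing.maximalIdeal B ^ 2).unit_mul_mem_iff_mem h4).1 h3
          exact mem_mp_ideal.2 ⟨c, h5, rfl⟩
    intro i
    cases i
    · exact k1
    · exact k3

end Pool.Agent.EvM
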