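import Mathlib

set_option autoImplicit false

/-! # Taylor expansion with quadratic remainder -/

namespace Pool.Agent.EvM

open MvPolynomial

variable {σ : Type} [Fintype σ] [DecidableEq σ]

omit [Fintype σ] in
private theorem em_pderiv_mul_X (p : MvPolynomial σ ℤ) (i s : σ) :
    pderiv s (p * X i) = pderiv s p * X i + if s = i then p else 0 := by
  rw [pderiv_mul, pderiv_X, Pi.single_apply]
  by_cases h : s = i
  · rw [if_pos h, if_pos h.symm, mul_one]
  · rw [if_neg h, if_neg (Ne.symm h), mul_zero]

/-- Proof. `MvPolynomial.induction_on`: constants `Q = 0`; sums: sums; `h * X i`: `Q' s s' = Q s s' * (X (inl i) + X (inr i)) + if s' = i then rename inl (pderiv s h) else 0`. -/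
theorem taylor2 (h : MvPolynomial σ ℤ) : ∃ Q : σ → σ → MvPolynomial (σ ⊕ σ) ℤ,
    (∀ (R : Type) [CommRing R] (x u : σ → R), aeval (fun s => x s + u s) h = aeval x h +
      ∑ s, aeval x (pderiv s h) * u s +
      ∑ s, ∑ s', aeval (Sum.elim x u) (Q s s') * u s * u s') ∧
    ∀ (R : Type) [CommRing R] (x : σ → R) (s s' : σ), aeval (Sum.elim x (0 : σ → R)) (Q s s') +
      aeval (Sum.elim x (0 : σ → R)) (Q s' s) = aeval x (pderiv s (pderiv s' h)) := by
  induction h using MvPolynomial.induction_on with
  | C a =>
    refine ⟨fun _ _ => 0, fun R _ x u => ?_, fun R _ x s s' => ?_⟩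
    · simp
    · simp
  | add p q hp hq =>
    obtain ⟨P, hP1, hP2⟩ := hp
    obtain ⟨Q, hQ1, hQ2⟩ := hq
    refine ⟨fun s s' => P s s' + Q s s', fun R _ x u => ?_, fun R _ x s s' => ?_⟩
    · simp only [map_add, hP1, hQ1, add_mul, Finset.sum_add_distrib]
      ring
    · simp only [map_add, ← hP2, ← hQ2]
      ring
  | mul_X p i hp =>
    obtain ⟨P, hP1, hP2⟩ := hp
    refine ⟨fun s s' => P s s' * (X (Sum.inl i) + X (Sum.inr i)) +
      if s' = i then rename Sum.inl (pderiv s p) else 0, fun R _ x u => ?_, fun R _ x s s' => ?_⟩
    · have h1 : ∀ s, aeval x (pderiv s (p * X i)) * u s = (aeval x (pderiv s p) * u s) * x i +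
          if s = i then aeval x p * u s else 0 := by
        intro s
        rw [em_pderiv_mul_X, map_add, map_mul, aeval_X]
        split_ifs
        · ring
        · rw [map_zero]
          ring
      have h2 : ∀ s s', aeval (Sum.elim x u) (P s s' * (X (Sum.inl i) + X (Sum.inr i)) +
          if s' = i then rename Sum.inl (pderiv s p) else 0) * u s * u s' =
          (aeval (Sum.elim x u) (P s s') * u s * u s') * (x i + u i) +
            if s' = i then aeval x (pderiv s p) * u s * u s' else 0 := by
        intro s s'
        rw [map_add, map_mul, map_add, aeval_X, aeval_X, Sum.elim_inl, Sum.elim_inr]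
        split_ifs
        · rw [aeval_rename, Sum.elim_comp_inl]
          ring
        · rw [map_zero]
          ring
      rw [map_mul, hP1, aeval_X, map_mul, aeval_X, Finset.sum_congr rfl fun s _ => h1 s,
        Finset.sum_congr rfl fun s _ => Finset.sum_congr rfl fun s' _ => h2 s s']
      simp only [Finset.sum_add_distrib, ← Finset.sum_mul, Finset.sum_ite_eq', Finset.mem_univ,
        if_true]
      ring
    · rw [em_pderiv_mul_X, map_add (pderiv s), em_pderiv_mul_X]
      simp only [map_add, map_mul, aeval_X, Sum.elim_inl, Sum.elim_inr]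
      rw [← hP2]
      have h3 : ∀ s s', aeval (Sum.elim x (0 : σ → R)) (if s' = i then
          rename Sum.inl (pderiv s p) else 0 : MvPolynomial (σ ⊕ σ) ℤ) =
          if s' = i then aeval x (pderiv s p) else 0 := by
        intro s s'
        split_ifs
        · rw [aeval_rename, Sum.elim_comp_inl]
        · rw [map_zero]
      have h4 : aeval x (if s = i then pderiv s' p else 0) =
          if s = i then aeval x (pderiv s' p) else 0 := by
        split_ifs
        · rfl
        · rw [map_zero]
      have h5 : aeval x (pderiv s (if s' = i then p else 0)) =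
          if s' = i then aeval x (pderiv s p) else 0 := by
        split_ifs
        · rfl
        · rw [map_zero, map_zero]
      rw [h3, h3, h4, h5, Pi.zero_apply]
      ring

end Pool.Agent.EvM
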