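import Pool.Agent.EvM.EmNd

set_option autoImplicit false

/-! # torsion modulo a prime -/

namespace Pool.Agent.EvM

open Pool.Agent.NT9

variable {K0 : Type} [Field K0] {B0 B B' : Subring K0} {s t E M w : K0}
  {D : Derivation ℤ K0 K0} {p i L κ : ℕ}

private theorem tor_height (h0 : P2 B0 s t) [IsLocalRing B0] [IsNoetherianRing B0] :
    (IsLocalRing.maximalIdeal B0).height ≤ 2 := by
  classical
  have hs : s ∈ B0 := mx_le h0.hs
  have ht : t ∈ B0 := mx_le h0.ht
  have hspan : IsLocalRing.maximalIdeal B0 =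
      Ideal.span (({⟨s, hs⟩, ⟨t, ht⟩} : Finset B0) : Set B0) := by
    refine le_antisymm (fun x hx => ?_) ?_
    · have hx' : (x : K0) ∈ mx B0 := (mem_mx_iff x).2 hx
      obtain ⟨a, ha, b, hb, hab⟩ := h0.gen x hx'
      have e : x = (⟨a, ha⟩ : B0) * ⟨s, hs⟩ + (⟨b, hb⟩ : B0) * ⟨t, ht⟩ := Subtype.ext hab
      rw [e]
      refine Ideal.add_mem _ (Ideal.mul_mem_left _ _ (Ideal.subset_span ?_))
        (Ideal.mul_mem_left _ _ (Ideal.subset_span ?_))
      · simp
      · simp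
    · rw [Ideal.span_le]
      intro y hy
      rw [Finset.coe_insert, Finset.coe_singleton, Set.mem_insert_iff, Set.mem_singleton_iff] at hy
      rcases hy with rfl | rfl
      · exact (mem_mx_iff (⟨s, hs⟩ : B0)).1 h0.hs
      · exact (mem_mx_iff (⟨t, ht⟩ : B0)).1 h0.ht
  have hmin : IsLocalRing.maximalIdeal B0 ∈
      (Ideal.span (({⟨s, hs⟩, ⟨t, ht⟩} : Finset B0) : Set B0)).minimalPrimes := by
    rw [← hspan]
    exact ⟨⟨inferInstance, le_rfl⟩, fun q hq _ => hq.2⟩
  refine (Ideal.height_le_card_of_mem_minimalPrimes_span_finset hmin).trans ?_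
  exact_mod_cast Finset.card_le_two

/-- Proof. `Q0 = Q ∩ B0` is a prime ideal `≠ 0` of `B0` (it contains `w = M^2 (w / M^2)`), `p ∉ Q0`. `frac`: `b v = u`, `v ∉ Q0`. A prime ideal of `B0` which contains `Q0` and `v` contains
`Q0` strictly, so it is the maximal ideal (`B0` has dimension 2: `P2`), so it contains `p`: `p^r = a v + z`, `a ∈ B0`, `z ∈ Q0`, `p^r b = a u + z b`. -/
theorem tor_B0 (h0 : P2 B0 s t) (hle : B0 ≤ B) {Q : Ideal B} (hQ : Q.IsPrime) (hpQ : (p : B) ∉ Q)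
    (hp : (p : K0) ∈ mx B0) (hfr : ∀ b : B, ∃ u v : B, (u : K0) ∈ B0 ∧ (v : K0) ∈ B0 ∧ v ∉ Q ∧
      b * v = u) {g : B} (hg0 : g ≠ 0) (hg : g ∈ Q) (hgB : (g : K0) ∈ B0) :
    ∀ b : B, ∃ (r : ℕ) (u : B), (u : K0) ∈ B0 ∧ (p : B) ^ r * b - u ∈ Q := by
  intro b
  have _ := h0.loc
  have _ := h0.noeth
  obtain ⟨u, v, hu, hv, hvQ, hbv⟩ := hfr b
  let ι : B0 →+* B := Subring.inclusion hle
  let Q0 : Ideal B0 := Q.comap ι
  have hQ0 : Q0.IsPrime := hQ.comap ι
  have hgQ0 : (⟨g, hgB⟩ : B0) ∈ Q0 := hg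
  have hQ0ne : Q0 ≠ ⊥ := by
    intro h
    rw [h, Ideal.mem_bot] at hgQ0
    apply hg0
    have h1 := congrArg (Subtype.val) hgQ0
    exact Subtype.ext h1
  let v0 : B0 := ⟨v, hv⟩
  have hv0 : v0 ∉ Q0 := hvQ
  let I : Ideal B0 := Q0 ⊔ Ideal.span {v0}
  have hrad : ((p : ℕ) : B0) ∈ I.radical := by
    rw [Ideal.radical_eq_sInf, Ideal.mem_sInf]
    rintro J ⟨hIJ, hJ⟩
    have hQJ : Q0 < J := by
      refine lt_of_le_of_ne (le_sup_left.trans hIJ) ?_
      intro h
      apply hv0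
      rw [h]
      exact hIJ (Ideal.mem_sup_right (Ideal.mem_span_singleton_self _))
    have hJm : J = IsLocalRing.maximalIdeal B0 := by
      by_contra hne
      have hJlt : J < IsLocalRing.maximalIdeal B0 :=
        lt_of_le_of_ne (IsLocalRing.le_maximalIdeal hJ.ne_top) hne
      have hmp : (IsLocalRing.maximalIdeal B0).IsPrime := inferInstance
      have e0 : (⊥ : Ideal B0) < Q0 := bot_lt_iff_ne_bot.2 hQ0ne
      have h1 : (⊥ : Ideal B0).height < Q0.height := Ideal.height_strict_mono_of_isPrime e0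
      have h2 : Q0.height < J.height := Ideal.height_strict_mono_of_isPrime hQJ
      have h3 : J.height < (IsLocalRing.maximalIdeal B0).height :=
        Ideal.height_strict_mono_of_isPrime hJlt
      have h4 := tor_height h0
      have h5 : (1 : ℕ∞) ≤ Q0.height := Order.one_le_iff_pos.2 (lt_of_le_of_lt zero_le' h1)
      have h6 : (2 : ℕ∞) ≤ J.height := by
        have := Order.add_one_le_of_lt h2
        refine le_trans ?_ this
        have : (2 : ℕ∞) = 1 + 1 := by norm_num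
        rw [this]
        exact add_le_add_left h5 1
      exact absurd (lt_of_le_of_lt h6 h3) (not_lt.2 h4)
    rw [hJm]
    exact (mem_mx_iff ((p : ℕ) : B0)).1 (by simpa using hp)
  obtain ⟨r, hr⟩ := hrad
  obtain ⟨z, hz, y, hy, hzy⟩ := Submodule.mem_sup.1 hr
  obtain ⟨a, rfl⟩ := Ideal.mem_span_singleton'.1 hy
  refine ⟨r, ι a * u, ?_, ?_⟩
  · exact B0.mul_mem a.2 hu
  · have h1 : (p : B) ^ r = ι z + ι a * v := by
      have h2 := congrArg ι hzy
      rw [map_add, map_mul, map_pow, map_natCast] at h2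
      rw [← h2]
      rfl
    have h3 : (p : B) ^ r * b - ι a * u = ι z * b := by
      rw [h1, ← hbv]
      ring
    rw [h3]
    exact Ideal.mul_mem_right _ _ hz

end Pool.Agent.EvM
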