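import Pool.Agent.EvM.EmDefs

set_option autoImplicit false

/-! # Torsion: reduction to the kernel of `θ` -/

namespace Pool.Agent.EvM

open MvPolynomial Pool.Agent.NT9

variable {σ : Type} [Fintype σ] [DecidableEq σ] {K0 K : Type} [Field K0] [Field K]
  {B0 B : Subring K0} {θ : MvPolynomial σ ℤ →+* K} {j : K0 →+* K} {f t : MvPolynomial σ ℤ}
  {T lam : K0} {X : σ → K0} {Pm : σ → σ → K0} {qv r : σ → K0}

private theorem TorA_coe (B : Subring K0) {T : K0} (hT : T ∈ B) (v : Polynomial ℤ) :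
    ((Polynomial.aeval (⟨T, hT⟩ : B) v : B) : K0) = Polynomial.aeval T v := by
  have h : (B.subtype.comp (Polynomial.aeval (⟨T, hT⟩ : B) : _ →ₐ[ℤ] B).toRingHom) =
      (Polynomial.aeval T : _ →ₐ[ℤ] K0).toRingHom := by
    refine Polynomial.ringHom_ext (fun a => ?_) ?_
    · simp
    · simp
  exact RingHom.congr_fun h v


/-- Common denominator. By `cd.frac` for the finitely many coefficients. -/
theorem cd_frac (cd : CD B0 θ j f t T X lam Pm qv r) (hle : B0 ≤ B) (e : MvPolynomial σ B) :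
    ∃ (v : Polynomial ℤ) (g : MvPolynomial σ (Polynomial ℤ)), Polynomial.aeval T v ≠ 0 ∧
      C (Polynomial.aeval (⟨T, hle cd.TB⟩ : B) v) * e =
        MvPolynomial.map (Polynomial.aeval (⟨T, hle cd.TB⟩ : B) : _ →ₐ[ℤ] B).toRingHom g := by
  have hA : ∀ v, ((Polynomial.aeval (⟨T, hle cd.TB⟩ : B) v : B) : K0) = Polynomial.aeval T v :=
    fun v => TorA_coe B (hle cd.TB) v
  induction e using MvPolynomial.induction_on with
  | C b =>
    obtain ⟨u, v, hv, h⟩ := cd.frac b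
    refine ⟨v, C u, hv, ?_⟩
    rw [← map_mul, MvPolynomial.map_C]
    congr 1
    refine Subtype.ext ?_
    show ((Polynomial.aeval (⟨T, hle cd.TB⟩ : B) v : B) : K0) * b =
      ((Polynomial.aeval (⟨T, hle cd.TB⟩ : B) u : B) : K0)
    rw [hA, hA, mul_comm]
    exact h
  | add p q hp hq =>
    obtain ⟨v, g, hv, h⟩ := hp
    obtain ⟨v', g', hv', h'⟩ := hq
    refine ⟨v * v', C v' * g + C v * g', ?_, ?_⟩
    · rw [map_mul]
      exact mul_ne_zero hv hv'
    · rw [map_add, map_mul (MvPolynomial.map _), map_mul (MvPolynomial.map _),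
        MvPolynomial.map_C, MvPolynomial.map_C, ← h, ← h', map_mul, map_mul]
      show _ = C (Polynomial.aeval (⟨T, hle cd.TB⟩ : B) v') * _ +
        C (Polynomial.aeval (⟨T, hle cd.TB⟩ : B) v) * _
      ring
  | mul_X p s hp =>
    obtain ⟨v, g, hv, h⟩ := hp
    refine ⟨v, g * MvPolynomial.X s, hv, ?_⟩
    rw [map_mul, MvPolynomial.map_X, ← h, mul_assoc]

/-- Proof. `cd_frac` for `e2`: `v`, `g`. Let `h3 ∈ ℤ[x]` be the image of `g` under `T ↦ t` (`eval₂Hom (Polynomial.aeval t) X`); in `T'`: `γ (v (T)) * e2 (x) ≡ h3 (x)` modulo `J` as `t (x) ≡ γ T`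
(induction on `g`; `g (x, T)`, `MvPolynomial.induction_on` and `Polynomial.induction_on`). So `θ h3 = π (h3 (x)) = π (γ (v (T)) * e1 (x) * h) = 0`, `h3 = f q` by `cd.ker`, `h3 (x) ∈ J`. So
`e := γ (v (T)) * e1 (x)`. -/
theorem tor_gen (cd : CD B0 θ j f t T X lam Pm qv r) (hle : B0 ≤ B) {T' : Type} [CommRing T']
    (γ : B →+* T') (x : σ → T') (π : T' →+* K) (J : Ideal T') (hJ : ∀ y ∈ J, π y = 0)
    (hγ : ∀ b : B, π (γ b) = j b) (hx : ∀ s, π (x s) = θ (MvPolynomial.X s))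
    (ht : aeval x t - γ ⟨T, hle cd.TB⟩ ∈ J) (hf : aeval x f ∈ J) {h : T'} {e1 e2 : MvPolynomial σ B}
    (he : eval₂Hom γ x e1 * h - eval₂Hom γ x e2 ∈ J) (h1 : π (eval₂Hom γ x e1) ≠ 0)
    (h0 : π h = 0) : ∃ e, π e ≠ 0 ∧ e * h ∈ J := by
  obtain ⟨v, g, hv, hg⟩ := cd_frac cd hle e2
  let T0 : B := ⟨T, hle cd.TB⟩
  let h3 : MvPolynomial σ ℤ :=
    eval₂Hom (Polynomial.aeval t : Polynomial ℤ →ₐ[ℤ] MvPolynomial σ ℤ).toRingHom
      MvPolynomial.X g
  -- the two evaluations agree modulo `J`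
  have hext : (Ideal.Quotient.mk J).comp ((eval₂Hom γ x).comp
      (MvPolynomial.map (Polynomial.aeval T0 : _ →ₐ[ℤ] B).toRingHom)) =
      (Ideal.Quotient.mk J).comp ((aeval x : MvPolynomial σ ℤ →ₐ[ℤ] T').toRingHom.comp
        (eval₂Hom (Polynomial.aeval t : Polynomial ℤ →ₐ[ℤ] MvPolynomial σ ℤ).toRingHom
          MvPolynomial.X)) := by
    refine MvPolynomial.ringHom_ext (fun p => ?_) (fun s => ?_)
    · have h4 : ((Ideal.Quotient.mk J).comp (γ.comp
          (Polynomial.aeval T0 : _ →ₐ[ℤ] B).toRingHom)) =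
          (Ideal.Quotient.mk J).comp ((aeval x : MvPolynomial σ ℤ →ₐ[ℤ] T').toRingHom.comp
            (Polynomial.aeval t : Polynomial ℤ →ₐ[ℤ] MvPolynomial σ ℤ).toRingHom) := by
        refine Polynomial.ringHom_ext (fun a => ?_) ?_
        · simp
        · show Ideal.Quotient.mk J (γ (Polynomial.aeval T0 Polynomial.X)) =
            Ideal.Quotient.mk J (aeval x (Polynomial.aeval t Polynomial.X))
          rw [Polynomial.aeval_X, Polynomial.aeval_X]
          exact (Ideal.Quotient.eq.2 ht).symm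
      have h5 := RingHom.congr_fun h4 p
      show Ideal.Quotient.mk J (eval₂Hom γ x (MvPolynomial.map _ (C p))) =
        Ideal.Quotient.mk J (aeval x (eval₂Hom _ MvPolynomial.X (C p)))
      rw [MvPolynomial.map_C, eval₂Hom_C, eval₂Hom_C]
      exact h5
    · show Ideal.Quotient.mk J (eval₂Hom γ x (MvPolynomial.map _ (MvPolynomial.X s))) =
        Ideal.Quotient.mk J (aeval x (eval₂Hom _ MvPolynomial.X (MvPolynomial.X s)))
      rw [MvPolynomial.map_X, eval₂Hom_X', eval₂Hom_X', aeval_X]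
  have hmod : γ (Polynomial.aeval T0 v) * eval₂Hom γ x e2 - aeval x h3 ∈ J := by
    rw [← Ideal.Quotient.eq]
    have h4 := RingHom.congr_fun hext g
    have h5 : γ (Polynomial.aeval T0 v) * eval₂Hom γ x e2 =
        eval₂Hom γ x (MvPolynomial.map (Polynomial.aeval T0 : _ →ₐ[ℤ] B).toRingHom g) := by
      rw [← hg, map_mul, eval₂Hom_C]
    rw [h5]
    exact h4
  have hπ : ∀ q : MvPolynomial σ ℤ, π (aeval x q) = θ q := by
    intro q
    have h4 : π.comp (aeval x : MvPolynomial σ ℤ →ₐ[ℤ] T').toRingHom = θ := by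
      refine MvPolynomial.ringHom_ext (fun a => ?_) (fun s => ?_)
      · simp
      · show π (aeval x (MvPolynomial.X s)) = _
        rw [aeval_X]
        exact hx s
    exact RingHom.congr_fun h4 q
  have hmod2 : γ (Polynomial.aeval T0 v) * eval₂Hom γ x e1 * h - aeval x h3 ∈ J := by
    have h4 : γ (Polynomial.aeval T0 v) * eval₂Hom γ x e1 * h - aeval x h3 =
        γ (Polynomial.aeval T0 v) * (eval₂Hom γ x e1 * h - eval₂Hom γ x e2) +
          (γ (Polynomial.aeval T0 v) * eval₂Hom γ x e2 - aeval x h3) := by ring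
    rw [h4]
    exact J.add_mem (J.mul_mem_left _ he) hmod
  have hθ : θ h3 = 0 := by
    have h4 := hJ _ hmod2
    rw [map_sub, map_mul, h0, mul_zero, zero_sub, neg_eq_zero, hπ] at h4
    exact h4
  have h3J : aeval x h3 ∈ J := by
    have h4 : h3 ∈ RingHom.ker θ := hθ
    rw [cd.ker, Ideal.mem_span_singleton] at h4
    obtain ⟨q, hq⟩ := h4
    rw [hq, map_mul]
    exact J.mul_mem_right _ hf
  refine ⟨γ (Polynomial.aeval T0 v) * eval₂Hom γ x e1, ?_, ?_⟩
  · rw [map_mul, hγ]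
    refine mul_ne_zero ?_ h1
    rw [TorA_coe B (hle cd.TB) v]
    exact (map_ne_zero j).2 hv
  · have h4 := J.add_mem hmod2 h3J
    rwa [sub_add_cancel] at h4

/-- The elements which are fractions of polynomials in `x`, modulo `J`, form a subring. -/
theorem tor_sub {T' ι : Type} [CommRing T'] (γ : B →+* T') (x : σ → T') (π : T' →+* K)
    (J : Ideal T') (φ : MvPolynomial ι B →+* T') (hφ : Function.Surjective φ)
    (hC : ∀ b : B, φ (C b) = γ b)
    (hX : ∀ i, ∃ e1 e2 : MvPolynomial σ B, π (eval₂Hom γ x e1) ≠ 0 ∧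
      eval₂Hom γ x e1 * φ (MvPolynomial.X i) - eval₂Hom γ x e2 ∈ J) (h : T') :
    ∃ e1 e2 : MvPolynomial σ B, π (eval₂Hom γ x e1) ≠ 0 ∧
      eval₂Hom γ x e1 * h - eval₂Hom γ x e2 ∈ J := by
  obtain ⟨H, rfl⟩ := hφ h
  induction H using MvPolynomial.induction_on with
  | C b =>
    refine ⟨1, C b, ?_, ?_⟩
    · rw [map_one, map_one]
      exact one_ne_zero
    · rw [map_one, one_mul, hC, eval₂Hom_C, sub_self]
      exact J.zero_mem
  | add p q hp hq =>
    obtain ⟨e1, e2, h1, h2⟩ := hp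
    obtain ⟨e1', e2', h1', h2'⟩ := hq
    refine ⟨e1 * e1', e1' * e2 + e1 * e2', ?_, ?_⟩
    · rw [map_mul, map_mul]
      exact mul_ne_zero h1 h1'
    · have h3 : eval₂Hom γ x (e1 * e1') * φ (p + q) - eval₂Hom γ x (e1' * e2 + e1 * e2') =
          eval₂Hom γ x e1' * (eval₂Hom γ x e1 * φ p - eval₂Hom γ x e2) +
            eval₂Hom γ x e1 * (eval₂Hom γ x e1' * φ q - eval₂Hom γ x e2') := by
        rw [map_mul, map_add, map_add, map_mul, map_mul]
        ring
      rw [h3]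
      exact J.add_mem (J.mul_mem_left _ h2) (J.mul_mem_left _ h2')
  | mul_X p i hp =>
    obtain ⟨e1, e2, h1, h2⟩ := hp
    obtain ⟨e1', e2', h1', h2'⟩ := hX i
    refine ⟨e1 * e1', e2 * e2', ?_, ?_⟩
    · rw [map_mul, map_mul]
      exact mul_ne_zero h1 h1'
    · have h3 : eval₂Hom γ x (e1 * e1') * φ (p * MvPolynomial.X i) -
          eval₂Hom γ x (e2 * e2') =
          (eval₂Hom γ x e1' * φ (MvPolynomial.X i)) *
            (eval₂Hom γ x e1 * φ p - eval₂Hom γ x e2) +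
            eval₂Hom γ x e2 * (eval₂Hom γ x e1' * φ (MvPolynomial.X i) -
              eval₂Hom γ x e2') := by
        rw [map_mul, map_mul, map_mul]
        ring
      rw [h3]
      exact J.add_mem (J.mul_mem_left _ h2) (J.mul_mem_left _ h2')

end Pool.Agent.EvM
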