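import Pool.Agent.EvM.EmTorA
import Pool.Agent.EvM.EmGy

set_option autoImplicit false

/-! # Torsion: the chart of a coordinate -/

namespace Pool.Agent.EvM

open MvPolynomial Pool.Agent.NT9

variable {σ : Type} [Fintype σ] [DecidableEq σ] {K0 K : Type} [Field K0] [Field K]
  {B0 B : Subring K0} {θ : MvPolynomial σ ℤ →+* K} {j : K0 →+* K} {f t : MvPolynomial σ ℤ}
  {T lam : K0} {X : σ → K0} {Pm : σ → σ → K0} {qv r : σ → K0} {I : Type} [Fintype I]

/-- The values of the variables in the chart of a coordinate. -/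
noncomputable def evY (θ : MvPolynomial σ ℤ →+* K) (j : K0 →+* K) (X : σ → K0) (M : K0) (Y : K)
    (e : I → K0) : σ ⊕ (Unit ⊕ I) → K :=
  Sum.elim (fun s => Wc θ j X M s / Y) (Sum.elim (fun _ => Y) (fun i => j (e i) / Y))

/-- The ideal of the relations. -/
noncomputable def relI (l : σ) (e : I → B) (G1 G2 : MvPolynomial (σ ⊕ (Unit ⊕ I)) B) :
    Ideal (MvPolynomial (σ ⊕ (Unit ⊕ I)) B) :=
  Ideal.span (insert (MvPolynomial.X (Sum.inl l) - 1) (insert G1 (insert G2 (Set.range (rY σ e)))))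

omit [Fintype σ] [DecidableEq σ] in
/-- `π` of the values of a polynomial -/
private theorem tory_ev {T' : Type} [CommRing T'] (x : σ → T') (π : T' →+* K)
    (hx : ∀ s, π (x s) = θ (MvPolynomial.X s)) (g : MvPolynomial σ ℤ) : π (aeval x g) = θ g := by
  have h1 : π.comp (aeval x : MvPolynomial σ ℤ →ₐ[ℤ] T').toRingHom = θ := by
    refine MvPolynomial.ringHom_ext' (RingHom.ext_int _ _) fun s => ?_
    change π (aeval x (MvPolynomial.X s)) = _
    rw [aeval_X, hx]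
  exact RingHom.congr_fun h1 g

/-- Proof. `π (xY s) = θ (X s)`, `π (rY i) = 0`. So `j M * Y * π G1 = θ t - j T = 0`, `(j M * Y) ^ 2 * π G2 = θ f - .. = 0`. `tor_sub` (`φ` the identity), with `x s = xY s`: for `Y`: `e1 = C M`,
`e2 = X l - C (X l)`; for `V s`: `e1 = X l - C (X l)`, `e2 = X s - C (X s)`; for `U i`: `e1 = X l - C (X l)`, `e2 = C (M * e i)`; `tor_gen`. -/
theorem tor_y (cd : CD B0 θ j f t T X lam Pm qv r) (hle : B0 ≤ B) {M : B} (hM : (M : K0) ≠ 0)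
    {Y : K} (hY : Y ≠ 0) {l : σ} (hl : Wc θ j X M l = Y) (e : I → B)
    (G1 G2 : MvPolynomial (σ ⊕ (Unit ⊕ I)) B)
    (hG1 : C M * MvPolynomial.X (Sum.inr (Sum.inl ())) * G1 -
      (aeval (xY (fun s => (⟨X s, hle (cd.XB s)⟩ : B)) M I) t - C ⟨T, hle cd.TB⟩) ∈
        Ideal.span (Set.range (rY σ e)))
    (hG2 : (C M * MvPolynomial.X (Sum.inr (Sum.inl ()))) ^ 2 * G2 -
      (aeval (xY (fun s => (⟨X s, hle (cd.XB s)⟩ : B)) M I) f - C ⟨lam, hle cd.lamB⟩ *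
        (aeval (xY (fun s => (⟨X s, hle (cd.XB s)⟩ : B)) M I) t - C ⟨T, hle cd.TB⟩)) ∈
        Ideal.span (Set.range (rY σ e))) :
    (∀ y ∈ relI l e G1 G2, piW j B (evY θ j X M Y (fun i => (e i : K0))) y = 0) ∧
      ∀ h, piW j B (evY θ j X M Y (fun i => (e i : K0))) h = 0 →
        ∃ e', piW j B (evY θ j X M Y (fun i => (e i : K0))) e' ≠ 0 ∧
          e' * h ∈ relI l e G1 G2 := by
  obtain ⟨x, hxdef⟩ : ∃ x : σ → MvPolynomial (σ ⊕ (Unit ⊕ I)) B,
      x = xY (fun s => (⟨X s, hle (cd.XB s)⟩ : B)) M I := ⟨_, rfl⟩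
  obtain ⟨π, hπ⟩ : ∃ π : MvPolynomial (σ ⊕ (Unit ⊕ I)) B →+* K,
      π = piW j B (evY θ j X M Y (fun i => (e i : K0))) := ⟨_, rfl⟩
  rw [← hxdef] at hG1 hG2
  rw [← hπ]
  have hπC : ∀ b : B, π (C b) = j b := by
    intro b
    rw [hπ, piW, eval₂Hom_C]
    rfl
  have hπV : ∀ s, π (MvPolynomial.X (Sum.inl s)) = Wc θ j X M s / Y := by
    intro s
    rw [hπ, piW, eval₂Hom_X']
    rfl
  have hπY : π (MvPolynomial.X (Sum.inr (Sum.inl ()))) = Y := by
    rw [hπ, piW, eval₂Hom_X']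
    rfl
  have hπU : ∀ i, π (MvPolynomial.X (Sum.inr (Sum.inr i))) = j (e i) / Y := by
    intro s
    rw [hπ, piW, eval₂Hom_X']
    rfl
  have hjM : j M ≠ 0 := by
    rw [Ne, map_eq_zero]
    exact hM
  have hxs : ∀ s, x s = C (⟨X s, hle (cd.XB s)⟩ : B) +
      C M * MvPolynomial.X (Sum.inr (Sum.inl ())) * MvPolynomial.X (Sum.inl s) := by
    intro s
    rw [hxdef, xY]
  have hx : ∀ s, π (x s) = θ (MvPolynomial.X s) := by
    intro s
    rw [hxs, map_add, map_mul, map_mul, hπC, hπC, hπY, hπV, Wc]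
    field_simp
    ring
  have hev : ∀ g : MvPolynomial σ ℤ, π (aeval x g) = θ g := tory_ev x π hx
  have hθf : θ f = 0 := by
    have h1 : f ∈ RingHom.ker θ := by
      rw [cd.ker]
      exact Ideal.mem_span_singleton_self f
    exact h1
  have hrY : ∀ i, π (rY σ e i) = 0 := by
    intro i
    rw [rY, map_sub, map_mul, hπC, hπY, hπU, div_mul_cancel₀ _ hY, sub_self]
  have hsp : ∀ y ∈ Ideal.span (Set.range (rY σ e)), π y = 0 := by
    intro y hy
    have h1 : Ideal.span (Set.range (rY σ e)) ≤ RingHom.ker π := by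
      rw [Ideal.span_le]
      rintro _ ⟨i, rfl⟩
      exact hrY i
    exact h1 hy
  have hπG1 : π G1 = 0 := by
    have h1 := hsp _ hG1
    rw [map_sub, map_mul, map_mul, map_sub, hπC, hπY, hev, hπC, cd.jT, sub_self, sub_zero] at h1
    rcases mul_eq_zero.1 h1 with h3 | h3
    · exact absurd h3 (mul_ne_zero hjM hY)
    · exact h3
  have hπG2 : π G2 = 0 := by
    have h1 := hsp _ hG2
    rw [map_sub, map_mul, map_pow, map_mul, map_sub, map_mul, map_sub, hπC, hπY, hev, hev, hπC,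
      hπC, cd.jT, sub_self, mul_zero, sub_zero, hθf, sub_zero] at h1
    rcases mul_eq_zero.1 h1 with h3 | h3
    · exact absurd h3 (pow_ne_zero 2 (mul_ne_zero hjM hY))
    · exact h3
  have hJ : ∀ y ∈ relI l e G1 G2, π y = 0 := by
    intro y hy
    have h1 : relI l e G1 G2 ≤ RingHom.ker π := by
      unfold relI
      rw [Ideal.span_le]
      rintro z (rfl | rfl | rfl | ⟨i, rfl⟩)
      · change π _ = 0
        rw [map_sub, map_one, hπV, hl, div_self hY, sub_self]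
      · exact hπG1
      · exact hπG2
      · exact hrY i
    exact h1 hy
  refine ⟨hJ, fun h h0 => ?_⟩
  have hm0 : MvPolynomial.X (Sum.inl l) - 1 ∈ relI l e G1 G2 :=
    Ideal.subset_span (Set.mem_insert _ _)
  have hm1 : G1 ∈ relI l e G1 G2 :=
    Ideal.subset_span (Set.mem_insert_of_mem _ (Set.mem_insert _ _))
  have hm2 : G2 ∈ relI l e G1 G2 := Ideal.subset_span
    (Set.mem_insert_of_mem _ (Set.mem_insert_of_mem _ (Set.mem_insert _ _)))
  have hm3 : ∀ i, rY σ e i ∈ relI l e G1 G2 := fun i => Ideal.subset_span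
    (Set.mem_insert_of_mem _ (Set.mem_insert_of_mem _ (Set.mem_insert_of_mem _ ⟨i, rfl⟩)))
  have hm4 : Ideal.span (Set.range (rY σ e)) ≤ relI l e G1 G2 := by
    rw [Ideal.span_le]
    rintro _ ⟨i, rfl⟩
    exact hm3 i
  have hh1 : ∀ b : B, eval₂Hom (C : B →+* MvPolynomial (σ ⊕ (Unit ⊕ I)) B) x (C b) = C b :=
    fun b => eval₂Hom_C _ _ _
  have hh2 : ∀ s, eval₂Hom (C : B →+* MvPolynomial (σ ⊕ (Unit ⊕ I)) B) x
      (MvPolynomial.X s) = x s := fun s => eval₂Hom_X' _ _ _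
  have hh3 : ∀ s, ∃ q : MvPolynomial σ B,
      eval₂Hom (C : B →+* MvPolynomial (σ ⊕ (Unit ⊕ I)) B) x q =
      C M * MvPolynomial.X (Sum.inr (Sum.inl ())) * MvPolynomial.X (Sum.inl s) := by
    intro s
    refine ⟨MvPolynomial.X s - C ⟨X s, hle (cd.XB s)⟩, ?_⟩
    rw [map_sub, hh1, hh2, hxs]
    ring
  choose q hq using hh3
  have hne : π (eval₂Hom (C : B →+* MvPolynomial (σ ⊕ (Unit ⊕ I)) B) x (q l)) ≠ 0 := by
    rw [hq, map_mul, map_mul, hπC, hπY, hπV, hl, div_self hY, mul_one]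
    exact mul_ne_zero hjM hY
  have hneM : π (eval₂Hom (C : B →+* MvPolynomial (σ ⊕ (Unit ⊕ I)) B) x (C M)) ≠ 0 := by
    rw [hh1, hπC]
    exact hjM
  have hcV : ∀ s, eval₂Hom (C : B →+* MvPolynomial (σ ⊕ (Unit ⊕ I)) B) x (q l) *
      MvPolynomial.X (Sum.inl s) - eval₂Hom (C : B →+* MvPolynomial (σ ⊕ (Unit ⊕ I)) B) x (q s)
      ∈ relI l e G1 G2 := by
    intro s
    rw [hq, hq]
    have h3 : C M * MvPolynomial.X (Sum.inr (Sum.inl ())) * MvPolynomial.X (Sum.inl l)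
        * MvPolynomial.X (Sum.inl s) - C M * MvPolynomial.X (Sum.inr (Sum.inl ()))
          * MvPolynomial.X (Sum.inl s) =
        (C M * MvPolynomial.X (Sum.inr (Sum.inl ())) * MvPolynomial.X (Sum.inl s))
        * (MvPolynomial.X (Sum.inl l) - 1 : MvPolynomial (σ ⊕ (Unit ⊕ I)) B) := by ring
    rw [h3]
    exact Ideal.mul_mem_left _ _ hm0
  have hcY : eval₂Hom (C : B →+* MvPolynomial (σ ⊕ (Unit ⊕ I)) B) x (C M) *
      MvPolynomial.X (Sum.inr (Sum.inl ())) -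
      eval₂Hom (C : B →+* MvPolynomial (σ ⊕ (Unit ⊕ I)) B) x (q l) ∈ relI l e G1 G2 := by
    rw [hq, hh1]
    have h3 : C M * MvPolynomial.X (Sum.inr (Sum.inl ()))
        - C M * MvPolynomial.X (Sum.inr (Sum.inl ())) * MvPolynomial.X (Sum.inl l) =
        (- (C M * MvPolynomial.X (Sum.inr (Sum.inl ()))))
        * (MvPolynomial.X (Sum.inl l) - 1 : MvPolynomial (σ ⊕ (Unit ⊕ I)) B) := by ring
    rw [h3]
    exact Ideal.mul_mem_left _ _ hm0
  have hcU : ∀ i, eval₂Hom (C : B →+* MvPolynomial (σ ⊕ (Unit ⊕ I)) B) x (q l) *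
      MvPolynomial.X (Sum.inr (Sum.inr i)) -
      eval₂Hom (C : B →+* MvPolynomial (σ ⊕ (Unit ⊕ I)) B) x (C (M * e i)) ∈
        relI l e G1 G2 := by
    intro i
    rw [hq, hh1]
    have h3 : C M * MvPolynomial.X (Sum.inr (Sum.inl ())) * MvPolynomial.X (Sum.inl l)
        * MvPolynomial.X (Sum.inr (Sum.inr i)) - C (M * e i) =
        (C M * MvPolynomial.X (Sum.inr (Sum.inl ())) * MvPolynomial.X (Sum.inr (Sum.inr i)))
        * (MvPolynomial.X (Sum.inl l) - 1 : MvPolynomial (σ ⊕ (Unit ⊕ I)) B)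
        - C M * rY σ e i := by
      rw [rY, C_mul]
      ring
    rw [h3]
    exact Ideal.sub_mem _ (Ideal.mul_mem_left _ _ hm0) (Ideal.mul_mem_left _ _ (hm3 i))
  have hX : ∀ i : σ ⊕ (Unit ⊕ I), ∃ e1 e2 : MvPolynomial σ B,
      π (eval₂Hom (C : B →+* MvPolynomial (σ ⊕ (Unit ⊕ I)) B) x e1) ≠ 0 ∧
      eval₂Hom (C : B →+* MvPolynomial (σ ⊕ (Unit ⊕ I)) B) x e1 *
        (RingHom.id (MvPolynomial (σ ⊕ (Unit ⊕ I)) B)) (MvPolynomial.X i) -
        eval₂Hom (C : B →+* MvPolynomial (σ ⊕ (Unit ⊕ I)) B) x e2 ∈ relI l e G1 G2 := by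
    rintro (s | u | i)
    · exact ⟨q l, q s, hne, hcV s⟩
    · exact ⟨C M, q l, hneM, hcY⟩
    · exact ⟨q l, C (M * e i), hne, hcU i⟩
  obtain ⟨e1, e2, he1, he2⟩ := tor_sub (C : B →+* MvPolynomial (σ ⊕ (Unit ⊕ I)) B) x π
    (relI l e G1 G2) (RingHom.id (MvPolynomial (σ ⊕ (Unit ⊕ I)) B)) (fun y => ⟨y, rfl⟩)
    (fun b => rfl) hX h
  have ht : aeval x t - C ⟨T, hle cd.TB⟩ ∈ relI l e G1 G2 := by
    have h3 := Ideal.sub_mem _ (Ideal.mul_mem_left (relI l e G1 G2)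
      (C M * MvPolynomial.X (Sum.inr (Sum.inl ()))) hm1) (hm4 hG1)
    rw [sub_sub_cancel] at h3
    exact h3
  have hf : aeval x f ∈ relI l e G1 G2 := by
    have h3 := Ideal.sub_mem _ (Ideal.mul_mem_left (relI l e G1 G2)
      ((C M * MvPolynomial.X (Sum.inr (Sum.inl ()))) ^ 2) hm2) (hm4 hG2)
    rw [sub_sub_cancel] at h3
    have h4 := Ideal.add_mem _ h3
      (Ideal.mul_mem_left (relI l e G1 G2) (C (⟨lam, hle cd.lamB⟩ : B)) ht)
    rw [sub_add_cancel] at h4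
    exact h4
  exact tor_gen cd hle (C : B →+* MvPolynomial (σ ⊕ (Unit ⊕ I)) B) x π (relI l e G1 G2) hJ hπC hx
    ht hf he2 he1 h0

end Pool.Agent.EvM
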