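import Pool.Agent.EvM.EmTorA

set_option autoImplicit false

/-! # Torsion: the chart of the exceptional parameter -/

namespace Pool.Agent.EvM

open MvPolynomial Pool.Agent.NT9

variable {σ : Type} [Fintype σ] [DecidableEq σ] {K0 K : Type} [Field K0] [Field K]
  {B0 B : Subring K0} {θ : MvPolynomial σ ℤ →+* K} {j : K0 →+* K} {f t : MvPolynomial σ ℤ}
  {T lam : K0} {X : σ → K0} {Pm : σ → σ → K0} {qv r : σ → K0}

omit [Fintype σ] [DecidableEq σ] in
/-- `π` of the values of a polynomial -/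
private theorem torz_ev {T' : Type} [CommRing T'] (x : σ → T') (π : T' →+* K)
    (hx : ∀ s, π (x s) = θ (MvPolynomial.X s)) (g : MvPolynomial σ ℤ) : π (aeval x g) = θ g := by
  have h1 : π.comp (aeval x : MvPolynomial σ ℤ →ₐ[ℤ] T').toRingHom = θ := by
    refine MvPolynomial.ringHom_ext' (RingHom.ext_int _ _) fun s => ?_
    change π (aeval x (MvPolynomial.X s)) = _
    rw [aeval_X, hx]
  exact RingHom.congr_fun h1 g

/-- Proof. `π (x s) = θ (X s)` for `x s = X s + M W s`. So `j M * π G1 = θ t - j T = 0`, `j M ^ 2 * π G2 = θ f - .. = 0`. `tor_sub` (`φ` the identity) with `J` the ideal of `G1, G2`, `e1 = C M`,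
`e2 = X s - C (X s)` for the variable `s`; `tor_gen`. -/
theorem tor_z (cd : CD B0 θ j f t T X lam Pm qv r) (hle : B0 ≤ B) {M : B} (hM : (M : K0) ≠ 0)
    (G1 G2 : MvPolynomial σ B)
    (hG1 : C M * G1 = aeval (fun s => C (⟨X s, hle (cd.XB s)⟩ : B) + C M * MvPolynomial.X s) t -
      C ⟨T, hle cd.TB⟩)
    (hG2 : C M ^ 2 * G2 =
      aeval (fun s => C (⟨X s, hle (cd.XB s)⟩ : B) + C M * MvPolynomial.X s) f -
      C ⟨lam, hle cd.lamB⟩ *
        (aeval (fun s => C (⟨X s, hle (cd.XB s)⟩ : B) + C M * MvPolynomial.X s) t -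
          C ⟨T, hle cd.TB⟩)) :
    piW j B (Wc θ j X M) G1 = 0 ∧ piW j B (Wc θ j X M) G2 = 0 ∧
      ∀ h, piW j B (Wc θ j X M) h = 0 → ∃ e, piW j B (Wc θ j X M) e ≠ 0 ∧
        e * h ∈ Ideal.span {G1, G2} := by
  obtain ⟨x, hxdef⟩ : ∃ x : σ → MvPolynomial σ B,
      x = fun s => C (⟨X s, hle (cd.XB s)⟩ : B) + C M * MvPolynomial.X s := ⟨_, rfl⟩
  obtain ⟨π, hπ⟩ : ∃ π : MvPolynomial σ B →+* K, π = piW j B (Wc θ j X M) := ⟨_, rfl⟩
  rw [← hxdef] at hG1 hG2
  rw [← hπ]
  have hπC : ∀ b : B, π (C b) = j b := by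
    intro b
    rw [hπ, piW, eval₂Hom_C]
    rfl
  have hπX : ∀ s, π (MvPolynomial.X s) = Wc θ j X M s := by
    intro s
    rw [hπ, piW, eval₂Hom_X']
  have hjM : j M ≠ 0 := by
    rw [Ne, map_eq_zero]
    exact hM
  have hx : ∀ s, π (x s) = θ (MvPolynomial.X s) := by
    intro s
    rw [hxdef]
    simp only [map_add, map_mul]
    rw [hπC, hπC, hπX, Wc]
    field_simp
    ring
  have hev : ∀ g : MvPolynomial σ ℤ, π (aeval x g) = θ g := torz_ev x π hx
  have hθf : θ f = 0 := by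
    have h1 : f ∈ RingHom.ker θ := by
      rw [cd.ker]
      exact Ideal.mem_span_singleton_self f
    exact h1
  have hπG1 : π G1 = 0 := by
    have h1 := congrArg π hG1
    rw [map_mul, hπC, map_sub, hev, hπC] at h1
    have h2 : θ t - j T = 0 := by rw [cd.jT, sub_self]
    rcases mul_eq_zero.1 (h1.trans h2) with h3 | h3
    · exact absurd h3 hjM
    · exact h3
  have hπG2 : π G2 = 0 := by
    have h1 := congrArg π hG2
    rw [map_mul, map_pow, hπC, map_sub, map_mul, map_sub, hev, hev, hπC, hπC] at h1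
    have h2 : θ f - j lam * (θ t - j T) = 0 := by rw [cd.jT, sub_self, mul_zero, sub_zero, hθf]
    rcases mul_eq_zero.1 (h1.trans h2) with h3 | h3
    · exact absurd h3 (pow_ne_zero 2 hjM)
    · exact h3
  refine ⟨hπG1, hπG2, fun h h0 => ?_⟩
  have hJ : ∀ y ∈ Ideal.span {G1, G2}, π y = 0 := by
    intro y hy
    have h1 : Ideal.span {G1, G2} ≤ RingHom.ker π := by
      rw [Ideal.span_le]
      rintro z (rfl | rfl)
      · exact hπG1
      · exact hπG2
    exact h1 hy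
  have hm1 : G1 ∈ Ideal.span {G1, G2} := Ideal.subset_span (by simp)
  have hm2 : G2 ∈ Ideal.span {G1, G2} := Ideal.subset_span (by simp)
  have hh1 : ∀ b : B, eval₂Hom (C : B →+* MvPolynomial σ B) x (C b) = C b := fun b =>
    eval₂Hom_C _ _ _
  have hh2 : ∀ s, eval₂Hom (C : B →+* MvPolynomial σ B) x (MvPolynomial.X s) = x s := fun s =>
    eval₂Hom_X' _ _ _
  obtain ⟨e1, e2, he1, he2⟩ := tor_sub (C : B →+* MvPolynomial σ B) x π
    (Ideal.span {G1, G2}) (RingHom.id (MvPolynomial σ B)) (fun y => ⟨y, rfl⟩) (fun b => rfl)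
    (fun s => ⟨C M, MvPolynomial.X s - C ⟨X s, hle (cd.XB s)⟩, by rw [hh1, hπC]; exact hjM, by
      rw [hh1, map_sub, hh1, hh2, hxdef, RingHom.id_apply]
      have h3 : C M * MvPolynomial.X s - (C (⟨X s, hle (cd.XB s)⟩ : B) + C M * MvPolynomial.X s
          - C ⟨X s, hle (cd.XB s)⟩) = (0 : MvPolynomial σ B) := by ring
      rw [h3]
      exact Ideal.zero_mem _⟩) h
  refine tor_gen cd hle (C : B →+* MvPolynomial σ B) x π (Ideal.span {G1, G2}) hJ hπC hx ?_ ?_ he2
    he1 h0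
  · have h4 := Ideal.mul_mem_left (Ideal.span {G1, G2}) (C M) hm1
    rw [hG1] at h4
    exact h4
  · have h4 : aeval x f = C M ^ 2 * G2 + C ⟨lam, hle cd.lamB⟩ * (C M * G1) := by
      rw [hG2, hG1]
      ring
    have h5 : aeval x f ∈ Ideal.span {G1, G2} := by
      rw [h4]
      exact Ideal.add_mem _ (Ideal.mul_mem_left _ _ hm2)
        (Ideal.mul_mem_left _ _ (Ideal.mul_mem_left _ _ hm1))
    exact h5

end Pool.Agent.EvM
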