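import Pool.Agent.EvM.ExDefs
import Pool.Agent.NodHyp.DensB

set_option autoImplicit false

/-! # ExDens: positive density from the conditions modulo the primes -/

namespace Pool.Agent.EvM

open MvPolynomial Pool.Agent.NH Pool.Agent.NT9

/-- Proof: `N = card (Mon n d)`, `ε = 1 / 2 ^ (N + 1)`, `M = M₀` from `htail`, `P = primorial M`; by the Chinese
remainder theorem (`DensB_crt`) there is a form `F₀` with `G F₀ p` for all `p ≤ M`. With `L = 2 H / P + 1` the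
class of `F₀` modulo `P` has at least `(L - 1) ^ N` elements in the box and is contained in the set of the
`c₀ + P x` (`class_count`), of which at most `ε L ^ N` are bad at some `p > M`; `L - 1 ≥ L / 2`, and
`2 H + 1 ≤ 2 P L`. (See `NH.density_main`, `NH.density_pos`.) -/
theorem dens_abs {n d : ℕ} (G : MvPolynomial (Fin (n + 1)) ℤ → ℕ → Prop)
    (hcongr : ∀ (p : ℕ) (F F' : MvPolynomial (Fin (n + 1)) ℤ), C (p : ℤ) ∣ F - F' → G F p → G F' p)
    (hex : ∀ p : ℕ, p.Prime → ∃ F : MvPolynomial (Fin (n + 1)) ℤ, F.IsHomogeneous d ∧ G F p)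
    (htail : ∀ ε : ℝ, 0 < ε → ∃ M₀ : ℕ, ∀ M P : ℕ, M₀ ≤ M → 1 ≤ P →
      (∀ p : ℕ, p.Prime → M < p → ¬ p ∣ P) → ∃ L₀ : ℕ, ∀ L : ℕ, L₀ ≤ L →
      ∀ c₀ : Mon n d → ℤ, (∀ α, |c₀ α| ≤ 2 * P * L) →
        (Nat.card {x : Mon n d → Fin L // ∃ p : ℕ, p.Prime ∧ M < p ∧
          ¬ G (toF fun α => c₀ α + P * ((x α : ℕ) : ℤ)) p} : ℝ) ≤
          ε * (L : ℝ) ^ Fintype.card (Mon n d)) :
    ∃ c : ℝ, 0 < c ∧ ∃ H₀ : ℕ, ∀ H : ℕ, H₀ ≤ H → c * ((Box n d H).ncard : ℝ) ≤
      ({F ∈ Box n d H | ∀ p : ℕ, p.Prime → G F p}.ncard : ℝ) := by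
  classical
  set N := Fintype.card (Mon n d) with hN
  obtain ⟨M, hM⟩ := htail (1 / 2 ^ (N + 1)) (by positivity)
  set P := primorial M with hPdef
  have hP : 1 ≤ P := primorial_pos M
  have hPp : ∀ p : ℕ, p.Prime → M < p → ¬ p ∣ P := by
    intro p hp hMp hdvd
    rw [hPdef, primorial] at hdvd
    obtain ⟨q, hq, hpq⟩ := (Prime.dvd_finsetProd_iff hp.prime _).1 hdvd
    rw [Finset.mem_filter, Finset.mem_range] at hq
    have := (Nat.prime_dvd_prime_iff_eq hp hq.2).1 hpq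
    omega
  have hPdvd : ∀ p : ℕ, p ≤ M → p.Prime → p ∣ P := by
    intro p hpM hp
    exact Finset.dvd_prod_of_mem _ (Finset.mem_filter.2 ⟨Finset.mem_range.2 (by omega), hp⟩)
  obtain ⟨L₀, hL₀⟩ := hM M P le_rfl hP hPp
  -- a form which is good at the small primes
  obtain ⟨F, hF, hFG⟩ : ∃ F : MvPolynomial (Fin (n + 1)) ℤ, F.IsHomogeneous d ∧
      ∀ p : ℕ, p ≤ M → p.Prime → G F p := by
    have h1 : ∀ p : ℕ, ∃ F : MvPolynomial (Fin (n + 1)) ℤ, p.Prime →
        F.IsHomogeneous d ∧ G F p := by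
      intro p
      by_cases hp : p.Prime
      · obtain ⟨F, hF⟩ := hex p hp
        exact ⟨F, fun _ => hF⟩
      · exact ⟨0, fun h => absurd h hp⟩
    choose f hf using h1
    obtain ⟨F, hF, hdiv⟩ := DensB_crt n d f ((Finset.range (M + 1)).filter Nat.Prime)
      (fun p hp => (Finset.mem_filter.1 hp).2) (fun p hp => (hf p (Finset.mem_filter.1 hp).2).1)
    refine ⟨F, hF, fun p hp hpp => ?_⟩
    exact hcongr p _ _ (hdiv p (Finset.mem_filter.2 ⟨Finset.mem_range.2 (by omega), hpp⟩))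
      (hf p hpp).2
  have hPr : (0 : ℝ) < P := by exact_mod_cast hP
  refine ⟨1 / (2 ^ (N + 1) * (P : ℝ) ^ N), by positivity, P * max L₀ 1, fun H hH => ?_⟩
  set L := 2 * H / P + 1 with hL
  have hLbig : max L₀ 1 ≤ 2 * H / P := by
    rw [Nat.le_div_iff_mul_le (by omega)]
    calc max L₀ 1 * P = P * max L₀ 1 := by ring
      _ ≤ H := hH
      _ ≤ 2 * H := by omega
  have hLL₀ : L₀ ≤ L := by
    have := le_max_left L₀ 1
    omega
  have hL2 : 2 ≤ L := by
    have := le_max_right L₀ 1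
    omega
  obtain ⟨hlow, c₀, hc₀, hG⟩ := class_count n d hP H F hF
  have hcong : ∀ F' : MvPolynomial (Fin (n + 1)) ℤ, C (P : ℤ) ∣ F' - F →
      ∀ p : ℕ, p ≤ M → p.Prime → G F' p := by
    intro F' hGF p hpM hp
    refine hcongr p F F' ?_ (hFG p hpM hp)
    have h1 : C (p : ℤ) ∣ (C (P : ℤ) : MvPolynomial (Fin (n + 1)) ℤ) := by
      obtain ⟨q, hq⟩ := hPdvd p hpM hp
      exact ⟨C (q : ℤ), by rw [← C_mul, hq]; push_cast; rfl⟩
    rw [← neg_sub]
    exact (dvd_neg).2 (h1.trans hGF)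
  have hfin := box_finite n d H
  set A : Set (MvPolynomial (Fin (n + 1)) ℤ) := {F' ∈ Box n d H | C (P : ℤ) ∣ F' - F} with hA
  set R : Set (MvPolynomial (Fin (n + 1)) ℤ) :=
    {F' ∈ Box n d H | ∀ p : ℕ, p.Prime → G F' p} with hR
  set W := {x : Mon n d → Fin L // ∃ p : ℕ, p.Prime ∧ M < p ∧
          ¬ G (toF fun α => c₀ α + P * ((x α : ℕ) : ℤ)) p} with hW
  let fW : Fintype W := Fintype.ofFinite W
  have hAf : A.Finite := hfin.subset fun F' hF' => hF'.1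
  have hRf : R.Finite := hfin.subset fun F' hF' => hF'.1
  set B : Set (MvPolynomial (Fin (n + 1)) ℤ) :=
    (↑((Finset.univ : Finset W).image (fun x : W => toF fun α => c₀ α + P * ((x.1 α : ℕ) : ℤ))) :
      Set (MvPolynomial (Fin (n + 1)) ℤ)) with hB
  have hBf : B.Finite := Finset.finite_toSet _
  have hBc : B.ncard ≤ Nat.card W := by
    rw [hB, Set.ncard_coe_finset]
    calc _ ≤ (Finset.univ : Finset W).card := Finset.card_image_le
      _ = Nat.card W := by rw [Finset.card_univ, Nat.card_eq_fintype_card]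
  have hsub : A ⊆ R ∪ B := by
    intro F' hF'
    by_cases hg : ∀ p : ℕ, p.Prime → G F' p
    · exact Or.inl ⟨hF'.1, hg⟩
    · right
      push Not at hg
      obtain ⟨p, hp, hpG⟩ := hg
      obtain ⟨x, hx⟩ := hG F' hF'.1 hF'.2
      have hMp : M < p := by
        by_contra hcon
        exact hpG (hcong F' hF'.2 p (not_lt.1 hcon) hp)
      refine Finset.mem_coe.2 (Finset.mem_image.2 ⟨⟨x, p, hp, hMp, ?_⟩, Finset.mem_univ _, hx.symm⟩)
      rw [← hx]
      exact hpG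
  have h1 : A.ncard ≤ R.ncard + Nat.card W :=
    (Set.ncard_le_ncard hsub (hRf.union hBf)).trans
      ((Set.ncard_union_le R B).trans (Nat.add_le_add_left hBc _))
  have h2 : (L - 1) ^ N ≤ R.ncard + Nat.card W := by
    have h3 : L - 1 = 2 * H / P := by omega
    rw [h3]
    exact hlow.trans h1
  have h4 : ((L : ℝ) - 1) ^ N ≤ (R.ncard : ℝ) + (Nat.card W : ℝ) := by
    have h5 : (((L - 1 : ℕ) : ℝ)) ^ N ≤ (R.ncard : ℝ) + (Nat.card W : ℝ) := by exact_mod_cast h2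
    rwa [Nat.cast_sub (by omega), Nat.cast_one] at h5
  have h6 : (Nat.card W : ℝ) ≤ 1 / 2 ^ (N + 1) * (L : ℝ) ^ N := hL₀ L hLL₀ c₀ hc₀
  have hLr : (2 : ℝ) ≤ L := by exact_mod_cast hL2
  have h7 : ((L : ℝ) / 2) ^ N ≤ ((L : ℝ) - 1) ^ N :=
    pow_le_pow_left₀ (by positivity) (by linarith) _
  have h8 : 1 / 2 ^ (N + 1) * (L : ℝ) ^ N ≤ (R.ncard : ℝ) := by
    have h9 : ((L : ℝ) / 2) ^ N = 2 * (1 / 2 ^ (N + 1) * (L : ℝ) ^ N) := by
      rw [div_pow, pow_succ]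
      field_simp
    linarith
  have h10 : 2 * H + 1 ≤ P * L := by
    have := Nat.lt_mul_div_succ (2 * H) (show 0 < P by omega)
    exact this
  rw [card_box]
  have h11 : (((2 * H + 1) ^ Fintype.card (Mon n d) : ℕ) : ℝ) ≤ (P : ℝ) ^ N * (L : ℝ) ^ N := by
    rw [← mul_pow]
    exact_mod_cast Nat.pow_le_pow_left h10 N
  refine le_trans (mul_le_mul_of_nonneg_left h11 (by positivity)) (le_trans (le_of_eq ?_) h8)
  field_simp

end Pool.Agent.EvM
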