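import Pool.Agent.EvM.ExDefs

set_option autoImplicit false

/-! # ExFam: the condition depends on `F` modulo `p` and does not change in the family -/

namespace Pool.Agent.EvM

open MvPolynomial Pool.Agent.NH Pool.Agent.NT9

private theorem ef_dvd {n p : ℕ} {F G : MvPolynomial (Fin (n + 1)) ℤ} (h : C (p : ℤ) ∣ F - G)
    (i : Fin (n + 1)) : C (p : ℤ) ∣ pderiv i F - pderiv i G := by
  obtain ⟨H, hH⟩ := h
  refine ⟨pderiv i H, ?_⟩
  rw [← map_sub, hH, pderiv_C_mul]

private theorem ef_eq {n p : ℕ} {F G : MvPolynomial (Fin (n + 1)) ℤ} (h : C (p : ℤ) ∣ F - G)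
    {L : Type} [Field L] [CharP L p] (x : Fin (n + 1) → L) : aeval x F = aeval x G := by
  obtain ⟨H, hH⟩ := h
  have h1 : aeval x (F - G) = 0 := by
    rw [hH, map_mul, aeval_C]
    have h2 : (algebraMap ℤ L) (p : ℤ) = 0 := by
      rw [eq_intCast, Int.cast_natCast, CharP.cast_eq_zero]
    rw [h2, zero_mul]
  rw [map_sub] at h1
  exact sub_eq_zero.1 h1

private theorem ef_ne {n : ℕ} (hn : 1 ≤ n) : (1 : Fin (n + 1)) ≠ 0 := by
  obtain ⟨m, rfl⟩ : ∃ m, n = m + 1 := ⟨n - 1, by omega⟩
  intro h
  have h1 := congrArg Fin.val h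
  rw [Fin.val_one, Fin.val_zero] at h1
  omega

private theorem ef_pd {n d : ℕ} (F : MvPolynomial (Fin (n + 1)) ℤ) (a b : ℤ) (i : Fin (n + 1)) :
    pderiv i (fam d F a b) = pderiv i F + C a * ((d : MvPolynomial (Fin (n + 1)) ℤ) *
      X 0 ^ (d - 1) * pderiv i (X 0)) +
      C b * (X 0 ^ (d - 1) * pderiv i (X 1) + X 1 * (((d - 1 : ℕ) : MvPolynomial (Fin (n + 1)) ℤ) *
        X 0 ^ (d - 1 - 1) * pderiv i (X 0))) := by
  unfold fam
  rw [map_add, map_add, pderiv_C_mul, pderiv_C_mul, Derivation.leibniz, Derivation.leibniz_pow,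
    Derivation.leibniz_pow]
  simp only [smul_eq_mul, nsmul_eq_mul]
  ring

theorem fam_hom {n d : ℕ} (hd : 1 ≤ d) {F : MvPolynomial (Fin (n + 1)) ℤ}
    (hF : F.IsHomogeneous d) (a b : ℤ) : (fam d F a b).IsHomogeneous d := by
  unfold fam
  have h1 : (C a * X 0 ^ d : MvPolynomial (Fin (n + 1)) ℤ).IsHomogeneous d := by
    have h := (isHomogeneous_C (Fin (n + 1)) a).mul ((isHomogeneous_X ℤ (0 : Fin (n + 1))).pow d)
    rw [zero_add, one_mul] at h
    exact h
  have h2 : (C b * (X 0 ^ (d - 1) * X 1) : MvPolynomial (Fin (n + 1)) ℤ).IsHomogeneous d := by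
    have h := (isHomogeneous_C (Fin (n + 1)) b).mul
      (((isHomogeneous_X ℤ (0 : Fin (n + 1))).pow (d - 1)).mul
        (isHomogeneous_X ℤ (1 : Fin (n + 1))))
    rw [zero_add, one_mul, Nat.sub_add_cancel hd] at h
    exact h
  exact (hF.add h1).add h2

/-- As `NH.nodalAt_congr` (all values in `L` are the same). -/
theorem good_congr {n p : ℕ} {F G : MvPolynomial (Fin (n + 1)) ℤ} (h : C (p : ℤ) ∣ F - G)
    (hF : Good F p) : Good G p := by
  refine ⟨?_, ?_⟩
  · intro L _ _ x h0 hx hd
    refine hF.1 L x h0 ?_ (fun i => ?_)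
    · rw [ef_eq h x]
      exact hx
    · rw [ef_eq (ef_dvd h i) x]
      exact hd i
  · intro L _ _ x h0 hd
    have h1 := hF.2 L x h0 (fun i hi0 hi1 => by
      rw [ef_eq (ef_dvd h i) x]
      exact hd i hi0 hi1)
    have h2 : hessAt 0 F x = hessAt 0 G x := by
      unfold hessAt
      ext a b
      rw [Matrix.of_apply, Matrix.of_apply]
      exact ef_eq (ef_dvd (ef_dvd h b.1) a.1) x
    rw [← h2]
    exact h1

/-- At the points with `x_0 = 0` the value and the partial derivatives are the same (`d ≥ 3`). At the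
points with `x_0 = 1` the partial derivatives with respect to `x_2, ..., x_n` and the second partial
derivatives with respect to `x_1, ..., x_n` are the same. -/
theorem good_fam {n d p : ℕ} (hn : 1 ≤ n) (hd : 3 ≤ d) {F : MvPolynomial (Fin (n + 1)) ℤ}
    (a b : ℤ) (hF : Good F p) : Good (fam d F a b) p := by
  have hne := ef_ne hn
  refine ⟨?_, ?_⟩
  · intro L _ _ x h0 hx hdd
    have hz : aeval x (X 0 : MvPolynomial (Fin (n + 1)) ℤ) = 0 := by rw [aeval_X, h0]
    refine hF.1 L x h0 ?_ (fun i => ?_)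
    · unfold fam at hx
      rw [map_add, map_add, map_mul, map_mul, map_mul, map_pow, map_pow, hz,
        zero_pow (by omega), zero_pow (by omega), mul_zero, zero_mul, mul_zero, add_zero,
        add_zero] at hx
      exact hx
    · have h1 := hdd i
      rw [ef_pd] at h1
      simp only [map_add, map_mul, map_pow] at h1
      rw [hz, zero_pow (by omega), zero_pow (by omega)] at h1
      simp only [mul_zero, zero_mul, add_zero] at h1
      exact h1
  · intro L _ _ x h0 hdd
    have h1 := hF.2 L x h0 (fun i hi0 hi1 => by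
      have h2 := hdd i hi0 hi1
      rw [ef_pd, pderiv_X_of_ne (Ne.symm hi0), pderiv_X_of_ne (Ne.symm hi1)] at h2
      simp only [mul_zero, add_zero] at h2
      exact h2)
    have h2 : hessAt 0 (fam d F a b) x = hessAt 0 F x := by
      unfold hessAt
      ext u v
      rw [Matrix.of_apply, Matrix.of_apply]
      have h3 : pderiv u.1 (pderiv v.1 (fam d F a b)) = pderiv u.1 (pderiv v.1 F) := by
        rw [ef_pd, pderiv_X_of_ne (Ne.symm v.2)]
        simp only [mul_zero, add_zero]
        rw [map_add, pderiv_C_mul, Derivation.leibniz, Derivation.leibniz_pow,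
          pderiv_X_of_ne (Ne.symm u.2)]
        have h4 : pderiv u.1 (pderiv v.1 (X 1 : MvPolynomial (Fin (n + 1)) ℤ)) = 0 := by
          rw [pderiv_X]
          by_cases h5 : v.1 = 1
          · rw [h5, Pi.single_eq_same, pderiv_one]
          · rw [Pi.single_eq_of_ne (Ne.symm h5), map_zero]
        rw [h4]
        simp only [smul_zero, add_zero, mul_zero]
      rw [h3]
    rw [h2]
    exact h1

end Pool.Agent.EvM
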