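import Pool.Agent.EvM.ExLin

set_option autoImplicit false

/-! # ExForm: good forms modulo every prime (`y_j = x_j`, `1 ≤ j ≤ n`) -/

namespace Pool.Agent.EvM

open MvPolynomial Pool.Agent.NH Pool.Agent.NT9

/-- The index `k` modulo `n + 1`. -/
private def exf_c (n k : ℕ) : Fin (n + 1) := ⟨k % (n + 1), Nat.mod_lt _ (Nat.succ_pos n)⟩

private noncomputable def exf_Y (n k : ℕ) : MvPolynomial (Fin (n + 1)) ℤ := X (exf_c n k)

private theorem exf_c_val {n k : ℕ} (h : k ≤ n) : (exf_c n k).val = k :=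
  Nat.mod_eq_of_lt (Nat.lt_succ_of_le h)

private theorem exf_c_last (n : ℕ) : exf_c n (n + 1) = 0 := by
  apply Fin.ext
  show (n + 1) % (n + 1) = _
  rw [Nat.mod_self, Fin.val_zero]

private theorem exf_c_self {n : ℕ} (i : Fin (n + 1)) : exf_c n i.val = i :=
  Fin.ext (Nat.mod_eq_of_lt i.isLt)

private theorem exf_c_iff {n j k : ℕ} (h1 : 1 ≤ j) (h2 : j ≤ n) (h3 : 1 ≤ k) (h4 : k ≤ n + 1) :
    exf_c n j = exf_c n k ↔ j = k := by
  constructor
  · intro h
    rcases Nat.lt_or_ge k (n + 1) with h5 | h5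
    · have := congrArg Fin.val h
      rwa [exf_c_val h2, exf_c_val (by omega)] at this
    · have h6 : k = n + 1 := by omega
      rw [h6, exf_c_last] at h
      have := congrArg Fin.val h
      rw [exf_c_val h2, Fin.val_zero] at this
      omega
  · rintro rfl
    rfl

private theorem exf_c_ne {n j : ℕ} (h1 : 1 ≤ j) (h2 : j ≤ n) : exf_c n j ≠ 0 := by
  intro h
  have := congrArg Fin.val h
  rw [exf_c_val h2, Fin.val_zero] at this
  omega

private theorem exf_c_ne1 {n j : ℕ} (h1 : 2 ≤ j) (h2 : j ≤ n) : exf_c n j ≠ 1 := by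
  intro h
  have := congrArg Fin.val h
  rw [exf_c_val h2, Fin.val_one', Nat.mod_eq_of_lt (by omega)] at this
  omega

private theorem exf_pd {n j k : ℕ} (h1 : 1 ≤ j) (h2 : j ≤ n) (h3 : 1 ≤ k) (h4 : k ≤ n + 1) :
    pderiv (exf_c n j) (exf_Y n k) = if j = k then 1 else 0 := by
  classical
  unfold exf_Y
  rw [pderiv_X, Pi.single_apply]
  by_cases h : j = k
  · rw [if_pos h, if_pos (by rw [h])]
  · rw [if_neg h, if_neg]
    intro h5
    exact h ((exf_c_iff h1 h2 h3 h4).1 h5.symm)

private theorem exf_ev {n k : ℕ} {L : Type} [CommRing L] (x : Fin (n + 1) → L) :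
    aeval x (exf_Y n k) = x (exf_c n k) := by
  unfold exf_Y
  rw [aeval_X]

private theorem exf_s1 {n i : ℕ} (hi : i < n) {M : Type} [AddCommMonoid M] (f : ℕ → M) :
    ∑ k ∈ Finset.range n, (if i + 1 = k + 1 then f k else 0) = f i := by
  rw [Finset.sum_eq_single i]
  · rw [if_pos rfl]
  · intro k _ hk
    rw [if_neg (by omega)]
  · intro h
    exact absurd (Finset.mem_range.2 hi) h

private theorem exf_s2 {n i : ℕ} (hi : i < n) {M : Type} [AddCommMonoid M] (f : ℕ → M) :
    ∑ k ∈ Finset.range n, (if i + 2 = k + 2 then f k else 0) = f i := by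
  rw [Finset.sum_eq_single i]
  · rw [if_pos rfl]
  · intro k _ hk
    rw [if_neg (by omega)]
  · intro h
    exact absurd (Finset.mem_range.2 hi) h

private theorem exf_s0 {n : ℕ} {M : Type} [AddCommMonoid M] (f : ℕ → M) :
    ∑ k ∈ Finset.range n, (if 0 + 1 = k + 2 then f k else 0) = 0 :=
  Finset.sum_eq_zero fun k _ => by rw [if_neg (by omega)]

/-! ### The form of `exA` -/

private noncomputable def exf_A (n e : ℕ) : MvPolynomial (Fin (n + 1)) ℤ :=
  exf_Y n 1 ^ (e + 3) + ∑ k ∈ Finset.range n, exf_Y n (k + 1) * exf_Y n (k + 2) ^ (e + 2)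

private theorem exf_Y_hom (n k : ℕ) : (exf_Y n k).IsHomogeneous 1 := isHomogeneous_X _ _

private theorem exf_A_hom (n e : ℕ) : (exf_A n e).IsHomogeneous (e + 3) := by
  unfold exf_A
  refine IsHomogeneous.add ?_ (IsHomogeneous.sum _ _ _ fun k _ => ?_)
  · have := (exf_Y_hom n 1).pow (e + 3)
    rwa [one_mul] at this
  · have := (exf_Y_hom n (k + 1)).mul ((exf_Y_hom n (k + 2)).pow (e + 2))
    have h2 : 1 + 1 * (e + 2) = e + 3 := by ring
    rwa [h2] at this

private theorem exf_A_term {n e i k : ℕ} (hi : i < n) (hk : k < n) :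
    pderiv (exf_c n (i + 1)) (exf_Y n (k + 1) * exf_Y n (k + 2) ^ (e + 2)) =
      (if i + 1 = k + 1 then exf_Y n (k + 2) ^ (e + 2) else 0) +
      (if i + 1 = k + 2 then ((e : MvPolynomial (Fin (n + 1)) ℤ) + 2) *
        (exf_Y n (k + 1) * exf_Y n (k + 2) ^ (e + 1)) else 0) := by
  rw [pderiv_mul, pderiv_pow, exf_pd (by omega) (by omega) (by omega) (by omega),
    exf_pd (by omega) (by omega) (by omega) (by omega)]
  have h1 : e + 2 - 1 = e + 1 := by omega
  rw [h1]
  push_cast
  split_ifs <;> ring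

private theorem exf_A_d0 {n e : ℕ} (hn : 1 ≤ n) : pderiv (exf_c n 1) (exf_A n e) =
    ((e : MvPolynomial (Fin (n + 1)) ℤ) + 3) * exf_Y n 1 ^ (e + 2) + exf_Y n 2 ^ (e + 2) := by
  unfold exf_A
  rw [map_add, map_sum, Finset.sum_congr rfl fun k hk =>
    exf_A_term (e := e) (i := 0) (by omega) (Finset.mem_range.1 hk), Finset.sum_add_distrib,
    exf_s1 (i := 0) (by omega) fun k => exf_Y n (k + 2) ^ (e + 2), exf_s0, add_zero, pderiv_pow,
    exf_pd (by omega) (by omega) (by omega) (by omega), if_pos rfl]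
  have h1 : e + 3 - 1 = e + 2 := by omega
  rw [h1]
  push_cast
  ring

private theorem exf_A_d {n e i : ℕ} (hn : i + 1 < n) : pderiv (exf_c n (i + 2)) (exf_A n e) =
    ((e : MvPolynomial (Fin (n + 1)) ℤ) + 2) * (exf_Y n (i + 1) * exf_Y n (i + 2) ^ (e + 1)) +
      exf_Y n (i + 3) ^ (e + 2) := by
  unfold exf_A
  rw [map_add, map_sum, Finset.sum_congr rfl fun k hk =>
    exf_A_term (e := e) (i := i + 1) (by omega) (Finset.mem_range.1 hk), Finset.sum_add_distrib,
    exf_s1 (i := i + 1) (by omega) fun k => exf_Y n (k + 2) ^ (e + 2),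
    exf_s2 (i := i) (by omega) fun k => ((e : MvPolynomial (Fin (n + 1)) ℤ) + 2) *
        (exf_Y n (k + 1) * exf_Y n (k + 2) ^ (e + 1)), pderiv_pow,
    exf_pd (by omega) (by omega) (by omega) (by omega), if_neg (by omega)]
  ring

private theorem exf_A_h {n e i a : ℕ} (hn : i + 1 < n) (ha1 : 1 ≤ a) (ha : a < i + 2) :
    pderiv (exf_c n a) (pderiv (exf_c n (i + 2)) (exf_A n e)) =
      if a = i + 1 then ((e : MvPolynomial (Fin (n + 1)) ℤ) + 2) * exf_Y n (i + 2) ^ (e + 1)
      else 0 := by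
  have hc : pderiv (exf_c n a) ((e : MvPolynomial (Fin (n + 1)) ℤ) + 2) = 0 := by
    have : ((e : MvPolynomial (Fin (n + 1)) ℤ) + 2) = C ((e : ℤ) + 2) := by simp
    rw [this, pderiv_C]
  rw [exf_A_d hn, map_add, pderiv_mul, pderiv_mul, pderiv_pow, pderiv_pow, hc,
    exf_pd ha1 (by omega) (by omega) (by omega), exf_pd ha1 (by omega) (by omega) (by omega),
    exf_pd ha1 (by omega) (by omega) (by omega), if_neg (show ¬ a = i + 2 by omega),
    if_neg (show ¬ a = i + 3 by omega)]
  split_ifs <;> ring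

/-! ### The form of `exB` and `exC` -/

private noncomputable def exf_B (n e : ℕ) : MvPolynomial (Fin (n + 1)) ℤ :=
  (∑ k ∈ Finset.range n, exf_Y n (k + 1) ^ (e + 3)) +
    X 0 ^ (e + 1) * ∑ k ∈ Finset.range n, exf_Y n (k + 1) * exf_Y n (k + 2)

private theorem exf_B_hom (n e : ℕ) : (exf_B n e).IsHomogeneous (e + 3) := by
  unfold exf_B
  refine IsHomogeneous.add (IsHomogeneous.sum _ _ _ fun k _ => ?_) ?_
  · have := (exf_Y_hom n (k + 1)).pow (e + 3)
    rwa [one_mul] at this
  · have h1 : (∑ k ∈ Finset.range n, exf_Y n (k + 1) * exf_Y n (k + 2)).IsHomogeneous 2 :=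
      IsHomogeneous.sum _ _ _ fun k _ => (exf_Y_hom n (k + 1)).mul (exf_Y_hom n (k + 2))
    have h2 : (X 0 ^ (e + 1) : MvPolynomial (Fin (n + 1)) ℤ).IsHomogeneous (e + 1) :=
      isHomogeneous_X_pow _ _
    exact h2.mul h1

private theorem exf_X0 {n j : ℕ} (h1 : 1 ≤ j) (h2 : j ≤ n) :
    pderiv (exf_c n j) (X 0 : MvPolynomial (Fin (n + 1)) ℤ) = 0 := by
  classical
  rw [pderiv_X, Pi.single_apply, if_neg]
  intro h
  exact exf_c_ne h1 h2 h.symm

private theorem exf_B_term1 {n e i k : ℕ} (hi : i < n) (hk : k < n) :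
    pderiv (exf_c n (i + 1)) (exf_Y n (k + 1) ^ (e + 3)) =
      (if i + 1 = k + 1 then ((e : MvPolynomial (Fin (n + 1)) ℤ) + 3) *
        exf_Y n (k + 1) ^ (e + 2) else 0) := by
  rw [pderiv_pow, exf_pd (by omega) (by omega) (by omega) (by omega)]
  have h1 : e + 3 - 1 = e + 2 := by omega
  rw [h1]
  push_cast
  split_ifs <;> ring

private theorem exf_B_term2 {n i k : ℕ} (hi : i < n) (hk : k < n) :
    pderiv (exf_c n (i + 1)) (exf_Y n (k + 1) * exf_Y n (k + 2)) =
      (if i + 1 = k + 1 then exf_Y n (k + 2) else 0) +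
      (if i + 1 = k + 2 then exf_Y n (k + 1) else 0) := by
  rw [pderiv_mul, exf_pd (by omega) (by omega) (by omega) (by omega),
    exf_pd (by omega) (by omega) (by omega) (by omega)]
  split_ifs <;> ring

private theorem exf_B_d0 {n e : ℕ} (hn : 1 ≤ n) : pderiv (exf_c n 1) (exf_B n e) =
    ((e : MvPolynomial (Fin (n + 1)) ℤ) + 3) * exf_Y n 1 ^ (e + 2) +
      X 0 ^ (e + 1) * exf_Y n 2 := by
  unfold exf_B
  rw [map_add, pderiv_mul, pderiv_pow, exf_X0 (by omega) (by omega), map_sum, map_sum,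
    Finset.sum_congr rfl fun k hk =>
      exf_B_term1 (e := e) (i := 0) (by omega) (Finset.mem_range.1 hk),
    Finset.sum_congr rfl fun k hk =>
      exf_B_term2 (i := 0) (by omega) (Finset.mem_range.1 hk), Finset.sum_add_distrib,
    exf_s1 (i := 0) (by omega) fun k => ((e : MvPolynomial (Fin (n + 1)) ℤ) + 3) *
        exf_Y n (k + 1) ^ (e + 2),
    exf_s1 (i := 0) (by omega) fun k => exf_Y n (k + 2), exf_s0]
  ring

private theorem exf_B_d {n e i : ℕ} (hn : i + 1 < n) : pderiv (exf_c n (i + 2)) (exf_B n e) =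
    ((e : MvPolynomial (Fin (n + 1)) ℤ) + 3) * exf_Y n (i + 2) ^ (e + 2) +
      X 0 ^ (e + 1) * (exf_Y n (i + 3) + exf_Y n (i + 1)) := by
  unfold exf_B
  rw [map_add, pderiv_mul, pderiv_pow, exf_X0 (by omega) (by omega), map_sum, map_sum,
    Finset.sum_congr rfl fun k hk =>
      exf_B_term1 (e := e) (i := i + 1) (by omega) (Finset.mem_range.1 hk),
    Finset.sum_congr rfl fun k hk =>
      exf_B_term2 (i := i + 1) (by omega) (Finset.mem_range.1 hk), Finset.sum_add_distrib,
    exf_s1 (i := i + 1) (by omega) fun k => ((e : MvPolynomial (Fin (n + 1)) ℤ) + 3) *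
        exf_Y n (k + 1) ^ (e + 2),
    exf_s1 (i := i + 1) (by omega) fun k => exf_Y n (k + 2),
    exf_s2 (i := i) (by omega) fun k => exf_Y n (k + 1)]
  ring

private theorem exf_B_h {n e i a : ℕ} (hn : i + 1 < n) (ha1 : 1 ≤ a) (ha : a < i + 2) :
    pderiv (exf_c n a) (pderiv (exf_c n (i + 2)) (exf_B n e)) =
      if a = i + 1 then X 0 ^ (e + 1) else 0 := by
  have hc : pderiv (exf_c n a) ((e : MvPolynomial (Fin (n + 1)) ℤ) + 3) = 0 := by
    have : ((e : MvPolynomial (Fin (n + 1)) ℤ) + 3) = C ((e : ℤ) + 3) := by simp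
    rw [this, pderiv_C]
  rw [exf_B_d hn, map_add, pderiv_mul, pderiv_mul, pderiv_pow, pderiv_pow, hc, map_add,
    exf_X0 ha1 (by omega), exf_pd ha1 (by omega) (by omega) (by omega),
    exf_pd ha1 (by omega) (by omega) (by omega),
    exf_pd ha1 (by omega) (by omega) (by omega), if_neg (show ¬ a = i + 2 by omega),
    if_neg (show ¬ a = i + 3 by omega)]
  split_ifs <;> ring

private theorem exf_BC {n d p : ℕ} (hn : 2 ≤ n) (hd : 3 ≤ d) (hp : p.Prime) (h : p ∣ d - 1) :
    ∃ F : MvPolynomial (Fin (n + 1)) ℤ, F.IsHomogeneous d ∧ Good F p := by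
  obtain ⟨e, rfl⟩ : ∃ e, d = e + 3 := ⟨d - 3, by omega⟩
  have h1 : e + 3 - 1 = e + 2 := by omega
  rw [h1] at h
  refine ⟨exf_B n e, exf_B_hom n e, ?_, ?_⟩
  · intro L _ _ x hx0 _ hd
    have hce : (e : L) + 3 = 1 := by
      have h2 : ((e + 2 : ℕ) : L) = 0 := (CharP.cast_eq_zero_iff L p (e + 2)).2 h
      push_cast at h2
      linear_combination h2
    have hall : ∀ j, 1 ≤ j → j ≤ n → x (exf_c n j) = 0 := by
      intro j hj1 hjn
      have h3 := hd (exf_c n j)
      rcases Nat.lt_or_ge 1 j with h4 | h4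
      · obtain ⟨i, rfl⟩ : ∃ i, j = i + 2 := ⟨j - 2, by omega⟩
        rw [exf_B_d (by omega)] at h3
        simp only [map_add, map_mul, map_pow, map_natCast, exf_ev, aeval_X, hx0, map_ofNat,
          hce, one_mul, zero_pow (Nat.succ_ne_zero e), zero_mul, add_zero] at h3
        exact pow_eq_zero_iff (by omega) |>.1 h3
      · obtain rfl : j = 1 := by omega
        rw [exf_B_d0 (by omega)] at h3
        simp only [map_add, map_mul, map_pow, map_natCast, exf_ev, aeval_X, hx0, map_ofNat,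
          hce, one_mul, zero_pow (Nat.succ_ne_zero e), zero_mul, add_zero] at h3
        exact pow_eq_zero_iff (by omega) |>.1 h3
    funext i
    rcases Nat.eq_zero_or_pos i.val with h5 | h5
    · have : i = 0 := Fin.ext h5
      rw [this, hx0]
      rfl
    · rw [← exf_c_self i]
      exact hall i.val h5 (by omega)
  · intro L _ _ x hx0 _
    apply rank_tri
    · intro a b hab
      have ha : 1 ≤ a.1.val := Nat.pos_of_ne_zero fun h0 => a.2 (Fin.ext h0)
      have hb := b.1.isLt
      obtain ⟨i, hi⟩ : ∃ i, b.1.val = i + 2 := ⟨b.1.val - 2, by omega⟩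
      show aeval x (pderiv a.1 (pderiv b.1 (exf_B n e))) = 0
      rw [← exf_c_self a.1, ← exf_c_self b.1, hi, exf_B_h (by omega) ha (by omega),
        if_neg (by omega), map_zero]
    · intro a b hab
      have ha : 1 ≤ a.1.val := Nat.pos_of_ne_zero fun h0 => a.2 (Fin.ext h0)
      have hb := b.1.isLt
      obtain ⟨i, hi⟩ : ∃ i, b.1.val = i + 2 := ⟨b.1.val - 2, by omega⟩
      show aeval x (pderiv a.1 (pderiv b.1 (exf_B n e))) ≠ 0
      rw [← exf_c_self a.1, ← exf_c_self b.1, hi, exf_B_h (by omega) ha (by omega),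
        if_pos (by omega), map_pow, aeval_X, hx0, one_pow]
      exact one_ne_zero

/-- `F = y_1 ^ d + sum_(j < n) y_j y_(j+1) ^ (d-1) + y_n x_0 ^ (d-1)`, that is,
`X 1 ^ d + ∑ i : Fin n, X i.succ * X (i.succ + 1) ^ (d - 1)` (the indices are modulo `n + 1`).
`∂_j F = (d-1) y_(j-1) y_j ^ (d-2) + y_(j+1) ^ (d-1)` for `2 ≤ j ≤ n` (`y_(n+1) = x_0`). If `x_0 = 1` and these
vanish, `y_n ≠ 0`, `y_(n-1) ≠ 0`, and so on down to `y_1`; the Hessian is tridiagonal with superdiagonal
entries `(d-1) y_(j+1) ^ (d-2) ≠ 0`: `rank_tri`. If `x_0 = 0` and all `∂_j F = 0`, `F = 0`: for `j = n, ..., 2`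
in this order: `∂_j F = 0` and `y_(j+1) = 0` give `y_(j-1) = 0` or `y_j = 0`; in the first case `∂_(j-1) F = 0`
gives `y_j = 0` too (for `j = 2`: `∂_1 F = d y_1 ^ (d-1) + y_2 ^ (d-1)`). So `y_2 = ... = y_n = 0` and
`F = y_1 ^ d = 0`. -/
theorem exA {n d p : ℕ} (hn : 2 ≤ n) (hd : 3 ≤ d) (hp : p.Prime) (h : ¬ p ∣ d - 1) :
    ∃ F : MvPolynomial (Fin (n + 1)) ℤ, F.IsHomogeneous d ∧ Good F p := by
  obtain ⟨e, rfl⟩ : ∃ e, d = e + 3 := ⟨d - 3, by omega⟩
  have h1 : e + 3 - 1 = e + 2 := by omega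
  rw [h1] at h
  have hce : ∀ (L : Type) [Field L] [CharP L p], (e : L) + 2 ≠ 0 := by
    intro L _ _ h0
    apply h
    rw [← CharP.cast_eq_zero_iff L p (e + 2)]
    push_cast
    exact h0
  refine ⟨exf_A n e, exf_A_hom n e, ?_, ?_⟩
  · intro L _ _ x hx0 hF hd
    have hL := hce L
    have hD1 : ((e : L) + 3) * x (exf_c n 1) ^ (e + 2) + x (exf_c n 2) ^ (e + 2) = 0 := by
      have h3 := hd (exf_c n 1)
      rw [exf_A_d0 (by omega)] at h3
      simpa only [map_add, map_mul, map_pow, map_natCast, exf_ev, map_ofNat] using h3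
    have hD : ∀ i, i + 1 < n → ((e : L) + 2) * (x (exf_c n (i + 1)) * x (exf_c n (i + 2)) ^ (e + 1))
        + x (exf_c n (i + 3)) ^ (e + 2) = 0 := by
      intro i hi
      have h3 := hd (exf_c n (i + 2))
      rw [exf_A_d hi] at h3
      simpa only [map_add, map_mul, map_pow, map_natCast, exf_ev, map_ofNat] using h3
    have hall : ∀ k j, 2 ≤ j → j ≤ n + 1 → j + k = n + 1 → x (exf_c n j) = 0 := by
      intro k
      induction k with
      | zero =>
        intro j hj2 hjn hjk
        have : j = n + 1 := by omega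
        rw [this, exf_c_last, hx0]
      | succ k ih =>
        intro j hj2 hjn hjk
        have hnext := ih (j + 1) (by omega) (by omega) (by omega)
        obtain ⟨i, rfl⟩ : ∃ i, j = i + 2 := ⟨j - 2, by omega⟩
        have h3 := hD i (by omega)
        rw [show i + 2 + 1 = i + 3 by omega] at hnext
        rw [hnext, zero_pow (by omega), add_zero] at h3
        have h4 := (mul_eq_zero.1 h3).resolve_left hL
        rcases mul_eq_zero.1 h4 with h5 | h5
        · rcases Nat.eq_zero_or_pos i with h6 | h6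
          · subst h6
            have h7 : x (exf_c n 1) = 0 := h5
            rw [h7, zero_pow (by omega), mul_zero, zero_add] at hD1
            exact pow_eq_zero_iff (by omega) |>.1 hD1
          · obtain ⟨i', rfl⟩ : ∃ i', i = i' + 1 := ⟨i - 1, by omega⟩
            have h7 := hD i' (by omega)
            have h8 : x (exf_c n (i' + 2)) = 0 := h5
            rw [h8, zero_pow (by omega), mul_zero, mul_zero, zero_add] at h7
            exact pow_eq_zero_iff (by omega) |>.1 h7
        · exact pow_eq_zero_iff (by omega) |>.1 h5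
    have hx1 : x (exf_c n 1) = 0 := by
      unfold exf_A at hF
      rw [map_add, map_sum, Finset.sum_eq_zero, add_zero, map_pow, exf_ev] at hF
      · exact pow_eq_zero_iff (by omega) |>.1 hF
      · intro k hk
        have hk' := Finset.mem_range.1 hk
        rw [map_mul, map_pow, exf_ev, exf_ev,
          hall (n + 1 - (k + 2)) (k + 2) (by omega) (by omega) (by omega), zero_pow (by omega),
          mul_zero]
    funext i
    rcases Nat.eq_zero_or_pos i.val with h5 | h5
    · have : i = 0 := Fin.ext h5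
      rw [this, hx0]
      rfl
    · rw [← exf_c_self i]
      rcases Nat.lt_or_ge 1 i.val with h6 | h6
      · exact hall (n + 1 - i.val) i.val (by omega) (by omega) (by omega)
      · have h7 : i.val = 1 := by omega
        rw [h7]
        exact hx1
  · intro L _ _ x hx0 hd
    have hL := hce L
    have hD : ∀ i, i + 1 < n → ((e : L) + 2) * (x (exf_c n (i + 1)) * x (exf_c n (i + 2)) ^ (e + 1))
        + x (exf_c n (i + 3)) ^ (e + 2) = 0 := by
      intro i hi
      have h3 := hd (exf_c n (i + 2)) (exf_c_ne (by omega) (by omega))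
        (exf_c_ne1 (by omega) (by omega))
      rw [exf_A_d hi] at h3
      simpa only [map_add, map_mul, map_pow, map_natCast, exf_ev, map_ofNat] using h3
    have hall : ∀ k j, 2 ≤ j → j ≤ n + 1 → j + k = n + 1 → x (exf_c n j) ≠ 0 := by
      intro k
      induction k with
      | zero =>
        intro j hj2 hjn hjk
        have : j = n + 1 := by omega
        rw [this, exf_c_last, hx0]
        exact one_ne_zero
      | succ k ih =>
        intro j hj2 hjn hjk
        have hnext := ih (j + 1) (by omega) (by omega) (by omega)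
        obtain ⟨i, rfl⟩ : ∃ i, j = i + 2 := ⟨j - 2, by omega⟩
        have h3 := hD i (by omega)
        intro h0
        rw [h0, zero_pow (by omega), mul_zero, mul_zero, zero_add] at h3
        exact hnext (pow_eq_zero_iff (by omega) |>.1 h3)
    apply rank_tri
    · intro a b hab
      have ha : 1 ≤ a.1.val := Nat.pos_of_ne_zero fun h0 => a.2 (Fin.ext h0)
      have hb := b.1.isLt
      obtain ⟨i, hi⟩ : ∃ i, b.1.val = i + 2 := ⟨b.1.val - 2, by omega⟩
      show aeval x (pderiv a.1 (pderiv b.1 (exf_A n e))) = 0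
      rw [← exf_c_self a.1, ← exf_c_self b.1, hi, exf_A_h (by omega) ha (by omega),
        if_neg (by omega), map_zero]
    · intro a b hab
      have ha : 1 ≤ a.1.val := Nat.pos_of_ne_zero fun h0 => a.2 (Fin.ext h0)
      have hb := b.1.isLt
      obtain ⟨i, hi⟩ : ∃ i, b.1.val = i + 2 := ⟨b.1.val - 2, by omega⟩
      show aeval x (pderiv a.1 (pderiv b.1 (exf_A n e))) ≠ 0
      rw [← exf_c_self a.1, ← exf_c_self b.1, hi, exf_A_h (by omega) ha (by omega),
        if_pos (by omega), map_mul, map_pow, map_add, map_natCast, map_ofNat, exf_ev]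
      exact mul_ne_zero hL (pow_ne_zero _ (hall (n + 1 - (i + 2)) (i + 2) (by omega) (by omega)
        (by omega)))

/-- `F = sum_j (y_j ^ d + x_0 ^ (d-2) y_j ^ 2)`. The Hessian at `x_0 = 1` is diagonal with the entries
`d (d-1) y_j ^ (d-2) + 2 = 2 ≠ 0`. At `x_0 = 0`: `∂_j F = d y_j ^ (d-1)`, `d = 1` modulo `p`. -/
theorem exB {n d p : ℕ} (hn : 2 ≤ n) (hd : 3 ≤ d) (hp : p.Prime) (h : p ∣ d - 1) (h2 : p ≠ 2) :
    ∃ F : MvPolynomial (Fin (n + 1)) ℤ, F.IsHomogeneous d ∧ Good F p := by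
  have _ := h2
  exact exf_BC hn hd hp h

/-- `F = sum_j y_j ^ d + x_0 ^ (d-2) (y_1 y_2 + y_2 y_3 + ... + y_(n-1) y_n)`, `d` odd, `p = 2`. The Hessian at
`x_0 = 1` is tridiagonal, the superdiagonal entries are `1` (`d (d-1) = 0`): `rank_tri`. At `x_0 = 0`:
`∂_j F = d y_j ^ (d-1)`. -/
theorem exC {n d : ℕ} (hn : 2 ≤ n) (hd : 3 ≤ d) (h : 2 ∣ d - 1) :
    ∃ F : MvPolynomial (Fin (n + 1)) ℤ, F.IsHomogeneous d ∧ Good F 2 := by
  exact exf_BC hn hd Nat.prime_two h

theorem ex_forms {n d p : ℕ} (hn : 2 ≤ n) (hd : 3 ≤ d) (hp : p.Prime) :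
    ∃ F : MvPolynomial (Fin (n + 1)) ℤ, F.IsHomogeneous d ∧ Good F p := by
  by_cases h : p ∣ d - 1
  · by_cases h2 : p = 2
    · subst h2
      exact exC hn hd h
    · exact exB hn hd hp h h2
  · exact exA hn hd hp h

end Pool.Agent.EvM
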