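import Pool.Agent.EvM.EmFinal
import Pool.Agent.EvM.EbMain

set_option autoImplicit false

/-! # ExGeo: the resolution theorem (helper72, helper80) -/

namespace Pool.Agent.EvM

open MvPolynomial Pool.Agent.NH Pool.Agent.NT9

theorem geoC {n d : ℕ} (hn : 2 ≤ n) (hd : 2 ≤ d) {F : MvPolynomial (Fin (n + 1)) ℤ}
    (hF : F.IsHomogeneous d) (hsm : SmoothQ F) (hgood : GoodC F) : HasRegularModel F :=
  geoC_of (fun _ _ _ _ _ _ _ _ hσ hker hN hiso _ _ _ hp hpM hf hcrk _ _ hO hfr =>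
    crk_res hσ hker hN hiso hp hpM hf hcrk hO hfr) hn hd hF hsm hgood

end Pool.Agent.EvM
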