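import Pool.Agent.EvM.ExDefs

set_option autoImplicit false

/-! # ExIso: isolated singular points -/

namespace Pool.Agent.EvM

open MvPolynomial Pool.Agent.NH Pool.Agent.NT9

private theorem exiso_int {p : ℕ} [Fact p.Prime] {L : Type} [Field L] [Algebra (ZMod p) L]
    {y : L} (hy : IsIntegral ℤ y) : IsIntegral (ZMod p) y := hy.tower_top

private theorem exiso_int' {p : ℕ} [Fact p.Prime] {L : Type} [Field L] [Algebra (ZMod p) L]
    {y : L} (hy : IsIntegral (ZMod p) y) : IsIntegral ℤ y := by
  have : Algebra.IsIntegral ℤ (ZMod p) := by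
    refine ⟨fun r => ?_⟩
    obtain ⟨m, rfl⟩ := ZMod.intCast_surjective r
    have h := isIntegral_algebraMap (R := ℤ) (A := ZMod p) (x := m)
    simpa using h
  exact isIntegral_trans _ hy

private theorem exiso_inv {p : ℕ} (hp : p.Prime) {L : Type} [Field L] [CharP L p]
    {y : L} (hy : IsIntegral ℤ y) : IsIntegral ℤ y⁻¹ := by
  haveI := Fact.mk hp
  letI := ZMod.algebra L p
  have h1 : IsAlgebraic (ZMod p) y := (exiso_int (p := p) hy).isAlgebraic
  exact exiso_int' (p := p) h1.inv.isIntegral

private theorem exiso_map {σ A A' : Type} [CommRing A] [CommRing A'] (φ : A →+* A') (y : σ → A)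
    (F : MvPolynomial σ ℤ) : aeval (fun l => φ (y l)) F = φ (aeval y F) := by
  have h : (aeval (fun l => φ (y l)) : MvPolynomial σ ℤ →ₐ[ℤ] A').toRingHom =
      φ.comp (aeval y : MvPolynomial σ ℤ →ₐ[ℤ] A).toRingHom := by
    apply MvPolynomial.ringHom_ext
    · intro r
      simp
    · intro i
      simp
  exact RingHom.congr_fun h F

/-- A prime ideal over `p` with coordinates algebraic over the prime field is maximal.
Proof: `ℤ[x] / Q` is a domain, integral over the image of `ℤ`, which is `ℤ / p`, a field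
(`isField_of_isIntegral_of_isField'`). -/
theorem max_of_int {σ : Type} [Finite σ] {p : ℕ} (hp : p.Prime)
    (Q : Ideal (MvPolynomial σ ℤ)) [hQ : Q.IsPrime] (hpQ : C (p : ℤ) ∈ Q) (L : Type) [Field L]
    (χ : MvPolynomial σ ℤ →+* L) (hχ : ∀ h, χ h = 0 ↔ h ∈ Q)
    (hint : ∀ i, IsIntegral ℤ (χ (X i))) : Q.IsMaximal := by
  have hpL : (p : L) = 0 := by
    have h1 := (hχ (C (p : ℤ))).2 hpQ
    have h2 : χ (C (p : ℤ)) = (p : L) := by
      have : (C (p : ℤ) : MvPolynomial σ ℤ) = ((p : ℕ) : MvPolynomial σ ℤ) := by simp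
      rw [this, map_natCast]
    rw [← h2, h1]
  haveI : CharP L p := (CharP.charP_iff_prime_eq_zero hp).2 hpL
  haveI := Fact.mk hp
  letI := ZMod.algebra L p
  let A : Subalgebra (ZMod p) L :=
    { χ.range.toSubsemiring with
      algebraMap_mem' := by
        intro r
        obtain ⟨m, rfl⟩ := ZMod.intCast_surjective r
        refine ⟨C m, ?_⟩
        rw [map_intCast]
        have : (C m : MvPolynomial σ ℤ) = ((m : ℤ) : MvPolynomial σ ℤ) := by simp
        rw [this, map_intCast] }
  have hA : ∀ y, y ∈ A ↔ ∃ h, χ h = y := fun y => Iff.rfl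
  have hall : ∀ h, IsIntegral ℤ (χ h) := by
    intro h
    induction h using MvPolynomial.induction_on with
    | C a =>
      have : (C a : MvPolynomial σ ℤ) = ((a : ℤ) : MvPolynomial σ ℤ) := by simp
      rw [this, map_intCast]
      have h := isIntegral_algebraMap (R := ℤ) (A := L) (x := a)
      simpa using h
    | add f g hf hg => rw [map_add]; exact hf.add hg
    | mul_X f i hf => rw [map_mul]; exact hf.mul (hint i)
  refine Ideal.isMaximal_iff.2 ⟨fun h1 => hQ.ne_top ((Ideal.eq_top_iff_one Q).2 h1), ?_⟩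
  intro J x hJ hxQ hxJ
  have hx0 : χ x ≠ 0 := fun h => hxQ ((hχ x).1 h)
  have h2 : IsAlgebraic (ZMod p) (χ x) := (exiso_int (p := p) (hall x)).isAlgebraic
  have h3 : (χ x)⁻¹ ∈ A := A.inv_mem_of_algebraic (x := ⟨χ x, (hA _).2 ⟨x, rfl⟩⟩) h2
  obtain ⟨z, hz⟩ := (hA _).1 h3
  have h4 : x * z - 1 ∈ Q := by
    rw [← hχ, map_sub, map_mul, hz, map_one, mul_inv_cancel₀ hx0, sub_self]
  have h5 : x * z ∈ J := J.mul_mem_right z hxJ
  have h6 := J.sub_mem h5 (hJ h4)
  rwa [sub_sub_cancel] at h6

/-- If there is no singular point with `x_0 = 0`, all singular points have algebraic coordinates.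
Proof: suppose that `x i` is not integral over `ℤ`. By
`Subring.exists_le_valuationSubring_of_isIntegrallyClosedIn` (for the integral closure of `ℤ` in `L`, or by
`iInf_valuationSubring_superset`) there is a valuation subring `V` of `L` with `x i ∉ V`. Choose `j` with
`V.valuation (x j)` maximal; it is greater than `1`, and `y l = x l / x j ∈ V`, `y j = 1`, `y 0 = 1 / x j` is
in the maximal ideal. Modulo the maximal ideal (residue field of `V`, characteristic `p`) `y` is a singular
point (`Deh_aeval_smul`, `F` and its partial derivatives are homogeneous) with `y 0 = 0` and `y j = 1`: a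
contradiction. -/
theorem alg_of_sing {n d p : ℕ} (hp : p.Prime) {F : MvPolynomial (Fin (n + 1)) ℤ}
    (hF : F.IsHomogeneous d) (h : NoInf F p) (L : Type) [Field L] [CharP L p]
    (x : Fin (n + 1) → L) (hx : x 0 = 1) (hF0 : aeval x F = 0)
    (hdF : ∀ i, aeval x (pderiv i F) = 0) : ∀ i, IsIntegral ℤ (x i) := by
  by_contra hcon
  push Not at hcon
  obtain ⟨i, hi⟩ := hcon
  obtain ⟨V, hV⟩ : ∃ V : ValuationSubring L, x i ∉ V := by
    by_contra hV
    push Not at hV
    apply hi
    have h1 : x i ∈ (⨅ V : {V : ValuationSubring L // (∅ : Set L) ⊆ V.toSubring},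
        V.1.toSubring) := by
      rw [Subring.mem_iInf]
      intro W
      exact hV W.1
    rw [iInf_valuationSubring_superset] at h1
    have h2 : IsIntegral (Subring.closure (∅ : Set L)) (x i) := h1
    have : Algebra.IsIntegral ℤ (Subring.closure (∅ : Set L)) := by
      refine ⟨?_⟩
      rintro ⟨y, hy⟩
      have hy' : y ∈ (⊥ : Subring L) := by rwa [Subring.closure_empty] at hy
      obtain ⟨m, rfl⟩ := Subring.mem_bot.1 hy'
      have h3 : (⟨(m : L), hy⟩ : Subring.closure (∅ : Set L)) =
          algebraMap ℤ (Subring.closure (∅ : Set L)) m := by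
        apply Subtype.ext
        simp
      rw [h3]
      exact isIntegral_algebraMap
    exact isIntegral_trans _ h2
  obtain ⟨j, hj⟩ := Finite.exists_max (fun l => V.valuation (x l))
  have hi1 : 1 < V.valuation (x i) := by
    rw [← not_le, V.valuation_le_one_iff]
    exact hV
  have hj1 : 1 < V.valuation (x j) := hi1.trans_le (hj i)
  have hxj : x j ≠ 0 := by
    intro h0
    rw [h0, map_zero] at hj1
    exact not_lt_bot hj1
  have hvj : V.valuation (x j) ≠ 0 := (Valuation.ne_zero_iff _).2 hxj
  have hy : ∀ l, (x j)⁻¹ * x l ∈ V := by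
    intro l
    rw [← V.valuation_le_one_iff, map_mul, map_inv₀]
    calc (V.valuation (x j))⁻¹ * V.valuation (x l) ≤
          (V.valuation (x j))⁻¹ * V.valuation (x j) := mul_le_mul_right (hj l) _
      _ = 1 := inv_mul_cancel₀ hvj
  let y : Fin (n + 1) → V := fun l => ⟨(x j)⁻¹ * x l, hy l⟩
  let k := IsLocalRing.ResidueField V
  let res : V →+* k := IsLocalRing.residue V
  have hpV : ((p : ℕ) : V) = 0 := by
    apply Subtype.ext
    have : ((p : ℕ) : L) = 0 := CharP.cast_eq_zero L p
    simpa using this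
  haveI : CharP k p := (CharP.charP_iff_prime_eq_zero hp).2 (by
    rw [← map_natCast res, hpV, map_zero])
  have hev : ∀ (e : ℕ) (G : MvPolynomial (Fin (n + 1)) ℤ), G.IsHomogeneous e → aeval x G = 0 →
      aeval (fun l => res (y l)) G = 0 := by
    intro e G hG h0
    refine (exiso_map res y G).trans ?_
    have h1 : aeval y G = 0 := by
      apply Subtype.val_injective
      have h2 := exiso_map V.subtype y G
      have h3 : (fun l => V.subtype (y l)) = fun l => (x j)⁻¹ * x l := rfl
      rw [h3, Deh_aeval_smul _ _ hG, h0, mul_zero] at h2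
      exact h2.symm
    rw [h1, map_zero]
  have hy0 : res (y 0) = 0 := by
    show IsLocalRing.residue V (y 0) = 0
    rw [IsLocalRing.residue_eq_zero_iff, V.valuation_lt_one_iff]
    show V.valuation ((x j)⁻¹ * x 0) < 1
    rw [hx, mul_one, map_inv₀]
    exact inv_lt_one_of_one_lt₀ hj1
  have h1 := h k (fun l => res (y l)) hy0 (hev d F hF hF0)
    (fun l => hev (d - 1) _ hF.pderiv (hdF l))
  have h2 : res (y j) = 0 := congrFun h1 j
  have h3 : y j = 1 := Subtype.ext (inv_mul_cancel₀ hxj)
  rw [h3, map_one] at h2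
  exact one_ne_zero h2

/-- The same for a point with `x m = 1`: `x 0 ≠ 0` by `NoInf`, `alg_of_sing` for `x i / x 0`, and
`x i = (x i / x 0) / (x m / x 0)`; the inverse of an element of `L` integral over `ℤ` is integral over `ℤ` (it
is algebraic over the prime field `ZMod p`). -/
theorem int_of_sing {n d p : ℕ} (hp : p.Prime) {F : MvPolynomial (Fin (n + 1)) ℤ}
    (hF : F.IsHomogeneous d) (h : NoInf F p) (L : Type) [Field L] [CharP L p]
    (x : Fin (n + 1) → L) (m : Fin (n + 1)) (hx : x m = 1) (hF0 : aeval x F = 0)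
    (hdF : ∀ i, aeval x (pderiv i F) = 0) : ∀ i, IsIntegral ℤ (x i) := by
  have hx0 : x 0 ≠ 0 := by
    intro h0
    have h1 := h L x h0 hF0 hdF
    have h2 : x m = 0 := congrFun h1 m
    rw [hx] at h2
    exact one_ne_zero h2
  have hev : ∀ (e : ℕ) (G : MvPolynomial (Fin (n + 1)) ℤ), G.IsHomogeneous e → aeval x G = 0 →
      aeval (fun l => (x 0)⁻¹ * x l) G = 0 := by
    intro e G hG h0
    rw [Deh_aeval_smul _ _ hG, h0, mul_zero]
  have h1 := alg_of_sing hp hF h L (fun l => (x 0)⁻¹ * x l) (inv_mul_cancel₀ hx0) (hev d F hF hF0)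
    (fun l => hev (d - 1) _ hF.pderiv (hdF l))
  have h2 : IsIntegral ℤ (x 0) := by
    have h3 := exiso_inv hp (h1 m)
    simp only [hx, mul_one, inv_inv] at h3
    exact h3
  intro i
  have h3 := h2.mul (h1 i)
  simp only [← mul_assoc] at h3
  rwa [mul_inv_cancel₀ hx0, one_mul] at h3

end Pool.Agent.EvM
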