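import Pool.Agent.EvM.ExTz
import Pool.Agent.EvM.ExIso
import Pool.Agent.NT9.Fin

set_option autoImplicit false

/-! # ExGood: the hypotheses of the resolution theorem -/

namespace Pool.Agent.EvM

open MvPolynomial Pool.Agent.NH Pool.Agent.NT9

/-- The point of a homomorphism `χ` from the coordinate ring of the chart `m`. -/
noncomputable def pt {n : ℕ} {L : Type} [Field L] (m : Fin (n + 1))
    (χ : MvPolynomial {i : Fin (n + 1) // i ≠ m} ℤ →+* L) : Fin (n + 1) → L :=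
  fun i => if h : i ≠ m then χ (X ⟨i, h⟩) else 1

theorem pt_self {n : ℕ} {L : Type} [Field L] (m : Fin (n + 1))
    (χ : MvPolynomial {i : Fin (n + 1) // i ≠ m} ℤ →+* L) : pt m χ m = 1 := by
  simp only [pt]
  rw [dif_neg (by simp)]

theorem char_of_mem {σ L : Type} [Field L] {p : ℕ} (hp : p.Prime)
    (χ : MvPolynomial σ ℤ →+* L) (h : χ (C (p : ℤ)) = 0) : CharP L p := by
  apply (CharP.charP_iff_prime_eq_zero hp).mpr
  have h2 : (χ.comp C) = Int.castRingHom L := RingHom.ext_int _ _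
  have h3 : χ (C (p : ℤ)) = ((p : ℤ) : L) := congrArg (fun ψ : ℤ →+* L => ψ p) h2
  rw [h3] at h
  exact_mod_cast h

/-- See `NT9.TlC_aux`. -/
theorem aeval_pt {n : ℕ} {L : Type} [Field L] (m : Fin (n + 1))
    (χ : MvPolynomial {i : Fin (n + 1) // i ≠ m} ℤ →+* L) (G : MvPolynomial (Fin (n + 1)) ℤ) :
    aeval (pt m χ) G = χ (deh m G) := by
  have hxm : pt m χ m = 1 := by
    simp only [pt]
    rw [dif_neg (by simp)]
  have h1 : (aeval (fun i : {i : Fin (n + 1) // i ≠ m} => pt m χ i.1) :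
      MvPolynomial {i : Fin (n + 1) // i ≠ m} ℤ →ₐ[ℤ] L) = χ.toIntAlgHom := by
    apply MvPolynomial.algHom_ext
    intro i
    rw [aeval_X]
    simp only [pt]
    rw [dif_pos i.2]
    rfl
  rw [← aeval_deh (pt m χ) hxm G, h1]
  rfl

/-- A prime ideal of the chart `m` which contains `deh m F` and its partial derivatives gives a
singular point (`euler_deh` for the partial derivative with respect to `x_m`). -/
theorem sing_pt {n d : ℕ} {F : MvPolynomial (Fin (n + 1)) ℤ} (hF : F.IsHomogeneous d)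
    {L : Type} [Field L] (m : Fin (n + 1)) (χ : MvPolynomial {i : Fin (n + 1) // i ≠ m} ℤ →+* L)
    (hf : χ (deh m F) = 0) (hd : ∀ i, χ (pderiv i (deh m F)) = 0) :
    aeval (pt m χ) F = 0 ∧ ∀ i, aeval (pt m χ) (pderiv i F) = 0 := by
  refine ⟨by rw [aeval_pt]; exact hf, fun i => ?_⟩
  rw [aeval_pt]
  by_cases hi : i ≠ m
  · have := hd ⟨i, hi⟩
    rwa [pderiv_deh] at this
  · rw [not_not] at hi
    rw [hi, euler_deh hF, map_sub, map_mul, hf, mul_zero, map_sum, zero_sub, neg_eq_zero]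
    refine Finset.sum_eq_zero fun j _ => ?_
    rw [map_mul, hd j, mul_zero]

/-- `Iso (deh m F)` from `max_of_int` (`L` = fraction field of `ℤ[x] / Q`, `sing_pt`). -/
theorem iso_of_int {n d : ℕ} {F : MvPolynomial (Fin (n + 1)) ℤ} (hF : F.IsHomogeneous d)
    (h : ∀ p : ℕ, p.Prime → ∀ (L : Type) [Field L] [CharP L p] (x : Fin (n + 1) → L)
      (m : Fin (n + 1)), x m = 1 → aeval x F = 0 → (∀ i, aeval x (pderiv i F) = 0) →
      ∀ i, IsIntegral ℤ (x i)) (m : Fin (n + 1)) : Iso (deh m F) := by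
  intro Q hQ hp hf hd
  obtain ⟨p, hp, hpQ⟩ := hp
  have _ := hQ
  let L := FractionRing (MvPolynomial {i : Fin (n + 1) // i ≠ m} ℤ ⧸ Q)
  let χ : MvPolynomial {i : Fin (n + 1) // i ≠ m} ℤ →+* L :=
    (algebraMap (MvPolynomial {i : Fin (n + 1) // i ≠ m} ℤ ⧸ Q) L).comp (Ideal.Quotient.mk Q)
  have hχ : ∀ g, χ g = 0 ↔ g ∈ Q := by
    intro g
    rw [RingHom.comp_apply, FaithfulSMul.algebraMap_eq_zero_iff, Ideal.Quotient.eq_zero_iff_mem]
  have hchar : CharP L p := char_of_mem hp χ ((hχ _).2 hpQ)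
  obtain ⟨h0, h1⟩ := sing_pt hF m χ ((hχ _).2 hf) (fun i => (hχ _).2 (hd i))
  refine max_of_int hp Q hpQ L χ hχ (fun i => ?_)
  have h2 := h p hp L (pt m χ) m (pt_self m χ) h0 h1 i.1
  simp only [pt] at h2
  rwa [dif_pos i.2] at h2

/-- `chart_crk` for `L = ℤ[x] / M` (`exists_prime_mem` for the prime number in `M`; `deh m F ∈ M ^ 2` gives
that the partial derivatives are in `M`, `Pool.Agent.QuadModel.derivation_mem`). -/
theorem crk_of_rank {n d : ℕ} (hn : 1 ≤ n) {F : MvPolynomial (Fin (n + 1)) ℤ}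
    (hF : F.IsHomogeneous d) (m : Fin (n + 1))
    (h : ∀ p : ℕ, p.Prime → ∀ (L : Type) [Field L] [CharP L p] (x : Fin (n + 1) → L), x m = 1 →
      aeval x F = 0 → (∀ i, aeval x (pderiv i F) = 0) → (∀ i, i < m → x i = 0) →
      n - 1 ≤ (hessAt m F x).rank)
    (M : Ideal (MvPolynomial {i : Fin (n + 1) // i ≠ m} ℤ)) (hM : M.IsMaximal)
    (hX : ∀ i : {i : Fin (n + 1) // i ≠ m}, i.1 < m → X i ∈ M) (hf : deh m F ∈ M ^ 2) :
    Tan (deh m F) M ∨ Crk (deh m F) M := by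
  classical
  obtain ⟨p, hp, hpM⟩ := exists_prime_mem M hM
  have _ := hM
  have hd : ∀ i, pderiv i (deh m F) ∈ M := fun i =>
    Pool.Agent.QuadModel.derivation_mem (pderiv i) M hf
  have hfM : deh m F ∈ M := Ideal.pow_le_self two_ne_zero hf
  let _ : Field (MvPolynomial {i : Fin (n + 1) // i ≠ m} ℤ ⧸ M) := Ideal.Quotient.field M
  let χ : MvPolynomial {i : Fin (n + 1) // i ≠ m} ℤ →+*
    (MvPolynomial {i : Fin (n + 1) // i ≠ m} ℤ ⧸ M) := Ideal.Quotient.mk M
  have hχ : ∀ g, χ g = 0 ↔ g ∈ M := fun g => Ideal.Quotient.eq_zero_iff_mem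
  have hchar : CharP (MvPolynomial {i : Fin (n + 1) // i ≠ m} ℤ ⧸ M) p :=
    char_of_mem hp χ ((hχ _).2 hpM)
  obtain ⟨h0, h1⟩ := sing_pt hF m χ ((hχ _).2 hfM) (fun i => (hχ _).2 (hd i))
  have hr := h p hp (MvPolynomial {i : Fin (n + 1) // i ≠ m} ℤ ⧸ M) (pt m χ) (pt_self m χ) h0 h1
    (fun i hi => by
      simp only [pt]
      rw [dif_pos (ne_of_lt hi)]
      exact (hχ _).2 (hX ⟨i, ne_of_lt hi⟩ hi))
  have hcard : Fintype.card {i : Fin (n + 1) // i ≠ m} = n := by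
    rw [Fintype.card_subtype_compl, Fintype.card_fin, Fintype.card_subtype_eq]
    omega
  have hne : Nonempty {i : Fin (n + 1) // i ≠ m} := by
    rw [← Fintype.card_pos_iff, hcard]
    omega
  have hhess : (hess (deh m F)).map χ = hessAt m F (pt m χ) := by
    ext a b
    rw [hess_deh, hessAt, Matrix.map_apply, Matrix.of_apply, Matrix.of_apply, aeval_pt]
  rcases chart_crk hp (deh m F) M hpM hf _ χ hχ Ideal.Quotient.mk_surjective
    (by rw [hcard, hhess]; exact hr) with h2 | h2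
  · exact Or.inl (Or.inl h2)
  · exact Or.inr h2

theorem goodC_of_mild {n d : ℕ} (hn : 2 ≤ n) {F : MvPolynomial (Fin (n + 1)) ℤ}
    (hF : F.IsHomogeneous d) (h : ∀ p : ℕ, p.Prime → MildAt F p) : GoodC F := by
  intro m
  refine ⟨iso_of_int hF (fun p hp L _ _ x m hx h0 h1 => (h p hp L x m hx h0 h1).1) m, ?_⟩
  intro M hM hX hf
  exact crk_of_rank (by omega) hF m
    (fun p hp L _ _ x hx h0 h1 _ => (h p hp L x m hx h0 h1).2) M hM hX hf

/-- `int_of_sing`, `iso_of_int`, `crk_of_rank`: for `m ≠ 0` there is no point with `x_0 = 0`. -/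
theorem goodC_of_good {n d : ℕ} (hn : 2 ≤ n) {F : MvPolynomial (Fin (n + 1)) ℤ}
    (hF : F.IsHomogeneous d) (h : ∀ p : ℕ, p.Prime → Good F p) : GoodC F := by
  intro m
  refine ⟨iso_of_int hF (fun p hp L _ _ x m hx h0 h1 =>
    int_of_sing hp hF (h p hp).1 L x m hx h0 h1) m, ?_⟩
  intro M hM hX hf
  refine crk_of_rank (by omega) hF m (fun p hp L _ _ x hx h0 h1 hlt => ?_) M hM hX hf
  by_cases hm : m = 0
  · subst hm
    exact (h p hp).2 L x hx (fun i _ _ => h1 i)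
  · exfalso
    have hx0 : x 0 = 0 := hlt 0 (Fin.pos_iff_ne_zero.2 hm)
    have := (h p hp).1 L x hx0 h0 h1
    rw [this] at hx
    exact zero_ne_one hx

end Pool.Agent.EvM
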