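import Pool.Agent.EvM.ExDefs

set_option autoImplicit false

/-! # ExLin: linear algebra of the bordered Hessian -/

namespace Pool.Agent.EvM

open MvPolynomial Pool.Agent.NH Pool.Agent.NT9

/-- A symmetric matrix of corank at most `1` is nondegenerate on some hyperplane `c · v = 0`, in the sense
that `H v = ρ c` and `c · v = 0` imply `v = 0`, if `2 ≠ 0` or if it is singular.
Proof: if `det H = 0` let `H z = 0`, `z i ≠ 0`, and `c = e_i`; the kernel of `H` is spanned by `z` (rank).
`0 = z · H v = ρ z i`, so `ρ = 0`, `v = λ z`, `0 = v i = λ z i`. If `det H ≠ 0` and `2 ≠ 0` there is `y` with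
`y · H y ≠ 0` (otherwise `2 (y · H z) = 0` for all `y`, `z` by polarisation, so `H = 0`); `c = H y`; then
`H v = ρ H y`, so `v = ρ y`, and `0 = c · v = ρ (y · H y)`. -/
theorem exists_border {k : Type} [Field k] {ι : Type} [Fintype ι] [DecidableEq ι] [Nonempty ι]
    (H : Matrix ι ι k) (hs : H.IsSymm) (hr : Fintype.card ι - 1 ≤ H.rank)
    (h : (2 : k) ≠ 0 ∨ H.det = 0) : ∃ c : ι → k, (∃ i, c i ≠ 0) ∧
      ∀ (v : ι → k) (ρ : k), (∀ i, ∑ j, H i j * v j = ρ * c i) → ∑ i, c i * v i = 0 → v = 0 := by
  classical
  have hsym : ∀ i j, H i j = H j i := fun i j => by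
    have := congrFun (congrFun hs j) i
    rwa [Matrix.transpose_apply] at this
  have hadj : ∀ v w : ι → k, ∑ i, w i * ∑ j, H i j * v j = ∑ i, v i * ∑ j, H i j * w j := by
    intro v w
    simp_rw [Finset.mul_sum]
    rw [Finset.sum_comm]
    refine Finset.sum_congr rfl fun i _ => Finset.sum_congr rfl fun j _ => ?_
    rw [hsym j i]
    ring
  by_cases hdet : H.det = 0
  · obtain ⟨z, hz0, hz⟩ := Matrix.exists_mulVec_eq_zero_iff.2 hdet
    obtain ⟨i, hi⟩ : ∃ i, z i ≠ 0 := by
      by_contra hcon
      push Not at hcon
      exact hz0 (funext hcon)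
    have hzz : ∀ l, ∑ j, H l j * z j = 0 := fun l => congrFun hz l
    have hker : ∀ v : ι → k, H.mulVec v = 0 → ∃ c : k, v = c • z := by
      intro v hv
      have h1 : Module.finrank k (LinearMap.ker H.mulVecLin) ≤ 1 := by
        have h2 := LinearMap.finrank_range_add_finrank_ker H.mulVecLin
        rw [Module.finrank_fintype_fun_eq_card] at h2
        have h3 : Module.finrank k (LinearMap.range H.mulVecLin) = H.rank := rfl
        have h4 : 0 < Fintype.card ι := Fintype.card_pos
        omega
      have hzk : z ∈ LinearMap.ker H.mulVecLin := by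
        rw [LinearMap.mem_ker, Matrix.mulVecLin_apply]
        exact hz
      have hvk : v ∈ LinearMap.ker H.mulVecLin := by
        rw [LinearMap.mem_ker, Matrix.mulVecLin_apply]
        exact hv
      have h5 : Module.finrank k (LinearMap.ker H.mulVecLin) = 1 := by
        apply le_antisymm h1
        rw [Nat.one_le_iff_ne_zero]
        intro h6
        rw [Submodule.finrank_eq_zero] at h6
        rw [h6, Submodule.mem_bot] at hzk
        exact hz0 hzk
      have h6 := (finrank_eq_one_iff_of_nonzero' (⟨z, hzk⟩ : LinearMap.ker H.mulVecLin)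
        (fun h => hz0 (congrArg Subtype.val h))).1 h5 ⟨v, hvk⟩
      obtain ⟨c, hc⟩ := h6
      exact ⟨c, (congrArg Subtype.val hc).symm⟩
    refine ⟨Pi.single i 1, ⟨i, by rw [Pi.single_eq_same]; exact one_ne_zero⟩, ?_⟩
    intro v ρ hv hcv
    have hvi : v i = 0 := by
      rw [Finset.sum_eq_single i] at hcv
      · rwa [Pi.single_eq_same, one_mul] at hcv
      · intro j _ hj
        rw [Pi.single_eq_of_ne hj, zero_mul]
      · intro h'
        exact absurd (Finset.mem_univ i) h'
    have h1 : ρ * z i = 0 := by
      have h2 := hadj v z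
      simp_rw [hv, hzz] at h2
      rw [Finset.sum_eq_single i] at h2
      · rw [Pi.single_eq_same, mul_one] at h2
        simp only [mul_zero, Finset.sum_const_zero] at h2
        rw [mul_comm]
        exact h2
      · intro j _ hj
        rw [Pi.single_eq_of_ne hj, mul_zero, mul_zero]
      · intro h'
        exact absurd (Finset.mem_univ i) h'
    have hρ : ρ = 0 := (mul_eq_zero.1 h1).resolve_right hi
    have hv0 : H.mulVec v = 0 := by
      funext l
      show ∑ j, H l j * v j = 0
      rw [hv l, hρ, zero_mul]
    obtain ⟨c, rfl⟩ := hker v hv0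
    have hc : c * z i = 0 := hvi
    rw [(mul_eq_zero.1 hc).resolve_right hi, zero_smul]
  · have h2 : (2 : k) ≠ 0 := h.resolve_right hdet
    have hy : ∃ y : ι → k, ∑ i, y i * ∑ j, H i j * y j ≠ 0 := by
      by_contra hcon
      push Not at hcon
      apply hdet
      have hQ : ∀ a b : ι, H a b = 0 := by
        have hd : ∀ a, H a a = 0 := by
          intro a
          have h3 := hcon (Pi.single a 1)
          rw [Finset.sum_eq_single a] at h3
          · rw [Pi.single_eq_same, one_mul, Finset.sum_eq_single a] at h3
            · rwa [Pi.single_eq_same, mul_one] at h3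
            · intro j _ hj
              rw [Pi.single_eq_of_ne hj, mul_zero]
            · intro h'
              exact absurd (Finset.mem_univ a) h'
          · intro j _ hj
            rw [Pi.single_eq_of_ne hj, zero_mul]
          · intro h'
            exact absurd (Finset.mem_univ a) h'
        intro a b
        have hs1 : ∀ (f : ι → k) (c : ι), ∑ i, (Pi.single c (1 : k) : ι → k) i * f i = f c := by
          intro f c
          rw [Finset.sum_eq_single c]
          · rw [Pi.single_eq_same, one_mul]
          · intro j _ hj
            rw [Pi.single_eq_of_ne hj, zero_mul]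
          · intro h'
            exact absurd (Finset.mem_univ c) h'
        have hs2 : ∀ (f : ι → k) (c : ι), ∑ i, f i * (Pi.single c (1 : k) : ι → k) i = f c := by
          intro f c
          rw [← hs1 f c]
          exact Finset.sum_congr rfl fun _ _ => mul_comm _ _
        have h3 := hcon (fun i => (Pi.single a (1 : k) : ι → k) i + (Pi.single b (1 : k) : ι → k) i)
        simp only [add_mul, mul_add, Finset.sum_add_distrib, hs1, hs2] at h3
        rw [hd a, hd b, hsym b a] at h3
        have h4 : 2 * H a b = 0 := by linear_combination h3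
        exact (mul_eq_zero.1 h4).resolve_left h2
      have : H = 0 := by
        ext a b
        exact hQ a b
      rw [this]
      exact Matrix.det_zero
    obtain ⟨y, hy⟩ := hy
    refine ⟨fun i => ∑ j, H i j * y j, ?_, ?_⟩
    · by_contra hcon
      push Not at hcon
      apply hy
      exact Finset.sum_eq_zero fun i _ => by rw [hcon i, mul_zero]
    · intro v ρ hv hcv
      have h3 : v = ρ • y := by
        have h4 : H.mulVec (v - ρ • y) = 0 := by
          funext i
          rw [Matrix.mulVec_sub, Matrix.mulVec_smul]
          show (∑ j, H i j * v j) - ρ * ∑ j, H i j * y j = 0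
          rw [hv i, sub_self]
        have h5 : v - ρ • y = 0 := by
          by_contra h6
          exact hdet (Matrix.exists_mulVec_eq_zero_iff.1 ⟨_, h6, h4⟩)
        exact sub_eq_zero.1 h5
      have h6 : ρ * ∑ i, y i * ∑ j, H i j * y j = 0 := by
        rw [← hcv, h3, Finset.mul_sum]
        refine Finset.sum_congr rfl fun i _ => ?_
        show ρ * (y i * ∑ j, H i j * y j) = (∑ j, H i j * y j) * (ρ * y i)
        ring
      rw [h3, (mul_eq_zero.1 h6).resolve_right hy, zero_smul]

/-- An alternating matrix of odd size is singular in characteristic `2`.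
Proof: in the Leibniz formula the terms of a permutation `π` and of `π⁻¹` are equal, so they cancel if
`π ≠ π⁻¹` (`Finset.sum_involution`); an involution of a set of odd size has a fixed point, so its term is
`0`. -/
theorem det_alt_odd {k : Type} [Field k] {ι : Type} [Fintype ι] [DecidableEq ι]
    (H : Matrix ι ι k) (hs : H.IsSymm) (hd : ∀ i, H i i = 0) (h2 : (2 : k) = 0)
    (hodd : Odd (Fintype.card ι)) : H.det = 0 := by
  have hinv : ∀ σ : Equiv.Perm ι, ∏ i, H (σ⁻¹ i) i = ∏ i, H (σ i) i := by
    intro σ
    rw [← Equiv.prod_comp σ (fun i => H (σ⁻¹ i) i)]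
    refine Finset.prod_congr rfl fun i _ => ?_
    have h3 : σ⁻¹ (σ i) = i := Equiv.symm_apply_apply σ i
    rw [h3]
    exact hs.apply _ _
  rw [Matrix.det_apply]
  refine Finset.sum_involution (fun σ _ => σ⁻¹) ?_ ?_ (fun σ _ => Finset.mem_univ _)
    (fun σ _ => inv_inv σ)
  · intro σ _
    rw [hinv, Equiv.Perm.sign_inv]
    have h3 : ∀ x : k, x + x = 0 := fun x => by rw [← two_mul, h2, zero_mul]
    exact h3 _
  · intro σ _ hne hσ
    apply hne
    have h3 : ¬ 2 ∣ Fintype.card ι := by
      rwa [← even_iff_two_dvd, Nat.not_even_iff_odd]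
    obtain ⟨a, ha⟩ := Equiv.Perm.exists_fixed_point_of_prime (p := 2) (n := 1) h3 (σ := σ) (by
      rw [pow_one, pow_two]
      nth_rw 1 [← hσ]
      exact inv_mul_cancel σ)
    rw [Finset.prod_eq_zero (Finset.mem_univ a) (by rw [ha, hd]), smul_zero]

/-- An alternating matrix of even size and corank at most `1` is invertible (characteristic `2`).
Proof: otherwise its kernel is spanned by some `z` with `z i ≠ 0`. The submatrix without the row and the
column `i` is injective: if it kills `w`, extend `w` by `w i = 0`; then `H w` is supported at `i`, and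
`0 = z · H w = z i (H w) i`, so `H w = 0`, `w = λ z`, `w i = 0`, `w = 0`. It is alternating of odd size: a
contradiction to `det_alt_odd`. -/
theorem alt_rank_even {k : Type} [Field k] {ι : Type} [Fintype ι] [DecidableEq ι]
    (H : Matrix ι ι k) (hs : H.IsSymm) (hd : ∀ i, H i i = 0) (h2 : (2 : k) = 0)
    (heven : Even (Fintype.card ι)) (hr : Fintype.card ι - 1 ≤ H.rank) : H.det ≠ 0 := by
  intro hdet
  obtain ⟨z, hz, hHz⟩ := Matrix.exists_mulVec_eq_zero_iff.2 hdet
  obtain ⟨i, hi⟩ : ∃ i, z i ≠ 0 := by
    by_contra h
    push Not at h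
    exact hz (funext h)
  -- the kernel is at most one dimensional
  have hker : Module.finrank k (LinearMap.ker H.mulVecLin) ≤ 1 := by
    have h3 := LinearMap.finrank_range_add_finrank_ker H.mulVecLin
    rw [Module.finrank_fintype_fun_eq_card] at h3
    have h4 : H.rank = Module.finrank k (LinearMap.range H.mulVecLin) := rfl
    omega
  obtain ⟨v, hv⟩ := finrank_le_one_iff.1 hker
  -- the submatrix
  set H' : Matrix {j // j ≠ i} {j // j ≠ i} k := H.submatrix (↑) (↑) with hH'
  have hdet' : H'.det = 0 := by
    refine det_alt_odd H' (hs.submatrix _) (fun j => hd _) h2 ?_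
    rw [Fintype.card_subtype_compl, Fintype.card_subtype_eq]
    have hpos : 0 < Fintype.card ι := Fintype.card_pos_iff.2 ⟨i⟩
    exact Nat.Even.sub_odd hpos heven odd_one
  obtain ⟨w', hw', hHw'⟩ := Matrix.exists_mulVec_eq_zero_iff.2 hdet'
  set w : ι → k := fun j => if h : j ≠ i then w' ⟨j, h⟩ else 0 with hw
  have hwi : w i = 0 := by
    rw [hw]
    exact dif_neg (by simp)
  have hsum : ∀ a : ι, (H.mulVec w) a = ∑ j : {j // j ≠ i}, H a j * w' j := by
    intro a
    have h5 : (H.mulVec w) a = ∑ j, H a j * w j := rfl
    rw [h5, ← Fintype.sum_subtype_add_sum_subtype (fun j => j ≠ i) (fun j => H a j * w j)]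
    have h6 : ∑ j : {j // ¬ (j ≠ i)}, H a j * w j = 0 := by
      refine Finset.sum_eq_zero fun j _ => ?_
      have h7 : (j : ι) = i := not_not.1 j.2
      rw [h7, hwi, mul_zero]
    rw [h6, add_zero]
    refine Finset.sum_congr rfl fun j _ => ?_
    rw [hw]
    simp only
    rw [dif_pos j.2]
  have hoff : ∀ a : ι, a ≠ i → (H.mulVec w) a = 0 := by
    intro a ha
    rw [hsum]
    exact congrFun hHw' ⟨a, ha⟩
  have hdot : z ⬝ᵥ H.mulVec w = 0 := by
    rw [Matrix.dotProduct_mulVec, ← Matrix.mulVec_transpose, hs.eq, hHz, zero_dotProduct]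
  have hii : (H.mulVec w) i = 0 := by
    rw [dotProduct, Finset.sum_eq_single i (fun b _ hb => by rw [hoff b hb, mul_zero])
      (fun h => absurd (Finset.mem_univ i) h)] at hdot
    exact (mul_eq_zero.1 hdot).resolve_left hi
  have hHw : H.mulVec w = 0 := by
    funext a
    by_cases ha : a = i
    · rw [ha]
      exact hii
    · exact hoff a ha
  obtain ⟨a, ha⟩ := hv ⟨z, hHz⟩
  obtain ⟨b, hb⟩ := hv ⟨w, hHw⟩
  have ha' : a * (v : ι → k) i = z i := congrFun (congrArg Subtype.val ha) i
  have hb' : b * (v : ι → k) i = w i := congrFun (congrArg Subtype.val hb) i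
  rw [hwi] at hb'
  have hvi : (v : ι → k) i ≠ 0 := by
    intro h
    rw [h, mul_zero] at ha'
    exact hi ha'.symm
  have hb0 : b = 0 := (mul_eq_zero.1 hb').resolve_right hvi
  have hw0 : w = 0 := by
    have h8 : b • (v : ι → k) = w := congrArg Subtype.val hb
    rw [← h8, hb0, zero_smul]
  refine hw' (funext fun j => ?_)
  have h9 := congrFun hw0 j.1
  rw [hw] at h9
  simp only at h9
  rw [dif_pos j.2] at h9
  exact h9

/-- A tridiagonal matrix (more generally `H a b = 0` for `b > a + 1`) with nonzero superdiagonal has
corank at most `1`. Proof: the submatrix with the rows `1, ..., n - 1` and the columns `2, ..., n` is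
triangular with nonzero diagonal. -/
theorem rank_tri {L : Type} [Field L] {n : ℕ}
    (H : Matrix {i : Fin (n + 1) // i ≠ 0} {i : Fin (n + 1) // i ≠ 0} L)
    (h1 : ∀ a b : {i : Fin (n + 1) // i ≠ 0}, a.1.val + 1 < b.1.val → H a b = 0)
    (h2 : ∀ a b : {i : Fin (n + 1) // i ≠ 0}, a.1.val + 1 = b.1.val → H a b ≠ 0) :
    n - 1 ≤ H.rank := by
  rcases Nat.eq_zero_or_pos n with hn | hn
  · omega
  have h1n : (⟨1, by omega⟩ : Fin (n + 1)) ≠ 0 := by
    intro h
    have := congrArg Fin.val h
    simp at this
  let o : {i : Fin (n + 1) // i ≠ 0} := ⟨⟨1, by omega⟩, h1n⟩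
  have hcard : Fintype.card {i : Fin (n + 1) // i ≠ 0} = n := by
    rw [Fintype.card_subtype_compl, Fintype.card_fin, Fintype.card_subtype_eq]
    omega
  have hker : Module.finrank L (LinearMap.ker H.mulVecLin) ≤ 1 := by
    let f : LinearMap.ker H.mulVecLin →ₗ[L] L :=
      (LinearMap.proj o).comp (LinearMap.ker H.mulVecLin).subtype
    have hf : Function.Injective f := by
      rw [← LinearMap.ker_eq_bot, LinearMap.ker_eq_bot']
      rintro ⟨v, hv⟩ h0
      have hv1 : v o = 0 := h0
      have hvH : ∀ a, ∑ b, H a b * v b = 0 := by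
        intro a
        rw [LinearMap.mem_ker, Matrix.mulVecLin_apply] at hv
        exact congrFun hv a
      have hall : ∀ m : ℕ, ∀ b : {i : Fin (n + 1) // i ≠ 0}, b.1.val ≤ m → v b = 0 := by
        intro m
        induction m with
        | zero =>
          intro b hb
          exfalso
          apply b.2
          apply Fin.ext
          rw [Fin.val_zero]
          omega
        | succ m ih =>
          intro b hb
          rcases Nat.lt_or_ge b.1.val (m + 1) with hlt | hge
          · exact ih b (by omega)
          have hbm : b.1.val = m + 1 := by omega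
          rcases Nat.eq_zero_or_pos m with hm | hm
          · have : b = o := by
              apply Subtype.ext
              ext
              show b.1.val = 1
              omega
            rw [this, hv1]
          · have hbl := b.1.isLt
            let a : {i : Fin (n + 1) // i ≠ 0} := ⟨⟨m, by omega⟩, by
              intro h
              have := congrArg Fin.val h
              simp at this
              omega⟩
            have ha : a.1.val = m := rfl
            have h3 := hvH a
            rw [Finset.sum_eq_single b] at h3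
            · exact (mul_eq_zero.1 h3).resolve_left (h2 a b (by omega))
            · intro c _ hc
              rcases Nat.lt_or_ge (m + 1) c.1.val with h4 | h4
              · rw [h1 a c (by omega), zero_mul]
              · have h5 : c.1.val ≠ b.1.val := fun h => hc (Subtype.ext (Fin.ext h))
                rw [ih c (by omega), mul_zero]
            · intro h'
              exact absurd (Finset.mem_univ b) h'
      apply Subtype.ext
      funext b
      exact hall b.1.val b le_rfl
    have := LinearMap.finrank_le_finrank_of_injective hf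
    rwa [Module.finrank_self] at this
  have h3 := LinearMap.finrank_range_add_finrank_ker H.mulVecLin
  rw [Module.finrank_fintype_fun_eq_card, hcard] at h3
  have h4 : Module.finrank L (LinearMap.range H.mulVecLin) = H.rank := rfl
  omega

end Pool.Agent.EvM
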