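import Pool.Agent.EvM.EkTail

set_option autoImplicit false

/-! # ExTail: the large primes (helper39) -/

namespace Pool.Agent.EvM

open MvPolynomial Pool.Agent.NH Pool.Agent.NT9

theorem tailC {n d : ℕ} (hn : 2 ≤ n) (hd : 3 ≤ d) : ∀ ε : ℝ, 0 < ε → ∃ M₀ : ℕ, ∀ M P : ℕ,
    M₀ ≤ M → 1 ≤ P → (∀ p : ℕ, p.Prime → M < p → ¬ p ∣ P) → ∃ L₀ : ℕ, ∀ L : ℕ, L₀ ≤ L →
      ∀ c₀ : Mon n d → ℤ, (∀ α, |c₀ α| ≤ 2 * P * L) →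
        (Nat.card {x : Mon n d → Fin L // ∃ p : ℕ, p.Prime ∧ M < p ∧
          ¬ Good (toF fun α => c₀ α + P * ((x α : ℕ) : ℤ)) p} : ℝ) ≤
          ε * (L : ℝ) ^ Fintype.card (Mon n d) := by
  haveI : Nonempty (Mon n d) := ⟨⟨Finsupp.single 0 d, single_mem n d 0⟩⟩
  exact sv_tail (ek_sv hn hd)

end Pool.Agent.EvM
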