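import Pool.Agent.EvM.ExFam
import Pool.Agent.EvM.ExForm
import Pool.Agent.EvM.ExGood
import Pool.Agent.EvM.ExDens
import Pool.Agent.EvM.ExGeo
import Pool.Agent.EvM.ExTail
import Pool.Agent.NT9.TlA

set_option autoImplicit false

/-! # ExMain: the main theorems -/

namespace Pool.Agent.EvM

open MvPolynomial Pool.Agent.NH Pool.Agent.NT9

theorem mild_model {n d : ℕ} (hn : 2 ≤ n) (hd : 2 ≤ d) {F : MvPolynomial (Fin (n + 1)) ℤ}
    (hF : F.IsHomogeneous d) (hsm : SmoothQ F) (h : ∀ p : ℕ, p.Prime → MildAt F p) :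
    HasRegularModel F :=
  geoC hn hd hF hsm (goodC_of_mild hn hF h)

theorem every_member {n d : ℕ} (hn : 2 ≤ n) (hd : 3 ≤ d) : ∃ c : ℝ, 0 < c ∧ ∃ H₀ : ℕ,
    ∀ H : ℕ, H₀ ≤ H → c * ((Box n d H).ncard : ℝ) ≤
      ({F ∈ Box n d H | SmoothQ F ∧ ∀ a b : ℤ, SmoothQ (fam d F a b) →
        HasRegularModel (fam d F a b)}.ncard : ℝ) := by
  obtain ⟨c, hc, H₁, h⟩ := dens_abs (n := n) (d := d) Good (fun p F F' => good_congr)
    (fun p hp => ex_forms hn hd hp) (tailC hn hd)
  obtain ⟨M, H₂, h2⟩ := tail_all n d hd (c / 2) (by positivity)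
  refine ⟨c / 2, by positivity, max H₁ H₂, fun H hH => ?_⟩
  have e1 := h H ((le_max_left _ _).trans hH)
  have e2 := h2 H ((le_max_right _ _).trans hH)
  set A := {F ∈ Box n d H | ∀ p : ℕ, p.Prime → Good F p} with hA
  set B := {F ∈ Box n d H | ¬ (SmoothQ F ∧ ∀ p : ℕ, p.Prime → M < p → NodalAt F p)} with hB
  set R := {F ∈ Box n d H | SmoothQ F ∧ ∀ a b : ℤ, SmoothQ (fam d F a b) →
        HasRegularModel (fam d F a b)} with hR
  have hfin := box_finite n d H
  have hsub : A ⊆ B ∪ R := by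
    rintro F ⟨hF, hg⟩
    by_cases hs : SmoothQ F
    · refine Or.inr ⟨hF, hs, fun a b hsm => ?_⟩
      exact geoC hn (by omega) (fam_hom (by omega) hF.1 a b) hsm
        (goodC_of_good hn (fam_hom (by omega) hF.1 a b)
          fun p hp => good_fam (by omega) hd a b (hg p hp))
    · exact Or.inl ⟨hF, fun h => hs h.1⟩
  have hfin' : (B ∪ R).Finite := hfin.subset
    (Set.union_subset (fun F hF => hF.1) (fun F hF => hF.1))
  have h3 : (A.ncard : ℝ) ≤ B.ncard + R.ncard := by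
    have h4 := (Set.ncard_le_ncard hsub hfin').trans (Set.ncard_union_le B R)
    exact_mod_cast h4
  linarith

end Pool.Agent.EvM
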