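import Pool.Agent.EvM.ExGood
import Pool.Agent.NT9.SvMax

set_option autoImplicit false

/-! # ExNod: nodal reductions satisfy the condition `MildAt` -/

namespace Pool.Agent.EvM

open MvPolynomial Pool.Agent.NH Pool.Agent.NT9

theorem mild_of_nodal {n d p : ℕ} (hp : p.Prime) {F : MvPolynomial (Fin (n + 1)) ℤ}
    (hF : F.IsHomogeneous d) (h : NodalAt F p) : MildAt F p := by
  classical
  intro L _ _ x m hx h0 h1
  have hrank : n - 1 ≤ (hessAt m F x).rank := by
    have hdet := h L x m (by rw [hx]; exact one_ne_zero) h0 h1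
    have hcard : Fintype.card {i : Fin (n + 1) // i ≠ m} = n := by
      rw [Fintype.card_subtype_compl, Fintype.card_fin, Fintype.card_subtype_eq]
      omega
    have h2 : (hessAt m F x).rank = n := by
      rw [Matrix.rank_of_isUnit, hcard]
      rw [Matrix.isUnit_iff_isUnit_det]
      exact isUnit_iff_ne_zero.2 hdet
    omega
  refine ⟨?_, hrank⟩
  let χ : MvPolynomial {i : Fin (n + 1) // i ≠ m} ℤ →+* L :=
    ((aeval (fun i : {i : Fin (n + 1) // i ≠ m} => x i.1) :
      MvPolynomial {i : Fin (n + 1) // i ≠ m} ℤ →ₐ[ℤ] L) :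
      MvPolynomial {i : Fin (n + 1) // i ≠ m} ℤ →+* L)
  have hχ : ∀ G, χ (deh m G) = aeval x G := fun G => aeval_deh x hx G
  set Q : Ideal (MvPolynomial {i : Fin (n + 1) // i ≠ m} ℤ) := RingHom.ker χ with hQ
  have hQp : Q.IsPrime := RingHom.ker_isPrime χ
  have hpQ : C (p : ℤ) ∈ Q := by
    rw [hQ, RingHom.mem_ker]
    show aeval _ (C (p : ℤ)) = (0 : L)
    rw [aeval_C]
    simp
  have hfQ : deh m F ∈ Q := by
    rw [hQ, RingHom.mem_ker, hχ]
    exact h0
  have hdQ : ∀ i, pderiv i (deh m F) ∈ Q := by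
    intro i
    rw [hQ, RingHom.mem_ker, pderiv_deh, hχ]
    exact h1 i.1
  have hmax : Q.IsMaximal := nodal_iso hp hF h m Q hpQ hfQ hdQ
  obtain ⟨hfin, -⟩ := quot_finite hp Q hmax hpQ
  have hint : ∀ g, IsIntegral ℤ (χ g) := by
    intro g
    have h2 : IsIntegral ℤ (Ideal.Quotient.mk Q g) := by
      have : Module.Finite ℤ (MvPolynomial {i : Fin (n + 1) // i ≠ m} ℤ ⧸ Q) :=
        Module.Finite.of_finite
      exact Algebra.IsIntegral.isIntegral _
    have h3 : χ g = (Ideal.Quotient.lift Q χ (fun a ha => ha)) (Ideal.Quotient.mk Q g) := rfl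
    rw [h3]
    exact h2.map (Ideal.Quotient.lift Q χ (fun a ha => ha)).toIntAlgHom
  intro i
  by_cases hi : i ≠ m
  · have h4 := hint (X ⟨i, hi⟩)
    have h5 : χ (X ⟨i, hi⟩) = x i := by
      show aeval _ (X (⟨i, hi⟩ : {i : Fin (n + 1) // i ≠ m})) = x i
      rw [aeval_X]
    rwa [h5] at h4
  · rw [not_not] at hi
    rw [hi, hx]
    exact isIntegral_one

end Pool.Agent.EvM
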