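import Pool.Agent.EvM.ExNod
import Pool.Agent.NodHyp.Main
import Pool.Agent.NT9.TlA

set_option autoImplicit false

/-! # ExTl: almost all forms with mild reductions at the small primes are mild everywhere -/

namespace Pool.Agent.EvM

open MvPolynomial Pool.Agent.NH Pool.Agent.NT9

theorem mild_tail {n d : ℕ} (hd : 3 ≤ d) (ε : ℝ) (hε : 0 < ε) : ∃ M₀ : ℕ, ∀ M : ℕ, M₀ ≤ M →
    ∃ H₀ : ℕ, ∀ H : ℕ, H₀ ≤ H →
      ({F ∈ Box n d H | (∀ p : ℕ, p ≤ M → p.Prime → MildAt F p) ∧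
        ¬ (SmoothQ F ∧ ∀ p : ℕ, p.Prime → MildAt F p)}.ncard : ℝ) ≤
        ε * ({F ∈ Box n d H | ∀ p : ℕ, p ≤ M → p.Prime → MildAt F p}.ncard : ℝ) := by
  obtain ⟨c, hc, H₁, h1⟩ := positive_proportion_nodal (n := n) hd
  obtain ⟨M₀, H₂, h2⟩ := tail_all n d hd (ε * c) (by positivity)
  refine ⟨M₀, fun M hM => ⟨max H₁ H₂, fun H hH => ?_⟩⟩
  have e1 := h1 H ((le_max_left _ _).trans hH)
  have e2 := h2 H ((le_max_right _ _).trans hH)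
  have hfin := box_finite n d H
  have h3 : {F ∈ Box n d H | (∀ p : ℕ, p ≤ M → p.Prime → MildAt F p) ∧
      ¬ (SmoothQ F ∧ ∀ p : ℕ, p.Prime → MildAt F p)} ⊆
      {F ∈ Box n d H | ¬ (SmoothQ F ∧ ∀ p : ℕ, p.Prime → M₀ < p → NodalAt F p)} := by
    rintro F ⟨hF, ha, hb⟩
    refine ⟨hF, fun h => hb ⟨h.1, fun p hp => ?_⟩⟩
    by_cases hpM : p ≤ M
    · exact ha p hpM hp
    · exact mild_of_nodal hp hF.1 (h.2 p hp (by omega))
  have h4 : {F ∈ Box n d H | SmoothQ F ∧ ∀ p : ℕ, p.Prime → NodalAt F p} ⊆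
      {F ∈ Box n d H | ∀ p : ℕ, p ≤ M → p.Prime → MildAt F p} := by
    rintro F ⟨hF, -, ha⟩
    exact ⟨hF, fun p _ hp => mild_of_nodal hp hF.1 (ha p hp)⟩
  have h5 := Set.ncard_le_ncard h3 (hfin.subset fun F hF => hF.1)
  have h6 := Set.ncard_le_ncard h4 (hfin.subset fun F hF => hF.1)
  have h5' : ({F ∈ Box n d H | (∀ p : ℕ, p ≤ M → p.Prime → MildAt F p) ∧
      ¬ (SmoothQ F ∧ ∀ p : ℕ, p.Prime → MildAt F p)}.ncard : ℝ) ≤
      ({F ∈ Box n d H | ¬ (SmoothQ F ∧ ∀ p : ℕ, p.Prime → M₀ < p → NodalAt F p)}.ncard : ℝ) := by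
    exact_mod_cast h5
  have h6' : ({F ∈ Box n d H | SmoothQ F ∧ ∀ p : ℕ, p.Prime → NodalAt F p}.ncard : ℝ) ≤
      ({F ∈ Box n d H | ∀ p : ℕ, p ≤ M → p.Prime → MildAt F p}.ncard : ℝ) := by
    exact_mod_cast h6
  calc _ ≤ _ := h5'
    _ ≤ ε * c * ((Box n d H).ncard : ℝ) := e2
    _ = ε * (c * ((Box n d H).ncard : ℝ)) := by ring
    _ ≤ ε * ({F ∈ Box n d H | ∀ p : ℕ, p ≤ M → p.Prime → MildAt F p}.ncard : ℝ) := by
        exact mul_le_mul_of_nonneg_left (e1.trans h6') hε.le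

end Pool.Agent.EvM
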