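import Pool.Agent.NodHyp.Stmt

set_option autoImplicit false

/-!
# Every member: the notions of the main theorem
-/

namespace Pool.Agent.EvM

open MvPolynomial

/-- The Hessian matrix at `x` with respect to the variables other than `x_m`. -/
noncomputable def hessAt {n : ℕ} {L : Type} [Field L] (m : Fin (n + 1))
    (F : MvPolynomial (Fin (n + 1)) ℤ) (x : Fin (n + 1) → L) :
    Matrix {i : Fin (n + 1) // i ≠ m} {i : Fin (n + 1) // i ≠ m} L :=
  Matrix.of fun a b => aeval x (pderiv a.1 (pderiv b.1 F))

/-- The singular points of `F = 0` in characteristic `p` are isolated (their coordinates are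
algebraic over the prime field) and the Hessian matrix, in the affine chart, has corank at most `1`
there. -/
def MildAt {n : ℕ} (F : MvPolynomial (Fin (n + 1)) ℤ) (p : ℕ) : Prop :=
  ∀ (L : Type) [Field L] [CharP L p] (x : Fin (n + 1) → L) (m : Fin (n + 1)), x m = 1 →
    aeval x F = 0 → (∀ i, aeval x (pderiv i F) = 0) →
    (∀ i, IsIntegral ℤ (x i)) ∧ n - 1 ≤ (hessAt m F x).rank

end Pool.Agent.EvM
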